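import Mathlib

/-!
XV-F2 (exists_log). A nowhere zero holomorphic function on a convex open set has a holomorphic
logarithm.

Proof. `Complex.exists_continuousOn_eqOn_exp_comp` (convex, hence simply connected
and locally path connected) gives a continuous `ℓ` with `exp ℓ = g`; it is differentiable because
`ℓ u = ℓ u₀ + log (g u / g u₀)` near `u₀`. If `U = ∅` trivial.
-/

set_option autoImplicit false

namespace XV

open Filter Topology

theorem exists_log {E : Type*} [NormedAddCommGroup E] [NormedSpace ℂ E] [NormedSpace ℝ E]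
    [IsScalarTower ℝ ℂ E] {U : Set E} (hU : IsOpen U) (hc : Convex ℝ U) (g : E → ℂ)
    (hg : DifferentiableOn ℂ g U) (h0 : ∀ u ∈ U, g u ≠ 0) :
    ∃ ℓ : E → ℂ, DifferentiableOn ℂ ℓ U ∧ ∀ u ∈ U, Complex.exp (ℓ u) = g u := by
  rcases U.eq_empty_or_nonempty with rfl | hne
  · exact ⟨fun _ => 0, fun u hu => absurd hu (Set.notMem_empty u),
      fun u hu => absurd hu (Set.notMem_empty u)⟩
  have hsc : IsSimplyConnected U := by
    have : ContractibleSpace U := hc.contractibleSpace hne
    change SimplyConnectedSpace U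
    infer_instance
  have hlp : LocallyPathConnectedSpace E := inferInstance
  obtain ⟨f, hfc, hf⟩ := Complex.exists_continuousOn_eqOn_exp_comp hsc hU
    hg.continuousOn (by rintro ⟨t, ht, ht0⟩; exact h0 t ht ht0)
  have hf' : ∀ t ∈ U, Complex.exp (f t) = g t := fun t ht => hf ht
  refine ⟨f, ?_, hf'⟩
  intro t₀ ht₀
  apply DifferentiableAt.differentiableWithinAt
  have hg0 : DifferentiableAt ℂ g t₀ := hg.differentiableAt (hU.mem_nhds ht₀)
  have h1 : DifferentiableAt ℂ (fun t => f t₀ + Complex.log (g t / g t₀)) t₀ := by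
    refine (differentiableAt_const _).add ?_
    have h2 : DifferentiableAt ℂ (fun t => g t / g t₀) t₀ := by
      simpa only [div_eq_mul_inv] using hg0.mul_const (g t₀)⁻¹
    refine DifferentiableAt.clog h2 ?_
    rw [div_self (h0 t₀ ht₀)]
    exact Complex.one_mem_slitPlane
  refine h1.congr_of_eventuallyEq ?_
  have hcont : ContinuousAt f t₀ := hfc.continuousAt (hU.mem_nhds ht₀)
  have h3 : ∀ᶠ t in 𝓝 t₀, ‖f t - f t₀‖ < Real.pi := by
    have h4 : Tendsto (fun t => ‖f t - f t₀‖) (𝓝 t₀) (𝓝 0) := by
      have h5 : ContinuousAt (fun t => ‖f t - f t₀‖) t₀ :=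
        (hcont.sub continuousAt_const).norm
      have h6 := h5.tendsto
      simpa using h6
    exact h4.eventually (gt_mem_nhds Real.pi_pos)
  filter_upwards [h3, hU.mem_nhds ht₀] with t h4 h5
  have h6 : g t / g t₀ = Complex.exp (f t - f t₀) := by
    rw [Complex.exp_sub, hf' t h5, hf' t₀ ht₀]
  have h7 : |(f t - f t₀).im| < Real.pi := (Complex.abs_im_le_norm _).trans_lt h4
  rw [h6, Complex.log_exp (by linarith [(abs_lt.1 h7).1]) (by linarith [(abs_lt.1 h7).2])]
  ring

end XV
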