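import Pool.Agent.Lib.MP_228259_lc.V.Defs2

/-!
XV-C3b (exp_taylor). Leading term of `R(w + t v, e^(u₀ + t))` as `t → 0`, on the hyperplane
`c · w = u₀`.

Proof. `Ψ(w, t) = h1 (w + t v) (e^(u₀+t)) R`, `R = ∑_k R_k F^k`: `Ψ = ∑_k R_k(w + t v) e^(k u₀) e^(k t)`;
the Taylor coefficients `ρ_o(w)` of `Ψ(w, .)` at `0` are polynomials in `w`
(`ρ_o = ∑_k ∑_{i+l=o} R_{k,i} e^(k u₀) k^l / l!`, `R_k(w + t v) = ∑_i R_{k,i}(w) t^i`).
Not all `ρ_o` are divisible by `c·x - u₀`: otherwise `Ψ(w, t) = 0` for all `w` with `c·w = u₀`, all `t`;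
any `x` is `w + t v` with `t = c·x - u₀` (`c · v = 1`), so `h1 x (e^(c·x)) R = 0` for all `x`. For fixed
`x` put `x + 2 π i m v`, `m ∈ ℤ`: `h1 (x + 2 π i m v) (e^(c·x)) R = 0` for all integers `m`, hence
(polynomial in `m`) `h1 (x + s v) (e^(c·x)) R = 0` for all complex `s`; so `h1 x' f R = 0` for all `x'`
and all `f ≠ 0` (choose `x = x' + (log f - c·x') v`, `s = -(log f - c·x')`), so `R = 0`.
Take the least `o` with `c·x - u₀ ∤ ρ_o`; for `c·w = u₀` the lower coefficients vanish. Remainder: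
`‖∑_{j > o} ρ_j(w) t^j‖ ≤ K (1 + ‖w‖)^K ‖t‖^(o+1)` for `‖t‖ ≤ 1`: explicit, from
`e^(k t) = ∑_{l ≤ o} (k t)^l / l! + O(‖t‖^(o+1))` and the finitely many polynomials `R_{k,i}`
(`eval`-bounds by `(1 + ‖w‖)^K`), no infinite series of polynomials is needed.
-/

set_option autoImplicit false

namespace XV

open MvPolynomial

/-- substitution `X j ↦ X j + v j T` -/
private noncomputable def c3tau {n : ℕ} (v : Fin n → ℂ) : MvPolynomial (Fin n) ℂ →+* R1 n :=
  MvPolynomial.eval₂Hom ((Polynomial.C : MvPolynomial (Fin n) ℂ →+* R1 n).comp MvPolynomial.C)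
    (fun j => Polynomial.C (X j) + Polynomial.C (C (v j)) * Polynomial.X)

private lemma c3tau_eval {n : ℕ} (v w : Fin n → ℂ) (t : ℂ) (Q : MvPolynomial (Fin n) ℂ) :
    h1 w t (c3tau v Q) = eval (w + t • v) Q := by
  have h : (h1 w t).comp (c3tau v) = eval (w + t • v) := by
    refine MvPolynomial.ringHom_ext ?_ ?_
    · intro r
      simp [h1, c3tau]
    · intro i
      simp [h1, c3tau]
      ring
  exact congrArg (fun f => f Q) h

/-- coefficients of `R_k(w + t v)` -/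
private noncomputable def c3r {n : ℕ} (v : Fin n → ℂ) (R : R1 n) (k i : ℕ) :
    MvPolynomial (Fin n) ℂ :=
  (c3tau v (R.coeff k)).coeff i

private noncomputable def c3d {n : ℕ} (v : Fin n → ℂ) (R : R1 n) : ℕ :=
  (Finset.range (R.natDegree + 1)).sup (fun k => (c3tau v (R.coeff k)).natDegree)

private lemma c3_coeff {n : ℕ} (v w : Fin n → ℂ) (t : ℂ) (R : R1 n) (k : ℕ)
    (hk : k ∈ Finset.range (R.natDegree + 1)) :
    eval (w + t • v) (R.coeff k) =
      ∑ i ∈ Finset.range (c3d v R + 1), eval w (c3r v R k i) * t ^ i := by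
  rw [← c3tau_eval, h1, Polynomial.coe_eval₂RingHom]
  rw [Polynomial.eval₂_eq_sum_range' (n := c3d v R + 1)]
  · rfl
  · exact Nat.lt_succ_of_le (Finset.le_sup (f := fun k => (c3tau v (R.coeff k)).natDegree) hk)

private lemma c3_h1 {n : ℕ} (v w : Fin n → ℂ) (t f : ℂ) (R : R1 n) :
    h1 (w + t • v) f R = ∑ k ∈ Finset.range (R.natDegree + 1),
      (∑ i ∈ Finset.range (c3d v R + 1), eval w (c3r v R k i) * t ^ i) * f ^ k := by
  rw [h1, Polynomial.coe_eval₂RingHom, Polynomial.eval₂_eq_sum_range]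
  refine Finset.sum_congr rfl fun k hk => ?_
  rw [← c3_coeff v w t R k hk]

/-- Taylor coefficients of `t ^ i * exp (k t)` -/
private noncomputable def c3cc (k i j : ℕ) : ℂ :=
  if i ≤ j then (k : ℂ) ^ (j - i) / ((j - i).factorial : ℂ) else 0

private lemma c3_phi (k i o : ℕ) (t : ℂ) (ht : ‖t‖ ≤ 1) :
    ‖t ^ i * Complex.exp (k * t) - ∑ j ∈ Finset.range (o + 1), c3cc k i j * t ^ j‖ ≤
      ((1 + k : ℝ) ^ (o + 1) * Real.exp k) * ‖t‖ ^ (o + 1) := by
  have hkt : ‖(k : ℂ) * t‖ ≤ k := by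
    rw [norm_mul, Complex.norm_natCast]
    exact mul_le_of_le_one_right (Nat.cast_nonneg k) ht
  have h1k : (1 : ℝ) ≤ 1 + k := by
    have : (0 : ℝ) ≤ k := Nat.cast_nonneg k
    linarith
  by_cases hi : i ≤ o
  · obtain ⟨m, hm⟩ : ∃ m, o + 1 = i + m := ⟨o + 1 - i, by omega⟩
    have hm1 : m ≤ o + 1 := by omega
    rw [hm, Finset.sum_range_add]
    have e1 : ∑ j ∈ Finset.range i, c3cc k i j * t ^ j = 0 := by
      refine Finset.sum_eq_zero fun j hj => ?_
      rw [Finset.mem_range] at hj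
      simp [c3cc, not_le.2 hj]
    have e2 : ∑ l ∈ Finset.range m, c3cc k i (i + l) * t ^ (i + l) =
        t ^ i * ∑ l ∈ Finset.range m, ((k : ℂ) * t) ^ l / (l.factorial : ℂ) := by
      rw [Finset.mul_sum]
      refine Finset.sum_congr rfl fun l _ => ?_
      simp only [c3cc, Nat.le_add_right, if_true, Nat.add_sub_cancel_left]
      rw [pow_add, mul_pow]
      ring
    rw [e1, e2, zero_add, ← mul_sub, norm_mul, norm_pow]
    have h2 := Complex.norm_exp_sub_sum_le_norm_mul_exp ((k : ℂ) * t) m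
    have h3 : ‖(k : ℂ) * t‖ ^ m ≤ (1 + k : ℝ) ^ (i + m) * ‖t‖ ^ m := by
      rw [norm_mul, Complex.norm_natCast, mul_pow]
      refine mul_le_mul_of_nonneg_right ?_ (by positivity)
      calc (k : ℝ) ^ m ≤ (1 + k : ℝ) ^ m :=
            pow_le_pow_left₀ (Nat.cast_nonneg k) (by linarith) m
        _ ≤ (1 + k : ℝ) ^ (i + m) := pow_le_pow_right₀ h1k (by omega)
    calc ‖t‖ ^ i * ‖Complex.exp (k * t) - ∑ l ∈ Finset.range m, ((k : ℂ) * t) ^ l / (l.factorial : ℂ)‖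
        ≤ ‖t‖ ^ i * (‖(k : ℂ) * t‖ ^ m * Real.exp ‖(k : ℂ) * t‖) :=
          mul_le_mul_of_nonneg_left h2 (by positivity)
      _ ≤ ‖t‖ ^ i * (((1 + k : ℝ) ^ (i + m) * ‖t‖ ^ m) * Real.exp k) := by
          refine mul_le_mul_of_nonneg_left ?_ (by positivity)
          exact mul_le_mul h3 (Real.exp_le_exp.2 hkt) (Real.exp_pos _).le (by positivity)
      _ = ((1 + k : ℝ) ^ (i + m) * Real.exp k) * ‖t‖ ^ (i + m) := by
          rw [pow_add ‖t‖]
          ring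
  · have e1 : ∑ j ∈ Finset.range (o + 1), c3cc k i j * t ^ j = 0 := by
      refine Finset.sum_eq_zero fun j hj => ?_
      rw [Finset.mem_range] at hj
      have : ¬ i ≤ j := by omega
      simp [c3cc, this]
    rw [e1, sub_zero, norm_mul, norm_pow]
    have h2 : ‖Complex.exp (k * t)‖ ≤ Real.exp k :=
      (Complex.norm_exp_le_exp_norm _).trans (Real.exp_le_exp.2 hkt)
    have h3 : ‖t‖ ^ i ≤ ‖t‖ ^ (o + 1) := pow_le_pow_of_le_one (norm_nonneg _) ht (by omega)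
    have h4 : (1 : ℝ) ≤ (1 + k : ℝ) ^ (o + 1) := one_le_pow₀ h1k
    calc ‖t‖ ^ i * ‖Complex.exp (k * t)‖ ≤ ‖t‖ ^ (o + 1) * Real.exp k :=
          mul_le_mul h3 h2 (norm_nonneg _) (by positivity)
      _ ≤ ((1 + k : ℝ) ^ (o + 1) * Real.exp k) * ‖t‖ ^ (o + 1) := by
          have h5 : 0 ≤ ‖t‖ ^ (o + 1) * Real.exp k := by positivity
          nlinarith [mul_le_mul_of_nonneg_right h4 h5]

/-- polynomial growth -/
private def C3PB {n : ℕ} (F : (Fin n → ℂ) → ℝ) : Prop :=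
  ∃ K : ℕ, ∀ w, F w ≤ K * (1 + ‖w‖) ^ K

private lemma c3PB_mono {n : ℕ} (w : Fin n → ℂ) (K L : ℕ) (h : K ≤ L) :
    (K : ℝ) * (1 + ‖w‖) ^ K ≤ L * (1 + ‖w‖) ^ L := by
  have h1 : (1 : ℝ) ≤ 1 + ‖w‖ := by linarith [norm_nonneg w]
  exact mul_le_mul (by exact_mod_cast h) (pow_le_pow_right₀ h1 h) (by positivity)
    (Nat.cast_nonneg _)

private lemma c3PB_add {n : ℕ} {F G : (Fin n → ℂ) → ℝ} (hF : C3PB F) (hG : C3PB G) :
    C3PB (fun w => F w + G w) := by
  obtain ⟨K, hK⟩ := hF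
  obtain ⟨L, hL⟩ := hG
  refine ⟨K + L, fun w => ?_⟩
  have h1 : (1 : ℝ) ≤ 1 + ‖w‖ := by linarith [norm_nonneg w]
  have e1 : (K : ℝ) * (1 + ‖w‖) ^ K ≤ K * (1 + ‖w‖) ^ (K + L) :=
    mul_le_mul_of_nonneg_left (pow_le_pow_right₀ h1 (by omega)) (Nat.cast_nonneg _)
  have e2 : (L : ℝ) * (1 + ‖w‖) ^ L ≤ L * (1 + ‖w‖) ^ (K + L) :=
    mul_le_mul_of_nonneg_left (pow_le_pow_right₀ h1 (by omega)) (Nat.cast_nonneg _)
  have := hK w
  have := hL w
  push_cast
  linarith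

private lemma c3PB_cmul {n : ℕ} {F : (Fin n → ℂ) → ℝ} (c : ℝ) (hc : 0 ≤ c) (hF : C3PB F) :
    C3PB (fun w => c * F w) := by
  obtain ⟨K, hK⟩ := hF
  refine ⟨⌈c⌉₊ * K + K, fun w => ?_⟩
  have h1 : (1 : ℝ) ≤ 1 + ‖w‖ := by linarith [norm_nonneg w]
  calc c * F w ≤ c * (K * (1 + ‖w‖) ^ K) := mul_le_mul_of_nonneg_left (hK w) hc
    _ ≤ (⌈c⌉₊ : ℝ) * (K * (1 + ‖w‖) ^ K) :=
        mul_le_mul_of_nonneg_right (Nat.le_ceil c) (by positivity)
    _ = ((⌈c⌉₊ * K : ℕ) : ℝ) * (1 + ‖w‖) ^ K := by push_cast; ring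
    _ ≤ ((⌈c⌉₊ * K + K : ℕ) : ℝ) * (1 + ‖w‖) ^ (⌈c⌉₊ * K + K) := by
        refine mul_le_mul ?_ (pow_le_pow_right₀ h1 (by omega)) (by positivity) (Nat.cast_nonneg _)
        exact_mod_cast Nat.le_add_right _ _

private lemma c3PB_sum {n : ℕ} {ι : Type*} (s : Finset ι) (F : ι → (Fin n → ℂ) → ℝ)
    (h : ∀ i ∈ s, C3PB (F i)) : C3PB (fun w => ∑ i ∈ s, F i w) := by
  classical
  induction s using Finset.induction_on with
  | empty => exact ⟨0, fun w => by simp⟩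
  | insert a s ha ih =>
    simp only [Finset.sum_insert ha]
    exact c3PB_add (h a (Finset.mem_insert_self a s))
      (ih fun i hi => h i (Finset.mem_insert_of_mem hi))

private lemma c3PB_eval {n : ℕ} (Q : MvPolynomial (Fin n) ℂ) : C3PB (fun w => ‖eval w Q‖) := by
  induction Q using MvPolynomial.induction_on with
  | C a =>
    refine ⟨⌈‖a‖⌉₊, fun w => ?_⟩
    have h1 : (1 : ℝ) ≤ (1 + ‖w‖) ^ ⌈‖a‖⌉₊ := one_le_pow₀ (by linarith [norm_nonneg w])
    show ‖eval w (C a)‖ ≤ _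
    rw [eval_C]
    calc ‖a‖ ≤ (⌈‖a‖⌉₊ : ℝ) := Nat.le_ceil _
      _ ≤ (⌈‖a‖⌉₊ : ℝ) * (1 + ‖w‖) ^ ⌈‖a‖⌉₊ := le_mul_of_one_le_right (Nat.cast_nonneg _) h1
  | add p q hp hq =>
    obtain ⟨K, hK⟩ := c3PB_add hp hq
    refine ⟨K, fun w => ?_⟩
    show ‖eval w (p + q)‖ ≤ _
    rw [map_add]
    exact (norm_add_le _ _).trans (hK w)
  | mul_X p j hp =>
    obtain ⟨K, hK⟩ := hp
    refine ⟨K + 1, fun w => ?_⟩
    show ‖eval w (p * X j)‖ ≤ _
    rw [map_mul, eval_X, norm_mul]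
    have h1 : ‖w j‖ ≤ 1 + ‖w‖ := by linarith [norm_le_pi_norm w j]
    have h2 : (0 : ℝ) ≤ 1 + ‖w‖ := by positivity
    calc ‖eval w p‖ * ‖w j‖ ≤ (K * (1 + ‖w‖) ^ K) * (1 + ‖w‖) :=
          mul_le_mul (hK w) h1 (norm_nonneg _) (by positivity)
      _ = K * (1 + ‖w‖) ^ (K + 1) := by ring
      _ ≤ ((K + 1 : ℕ) : ℝ) * (1 + ‖w‖) ^ (K + 1) := by
          refine mul_le_mul_of_nonneg_right ?_ (by positivity)
          push_cast
          linarith

/-- the Taylor coefficients -/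
private noncomputable def c3rho {n : ℕ} (v : Fin n → ℂ) (u₀ : ℂ) (R : R1 n) (j : ℕ) :
    MvPolynomial (Fin n) ℂ :=
  ∑ k ∈ Finset.range (R.natDegree + 1), ∑ i ∈ Finset.range (c3d v R + 1),
    C (Complex.exp (k * u₀) * c3cc k i j) * c3r v R k i

private lemma c3_rem {n : ℕ} (v : Fin n → ℂ) (u₀ : ℂ) (R : R1 n) (o : ℕ) :
    ∃ K : ℕ, ∀ (w : Fin n → ℂ) (t : ℂ), ‖t‖ ≤ 1 →
      ‖h1 (w + t • v) (Complex.exp (u₀ + t)) R -
        ∑ j ∈ Finset.range (o + 1), eval w (c3rho v u₀ R j) * t ^ j‖ ≤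
          K * (1 + ‖w‖) ^ K * ‖t‖ ^ (o + 1) := by
  obtain ⟨K, hK⟩ : C3PB (fun w : Fin n → ℂ => ∑ k ∈ Finset.range (R.natDegree + 1),
      ∑ i ∈ Finset.range (c3d v R + 1),
        (‖Complex.exp (k * u₀)‖ * ((1 + k : ℝ) ^ (o + 1) * Real.exp k)) *
          ‖eval w (c3r v R k i)‖) := by
    refine c3PB_sum _ _ fun k _ => c3PB_sum _ _ fun i _ => ?_
    exact c3PB_cmul _ (by positivity) (c3PB_eval _)
  refine ⟨K, fun w t ht => ?_⟩
  have e1 : h1 (w + t • v) (Complex.exp (u₀ + t)) R = ∑ k ∈ Finset.range (R.natDegree + 1),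
      ∑ i ∈ Finset.range (c3d v R + 1),
        Complex.exp (k * u₀) * eval w (c3r v R k i) * (t ^ i * Complex.exp (k * t)) := by
    rw [c3_h1]
    refine Finset.sum_congr rfl fun k _ => ?_
    rw [Finset.sum_mul]
    refine Finset.sum_congr rfl fun i _ => ?_
    rw [← Complex.exp_nat_mul, mul_add, Complex.exp_add]
    ring
  have e2 : ∑ j ∈ Finset.range (o + 1), eval w (c3rho v u₀ R j) * t ^ j =
      ∑ k ∈ Finset.range (R.natDegree + 1), ∑ i ∈ Finset.range (c3d v R + 1),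
        Complex.exp (k * u₀) * eval w (c3r v R k i) *
          ∑ j ∈ Finset.range (o + 1), c3cc k i j * t ^ j := by
    simp only [c3rho, map_sum, map_mul, eval_C, Finset.sum_mul, Finset.mul_sum]
    rw [Finset.sum_comm]
    refine Finset.sum_congr rfl fun k _ => ?_
    rw [Finset.sum_comm]
    refine Finset.sum_congr rfl fun i _ => Finset.sum_congr rfl fun j _ => ?_
    ring
  rw [e1, e2, ← Finset.sum_sub_distrib]
  simp only [← Finset.sum_sub_distrib, ← mul_sub]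
  calc ‖∑ k ∈ Finset.range (R.natDegree + 1), ∑ i ∈ Finset.range (c3d v R + 1),
        Complex.exp (k * u₀) * eval w (c3r v R k i) *
          (t ^ i * Complex.exp (k * t) - ∑ j ∈ Finset.range (o + 1), c3cc k i j * t ^ j)‖
      ≤ ∑ k ∈ Finset.range (R.natDegree + 1), ∑ i ∈ Finset.range (c3d v R + 1),
        ((‖Complex.exp (k * u₀)‖ * ((1 + k : ℝ) ^ (o + 1) * Real.exp k)) *
          ‖eval w (c3r v R k i)‖) * ‖t‖ ^ (o + 1) := by
        refine (norm_sum_le _ _).trans (Finset.sum_le_sum fun k _ => ?_)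
        refine (norm_sum_le _ _).trans (Finset.sum_le_sum fun i _ => ?_)
        rw [norm_mul, norm_mul]
        have := mul_le_mul_of_nonneg_left (c3_phi k i o t ht)
          (by positivity : 0 ≤ ‖Complex.exp (k * u₀)‖ * ‖eval w (c3r v R k i)‖)
        calc _ ≤ _ := this
          _ = _ := by ring
    _ = (∑ k ∈ Finset.range (R.natDegree + 1), ∑ i ∈ Finset.range (c3d v R + 1),
        (‖Complex.exp (k * u₀)‖ * ((1 + k : ℝ) ^ (o + 1) * Real.exp k)) *
          ‖eval w (c3r v R k i)‖) * ‖t‖ ^ (o + 1) := by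
        simp only [Finset.sum_mul]
    _ ≤ K * (1 + ‖w‖) ^ K * ‖t‖ ^ (o + 1) :=
        mul_le_mul_of_nonneg_right (hK w) (by positivity)

private lemma c3_entire (g : ℂ → ℂ) (hg : Differentiable ℂ g)
    (h : ∀ o : ℕ, ∃ K : ℝ, ∀ t : ℂ, ‖t‖ ≤ 1 → ‖g t‖ ≤ K * ‖t‖ ^ (o + 1)) : ∀ t, g t = 0 := by
  have han : AnalyticOnNhd ℂ g Set.univ := fun x _ => hg.analyticAt x
  have h0 : ∀ᶠ z in nhds (0 : ℂ), g z = 0 := by
    by_contra hne
    obtain ⟨m, G, hG, hG0, hGe⟩ :=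
      ((hg.analyticAt 0).exists_eventuallyEq_pow_smul_nonzero_iff).2 hne
    obtain ⟨K, hK⟩ := h m
    have hball : ∀ᶠ z in nhds (0 : ℂ), ‖z‖ ≤ 1 := by
      have : Metric.closedBall (0 : ℂ) 1 ∈ nhds (0 : ℂ) := Metric.closedBall_mem_nhds 0 one_pos
      filter_upwards [this] with z hz
      simpa using hz
    have hlim : Filter.Tendsto G (nhdsWithin (0 : ℂ) {0}ᶜ) (nhds 0) := by
      have hKt : Filter.Tendsto (fun z : ℂ => K * ‖z‖) (nhdsWithin (0 : ℂ) {0}ᶜ) (nhds 0) := by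
        have : Filter.Tendsto (fun z : ℂ => K * ‖z‖) (nhds (0 : ℂ)) (nhds (K * ‖(0 : ℂ)‖)) :=
          (continuous_const.mul continuous_norm).tendsto 0
        rw [norm_zero, mul_zero] at this
        exact this.mono_left nhdsWithin_le_nhds
      refine squeeze_zero_norm' ?_ hKt
      have h1 := (hGe.and hball).filter_mono (nhdsWithin_le_nhds (a := (0 : ℂ)) (s := {0}ᶜ))
      filter_upwards [h1, self_mem_nhdsWithin] with z hz hz0
      have hz0' : z ≠ 0 := hz0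
      have hzp : 0 < ‖z‖ := norm_pos_iff.2 hz0'
      have h2 := hK z hz.2
      rw [hz.1, sub_zero, smul_eq_mul, norm_mul, norm_pow] at h2
      have h3 : ‖z‖ ^ m * ‖G z‖ ≤ ‖z‖ ^ m * (K * ‖z‖) := by
        calc ‖z‖ ^ m * ‖G z‖ ≤ K * ‖z‖ ^ (m + 1) := h2
          _ = ‖z‖ ^ m * (K * ‖z‖) := by ring
      exact le_of_mul_le_mul_left h3 (by positivity)
    have hcont : Filter.Tendsto G (nhdsWithin (0 : ℂ) {0}ᶜ) (nhds (G 0)) :=
      hG.continuousAt.tendsto.mono_left nhdsWithin_le_nhds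
    exact hG0 (tendsto_nhds_unique hcont hlim)
  have := han.eqOn_zero_of_preconnected_of_eventuallyEq_zero isPreconnected_univ
    (Set.mem_univ (0 : ℂ)) h0
  intro t
  exact this (Set.mem_univ t)

private lemma c3_diff {n : ℕ} (v w : Fin n → ℂ) (u₀ : ℂ) (R : R1 n) :
    Differentiable ℂ (fun t : ℂ => h1 (w + t • v) (Complex.exp (u₀ + t)) R) := by
  simp only [c3_h1]
  fun_prop

/-- if `R` vanishes at all `(x, exp (c x))` then `R = 0` -/
private lemma c3_zero {n : ℕ} (c v : Fin n → ℤ) (hcv : ∑ j, c j * v j = 1) (R : R1 n)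
    (h : ∀ x : Fin n → ℂ, h1 x (Complex.exp (∑ j, (c j : ℂ) * x j)) R = 0) : R = 0 := by
  have hcvC : ∑ j, (c j : ℂ) * (XW.zc v) j = 1 := by
    have := congrArg (fun z : ℤ => (z : ℂ)) hcv
    simpa [XW.zc] using this
  have hlin : ∀ (x : Fin n → ℂ) (s : ℂ), ∑ j, (c j : ℂ) * (x + s • XW.zc v) j =
      (∑ j, (c j : ℂ) * x j) + s := by
    intro x s
    have : ∀ j, (c j : ℂ) * (x + s • XW.zc v) j = (c j : ℂ) * x j + s * ((c j : ℂ) * (XW.zc v) j) := by
      intro j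
      simp only [Pi.add_apply, Pi.smul_apply, smul_eq_mul]
      ring
    simp only [this, Finset.sum_add_distrib, ← Finset.mul_sum, hcvC, mul_one]
  -- all shifts
  have hall : ∀ (x : Fin n → ℂ) (s : ℂ),
      h1 (x + s • XW.zc v) (Complex.exp (∑ j, (c j : ℂ) * x j)) R = 0 := by
    intro x
    set f : ℂ := Complex.exp (∑ j, (c j : ℂ) * x j) with hf
    set S : Polynomial ℂ := ∑ k ∈ Finset.range (R.natDegree + 1),
      (∑ i ∈ Finset.range (c3d (XW.zc v) R + 1),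
        Polynomial.C (eval x (c3r (XW.zc v) R k i)) * Polynomial.X ^ i) * Polynomial.C (f ^ k)
      with hS
    have hSe : ∀ s, S.eval s = h1 (x + s • XW.zc v) f R := by
      intro s
      rw [c3_h1, hS]
      simp [Polynomial.eval_finsetSum]
    have hS0 : S = 0 := by
      refine Polynomial.eq_zero_of_infinite_isRoot S ?_
      have hinj : Function.Injective (fun m : ℤ => (2 * Real.pi * Complex.I) * (m : ℂ)) := by
        intro a b hab
        have h2 : (2 * Real.pi * Complex.I : ℂ) ≠ 0 := Complex.two_pi_I_ne_zero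
        have := mul_left_cancel₀ h2 hab
        exact_mod_cast this
      refine (Set.infinite_range_of_injective hinj).mono ?_
      rintro _ ⟨m, rfl⟩
      simp only [Set.mem_ofPred_eq, Polynomial.IsRoot.def]
      rw [hSe]
      have h3 := h (x + ((2 * Real.pi * Complex.I) * (m : ℂ)) • XW.zc v)
      rw [hlin, Complex.exp_add] at h3
      have h4 : Complex.exp ((2 * Real.pi * Complex.I) * (m : ℂ)) = 1 := by
        rw [Complex.exp_eq_one_iff]
        exact ⟨m, by ring⟩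
      rw [h4, mul_one] at h3
      exact h3
    intro s
    rw [← hSe, hS0, Polynomial.eval_zero]
  have hall2 : ∀ (x : Fin n → ℂ) (f : ℂ), f ≠ 0 → h1 x f R = 0 := by
    intro x f hf
    set s : ℂ := Complex.log f - ∑ j, (c j : ℂ) * x j with hs
    have h5 := hall (x + s • XW.zc v) (-s)
    have e1 : x + s • XW.zc v + (-s) • XW.zc v = x := by
      ext j
      simp
    rw [e1, hlin] at h5
    have e2 : (∑ j, (c j : ℂ) * x j) + s = Complex.log f := by rw [hs]; ring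
    rw [e2, Complex.exp_log hf] at h5
    exact h5
  ext1 k
  rw [Polynomial.coeff_zero]
  refine MvPolynomial.funext fun x => ?_
  rw [map_zero]
  have hmap : R.map (eval x) = 0 := by
    refine Polynomial.eq_zero_of_infinite_isRoot _ ?_
    have hinf : ({0}ᶜ : Set ℂ).Infinite := (Set.finite_singleton (0 : ℂ)).infinite_compl
    refine hinf.mono fun f hf => ?_
    simp only [Set.mem_ofPred_eq, Polynomial.IsRoot.def]
    have := hall2 x f hf
    rwa [h1, Polynomial.coe_eval₂RingHom, Polynomial.eval₂_eq_eval_map] at this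
  rw [← Polynomial.coeff_map, hmap, Polynomial.coeff_zero]

theorem exp_taylor {n : ℕ} (c v : Fin n → ℤ) (hcv : ∑ j, c j * v j = 1) (u₀ : ℂ) (R : R1 n)
    (hR : R ≠ 0) :
    ∃ (o K : ℕ) (ρ : MvPolynomial (Fin n) ℂ),
      ¬ ((∑ j, C (c j : ℂ) * X j) - C u₀ ∣ ρ) ∧
      ∀ w : Fin n → ℂ, ∑ j, (c j : ℂ) * w j = u₀ → ∀ t : ℂ, ‖t‖ ≤ 1 →
        ‖h1 (w + t • XW.zc v) (Complex.exp (u₀ + t)) R - eval w ρ * t ^ o‖ ≤
          K * (1 + ‖w‖) ^ K * ‖t‖ ^ (o + 1) := by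
  classical
  have hev : ∀ (w : Fin n → ℂ), ∑ j, (c j : ℂ) * w j = u₀ → ∀ ρ : MvPolynomial (Fin n) ℂ,
      ((∑ j, C (c j : ℂ) * X j) - C u₀ ∣ ρ) → eval w ρ = 0 := by
    intro w hw ρ hρ
    obtain ⟨q, rfl⟩ := hρ
    rw [map_mul]
    have : eval w ((∑ j, C (c j : ℂ) * X j) - C u₀) = 0 := by
      simp [hw]
    rw [this, zero_mul]
  have hex : ∃ o, ¬ ((∑ j, C (c j : ℂ) * X j) - C u₀ ∣ c3rho (XW.zc v) u₀ R o) := by
    by_contra hno
    push Not at hno
    apply hR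
    refine c3_zero c v hcv R fun x => ?_
    set t : ℂ := (∑ j, (c j : ℂ) * x j) - u₀ with ht
    set w : Fin n → ℂ := x - t • XW.zc v with hw
    have hcvC : ∑ j, (c j : ℂ) * (XW.zc v) j = 1 := by
      have := congrArg (fun z : ℤ => (z : ℂ)) hcv
      simpa [XW.zc] using this
    have hcw : ∑ j, (c j : ℂ) * w j = u₀ := by
      have : ∀ j, (c j : ℂ) * w j = (c j : ℂ) * x j - t * ((c j : ℂ) * (XW.zc v) j) := by
        intro j
        simp only [hw, Pi.sub_apply, Pi.smul_apply, smul_eq_mul]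
        ring
      simp only [this, Finset.sum_sub_distrib, ← Finset.mul_sum, hcvC, mul_one]
      rw [ht]
      ring
    have hg := c3_entire (fun t : ℂ => h1 (w + t • XW.zc v) (Complex.exp (u₀ + t)) R)
      (c3_diff (XW.zc v) w u₀ R) ?_ t
    · have e1 : w + t • XW.zc v = x := by rw [hw]; simp
      have e2 : u₀ + t = ∑ j, (c j : ℂ) * x j := by rw [ht]; ring
      simp only [e1, e2] at hg
      exact hg
    · intro o
      obtain ⟨K, hK⟩ := c3_rem (XW.zc v) u₀ R o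
      refine ⟨K * (1 + ‖w‖) ^ K, fun s hs => ?_⟩
      have h1 := hK w s hs
      have h2 : ∑ j ∈ Finset.range (o + 1), eval w (c3rho (XW.zc v) u₀ R j) * s ^ j = 0 :=
        Finset.sum_eq_zero fun j _ => by rw [hev w hcw _ (hno j), zero_mul]
      rw [h2, sub_zero] at h1
      exact h1
  obtain ⟨K, hK⟩ := c3_rem (XW.zc v) u₀ R (Nat.find hex)
  refine ⟨Nat.find hex, K, c3rho (XW.zc v) u₀ R (Nat.find hex), Nat.find_spec hex, ?_⟩
  intro w hw t ht
  have h1 := hK w t ht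
  rw [Finset.sum_range_succ, Finset.sum_eq_zero, zero_add] at h1
  · exact h1
  · intro j hj
    rw [Finset.mem_range] at hj
    have := Nat.find_min hex hj
    rw [not_not] at this
    rw [hev w hw _ this, zero_mul]

end XV
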