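import Pool.Agent.Lib.MP_228259_lc.V.F5
import Pool.Agent.Lib.MP_228259_lc.P2c
import Pool.Agent.Lib.MP_228259_lc.P5b

/-!
XV-C3c (hyp_dir). Good directions inside the hyperplane `c · w = u₀`.

Proof. For `ρ` not divisible by `c·x - u₀` the polynomial `ρ~(x) = ρ(x - (c·x - u₀) v)` is nonzero
(`ρ(x) - ρ~(x)` is divisible by `c·x - u₀`) and invariant under `x ↦ x + s v`, and so is its top form
(compare homogeneous components of `ρ~(x + s v) = ρ~(x)`). Let `κ'` be a real vector where the product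
of the top forms of the `ρ~` does not vanish; `κ = κ' - (c·κ') v` has `c·κ = 0` and the same values of
the top forms. `regular_ctr` for `ρ~` at `κ`, and `ρ~(w) = ρ(w)` if `c·w = u₀`.
-/

set_option autoImplicit false

namespace XV

open MvPolynomial Filter Topology

/-- the linear form of the hyperplane `c · x = u₀` -/
private noncomputable def c3c_lp {n : ℕ} (c : Fin n → ℤ) (u₀ : ℂ) : MvPolynomial (Fin n) ℂ :=
  (∑ j, C (c j : ℂ) * X j) - C u₀

private theorem c3c_eval_lp {n : ℕ} (c : Fin n → ℤ) (u₀ : ℂ) (x : Fin n → ℂ) :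
    eval x (c3c_lp c u₀) = ∑ j, (c j : ℂ) * x j - u₀ := by
  simp [c3c_lp, map_sum]

/-- the substitution `x ↦ x - (c · x - u₀) v` -/
private noncomputable def c3c_sub {n : ℕ} (c v : Fin n → ℤ) (u₀ : ℂ)
    (ρ : MvPolynomial (Fin n) ℂ) : MvPolynomial (Fin n) ℂ :=
  aeval (fun j => X j - c3c_lp c u₀ * C (v j : ℂ)) ρ

private theorem c3c_eval_sub {n : ℕ} (c v : Fin n → ℤ) (u₀ : ℂ) (ρ : MvPolynomial (Fin n) ℂ)
    (x : Fin n → ℂ) : eval x (c3c_sub c v u₀ ρ) =
      eval (x - (∑ j, (c j : ℂ) * x j - u₀) • XW.zc v) ρ := by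
  have h : ((eval x).comp ((aeval (fun j => X j - c3c_lp c u₀ * C (v j : ℂ)) :
      MvPolynomial (Fin n) ℂ →ₐ[ℂ] MvPolynomial (Fin n) ℂ) : MvPolynomial (Fin n) ℂ →+*
        MvPolynomial (Fin n) ℂ)) =
      eval (x - (∑ j, (c j : ℂ) * x j - u₀) • XW.zc v) := by
    apply MvPolynomial.ringHom_ext
    · intro r
      simp
    · intro j
      simp only [RingHom.comp_apply, RingHom.coe_coe, aeval_X, map_sub, map_mul, eval_X, eval_C,
        c3c_eval_lp, Pi.sub_apply, Pi.smul_apply, XW.zc, smul_eq_mul]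
  exact congrArg (fun g => g ρ) h

private theorem c3c_dvd {n : ℕ} (c v : Fin n → ℤ) (u₀ : ℂ) (ρ : MvPolynomial (Fin n) ℂ) :
    c3c_lp c u₀ ∣ ρ - c3c_sub c v u₀ ρ := by
  have h : (Ideal.Quotient.mk (Ideal.span {c3c_lp c u₀})) =
      (Ideal.Quotient.mk (Ideal.span {c3c_lp c u₀})).comp
        ((aeval (fun j => X j - c3c_lp c u₀ * C (v j : ℂ)) :
          MvPolynomial (Fin n) ℂ →ₐ[ℂ] MvPolynomial (Fin n) ℂ) : MvPolynomial (Fin n) ℂ →+*
            MvPolynomial (Fin n) ℂ) := by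
    apply MvPolynomial.ringHom_ext
    · intro r
      simp [MvPolynomial.algebraMap_eq]
    · intro j
      simp only [RingHom.comp_apply, RingHom.coe_coe, aeval_X, map_sub, map_mul]
      have h0 : (Ideal.Quotient.mk (Ideal.span {c3c_lp c u₀})) (c3c_lp c u₀) = 0 :=
        Ideal.Quotient.eq_zero_iff_mem.2 (Ideal.mem_span_singleton_self _)
      rw [h0, zero_mul, sub_zero]
  have h1 : (Ideal.Quotient.mk (Ideal.span {c3c_lp c u₀})) ρ =
      (Ideal.Quotient.mk (Ideal.span {c3c_lp c u₀})) (c3c_sub c v u₀ ρ) :=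
    congrArg (fun g => g ρ) h
  exact Ideal.mem_span_singleton.1 (Ideal.Quotient.eq.1 h1)

private theorem c3c_sub_ne {n : ℕ} (c v : Fin n → ℤ) (u₀ : ℂ) (ρ : MvPolynomial (Fin n) ℂ)
    (h : ¬ c3c_lp c u₀ ∣ ρ) : c3c_sub c v u₀ ρ ≠ 0 := by
  intro h0
  have h1 := c3c_dvd c v u₀ ρ
  rw [h0, sub_zero] at h1
  exact h h1

private theorem c3c_inv {n : ℕ} (c v : Fin n → ℤ) (hcv : ∑ j, c j * v j = 1) (u₀ : ℂ)
    (ρ : MvPolynomial (Fin n) ℂ) (x : Fin n → ℂ) (t : ℂ) :
    eval (x + t • XW.zc v) (c3c_sub c v u₀ ρ) = eval x (c3c_sub c v u₀ ρ) := by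
  rw [c3c_eval_sub, c3c_eval_sub]
  have h1 : ∑ j, (c j : ℂ) * (x + t • XW.zc v) j = ∑ j, (c j : ℂ) * x j + t := by
    have h2 : ∑ j, (c j : ℂ) * (v j : ℂ) = 1 := by exact_mod_cast hcv
    calc ∑ j, (c j : ℂ) * (x + t • XW.zc v) j
        = ∑ j, ((c j : ℂ) * x j + t * ((c j : ℂ) * (v j : ℂ))) := by
          refine Finset.sum_congr rfl fun j _ => ?_
          simp only [Pi.add_apply, Pi.smul_apply, XW.zc, smul_eq_mul]
          ring
      _ = ∑ j, (c j : ℂ) * x j + t := by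
          rw [Finset.sum_add_distrib, ← Finset.mul_sum, h2, mul_one]
  rw [h1]
  have h3 : x + t • XW.zc v - (∑ j, (c j : ℂ) * x j + t - u₀) • XW.zc v =
      x - (∑ j, (c j : ℂ) * x j - u₀) • XW.zc v := by
    funext j
    simp only [Pi.add_apply, Pi.sub_apply, Pi.smul_apply, XW.zc, smul_eq_mul]
    ring
  rw [h3]

/-- the top form is invariant -/
private theorem c3c_top_inv {n : ℕ} (A : MvPolynomial (Fin n) ℂ) (v : Fin n → ℂ)
    (hinv : ∀ x (t : ℂ), eval (x + t • v) A = eval x A) (x : Fin n → ℂ) (t : ℂ) :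
    eval (x + t • v) (homogeneousComponent A.totalDegree A) =
      eval x (homogeneousComponent A.totalDegree A) := by
  have hN : Tendsto (fun K : ℕ => ‖(K : ℂ)‖) atTop atTop := by
    have h1 : (fun K : ℕ => ‖(K : ℂ)‖) = fun K : ℕ => (K : ℝ) := by
      funext K
      simp
    rw [h1]
    exact tendsto_natCast_atTop_atTop
  have h1 := XW.lemmaTop (l := (atTop : Filter ℕ)) A (fun K => (K : ℂ)) (fun _ => x + t • v)
    (x + t • v) hN tendsto_const_nhds
  have h2 := XW.lemmaTop (l := (atTop : Filter ℕ)) A (fun K => (K : ℂ)) (fun _ => x) x hN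
    tendsto_const_nhds
  refine tendsto_nhds_unique h1 (h2.congr fun K => ?_)
  congr 1
  have h3 : (K : ℂ) • (x + t • v) = (K : ℂ) • x + ((K : ℂ) * t) • v := by
    rw [smul_add, smul_smul]
  rw [h3, hinv]

private theorem c3c_top_ne {n : ℕ} (A : MvPolynomial (Fin n) ℂ) (hA : A ≠ 0) :
    homogeneousComponent A.totalDegree A ≠ 0 := by
  intro h
  have hne : A.support.Nonempty := support_nonempty.2 hA
  obtain ⟨s, hs, hmax⟩ := Finset.exists_mem_eq_sup A.support hne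
    (fun s => s.sum fun _ e => e)
  have h1 : A.totalDegree = s.sum fun _ e => e := hmax
  have h2 : coeff s (homogeneousComponent A.totalDegree A) = coeff s A := by
    rw [coeff_homogeneousComponent, if_pos]
    rw [h1]
    rfl
  rw [h, coeff_zero] at h2
  exact (mem_support_iff.mp hs) h2.symm

theorem hyp_dir {n : ℕ} (c v : Fin n → ℤ) (hcv : ∑ j, c j * v j = 1) (u₀ : ℂ)
    (L : Finset (MvPolynomial (Fin n) ℂ))
    (hL : ∀ ρ ∈ L, ¬ ((∑ j, C (c j : ℂ) * X j) - C u₀ ∣ ρ)) :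
    ∃ κ : Fin n → ℝ, ∑ j, c j * κ j = 0 ∧ ∀ ρ ∈ L, ∃ b : ℝ, 0 < b ∧
      ∀ᶠ N : ℕ in atTop, ∀ w : Fin n → ℂ, ∑ j, (c j : ℂ) * w j = u₀ →
        ‖w - ctr κ N‖ ≤ 2 * Real.sqrt N → b ≤ ‖eval w ρ‖ := by
  classical
  have hLt : ∀ ρ ∈ L, homogeneousComponent (c3c_sub c v u₀ ρ).totalDegree (c3c_sub c v u₀ ρ) ≠ 0 :=
    fun ρ hρ => c3c_top_ne _ (c3c_sub_ne c v u₀ ρ (hL ρ hρ))
  obtain ⟨κ', hκ'⟩ := XW.int_poly (∏ ρ ∈ L,
    homogeneousComponent (c3c_sub c v u₀ ρ).totalDegree (c3c_sub c v u₀ ρ))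
    (Finset.prod_ne_zero_iff.2 hLt)
  rw [map_prod, Finset.prod_ne_zero_iff] at hκ'
  set s : ℤ := ∑ j, c j * κ' j with hs
  refine ⟨fun j => ((κ' j - s * v j : ℤ) : ℝ), ?_, fun ρ hρ => ?_⟩
  · have h1 : ∑ j, c j * (κ' j - s * v j) = 0 := by
      have h2 : ∑ j, c j * (κ' j - s * v j) = ∑ j, c j * κ' j - s * ∑ j, c j * v j := by
        rw [Finset.mul_sum, ← Finset.sum_sub_distrib]
        refine Finset.sum_congr rfl fun j _ => ?_
        ring
      rw [h2, hcv, ← hs]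
      ring
    have h3 := congrArg (fun z : ℤ => (z : ℝ)) h1
    simp only [Int.cast_sum, Int.cast_mul, Int.cast_zero] at h3
    exact h3
  · have h1 : XW.rc (fun j => ((κ' j - s * v j : ℤ) : ℝ)) = XW.zc κ' + (-(s : ℂ)) • XW.zc v := by
      funext j
      simp only [XW.rc, XW.zc, Pi.add_apply, Pi.smul_apply, smul_eq_mul]
      push_cast
      ring
    obtain ⟨b, hb, hev⟩ := regular_ctr (c3c_sub c v u₀ ρ) (fun j => ((κ' j - s * v j : ℤ) : ℝ)) (by
      rw [h1, c3c_top_inv _ _ (c3c_inv c v hcv u₀ ρ)]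
      exact hκ' ρ hρ)
    refine ⟨b, hb, hev.mono fun N hN w hw hwN => ?_⟩
    have h2 := hN w hwN
    rw [c3c_eval_sub, hw, sub_self, zero_smul, sub_zero] at h2
    exact h2

/-- a nonzero polynomial invariant under the translations by `v` is not divisible by
`c · x - u₀` -/
theorem inv_not_dvd {n : ℕ} (c v : Fin n → ℤ) (hcv : ∑ j, c j * v j = 1) (u₀ : ℂ)
    (R : MvPolynomial (Fin n) ℂ) (hR : R ≠ 0)
    (hinv : ∀ (x : Fin n → ℂ) (t : ℂ), eval (x + t • XW.zc v) R = eval x R) :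
    ¬ ((∑ j, C (c j : ℂ) * X j) - C u₀ ∣ R) := by
  rintro ⟨Q, hQ⟩
  apply hR
  refine MvPolynomial.funext fun x => ?_
  have h1 := hinv x (-(∑ j, (c j : ℂ) * x j - u₀))
  rw [← h1, hQ, map_mul, map_zero]
  have h2 := c3c_eval_lp c u₀ (x + (-(∑ j, (c j : ℂ) * x j - u₀)) • XW.zc v)
  rw [c3c_lp] at h2
  rw [h2]
  have h3 : ∑ j, (c j : ℂ) * (v j : ℂ) = 1 := by exact_mod_cast hcv
  have h4 : ∑ j, (c j : ℂ) * (x + (-(∑ j, (c j : ℂ) * x j - u₀)) • XW.zc v) j = u₀ := by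
    calc ∑ j, (c j : ℂ) * (x + (-(∑ j, (c j : ℂ) * x j - u₀)) • XW.zc v) j
        = ∑ j, ((c j : ℂ) * x j + (-(∑ j, (c j : ℂ) * x j - u₀)) * ((c j : ℂ) * (v j : ℂ))) := by
          refine Finset.sum_congr rfl fun j _ => ?_
          simp only [Pi.add_apply, Pi.smul_apply, XW.zc, smul_eq_mul]
          ring
      _ = u₀ := by
          rw [Finset.sum_add_distrib, ← Finset.mul_sum, h3, mul_one]
          ring
  rw [h4, sub_self, zero_mul]

/-- the polynomial `G(x + T κ)` in `T` -/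
private noncomputable def c3c_exp {n : ℕ} (κ : Fin n → ℤ) : MvPolynomial (Fin n) ℂ →+* R1 n :=
  eval₂Hom (Polynomial.C.comp MvPolynomial.C)
    (fun j => Polynomial.C (X j) + Polynomial.C (C (κ j : ℂ)) * Polynomial.X)

private theorem c3c_h1_exp {n : ℕ} (κ : Fin n → ℤ) (G : MvPolynomial (Fin n) ℂ) (w : Fin n → ℂ)
    (t : ℂ) : h1 w t (c3c_exp κ G) = eval (w + t • XW.zc κ) G := by
  have h : (h1 w t).comp (c3c_exp κ) = eval (w + t • XW.zc κ) := by
    apply MvPolynomial.ringHom_ext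
    · intro r
      simp [c3c_exp, h1]
    · intro j
      simp only [c3c_exp, h1, RingHom.comp_apply, eval₂Hom_X', map_add, map_mul,
        Polynomial.coe_eval₂RingHom, Polynomial.eval₂_C, Polynomial.eval₂_X, eval_X, eval_C,
        Pi.add_apply, Pi.smul_apply, XW.zc, smul_eq_mul]
      ring
  exact congrArg (fun g => g G) h

private theorem c3c_exp_zero {n : ℕ} (κ : Fin n → ℤ) (G : MvPolynomial (Fin n) ℂ) :
    (c3c_exp κ G).coeff 0 = G := by
  have h : (Polynomial.constantCoeff).comp (c3c_exp κ) =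
      RingHom.id (MvPolynomial (Fin n) ℂ) := by
    apply MvPolynomial.ringHom_ext
    · intro r
      simp [c3c_exp]
    · intro j
      simp [c3c_exp]
  have h2 := congrArg (fun g => g G) h
  simpa using h2

/-- the top coefficient in `λ` of `G(w + λ κ)` on the hyperplane -/
theorem scale_top {n : ℕ} (c κ : Fin n → ℤ) (u₀ : ℂ) (G : MvPolynomial (Fin n) ℂ)
    (hG : ¬ ((∑ j, C (c j : ℂ) * X j) - C u₀ ∣ G)) :
    ∃ (J : ℕ) (ρ : MvPolynomial (Fin n) ℂ) (W : R1 n), W.degree < J ∧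
      ¬ ((∑ j, C (c j : ℂ) * X j) - C u₀ ∣ ρ) ∧
      ∀ w : Fin n → ℂ, ∑ j, (c j : ℂ) * w j = u₀ → ∀ t : ℂ,
        eval (w + t • XW.zc κ) G = eval w ρ * t ^ J + h1 w t W := by
  classical
  set Gp : R1 n := c3c_exp κ G with hGp
  set S : Finset ℕ := (Finset.range (Gp.natDegree + 1)).filter
    (fun i => ¬ (c3c_lp c u₀ ∣ Gp.coeff i)) with hS
  have h0 : 0 ∈ S := by
    rw [hS, Finset.mem_filter, Finset.mem_range]
    refine ⟨Nat.succ_pos _, ?_⟩
    rw [hGp, c3c_exp_zero]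
    exact hG
  set J : ℕ := S.max' ⟨0, h0⟩ with hJ
  have hJS : J ∈ S := S.max'_mem _
  rw [hS, Finset.mem_filter, Finset.mem_range] at hJS
  have hbig : ∀ i, J < i → c3c_lp c u₀ ∣ Gp.coeff i := by
    intro i hi
    by_contra hcon
    have hi2 : i ∈ S := by
      rw [hS, Finset.mem_filter, Finset.mem_range]
      refine ⟨?_, hcon⟩
      by_contra h3
      push Not at h3
      apply hcon
      rw [Polynomial.coeff_eq_zero_of_natDegree_lt (by omega)]
      exact dvd_zero _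
    have h4 := S.le_max' i hi2
    rw [← hJ] at h4
    omega
  refine ⟨J, Gp.coeff J, ∑ i ∈ Finset.range J, Polynomial.monomial i (Gp.coeff i), ?_, hJS.2, ?_⟩
  · rw [Polynomial.degree_lt_iff_coeff_zero]
    intro m hm
    rw [Polynomial.finsetSum_coeff]
    refine Finset.sum_eq_zero fun i hi => ?_
    rw [Finset.mem_range] at hi
    rw [Polynomial.coeff_monomial, if_neg (by omega)]
  · intro w hw t
    rw [← c3c_h1_exp κ G w t, ← hGp]
    have h5 : h1 w t Gp = ∑ i ∈ Finset.range (Gp.natDegree + 1), eval w (Gp.coeff i) * t ^ i := by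
      simp only [h1, Polynomial.coe_eval₂RingHom]
      rw [Polynomial.eval₂_eq_sum_range]
    have h6 : h1 w t (∑ i ∈ Finset.range J, Polynomial.monomial i (Gp.coeff i)) =
        ∑ i ∈ Finset.range J, eval w (Gp.coeff i) * t ^ i := by
      rw [map_sum]
      refine Finset.sum_congr rfl fun i _ => ?_
      simp [h1]
    rw [h5, h6]
    have h7 : Finset.range (Gp.natDegree + 1) =
        Finset.range (J + 1) ∪ Finset.Ico (J + 1) (Gp.natDegree + 1) := by
      ext i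
      simp only [Finset.mem_range, Finset.mem_union, Finset.mem_Ico]
      omega
    rw [h7, Finset.sum_union]
    · have h8 : ∑ i ∈ Finset.Ico (J + 1) (Gp.natDegree + 1), eval w (Gp.coeff i) * t ^ i = 0 := by
        refine Finset.sum_eq_zero fun i hi => ?_
        rw [Finset.mem_Ico] at hi
        obtain ⟨Q, hQ⟩ := hbig i (by omega)
        rw [hQ, map_mul, c3c_eval_lp, hw, sub_self, zero_mul, zero_mul]
      rw [h8, add_zero, Finset.sum_range_succ, add_comm]
    · rw [Finset.disjoint_left]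
      intro i h1 h2
      rw [Finset.mem_range] at h1
      rw [Finset.mem_Ico] at h2
      omega

end XV
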