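import Pool.Agent.Lib.MP_228259_lc.V.Defs2
import Pool.Agent.Lib.MP_228259_lc.P4b
import Pool.Agent.Lib.MP_228259_lc.P3b

/-!
XV-C3e (rat_nonzero). `P` depends on the directions `v` and `κ₁`.

Proof. A polynomial `G` with `dirD w G = 0` satisfies `eval (x + t w) G = eval x G` (the derivative in
`t` vanishes, or `XW.P4b_natDegree_pos` and `XW.P4b_psi_eval`).
`v`: if `dirD v P = 0`, all homogeneous components of `P` are invariant under `x ↦ x + t v` (compare
`eval (s (x + t v)) P`, or `dirD v` is homogeneous of degree `-1` so it kills every component); the top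
component is `(c·x)^(E d) B_d` with `E d > 0`, it vanishes at `x - (c·x) v` for all `x`, so it vanishes
everywhere: contradiction to `hdec.top` (`lin c ≠ 0`).
`1 ≤ D`: if `D = 0` then `W = 0` and `eval u P = T(c·u)` for all `u`; with a root `u₀` of `T`,
`T = (X - u₀) T₁` and `c·x - u₀ ∣ P`, contradiction to `hfree`.
`κ₁`: if `dirD κ₁ P = 0` then `T(c·u) t^D + h1 u t W = eval u P` for all `t`, with `D ≥ 1`; comparing
coefficients of `t^D` gives `T(c·u) = 0` for all `u` (`c ≠ 0`), so `T = 0`, contradiction.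
-/

set_option autoImplicit false

namespace XV

open MvPolynomial

theorem C3e_dirD_mul_X {n : ℕ} (w : Fin n → ℂ) (p : MvPolynomial (Fin n) ℂ) (j : Fin n) :
    XW.dirD w (p * X j) = XW.dirD w p * X j + p * C (w j) := by
  classical
  unfold XW.dirD
  have h3 : ∀ i : Fin n, C (w i) * pderiv i (p * X j) =
      C (w i) * pderiv i p * X j + (if i = j then p * C (w j) else 0) := by
    intro i
    rw [pderiv_mul, pderiv_X, mul_add]
    by_cases hij : i = j
    · subst hij
      rw [Pi.single_eq_same, if_pos rfl]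
      ring
    · rw [if_neg hij, Pi.single_eq_of_ne (Ne.symm hij)]
      ring
  rw [Finset.sum_congr rfl (fun i _ => h3 i), Finset.sum_add_distrib, Finset.sum_mul,
    Finset.sum_ite_eq' Finset.univ j, if_pos (Finset.mem_univ j)]

theorem C3e_dirD_add {n : ℕ} (w : Fin n → ℂ) (p q : MvPolynomial (Fin n) ℂ) :
    XW.dirD w (p + q) = XW.dirD w p + XW.dirD w q := by
  unfold XW.dirD
  rw [← Finset.sum_add_distrib]
  refine Finset.sum_congr rfl fun j _ => ?_
  rw [map_add, mul_add]

theorem C3e_derivative {n : ℕ} (w : Fin n → ℂ) (F : MvPolynomial (Fin n) ℂ) :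
    Polynomial.derivative (XW.P4b_psi w F) = XW.P4b_psi w (XW.dirD w F) := by
  induction F using MvPolynomial.induction_on with
  | C a =>
    have h1 : XW.P4b_psi w (C a) = Polynomial.C (C a) := by
      unfold XW.P4b_psi
      rw [aeval_C]
      rfl
    have h2 : XW.dirD w (C a : MvPolynomial (Fin n) ℂ) = 0 := by
      unfold XW.dirD
      simp
    rw [h1, h2, map_zero, Polynomial.derivative_C]
  | add p q hp hq =>
    rw [map_add, Polynomial.derivative_add, hp, hq, C3e_dirD_add, map_add]
  | mul_X p j hp =>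
    have h1 : XW.P4b_psi w (X j) =
        Polynomial.C (X j) + Polynomial.C (C (w j)) * Polynomial.X := by
      unfold XW.P4b_psi
      rw [aeval_X]
    have h2 : XW.P4b_psi w (C (w j)) = Polynomial.C (C (w j)) := by
      unfold XW.P4b_psi
      rw [aeval_C]
      rfl
    rw [C3e_dirD_mul_X, map_mul, Polynomial.derivative_mul, hp, map_add, map_mul, map_mul, h2, h1]
    simp

theorem C3e_inv {n : ℕ} {w : Fin n → ℂ} {G : MvPolynomial (Fin n) ℂ} (h : XW.dirD w G = 0)
    (x : Fin n → ℂ) (t : ℂ) : eval (x + t • w) G = eval x G := by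
  have h1 := C3e_derivative w G
  rw [h, map_zero] at h1
  have h2 := Polynomial.derivative_eq_zero.1 h1
  rw [Polynomial.natDegree_eq_zero] at h2
  obtain ⟨a, ha⟩ := h2
  have h3 := XW.P4b_psi_eval w x t G
  have h4 := XW.P4b_psi_eval w x 0 G
  rw [zero_smul, add_zero] at h4
  rw [← h3, ← h4, ← ha]
  simp

theorem C3e_hom_eval {n : ℕ} {P : MvPolynomial (Fin n) ℂ} {m : ℕ} (hP : P.IsHomogeneous m)
    (c : ℂ) (x : Fin n → ℂ) : eval (c • x) P = c ^ m * eval x P := by
  rw [eval_eq', eval_eq', Finset.mul_sum]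
  refine Finset.sum_congr rfl fun s hs => ?_
  have h1 : ∑ i, s i = m := by
    have h2 := hP (mem_support_iff.mp hs)
    rw [← h2, Finsupp.weight_apply, Finsupp.sum_fintype _ _ (by simp)]
    simp
  have h3 : ∏ i, (c • x) i ^ s i = c ^ m * ∏ i, x i ^ s i := by
    simp only [Pi.smul_apply, smul_eq_mul, mul_pow]
    rw [Finset.prod_mul_distrib, Finset.prod_pow_eq_pow_sum, h1]
  rw [h3]
  ring

theorem C3e_hom {n : ℕ} {w : Fin n → ℂ} {P : MvPolynomial (Fin n) ℂ}
    (h : ∀ (x : Fin n → ℂ) (t : ℂ), eval (x + t • w) P = eval x P) (d : ℕ)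
    (hd : P.totalDegree = d) (x : Fin n → ℂ) (t : ℂ) :
    eval (x + t • w) (homogeneousComponent d P) = eval x (homogeneousComponent d P) := by
  have key : ∀ (y : Fin n → ℂ) (s : ℂ), eval (s • y) P =
      (∑ i ∈ Finset.range (d + 1), Polynomial.C (eval y (homogeneousComponent i P)) *
        Polynomial.X ^ i).eval s := by
    intro y s
    conv_lhs => rw [← sum_homogeneousComponent P, hd]
    rw [map_sum, Polynomial.eval_finsetSum]
    refine Finset.sum_congr rfl fun i _ => ?_
    rw [Polynomial.eval_mul, Polynomial.eval_C, Polynomial.eval_pow, Polynomial.eval_X,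
      C3e_hom_eval (homogeneousComponent_isHomogeneous i P), mul_comm]
  have h1 : (∑ i ∈ Finset.range (d + 1), Polynomial.C (eval (x + t • w)
        (homogeneousComponent i P)) * Polynomial.X ^ i) =
      (∑ i ∈ Finset.range (d + 1), Polynomial.C (eval x
        (homogeneousComponent i P)) * Polynomial.X ^ i) := by
    apply Polynomial.funext
    intro s
    rw [← key, ← key, smul_add, smul_smul, h]
  have h2 := congrArg (fun q => Polynomial.coeff q d) h1
  simp only [Polynomial.finsetSum_coeff, Polynomial.coeff_C_mul, Polynomial.coeff_X_pow] at h2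
  simpa using h2

theorem rat_nonzero {n : ℕ} {P : MvPolynomial (Fin n) ℂ} (c v : Fin n → ℤ)
    (hcv : ∑ j, c j * v j = 1) {d : ℕ} {E : ℕ → ℕ} {B : ℕ → MvPolynomial (Fin n) ℂ}
    (hdec : XW.Dec P (XW.lin (fun j => (c j : ℚ))) d 1 E B)
    (hfree : ∀ u : ℂ, ¬ ((∑ j, C (c j : ℂ) * X j) - C u ∣ P))
    (κ₁ : Fin n → ℤ) (D : ℕ) (T : Polynomial ℂ) (W : R1 n)
    (hT : 0 < T.natDegree) (hW : W.degree < D)
    (hP : ∀ (u : Fin n → ℂ) (t : ℂ), eval (u + t • XW.zc κ₁) P =
        T.eval (∑ j, (c j : ℂ) * u j) * t ^ D + h1 u t W) :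
    XW.dirD (XW.zc v) P ≠ 0 ∧ 1 ≤ D ∧ XW.dirD (XW.zc κ₁) P ≠ 0 := by
  have hvc : ∀ z : ℂ, ∑ j, (c j : ℂ) * (z • XW.zc v) j = z := by
    intro z
    have h1 : ((∑ j, c j * v j : ℤ) : ℂ) = 1 := by rw [hcv]; norm_num
    push_cast at h1
    calc ∑ j, (c j : ℂ) * (z • XW.zc v) j = z * ∑ j, (c j : ℂ) * v j := by
          rw [Finset.mul_sum]
          refine Finset.sum_congr rfl fun j _ => ?_
          simp only [Pi.smul_apply, smul_eq_mul, XW.zc]
          ring
      _ = z := by rw [h1, mul_one]
  have hlin : ∀ x : Fin n → ℂ, eval x (XW.lin (fun j => (c j : ℚ))) = ∑ j, (c j : ℂ) * x j := by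
    intro x
    unfold XW.lin
    rw [map_sum]
    refine Finset.sum_congr rfl fun j _ => ?_
    simp
  have hfirst : XW.dirD (XW.zc v) P ≠ 0 := by
    intro h0
    have h1 := C3e_hom (fun x t => C3e_inv h0 x t) d hdec.degree
    have h2 : homogeneousComponent d P = 0 := by
      apply MvPolynomial.funext
      intro x
      rw [← h1 x (-∑ j, (c j : ℂ) * x j), hdec.comp d le_rfl, map_mul, map_pow, hlin, map_zero]
      have h3 : ∑ j, (c j : ℂ) * (x + (-∑ j, (c j : ℂ) * x j) • XW.zc v) j = 0 := by
        have h4 := hvc (-∑ j, (c j : ℂ) * x j)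
        simp only [Pi.add_apply, mul_add, Finset.sum_add_distrib]
        rw [h4]
        ring
      rw [h3, zero_pow (by have := hdec.epos; omega), zero_mul]
    rw [hdec.comp d le_rfl] at h2
    rcases mul_eq_zero.1 h2 with h3 | h3
    · have h4 : XW.lin (fun j => (c j : ℚ)) = (0 : MvPolynomial (Fin n) ℂ) :=
        pow_eq_zero_iff (by have := hdec.epos; omega) |>.1 h3
      have h5 := hlin ((1 : ℂ) • XW.zc v)
      rw [h4, map_zero, hvc 1] at h5
      exact zero_ne_one h5
    · exact hdec.top h3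
  have hTne : T ≠ 0 := by
    rintro rfl
    simp at hT
  have hD : 1 ≤ D := by
    by_contra hD0
    have hD1 : D = 0 := by omega
    subst hD1
    have hW0 : W = 0 := by
      rw [← Polynomial.degree_eq_bot]
      by_contra hne
      rw [Polynomial.degree_eq_bot] at hne
      rw [Polynomial.degree_eq_natDegree hne] at hW
      have : W.natDegree < 0 := by exact_mod_cast hW
      omega
    obtain ⟨u₀, hu₀⟩ := IsAlgClosed.exists_root T (by
      intro h
      rw [Polynomial.natDegree_eq_of_degree_eq_some h] at hT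
      exact lt_irrefl _ hT)
    obtain ⟨T₁, hT₁⟩ := Polynomial.dvd_iff_isRoot.2 hu₀
    apply hfree u₀
    refine ⟨Polynomial.aeval (∑ j, C (c j : ℂ) * X j) T₁, ?_⟩
    apply MvPolynomial.funext
    intro u
    have h1 := hP u 0
    rw [zero_smul, add_zero, pow_zero, mul_one, hW0, map_zero, add_zero] at h1
    rw [h1, hT₁, map_mul, map_sub, map_sum, eval_C]
    have h2 : eval u (Polynomial.aeval (∑ j, C (c j : ℂ) * X j) T₁) =
        T₁.eval (∑ j, (c j : ℂ) * u j) := by
      rw [Polynomial.aeval_def, Polynomial.hom_eval₂]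
      have h3 : (eval u).comp (algebraMap ℂ (MvPolynomial (Fin n) ℂ)) = RingHom.id ℂ := by
        ext a
        simp
      rw [h3, map_sum, ← Polynomial.eval₂_id]
      congr 1
      refine Finset.sum_congr rfl fun j _ => ?_
      simp
    rw [h2]
    simp
  refine ⟨hfirst, hD, ?_⟩
  intro h0
  apply hTne
  apply Polynomial.funext
  intro z
  rw [Polynomial.eval_zero]
  have h1 : Polynomial.C (T.eval z) * Polynomial.X ^ D + W.map (eval (z • XW.zc v)) =
      Polynomial.C (eval (z • XW.zc v) P) := by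
    apply Polynomial.funext
    intro t
    rw [Polynomial.eval_C, ← C3e_inv h0 (z • XW.zc v) t, hP, hvc z]
    simp only [Polynomial.eval_add, Polynomial.eval_mul, Polynomial.eval_C, Polynomial.eval_pow,
      Polynomial.eval_X, Polynomial.eval_map]
    rfl
  have h2 := congrArg (fun q => Polynomial.coeff q D) h1
  simp only [Polynomial.coeff_add, Polynomial.coeff_C_mul, Polynomial.coeff_X_pow,
    Polynomial.coeff_map] at h2
  rw [if_true, mul_one, Polynomial.coeff_eq_zero_of_degree_lt hW, map_zero, add_zero,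
    Polynomial.coeff_C, if_neg (by omega)] at h2
  exact h2

end XV
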