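import Pool.Agent.Lib.MP_228259_lc.A.BR2

/-!
XV-F1 (cov_branch). On a convex open set where a monic family of polynomials has simple roots,
every root at one point extends to a holomorphic root.

Proof. `Z = {(u, θ) | u ∈ U, χ_u(θ) = 0}`, `π : Z → U` is continuous, closed (proper: roots are
locally bounded), has finite fibres and is a local homeomorphism (pullback of the universal family
of polynomials); `U` convex, so it is simply connected and locally path connected. The lift is
continuous and locally an implicit function, so it is differentiable.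
-/

set_option autoImplicit false

namespace XV

open Filter Topology XA

/-- the universal family of monic polynomials -/
private def ua (m : ℕ) : Fin m → (Fin m → ℂ) → ℂ := fun i b => b i

private theorem ua_contDiffAt {m : ℕ} (b : Fin m → ℂ) (i : Fin m) :
    ContDiffAt ℂ 1 (ua m i) b := by
  unfold ua
  fun_prop

/-- pullback of the local homeomorphism of the universal family -/
private theorem local_pull {X : Type*} [TopologicalSpace X] {m : ℕ} {a : Fin m → X → ℂ}
    (ha : ∀ i, Continuous (a i)) {t : X} {T : ℂ} (hT : mp' a t T ≠ 0) :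
    ∃ φ : OpenPartialHomeomorph (X × ℂ) (X × ℂ), (t, T) ∈ φ.source ∧
      (φ : X × ℂ → X × ℂ) = (fun p => (p.1, mp a p.1 p.2)) := by
  set b : X → Fin m → ℂ := fun x i => a i x with hb
  have hbc : Continuous b := continuous_pi ha
  have hmp : ∀ x T, mp a x T = mp (ua m) (b x) T := fun x T => rfl
  obtain ⟨ψ, hψ1, hψ2, -⟩ := mp_local (E := Fin m → ℂ) (a := ua m) (t := b t)
    (ua_contDiffAt (b t)) (T := T) hT
  have hψ2' : ∀ p, ψ p = (p.1, mp (ua m) p.1 p.2) := fun p => congrFun hψ2 p
  have hr : ∀ q ∈ ψ.target, (ψ.symm q).1 = q.1 ∧ mp (ua m) q.1 (ψ.symm q).2 = q.2 := by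
    intro q hq
    have h1 := ψ.right_inv hq
    rw [hψ2'] at h1
    have h2 := congrArg Prod.fst h1
    have h3 := congrArg Prod.snd h1
    simp only at h2 h3
    rw [h2] at h3
    exact ⟨h2, h3⟩
  have hc1 : Continuous (fun p : X × ℂ => ((b p.1, p.2) : (Fin m → ℂ) × ℂ)) :=
    (hbc.comp continuous_fst).prodMk continuous_snd
  let φ : OpenPartialHomeomorph (X × ℂ) (X × ℂ) :=
    { toFun := fun p => (p.1, mp a p.1 p.2)
      invFun := fun q => (q.1, (ψ.symm (b q.1, q.2)).2)
      source := {p | (b p.1, p.2) ∈ ψ.source}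
      target := {q | (b q.1, q.2) ∈ ψ.target}
      map_source' := by
        intro p hp
        have h1 := ψ.map_source hp
        rw [hψ2'] at h1
        exact h1
      map_target' := by
        intro q hq
        have h1 := ψ.map_target hq
        have h2 := (hr _ hq).1
        change (b q.1, (ψ.symm (b q.1, q.2)).2) ∈ ψ.source
        have h3 : ((b q.1, (ψ.symm (b q.1, q.2)).2) : (Fin m → ℂ) × ℂ) = ψ.symm (b q.1, q.2) :=
          Prod.ext h2.symm rfl
        rw [h3]
        exact h1
      left_inv' := by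
        intro p hp
        have h1 := ψ.left_inv hp
        rw [hψ2'] at h1
        have h2 : (ψ.symm (b p.1, mp (ua m) (b p.1) p.2)).2 = p.2 := congrArg Prod.snd h1
        exact Prod.ext rfl h2
      right_inv' := by
        intro q hq
        exact Prod.ext rfl (hr _ hq).2
      open_source := ψ.open_source.preimage hc1
      open_target := ψ.open_target.preimage hc1
      continuousOn_toFun := (continuous_fst.prodMk (mp_continuous ha)).continuousOn
      continuousOn_invFun := by
        refine continuousOn_fst.prodMk ?_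
        refine continuous_snd.comp_continuousOn ?_
        refine ψ.symm.continuousOn.comp hc1.continuousOn ?_
        intro q hq
        exact hq }
  exact ⟨φ, hψ1, rfl⟩

theorem cov_branch {E : Type*} [NormedAddCommGroup E] [NormedSpace ℂ E] [NormedSpace ℝ E]
    [IsScalarTower ℝ ℂ E] [CompleteSpace E] {U : Set E} (hU : IsOpen U) (hc : Convex ℝ U)
    (χ : E → Polynomial ℂ)
    (m : ℕ) (hm : ∀ u ∈ U, (χ u).Monic ∧ (χ u).natDegree = m)
    (hd : ∀ i, DifferentiableOn ℂ (fun u => (χ u).coeff i) U)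
    (hs : ∀ u ∈ U, ∀ θ : ℂ, (χ u).eval θ = 0 → (χ u).derivative.eval θ ≠ 0)
    {u₀ : E} (hu₀ : u₀ ∈ U) {θ₀ : ℂ} (h0 : (χ u₀).eval θ₀ = 0) :
    ∃ θ : E → ℂ, DifferentiableOn ℂ θ U ∧ θ u₀ = θ₀ ∧ ∀ u ∈ U, (χ u).eval (θ u) = 0 := by
  classical
  set a : Fin m → E → ℂ := fun i u => (χ u).coeff i with ha
  have hev : ∀ u ∈ U, ∀ T, (χ u).eval T = mp a u T := by
    intro u hu T
    obtain ⟨h1, h2⟩ := hm u hu
    rw [Polynomial.eval_eq_sum_range, Finset.sum_range_succ, h1.coeff_natDegree, one_mul, h2,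
      Finset.sum_range fun i => (χ u).coeff i * T ^ i, mp, add_comm]
  have hdev : ∀ u ∈ U, ∀ T, (χ u).derivative.eval T = mp' a u T := by
    intro u hu T
    have h1 := (χ u).hasDerivAt T
    have h2 : (fun T => (χ u).eval T) = fun T => mp a u T := funext fun T => hev u hu T
    rw [h2] at h1
    exact h1.unique (mp_hasDerivAt a u T)
  have hmpos : 0 < m := by
    rcases Nat.eq_zero_or_pos m with h | h
    · exfalso
      obtain ⟨h1, h2⟩ := hm u₀ hu₀
      rw [h] at h2
      rw [Polynomial.Monic.natDegree_eq_zero h1 |>.1 h2, Polynomial.eval_one] at h0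
      exact one_ne_zero h0
    · exact h
  have hss : ∀ u ∈ U, ∀ T, mp a u T = 0 → mp' a u T ≠ 0 := by
    intro u hu T hT
    rw [← hdev u hu T]
    exact hs u hu T (by rw [hev u hu T]; exact hT)
  -- the map over `U`
  let a' : Fin m → U → ℂ := fun i t => a i t
  have ha' : ∀ i, Continuous (a' i) := fun i => (hd i).continuousOn.domRestrict
  let Φ : U × ℂ → U × ℂ := fun p => (p.1, mp a' p.1 p.2)
  let S : Set (U × ℂ) := {q | q.2 = 0}
  have hcl : IsClosedMap Φ := mp_isClosedMap hmpos ha'
  have hfin : ∀ q ∈ S, (Φ ⁻¹' {q}).Finite := fun q _ => mp_finite hmpos a' q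
  have hloc : IsLocalHomeomorphOn Φ (Φ ⁻¹' S) := by
    rintro ⟨t, T⟩ htT
    have htT' : mp a t T = 0 := htT
    obtain ⟨φ, hφ1, hφ2⟩ := local_pull ha' (t := t) (T := T) (hss t t.2 T htT')
    exact ⟨φ, hφ1, hφ2.symm⟩
  have hcov : IsCoveringMapOn Φ S := hcl.isCoveringMapOn_of_isLocalHomeomorphOn hfin hloc
  -- lift
  have hsc : SimplyConnectedSpace U := by
    have : ContractibleSpace U := hc.contractibleSpace ⟨u₀, hu₀⟩
    infer_instance
  have hlp : LocallyPathConnectedSpace U := hU.locallyPathConnectedSpace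
  let f : C(U, U × ℂ) := ⟨fun t => (t, 0), by fun_prop⟩
  obtain ⟨F, ⟨hF0, hF⟩, -⟩ := hcov.existsUnique_continuousMap_lifts f (a₀ := ⟨u₀, hu₀⟩)
    (e₀ := (⟨u₀, hu₀⟩, θ₀)) (by
      change ((⟨u₀, hu₀⟩ : U), mp a u₀ θ₀) = (⟨u₀, hu₀⟩, 0)
      rw [← hev u₀ hu₀, h0]) (fun _ => rfl)
  have hF1 : ∀ t : U, (F t).1 = t := fun t => congrArg Prod.fst (congrFun hF t)
  have hF2 : ∀ t : U, mp a t (F t).2 = 0 := by
    intro t
    have h1 : mp a' (F t).1 (F t).2 = 0 := congrArg Prod.snd (congrFun hF t)
    rw [hF1 t] at h1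
    exact h1
  let θ : E → ℂ := fun t => if h : t ∈ U then (F ⟨t, h⟩).2 else 0
  have hθ : ∀ t : U, θ t = (F t).2 := fun t => by
    simp only [θ, Subtype.coe_prop, dite_true]
  have hθc : ContinuousOn θ U := by
    rw [continuousOn_iff_continuous_domRestrict]
    have : U.domRestrict θ = fun t => (F t).2 := by
      funext t
      exact hθ t
    rw [this]
    exact continuous_snd.comp F.continuous
  refine ⟨θ, ?_, ?_, ?_⟩
  · intro t ht
    apply DifferentiableAt.differentiableWithinAt
    have h0 : mp a t (θ t) = 0 := by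
      rw [hθ ⟨t, ht⟩]
      exact hF2 ⟨t, ht⟩
    set b : E → Fin m → ℂ := fun x i => a i x with hb
    have hbd : DifferentiableAt ℂ b t := by
      rw [differentiableAt_pi]
      intro i
      exact (hd i).differentiableAt (hU.mem_nhds ht)
    obtain ⟨ψ, hψ1, hψ2, hψ3⟩ := mp_local (E := Fin m → ℂ) (a := ua m) (t := b t)
      (ua_contDiffAt (b t)) (T := θ t) (hss t ht _ h0)
    have h0' : mp (ua m) (b t) (θ t) = 0 := h0
    rw [h0'] at hψ3
    have h1 : DifferentiableAt ℂ (fun t' => (ψ.symm (b t', 0)).2) t := by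
      have h2 : DifferentiableAt ℂ (fun t' : E => ((b t', 0) : (Fin m → ℂ) × ℂ)) t :=
        hbd.prodMk (differentiableAt_const _)
      have h3 : DifferentiableAt ℂ ψ.symm (b t, 0) := hψ3.differentiableAt (by norm_num)
      exact differentiableAt_snd.comp t (h3.comp t h2)
    refine h1.congr_of_eventuallyEq ?_
    have h3 : ContinuousAt (fun t' => ((b t', θ t') : (Fin m → ℂ) × ℂ)) t :=
      hbd.continuousAt.prodMk (hθc.continuousAt (hU.mem_nhds ht))
    have h4 : ∀ᶠ t' in 𝓝 t, ((b t', θ t') : (Fin m → ℂ) × ℂ) ∈ ψ.source :=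
      h3.eventually (ψ.open_source.mem_nhds hψ1)
    filter_upwards [h4, hU.mem_nhds ht] with t' h5 h6
    have h7 : ψ (b t', θ t') = (b t', 0) := by
      rw [hψ2]
      change (b t', mp a t' (θ t')) = (b t', 0)
      rw [hθ ⟨t', h6⟩, hF2 ⟨t', h6⟩]
    rw [← h7, ψ.left_inv h5]
  · rw [hθ ⟨u₀, hu₀⟩, hF0]
  · intro u hu
    rw [hev u hu, hθ ⟨u, hu⟩]
    exact hF2 ⟨u, hu⟩

end XV
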