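import Pool.Agent.Lib.MP_228259_lc.V.Defs2

/-!
XV-F7. Crude upper bounds of polynomials, and of the roots of monic polynomials.

`eval_bound`: `MvPolynomial.induction_on` or the sum over the support
(`|monomial| ≤ ‖x‖ ^ |α| ≤ (1 + ‖x‖) ^ totalDegree`). `h1_bound`, `e2_bound`: sums of such terms.
`root_bound`: a root of `T ^ m + c_{m-1} T ^ (m-1) + …` has `‖T‖ ≤ 1 + ∑ ‖c_i‖`
(`Polynomial.IsRoot.norm_lt_cauchyBound` or directly).
`h1_ne_bound`-type lower bounds are in other files. Holomorphy: `diff_eval`, `diff_h1`, `diff_e2`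
say that these evaluations of holomorphic functions are holomorphic.
-/

set_option autoImplicit false

namespace XV

open MvPolynomial Filter Topology

/-- polynomially bounded functions -/
def F7_PB {ι : Type*} (B : ι → ℝ) (g : ι → ℂ) : Prop :=
  ∃ C : ℕ, ∀ u, ‖g u‖ ≤ C * (B u) ^ C

theorem F7_const {ι : Type*} (B : ι → ℝ) (hB : ∀ u, 1 ≤ B u) (a : ℂ) :
    F7_PB B (fun _ => a) := by
  obtain ⟨C, hC⟩ := exists_nat_ge ‖a‖
  refine ⟨C, fun u => ?_⟩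
  have h1 : (1 : ℝ) ≤ B u ^ C := one_le_pow₀ (hB u)
  have h2 : (0 : ℝ) ≤ C := Nat.cast_nonneg C
  calc ‖a‖ ≤ C := hC
    _ = C * 1 := (mul_one _).symm
    _ ≤ C * B u ^ C := mul_le_mul_of_nonneg_left h1 h2

theorem F7_mono {ι : Type*} (B : ι → ℝ) (hB : ∀ u, 1 ≤ B u) {C D : ℕ} (h : C ≤ D) (u : ι) :
    (C : ℝ) * B u ^ C ≤ D * B u ^ D := by
  have h1 : (C : ℝ) ≤ D := by exact_mod_cast h
  have h2 : B u ^ C ≤ B u ^ D := pow_le_pow_right₀ (hB u) h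
  have h3 : (0 : ℝ) ≤ B u ^ C := pow_nonneg (le_trans zero_le_one (hB u)) C
  exact mul_le_mul h1 h2 h3 (Nat.cast_nonneg D)

theorem F7_add {ι : Type*} (B : ι → ℝ) (hB : ∀ u, 1 ≤ B u) {f g : ι → ℂ}
    (hf : F7_PB B f) (hg : F7_PB B g) : F7_PB B (fun u => f u + g u) := by
  obtain ⟨C, hC⟩ := hf
  obtain ⟨D, hD⟩ := hg
  refine ⟨C + D, fun u => ?_⟩
  have h0 : (0 : ℝ) ≤ B u := le_trans zero_le_one (hB u)
  have h1 : B u ^ C ≤ B u ^ (C + D) := pow_le_pow_right₀ (hB u) (Nat.le_add_right C D)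
  have h2 : B u ^ D ≤ B u ^ (C + D) := pow_le_pow_right₀ (hB u) (Nat.le_add_left D C)
  calc ‖f u + g u‖ ≤ ‖f u‖ + ‖g u‖ := norm_add_le _ _
    _ ≤ C * B u ^ C + D * B u ^ D := add_le_add (hC u) (hD u)
    _ ≤ C * B u ^ (C + D) + D * B u ^ (C + D) :=
        add_le_add (mul_le_mul_of_nonneg_left h1 (Nat.cast_nonneg C))
          (mul_le_mul_of_nonneg_left h2 (Nat.cast_nonneg D))
    _ = ((C + D : ℕ) : ℝ) * B u ^ (C + D) := by push_cast; ring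

theorem F7_mul {ι : Type*} (B : ι → ℝ) (hB : ∀ u, 1 ≤ B u) {f g : ι → ℂ}
    (hf : F7_PB B f) (hg : F7_PB B g) : F7_PB B (fun u => f u * g u) := by
  obtain ⟨C, hC⟩ := hf
  obtain ⟨D, hD⟩ := hg
  refine ⟨C * D + (C + D), fun u => ?_⟩
  have h0 : (0 : ℝ) ≤ B u := le_trans zero_le_one (hB u)
  have h1 : B u ^ (C + D) ≤ B u ^ (C * D + (C + D)) :=
    pow_le_pow_right₀ (hB u) (Nat.le_add_left _ _)
  have hCD : (0 : ℝ) ≤ (C * D : ℕ) := Nat.cast_nonneg _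
  have h2 : ((C * D : ℕ) : ℝ) ≤ ((C * D + (C + D) : ℕ) : ℝ) := by
    exact_mod_cast Nat.le_add_right _ _
  calc ‖f u * g u‖ = ‖f u‖ * ‖g u‖ := norm_mul _ _
    _ ≤ (C * B u ^ C) * (D * B u ^ D) :=
        mul_le_mul (hC u) (hD u) (norm_nonneg _)
          (mul_nonneg (Nat.cast_nonneg C) (pow_nonneg h0 C))
    _ = ((C * D : ℕ) : ℝ) * B u ^ (C + D) := by push_cast; ring
    _ ≤ ((C * D + (C + D) : ℕ) : ℝ) * B u ^ (C * D + (C + D)) :=
        mul_le_mul h2 h1 (pow_nonneg h0 _) (le_trans hCD h2)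

theorem F7_of_le {ι : Type*} (B : ι → ℝ) {f : ι → ℂ} (h : ∀ u, ‖f u‖ ≤ B u) :
    F7_PB B f := ⟨1, fun u => by simpa using h u⟩

theorem F7_pow {ι : Type*} (B : ι → ℝ) (hB : ∀ u, 1 ≤ B u) {f : ι → ℂ}
    (hf : F7_PB B f) (k : ℕ) : F7_PB B (fun u => f u ^ k) := by
  induction k with
  | zero => simpa using F7_const B hB 1
  | succ k ih => simpa [pow_succ] using F7_mul B hB ih hf

theorem F7_sum {ι κ : Type*} (B : ι → ℝ) (hB : ∀ u, 1 ≤ B u) (s : Finset κ) (f : κ → ι → ℂ)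
    (hf : ∀ k ∈ s, F7_PB B (f k)) : F7_PB B (fun u => ∑ k ∈ s, f k u) := by
  classical
  induction s using Finset.induction_on with
  | empty => simpa using F7_const B hB 0
  | insert a s ha ih =>
    have h1 := F7_add B hB (hf a (Finset.mem_insert_self a s))
      (ih (fun k hk => hf k (Finset.mem_insert_of_mem hk)))
    simpa [Finset.sum_insert ha] using h1

theorem F7_eval {ι : Type*} {n : ℕ} (B : ι → ℝ) (hB : ∀ u, 1 ≤ B u) (x : ι → Fin n → ℂ)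
    (hx : ∀ u, ‖x u‖ ≤ B u) (G : MvPolynomial (Fin n) ℂ) :
    F7_PB B (fun u => eval (x u) G) := by
  induction G using MvPolynomial.induction_on with
  | C a => simpa using F7_const B hB a
  | add p q hp hq => simpa using F7_add B hB hp hq
  | mul_X p i hp =>
    have h1 : F7_PB B (fun u => x u i) :=
      F7_of_le B (fun u => le_trans (norm_le_pi_norm (x u) i) (hx u))
    simpa using F7_mul B hB hp h1

theorem F7_h1_eq {n : ℕ} (G : R1 n) (x : Fin n → ℂ) (f : ℂ) :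
    h1 x f G = ∑ i ∈ Finset.range (G.natDegree + 1), eval x (G.coeff i) * f ^ i := by
  unfold h1
  rw [Polynomial.coe_eval₂RingHom, Polynomial.eval₂_eq_sum_range]

theorem F7_e2_eq {n : ℕ} (G : R2 n) (x : Fin n → ℂ) (f θ : ℂ) :
    (e2 x f G).eval θ = ∑ i ∈ Finset.range (G.natDegree + 1), h1 x f (G.coeff i) * θ ^ i := by
  unfold e2
  rw [Polynomial.eval_map, Polynomial.eval₂_eq_sum_range]

theorem F7_h1 {ι : Type*} {n : ℕ} (B : ι → ℝ) (hB : ∀ u, 1 ≤ B u) (x : ι → Fin n → ℂ)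
    (f : ι → ℂ) (hx : ∀ u, ‖x u‖ ≤ B u) (hf : ∀ u, ‖f u‖ ≤ B u) (G : R1 n) :
    F7_PB B (fun u => h1 (x u) (f u) G) := by
  simp only [F7_h1_eq]
  exact F7_sum B hB _ _ (fun i _ => F7_mul B hB (F7_eval B hB x hx _)
    (F7_pow B hB (F7_of_le B hf) i))

theorem F7_e2 {ι : Type*} {n : ℕ} (B : ι → ℝ) (hB : ∀ u, 1 ≤ B u) (x : ι → Fin n → ℂ)
    (f θ : ι → ℂ) (hx : ∀ u, ‖x u‖ ≤ B u) (hf : ∀ u, ‖f u‖ ≤ B u) (hθ : ∀ u, ‖θ u‖ ≤ B u)
    (G : R2 n) : F7_PB B (fun u => (e2 (x u) (f u) G).eval (θ u)) := by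
  simp only [F7_e2_eq]
  exact F7_sum B hB _ _ (fun i _ => F7_mul B hB (F7_h1 B hB x f hx hf _)
    (F7_pow B hB (F7_of_le B hθ) i))

theorem eval_bound {n : ℕ} (G : MvPolynomial (Fin n) ℂ) :
    ∃ C : ℕ, ∀ x : Fin n → ℂ, ‖eval x G‖ ≤ C * (1 + ‖x‖) ^ C := by
  have h := F7_eval (fun x : Fin n → ℂ => 1 + ‖x‖)
    (fun x => le_add_of_nonneg_right (norm_nonneg x)) (fun x => x)
    (fun x => le_add_of_nonneg_left zero_le_one) G
  exact h

theorem h1_bound {n : ℕ} (G : R1 n) :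
    ∃ C : ℕ, ∀ (x : Fin n → ℂ) (f : ℂ), ‖h1 x f G‖ ≤ C * (1 + ‖x‖ + ‖f‖) ^ C := by
  have h := F7_h1 (fun u : (Fin n → ℂ) × ℂ => 1 + ‖u.1‖ + ‖u.2‖)
    (fun u => by have := norm_nonneg u.1; have := norm_nonneg u.2; linarith)
    (fun u => u.1) (fun u => u.2)
    (fun u => by have := norm_nonneg u.1; have := norm_nonneg u.2; linarith)
    (fun u => by have := norm_nonneg u.1; have := norm_nonneg u.2; linarith) G
  obtain ⟨C, hC⟩ := h
  exact ⟨C, fun x f => hC (x, f)⟩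

theorem e2_bound {n : ℕ} (G : R2 n) :
    ∃ C : ℕ, ∀ (x : Fin n → ℂ) (f θ : ℂ),
      ‖(e2 x f G).eval θ‖ ≤ C * (1 + ‖x‖ + ‖f‖ + ‖θ‖) ^ C := by
  have hn : ∀ u : (Fin n → ℂ) × ℂ × ℂ, 0 ≤ ‖u.1‖ ∧ 0 ≤ ‖u.2.1‖ ∧ 0 ≤ ‖u.2.2‖ :=
    fun u => ⟨norm_nonneg _, norm_nonneg _, norm_nonneg _⟩
  have h := F7_e2 (fun u : (Fin n → ℂ) × ℂ × ℂ => 1 + ‖u.1‖ + ‖u.2.1‖ + ‖u.2.2‖)
    (fun u => by obtain ⟨h1, h2, h3⟩ := hn u; linarith)
    (fun u => u.1) (fun u => u.2.1) (fun u => u.2.2)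
    (fun u => by obtain ⟨h1, h2, h3⟩ := hn u; linarith)
    (fun u => by obtain ⟨h1, h2, h3⟩ := hn u; linarith)
    (fun u => by obtain ⟨h1, h2, h3⟩ := hn u; linarith) G
  obtain ⟨C, hC⟩ := h
  exact ⟨C, fun x f θ => hC (x, f, θ)⟩

theorem e2_monic {n : ℕ} (χ : R2 n) (hχ : χ.Monic) (x : Fin n → ℂ) (f : ℂ) :
    (e2 x f χ).Monic ∧ (e2 x f χ).natDegree = χ.natDegree := by
  unfold e2
  exact ⟨hχ.map _, hχ.natDegree_map _⟩

theorem root_bound {n : ℕ} (χ : R2 n) (hχ : χ.Monic) :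
    ∃ C : ℕ, ∀ (x : Fin n → ℂ) (f θ : ℂ), (e2 x f χ).eval θ = 0 →
      ‖θ‖ ≤ C * (1 + ‖x‖ + ‖f‖) ^ C := by
  set B : (Fin n → ℂ) × ℂ → ℝ := fun u => 1 + ‖u.1‖ + ‖u.2‖ with hB
  have hB1 : ∀ u, 1 ≤ B u := fun u => by
    have := norm_nonneg u.1; have := norm_nonneg u.2; simp only [hB]; linarith
  have hc : ∀ i : ℕ, ∃ C : ℕ, ∀ u : (Fin n → ℂ) × ℂ,
      ‖h1 u.1 u.2 (χ.coeff i)‖ ≤ C * B u ^ C := fun i => by
    obtain ⟨C, hC⟩ := h1_bound (χ.coeff i)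
    exact ⟨C, fun u => hC u.1 u.2⟩
  choose C hC using hc
  set D : ℕ := ∑ i ∈ Finset.range χ.natDegree, C i with hD
  refine ⟨D + 1, fun x f θ hθ => ?_⟩
  obtain ⟨hm, hd⟩ := e2_monic χ hχ x f
  have hroot := Polynomial.IsRoot.norm_lt_cauchyBound hm.ne_zero (a := θ) hθ
  unfold Polynomial.cauchyBound at hroot
  have hlead : (e2 x f χ).leadingCoeff = 1 := hm
  rw [hlead, nnnorm_one, div_one, hd] at hroot
  have hsup : ((Finset.range χ.natDegree).sup fun i => ‖(e2 x f χ).coeff i‖₊ : NNReal) ≤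
      ⟨(D : ℝ) * B (x, f) ^ D, mul_nonneg (Nat.cast_nonneg D)
        (pow_nonneg (le_trans zero_le_one (hB1 (x, f))) D)⟩ := by
    refine Finset.sup_le (fun i hi => ?_)
    rw [← NNReal.coe_le_coe]
    have h1 : ‖(e2 x f χ).coeff i‖ ≤ C i * B (x, f) ^ (C i) := by
      have := hC i (x, f)
      simpa [e2, Polynomial.coeff_map] using this
    have h2 : C i ≤ D := Finset.single_le_sum (f := C) (fun _ _ => Nat.zero_le _) hi
    exact le_trans h1 (F7_mono B hB1 h2 (x, f))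
  have hroot2 : ‖θ‖ < (((Finset.range χ.natDegree).sup
      fun i => ‖(e2 x f χ).coeff i‖₊ : NNReal) : ℝ) + 1 := by
    have := NNReal.coe_lt_coe.mpr hroot
    simpa using this
  have hsup2 : (((Finset.range χ.natDegree).sup
      fun i => ‖(e2 x f χ).coeff i‖₊ : NNReal) : ℝ) ≤ (D : ℝ) * B (x, f) ^ D := by
    exact_mod_cast hsup
  have h3 : (D : ℝ) * B (x, f) ^ D ≤ D * B (x, f) ^ (D + 1) :=
    mul_le_mul_of_nonneg_left (pow_le_pow_right₀ (hB1 _) (Nat.le_succ D)) (Nat.cast_nonneg D)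
  have h4 : (1 : ℝ) ≤ B (x, f) ^ (D + 1) := one_le_pow₀ (hB1 _)
  have h5 : ‖θ‖ ≤ (D : ℝ) * B (x, f) ^ (D + 1) + B (x, f) ^ (D + 1) := by linarith
  calc ‖θ‖ ≤ (D : ℝ) * B (x, f) ^ (D + 1) + B (x, f) ^ (D + 1) := h5
    _ = ((D + 1 : ℕ) : ℝ) * (1 + ‖x‖ + ‖f‖) ^ (D + 1) := by
        simp only [hB]; push_cast; ring

theorem diff_eval {n : ℕ} {E : Type*} [NormedAddCommGroup E] [NormedSpace ℂ E] {U : Set E}
    (G : MvPolynomial (Fin n) ℂ) (x : E → Fin n → ℂ)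
    (hx : ∀ j, DifferentiableOn ℂ (fun u => x u j) U) :
    DifferentiableOn ℂ (fun u => eval (x u) G) U := by
  induction G using MvPolynomial.induction_on with
  | C a => simp only [eval_C]; exact differentiableOn_const a
  | add p q hp hq => simp only [map_add]; exact hp.add hq
  | mul_X p i hp => simp only [map_mul, eval_X]; exact hp.mul (hx i)

theorem diff_h1 {n : ℕ} {E : Type*} [NormedAddCommGroup E] [NormedSpace ℂ E] {U : Set E}
    (G : R1 n) (x : E → Fin n → ℂ) (f : E → ℂ)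
    (hx : ∀ j, DifferentiableOn ℂ (fun u => x u j) U) (hf : DifferentiableOn ℂ f U) :
    DifferentiableOn ℂ (fun u => h1 (x u) (f u) G) U := by
  simp only [F7_h1_eq]
  exact DifferentiableOn.fun_sum (fun i _ => (diff_eval _ x hx).mul (hf.pow i))

theorem diff_coeff {n : ℕ} {E : Type*} [NormedAddCommGroup E] [NormedSpace ℂ E] {U : Set E}
    (G : R2 n) (x : E → Fin n → ℂ) (f : E → ℂ)
    (hx : ∀ j, DifferentiableOn ℂ (fun u => x u j) U) (hf : DifferentiableOn ℂ f U) (i : ℕ) :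
    DifferentiableOn ℂ (fun u => (e2 (x u) (f u) G).coeff i) U := by
  simp only [e2, Polynomial.coeff_map]
  exact diff_h1 _ x f hx hf

theorem diff_e2 {n : ℕ} {E : Type*} [NormedAddCommGroup E] [NormedSpace ℂ E] {U : Set E}
    (G : R2 n) (x : E → Fin n → ℂ) (f θ : E → ℂ)
    (hx : ∀ j, DifferentiableOn ℂ (fun u => x u j) U) (hf : DifferentiableOn ℂ f U)
    (hθ : DifferentiableOn ℂ θ U) :
    DifferentiableOn ℂ (fun u => (e2 (x u) (f u) G).eval (θ u)) U := by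
  simp only [F7_e2_eq]
  exact DifferentiableOn.fun_sum (fun i _ => (diff_h1 _ x f hx hf).mul (hθ.pow i))

end XV
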