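import Mathlib

/-!
XV-F8 (trap). A continuous real function on a preconnected set which avoids an interval stays below
it if it is below it at one point.

Proof. The image of `U` is preconnected, hence order connected; if some value is `≥ b` (it cannot be in
`[a, b]`, so `> b`) then `a` is in the image. Also `log`-type corollaries.
-/

set_option autoImplicit false

namespace XV

theorem trap {E : Type*} [TopologicalSpace E] {U : Set E} (hU : IsPreconnected U) (g : E → ℝ)
    (hg : ContinuousOn g U) {a : ℝ} {u₀ : E} (hu₀ : u₀ ∈ U) (h0 : g u₀ < a)
    (hne : ∀ u ∈ U, g u ≠ a) : ∀ u ∈ U, g u < a := by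
  intro u hu
  by_contra h
  push Not at h
  have h1 : a ∈ g '' U := by
    have := (hU.image g hg).ordConnected.out (Set.mem_image_of_mem g hu₀)
      (Set.mem_image_of_mem g hu)
    exact this ⟨h0.le, h⟩
  obtain ⟨w, hw, hwa⟩ := h1
  exact hne w hw hwa

end XV
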