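import Pool.Agent.Lib.MP_228259_lc.P1

/-!
XV-F9 (trap_lim). A zero of the limit of holomorphic functions, uniformly in a parameter `ξ`.

Proof. `z₀` is an isolated zero of `G`; choose `η < min η₀ r` with `G ≠ 0` on
`0 < ‖z - z₀‖ ≤ η`; on the circle `‖z - z₀‖ = η` (compact) `‖G‖ ≥ δ > 0`, and eventually
`‖F i ξ z - G z‖ < δ / 4` on the closed disc for all `ξ ∈ S i`. On the circle `‖F‖ ≥ 3 δ / 4`, at the
centre `‖F i ξ z₀‖ < δ / 4`. If `F i ξ` had no zero in the open disc, `1 / F i ξ` would be holomorphic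
there and continuous up to the boundary, and the maximum principle would give
`‖1 / F (z₀)‖ ≤ 4 / (3 δ)`, contradiction (compare `XW.hurwitz`, file P1).
-/

set_option autoImplicit false

namespace XV

open Filter Topology

theorem trap_lim {ι Ξ : Type*} {l : Filter ι} (F : ι → Ξ → ℂ → ℂ) (S : ι → Set Ξ) (G : ℂ → ℂ)
    {z₀ : ℂ} {r : ℝ} (hr : 0 < r)
    (hF : ∀ᶠ i in l, ∀ ξ ∈ S i, DifferentiableOn ℂ (F i ξ) (Metric.ball z₀ r))
    (hG : DifferentiableOn ℂ G (Metric.ball z₀ r))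
    (hlim : ∀ r' < r, ∀ ε : ℝ, 0 < ε → ∀ᶠ i in l, ∀ ξ ∈ S i, ∀ z ∈ Metric.closedBall z₀ r',
      ‖F i ξ z - G z‖ < ε)
    (h0 : G z₀ = 0) (hne : ¬ ∀ᶠ z in 𝓝 z₀, G z = 0) (η₀ : ℝ) (hη₀ : 0 < η₀) :
    ∃ η : ℝ, 0 < η ∧ η < η₀ ∧ η < r ∧ ∀ᶠ i in l, ∀ ξ ∈ S i,
      (∀ z : ℂ, ‖z - z₀‖ = η → F i ξ z ≠ 0) ∧ ∃ z : ℂ, ‖z - z₀‖ < η ∧ F i ξ z = 0 := by
  have hz₀ : z₀ ∈ Metric.ball z₀ r := Metric.mem_ball_self hr
  have hGa : AnalyticAt ℂ G z₀ := hG.analyticAt (Metric.isOpen_ball.mem_nhds hz₀)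
  have hne' : ∀ᶠ z in 𝓝[≠] z₀, G z ≠ 0 :=
    hGa.eventually_eq_zero_or_eventually_ne_zero.resolve_left hne
  rw [eventually_nhdsWithin_iff, Metric.eventually_nhds_iff] at hne'
  obtain ⟨ε, hε, hne''⟩ := hne'
  set ρ : ℝ := min (min ε r) η₀ / 2 with hρ
  have hm : 0 < min (min ε r) η₀ := lt_min (lt_min hε hr) hη₀
  have hρ0 : 0 < ρ := by rw [hρ]; linarith
  have hρε : ρ < ε := by
    have := (min_le_left (min ε r) η₀).trans (min_le_left ε r)
    rw [hρ]; linarith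
  have hρr : ρ < r := by
    have := (min_le_left (min ε r) η₀).trans (min_le_right ε r)
    rw [hρ]; linarith
  have hρη : ρ < η₀ := by
    have := min_le_right (min ε r) η₀
    rw [hρ]; linarith
  have hsub : Metric.closedBall z₀ ρ ⊆ Metric.ball z₀ r := Metric.closedBall_subset_ball hρr
  have hsph : Metric.sphere z₀ ρ ⊆ Metric.ball z₀ r := Metric.sphere_subset_closedBall.trans hsub
  have hcomp : IsCompact (Metric.sphere z₀ ρ) := isCompact_sphere z₀ ρ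
  have hnon : (Metric.sphere z₀ ρ).Nonempty := by
    refine ⟨z₀ + ρ, ?_⟩
    simp [abs_of_pos hρ0]
  obtain ⟨x, hx, hxmin⟩ := hcomp.exists_isMinOn hnon
    ((hG.continuousOn.mono hsph).norm)
  have hxpos : 0 < ‖G x‖ := by
    rw [norm_pos_iff]
    apply hne''
    · rw [Metric.mem_sphere] at hx
      rw [hx]; exact hρε
    · intro h
      rw [Set.mem_singleton_iff] at h
      rw [Metric.mem_sphere, h, dist_self] at hx
      exact hρ0.ne hx
  set δ : ℝ := ‖G x‖ / 2 with hδ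
  have hδ0 : 0 < δ := by rw [hδ]; linarith
  refine ⟨ρ, hρ0, hρη, hρr, ?_⟩
  filter_upwards [hF, hlim ρ hρr δ hδ0] with i hFi hli ξ hξ
  have hi2 : ∀ y ∈ Metric.sphere z₀ ρ, δ < ‖F i ξ y‖ := by
    intro y hy
    have h1 := hli ξ hξ y (Metric.sphere_subset_closedBall hy)
    have h2 : ‖G x‖ ≤ ‖G y‖ := hxmin hy
    have h3 : ‖G y‖ ≤ ‖F i ξ y‖ + ‖F i ξ y - G y‖ := by
      have h4 : G y = F i ξ y - (F i ξ y - G y) := by ring
      calc ‖G y‖ = ‖F i ξ y - (F i ξ y - G y)‖ := by rw [← h4]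
        _ ≤ _ := norm_sub_le _ _
    have h5 : ‖G x‖ = 2 * δ := by rw [hδ]; ring
    linarith
  have hi3 : ‖F i ξ z₀‖ < δ := by
    have h1 := hli ξ hξ z₀ (Metric.mem_closedBall_self hρ0.le)
    rwa [h0, sub_zero] at h1
  refine ⟨?_, ?_⟩
  · intro z hz hzero
    have h1 := hi2 z (by rw [mem_sphere_iff_norm]; exact hz)
    rw [hzero, norm_zero] at h1
    linarith
  by_contra hcon
  push Not at hcon
  have hnz : ∀ z ∈ Metric.closedBall z₀ ρ, F i ξ z ≠ 0 := by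
    intro z hz hzero
    rw [mem_closedBall_iff_norm] at hz
    rcases hz.lt_or_eq with h1 | h1
    · exact hcon z h1 hzero
    · have h2 := hi2 z (by rw [mem_sphere_iff_norm]; exact h1)
      rw [hzero, norm_zero] at h2
      linarith
  have hd : DifferentiableOn ℂ (fun z => (F i ξ z)⁻¹) (Metric.closedBall z₀ ρ) :=
    ((hFi ξ hξ).mono hsub).inv hnz
  have hdc : DiffContOnCl ℂ (fun z => (F i ξ z)⁻¹) (Metric.ball z₀ ρ) := by
    apply DifferentiableOn.diffContOnCl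
    rw [closure_ball z₀ hρ0.ne']
    exact hd
  have h7 : ‖(F i ξ z₀)⁻¹‖ ≤ δ⁻¹ := by
    apply Complex.norm_le_of_forall_mem_frontier_norm_le Metric.isBounded_ball hdc
    · intro z hz
      rw [frontier_ball z₀ hρ0.ne'] at hz
      rw [norm_inv]
      exact inv_anti₀ hδ0 (hi2 z hz).le
    · exact subset_closure (Metric.mem_ball_self hρ0)
  rw [norm_inv] at h7
  have h8 : 0 < ‖F i ξ z₀‖ := norm_pos_iff.2 (hnz z₀ (Metric.mem_closedBall_self hρ0.le))
  have h9 := (inv_le_inv₀ h8 hδ0).1 h7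
  linarith

end XV
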