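import Pool.Agent.Lib.MP_228259_lc.V.C3d
import Pool.Agent.Lib.MP_228259_lc.V.F1
import Pool.Agent.Lib.MP_228259_lc.V.F7
import Pool.Agent.Lib.MP_228259_lc.V.F8
import Pool.Agent.Lib.MP_228259_lc.V.F9
import Pool.Agent.Lib.MP_228259_lc.P4b

/-!
XV-C3f (rat_sheet). A holomorphic small root `t₁(u)` of `P(prj u + t v + 2 π i (big N) κ₁) = 0`.

Proof. Put `M = big N`, `F_N(w, t) = P(w + t v + bigc N κ₁) / (bigc N)^D`; by `hP` with `u = w + t v`
(`c·(w + t v) = u₀ + t`) it is `T(u₀ + t) + h1 (w + t v) (bigc N) W / (bigc N)^D`; the second term is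
at most `C N^C / M` for `w ∈ HS`, `‖t‖ ≤ 1` (`W.degree < D`, each coefficient bounded by `eval_bound`,
`big_norm`, `big_large`), so it tends to `0` uniformly. `trap_lim` (`l = atTop`, `S_N = HS c u₀ κ N`,
`G(t) = T(u₀ + t)`, `z₀ = 0`, `r = 1`; `G` is not locally `0` as `T` is not constant) with `η₀ ≤ 1`
so small that `‖T(u₀ + t)‖ ≥ a ‖t‖^e` for `‖t‖ ≤ η₀` (`e` the multiplicity of the root `u₀`, `a > 0`).
The family `χ_u` = `P(prj u + t v + bigc N κ₁)` as polynomial in `t`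
(`(XW.P4b_psi (zc v) P)` specialised at `prj u + bigc N κ₁`, `XW.P4b_psi_eval`), divided by its
leading coefficient, which is nonzero by `hlead`, is monic of degree `natDegree (P4b_psi (zc v) P)`
with holomorphic coefficients on the ball `u ∈ ball (ctr κ N) (c₀ √N)`, with simple roots
(`hsimple`; derivative in `t` of `P(x + t v)` is `dirD v P` at `x + t v`). `cov_branch` with the root of
norm `< η` at the centre; `‖t₁(u)‖` is never `η` (trap_lim), so `‖t₁(u)‖ < η` on the ball (`trap`).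
Upper bound: `a ‖t₁‖^e ≤ ‖T(u₀ + t₁)‖ ≤ C N^C / M`, so `‖t₁‖^e M ≤ N^C'`, and `‖t₁‖ ≤ 1`: enlarge
exponents (`‖t₁‖^C ≤ ‖t₁‖^e` for `C ≥ e`).
Lower bound: `b ≤ ‖P(w + bigc N κ₁)‖ = ‖P(w + bigc N κ₁) - P(w + t₁ v + bigc N κ₁)‖ ≤ M^C ‖t₁‖`
(`P(x + t v) - P(x) = t Q(x, t)`, `Q` a polynomial; `big_norm`, `h1_bound`).
-/

set_option autoImplicit false

namespace XV

open MvPolynomial Filter Topology

/-- polynomial bounds with a common radius -/
private theorem C3f_one {n : ℕ} (G : MvPolynomial (Fin n) ℂ) :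
    ∃ (C : ℕ) (R₀ : ℝ), ∀ R : ℝ, R₀ ≤ R → ∀ x : Fin n → ℂ, ‖x‖ ≤ R ^ 2 →
      ‖eval x G‖ ≤ R ^ C := by
  obtain ⟨C, hC⟩ := eval_bound G
  refine ⟨3 * C + 1, max 2 C, fun R hR x hx => ?_⟩
  have hR2 : 2 ≤ R := (le_max_left _ _).trans hR
  have hRC : (C : ℝ) ≤ R := (le_max_right _ _).trans hR
  have h1 : 1 + ‖x‖ ≤ R ^ 3 := by nlinarith [mul_nonneg (by linarith : (0:ℝ) ≤ R - 2) (sq_nonneg R)]
  have h2 : 0 ≤ 1 + ‖x‖ := by positivity
  calc ‖eval x G‖ ≤ C * (1 + ‖x‖) ^ C := hC x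
    _ ≤ R * (R ^ 3) ^ C := by gcongr
    _ = R ^ (3 * C + 1) := by rw [← pow_mul]; ring

private theorem C3f_sum {n : ℕ} (G : ℕ → MvPolynomial (Fin n) ℂ) (m : ℕ) :
    ∃ (C : ℕ) (R₀ : ℝ), ∀ R : ℝ, R₀ ≤ R → ∀ x : Fin n → ℂ, ‖x‖ ≤ R ^ 2 →
      ∑ i ∈ Finset.range m, ‖eval x (G i)‖ ≤ R ^ C := by
  induction m with
  | zero =>
    refine ⟨0, 0, fun R _ x _ => ?_⟩
    simp
  | succ m ih =>
    obtain ⟨C₁, R₁, h₁⟩ := ih
    obtain ⟨C₂, R₂, h₂⟩ := C3f_one (G m)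
    refine ⟨max C₁ C₂ + 1, max 2 (max R₁ R₂), fun R hR x hx => ?_⟩
    have hR2 : 2 ≤ R := (le_max_left _ _).trans hR
    have hR1 : R₁ ≤ R := (le_max_left _ _).trans ((le_max_right _ _).trans hR)
    have hR3 : R₂ ≤ R := (le_max_right _ _).trans ((le_max_right _ _).trans hR)
    rw [Finset.sum_range_succ]
    have h3 : R ^ C₁ ≤ R ^ max C₁ C₂ := pow_le_pow_right₀ (by linarith) (le_max_left _ _)
    have h4 : R ^ C₂ ≤ R ^ max C₁ C₂ := pow_le_pow_right₀ (by linarith) (le_max_right _ _)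
    have h5 := h₁ R hR1 x hx
    have h6 := h₂ R hR3 x hx
    have h7 : 0 ≤ R ^ max C₁ C₂ := by positivity
    calc _ ≤ R ^ max C₁ C₂ + R ^ max C₁ C₂ := by linarith
      _ ≤ R ^ max C₁ C₂ * R := by nlinarith
      _ = _ := by rw [pow_succ]

private theorem C3f_big_pos (N : ℕ) : (1 : ℝ) ≤ (big N : ℝ) := by
  have h1 : 1 ≤ Real.exp (Real.sqrt (Real.sqrt N)) := Real.one_le_exp (by positivity)
  exact h1.trans (Nat.le_ceil _)

private theorem C3f_bigc (N : ℕ) : (big N : ℝ) ≤ ‖bigc N‖ ∧ 1 ≤ ‖bigc N‖ := by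
  have h1 : ‖bigc N‖ = 2 * Real.pi * (big N : ℝ) := by
    unfold bigc
    rw [norm_mul, norm_mul, norm_mul, Complex.norm_I, Complex.norm_real, Complex.norm_natCast,
      Real.norm_eq_abs, abs_of_pos Real.pi_pos, mul_one]
    norm_num
  have h2 := C3f_big_pos N
  have hpi := Real.pi_gt_three
  rw [h1]
  constructor <;> nlinarith

/-- the polynomial `h1 x f W` for `W.degree < D` -/
private theorem C3f_h1 {n : ℕ} {W : R1 n} {D : ℕ} (hW : W.degree < D) (x : Fin n → ℂ) (f : ℂ)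
    (hf : 1 ≤ ‖f‖) :
    ‖h1 x f W‖ * ‖f‖ ≤ (∑ i ∈ Finset.range D, ‖eval x (W.coeff i)‖) * ‖f‖ ^ D := by
  have h2 : h1 x f W = ∑ i ∈ Finset.range D, eval x (W.coeff i) * f ^ i := by
    unfold h1
    rw [Polynomial.coe_eval₂RingHom]
    rcases eq_or_ne W 0 with h0 | h0
    · rw [h0]
      simp
    · rw [Polynomial.eval₂_eq_sum_range']
      exact (Polynomial.natDegree_lt_iff_degree_lt h0).2 hW
  rw [h2]
  calc ‖∑ i ∈ Finset.range D, eval x (W.coeff i) * f ^ i‖ * ‖f‖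
      ≤ (∑ i ∈ Finset.range D, ‖eval x (W.coeff i) * f ^ i‖) * ‖f‖ := by
        gcongr
        exact norm_sum_le _ _
    _ = ∑ i ∈ Finset.range D, ‖eval x (W.coeff i)‖ * ‖f‖ ^ (i + 1) := by
        rw [Finset.sum_mul]
        refine Finset.sum_congr rfl fun i _ => ?_
        rw [norm_mul, norm_pow, pow_succ]
        ring
    _ ≤ ∑ i ∈ Finset.range D, ‖eval x (W.coeff i)‖ * ‖f‖ ^ D := by
        refine Finset.sum_le_sum fun i hi => ?_
        have h3 : i + 1 ≤ D := Finset.mem_range.1 hi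
        have h4 := pow_le_pow_right₀ hf h3
        gcongr
    _ = _ := by rw [Finset.sum_mul]

/-- lower bound near a root -/
private theorem C3f_root {T : Polynomial ℂ} (hT : T ≠ 0) (u₀ : ℂ) :
    ∃ (e : ℕ) (a η : ℝ), 0 < a ∧ 0 < η ∧ ∀ t : ℂ, ‖t‖ ≤ η → a * ‖t‖ ^ e ≤ ‖T.eval (u₀ + t)‖ := by
  obtain ⟨q, hq, hq0⟩ := Polynomial.exists_eq_pow_rootMultiplicity_mul_and_not_dvd T hT u₀
  have h1 : q.eval u₀ ≠ 0 := by
    intro h
    exact hq0 (Polynomial.dvd_iff_isRoot.2 h)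
  have h2 : 0 < ‖q.eval u₀‖ := norm_pos_iff.2 h1
  have h3 : Continuous fun t : ℂ => ‖q.eval (u₀ + t)‖ := by
    have := q.continuous
    fun_prop
  have h4 : ∀ᶠ t : ℂ in 𝓝 0, ‖q.eval u₀‖ / 2 < ‖q.eval (u₀ + t)‖ := by
    refine h3.continuousAt.eventually (lt_mem_nhds ?_)
    simp only [add_zero]
    linarith
  obtain ⟨ε, hε, h5⟩ := Metric.eventually_nhds_iff.1 h4
  refine ⟨T.rootMultiplicity u₀, ‖q.eval u₀‖ / 2, ε / 2, by positivity, by positivity,
    fun t ht => ?_⟩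
  have h6 := h5 (y := t) (by rw [dist_zero_right]; linarith)
  have h7 : T.eval (u₀ + t) = t ^ T.rootMultiplicity u₀ * q.eval (u₀ + t) := by
    conv_lhs => rw [hq]
    simp
  rw [h7, norm_mul, norm_pow, mul_comm]
  gcongr

private theorem C3f_deriv {n : ℕ} (κ v : Fin n → ℂ) (ω : ℂ) (H : MvPolynomial (Fin n) ℂ) :
    HasDerivAt (fun w : ℂ => eval (κ + w • v) H) (eval (κ + ω • v) (XW.dirD v H)) ω := by
  induction H using MvPolynomial.induction_on with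
  | C a =>
    have h1 : XW.dirD v (C a : MvPolynomial (Fin n) ℂ) = 0 := by
      unfold XW.dirD
      exact Finset.sum_eq_zero fun j _ => by rw [pderiv_C, mul_zero]
    rw [h1, map_zero]
    simp only [eval_C]
    exact hasDerivAt_const ω a
  | add f g hf hg =>
    have h1 : XW.dirD v (f + g) = XW.dirD v f + XW.dirD v g := by
      unfold XW.dirD
      rw [← Finset.sum_add_distrib]
      exact Finset.sum_congr rfl fun j _ => by rw [map_add, mul_add]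
    rw [h1, map_add]
    simp only [map_add]
    exact hf.add hg
  | mul_X f i hf =>
    have h1 : XW.dirD v (f * X i) = XW.dirD v f * X i + f * C (v i) := by
      unfold XW.dirD
      have h2 : ∀ j, C (v j) * pderiv j (f * X i) =
          C (v j) * pderiv j f * X i + f * (C (v j) * Pi.single (M := fun _ => MvPolynomial (Fin n) ℂ) i 1 j) := by
        intro j
        rw [Derivation.leibniz, pderiv_X, smul_eq_mul, smul_eq_mul]
        by_cases hij : i = j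
        · subst hij
          rw [Pi.single_eq_same]
          ring
        · rw [Pi.single_eq_of_ne (by exact fun h => hij h), Pi.single_eq_of_ne (by exact fun h => hij h.symm)]
          ring
      rw [Finset.sum_congr rfl fun j _ => h2 j, Finset.sum_add_distrib, ← Finset.sum_mul,
        ← Finset.mul_sum]
      congr 2
      rw [Finset.sum_eq_single i]
      · rw [Pi.single_eq_same, mul_one]
      · intro b _ hb
        rw [Pi.single_eq_of_ne hb, mul_zero]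
      · intro h
        exact absurd (Finset.mem_univ i) h
    rw [h1, map_add, map_mul, map_mul, eval_X, eval_C]
    simp only [map_mul, eval_X]
    refine hf.mul ?_
    have h3 : HasDerivAt (fun w : ℂ => κ i + w * v i) (1 * v i) ω :=
      ((hasDerivAt_id ω).mul_const (v i)).const_add (κ i)
    rw [one_mul] at h3
    exact h3

/-- the difference `P(x + t v) - P(x)` -/
private theorem C3f_diff {n : ℕ} (v : Fin n → ℂ) (P : MvPolynomial (Fin n) ℂ) (x : Fin n → ℂ)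
    (t : ℂ) (ht : ‖t‖ ≤ 1) :
    ‖eval (x + t • v) P - eval x P‖ ≤ ‖t‖ *
      ∑ i ∈ Finset.range ((XW.P4b_psi v P).natDegree + 1),
        ‖eval x ((XW.P4b_psi v P).coeff i)‖ := by
  set ψ := XW.P4b_psi v P with hψ
  have h1 : eval (x + t • v) P = ∑ i ∈ Finset.range (ψ.natDegree + 1),
      eval x (ψ.coeff i) * t ^ i := by
    rw [← XW.P4b_psi_eval, ← hψ, Polynomial.eval_map, Polynomial.eval₂_eq_sum_range]
  have h2 : eval x P = eval x (ψ.coeff 0) := by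
    rw [hψ, (XW.P4b_psi_coeff v P).1]
  rw [h1, h2, Finset.sum_range_succ', pow_zero, mul_one, add_sub_cancel_right]
  rw [Finset.sum_range_succ' (fun i => ‖eval x (ψ.coeff i)‖)]
  calc ‖∑ i ∈ Finset.range ψ.natDegree, eval x (ψ.coeff (i + 1)) * t ^ (i + 1)‖
      ≤ ∑ i ∈ Finset.range ψ.natDegree, ‖eval x (ψ.coeff (i + 1)) * t ^ (i + 1)‖ :=
        norm_sum_le _ _
    _ ≤ ∑ i ∈ Finset.range ψ.natDegree, ‖t‖ * ‖eval x (ψ.coeff (i + 1))‖ := by
        refine Finset.sum_le_sum fun i _ => ?_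
        rw [norm_mul, norm_pow, pow_succ, mul_comm ‖t‖ ‖_‖]
        have h3 : ‖t‖ ^ i ≤ 1 := pow_le_one₀ (norm_nonneg _) ht
        have h4 : ‖t‖ ^ i * ‖t‖ ≤ 1 * ‖t‖ := by gcongr
        rw [one_mul] at h4
        gcongr
    _ = ‖t‖ * ∑ i ∈ Finset.range ψ.natDegree, ‖eval x (ψ.coeff (i + 1))‖ := by
        rw [Finset.mul_sum]
    _ ≤ _ := by
        gcongr
        have := norm_nonneg (eval x (ψ.coeff 0))
        linarith

theorem rat_sheet {n : ℕ} {P : MvPolynomial (Fin n) ℂ} (c v κ₁ : Fin n → ℤ)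
    (hcv : ∑ j, c j * v j = 1) (hcκ : ∑ j, c j * κ₁ j = 0) (D : ℕ) (T : Polynomial ℂ)
    (W : R1 n) (hT : 0 < T.natDegree) (hW : W.degree < D)
    (hP : ∀ (u : Fin n → ℂ) (t : ℂ), eval (u + t • XW.zc κ₁) P =
        T.eval (∑ j, (c j : ℂ) * u j) * t ^ D + h1 u t W)
    (u₀ : ℂ) (hu₀ : T.eval u₀ = 0) (κ : Fin n → ℝ) {c₀ : ℝ} (hc₀ : 0 < c₀)
    (hprj : ∀ᶠ N : ℕ in atTop, ∀ u ∈ Metric.ball (ctr κ N) (c₀ * Real.sqrt N),
      prj c v u₀ u ∈ HS c u₀ κ N)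
    (hlead : ∀ᶠ N : ℕ in atTop, ∀ w ∈ HS c u₀ κ N,
      eval (w + bigc N • XW.zc κ₁) (XW.P4b_psi (XW.zc v) P).leadingCoeff ≠ 0)
    (hsimple : ∀ᶠ N : ℕ in atTop, ∀ w ∈ HS c u₀ κ N, ∀ t : ℂ,
      eval (w + t • XW.zc v + bigc N • XW.zc κ₁) P = 0 →
      eval (w + t • XW.zc v + bigc N • XW.zc κ₁) (XW.dirD (XW.zc v) P) ≠ 0)
    (hlow : ∃ b : ℝ, 0 < b ∧ ∀ᶠ N : ℕ in atTop, ∀ w ∈ HS c u₀ κ N,
      b ≤ ‖eval (w + bigc N • XW.zc κ₁) P‖) :
    ∃ C : ℕ, ∀ᶠ N : ℕ in atTop, ∃ t₁ : (Fin n → ℂ) → ℂ,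
      DifferentiableOn ℂ t₁ (Metric.ball (ctr κ N) (c₀ * Real.sqrt N)) ∧
      ∀ u ∈ Metric.ball (ctr κ N) (c₀ * Real.sqrt N),
        eval (prj c v u₀ u + t₁ u • XW.zc v + bigc N • XW.zc κ₁) P = 0 ∧
        ‖t₁ u‖ ≤ 1 ∧ 1 ≤ ‖t₁ u‖ * (big N : ℝ) ^ C ∧
        ‖t₁ u‖ ^ C * (big N : ℝ) ≤ (N : ℝ) ^ C := by
  have hT0 : T ≠ 0 := by
    rintro rfl
    simp at hT
  obtain ⟨e, a, η₁, ha, hη₁, hroot⟩ := C3f_root hT0 u₀
  -- the size of the second term
  obtain ⟨C₁, R₁, hC₁⟩ := C3f_sum (fun i => W.coeff i) D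
  have hbn := big_norm c v κ₁ u₀ κ
  have hNlarge : ∀ R : ℝ, ∀ᶠ N : ℕ in atTop, R ≤ (N : ℝ) := fun R =>
    tendsto_natCast_atTop_atTop.eventually_ge_atTop R
  have hMlarge : ∀ R : ℝ, ∀ᶠ N : ℕ in atTop, R ≤ (big N : ℝ) := by
    intro R
    filter_upwards [big_large 1 1 one_pos, hNlarge R] with N h1 h2
    rw [pow_one, one_mul] at h1
    linarith
  have hval : ∀ (N : ℕ), ∀ w ∈ HS c u₀ κ N, ∀ t : ℂ,
      eval (w + t • XW.zc v + bigc N • XW.zc κ₁) P =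
        T.eval (u₀ + t) * bigc N ^ D + h1 (w + t • XW.zc v) (bigc N) W := by
    intro N w hw t
    rw [hP]
    congr 3
    have h2 : ∑ j, (c j : ℂ) * (w + t • XW.zc v) j = ∑ j, (c j : ℂ) * w j +
        t * ∑ j, (c j : ℂ) * (v j : ℂ) := by
      rw [Finset.mul_sum, ← Finset.sum_add_distrib]
      refine Finset.sum_congr rfl fun j _ => ?_
      simp only [Pi.add_apply, Pi.smul_apply, smul_eq_mul, XW.zc]
      ring
    have h3 : ∑ j, (c j : ℂ) * (v j : ℂ) = 1 := by exact_mod_cast hcv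
    rw [h2, h3, hw.1, mul_one]
  have hsmall : ∀ᶠ N : ℕ in atTop, ∀ w ∈ HS c u₀ κ N, ∀ t : ℂ, ‖t‖ ≤ 1 →
      ‖h1 (w + t • XW.zc v) (bigc N) W‖ * (big N : ℝ) ≤ (N : ℝ) ^ C₁ * ‖bigc N‖ ^ D := by
    filter_upwards [hbn, hNlarge R₁] with N h1' h2 w hw t ht
    obtain ⟨hb1, hb2⟩ := C3f_bigc N
    have h3 := C3f_h1 hW (w + t • XW.zc v) (bigc N) hb2
    have h4 := hC₁ N h2 (w + t • XW.zc v) (((h1' w hw).2 t ht).1)
    calc _ ≤ ‖h1 (w + t • XW.zc v) (bigc N) W‖ * ‖bigc N‖ := by gcongr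
      _ ≤ _ := h3
      _ ≤ _ := by gcongr
  -- the zero near the limit
  have hnl : ¬ ∀ᶠ z : ℂ in 𝓝 0, T.eval (u₀ + z) = 0 := by
    intro h
    obtain ⟨ε, hε, h5⟩ := Metric.eventually_nhds_iff.1 h
    have h6 : (Metric.ball u₀ ε) ⊆ {z | T.eval z = 0} := by
      intro z hz
      have := h5 (y := z - u₀) (by rw [dist_zero_right, ← dist_eq_norm]; exact hz)
      rwa [add_sub_cancel] at this
    have h7 : (Metric.ball u₀ ε).Infinite := by
      have h8 : (Metric.ball u₀ ε) ∈ 𝓝 u₀ := Metric.ball_mem_nhds _ hε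
      exact infinite_of_mem_nhds u₀ h8
    refine h7 (Set.Finite.subset ?_ h6)
    exact (T.roots.toFinset.finite_toSet).subset fun z hz => by
      simp only [Finset.mem_coe, Multiset.mem_toFinset]
      exact (Polynomial.mem_roots hT0).2 hz
  have hlim : ∀ r' < (1 : ℝ), ∀ ε : ℝ, 0 < ε → ∀ᶠ N : ℕ in atTop, ∀ w ∈ HS c u₀ κ N,
      ∀ z ∈ Metric.closedBall (0 : ℂ) r',
        ‖eval (w + z • XW.zc v + bigc N • XW.zc κ₁) P / bigc N ^ D - T.eval (u₀ + z)‖ < ε := by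
    intro r' hr' ε hε
    filter_upwards [hsmall, big_large C₁ (ε / 2) (half_pos hε)] with N h2 h3 w hw z hz
    have hz1 : ‖z‖ ≤ 1 := by
      rw [mem_closedBall_zero_iff] at hz
      linarith
    obtain ⟨hb1, hb2⟩ := C3f_bigc N
    have hb0 : bigc N ≠ 0 := norm_pos_iff.1 (by linarith)
    have hM := C3f_big_pos N
    rw [hval N w hw z, add_div, mul_div_cancel_right₀ _ (pow_ne_zero _ hb0), add_sub_cancel_left,
      norm_div, norm_pow, div_lt_iff₀ (by positivity)]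
    have h4 := h2 w hw z hz1
    have h5 : (N : ℝ) ^ C₁ * ‖bigc N‖ ^ D ≤ (ε / 2 * (big N : ℝ)) * ‖bigc N‖ ^ D := by gcongr
    have h6 : ‖h1 (w + z • XW.zc v) (bigc N) W‖ * (big N : ℝ) ≤
        (ε / 2 * ‖bigc N‖ ^ D) * (big N : ℝ) := by
      refine (h4.trans h5).trans (le_of_eq ?_)
      ring
    have h7 := le_of_mul_le_mul_right h6 (by linarith)
    have h8 : 0 < ‖bigc N‖ ^ D := by positivity
    nlinarith
  obtain ⟨η, hη, hηη, hη1, htrap⟩ := trap_lim (l := atTop)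
    (fun (N : ℕ) (w : Fin n → ℂ) (z : ℂ) =>
      eval (w + z • XW.zc v + bigc N • XW.zc κ₁) P / bigc N ^ D)
    (fun N => HS c u₀ κ N) (fun z => T.eval (u₀ + z)) (z₀ := 0) (r := 1) one_pos
    (Eventually.of_forall fun N w _ => by
      refine DifferentiableOn.div_const ?_ _
      refine diff_eval P _ fun j => ?_
      simp only [Pi.add_apply, Pi.smul_apply, smul_eq_mul]
      fun_prop)
    (by
      have : Differentiable ℂ fun z : ℂ => T.eval (u₀ + z) :=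
        T.differentiable.comp (differentiable_id.const_add u₀)
      exact this.differentiableOn)
    hlim (by simpa using hu₀) hnl (min η₁ 1) (lt_min hη₁ one_pos)
  simp only [sub_zero] at htrap
  obtain ⟨b, hb, hlow⟩ := hlow
  set ψ := XW.P4b_psi (XW.zc v) P with hψ
  obtain ⟨C₂, R₂, hC₂⟩ := C3f_sum (fun i => ψ.coeff i) (ψ.natDegree + 1)
  set C : ℕ := max (max e (C₁ + 1)) (C₂ + 1) with hC
  have hCe : e ≤ C := (le_max_left _ _).trans (le_max_left _ _)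
  have hC1 : C₁ + 1 ≤ C := (le_max_right _ _).trans (le_max_left _ _)
  have hC2 : C₂ + 1 ≤ C := le_max_right _ _
  refine ⟨C, ?_⟩
  filter_upwards [hprj, hlead, hsimple, hlow, htrap, hsmall, hbn, hNlarge (1 / a), hNlarge 1,
    hMlarge R₂, hMlarge (1 / b)] with N hprj hlead hsimple hlow htrap hsmall hbn hNa hN1 hMR hMb
  obtain ⟨hb1, hb2⟩ := C3f_bigc N
  have hb0 : bigc N ≠ 0 := norm_pos_iff.1 (by linarith)
  have hM := C3f_big_pos N
  set U := Metric.ball (ctr κ N) (c₀ * Real.sqrt N) with hU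
  have hcen : ctr κ N ∈ U := Metric.mem_ball_self (by positivity)
  set y : (Fin n → ℂ) → Fin n → ℂ := fun u => prj c v u₀ u + bigc N • XW.zc κ₁ with hy
  have hyx : ∀ (u : Fin n → ℂ) (t : ℂ), y u + t • XW.zc v =
      prj c v u₀ u + t • XW.zc v + bigc N • XW.zc κ₁ := fun u t => by
    simp only [hy]; abel
  have hlc : ∀ u ∈ U, eval (y u) ψ.leadingCoeff ≠ 0 := fun u hu => hlead _ (hprj u hu)
  have hyd : ∀ j, DifferentiableOn ℂ (fun u => y u j) U := by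
    intro j
    simp only [hy, prj, Pi.add_apply, Pi.sub_apply, Pi.smul_apply, smul_eq_mul]
    fun_prop
  set χ : (Fin n → ℂ) → Polynomial ℂ := fun u =>
    Polynomial.C (eval (y u) ψ.leadingCoeff)⁻¹ * ψ.map (eval (y u)) with hχ
  have hχeval : ∀ (u : Fin n → ℂ) (t : ℂ), (χ u).eval t = (eval (y u) ψ.leadingCoeff)⁻¹ *
      eval (prj c v u₀ u + t • XW.zc v + bigc N • XW.zc κ₁) P := by
    intro u t
    simp only [hχ]
    rw [Polynomial.eval_mul, Polynomial.eval_C, hψ, XW.P4b_psi_eval, hyx]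
  have hroots : ∀ u ∈ U, ∀ t : ℂ, (χ u).eval t = 0 →
      eval (prj c v u₀ u + t • XW.zc v + bigc N • XW.zc κ₁) P = 0 := by
    intro u hu t ht
    rw [hχeval] at ht
    exact (mul_eq_zero.1 ht).resolve_left (inv_ne_zero (hlc u hu))
  obtain ⟨z₀, hz₀, hz₀0⟩ := (htrap (prj c v u₀ (ctr κ N)) (hprj _ hcen)).2
  obtain ⟨t₁, ht₁d, ht₁c, ht₁r⟩ := cov_branch (E := Fin n → ℂ) (U := U) Metric.isOpen_ball
    (convex_ball _ _) χ ψ.natDegree
    (fun u hu => by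
      have h2 : (ψ.map (eval (y u))).leadingCoeff = eval (y u) ψ.leadingCoeff :=
        Polynomial.leadingCoeff_map_of_leadingCoeff_ne_zero _ (hlc u hu)
      constructor
      · simp only [hχ]
        rw [Polynomial.Monic, Polynomial.leadingCoeff_mul, Polynomial.leadingCoeff_C, h2,
          inv_mul_cancel₀ (hlc u hu)]
      · simp only [hχ]
        rw [Polynomial.natDegree_C_mul (inv_ne_zero (hlc u hu)),
          Polynomial.natDegree_map_of_leadingCoeff_ne_zero _ (hlc u hu)])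
    (fun i => by
      simp only [hχ, Polynomial.coeff_C_mul, Polynomial.coeff_map]
      exact ((diff_eval ψ.leadingCoeff y hyd).inv fun u hu => hlc u hu).mul
        (diff_eval (ψ.coeff i) y hyd))
    (fun u hu θ hθ => by
      have h2 := hroots u hu θ hθ
      have h3 := hsimple _ (hprj u hu) θ h2
      have h4 : HasDerivAt (fun t : ℂ => (χ u).eval t) ((χ u).derivative.eval θ) θ :=
        (χ u).hasDerivAt θ
      have h5 : (fun t : ℂ => (χ u).eval t) = fun t : ℂ => (eval (y u) ψ.leadingCoeff)⁻¹ *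
          eval (y u + t • XW.zc v) P := by
        funext t
        rw [hχeval, hyx]
      rw [h5] at h4
      have h6 := (C3f_deriv (y u) (XW.zc v) θ P).const_mul
        ((eval (y u) ψ.leadingCoeff)⁻¹)
      rw [h4.unique h6, hyx]
      exact mul_ne_zero (inv_ne_zero (hlc u hu)) h3)
    hcen (θ₀ := z₀) (by
      rw [hχeval]
      have := (div_eq_zero_iff.1 hz₀0).resolve_right (pow_ne_zero _ hb0)
      rw [this, mul_zero])
  have ht₁0 : ∀ u ∈ U, eval (prj c v u₀ u + t₁ u • XW.zc v + bigc N • XW.zc κ₁) P = 0 :=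
    fun u hu => hroots u hu _ (ht₁r u hu)
  have ht₁η : ∀ u ∈ U, ‖t₁ u‖ < η := by
    refine trap (convex_ball _ _).isPreconnected (fun u => ‖t₁ u‖) ht₁d.continuousOn.norm hcen
      (by rw [ht₁c]; exact hz₀) fun u hu heq => ?_
    exact (htrap _ (hprj u hu)).1 (t₁ u) heq (by rw [ht₁0 u hu, zero_div])
  refine ⟨t₁, ht₁d, fun u hu => ?_⟩
  have hw := hprj u hu
  have ht1 : ‖t₁ u‖ ≤ 1 := by linarith [ht₁η u hu]
  have hz := ht₁0 u hu
  refine ⟨hz, ht1, ?_, ?_⟩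
  · -- lower bound
    have h2 := hlow _ hw
    have h3 := C3f_diff (XW.zc v) P (y u) (t₁ u) ht1
    rw [hyx, hz, zero_sub, norm_neg, ← hψ] at h3
    have h4 : ‖y u‖ ≤ (big N : ℝ) ^ 2 := by
      have := ((hbn _ hw).2 0 (by simp)).2
      simpa [hy] using this
    have h5 := hC₂ _ hMR _ h4
    have h6 : b ≤ ‖t₁ u‖ * (big N : ℝ) ^ C₂ := by
      refine (h2.trans h3).trans ?_
      gcongr
    have h7 : (1 : ℝ) ≤ b * (big N : ℝ) := by
      rw [div_le_iff₀ hb] at hMb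
      linarith
    calc (1 : ℝ) ≤ b * (big N : ℝ) := h7
      _ ≤ (‖t₁ u‖ * (big N : ℝ) ^ C₂) * (big N : ℝ) := by gcongr
      _ = ‖t₁ u‖ * (big N : ℝ) ^ (C₂ + 1) := by rw [pow_succ]; ring
      _ ≤ ‖t₁ u‖ * (big N : ℝ) ^ C := by
          have := pow_le_pow_right₀ hM hC2
          gcongr
  · -- upper bound
    have h2 := hval N _ hw (t₁ u)
    rw [hz] at h2
    have h3 := hsmall _ hw (t₁ u) ht1
    have h4 : ‖T.eval (u₀ + t₁ u)‖ * ‖bigc N‖ ^ D =
        ‖h1 (prj c v u₀ u + t₁ u • XW.zc v) (bigc N) W‖ := by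
      rw [← norm_pow, ← norm_mul]
      have : T.eval (u₀ + t₁ u) * bigc N ^ D =
          -h1 (prj c v u₀ u + t₁ u • XW.zc v) (bigc N) W := by linear_combination -h2
      rw [this, norm_neg]
    rw [← h4] at h3
    have h5 : 0 < ‖bigc N‖ ^ D := by positivity
    have h6 : ‖T.eval (u₀ + t₁ u)‖ * (big N : ℝ) ≤ (N : ℝ) ^ C₁ := by
      have h7 : (‖T.eval (u₀ + t₁ u)‖ * (big N : ℝ)) * ‖bigc N‖ ^ D ≤
          (N : ℝ) ^ C₁ * ‖bigc N‖ ^ D := by
        refine le_trans (le_of_eq ?_) h3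
        ring
      exact le_of_mul_le_mul_right h7 h5
    have h8 := hroot (t₁ u) (by
      have := ht₁η u hu
      have := min_le_left η₁ 1
      linarith)
    have h9 : (1 : ℝ) ≤ a * N := by
      rw [div_le_iff₀ ha] at hNa
      linarith
    have h10 : ‖t₁ u‖ ^ C ≤ ‖t₁ u‖ ^ e := pow_le_pow_of_le_one (norm_nonneg _) ht1 hCe
    have h11 : (0 : ℝ) ≤ ‖t₁ u‖ ^ e := by positivity
    calc ‖t₁ u‖ ^ C * (big N : ℝ) ≤ ‖t₁ u‖ ^ e * (big N : ℝ) := by gcongr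
      _ ≤ (a * N) * (‖t₁ u‖ ^ e * (big N : ℝ)) := by
          have : 0 ≤ ‖t₁ u‖ ^ e * (big N : ℝ) := by positivity
          nlinarith
      _ = N * ((a * ‖t₁ u‖ ^ e) * (big N : ℝ)) := by ring
      _ ≤ N * (‖T.eval (u₀ + t₁ u)‖ * (big N : ℝ)) := by gcongr
      _ ≤ N * (N : ℝ) ^ C₁ := by gcongr
      _ = (N : ℝ) ^ (C₁ + 1) := by rw [pow_succ]; ring
      _ ≤ (N : ℝ) ^ C := pow_le_pow_right₀ hN1 hC1

end XV
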