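import Pool.Agent.Lib.MP_228259_lc.V.Defs2
import Pool.Agent.Lib.MP_228259_lc.P4a

/-!
XV-F6e (elim_ext). Elimination along a direction with a parameter `Φ`.

`G ∈ ℂ[x][Φ]` has a coefficient not divisible by the irreducible `P`, and `P` depends on the direction
`v`. Then some nonzero `R ∈ ℂ[x][Φ]`, invariant under the translations by `v`, is a combination of
`P(x + t v)` and `G(x + t v, Φ)`.

Proof. As `XW.gp` (P4a) in the factorial domain `A = ℂ[x][Φ]` (or `MvPolynomial (Option (Fin n)) ℂ`):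
`P` is irreducible (prime) in `A` and does not divide `G`. Map `A → A[T]`, `x ↦ x + T v`
(an automorphism of `A[T]` composed with the inclusion, as `P4a_theta`), `XW.P4a_abstract`.
Invariance: as in `elim_inv` (highest coefficient in `s` of `R(x + s v, Φ)`).
-/

set_option autoImplicit false

namespace XV

open MvPolynomial Filter Topology

theorem F6e_ext1 {n : ℕ} (p q : R1 n)
    (h : ∀ (x : Fin n → ℂ) (f : ℂ), h1 x f p = h1 x f q) : p = q := by
  apply Polynomial.ext
  intro i
  apply MvPolynomial.funext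
  intro x
  have h2 : p.map (eval x) = q.map (eval x) := by
    apply Polynomial.funext
    intro f
    have h3 := h x f
    unfold h1 at h3
    rw [Polynomial.coe_eval₂RingHom, Polynomial.eval₂_eq_eval_map,
      Polynomial.eval₂_eq_eval_map] at h3
    exact h3
  have h4 := congrArg (fun r => r.coeff i) h2
  simpa only [Polynomial.coeff_map] using h4

theorem F6e_ext2 {n : ℕ} (p q : R2 n)
    (h : ∀ (x : Fin n → ℂ) (f t : ℂ), (e2 x f p).eval t = (e2 x f q).eval t) : p = q := by
  apply Polynomial.ext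
  intro i
  apply F6e_ext1
  intro x f
  have h2 : e2 x f p = e2 x f q := Polynomial.funext (h x f)
  have h3 := congrArg (fun r => r.coeff i) h2
  simpa only [e2, Polynomial.coeff_map] using h3

theorem F6e_h1_C {n : ℕ} (x : Fin n → ℂ) (f : ℂ) (a : MvPolynomial (Fin n) ℂ) :
    h1 x f (Polynomial.C a) = eval x a := by
  unfold h1
  rw [Polynomial.coe_eval₂RingHom, Polynomial.eval₂_C]

theorem F6e_h1_X {n : ℕ} (x : Fin n → ℂ) (f : ℂ) :
    h1 x f (Polynomial.X : R1 n) = f := by
  unfold h1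
  rw [Polynomial.coe_eval₂RingHom, Polynomial.eval₂_X]

theorem F6e_e2_C {n : ℕ} (x : Fin n → ℂ) (f t : ℂ) (a : R1 n) :
    (e2 x f (Polynomial.C a)).eval t = h1 x f a := by
  unfold e2
  rw [Polynomial.map_C, Polynomial.eval_C]

/-- the substitution `x ↦ x + T v` on `ℂ[x][Φ]` -/
noncomputable def F6e_psi {n : ℕ} (v : Fin n → ℂ) : R1 n →+* R2 n :=
  Polynomial.eval₂RingHom (R := MvPolynomial (Fin n) ℂ) (S := R2 n)
    ((Polynomial.mapRingHom (Polynomial.C : MvPolynomial (Fin n) ℂ →+* R1 n)).comp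
      (XW.P4b_psi v).toRingHom) (Polynomial.C Polynomial.X)

theorem F6e_psi_C {n : ℕ} (v : Fin n → ℂ) (a : MvPolynomial (Fin n) ℂ) :
    F6e_psi v (Polynomial.C a) = (XW.P4b_psi v a).map Polynomial.C := by
  unfold F6e_psi
  rw [Polynomial.coe_eval₂RingHom, Polynomial.eval₂_C]
  rfl

theorem F6e_psi_X {n : ℕ} (v : Fin n → ℂ) :
    F6e_psi v Polynomial.X = Polynomial.C Polynomial.X := by
  unfold F6e_psi
  rw [Polynomial.coe_eval₂RingHom, Polynomial.eval₂_X]

theorem F6e_psi_eval {n : ℕ} (v x : Fin n → ℂ) (f t : ℂ) (p : R1 n) :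
    (e2 x f (F6e_psi v p)).eval t = h1 (x + t • v) f p := by
  have h2 : ((Polynomial.evalRingHom t).comp (Polynomial.mapRingHom (h1 x f))).comp
      (F6e_psi v) = h1 (x + t • v) f := by
    apply Polynomial.ringHom_ext
    · intro a
      rw [RingHom.comp_apply, RingHom.comp_apply, F6e_psi_C, Polynomial.coe_mapRingHom,
        Polynomial.map_map, Polynomial.coe_evalRingHom, F6e_h1_C, ← XW.P4b_psi_eval]
      congr 2
      refine RingHom.ext fun b => ?_
      rw [RingHom.comp_apply, F6e_h1_C]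
    · rw [RingHom.comp_apply, RingHom.comp_apply, F6e_psi_X, Polynomial.coe_mapRingHom,
        Polynomial.map_C, Polynomial.coe_evalRingHom, Polynomial.eval_C, F6e_h1_X, F6e_h1_X]
  exact congrArg (fun r : R1 n →+* ℂ => r p) h2

/-- the substitution `x ↦ x + T v` on `ℂ[x][Φ][T]` -/
noncomputable def F6e_th {n : ℕ} (v : Fin n → ℂ) : R2 n →+* R2 n :=
  Polynomial.eval₂RingHom (R := R1 n) (S := R2 n) (F6e_psi v) Polynomial.X

theorem F6e_th_C {n : ℕ} (v : Fin n → ℂ) (a : R1 n) :
    F6e_th v (Polynomial.C a) = F6e_psi v a := by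
  unfold F6e_th
  rw [Polynomial.coe_eval₂RingHom, Polynomial.eval₂_C]

theorem F6e_th_X {n : ℕ} (v : Fin n → ℂ) :
    F6e_th v Polynomial.X = Polynomial.X := by
  unfold F6e_th
  rw [Polynomial.coe_eval₂RingHom, Polynomial.eval₂_X]

theorem F6e_th_eval {n : ℕ} (v x : Fin n → ℂ) (f t : ℂ) (p : R2 n) :
    (e2 x f (F6e_th v p)).eval t = (e2 (x + t • v) f p).eval t := by
  have h2 : ((Polynomial.evalRingHom t).comp (Polynomial.mapRingHom (h1 x f))).comp
      (F6e_th v) =
      (Polynomial.evalRingHom t).comp (Polynomial.mapRingHom (h1 (x + t • v) f)) := by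
    apply Polynomial.ringHom_ext
    · intro a
      rw [RingHom.comp_apply, RingHom.comp_apply, F6e_th_C, Polynomial.coe_mapRingHom,
        Polynomial.coe_evalRingHom]
      refine (F6e_psi_eval v x f t a).trans ?_
      rw [RingHom.comp_apply, Polynomial.coe_mapRingHom, Polynomial.map_C,
        Polynomial.coe_evalRingHom, Polynomial.eval_C]
    · rw [RingHom.comp_apply, RingHom.comp_apply, F6e_th_X, Polynomial.coe_mapRingHom,
        Polynomial.map_X, RingHom.comp_apply, Polynomial.coe_mapRingHom, Polynomial.map_X]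
  exact congrArg (fun r : R2 n →+* ℂ => r p) h2

theorem F6e_th_th {n : ℕ} (v w : Fin n → ℂ) (hvw : v + w = 0) (p : R2 n) :
    F6e_th v (F6e_th w p) = p := by
  apply F6e_ext2
  intro x f t
  rw [F6e_th_eval, F6e_th_eval, add_assoc, ← smul_add, hvw, smul_zero, add_zero]

/-- the automorphism `x ↦ x + T v` of `ℂ[x][Φ][T]` -/
noncomputable def F6e_equiv {n : ℕ} (v : Fin n → ℂ) : R2 n ≃+* R2 n :=
  RingEquiv.ofRingHom (F6e_th v) (F6e_th (-v))
    (RingHom.ext fun p => F6e_th_th v (-v) (by simp) p)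
    (RingHom.ext fun p => F6e_th_th (-v) v (by simp) p)

theorem F6e_prime_equiv {R : Type*} [CommSemiring R] (e : R ≃+* R) (p : R) (hp : Prime p) :
    Prime (e p) := (MulEquiv.prime_iff e.toMulEquiv).mpr hp

theorem F6e_prime {n : ℕ} (P : MvPolynomial (Fin n) ℂ) (hP : Irreducible P) (v : Fin n → ℂ) :
    Prime (F6e_psi v (Polynomial.C P)) := by
  have h2 : Prime P := UniqueFactorizationMonoid.irreducible_iff_prime.mp hP
  have h3 : Prime (Polynomial.C (Polynomial.C P)) :=
    Polynomial.prime_C_iff.mpr (Polynomial.prime_C_iff.mpr h2)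
  have h4 := F6e_prime_equiv (R := R2 n) (F6e_equiv v) _ h3
  have h5 : (F6e_equiv v) (Polynomial.C (Polynomial.C P)) =
      F6e_psi v (Polynomial.C P) := F6e_th_C v _
  rwa [h5] at h4

theorem F6e_deg {n : ℕ} (P : MvPolynomial (Fin n) ℂ) (v : Fin n → ℂ) (hv : XW.dirD v P ≠ 0) :
    (F6e_psi v (Polynomial.C P)).natDegree ≠ 0 := by
  rw [F6e_psi_C, Polynomial.natDegree_map_eq_of_injective Polynomial.C_injective]
  exact (XW.P4b_natDegree_pos v P hv).ne'

theorem F6e_back {n : ℕ} (v : Fin n → ℂ) (a : R1 n) :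
    F6e_th (-v) (F6e_psi v a) = Polynomial.C a := by
  rw [← F6e_th_C, F6e_th_th (-v) v (by simp)]

theorem F6e_nd {n : ℕ} (P : MvPolynomial (Fin n) ℂ) (G : R1 n) (v : Fin n → ℂ)
    (hG : ∃ i, ¬ P ∣ G.coeff i) : ¬ F6e_psi v (Polynomial.C P) ∣ F6e_psi v G := by
  intro h
  obtain ⟨i, hi⟩ := hG
  have h2 := map_dvd (F6e_th (-v)) h
  rw [F6e_back, F6e_back] at h2
  have h3 : Polynomial.C P ∣ G := by
    have := (Polynomial.C_dvd_iff_dvd_coeff _ _).mp h2 0
    rwa [Polynomial.coeff_C_zero] at this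
  exact hi ((Polynomial.C_dvd_iff_dvd_coeff _ _).mp h3 i)

theorem F6e_taylor (q : Polynomial ℂ) (s : ℂ) (d : ℕ) (hd : q.natDegree ≤ d) :
    (Polynomial.taylor s q).coeff d = q.coeff d := by
  rcases hd.lt_or_eq with h | h
  · rw [Polynomial.coeff_eq_zero_of_natDegree_lt h,
      Polynomial.coeff_eq_zero_of_natDegree_lt (by rwa [Polynomial.natDegree_taylor])]
  · subst h
    rw [Polynomial.coeff_taylor_natDegree]
    rfl

theorem elim_ext {n : ℕ} (P : MvPolynomial (Fin n) ℂ) (G : R1 n) (hP : Irreducible P)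
    (v : Fin n → ℂ) (hv : XW.dirD v P ≠ 0) (hG : ∃ i, ¬ P ∣ G.coeff i) :
    ∃ (R : R1 n) (U W : R2 n), R ≠ 0 ∧
      (∀ (x : Fin n → ℂ) (t f : ℂ), h1 (x + t • v) f R = h1 x f R) ∧
      ∀ (x : Fin n → ℂ) (t f : ℂ),
        h1 x f R = (e2 x f U).eval t * eval (x + t • v) P +
          (e2 x f W).eval t * h1 (x + t • v) f G := by
  classical
  let _inst : NormalizedGCDMonoid (R1 n) := Classical.choice inferInstance
  obtain ⟨R, U, W, hR, hUW⟩ := XW.P4a_abstract (K := FractionRing (R1 n))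
    (F6e_psi v (Polynomial.C P)) (F6e_psi v G) (F6e_prime P hP v) (F6e_deg P v hv)
    (F6e_nd P G v hG)
  have hT := congrArg (F6e_th (-v)) hUW
  rw [map_add, map_mul, map_mul, F6e_back, F6e_back] at hT
  set Q : R2 n := F6e_th (-v) (Polynomial.C R) with hQ
  have hQ0 : Q ≠ 0 := by
    intro h0
    have h2 : F6e_th v Q = Polynomial.C R := by
      rw [hQ, F6e_th_th v (-v) (by simp)]
    rw [h0, map_zero] at h2
    exact hR (Polynomial.C_eq_zero.1 h2.symm)
  set d := Q.natDegree with hd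
  have hinv : ∀ (x : Fin n → ℂ) (s f : ℂ),
      h1 (x + s • v) f (Q.coeff d) = h1 x f (Q.coeff d) := by
    intro x s f
    have h2 : e2 (x + s • v) f Q = Polynomial.taylor (-s) (e2 x f Q) := by
      apply Polynomial.funext
      intro t
      rw [Polynomial.taylor_eval, hQ, F6e_th_eval, F6e_th_eval, F6e_e2_C, F6e_e2_C]
      congr 2
      rw [add_assoc]
      congr 1
      rw [smul_neg, smul_neg, add_smul, neg_smul]
      abel
    have h3 : (e2 x f Q).natDegree ≤ d := Polynomial.natDegree_map_le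
    have h4 := F6e_taylor (e2 x f Q) (-s) d h3
    rw [← h2] at h4
    unfold e2 at h4
    rwa [Polynomial.coeff_map, Polynomial.coeff_map] at h4
  have hc : Q.coeff d = (F6e_th (-v) U).coeff d * Polynomial.C P +
      (F6e_th (-v) W).coeff d * G := by
    rw [← hT, Polynomial.coeff_add, Polynomial.coeff_mul_C, Polynomial.coeff_mul_C]
  refine ⟨Q.coeff d, F6e_psi v ((F6e_th (-v) U).coeff d), F6e_psi v ((F6e_th (-v) W).coeff d),
    ?_, fun x t f => hinv x t f, fun x t f => ?_⟩
  · exact Polynomial.leadingCoeff_ne_zero.2 hQ0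
  · rw [F6e_psi_eval, F6e_psi_eval, ← hinv x t f, hc, map_add, map_mul, map_mul, F6e_h1_C]

end XV
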