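import Pool.Agent.Lib.MP_228259_lc.V.C3d
import Pool.Agent.Lib.MP_228259_lc.V.C3b
import Pool.Agent.Lib.MP_228259_lc.V.F6e
import Pool.Agent.Lib.MP_228259_lc.V.F7

/-!
XV-C3g (rat_delta). Lower bound for `Δ(x, e^(c·x))` on the sheet.

Proof. `elim_ext` in the direction `κ₁` gives `R = U P(x + t κ₁) + W' Δ(x + t κ₁, f)`. Put
`x = w + t v`, `t ↦ bigc N`, `f = exp (u₀ + t)`, where `P(w + t v + bigc N κ₁) = 0`:
`‖R(w + t v, e^(u₀+t))‖ ≤ ‖W'(…)‖ ‖Δ(w + t v + bigc N κ₁, f)‖`, `‖W'‖ ≤ M^C` (`e2_bound`, `big_norm`,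
`‖f‖ ≤ e^(‖u₀‖+1)`, `M = big N`). By `hexp`: `‖R(w + t v, e^(u₀+t))‖ ≥ b ‖t‖^o - K (1 + ‖w‖)^K ‖t‖^(o+1)`
`≥ (b/2) ‖t‖^o` because `‖t‖ ≤ (N^C₁ / M)^(1/C₁)` is smaller than `b / (2 K (1 + N^2)^K)` for large `N`
(`big_large` with the exponent `C₁ (2 K + 2) …`: if `‖t‖ > ε N^(-k)` then
`‖t‖^C₁ M > ε^C₁ N^(-k C₁) M > N^C₁` eventually, contradiction). Finally `‖t‖^o ≥ M^(-C₁ o)`.
(`C₁ ≥ 1` may be assumed: for `C₁ = 0` the hypothesis `‖t‖^0 * M ≤ N^0` fails for large `N`.)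
-/

set_option autoImplicit false

namespace XV

open MvPolynomial Filter Topology

theorem rat_delta {n : ℕ} {P : MvPolynomial (Fin n) ℂ} (c v κ₁ : Fin n → ℤ)
    (hcv : ∑ j, c j * v j = 1) (u₀ : ℂ) (κ : Fin n → ℝ) (Δ : R1 n)
    (R : R1 n) (U W' : R2 n)
    (hR : ∀ (x : Fin n → ℂ) (t f : ℂ), h1 x f R = (e2 x f U).eval t *
      eval (x + t • XW.zc κ₁) P + (e2 x f W').eval t * h1 (x + t • XW.zc κ₁) f Δ)
    (o K : ℕ) (ρ : MvPolynomial (Fin n) ℂ)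
    (hexp : ∀ w : Fin n → ℂ, ∑ j, (c j : ℂ) * w j = u₀ → ∀ t : ℂ, ‖t‖ ≤ 1 →
        ‖h1 (w + t • XW.zc v) (Complex.exp (u₀ + t)) R - eval w ρ * t ^ o‖ ≤
          K * (1 + ‖w‖) ^ K * ‖t‖ ^ (o + 1))
    (hρ : ∃ b : ℝ, 0 < b ∧ ∀ᶠ N : ℕ in atTop, ∀ w ∈ HS c u₀ κ N, b ≤ ‖eval w ρ‖)
    (C₁ : ℕ) :
    ∃ C : ℕ, ∀ᶠ N : ℕ in atTop, ∀ w ∈ HS c u₀ κ N, ∀ t : ℂ, ‖t‖ ≤ 1 →
      1 ≤ ‖t‖ * (big N : ℝ) ^ C₁ → ‖t‖ ^ C₁ * (big N : ℝ) ≤ (N : ℝ) ^ C₁ →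
      eval (w + t • XW.zc v + bigc N • XW.zc κ₁) P = 0 →
      1 ≤ ‖h1 (w + t • XW.zc v + bigc N • XW.zc κ₁) (Complex.exp (u₀ + t)) Δ‖ *
        (big N : ℝ) ^ C := by
  obtain ⟨b, hb, hρb⟩ := hρ
  obtain ⟨Cw, hCw⟩ := e2_bound W'
  obtain ⟨F0, hF0⟩ : ∃ F0 : ℝ, F0 = Real.exp (‖u₀‖ + 1) := ⟨_, rfl⟩
  have hF0p : 0 < F0 := by rw [hF0]; exact Real.exp_pos _
  have hbC : 0 < (b / 2) ^ C₁ / 2 := by positivity
  refine ⟨2 * Cw + 1 + C₁ * o + 1, ?_⟩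
  have hNt : Tendsto (fun N : ℕ => (N : ℝ)) atTop atTop := tendsto_natCast_atTop_atTop
  filter_upwards [hρb, big_norm c v κ₁ u₀ κ, big_large 2 1 one_pos, big_large 1 1 one_pos,
    big_large ((3 * K + 2) * C₁) _ hbC, hNt.eventually_ge_atTop (10 + F0 + K + Cw + 2 / b)]
    with N h1N h2N h3N h4N h5N h6N
  intro w hw t ht hlow hup hP
  obtain ⟨M, hM⟩ : ∃ M : ℝ, M = (big N : ℝ) := ⟨_, rfl⟩
  rw [← hM] at h2N h3N h4N h5N hlow hup ⊢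
  rw [one_mul] at h3N h4N
  rw [pow_one] at h4N
  have h2b : 0 < 2 / b := by positivity
  have hK0 : (0 : ℝ) ≤ K := Nat.cast_nonneg K
  have hCw0 : (0 : ℝ) ≤ Cw := Nat.cast_nonneg Cw
  have hN10 : (10 : ℝ) ≤ N := by linarith
  have hM10 : (10 : ℝ) ≤ M := by linarith
  have hM1 : 1 ≤ M := by linarith
  have hM0 : 0 < M := by linarith
  obtain ⟨hwn, hwt⟩ := h2N w hw
  have hwt1 := (hwt t ht).1
  -- the identity
  have hid := hR (w + t • XW.zc v) (bigc N) (Complex.exp (u₀ + t))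
  rw [hP, mul_zero, zero_add] at hid
  -- upper bound of `W'`
  have hf : ‖Complex.exp (u₀ + t)‖ ≤ F0 := by
    rw [Complex.norm_exp, hF0]
    apply Real.exp_le_exp.2
    calc (u₀ + t).re ≤ ‖u₀ + t‖ := Complex.re_le_norm _
      _ ≤ ‖u₀‖ + ‖t‖ := norm_add_le _ _
      _ ≤ ‖u₀‖ + 1 := by linarith
  have hbig : ‖bigc N‖ ≤ 7 * M := by
    unfold bigc
    rw [norm_mul, norm_mul, norm_mul, Complex.norm_I, Complex.norm_real, Complex.norm_natCast,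
      Complex.norm_ofNat, ← hM, Real.norm_eq_abs, abs_of_pos Real.pi_pos]
    have := Real.pi_lt_d2
    nlinarith
  have hW : ‖(e2 (w + t • XW.zc v) (Complex.exp (u₀ + t)) W').eval (bigc N)‖ ≤
      M ^ (2 * Cw + 1) := by
    refine (hCw _ _ _).trans ?_
    have h7 : 1 + ‖w + t • XW.zc v‖ + ‖Complex.exp (u₀ + t)‖ + ‖bigc N‖ ≤ M ^ 2 := by
      nlinarith
    calc (Cw : ℝ) * (1 + ‖w + t • XW.zc v‖ + ‖Complex.exp (u₀ + t)‖ + ‖bigc N‖) ^ Cw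
        ≤ M * (M ^ 2) ^ Cw := by
          apply mul_le_mul
          · linarith
          · exact pow_le_pow_left₀ (by positivity) h7 _
          · positivity
          · exact hM0.le
      _ = M ^ (2 * Cw + 1) := by rw [← pow_mul, pow_succ]; ring
  -- lower bound of `R`
  have hKN : (K : ℝ) * (1 + ‖w‖) ^ K ≤ (N : ℝ) ^ (3 * K + 1) := by
    have h7 : 1 + ‖w‖ ≤ (N : ℝ) ^ 3 := by
      have : 1 + (N : ℝ) ^ 2 ≤ (N : ℝ) ^ 3 := by nlinarith [sq_nonneg (N : ℝ)]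
      linarith
    calc (K : ℝ) * (1 + ‖w‖) ^ K ≤ N * ((N : ℝ) ^ 3) ^ K := by
          apply mul_le_mul
          · linarith
          · exact pow_le_pow_left₀ (by positivity) h7 _
          · positivity
          · linarith
      _ = (N : ℝ) ^ (3 * K + 1) := by rw [← pow_mul, pow_succ]; ring
  have hsmall : (N : ℝ) ^ (3 * K + 1) * ‖t‖ ≤ b / 2 := by
    by_contra hcon
    rw [not_le] at hcon
    have h7 : (b / 2) ^ C₁ * M ≤ (N : ℝ) ^ ((3 * K + 2) * C₁) := by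
      calc (b / 2) ^ C₁ * M ≤ ((N : ℝ) ^ (3 * K + 1) * ‖t‖) ^ C₁ * M := by
            apply mul_le_mul_of_nonneg_right _ hM0.le
            exact pow_le_pow_left₀ (by positivity) hcon.le _
        _ = ((N : ℝ) ^ (3 * K + 1)) ^ C₁ * (‖t‖ ^ C₁ * M) := by rw [mul_pow]; ring
        _ ≤ ((N : ℝ) ^ (3 * K + 1)) ^ C₁ * (N : ℝ) ^ C₁ := by
            apply mul_le_mul_of_nonneg_left hup (by positivity)
        _ = (N : ℝ) ^ ((3 * K + 2) * C₁) := by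
            rw [← mul_pow, ← pow_succ, ← pow_mul]
    have h8 : 0 < (b / 2) ^ C₁ * M := by positivity
    linarith
  have hRlow : b / 2 * ‖t‖ ^ o ≤
      ‖h1 (w + t • XW.zc v) (Complex.exp (u₀ + t)) R‖ := by
    have h7 := hexp w hw.1 t ht
    have h8 := h1N w hw
    have h9 : ‖eval w ρ * t ^ o‖ ≤ ‖h1 (w + t • XW.zc v) (Complex.exp (u₀ + t)) R‖ +
        ‖h1 (w + t • XW.zc v) (Complex.exp (u₀ + t)) R - eval w ρ * t ^ o‖ := by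
      have := norm_sub_le (h1 (w + t • XW.zc v) (Complex.exp (u₀ + t)) R)
        (h1 (w + t • XW.zc v) (Complex.exp (u₀ + t)) R - eval w ρ * t ^ o)
      rwa [sub_sub_cancel] at this
    rw [norm_mul, norm_pow] at h9
    have h10 : b * ‖t‖ ^ o ≤ ‖eval w ρ‖ * ‖t‖ ^ o :=
      mul_le_mul_of_nonneg_right h8 (by positivity)
    have h11 : (K : ℝ) * (1 + ‖w‖) ^ K * ‖t‖ ^ (o + 1) ≤ b / 2 * ‖t‖ ^ o := by
      calc (K : ℝ) * (1 + ‖w‖) ^ K * ‖t‖ ^ (o + 1)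
          ≤ (N : ℝ) ^ (3 * K + 1) * ‖t‖ ^ (o + 1) :=
            mul_le_mul_of_nonneg_right hKN (by positivity)
        _ = ((N : ℝ) ^ (3 * K + 1) * ‖t‖) * ‖t‖ ^ o := by rw [pow_succ]; ring
        _ ≤ b / 2 * ‖t‖ ^ o := mul_le_mul_of_nonneg_right hsmall (by positivity)
    linarith
  obtain ⟨D, hD⟩ : ∃ D : ℝ, D = ‖h1 (w + t • XW.zc v + bigc N • XW.zc κ₁)
      (Complex.exp (u₀ + t)) Δ‖ := ⟨_, rfl⟩
  have hD0 : 0 ≤ D := by rw [hD]; exact norm_nonneg _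
  rw [← hD]
  have h7 : b / 2 * ‖t‖ ^ o ≤ M ^ (2 * Cw + 1) * D := by
    refine hRlow.trans ?_
    rw [hid, norm_mul, ← hD]
    exact mul_le_mul_of_nonneg_right hW hD0
  have h8 : 1 ≤ ‖t‖ ^ o * M ^ (C₁ * o) := by
    rw [pow_mul, ← mul_pow]
    exact one_le_pow₀ hlow
  have h9 : 1 ≤ b / 2 * M := by
    have h10 : 2 / b ≤ M := by linarith
    rw [div_le_iff₀ hb] at h10
    linarith
  calc (1 : ℝ) ≤ (b / 2 * M) * (‖t‖ ^ o * M ^ (C₁ * o)) := by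
        nlinarith
    _ = (b / 2 * ‖t‖ ^ o) * (M * M ^ (C₁ * o)) := by ring
    _ ≤ (M ^ (2 * Cw + 1) * D) * (M * M ^ (C₁ * o)) :=
        mul_le_mul_of_nonneg_right h7 (by positivity)
    _ = D * M ^ (2 * Cw + 1 + C₁ * o + 1) := by
        rw [pow_succ M (2 * Cw + 1 + C₁ * o), pow_add M (2 * Cw + 1) (C₁ * o)]; ring

end XV
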