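import Pool.Agent.Lib.MP_228259_lc.V.F3

/-!
XV-F4 (sol). The solution lemma.

Proof. `k j = round (im (c j - L c j) / (2 π))`, `Φ u = L u + 2 π i k`. By `bc_lip` (sup norm, all
coordinates) `Φ` is `1/2`-Lipschitz on `ball c (R / 4)` as `16 M / R ≤ 1 / 2`; each coordinate of
`Φ c - c` has real part at most `2 M` and imaginary part at most `π` in absolute value; Banach fixed
point theorem. With a parameter the fixed point is the uniform limit of the iterates.
-/

set_option autoImplicit false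

namespace XV

open Filter Topology Metric

/-- Banach fixed point theorem on a closed ball -/
private theorem fix_aux {E : Type*} [NormedAddCommGroup E] [CompleteSpace E] {c : E}
    {r : ℝ} (hr : 0 ≤ r) {Φ : E → E} {K : NNReal} (hK : K < 1)
    (hlip : ∀ u ∈ closedBall c r, ∀ u' ∈ closedBall c r, ‖Φ u - Φ u'‖ ≤ K * ‖u - u'‖)
    (hc : ‖Φ c - c‖ ≤ (1 - K) * r) :
    (∀ u ∈ closedBall c r, Φ u ∈ closedBall c r) ∧
    ∃ u ∈ closedBall c r, Φ u = u ∧
      ∀ n : ℕ, ‖Φ^[n] c - u‖ ≤ ‖Φ c - c‖ * (K : ℝ) ^ n / (1 - K) := by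
  have hK1 : (K : ℝ) < 1 := by exact_mod_cast hK
  have hmaps : Set.MapsTo Φ (closedBall c r) (closedBall c r) := by
    intro t ht
    rw [mem_closedBall_iff_norm] at ht ⊢
    have h1 := hlip t (by rwa [mem_closedBall_iff_norm]) c (mem_closedBall_self hr)
    calc ‖Φ t - c‖ = ‖(Φ t - Φ c) + (Φ c - c)‖ := by congr 1; abel
      _ ≤ ‖Φ t - Φ c‖ + ‖Φ c - c‖ := norm_add_le _ _
      _ ≤ K * r + (1 - K) * r := by
        refine add_le_add (h1.trans ?_) hc
        gcongr
      _ = r := by ring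
  refine ⟨hmaps, ?_⟩
  have hcontr : ContractingWith K (hmaps.restrict Φ (closedBall c r) (closedBall c r)) := by
    refine ⟨hK, ?_⟩
    apply LipschitzWith.of_dist_le_mul
    intro x y
    have h1 := hlip x x.2 y y.2
    rw [Subtype.dist_eq, Subtype.dist_eq, dist_eq_norm, dist_eq_norm]
    simpa using h1
  obtain ⟨t, ht, hfix, -, hest⟩ := ContractingWith.exists_fixedPoint' isClosed_closedBall.isComplete
    hmaps hcontr (mem_closedBall_self hr) (edist_ne_top _ _)
  refine ⟨t, ht, hfix, fun n => ?_⟩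
  have h1 := hest n
  rw [edist_dist, edist_dist] at h1
  have hK0 : (0 : ℝ) ≤ K := K.2
  have h2 : ENNReal.ofReal (dist c (Φ c)) * (K : ENNReal) ^ n / (1 - K) =
      ENNReal.ofReal (‖Φ c - c‖ * (K : ℝ) ^ n / (1 - K)) := by
    rw [ENNReal.ofReal_div_of_pos (by linarith), ENNReal.ofReal_mul (norm_nonneg _),
      ENNReal.ofReal_pow hK0, ENNReal.ofReal_coe_nnreal, ENNReal.ofReal_sub _ hK0,
      ENNReal.ofReal_one, ENNReal.ofReal_coe_nnreal, dist_comm, dist_eq_norm]
  rw [h2, ENNReal.ofReal_le_ofReal_iff, dist_eq_norm] at h1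
  · exact h1
  · have : 0 < 1 - (K : ℝ) := by linarith
    positivity

theorem sol {n : ℕ} {c : Fin n → ℂ} {R M : ℝ} (hM : 0 < M) (hR : 32 * (M + 1) ≤ R)
    (hc : ∀ j, |(c j).re| ≤ M) (L : (Fin n → ℂ) → Fin n → ℂ)
    (hL : ∀ j, DifferentiableOn ℂ (fun u => L u j) (Metric.ball c R))
    (hb : ∀ u ∈ Metric.ball c R, ∀ j, |(L u j).re| ≤ M) :
    ∃ (k : Fin n → ℤ) (u : Fin n → ℂ), u ∈ Metric.ball c (R / 4) ∧
      ∀ j, u j = L u j + 2 * Real.pi * Complex.I * k j := by
  have hpi := Real.pi_pos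
  have hpi4 := Real.pi_lt_four
  have hR0 : 0 < R := by nlinarith
  set k : Fin n → ℤ := fun j => round ((c j - L c j).im / (2 * Real.pi)) with hk
  set Φ : (Fin n → ℂ) → (Fin n → ℂ) := fun u j => L u j + 2 * Real.pi * Complex.I * k j with hΦ
  have hcR : c ∈ ball c R := mem_ball_self hR0
  set r : ℝ := 2 * (2 * M + Real.pi) with hr
  have hrR : r < R / 4 := by rw [hr]; linarith
  have hr0 : 0 < r := by positivity
  have hsub : closedBall c r ⊆ ball c (R / 4) := closedBall_subset_ball hrR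
  have hKval : ((1 / 2 : NNReal) : ℝ) = 1 / 2 := by norm_num
  obtain ⟨-, u, hu, hfix, -⟩ := fix_aux (Φ := Φ) (c := c) hr0.le (K := 1 / 2)
    (by rw [← NNReal.coe_lt_coe]; norm_num) (by
      intro u hu u' hu'
      rw [hKval, pi_norm_le_iff_of_nonneg (by positivity)]
      intro j
      have h1 : (Φ u - Φ u') j = L u j - L u' j := by simp [Φ]
      rw [h1]
      refine (bc_lip hR0 hM (fun u => L u j) (hL j) (fun u hu => hb u hu j) (hsub hu)
        (hsub hu')).trans ?_
      have : 16 * M / R ≤ 1 / 2 := by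
        rw [div_le_iff₀ hR0]; nlinarith
      gcongr) (by
      rw [hKval, pi_norm_le_iff_of_nonneg (by linarith)]
      intro j
      have hx : (Φ c - c) j = L c j + 2 * Real.pi * Complex.I * k j - c j := by simp [Φ]
      have h1 : |((Φ c - c) j).re| ≤ 2 * M := by
        have h2 : ((Φ c - c) j).re = (L c j).re - (c j).re := by
          rw [hx]
          simp
        rw [h2]
        have h3 := abs_sub (L c j).re (c j).re
        linarith [hb c hcR j, hc j]
      have h2 : |((Φ c - c) j).im| ≤ Real.pi := by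
        have h3 : ((Φ c - c) j).im = -(((c j - L c j).im / (2 * Real.pi) - k j) * (2 * Real.pi)) := by
          rw [hx]
          simp only [Complex.sub_im, Complex.add_im, Complex.mul_im, Complex.mul_re,
            Complex.I_re, Complex.I_im, Complex.ofReal_re, Complex.ofReal_im, Complex.intCast_re,
            Complex.intCast_im, Complex.re_ofNat, Complex.im_ofNat]
          field_simp
          ring
        rw [h3, abs_neg, abs_mul, abs_of_pos (by positivity : (0 : ℝ) < 2 * Real.pi)]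
        have h4 := abs_sub_round ((c j - L c j).im / (2 * Real.pi))
        nlinarith
      have h3 := Complex.norm_le_abs_re_add_abs_im ((Φ c - c) j)
      linarith)
  refine ⟨k, u, hsub hu, fun j => ?_⟩
  exact (congrFun hfix j).symm

/-- the same with a prescribed translation `b`, and with a holomorphic parameter `s` -/
theorem sol_param {n : ℕ} {c b : Fin n → ℂ} {R M : ℝ} (hM : 0 < M) (hR : 64 * (M + 1) ≤ R)
    {S : Set ℂ} (hS : IsOpen S) (L : (Fin n → ℂ) → ℂ → Fin n → ℂ)
    (hL : ∀ j, DifferentiableOn ℂ (fun q : (Fin n → ℂ) × ℂ => L q.1 q.2 j)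
      (Metric.ball c R ×ˢ S))
    (hb : ∀ u ∈ Metric.ball c R, ∀ s ∈ S, ∀ j, |(L u s j).re| ≤ M)
    (hcb : ∀ s ∈ S, ‖(fun j => L c s j + b j) - c‖ ≤ R / 16) :
    ∃ u : ℂ → Fin n → ℂ, (∀ j, DifferentiableOn ℂ (fun s => u s j) S) ∧
      ∀ s ∈ S, u s ∈ Metric.ball c (R / 4) ∧ ‖u s - c‖ ≤ 2 * ‖(fun j => L c s j + b j) - c‖ ∧
        ∀ j, u s j = L (u s) s j + b j := by
  classical
  have hR0 : 0 < R := by nlinarith
  set Φ : ℂ → (Fin n → ℂ) → (Fin n → ℂ) := fun s u j => L u s j + b j with hΦ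
  set r : ℝ := R / 8 with hr
  have hr0 : 0 < r := by rw [hr]; linarith
  have hsub : closedBall c r ⊆ ball c (R / 4) := closedBall_subset_ball (by rw [hr]; linarith)
  have hsubR : closedBall c r ⊆ ball c R := closedBall_subset_ball (by rw [hr]; linarith)
  have hKval : ((1 / 4 : NNReal) : ℝ) = 1 / 4 := by norm_num
  have hLs : ∀ s ∈ S, ∀ j, DifferentiableOn ℂ (fun u => L u s j) (ball c R) := by
    intro s hs j
    have h1 : DifferentiableOn ℂ (fun u : Fin n → ℂ => ((u, s) : (Fin n → ℂ) × ℂ)) (ball c R) := by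
      fun_prop
    exact (hL j).comp h1 fun u hu => ⟨hu, hs⟩
  have key : ∀ s ∈ S, (∀ u ∈ closedBall c r, Φ s u ∈ closedBall c r) ∧
      ∃ u ∈ closedBall c r, Φ s u = u ∧
      ∀ n : ℕ, ‖(Φ s)^[n] c - u‖ ≤ ‖Φ s c - c‖ * ((1 / 4 : NNReal) : ℝ) ^ n /
        (1 - ((1 / 4 : NNReal) : ℝ)) := by
    intro s hs
    refine fix_aux hr0.le (by rw [← NNReal.coe_lt_coe]; norm_num) ?_ ?_
    · intro u hu u' hu'
      rw [hKval, pi_norm_le_iff_of_nonneg (by positivity)]
      intro j
      have h1 : (Φ s u - Φ s u') j = L u s j - L u' s j := by simp [Φ]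
      rw [h1]
      refine (bc_lip hR0 hM (fun u => L u s j) (hLs s hs j) (fun u hu => hb u hu s hs j) (hsub hu)
        (hsub hu')).trans ?_
      have : 16 * M / R ≤ 1 / 4 := by
        rw [div_le_iff₀ hR0]; nlinarith
      gcongr
    · rw [hKval, hr]
      have := hcb s hs
      change ‖Φ s c - c‖ ≤ R / 16 at this
      linarith
  choose! u hu using fun s (hs : s ∈ S) => (key s hs).2
  have hiter : ∀ n : ℕ, (∀ s ∈ S, (Φ s)^[n] c ∈ closedBall c r) ∧
      DifferentiableOn ℂ (fun s => (Φ s)^[n] c) S := by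
    intro n
    induction n with
    | zero =>
      refine ⟨fun s _ => mem_closedBall_self hr0.le, ?_⟩
      simp only [Function.iterate_zero, id]
      exact differentiableOn_const _
    | succ n ih =>
      refine ⟨fun s hs => ?_, ?_⟩
      · rw [Function.iterate_succ_apply']
        exact (key s hs).1 _ (ih.1 s hs)
      · have h1 : (fun s => (Φ s)^[n + 1] c) = fun s => Φ s ((Φ s)^[n] c) := by
          funext s
          rw [Function.iterate_succ_apply']
        rw [h1, differentiableOn_pi]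
        intro j
        change DifferentiableOn ℂ (fun s => L ((Φ s)^[n] c) s j + b j) S
        have h2 : DifferentiableOn ℂ (fun s : ℂ => (((Φ s)^[n] c, s) : (Fin _ → ℂ) × ℂ)) S :=
          DifferentiableOn.prodMk ih.2 differentiableOn_id
        have h3 : DifferentiableOn ℂ (fun s => L ((Φ s)^[n] c) s j) S :=
          DifferentiableOn.comp (t := ball c R ×ˢ S) (hL j) h2
            fun s hs => ⟨hsubR (ih.1 s hs), hs⟩
        exact h3.add (differentiableOn_const _)
  have hunif : TendstoUniformlyOn (fun (n : ℕ) (s : ℂ) => (Φ s)^[n] c) u atTop S := by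
    rw [Metric.tendstoUniformlyOn_iff]
    intro ε hε
    have h1 : Tendsto (fun n : ℕ => R / 16 * ((1 / 4 : ℝ)) ^ n / (1 - 1 / 4)) atTop (𝓝 0) := by
      have h2 := (tendsto_pow_atTop_nhds_zero_of_lt_one (by norm_num : (0 : ℝ) ≤ 1 / 4)
        (by norm_num)).const_mul (R / 16)
      have h3 := h2.div_const (1 - 1 / 4)
      simpa using h3
    filter_upwards [h1.eventually (gt_mem_nhds hε)] with n hn s hs
    rw [dist_comm, dist_eq_norm]
    refine ((hu s hs).2.2 n).trans_lt (lt_of_le_of_lt ?_ hn)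
    rw [hKval]
    have h2 : ‖Φ s c - c‖ ≤ R / 16 := hcb s hs
    gcongr
  have hud : DifferentiableOn ℂ u S :=
    hunif.tendstoLocallyUniformlyOn.differentiableOn (Eventually.of_forall fun n => (hiter n).2) hS
  refine ⟨u, fun j => ?_, fun s hs => ⟨hsub (hu s hs).1, ?_, fun j => ?_⟩⟩
  · exact (differentiableOn_pi.1 hud) j
  · have h1 := (hu s hs).2.2 0
    rw [hKval] at h1
    simp only [Function.iterate_zero, id, pow_zero, mul_one] at h1
    rw [norm_sub_rev]
    change _ ≤ 2 * ‖Φ s c - c‖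
    have h2 : ‖Φ s c - c‖ / (1 - 1 / 4) ≤ 2 * ‖Φ s c - c‖ := by
      rw [div_le_iff₀ (by norm_num)]
      nlinarith [norm_nonneg (Φ s c - c)]
    linarith
  · exact (congrFun (hu s hs).2.1 j).symm

end XV
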