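import Pool.Agent.Lib.MP_228259_lc.V.C3d
import Pool.Agent.Lib.MP_228259_lc.V.F1
import Pool.Agent.Lib.MP_228259_lc.V.F2
import Pool.Agent.Lib.MP_228259_lc.V.F4
import Pool.Agent.Lib.MP_228259_lc.V.F7

/-!
XV-C3h (rat_point). From the sheet with the lower bound for `Δ` to an exponential point.

Proof. Let `M = big N`, `B = ball (ctr κ N) (c₀ √N)`, `x(u) = prj u + t₁(u) v + bigc N κ₁`,
`f(u) = exp (u₀ + t₁(u))`. On `B`: `P(x(u)) = 0`, `h1 (x u) (f u) Δ ≠ 0` (`hΔ`), so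
`χ_u = e2 (x u) (f u) χ` is monic of degree `χ.natDegree > 0` (`e2_monic`) with holomorphic
coefficients (`diff_coeff`; `prj` is affine) and simple roots; take a root at the centre
(`IsAlgClosed.exists_root`) and `cov_branch`: `θ(u)`. `y_j(u) = yv Δ A (x u) (f u) (θ u) j` is
holomorphic and nowhere zero (`RPres.inv`). Bounds: `‖x(u)‖ ≤ M^2` (`big_norm`), `‖f‖ ≤ e^(‖u₀‖+1)`,
`‖θ‖ ≤ M^C` (`root_bound`), so `‖y_j‖`, `‖1/y_j‖ = ‖A'_j/Δ‖` are at most `M^C'`, i.e.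
`|log ‖y_j‖| ≤ C' log M ≤ 2 C' √√N` (`log_big`). `ℓ_j` = logarithm of `y_j` (`exists_log`),
`L_j(u) = ℓ_j(u) - t₁(u) v_j`, `|Re L_j| ≤ M₀ := 2 C' √√N + ‖v‖ + 1`. `sol` with the centre `ctr κ N`
(real parts `0`), radius `R = c₀ √N ≥ 32 (M₀ + 1)` for large `N`:
`u_j = L_j(u) + 2 π i k_j`, `u ∈ B`.
`∏ y_j^(c_j) = f(u)` (`RPres.mono`), so `exp (c·ℓ(u)) = exp (u₀ + t₁(u))` and
`c·ℓ(u) = u₀ + t₁(u) + 2 π i m'`, `m'` integer; `c·u = c·ℓ(u) - t₁(u) (c·v) + 2 π i c·k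
= u₀ + 2 π i m`. So `x(u) = u - 2 π i m v + t₁ v + 2 π i M κ₁ = ℓ(u) + 2 π i (k - m v + M κ₁)` and
`exp (x_j) = y_j`; `(x(u), y(u)) ∈ V` by `RPres.mem`.
-/

set_option autoImplicit false

namespace XV

open MvPolynomial Filter Topology

private theorem C3h_num (K Kx C : ℕ) (F : ℝ) (hF : 0 ≤ F) : ∃ (C' : ℕ) (M₁ : ℝ), 1 ≤ M₁ ∧
    ∀ M : ℝ, M₁ ≤ M → ∀ X f θ a δ : ℝ, 0 ≤ X → X ≤ M ^ 2 → 0 ≤ f → f ≤ F → 0 ≤ θ →
      θ ≤ Kx * (1 + X + f) ^ Kx → a ≤ K * (1 + X + f + θ) ^ K → 0 < δ → 1 ≤ δ * M ^ C →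
      a / δ ≤ M ^ C' := by
  refine ⟨(3 * Kx + 4) * K + 1 + C, 2 + F + K + Kx, ?_, ?_⟩
  · have h1 : (0 : ℝ) ≤ K := Nat.cast_nonneg _
    have h2 : (0 : ℝ) ≤ Kx := Nat.cast_nonneg _
    linarith
  intro M hM X f θ a δ hX hXM hf hfF hθ hθb ha hδ hδM
  have hK0 : (0 : ℝ) ≤ K := Nat.cast_nonneg _
  have hKx0 : (0 : ℝ) ≤ Kx := Nat.cast_nonneg _
  have hM2 : 2 ≤ M := by linarith
  have hM0 : 0 < M := by linarith
  have hM1 : 1 ≤ M := by linarith
  have h1 : 1 + X + f ≤ M ^ 3 := by nlinarith [sq_nonneg M, mul_nonneg hM0.le (sq_nonneg M)]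
  have h2 : θ ≤ M ^ (3 * Kx + 1) := by
    calc θ ≤ Kx * (1 + X + f) ^ Kx := hθb
      _ ≤ M * (M ^ 3) ^ Kx := by
        refine mul_le_mul (by linarith) (pow_le_pow_left₀ (by positivity) h1 _)
          (by positivity) hM0.le
      _ = M ^ (3 * Kx + 1) := by rw [← pow_mul, pow_succ]; ring
  have h3 : 1 + X + f + θ ≤ M ^ (3 * Kx + 4) := by
    have h4 : M ^ 3 ≤ M ^ (3 * Kx + 3) := pow_le_pow_right₀ hM1 (by omega)
    have h5 : M ^ (3 * Kx + 1) ≤ M ^ (3 * Kx + 3) := pow_le_pow_right₀ hM1 (by omega)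
    have h6 : M ^ (3 * Kx + 4) = M * M ^ (3 * Kx + 3) := by ring
    have h7 : 0 < M ^ (3 * Kx + 3) := by positivity
    nlinarith
  have h4 : a ≤ M ^ ((3 * Kx + 4) * K + 1) := by
    calc a ≤ K * (1 + X + f + θ) ^ K := ha
      _ ≤ M * (M ^ (3 * Kx + 4)) ^ K := by
        refine mul_le_mul (by linarith) (pow_le_pow_left₀ (by positivity) h3 _)
          (by positivity) hM0.le
      _ = M ^ ((3 * Kx + 4) * K + 1) := by rw [← pow_mul, pow_succ]; ring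
  rw [div_le_iff₀ hδ]
  calc a ≤ M ^ ((3 * Kx + 4) * K + 1) := h4
    _ ≤ M ^ ((3 * Kx + 4) * K + 1) * (δ * M ^ C) := le_mul_of_one_le_right (by positivity) hδM
    _ = M ^ ((3 * Kx + 4) * K + 1 + C) * δ := by rw [pow_add]; ring

private theorem C3h_log {M y : ℝ} {C' : ℕ} (hM : 1 ≤ M) (hy : 0 < y) (h1 : y ≤ M ^ C')
    (h2 : y⁻¹ ≤ M ^ C') : |Real.log y| ≤ C' * Real.log M := by
  have hM0 : 0 < M := by linarith
  rw [abs_le]
  constructor
  · have h3 := Real.log_le_log (inv_pos.2 hy) h2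
    rw [Real.log_inv, Real.log_pow] at h3
    linarith
  · have h3 := Real.log_le_log hy h1
    rwa [Real.log_pow] at h3

private theorem C3h_sqrt (C' : ℕ) (V c₀ : ℝ) (hV : 0 ≤ V) (hc₀ : 0 < c₀) :
    ∀ᶠ N : ℕ in atTop, 32 * ((2 * C' * Real.sqrt (Real.sqrt N) + V + 1) + 1) ≤
      c₀ * Real.sqrt N := by
  have h1 : Tendsto (fun N : ℕ => Real.sqrt (Real.sqrt (N : ℝ))) atTop atTop :=
    Real.tendsto_sqrt_atTop.comp (Real.tendsto_sqrt_atTop.comp tendsto_natCast_atTop_atTop)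
  filter_upwards [h1.eventually_ge_atTop ((64 * C' + 32 * (V + 2)) / c₀ + 1)] with N hN
  set s := Real.sqrt (Real.sqrt (N : ℝ)) with hs
  have hss : Real.sqrt (N : ℝ) = s * s := (Real.mul_self_sqrt (Real.sqrt_nonneg _)).symm
  have hC0 : (0 : ℝ) ≤ C' := Nat.cast_nonneg _
  have hq : 0 ≤ (64 * (C' : ℝ) + 32 * (V + 2)) / c₀ := by positivity
  have hs1 : 1 ≤ s := by linarith
  have h2 : 64 * (C' : ℝ) + 32 * (V + 2) ≤ c₀ * s := by
    have h3 : (64 * (C' : ℝ) + 32 * (V + 2)) / c₀ ≤ s := by linarith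
    rw [div_le_iff₀ hc₀] at h3
    linarith
  rw [hss]
  have h4 : (64 * (C' : ℝ) + 32 * (V + 2)) * s ≤ (c₀ * s) * s :=
    mul_le_mul_of_nonneg_right h2 (by linarith)
  nlinarith

theorem rat_point {n : ℕ} {V : Set ((Fin n → ℂ) × (Fin n → ℂ))} {P : MvPolynomial (Fin n) ℂ}
    (c v κ₁ : Fin n → ℤ) (hcv : ∑ j, c j * v j = 1) (hcκ : ∑ j, c j * κ₁ j = 0)
    {Δ : R1 n} {χ : R2 n} {A A' : Fin n → R2 n} (hp : RPres V P c Δ χ A A')
    (u₀ : ℂ) (κ : Fin n → ℝ) {c₀ : ℝ} (hc₀ : 0 < c₀)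
    (hprj : ∀ᶠ N : ℕ in atTop, ∀ u ∈ Metric.ball (ctr κ N) (c₀ * Real.sqrt N),
      prj c v u₀ u ∈ HS c u₀ κ N)
    (C : ℕ)
    (hsheet : ∀ᶠ N : ℕ in atTop, ∃ t₁ : (Fin n → ℂ) → ℂ,
      DifferentiableOn ℂ t₁ (Metric.ball (ctr κ N) (c₀ * Real.sqrt N)) ∧
      ∀ u ∈ Metric.ball (ctr κ N) (c₀ * Real.sqrt N),
        eval (prj c v u₀ u + t₁ u • XW.zc v + bigc N • XW.zc κ₁) P = 0 ∧ ‖t₁ u‖ ≤ 1 ∧
        1 ≤ ‖h1 (prj c v u₀ u + t₁ u • XW.zc v + bigc N • XW.zc κ₁)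
          (Complex.exp (u₀ + t₁ u)) Δ‖ * (big N : ℝ) ^ C) :
    ∃ z : Fin n → ℂ, (z, fun j => Complex.exp (z j)) ∈ V := by
  classical
  -- constants
  choose CA hCA using fun j => e2_bound (A j)
  choose CA' hCA' using fun j => e2_bound (A' j)
  obtain ⟨Kx, hKx⟩ := root_bound χ hp.monic
  set K : ℕ := ∑ j, (CA j + CA' j) with hK
  have hKj : ∀ j, CA j ≤ K ∧ CA' j ≤ K := by
    intro j
    have h1 : CA j + CA' j ≤ K :=
      Finset.single_le_sum (f := fun j => CA j + CA' j) (fun _ _ => Nat.zero_le _)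
        (Finset.mem_univ j)
    omega
  set F : ℝ := Real.exp (‖u₀‖ + 1) with hF
  obtain ⟨C', M₁, hM₁, hnum⟩ := C3h_num K Kx C F (Real.exp_pos _).le
  have hbigM : ∀ᶠ N : ℕ in atTop, M₁ ≤ (big N : ℝ) := by
    filter_upwards [big_large 0 (1 / M₁) (by positivity)] with N hN
    rw [pow_zero, one_div, ← div_eq_inv_mul, le_div_iff₀ (by linarith)] at hN
    linarith
  obtain ⟨N, hN1, hN2, hN3, hN4, hN5, hN6, hN7⟩ := (hprj.and (hsheet.and (hbigM.and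
    ((big_norm c v κ₁ u₀ κ).and (log_big.and ((C3h_sqrt C' ‖XW.zc v‖ c₀ (norm_nonneg _) hc₀).and
      (eventually_gt_atTop 0))))))).exists
  obtain ⟨t₁, ht₁, hsh⟩ := hN2
  set U := Metric.ball (ctr κ N) (c₀ * Real.sqrt N) with hU
  set M : ℝ := (big N : ℝ) with hM
  have hM1 : 1 ≤ M := hM₁.trans hN3
  set x : (Fin n → ℂ) → Fin n → ℂ := fun u => prj c v u₀ u + t₁ u • XW.zc v + bigc N • XW.zc κ₁
    with hx
  set f : (Fin n → ℂ) → ℂ := fun u => Complex.exp (u₀ + t₁ u) with hf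
  have hP : ∀ u ∈ U, eval (x u) P = 0 := fun u hu => (hsh u hu).1
  have ht1 : ∀ u ∈ U, ‖t₁ u‖ ≤ 1 := fun u hu => (hsh u hu).2.1
  have hΔ1 : ∀ u ∈ U, 1 ≤ ‖h1 (x u) (f u) Δ‖ * M ^ C := fun u hu => (hsh u hu).2.2
  have hΔ : ∀ u ∈ U, h1 (x u) (f u) Δ ≠ 0 := by
    intro u hu h0
    have := hΔ1 u hu
    rw [h0, norm_zero, zero_mul] at this
    linarith
  have hxd : ∀ j, DifferentiableOn ℂ (fun u => x u j) U := by
    intro j
    have h1 : (fun u => x u j) = fun u : Fin n → ℂ =>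
        u j - (∑ k, (c k : ℂ) * u k - u₀) * XW.zc v j + t₁ u * XW.zc v j + bigc N * XW.zc κ₁ j := by
      funext u
      simp only [hx, prj, Pi.add_apply, Pi.sub_apply, Pi.smul_apply, smul_eq_mul]
    rw [h1]
    refine (DifferentiableOn.add ?_ (ht₁.mul_const _)).add_const _
    fun_prop
  have hfd : DifferentiableOn ℂ f U := (ht₁.const_add u₀).cexp
  set χu : (Fin n → ℂ) → Polynomial ℂ := fun u => e2 (x u) (f u) χ with hχu
  have hmon : ∀ u ∈ U, (χu u).Monic ∧ (χu u).natDegree = χ.natDegree := fun u _ =>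
    e2_monic χ hp.monic (x u) (f u)
  have hR0 : 0 < c₀ * Real.sqrt N := by
    have : 0 < Real.sqrt (N : ℝ) := Real.sqrt_pos.2 (by exact_mod_cast hN7)
    positivity
  have hctr : ctr κ N ∈ U := Metric.mem_ball_self hR0
  obtain ⟨θ₀, hθ₀⟩ : ∃ θ₀ : ℂ, (χu (ctr κ N)).eval θ₀ = 0 := by
    have h1 : (χu (ctr κ N)).degree ≠ 0 := by
      intro h0
      have h2 := Polynomial.natDegree_eq_zero_iff_degree_le_zero.2 h0.le
      rw [(hmon _ hctr).2] at h2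
      have := hp.pos
      omega
    exact IsAlgClosed.exists_root _ h1
  obtain ⟨θ, hθd, -, hθ⟩ := cov_branch Metric.isOpen_ball (convex_ball _ _) χu χ.natDegree hmon
    (fun i => diff_coeff χ x f hxd hfd i)
    (fun u hu T hT => hp.simple (x u) (f u) T (hP u hu) (hΔ u hu) hT) hctr hθ₀
  set y : (Fin n → ℂ) → Fin n → ℂ := fun u j => (e2 (x u) (f u) (A j)).eval (θ u) /
    h1 (x u) (f u) Δ with hy
  set y' : (Fin n → ℂ) → Fin n → ℂ := fun u j => (e2 (x u) (f u) (A' j)).eval (θ u) /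
    h1 (x u) (f u) Δ with hy'
  have hinv : ∀ u ∈ U, ∀ j, y u j * y' u j = 1 := fun u hu j =>
    hp.inv (x u) (f u) (θ u) (hP u hu) (hΔ u hu) (hθ u hu) j
  have hyne : ∀ u ∈ U, ∀ j, y u j ≠ 0 := by
    intro u hu j h0
    have := hinv u hu j
    rw [h0, zero_mul] at this
    exact zero_ne_one this
  have hyd : ∀ j, DifferentiableOn ℂ (fun u => y u j) U := by
    intro j u hu
    have h1 := diff_e2 (A j) x f θ hxd hfd hθd u hu
    have h2 := diff_h1 Δ x f hxd hfd u hu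
    have h3 : DifferentiableWithinAt ℂ (fun u => (XV.h1 (x u) (f u) Δ)⁻¹) U u :=
      (differentiableAt_inv (hΔ u hu)).comp_differentiableWithinAt u h2
    have h4 := h1.mul h3
    refine h4.congr_of_eventuallyEq (Filter.Eventually.of_forall fun w => ?_) ?_
    · simp only [hy, div_eq_mul_inv, Pi.mul_apply]
    · simp only [hy, div_eq_mul_inv, Pi.mul_apply]
  -- bounds
  have hxM : ∀ u ∈ U, ‖x u‖ ≤ M ^ 2 := fun u hu =>
    ((hN4 _ (hN1 u hu)).2 (t₁ u) (ht1 u hu)).2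
  have hfF : ∀ u ∈ U, ‖f u‖ ≤ F := by
    intro u hu
    simp only [hf, hF]
    rw [Complex.norm_exp]
    apply Real.exp_le_exp.2
    have h1 := Complex.re_le_norm (u₀ + t₁ u)
    have h2 := norm_add_le u₀ (t₁ u)
    linarith [ht1 u hu]
  have hbd : ∀ (B : Fin n → R2 n) (CB : Fin n → ℕ), (∀ j, CB j ≤ K) →
      (∀ j, ∀ (x : Fin n → ℂ) (f θ : ℂ), ‖(e2 x f (B j)).eval θ‖ ≤
        CB j * (1 + ‖x‖ + ‖f‖ + ‖θ‖) ^ CB j) → ∀ u ∈ U, ∀ j,
      ‖(e2 (x u) (f u) (B j)).eval (θ u) / h1 (x u) (f u) Δ‖ ≤ M ^ C' := by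
    intro B CB hCB hB u hu j
    rw [norm_div]
    refine hnum M hN3 ‖x u‖ ‖f u‖ ‖θ u‖ _ _ (norm_nonneg _) (hxM u hu) (norm_nonneg _) (hfF u hu)
      (norm_nonneg _) (hKx (x u) (f u) (θ u) (hθ u hu)) ?_ (norm_pos_iff.2 (hΔ u hu)) (hΔ1 u hu)
    refine (hB j (x u) (f u) (θ u)).trans ?_
    have h1 : (1 : ℝ) ≤ 1 + ‖x u‖ + ‖f u‖ + ‖θ u‖ := by
      have h2 := norm_nonneg (x u)
      have h3 := norm_nonneg (f u)
      have h4 := norm_nonneg (θ u)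
      linarith
    have h2 : (CB j : ℝ) ≤ K := by exact_mod_cast hCB j
    exact mul_le_mul h2 (pow_le_pow_right₀ h1 (hCB j)) (by positivity) (Nat.cast_nonneg _)
  have hylog : ∀ u ∈ U, ∀ j, |Real.log ‖y u j‖| ≤ 2 * C' * Real.sqrt (Real.sqrt N) := by
    intro u hu j
    have h1 : ‖y u j‖ ≤ M ^ C' := hbd A CA (fun j => (hKj j).1) hCA u hu j
    have h2 : ‖y' u j‖ ≤ M ^ C' := hbd A' CA' (fun j => (hKj j).2) hCA' u hu j
    have h3 : ‖y u j‖⁻¹ = ‖y' u j‖ := by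
      rw [← norm_inv]
      congr 1
      exact (eq_inv_of_mul_eq_one_right (hinv u hu j)).symm
    have h4 := C3h_log hM1 (norm_pos_iff.2 (hyne u hu j)) h1 (by rw [h3]; exact h2)
    have h5 : (0 : ℝ) ≤ C' := Nat.cast_nonneg _
    calc _ ≤ _ := h4
      _ ≤ C' * (2 * Real.sqrt (Real.sqrt N)) := mul_le_mul_of_nonneg_left hN5 h5
      _ = _ := by ring
  choose ℓ hℓd hℓ using fun j => exists_log Metric.isOpen_ball (convex_ball (ctr κ N)
    (c₀ * Real.sqrt N)) (fun u => y u j) (hyd j) (fun u hu => hyne u hu j)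
  -- the solution
  have hV0 : 0 ≤ ‖XW.zc v‖ := norm_nonneg _
  have hs0 : 0 ≤ 2 * (C' : ℝ) * Real.sqrt (Real.sqrt N) := by positivity
  obtain ⟨k, u, hu, hk⟩ := sol (c := ctr κ N) (R := c₀ * Real.sqrt N)
    (M := 2 * C' * Real.sqrt (Real.sqrt N) + ‖XW.zc v‖ + 1) (by linarith) hN6 (fun j => by
      have h1 : (ctr κ N j).re = 0 := by
        simp [ctr]
      rw [h1, abs_zero]
      linarith) (fun u j => ℓ j u - t₁ u * XW.zc v j)
    (fun j => (hℓd j).sub (ht₁.mul_const _)) (fun u hu j => by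
      have h1 : (ℓ j u).re = Real.log ‖y u j‖ := by
        rw [← hℓ j u hu, Complex.norm_exp, Real.log_exp]
      have h2 : |(t₁ u * XW.zc v j).re| ≤ ‖XW.zc v‖ := by
        refine (Complex.abs_re_le_norm _).trans ?_
        rw [norm_mul]
        calc ‖t₁ u‖ * ‖XW.zc v j‖ ≤ 1 * ‖XW.zc v‖ :=
              mul_le_mul (ht1 u hu) (norm_le_pi_norm _ j) (norm_nonneg _) zero_le_one
          _ = _ := one_mul _
      simp only [Complex.sub_re]
      rw [h1]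
      have h3 := abs_sub (Real.log ‖y u j‖) (t₁ u * XW.zc v j).re
      have h4 := hylog u hu j
      linarith)
  have huU : u ∈ U := by
    rw [hU]
    refine Metric.ball_subset_ball ?_ hu
    linarith
  -- the monomial
  have hmono : mon c (y u) = f u :=
    hp.mono (x u) (f u) (θ u) (hP u huU) (hΔ u huU) (hθ u huU)
  have hexp : Complex.exp (∑ j, (c j : ℂ) * ℓ j u) = Complex.exp (u₀ + t₁ u) := by
    rw [Complex.exp_sum]
    have h1 : ∀ j, Complex.exp ((c j : ℂ) * ℓ j u) = y u j ^ c j := by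
      intro j
      rw [Complex.exp_int_mul, hℓ j u huU]
    simp_rw [h1]
    exact hmono
  obtain ⟨m', hm'⟩ := Complex.exp_eq_exp_iff_exists_int.1 hexp
  have hcvC : ∑ j, (c j : ℂ) * XW.zc v j = 1 := by
    have : ((∑ j, c j * v j : ℤ) : ℂ) = 1 := by rw [hcv]; simp
    push_cast at this
    exact this
  have hcu : ∑ j, (c j : ℂ) * u j = u₀ + 2 * Real.pi * Complex.I *
      ((m' + ∑ j, c j * k j : ℤ) : ℂ) := by
    have h1 : ∀ j, (c j : ℂ) * u j = (c j : ℂ) * ℓ j u - t₁ u * ((c j : ℂ) * XW.zc v j) +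
        2 * Real.pi * Complex.I * ((c j : ℂ) * (k j : ℂ)) := by
      intro j
      rw [hk j]
      ring
    simp_rw [h1]
    rw [Finset.sum_add_distrib, Finset.sum_sub_distrib, ← Finset.mul_sum, ← Finset.mul_sum, hcvC,
      hm']
    push_cast
    ring
  refine ⟨x u, ?_⟩
  have hyx : (fun j => Complex.exp (x u j)) = y u := by
    funext j
    have h1 : x u j = ℓ j u + ((k j - (m' + ∑ j, c j * k j) * v j + (big N : ℤ) * κ₁ j : ℤ) : ℂ) *
        (2 * Real.pi * Complex.I) := by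
      simp only [hx, prj, Pi.add_apply, Pi.sub_apply, Pi.smul_apply, smul_eq_mul]
      rw [hcu, hk j]
      simp only [XW.zc, bigc]
      push_cast
      ring
    rw [h1, Complex.exp_add, Complex.exp_int_mul_two_pi_mul_I, mul_one, hℓ j u huU]
  rw [hyx]
  exact hp.mem (x u) (f u) (θ u) (hP u huU) (hΔ u huU) (hθ u huU)

end XV
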