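import Pool.Agent.Lib.MP_228259_lc.V.Defs2
import Pool.Agent.Lib.MP_228259_lc.P4a

/-!
XV-F6 (elim). Elimination along a direction `v` on which `P` depends.

Proof. See `XW.gp` (P4a): `XW.P4a_prime`, `XW.P4a_not_dvd`, `XW.P4a_abstract` for
`h = P4b_psi v P`, `g = P4b_psi v G` give `R ≠ 0`, `U h + W g = C R`; evaluate with
`XW.P4b_psi_eval`. (`natDegree h ≠ 0` from `XW.P4b_natDegree_pos`.)

`elim_inv`: the set of `R` with such an identity is stable under `x ↦ x + v`
(substitute `x ↦ x + v`, `T ↦ T - 1`) and under differences; a nonzero `R` in it for which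
`R(x + T v)` has minimal degree in `T` is invariant: otherwise `R(x + v) - R(x)` has smaller
degree.
-/

set_option autoImplicit false

namespace XV

open MvPolynomial Filter Topology

theorem F6_h1_psi {n : ℕ} (v : Fin n → ℂ) (F : MvPolynomial (Fin n) ℂ) (x : Fin n → ℂ) (t : ℂ) :
    h1 x t (XW.P4b_psi v F) = eval (x + t • v) F := by
  rw [← XW.P4b_psi_eval v x t F, Polynomial.eval_map]
  rfl

theorem F6_h1_C {n : ℕ} (F : MvPolynomial (Fin n) ℂ) (x : Fin n → ℂ) (t : ℂ) :
    h1 x t (Polynomial.C F) = eval x F := by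
  show Polynomial.eval₂ (eval x) t (Polynomial.C F) = eval x F
  rw [Polynomial.eval₂_C]

theorem elim {n : ℕ} (P G : MvPolynomial (Fin n) ℂ) (hP : Irreducible P) (v : Fin n → ℂ)
    (hv : XW.dirD v P ≠ 0) (hG : ¬ P ∣ G) :
    ∃ (R : MvPolynomial (Fin n) ℂ) (U W : R1 n), R ≠ 0 ∧ ∀ (x : Fin n → ℂ) (t : ℂ),
      eval x R = h1 x t U * eval (x + t • v) P + h1 x t W * eval (x + t • v) G := by
  classical
  let _inst : NormalizedGCDMonoid (MvPolynomial (Fin n) ℂ) :=
    Classical.choice inferInstance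
  obtain ⟨R, U, W, hR, hUW⟩ := XW.P4a_abstract (K := FractionRing (MvPolynomial (Fin n) ℂ))
    (XW.P4b_psi v P) (XW.P4b_psi v G) (XW.P4a_prime P hP v) (XW.P4b_natDegree_pos v P hv).ne'
    (XW.P4a_not_dvd P v G hG)
  refine ⟨R, U, W, hR, fun x t => ?_⟩
  have e := congrArg (h1 x t) hUW
  rw [map_add, map_mul, map_mul, F6_h1_psi, F6_h1_psi, F6_h1_C] at e
  exact e.symm

/-- the substitution `x ↦ x + v` -/
noncomputable def F6_shift {n : ℕ} (v : Fin n → ℂ) :
    MvPolynomial (Fin n) ℂ →ₐ[ℂ] MvPolynomial (Fin n) ℂ :=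
  aeval (fun j => X j + C (v j))

theorem F6_shift_eval {n : ℕ} (v : Fin n → ℂ) (F : MvPolynomial (Fin n) ℂ) (x : Fin n → ℂ) :
    eval x (F6_shift v F) = eval (x + v) F := by
  induction F using MvPolynomial.induction_on with
  | C a =>
    unfold F6_shift
    rw [aeval_C]
    simp
  | add p q hp hq => rw [map_add, map_add, hp, hq, map_add]
  | mul_X p j hp =>
    rw [map_mul, map_mul, hp, map_mul]
    congr 1
    unfold F6_shift
    rw [aeval_X]
    simp

theorem F6_psi_shift {n : ℕ} (v : Fin n → ℂ) (F : MvPolynomial (Fin n) ℂ) :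
    XW.P4b_psi v (F6_shift v F) = Polynomial.taylor 1 (XW.P4b_psi v F) := by
  have hC : ∀ a : ℂ, XW.P4b_psi v (C a) = Polynomial.C (C a) := by
    intro a
    unfold XW.P4b_psi
    rw [aeval_C]
    rfl
  have hX : ∀ j, XW.P4b_psi v (X j) =
      Polynomial.C (X j) + Polynomial.C (C (v j)) * Polynomial.X := by
    intro j
    unfold XW.P4b_psi
    rw [aeval_X]
  induction F using MvPolynomial.induction_on with
  | C a =>
    have e : F6_shift v (C a) = C a := by
      unfold F6_shift
      rw [aeval_C]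
      rfl
    rw [e, hC, Polynomial.taylor_C]
  | add p q hp hq => rw [map_add, map_add, hp, hq, map_add, map_add]
  | mul_X p j hp =>
    have e : F6_shift v (X j) = X j + C (v j) := by
      unfold F6_shift
      rw [aeval_X]
    rw [map_mul, map_mul, hp, map_mul, Polynomial.taylor_mul, e, map_add, hX, hC, map_add,
      Polynomial.taylor_mul, Polynomial.taylor_C, Polynomial.taylor_C, Polynomial.taylor_X]
    congr 1
    rw [Polynomial.C_1]
    ring

/-- the property of `R` in `elim` -/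
def F6_Good {n : ℕ} (P G : MvPolynomial (Fin n) ℂ) (v : Fin n → ℂ)
    (R : MvPolynomial (Fin n) ℂ) : Prop :=
  ∃ U W : R1 n, ∀ (x : Fin n → ℂ) (t : ℂ),
    eval x R = h1 x t U * eval (x + t • v) P + h1 x t W * eval (x + t • v) G

theorem F6_h1_comp {n : ℕ} (v : Fin n → ℂ) (U : R1 n) (x : Fin n → ℂ) (t : ℂ) :
    h1 x t ((U.map (F6_shift v : MvPolynomial (Fin n) ℂ →+* MvPolynomial (Fin n) ℂ)).comp
      (Polynomial.X - Polynomial.C 1)) = h1 (x + v) (t - 1) U := by
  show Polynomial.eval₂ (eval x) t _ = Polynomial.eval₂ (eval (x + v)) (t - 1) U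
  rw [Polynomial.eval₂_comp, Polynomial.eval₂_map]
  have e1 : Polynomial.eval₂ (eval x) t (Polynomial.X - Polynomial.C 1) = t - 1 := by
    rw [Polynomial.eval₂_sub, Polynomial.eval₂_X, Polynomial.eval₂_C, map_one]
  have e2 : (eval x).comp (F6_shift v : MvPolynomial (Fin n) ℂ →+* MvPolynomial (Fin n) ℂ) =
      eval (x + v) := by
    refine RingHom.ext fun F => ?_
    exact F6_shift_eval v F x
  rw [e1, e2]

theorem F6_Good_shift {n : ℕ} {P G : MvPolynomial (Fin n) ℂ} {v : Fin n → ℂ}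
    {R : MvPolynomial (Fin n) ℂ} (h : F6_Good P G v R) : F6_Good P G v (F6_shift v R) := by
  obtain ⟨U, W, hUW⟩ := h
  refine ⟨(U.map (F6_shift v : MvPolynomial (Fin n) ℂ →+* MvPolynomial (Fin n) ℂ)).comp
      (Polynomial.X - Polynomial.C 1),
    (W.map (F6_shift v : MvPolynomial (Fin n) ℂ →+* MvPolynomial (Fin n) ℂ)).comp
      (Polynomial.X - Polynomial.C 1), fun x t => ?_⟩
  have e : x + v + (t - 1) • v = x + t • v := by
    rw [sub_smul, one_smul]
    abel
  have h2 := hUW (x + v) (t - 1)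
  rw [e] at h2
  rw [F6_shift_eval, F6_h1_comp, F6_h1_comp]
  exact h2

theorem F6_Good_sub {n : ℕ} {P G : MvPolynomial (Fin n) ℂ} {v : Fin n → ℂ}
    {R S : MvPolynomial (Fin n) ℂ} (h : F6_Good P G v R) (h' : F6_Good P G v S) :
    F6_Good P G v (R - S) := by
  obtain ⟨U, W, hUW⟩ := h
  obtain ⟨U', W', hUW'⟩ := h'
  refine ⟨U - U', W - W', fun x t => ?_⟩
  rw [map_sub, map_sub, map_sub, hUW x t, hUW' x t]
  ring

theorem F6_induct {n : ℕ} (P G : MvPolynomial (Fin n) ℂ) (v : Fin n → ℂ) (m : ℕ) :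
    ∀ R : MvPolynomial (Fin n) ℂ, R ≠ 0 → F6_Good P G v R → (XW.P4b_psi v R).natDegree ≤ m →
      ∃ S : MvPolynomial (Fin n) ℂ, S ≠ 0 ∧ F6_Good P G v S ∧ (XW.P4b_psi v S).natDegree = 0 := by
  induction m with
  | zero => intro R hR hg hm; exact ⟨R, hR, hg, by omega⟩
  | succ m ih =>
    intro R hR hg hm
    by_cases h0 : (XW.P4b_psi v R).natDegree = 0
    · exact ⟨R, hR, hg, h0⟩
    have hne : XW.P4b_psi v R ≠ 0 := by
      intro h
      rw [h, Polynomial.natDegree_zero] at h0
      exact h0 rfl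
    have hpsi : XW.P4b_psi v (F6_shift v R - R) =
        Polynomial.taylor 1 (XW.P4b_psi v R) - XW.P4b_psi v R := by
      rw [map_sub, F6_psi_shift]
    have hlt : (Polynomial.taylor 1 (XW.P4b_psi v R) - XW.P4b_psi v R).degree <
        (Polynomial.taylor 1 (XW.P4b_psi v R)).degree := by
      refine Polynomial.degree_sub_lt (Polynomial.degree_taylor _ _) ?_ ?_
      · intro h
        exact hne ((Polynomial.taylor_eq_zero 1 _).mp h)
      · exact Polynomial.leadingCoeff_taylor 1 _
    by_cases hz : F6_shift v R - R = 0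
    · -- then `R` is invariant
      exfalso
      have h1' : Polynomial.taylor 1 (XW.P4b_psi v R) = XW.P4b_psi v R := by
        rw [← F6_psi_shift, sub_eq_zero.mp hz]
      -- evaluate at integers
      have h2 : ∀ k : ℕ, (XW.P4b_psi v R).eval (k : MvPolynomial (Fin n) ℂ) =
          (XW.P4b_psi v R).eval 0 := by
        intro k
        induction k with
        | zero => simp
        | succ k ihk =>
          rw [← ihk]
          conv_rhs => rw [← h1']
          rw [Polynomial.taylor_eval]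
          push_cast
          rfl
      have h3 : XW.P4b_psi v R - Polynomial.C ((XW.P4b_psi v R).eval 0) = 0 := by
        refine Polynomial.eq_zero_of_infinite_isRoot _ ?_
        refine Set.Infinite.mono (s := Set.range (fun k : ℕ => (k : MvPolynomial (Fin n) ℂ)))
          ?_ ?_
        · rintro _ ⟨k, rfl⟩
          show Polynomial.IsRoot _ _
          rw [Polynomial.IsRoot, Polynomial.eval_sub, Polynomial.eval_C, h2 k, sub_self]
        · exact Set.infinite_range_of_injective Nat.cast_injective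
      apply h0
      rw [sub_eq_zero.mp h3, Polynomial.natDegree_C]
    · refine ih (F6_shift v R - R) hz (F6_Good_sub (F6_Good_shift hg) hg) ?_
      have h4 : (XW.P4b_psi v (F6_shift v R - R)).natDegree < (XW.P4b_psi v R).natDegree := by
        rw [hpsi]
        rw [Polynomial.degree_taylor] at hlt
        by_cases hz2 : Polynomial.taylor 1 (XW.P4b_psi v R) - XW.P4b_psi v R = 0
        · rw [hz2, Polynomial.natDegree_zero]
          omega
        · exact Polynomial.natDegree_lt_natDegree hz2 hlt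
      omega

theorem elim_inv {n : ℕ} (P G : MvPolynomial (Fin n) ℂ) (hP : Irreducible P) (v : Fin n → ℂ)
    (hv : XW.dirD v P ≠ 0) (hG : ¬ P ∣ G) :
    ∃ (R : MvPolynomial (Fin n) ℂ) (U W : R1 n), R ≠ 0 ∧
      (∀ (x : Fin n → ℂ) (t : ℂ), eval (x + t • v) R = eval x R) ∧
      ∀ (x : Fin n → ℂ) (t : ℂ),
        eval x R = h1 x t U * eval (x + t • v) P + h1 x t W * eval (x + t • v) G := by
  obtain ⟨R0, U0, W0, hR0, h0⟩ := elim P G hP v hv hG
  obtain ⟨R, hR, ⟨U, W, hUW⟩, hdeg⟩ := F6_induct P G v _ R0 hR0 ⟨U0, W0, h0⟩ le_rfl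
  refine ⟨R, U, W, hR, fun x t => ?_, hUW⟩
  obtain ⟨c, hc⟩ := Polynomial.natDegree_eq_zero.mp hdeg
  have e1 := F6_h1_psi v R x t
  have e2 := F6_h1_psi v R x 0
  rw [← hc, F6_h1_C] at e1 e2
  rw [← e1, e2, zero_smul, add_zero]

end XV
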