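import Pool.Agent.Lib.MP_228259_lc.V.C3a
import Pool.Agent.Lib.MP_228259_lc.V.C3b
import Pool.Agent.Lib.MP_228259_lc.V.C3c
import Pool.Agent.Lib.MP_228259_lc.V.C3e
import Pool.Agent.Lib.MP_228259_lc.V.C3f
import Pool.Agent.Lib.MP_228259_lc.V.C3g
import Pool.Agent.Lib.MP_228259_lc.V.C3h
import Pool.Agent.Lib.MP_228259_lc.V.F6

/-!
XV-C3 (rational_case). Assembly of the rational case.

Proof. `hV.pres c hc` gives `RPres V P c Δ χ A A'`. `rat_top` gives `κ₁, D, T, W`; `u₀` a root of `T`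
(`0 < natDegree`); `rat_nonzero` (with `hV.free c`, `c ≠ 0` by `hcv`).
* `L₁ = (XW.P4b_psi (zc v) P).leadingCoeff` (nonzero, invariant under the translations by `v`: compare
  the leading coefficients in `t` of `P((x + s v) + t v)`), `inv_not_dvd`, `scale_top c κ₁ u₀ L₁`: `ρ₁`.
* `elim_inv P (dirD v P) v` (`¬ P ∣ dirD v P` because of the degree: `XW.not_dvd_dirD` is for
  homogeneous polynomials, here use `totalDegree`; `P` irreducible of degree `> 0`) : `R₂ ≠ 0`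
  invariant, `inv_not_dvd`, `scale_top`: `ρ₂`.
* `hV.free c u₀`: `scale_top c κ₁ u₀ P`: `ρ₃`.
* `elim_ext P Δ κ₁` (`hp.ne`): `R₄ ≠ 0`, `exp_taylor`: `o, K, ρ₄`.
`hyp_dir` for `{ρ₁, ρ₂, ρ₃, ρ₄}` gives the real direction `κ`. `prj_mem` gives `c₀`. `big_lower` for
`L₁, R₂, P` gives `hlead`, `hsimple` (`R₂(w + t v + bigc κ₁ - t v) = W' · dirD v P` at a root: put
`x = w + bigc N κ₁` in `elim_inv`), `hlow` of `rat_sheet`. `rat_sheet` gives `C₁`, `rat_delta` gives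
`C`, and `rat_point` the result.
-/

set_option autoImplicit false

namespace XV

open MvPolynomial Filter Topology

private theorem C3_dirD_deg {n : ℕ} (v : Fin n → ℂ) (P : MvPolynomial (Fin n) ℂ) :
    (XW.dirD v P).totalDegree ≤ P.totalDegree - 1 := by
  have hs := sum_homogeneousComponent P
  have h1 : XW.dirD v P = ∑ i ∈ Finset.range (P.totalDegree + 1),
      ∑ j, C (v j) * pderiv j (homogeneousComponent i P) := by
    conv_lhs => rw [← hs]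
    unfold XW.dirD
    rw [Finset.sum_comm]
    refine Finset.sum_congr rfl fun j _ => ?_
    rw [map_sum, Finset.mul_sum]
  rw [h1]
  refine totalDegree_finsetSum_le fun i hi => ?_
  have h2 : IsHomogeneous (∑ j, C (v j) * pderiv j (homogeneousComponent i P)) (i - 1) := by
    refine IsHomogeneous.sum _ _ _ fun j _ => ?_
    have := (isHomogeneous_C (Fin n) (v j)).mul
      ((homogeneousComponent_isHomogeneous i P).pderiv (i := j))
    rwa [zero_add] at this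
  refine h2.totalDegree_le.trans ?_
  have := Finset.mem_range.1 hi
  omega

private theorem C3_not_dvd {n : ℕ} (v : Fin n → ℂ) (P : MvPolynomial (Fin n) ℂ)
    (hP : 0 < P.totalDegree) (hv : XW.dirD v P ≠ 0) : ¬ P ∣ XW.dirD v P := by
  intro h
  have h1 := totalDegree_le_of_dvd_of_isDomain h hv
  have h2 := C3_dirD_deg v P
  omega

private theorem C3_lead_inv {n : ℕ} (v : Fin n → ℂ) (P : MvPolynomial (Fin n) ℂ)
    (x : Fin n → ℂ) (s : ℂ) :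
    eval (x + s • v) (XW.P4b_psi v P).leadingCoeff = eval x (XW.P4b_psi v P).leadingCoeff := by
  set p := (XW.P4b_psi v P).map (eval x) with hp
  have h1 : (XW.P4b_psi v P).map (eval (x + s • v)) = Polynomial.taylor s p := by
    refine Polynomial.funext fun t => ?_
    rw [XW.P4b_psi_eval, Polynomial.taylor_eval, hp, XW.P4b_psi_eval, add_smul, add_assoc,
      add_comm (s • v)]
  have h2 : p.natDegree ≤ (XW.P4b_psi v P).natDegree := Polynomial.natDegree_map_le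
  have h3 : (Polynomial.taylor s p).coeff (XW.P4b_psi v P).natDegree =
      p.coeff (XW.P4b_psi v P).natDegree := by
    rcases h2.eq_or_lt with h | h
    · rw [← h, Polynomial.coeff_taylor_natDegree]
      rfl
    · rw [Polynomial.coeff_eq_zero_of_natDegree_lt h, Polynomial.coeff_eq_zero_of_natDegree_lt]
      rw [Polynomial.natDegree_taylor]
      exact h
  rw [← h1, hp, Polynomial.coeff_map, Polynomial.coeff_map] at h3
  exact h3

theorem rational_case {n : ℕ} {V : Set ((Fin n → ℂ) × (Fin n → ℂ))}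
    {P : MvPolynomial (Fin n) ℂ} (hV : VData V P) (c v : Fin n → ℤ)
    (hcv : ∑ j, c j * v j = 1) (hc : ¬ Alg V P c) {d : ℕ} {E : ℕ → ℕ}
    {B : ℕ → MvPolynomial (Fin n) ℂ}
    (hdec : XW.Dec P (XW.lin (fun j => (c j : ℚ))) d 1 E B)
    (htame : ∀ i ≤ d, B i ≠ 0 → i + E d ≤ d + E i) :
    ∃ z : Fin n → ℂ, (z, fun j => Complex.exp (z j)) ∈ V := by
  classical
  obtain ⟨Δ, χ, A, A', hp⟩ := hV.pres c hc
  obtain ⟨κ₁, D, T, W, hcκ, hT, hW, hP⟩ := rat_top c v hcv hdec htame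
  have hc0 : c ≠ 0 := by
    rintro rfl
    simp at hcv
  have hfree : ∀ u : ℂ, ¬ ((∑ j, C (c j : ℂ) * X j) - C u ∣ P) := fun u => hV.free c u hc0
  obtain ⟨hv0, hD, hκ0⟩ := rat_nonzero c v hcv hdec hfree κ₁ D T W hT hW hP
  have hTd : T.degree ≠ 0 := by
    intro h
    rw [Polynomial.natDegree_eq_of_degree_eq_some (n := 0) (by simpa using h)] at hT
    exact lt_irrefl _ hT
  obtain ⟨u₀, hu₀⟩ := IsAlgClosed.exists_root T hTd
  have hpsi : XW.P4b_psi (XW.zc v) P ≠ 0 := by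
    intro h
    have h1 := XW.P4b_natDegree_pos (XW.zc v) P hv0
    rw [h, Polynomial.natDegree_zero] at h1
    exact lt_irrefl _ h1
  obtain ⟨J₁, ρ₁, W₁, hW₁, hρ₁, hG₁⟩ := scale_top c κ₁ u₀ (XW.P4b_psi (XW.zc v) P).leadingCoeff
    (inv_not_dvd c v hcv u₀ _ (Polynomial.leadingCoeff_ne_zero.mpr hpsi)
      (C3_lead_inv (XW.zc v) P))
  obtain ⟨R₂, U₂, W₂', hR₂0, hR₂inv, hR₂⟩ := elim_inv P (XW.dirD (XW.zc v) P) hV.irr (XW.zc v) hv0
    (C3_not_dvd _ P hV.deg hv0)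
  obtain ⟨J₂, ρ₂, W₂, hW₂, hρ₂, hG₂⟩ := scale_top c κ₁ u₀ R₂
    (inv_not_dvd c v hcv u₀ R₂ hR₂0 hR₂inv)
  obtain ⟨J₃, ρ₃, W₃, hW₃, hρ₃, hG₃⟩ := scale_top c κ₁ u₀ P (hfree u₀)
  obtain ⟨R₄, U₄, W₄, hR₄0, _, hR₄⟩ := elim_ext P Δ hV.irr (XW.zc κ₁) hκ0 hp.ne
  obtain ⟨o, K, ρ₄, hρ₄, hexp⟩ := exp_taylor c v hcv u₀ R₄ hR₄0
  obtain ⟨κ, hcκr, hκ⟩ := hyp_dir c v hcv u₀ {ρ₁, ρ₂, ρ₃, ρ₄} (by
    intro ρ hρ
    simp only [Finset.mem_insert, Finset.mem_singleton] at hρ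
    rcases hρ with rfl | rfl | rfl | rfl <;> assumption)
  have hb : ∀ ρ ∈ ({ρ₁, ρ₂, ρ₃, ρ₄} : Finset (MvPolynomial (Fin n) ℂ)), ∃ b : ℝ, 0 < b ∧
      ∀ᶠ N : ℕ in atTop, ∀ w ∈ HS c u₀ κ N, b ≤ ‖eval w ρ‖ := by
    intro ρ hρ
    obtain ⟨b, hb, h⟩ := hκ ρ hρ
    exact ⟨b, hb, h.mono fun N hN w hw => hN w hw.1 hw.2⟩
  obtain ⟨c₀, hc₀, -, hprj⟩ := prj_mem c v hcv u₀ κ hcκr
  have hlead : ∀ᶠ N : ℕ in atTop, ∀ w ∈ HS c u₀ κ N,
      eval (w + bigc N • XW.zc κ₁) (XW.P4b_psi (XW.zc v) P).leadingCoeff ≠ 0 := by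
    obtain ⟨b, hb0, h⟩ := big_lower c κ₁ u₀ κ _ ρ₁ J₁ W₁ hW₁ hG₁ (hb ρ₁ (by simp))
    refine h.mono fun N hN w hw h0 => ?_
    have := hN w hw
    rw [h0, norm_zero] at this
    linarith
  have hsimple : ∀ᶠ N : ℕ in atTop, ∀ w ∈ HS c u₀ κ N, ∀ t : ℂ,
      eval (w + t • XW.zc v + bigc N • XW.zc κ₁) P = 0 →
      eval (w + t • XW.zc v + bigc N • XW.zc κ₁) (XW.dirD (XW.zc v) P) ≠ 0 := by
    obtain ⟨b, hb0, h⟩ := big_lower c κ₁ u₀ κ _ ρ₂ J₂ W₂ hW₂ hG₂ (hb ρ₂ (by simp))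
    refine h.mono fun N hN w hw t h0 h00 => ?_
    have h1 := hN w hw
    have h2 := hR₂ (w + bigc N • XW.zc κ₁) t
    have h3 : w + bigc N • XW.zc κ₁ + t • XW.zc v = w + t • XW.zc v + bigc N • XW.zc κ₁ := by
      abel
    rw [h3, h0, h00, mul_zero, mul_zero, add_zero] at h2
    rw [h2, norm_zero] at h1
    linarith
  have hlow := big_lower c κ₁ u₀ κ _ ρ₃ J₃ W₃ hW₃ hG₃ (hb ρ₃ (by simp))
  obtain ⟨C₁, hC₁⟩ := rat_sheet c v κ₁ hcv hcκ D T W hT hW hP u₀ hu₀ κ hc₀ hprj hlead hsimple hlow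
  obtain ⟨C₂, hC₂⟩ := rat_delta c v κ₁ hcv u₀ κ Δ R₄ U₄ W₄ hR₄ o K ρ₄ hexp (hb ρ₄ (by simp)) C₁
  refine rat_point c v κ₁ hcv hcκ hp u₀ κ hc₀ hprj C₂ ?_
  filter_upwards [hC₁, hC₂, hprj] with N h1 h2 h3
  obtain ⟨t₁, ht₁, h4⟩ := h1
  refine ⟨t₁, ht₁, fun u hu => ?_⟩
  obtain ⟨h5, h6, h7, h8⟩ := h4 u hu
  exact ⟨h5, h6, h2 _ (h3 u hu) (t₁ u) h6 h7 h8 h5⟩

end XV
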