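import Pool.Agent.Lib.MP_228259_lc.V.Defs2
import Pool.Agent.Lib.MP_228259_lc.P5b
import Pool.Agent.Lib.MP_228259_lc.P2b

/-!
XV-C3a (rat_top). The top coefficient of `P(u + λ κ)` in `λ` is a nonconstant polynomial in `c · u`,
for a suitable integer direction `κ` with `c · κ = 0`.

Proof. `P = ∑_{i ≤ d} (c·x)^(E i) B_i`, `B_i` homogeneous of degree `i - E i` (`Dec` with `h = 1`). For
`B_i ≠ 0`: `lin c ∤ B_i`, so `B_i` does not vanish identically on the hyperplane `c · x = 0`
(`B_i(x - (c·x) v)` is a nonzero polynomial: if it were `0` then `lin c ∣ B_i`, as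
`B_i(x) - B_i(x - (c·x) v)` is divisible by `c · x`). `XW.int_poly` for the product of the
`B_i(x - (c·x) v)` gives an integer `κ'`; `κ = κ' - (c·κ') v`. Then `B_i(κ) ≠ 0` for all `B_i ≠ 0`,
`c · κ = 0`. `P(u + λ κ) = ∑ (c·u)^(E i) B_i(u + λ κ)` and `B_i(u + λ κ)` is a polynomial in `λ` of
degree at most `i - E i` with the coefficient `B_i(κ)` at `λ^(i - E i)`. Let `D = d - E d`. By `htame`
`i - E i ≤ D`, so `T = ∑_{i ≤ d, i - E i = D, B_i ≠ 0} B_i(κ) X^(E i)`; the index `i = d` has the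
largest `E i` (`E i = i - D`), and `B_d(κ) ≠ 0`, `E d > 0` : `natDegree T = E d > 0`.
`W` = the rest, `W.degree < D` (if `D = 0` then `W = 0`).
-/

set_option autoImplicit false

namespace XV

open MvPolynomial

/-- the substitution `x ↦ x + t κ` -/
private noncomputable def C3a_F {n : ℕ} (κ : Fin n → ℤ) : MvPolynomial (Fin n) ℂ →ₐ[ℂ] R1 n :=
  aeval (fun j => Polynomial.C (X j) + Polynomial.C (C (κ j : ℂ)) * Polynomial.X)

private theorem C3a_F_X {n : ℕ} (κ : Fin n → ℤ) (j : Fin n) : C3a_F κ (X j) =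
    Polynomial.C (X j) + Polynomial.C (C (κ j : ℂ)) * Polynomial.X := by
  unfold C3a_F
  rw [aeval_X]

private theorem C3a_F_C {n : ℕ} (κ : Fin n → ℤ) (a : ℂ) : C3a_F κ (C a) =
    Polynomial.C (C a) := by
  unfold C3a_F
  rw [aeval_C]
  rfl

private theorem C3a_h1 {n : ℕ} (κ : Fin n → ℤ) (u : Fin n → ℂ) (t : ℂ)
    (f : MvPolynomial (Fin n) ℂ) : h1 u t (C3a_F κ f) = eval (u + t • XW.zc κ) f := by
  induction f using MvPolynomial.induction_on with
  | C a =>
    rw [C3a_F_C, eval_C]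
    simp [h1]
  | add p q hp hq => rw [map_add, map_add, map_add, hp, hq]
  | mul_X p j hp =>
    rw [map_mul, map_mul, map_mul, hp, C3a_F_X, eval_X]
    congr 1
    have h2 : h1 u t (Polynomial.C (X j) + Polynomial.C (C (κ j : ℂ)) * Polynomial.X) =
        u j + (κ j : ℂ) * t := by
      unfold h1
      rw [Polynomial.coe_eval₂RingHom, Polynomial.eval₂_add, Polynomial.eval₂_mul,
        Polynomial.eval₂_C, Polynomial.eval₂_C, Polynomial.eval₂_X, eval_X, eval_C]
    rw [h2]
    simp only [Pi.add_apply, Pi.smul_apply, smul_eq_mul, XW.zc]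
    ring

private theorem C3a_lin {n : ℕ} (κ : Fin n → ℤ) (j : Fin n) (e : ℕ) :
    ((Polynomial.C (X j) + Polynomial.C (C (κ j : ℂ)) * Polynomial.X : R1 n) ^ e).natDegree ≤ e ∧
    ((Polynomial.C (X j) + Polynomial.C (C (κ j : ℂ)) * Polynomial.X : R1 n) ^ e).coeff e =
      (C (κ j : ℂ)) ^ e := by
  have h1 : (Polynomial.C (X j) + Polynomial.C (C (κ j : ℂ)) * Polynomial.X : R1 n).natDegree ≤ 1 := by
    rw [add_comm]
    exact Polynomial.natDegree_linear_le
  constructor
  · have := Polynomial.natDegree_pow_le_of_le e h1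
    rwa [mul_one] at this
  · have := Polynomial.coeff_pow_of_natDegree_le (m := e) h1
    rw [mul_one] at this
    rw [this]
    congr 1
    simp

private theorem C3a_prod {n : ℕ} (κ : Fin n → ℤ) (e : Fin n → ℕ) (s : Finset (Fin n)) :
    (∏ j ∈ s, (Polynomial.C (X j) + Polynomial.C (C (κ j : ℂ)) * Polynomial.X : R1 n) ^ (e j)).natDegree
      ≤ ∑ j ∈ s, e j ∧
    (∏ j ∈ s, (Polynomial.C (X j) + Polynomial.C (C (κ j : ℂ)) * Polynomial.X : R1 n) ^ (e j)).coeff
      (∑ j ∈ s, e j) = C (∏ j ∈ s, (κ j : ℂ) ^ (e j)) := by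
  classical
  induction s using Finset.induction_on with
  | empty => simp
  | insert a s ha ih =>
    rw [Finset.prod_insert ha, Finset.sum_insert ha, Finset.prod_insert ha]
    obtain ⟨h1, h2⟩ := C3a_lin κ a (e a)
    refine ⟨Polynomial.natDegree_mul_le_of_le h1 ih.1, ?_⟩
    rw [Polynomial.coeff_mul_add_eq_of_natDegree_le h1 ih.1, h2, ih.2, map_mul, map_pow]

private theorem C3a_mono {n : ℕ} (κ : Fin n → ℤ) (s : Fin n →₀ ℕ) (a : ℂ) :
    (C3a_F κ (monomial s a)).natDegree ≤ ∑ j, s j ∧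
    (C3a_F κ (monomial s a)).coeff (∑ j, s j) = C (eval (XW.zc κ) (monomial s a)) := by
  have h1 : C3a_F κ (monomial s a) = Polynomial.C (C a) *
      ∏ j, (Polynomial.C (X j) + Polynomial.C (C (κ j : ℂ)) * Polynomial.X : R1 n) ^ (s j) := by
    unfold C3a_F
    rw [aeval_monomial, Finsupp.prod_fintype _ _ (by simp)]
    rfl
  obtain ⟨h2, h3⟩ := C3a_prod κ s Finset.univ
  rw [h1]
  constructor
  · refine (Polynomial.natDegree_C_mul_le _ _).trans h2
  · rw [Polynomial.coeff_C_mul, h3, eval_monomial, Finsupp.prod_fintype _ _ (by simp), map_mul]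
    rfl

private theorem C3a_hom {n : ℕ} (κ : Fin n → ℤ) {f : MvPolynomial (Fin n) ℂ} {m : ℕ}
    (hf : f.IsHomogeneous m) :
    (C3a_F κ f).natDegree ≤ m ∧ (C3a_F κ f).coeff m = C (eval (XW.zc κ) f) := by
  classical
  have hs : ∀ s ∈ f.support, ∑ j, s j = m := by
    intro s hs
    have h1 := hf (mem_support_iff.1 hs)
    rw [Finsupp.weight_apply, Finsupp.sum_fintype _ _ (by simp)] at h1
    simpa using h1
  have hsum : C3a_F κ f = ∑ s ∈ f.support, C3a_F κ (monomial s (coeff s f)) := by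
    conv_lhs => rw [f.as_sum]
    rw [map_sum]
  have hev : eval (XW.zc κ) f = ∑ s ∈ f.support, eval (XW.zc κ) (monomial s (coeff s f)) := by
    conv_lhs => rw [f.as_sum]
    rw [map_sum]
  rw [hsum]
  constructor
  · refine Polynomial.natDegree_sum_le_of_forall_le _ _ fun s h => ?_
    rw [← hs s h]
    exact (C3a_mono κ s _).1
  · rw [Polynomial.finsetSum_coeff, hev, map_sum]
    refine Finset.sum_congr rfl fun s h => ?_
    rw [← hs s h]
    exact (C3a_mono κ s _).2

private theorem C3a_evlin {n : ℕ} (c : Fin n → ℤ) (u : Fin n → ℂ) :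
    eval u (XW.lin (fun j => (c j : ℚ))) = ∑ j, (c j : ℂ) * u j := by
  unfold XW.lin
  rw [map_sum]
  refine Finset.sum_congr rfl fun j _ => ?_
  rw [map_mul, eval_C, eval_X]
  simp

/-- restriction to the hyperplane -/
private noncomputable def C3a_S {n : ℕ} (c v : Fin n → ℤ) :
    MvPolynomial (Fin n) ℂ →ₐ[ℂ] MvPolynomial (Fin n) ℂ :=
  aeval (fun j => X j - C (v j : ℂ) * XW.lin (fun j => (c j : ℚ)))

private theorem C3a_S_dvd {n : ℕ} (c v : Fin n → ℤ) (f : MvPolynomial (Fin n) ℂ) :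
    XW.lin (fun j => (c j : ℚ)) ∣ f - C3a_S c v f := by
  induction f using MvPolynomial.induction_on with
  | C a =>
    unfold C3a_S
    rw [aeval_C, MvPolynomial.algebraMap_eq, sub_self]
    exact dvd_zero _
  | add p q hp hq =>
    rw [map_add]
    have := dvd_add hp hq
    convert this using 1
    ring
  | mul_X p j hp =>
    have h1 : C3a_S c v (X j) = X j - C (v j : ℂ) * XW.lin (fun j => (c j : ℚ)) := by
      unfold C3a_S
      rw [aeval_X]
    rw [map_mul, h1]
    have h2 : p * X j - C3a_S c v p * (X j - C (v j : ℂ) * XW.lin (fun j => (c j : ℚ))) =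
        (p - C3a_S c v p) * X j + C3a_S c v p * C (v j : ℂ) * XW.lin (fun j => (c j : ℚ)) := by
      ring
    rw [h2]
    exact dvd_add (hp.mul_right _) (Dvd.intro_left _ rfl)

private theorem C3a_S_eval {n : ℕ} (c v κ' : Fin n → ℤ) (f : MvPolynomial (Fin n) ℂ) :
    eval (XW.zc κ') (C3a_S c v f) =
      eval (XW.zc (fun j => κ' j - (∑ k, c k * κ' k) * v j)) f := by
  induction f using MvPolynomial.induction_on with
  | C a =>
    unfold C3a_S
    rw [aeval_C, MvPolynomial.algebraMap_eq, eval_C, eval_C]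
  | add p q hp hq => rw [map_add, map_add, map_add, hp, hq]
  | mul_X p j hp =>
    have h1 : C3a_S c v (X j) = X j - C (v j : ℂ) * XW.lin (fun j => (c j : ℚ)) := by
      unfold C3a_S
      rw [aeval_X]
    rw [map_mul, map_mul, map_mul, hp, h1, map_sub, map_mul, C3a_evlin, eval_X, eval_C, eval_X]
    simp only [XW.zc]
    push_cast
    ring

theorem rat_top {n : ℕ} {P : MvPolynomial (Fin n) ℂ} (c v : Fin n → ℤ)
    (hcv : ∑ j, c j * v j = 1) {d : ℕ} {E : ℕ → ℕ} {B : ℕ → MvPolynomial (Fin n) ℂ}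
    (hdec : XW.Dec P (XW.lin (fun j => (c j : ℚ))) d 1 E B)
    (htame : ∀ i ≤ d, B i ≠ 0 → i + E d ≤ d + E i) :
    ∃ (κ : Fin n → ℤ) (D : ℕ) (T : Polynomial ℂ) (W : R1 n),
      ∑ j, c j * κ j = 0 ∧ 0 < T.natDegree ∧ W.degree < D ∧
      ∀ (u : Fin n → ℂ) (t : ℂ), eval (u + t • XW.zc κ) P =
        T.eval (∑ j, (c j : ℂ) * u j) * t ^ D + h1 u t W := by
  classical
  set L := XW.lin (fun j => (c j : ℚ)) with hL
  set S : Finset ℕ := (Finset.range (d + 1)).filter fun i => B i ≠ 0 with hS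
  have hSm : ∀ i, i ∈ S ↔ i ≤ d ∧ B i ≠ 0 := by
    intro i
    rw [hS, Finset.mem_filter, Finset.mem_range, Nat.lt_succ_iff]
  have hne : ∏ i ∈ S, C3a_S c v (B i) ≠ 0 := by
    rw [Finset.prod_ne_zero_iff]
    intro i hi h0
    obtain ⟨h1, h2⟩ := (hSm i).1 hi
    have h3 := C3a_S_dvd c v (B i)
    rw [h0, sub_zero] at h3
    rcases hdec.ndvd i h1 with h4 | h4
    · exact h2 h4
    · exact h4 h3
  obtain ⟨κ', hκ'⟩ := XW.int_poly _ hne
  rw [map_prod, Finset.prod_ne_zero_iff] at hκ'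
  set κ : Fin n → ℤ := fun j => κ' j - (∑ k, c k * κ' k) * v j with hκ
  have hBκ : ∀ i ∈ S, eval (XW.zc κ) (B i) ≠ 0 := by
    intro i hi
    have := hκ' i hi
    rwa [C3a_S_eval] at this
  have hcκ : ∑ j, c j * κ j = 0 := by
    have h1 : ∑ j, c j * κ j = ∑ j, c j * κ' j - (∑ k, c k * κ' k) * ∑ j, c j * v j := by
      rw [Finset.mul_sum, ← Finset.sum_sub_distrib]
      refine Finset.sum_congr rfl fun j _ => ?_
      simp only [hκ]
      ring
    rw [h1, hcv, mul_one, sub_self]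
  have hEle : ∀ i ∈ S, E i ≤ i ∧ (B i).IsHomogeneous (i - E i) := by
    intro i hi
    obtain ⟨h1, h2⟩ := (hSm i).1 hi
    have := hdec.deg i h1 h2
    rwa [mul_one] at this
  have hdS : d ∈ S := (hSm d).2 ⟨le_rfl, hdec.top⟩
  set D : ℕ := d - E d with hD
  have hmD : ∀ i ∈ S, i - E i ≤ D := by
    intro i hi
    obtain ⟨h1, h2⟩ := (hSm i).1 hi
    have h3 := htame i h1 h2
    have h4 := (hEle i hi).1
    have h5 := (hEle d hdS).1
    omega
  -- the linear form
  have hFL : C3a_F κ L = Polynomial.C L := by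
    rw [hL]
    unfold XW.lin
    rw [map_sum, map_sum]
    have h1 : ∀ j, C3a_F κ (C (((c j : ℚ)) : ℂ) * X j) =
        Polynomial.C (C (((c j : ℚ)) : ℂ) * X j) +
          Polynomial.C (C ((c j : ℂ) * (κ j : ℂ))) * Polynomial.X := by
      intro j
      rw [map_mul, C3a_F_C, C3a_F_X, mul_add, ← map_mul, ← mul_assoc, ← map_mul, ← map_mul]
      simp
    simp_rw [h1]
    rw [Finset.sum_add_distrib, ← Finset.sum_mul, ← map_sum, ← map_sum, ← map_sum]
    have h2 : (∑ j, (c j : ℂ) * (κ j : ℂ)) = 0 := by exact_mod_cast hcκ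
    rw [h2, C_0, Polynomial.C_0, zero_mul, add_zero]
  set Q : R1 n := C3a_F κ P with hQ
  have hQs : Q = ∑ i ∈ S, Polynomial.C (L ^ (E i)) * C3a_F κ (B i) := by
    have h1 : P = ∑ i ∈ Finset.range (d + 1), L ^ (E i) * B i := hdec.sum
    rw [hQ, h1, map_sum, hS, Finset.sum_filter]
    refine Finset.sum_congr rfl fun i _ => ?_
    rw [map_mul, map_pow, hFL, ← map_pow]
    split_ifs with h2
    · rfl
    · rw [not_not] at h2
      rw [h2, map_zero, mul_zero]
  set S' : Finset ℕ := S.filter fun i => i - E i = D with hS'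
  set T : Polynomial ℂ := ∑ i ∈ S', Polynomial.C (eval (XW.zc κ) (B i)) * Polynomial.X ^ (E i)
    with hT
  have hlow : ∀ m, D < m → Q.coeff m = 0 := by
    intro m hm
    rw [hQs, Polynomial.finsetSum_coeff]
    refine Finset.sum_eq_zero fun i hi => ?_
    rw [Polynomial.coeff_C_mul, Polynomial.coeff_eq_zero_of_natDegree_lt, mul_zero]
    exact lt_of_le_of_lt ((C3a_hom κ (hEle i hi).2).1.trans (hmD i hi)) hm
  have htop : ∀ u : Fin n → ℂ, eval u (Q.coeff D) = T.eval (∑ j, (c j : ℂ) * u j) := by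
    intro u
    rw [hQs, Polynomial.finsetSum_coeff, map_sum, hT, Polynomial.eval_finsetSum, hS',
      Finset.sum_filter (p := fun i => i - E i = D)]
    refine Finset.sum_congr rfl fun i hi => ?_
    rw [Polynomial.coeff_C_mul, map_mul, map_pow, hL, C3a_evlin]
    split_ifs with h1
    · have h2 := (C3a_hom κ (hEle i hi).2).2
      rw [h1] at h2
      rw [h2, eval_C, Polynomial.eval_mul, Polynomial.eval_C, Polynomial.eval_pow,
        Polynomial.eval_X, mul_comm]
    · rw [Polynomial.coeff_eq_zero_of_natDegree_lt, map_zero, mul_zero]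
      have h2 := (C3a_hom κ (hEle i hi).2).1
      have h3 := hmD i hi
      omega
  refine ⟨κ, D, T, Q - Polynomial.C (Q.coeff D) * Polynomial.X ^ D, hcκ, ?_, ?_, ?_⟩
  · have h1 : T.coeff (E d) = eval (XW.zc κ) (B d) := by
      rw [hT, Polynomial.finsetSum_coeff, Finset.sum_eq_single d]
      · rw [Polynomial.coeff_C_mul, Polynomial.coeff_X_pow_self, mul_one]
      · intro i hi hid
        rw [hS', Finset.mem_filter] at hi
        rw [Polynomial.coeff_C_mul, Polynomial.coeff_X_pow, if_neg, mul_zero]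
        intro h2
        apply hid
        have h3 := (hEle i hi.1).1
        have h4 := (hEle d hdS).1
        omega
      · intro h2
        exact absurd (by rw [hS', Finset.mem_filter]; exact ⟨hdS, rfl⟩) h2
    have h2 : E d ≤ T.natDegree := by
      apply Polynomial.le_natDegree_of_ne_zero
      rw [h1]
      exact hBκ d hdS
    exact lt_of_lt_of_le hdec.epos h2
  · rw [Polynomial.degree_lt_iff_coeff_zero]
    intro m hm
    rw [Polynomial.coeff_sub, Polynomial.coeff_C_mul, Polynomial.coeff_X_pow]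
    rcases eq_or_lt_of_le hm with h1 | h1
    · rw [h1]
      simp
    · rw [hlow m h1, if_neg (by omega), mul_zero, sub_zero]
  · intro u t
    rw [← C3a_h1 κ u t P, ← hQ, map_sub, map_mul, map_pow, ← htop u]
    simp [h1]

end XV
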