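import Pool.Agent.Lib.MP_228259_lc.V.C3c

/-!
XV-C3d (set-up of the rational case). The points `w` of the hyperplane `c · w = u₀` near
`2 π i N κ`, the big natural number `big N ≈ exp (N^(1/4))` and the projection `prj` onto the
hyperplane.

Proofs. `big_large`: `N^C ≤ ε exp (N^(1/4))` eventually (`Real.tendsto_pow_mul_exp_neg_atTop_nhds_zero`
or `isLittleO_pow_exp_atTop` with `y = √√N`, `N = y^4`). `log_big`: `big N ≤ exp y + 1 ≤ exp (2 y)`.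
`prj_mem`: `c · prj u = c·u - (c·u - u₀)(c·v) = u₀`; `c·κ = 0` gives `c · ctr κ N = 0`, so
`‖c·u‖ ≤ (∑ ‖c_j‖) ‖u - ctr κ N‖`, `‖prj u - ctr κ N‖ ≤ ‖u - ctr κ N‖ + (‖c·u‖ + ‖u₀‖) ‖v‖ ≤ 2 √N`
for `c₀ = 1 / (1 + (∑ ‖c_j‖) ‖v‖)` and `N` large.
-/

set_option autoImplicit false

namespace XV

open MvPolynomial Filter Topology

/-- the points of the hyperplane `c · w = u₀` near `2 π i N κ` -/
def HS {n : ℕ} (c : Fin n → ℤ) (u₀ : ℂ) (κ : Fin n → ℝ) (N : ℕ) : Set (Fin n → ℂ) :=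
  {w | ∑ j, (c j : ℂ) * w j = u₀ ∧ ‖w - ctr κ N‖ ≤ 2 * Real.sqrt N}

/-- a natural number near `exp (N^(1/4))` -/
noncomputable def big (N : ℕ) : ℕ := ⌈Real.exp (Real.sqrt (Real.sqrt N))⌉₊

/-- `2 π i (big N)` -/
noncomputable def bigc (N : ℕ) : ℂ := 2 * Real.pi * Complex.I * (big N : ℂ)

/-- the projection onto the hyperplane `c · w = u₀` along `v` -/
noncomputable def prj {n : ℕ} (c v : Fin n → ℤ) (u₀ : ℂ) (u : Fin n → ℂ) : Fin n → ℂ :=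
  u - (∑ j, (c j : ℂ) * u j - u₀) • XW.zc v

private theorem C3d_tend : Tendsto (fun N : ℕ => Real.sqrt (Real.sqrt (N : ℝ))) atTop atTop :=
  Real.tendsto_sqrt_atTop.comp (Real.tendsto_sqrt_atTop.comp tendsto_natCast_atTop_atTop)

private theorem C3d_exp_le (N : ℕ) : Real.exp (Real.sqrt (Real.sqrt N)) ≤ (big N : ℝ) := by
  unfold big
  exact Nat.le_ceil _

theorem big_large (C : ℕ) (ε : ℝ) (hε : 0 < ε) :
    ∀ᶠ N : ℕ in atTop, (N : ℝ) ^ C ≤ ε * (big N : ℝ) := by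
  have h1 := (Real.tendsto_pow_mul_exp_neg_atTop_nhds_zero (4 * C)).comp C3d_tend
  filter_upwards [h1.eventually_lt_const hε] with N hN
  simp only [Function.comp_apply] at hN
  set s := Real.sqrt (Real.sqrt (N : ℝ)) with hs
  have hs4 : s ^ 4 = (N : ℝ) := by
    have h2 : s ^ 2 = Real.sqrt (N : ℝ) := Real.sq_sqrt (Real.sqrt_nonneg _)
    have h3 : Real.sqrt (N : ℝ) ^ 2 = (N : ℝ) := Real.sq_sqrt (Nat.cast_nonneg _)
    calc s ^ 4 = (s ^ 2) ^ 2 := by ring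
      _ = (N : ℝ) := by rw [h2, h3]
  have h2 : (N : ℝ) ^ C = s ^ (4 * C) := by rw [pow_mul, hs4]
  rw [h2]
  have h3 : s ^ (4 * C) < ε * Real.exp s := by
    rw [Real.exp_neg, ← div_eq_mul_inv, div_lt_iff₀ (Real.exp_pos _)] at hN
    exact hN
  exact h3.le.trans (mul_le_mul_of_nonneg_left (C3d_exp_le N) hε.le)

theorem log_big : ∀ᶠ N : ℕ in atTop, Real.log (big N) ≤ 2 * Real.sqrt (Real.sqrt N) := by
  filter_upwards [C3d_tend.eventually_ge_atTop 1] with N hN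
  set s := Real.sqrt (Real.sqrt (N : ℝ)) with hs
  have h0 : 0 < Real.exp s := Real.exp_pos _
  have h1 : (big N : ℝ) ≤ Real.exp s + 1 := by
    unfold big
    exact (Nat.ceil_lt_add_one h0.le).le
  have h2 : 2 ≤ Real.exp s := by
    have := Real.add_one_le_exp s
    linarith
  have h3 : (big N : ℝ) ≤ Real.exp (2 * s) := by
    have h4 : Real.exp (2 * s) = Real.exp s * Real.exp s := by
      rw [← Real.exp_add]
      congr 1
      ring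
    rw [h4]
    nlinarith
  have h5 : 0 < (big N : ℝ) := h0.trans_le (C3d_exp_le N)
  have h6 := Real.log_le_log h5 h3
  rwa [Real.log_exp] at h6

private theorem C3d_sqrt (a : ℝ) : ∀ᶠ N : ℕ in atTop, a ≤ Real.sqrt (N : ℝ) :=
  (Real.tendsto_sqrt_atTop.comp tendsto_natCast_atTop_atTop).eventually_ge_atTop a

theorem prj_mem {n : ℕ} (c v : Fin n → ℤ) (hcv : ∑ j, c j * v j = 1) (u₀ : ℂ)
    (κ : Fin n → ℝ) (hκ : ∑ j, c j * κ j = 0) :
    ∃ c₀ : ℝ, 0 < c₀ ∧ c₀ ≤ 1 ∧ ∀ᶠ N : ℕ in atTop,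
      ∀ u ∈ Metric.ball (ctr κ N) (c₀ * Real.sqrt N), prj c v u₀ u ∈ HS c u₀ κ N := by
  set S : ℝ := ∑ j, ‖(c j : ℂ)‖ with hS
  have hS0 : 0 ≤ S := Finset.sum_nonneg fun _ _ => norm_nonneg _
  have hv0 : 0 ≤ ‖XW.zc v‖ := norm_nonneg _
  have hpos : 0 < 1 + S * ‖XW.zc v‖ := by positivity
  refine ⟨1 / (1 + S * ‖XW.zc v‖), by positivity, ?_, ?_⟩
  · rw [div_le_one hpos]
    linarith [mul_nonneg hS0 hv0]
  filter_upwards [C3d_sqrt (‖u₀‖ * ‖XW.zc v‖)] with N hN u hu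
  have hcvC : ∑ j, (c j : ℂ) * XW.zc v j = 1 := by
    have : ((∑ j, c j * v j : ℤ) : ℂ) = 1 := by rw [hcv]; simp
    push_cast at this
    exact this
  have hcκ : ∑ j, (c j : ℂ) * ctr κ N j = 0 := by
    have h1 : ((∑ j, (c j : ℝ) * κ j : ℝ) : ℂ) = 0 := by rw [hκ]; simp
    push_cast at h1
    have h2 : ∀ j, (c j : ℂ) * ctr κ N j = 2 * Real.pi * Complex.I * N * ((c j : ℂ) * (κ j : ℂ)) := by
      intro j
      unfold ctr
      ring
    simp_rw [h2]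
    rw [← Finset.mul_sum, h1, mul_zero]
  constructor
  · have h1 : ∀ j, (c j : ℂ) * prj c v u₀ u j = (c j : ℂ) * u j -
        (∑ k, (c k : ℂ) * u k - u₀) * ((c j : ℂ) * XW.zc v j) := by
      intro j
      simp only [prj, Pi.sub_apply, Pi.smul_apply, smul_eq_mul]
      ring
    simp_rw [h1]
    rw [Finset.sum_sub_distrib, ← Finset.mul_sum, hcvC]
    ring
  · rw [mem_ball_iff_norm] at hu
    have h1 : ‖∑ j, (c j : ℂ) * u j‖ ≤ S * ‖u - ctr κ N‖ := by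
      have h2 : ∑ j, (c j : ℂ) * u j = ∑ j, (c j : ℂ) * (u - ctr κ N) j := by
        simp only [Pi.sub_apply, mul_sub]
        rw [Finset.sum_sub_distrib, hcκ, sub_zero]
      rw [h2, hS, Finset.sum_mul]
      refine norm_sum_le_of_le _ fun j _ => ?_
      rw [norm_mul]
      exact mul_le_mul_of_nonneg_left (norm_le_pi_norm _ j) (norm_nonneg _)
    have h2 : ‖prj c v u₀ u - ctr κ N‖ ≤ ‖u - ctr κ N‖ +
        (‖∑ j, (c j : ℂ) * u j‖ + ‖u₀‖) * ‖XW.zc v‖ := by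
      have h3 : prj c v u₀ u - ctr κ N = (u - ctr κ N) -
          (∑ j, (c j : ℂ) * u j - u₀) • XW.zc v := by
        unfold prj
        abel
      rw [h3]
      refine (norm_sub_le _ _).trans (add_le_add le_rfl ?_)
      rw [norm_smul]
      exact mul_le_mul_of_nonneg_right (norm_sub_le _ _) hv0
    have h4 : ‖u - ctr κ N‖ * (1 + S * ‖XW.zc v‖) ≤ Real.sqrt N := by
      have h5 := hu.le
      rw [one_div, ← div_eq_inv_mul, le_div_iff₀ hpos] at h5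
      exact h5
    have h6 : ‖∑ j, (c j : ℂ) * u j‖ * ‖XW.zc v‖ ≤ S * ‖u - ctr κ N‖ * ‖XW.zc v‖ :=
      mul_le_mul_of_nonneg_right h1 hv0
    nlinarith

/-- the norm of `w + t v + 2 π i (big N) κ₁` -/
theorem big_norm {n : ℕ} (c v κ₁ : Fin n → ℤ) (u₀ : ℂ) (κ : Fin n → ℝ) :
    ∀ᶠ N : ℕ in atTop, ∀ w ∈ HS c u₀ κ N, ‖w‖ ≤ (N : ℝ) ^ 2 ∧ ∀ t : ℂ, ‖t‖ ≤ 1 →
      ‖w + t • XW.zc v‖ ≤ (N : ℝ) ^ 2 ∧
      ‖w + t • XW.zc v + bigc N • XW.zc κ₁‖ ≤ (big N : ℝ) ^ 2 := by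
  have hpi := Real.pi_pos
  set a : ℝ := 2 * Real.pi * ‖XW.rc κ‖ + 2 + ‖XW.zc v‖ with ha
  have h1 : ∀ᶠ N : ℕ in atTop, max a 1 ≤ (N : ℝ) :=
    tendsto_natCast_atTop_atTop.eventually_ge_atTop _
  filter_upwards [h1, big_large 2 1 one_pos,
    big_large 0 (1 / (1 + 2 * Real.pi * ‖XW.zc κ₁‖)) (by positivity)] with N hN1 hN2 hN3 w hw
  have hNa : a ≤ N := (le_max_left _ _).trans hN1
  have hN1' : (1 : ℝ) ≤ N := (le_max_right _ _).trans hN1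
  have hc : ‖ctr κ N‖ ≤ 2 * Real.pi * N * ‖XW.rc κ‖ := by
    rw [pi_norm_le_iff_of_nonneg (by positivity)]
    intro j
    have h2 : ctr κ N j = 2 * Real.pi * Complex.I * N * XW.rc κ j := rfl
    rw [h2, norm_mul, norm_mul, norm_mul, norm_mul, Complex.norm_I, Complex.norm_real,
      Real.norm_eq_abs, abs_of_pos hpi, Complex.norm_natCast, Complex.norm_ofNat, mul_one]
    exact mul_le_mul_of_nonneg_left (norm_le_pi_norm _ j) (by positivity)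
  have hs : Real.sqrt (N : ℝ) ≤ N := by
    rw [Real.sqrt_le_left (by positivity)]
    nlinarith
  have hw1 : ‖w‖ ≤ 2 * Real.pi * N * ‖XW.rc κ‖ + 2 * N := by
    have h2 : ‖w‖ ≤ ‖w - ctr κ N‖ + ‖ctr κ N‖ := by
      have := norm_add_le (w - ctr κ N) (ctr κ N)
      rwa [sub_add_cancel] at this
    linarith [hw.2]
  have haN : a * N ≤ (N : ℝ) ^ 2 := by nlinarith
  have hv0 : 0 ≤ ‖XW.zc v‖ := norm_nonneg _
  have hexpand : a * N = 2 * Real.pi * N * ‖XW.rc κ‖ + 2 * N + ‖XW.zc v‖ * N := by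
    rw [ha]; ring
  have hvN : ‖XW.zc v‖ ≤ ‖XW.zc v‖ * N := le_mul_of_one_le_right hv0 hN1'
  have htv : ∀ t : ℂ, ‖t‖ ≤ 1 → ‖w + t • XW.zc v‖ ≤ (N : ℝ) ^ 2 := by
    intro t ht
    have h2 := norm_add_le w (t • XW.zc v)
    rw [norm_smul] at h2
    have h3 : ‖t‖ * ‖XW.zc v‖ ≤ 1 * ‖XW.zc v‖ := mul_le_mul_of_nonneg_right ht hv0
    linarith
  refine ⟨by linarith, fun t ht => ⟨htv t ht, ?_⟩⟩
  set M : ℝ := (big N : ℝ) with hM
  have hM0 : 0 ≤ M := Nat.cast_nonneg _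
  have hb : ‖bigc N • XW.zc κ₁‖ = 2 * Real.pi * M * ‖XW.zc κ₁‖ := by
    rw [norm_smul]
    unfold bigc
    rw [norm_mul, norm_mul, norm_mul, Complex.norm_I, Complex.norm_real,
      Real.norm_eq_abs, abs_of_pos hpi, Complex.norm_natCast, Complex.norm_ofNat, mul_one]
  have hM1 : 1 + 2 * Real.pi * ‖XW.zc κ₁‖ ≤ M := by
    rw [pow_zero, one_div, ← div_eq_inv_mul, le_div_iff₀ (by positivity)] at hN3
    linarith
  have h2 := norm_add_le (w + t • XW.zc v) (bigc N • XW.zc κ₁)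
  rw [hb] at h2
  rw [one_mul] at hN2
  have h3 := htv t ht
  nlinarith

private theorem C3d_bound {n : ℕ} (G : MvPolynomial (Fin n) ℂ) :
    ∃ C : ℕ, ∀ x : Fin n → ℂ, ‖eval x G‖ ≤ C * (1 + ‖x‖) ^ C := by
  induction G using MvPolynomial.induction_on with
  | C a =>
    refine ⟨⌈‖a‖⌉₊, fun x => ?_⟩
    rw [eval_C]
    have h1 : ‖a‖ ≤ (⌈‖a‖⌉₊ : ℝ) := Nat.le_ceil _
    have h2 : (1 : ℝ) ≤ (1 + ‖x‖) ^ ⌈‖a‖⌉₊ := one_le_pow₀ (by linarith [norm_nonneg x])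
    exact h1.trans (le_mul_of_one_le_right (Nat.cast_nonneg _) h2)
  | add p q hp hq =>
    obtain ⟨C₁, h1⟩ := hp
    obtain ⟨C₂, h2⟩ := hq
    refine ⟨C₁ + C₂, fun x => ?_⟩
    rw [map_add]
    have hx : (1 : ℝ) ≤ 1 + ‖x‖ := by linarith [norm_nonneg x]
    have h3 : (1 + ‖x‖) ^ C₁ ≤ (1 + ‖x‖) ^ (C₁ + C₂) := pow_le_pow_right₀ hx (by omega)
    have h4 : (1 + ‖x‖) ^ C₂ ≤ (1 + ‖x‖) ^ (C₁ + C₂) := pow_le_pow_right₀ hx (by omega)
    push_cast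
    calc ‖eval x p + eval x q‖ ≤ ‖eval x p‖ + ‖eval x q‖ := norm_add_le _ _
      _ ≤ C₁ * (1 + ‖x‖) ^ C₁ + C₂ * (1 + ‖x‖) ^ C₂ := add_le_add (h1 x) (h2 x)
      _ ≤ C₁ * (1 + ‖x‖) ^ (C₁ + C₂) + C₂ * (1 + ‖x‖) ^ (C₁ + C₂) := by gcongr
      _ = _ := by ring
  | mul_X p j hp =>
    obtain ⟨C₁, h1⟩ := hp
    refine ⟨C₁ + 1, fun x => ?_⟩
    rw [map_mul, eval_X, norm_mul]
    have hx : (0 : ℝ) ≤ ‖x‖ := norm_nonneg x
    have h2 : ‖x j‖ ≤ 1 + ‖x‖ := by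
      have := norm_le_pi_norm x j
      linarith
    push_cast
    calc ‖eval x p‖ * ‖x j‖ ≤ (C₁ * (1 + ‖x‖) ^ C₁) * (1 + ‖x‖) :=
          mul_le_mul (h1 x) h2 (norm_nonneg _) (by positivity)
      _ = C₁ * (1 + ‖x‖) ^ (C₁ + 1) := by ring
      _ ≤ (C₁ + 1) * (1 + ‖x‖) ^ (C₁ + 1) := by
          refine mul_le_mul_of_nonneg_right (by linarith) (by positivity)

private theorem C3d_W {n : ℕ} (W : R1 n) (J : ℕ) (hW : W.degree < (J + 1 : ℕ)) :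
    ∃ K : ℕ, ∀ (w : Fin n → ℂ) (t : ℂ), 1 ≤ ‖t‖ →
      ‖h1 w t W‖ ≤ K * (1 + ‖w‖) ^ K * ‖t‖ ^ J := by
  choose Cc hCc using fun i => C3d_bound (W.coeff i)
  refine ⟨∑ i ∈ Finset.range (J + 1), Cc i, fun w t ht => ?_⟩
  have hn : W.natDegree < J + 1 := by
    by_cases h0 : W = 0
    · rw [h0, Polynomial.natDegree_zero]
      omega
    · exact (Polynomial.natDegree_lt_iff_degree_lt h0).2 hW
  have h2 : h1 w t W = ∑ i ∈ Finset.range (J + 1), eval w (W.coeff i) * t ^ i := by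
    unfold h1
    rw [Polynomial.coe_eval₂RingHom]
    exact Polynomial.eval₂_eq_sum_range' _ hn t
  rw [h2]
  set K : ℕ := ∑ i ∈ Finset.range (J + 1), Cc i with hK
  have hw : (1 : ℝ) ≤ 1 + ‖w‖ := by linarith [norm_nonneg w]
  have h3 : ‖∑ i ∈ Finset.range (J + 1), eval w (W.coeff i) * t ^ i‖ ≤
      ∑ i ∈ Finset.range (J + 1), (Cc i : ℝ) * ((1 + ‖w‖) ^ K * ‖t‖ ^ J) := by
    refine norm_sum_le_of_le _ fun i hi => ?_
    rw [Finset.mem_range] at hi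
    rw [norm_mul, norm_pow, ← mul_assoc]
    have h4 : Cc i ≤ K := Finset.single_le_sum (f := Cc) (fun _ _ => Nat.zero_le _)
      (Finset.mem_range.2 hi)
    refine mul_le_mul ((hCc i w).trans ?_) (pow_le_pow_right₀ ht (by omega)) (by positivity)
      (by positivity)
    exact mul_le_mul_of_nonneg_left (pow_le_pow_right₀ hw h4) (Nat.cast_nonneg _)
  refine h3.trans (le_of_eq ?_)
  rw [← Finset.sum_mul, hK]
  push_cast
  ring

/-- a polynomial with a large leading term in the direction `κ₁` -/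
theorem big_lower {n : ℕ} (c κ₁ : Fin n → ℤ) (u₀ : ℂ) (κ : Fin n → ℝ)
    (G ρ : MvPolynomial (Fin n) ℂ) (J : ℕ) (W : R1 n) (hW : W.degree < J)
    (hG : ∀ w : Fin n → ℂ, ∑ j, (c j : ℂ) * w j = u₀ → ∀ t : ℂ,
      eval (w + t • XW.zc κ₁) G = eval w ρ * t ^ J + h1 w t W)
    (hρ : ∃ b : ℝ, 0 < b ∧ ∀ᶠ N : ℕ in atTop, ∀ w ∈ HS c u₀ κ N, b ≤ ‖eval w ρ‖) :
    ∃ b : ℝ, 0 < b ∧ ∀ᶠ N : ℕ in atTop, ∀ w ∈ HS c u₀ κ N,
      b ≤ ‖eval (w + bigc N • XW.zc κ₁) G‖ := by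
  obtain ⟨b, hb, hρb⟩ := hρ
  have hpi := Real.pi_pos
  rcases Nat.eq_zero_or_pos J with hJ | hJ
  · refine ⟨b, hb, ?_⟩
    have hW0 : W = 0 := by
      rw [hJ, Nat.cast_zero] at hW
      by_contra h
      rw [Polynomial.degree_eq_natDegree h] at hW
      exact absurd hW (not_lt.2 (by exact_mod_cast Nat.zero_le _))
    filter_upwards [hρb] with N hN w hw
    rw [hG w hw.1, hJ, hW0, pow_zero, mul_one, map_zero, add_zero]
    exact hN w hw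
  · obtain ⟨J', rfl⟩ : ∃ J', J = J' + 1 := ⟨J - 1, by omega⟩
    obtain ⟨K, hK⟩ := C3d_W W J' hW
    refine ⟨b / 2, by positivity, ?_⟩
    filter_upwards [hρb, big_norm c 0 κ₁ u₀ κ, big_large 0 1 one_pos,
      big_large (2 * K) (b / (2 * (K * 2 ^ K + 1))) (by positivity), eventually_gt_atTop 0]
      with N hN hN2 hN3 hN4 hN5 w hw
    set M : ℝ := (big N : ℝ) with hM
    have hN1 : (1 : ℝ) ≤ N := by exact_mod_cast hN5
    have hM1 : 1 ≤ M := by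
      rw [pow_zero, one_mul] at hN3
      exact hN3
    have ht : ‖bigc N‖ = 2 * Real.pi * M := by
      unfold bigc
      rw [norm_mul, norm_mul, norm_mul, Complex.norm_I, Complex.norm_real,
        Real.norm_eq_abs, abs_of_pos hpi, Complex.norm_natCast, Complex.norm_ofNat, mul_one]
    have hpi3 := Real.pi_gt_three
    have htM : M ≤ ‖bigc N‖ := by
      rw [ht]
      nlinarith
    have ht1 : 1 ≤ ‖bigc N‖ := hM1.trans htM
    have hw2 := (hN2 w hw).1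
    have hwK : (1 + ‖w‖) ^ K ≤ 2 ^ K * (N : ℝ) ^ (2 * K) := by
      have h3 : 1 + ‖w‖ ≤ 2 * (N : ℝ) ^ 2 := by nlinarith
      calc (1 + ‖w‖) ^ K ≤ (2 * (N : ℝ) ^ 2) ^ K :=
            pow_le_pow_left₀ (by linarith [norm_nonneg w]) h3 K
        _ = 2 ^ K * (N : ℝ) ^ (2 * K) := by rw [mul_pow, ← pow_mul]
    have h4 : ‖h1 w (bigc N) W‖ ≤ b / 2 * ‖bigc N‖ ^ (J' + 1) := by
      have h5 : (K : ℝ) * (1 + ‖w‖) ^ K ≤ b / 2 * M := by
        have hq : (0 : ℝ) < K * 2 ^ K + 1 := by positivity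
        have h6 : (N : ℝ) ^ (2 * K) * (2 * (K * 2 ^ K + 1)) ≤ b * M := by
          rw [div_mul_eq_mul_div, le_div_iff₀ (by positivity)] at hN4
          exact hN4
        have h7 : (K : ℝ) * (1 + ‖w‖) ^ K ≤ K * (2 ^ K * (N : ℝ) ^ (2 * K)) :=
          mul_le_mul_of_nonneg_left hwK (Nat.cast_nonneg _)
        have h8 : (0 : ℝ) ≤ (N : ℝ) ^ (2 * K) := by positivity
        nlinarith
      calc ‖h1 w (bigc N) W‖ ≤ K * (1 + ‖w‖) ^ K * ‖bigc N‖ ^ J' := hK w _ ht1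
        _ ≤ (b / 2 * ‖bigc N‖) * ‖bigc N‖ ^ J' := by
          refine mul_le_mul_of_nonneg_right (h5.trans ?_) (by positivity)
          exact mul_le_mul_of_nonneg_left htM (by positivity)
        _ = _ := by ring
    rw [hG w hw.1]
    have h6 : b * ‖bigc N‖ ^ (J' + 1) ≤ ‖eval w ρ * bigc N ^ (J' + 1)‖ := by
      rw [norm_mul, norm_pow]
      exact mul_le_mul_of_nonneg_right (hN w hw) (by positivity)
    have h7 := norm_sub_le_norm_add (eval w ρ * bigc N ^ (J' + 1)) (h1 w (bigc N) W)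
    have h8 : (1 : ℝ) ≤ ‖bigc N‖ ^ (J' + 1) := one_le_pow₀ ht1
    nlinarith

end XV
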