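import Pool.Agent.Lib.MP_228259_lc.Defs

/-!
Definitions for exponential closedness of varieties `V ⊆ ℂⁿ × (ℂˣ)ⁿ` of dimension `n` whose
projection to `ℂⁿ` is a hypersurface `P = 0` (MP_228259_lc).
-/

namespace XV

open MvPolynomial

/-- polynomials in one variable `F` over `ℂ[x]` -/
abbrev R1 (n : ℕ) := Polynomial (MvPolynomial (Fin n) ℂ)

/-- polynomials in one variable `T` over `ℂ[x][F]` -/
abbrev R2 (n : ℕ) := Polynomial (R1 n)

/-- evaluation of `ℂ[x][F]` at `x`, `F = f` -/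
noncomputable def h1 {n : ℕ} (x : Fin n → ℂ) (f : ℂ) : R1 n →+* ℂ :=
  Polynomial.eval₂RingHom (MvPolynomial.eval x) f

/-- the one variable polynomial obtained from `G ∈ ℂ[x][F][T]` for given `x` and `F = f` -/
noncomputable def e2 {n : ℕ} (x : Fin n → ℂ) (f : ℂ) (G : R2 n) : Polynomial ℂ :=
  G.map (h1 x f)

/-- the monomial `y ^ b` with integer exponents -/
noncomputable def mon {n : ℕ} (b : Fin n → ℤ) (y : Fin n → ℂ) : ℂ := ∏ j, y j ^ b j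

/-- `y ^ b` is algebraic over `ℂ(X)` on `V` -/
def Alg {n : ℕ} (V : Set ((Fin n → ℂ) × (Fin n → ℂ))) (P : MvPolynomial (Fin n) ℂ)
    (b : Fin n → ℤ) : Prop :=
  ∃ G : R1 n, (∃ i, ¬ P ∣ G.coeff i) ∧ ∀ z ∈ V, h1 z.1 (mon b z.2) G = 0

/-- `R` is an algebraic relation over `ℂ(X)` between `y ^ b` and `y ^ c` on `V` -/
def IsRel {n : ℕ} (V : Set ((Fin n → ℂ) × (Fin n → ℂ))) (P : MvPolynomial (Fin n) ℂ)
    (b c : Fin n → ℤ) (R : R2 n) : Prop :=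
  (∃ i j, ¬ P ∣ (R.coeff j).coeff i) ∧
    ∀ z ∈ V, (e2 z.1 (mon b z.2) R).eval (mon c z.2) = 0

/-- A presentation of `V` over `ℂ[x][F]`, `F = y ^ a`: outside the zeros of `Δ` the points of `V`
over `x ∈ X` and `y ^ a = f` are given by the (simple) roots `θ` of the monic polynomial `χ`,
through `y_j = A_j / Δ`, `1 / y_j = A'_j / Δ`. -/
structure RPres {n : ℕ} (V : Set ((Fin n → ℂ) × (Fin n → ℂ))) (P : MvPolynomial (Fin n) ℂ)
    (a : Fin n → ℤ) (Δ : R1 n) (χ : R2 n) (A A' : Fin n → R2 n) : Prop where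
  ne : ∃ i, ¬ P ∣ Δ.coeff i
  monic : χ.Monic
  pos : 0 < χ.natDegree
  simple : ∀ (x : Fin n → ℂ) (f θ : ℂ), eval x P = 0 → h1 x f Δ ≠ 0 →
    (e2 x f χ).eval θ = 0 → (e2 x f χ).derivative.eval θ ≠ 0
  mem : ∀ (x : Fin n → ℂ) (f θ : ℂ), eval x P = 0 → h1 x f Δ ≠ 0 →
    (e2 x f χ).eval θ = 0 → (x, fun j => (e2 x f (A j)).eval θ / h1 x f Δ) ∈ V
  inv : ∀ (x : Fin n → ℂ) (f θ : ℂ), eval x P = 0 → h1 x f Δ ≠ 0 →
    (e2 x f χ).eval θ = 0 →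
    ∀ j, ((e2 x f (A j)).eval θ / h1 x f Δ) * ((e2 x f (A' j)).eval θ / h1 x f Δ) = 1
  mono : ∀ (x : Fin n → ℂ) (f θ : ℂ), eval x P = 0 → h1 x f Δ ≠ 0 →
    (e2 x f χ).eval θ = 0 → mon a (fun j => (e2 x f (A j)).eval θ / h1 x f Δ) = f

/-- the algebraic input of the analysis: `V` lies over the irreducible hypersurface `P = 0`,
has relative dimension one over it, and is presented over `ℂ[x][y ^ a]` for every `a` such that
`y ^ a` is transcendental over `ℂ(X)`; `P` has no factor `c · x - u` with `c` integral. -/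
structure VData {n : ℕ} (V : Set ((Fin n → ℂ) × (Fin n → ℂ))) (P : MvPolynomial (Fin n) ℂ) :
    Prop where
  irr : Irreducible P
  deg : 0 < P.totalDegree
  onX : ∀ z ∈ V, eval z.1 P = 0
  nz : ∀ z ∈ V, ∀ j, z.2 j ≠ 0
  dense : ∀ G : MvPolynomial (Fin n) ℂ, (∀ z ∈ V, eval z.1 G = 0) → P ∣ G
  rel : ∀ b c : Fin n → ℤ, ∃ R : R2 n, IsRel V P b c R
  pres : ∀ a : Fin n → ℤ, ¬ Alg V P a →
    ∃ (Δ : R1 n) (χ : R2 n) (A A' : Fin n → R2 n), RPres V P a Δ χ A A'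
  free : ∀ (c : Fin n → ℤ) (u : ℂ), c ≠ 0 →
    ¬ ((∑ j, C (c j : ℂ) * X j) - C u ∣ P)

end XV
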