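import Pool.Agent.Lib.MP_228259_lc.V.Defs

/-!
More definitions for the analysis (MP_228259_lc, dim of the additive projection `n - 1`).
-/

set_option autoImplicit false

namespace XV

open MvPolynomial Filter Topology

/-- the point of the presentation: `y_j = A_j / Δ` -/
noncomputable def yv {n : ℕ} (Δ : R1 n) (A : Fin n → R2 n) (x : Fin n → ℂ) (f θ : ℂ) :
    Fin n → ℂ :=
  fun j => (e2 x f (A j)).eval θ / h1 x f Δ

/-- the centre `2 π i N κ` -/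
noncomputable def ctr {n : ℕ} (κ : Fin n → ℝ) (N : ℕ) : Fin n → ℂ :=
  fun j => 2 * Real.pi * Complex.I * N * κ j

/-- over the ball of radius `√N` about `2 π i N κ` the roots of `P(u + ω v) = 0` are at most
`N ^ C` in absolute value -/
def Bdd {n : ℕ} (P : MvPolynomial (Fin n) ℂ) (v : Fin n → ℂ) (κ : Fin n → ℝ) : Prop :=
  ∃ C : ℕ, ∀ᶠ N : ℕ in atTop, ∀ u ∈ Metric.ball (ctr κ N) (Real.sqrt N), ∀ ω : ℂ,
    eval (u + ω • v) P = 0 → ‖ω‖ ≤ (N : ℝ) ^ C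

/-- over the ball of radius `√N` about `2 π i N κ` every root of `P(u + ω v) = 0` extends to a
holomorphic root -/
def Sheets {n : ℕ} (P : MvPolynomial (Fin n) ℂ) (v : Fin n → ℂ) (κ : Fin n → ℝ) : Prop :=
  ∀ᶠ N : ℕ in atTop, ∀ u₁ ∈ Metric.ball (ctr κ N) (Real.sqrt N), ∀ ω₁ : ℂ,
    eval (u₁ + ω₁ • v) P = 0 →
    ∃ ω : (Fin n → ℂ) → ℂ, DifferentiableOn ℂ ω (Metric.ball (ctr κ N) (Real.sqrt N)) ∧
      ω u₁ = ω₁ ∧ ∀ u ∈ Metric.ball (ctr κ N) (Real.sqrt N), eval (u + ω u • v) P = 0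

/-- on the sheets over the ball of radius `√N` about `2 π i N κ` the polynomial `G` is at least
`N ^ (-C)` in absolute value -/
def Gen {n : ℕ} (P : MvPolynomial (Fin n) ℂ) (v : Fin n → ℂ) (κ : Fin n → ℝ)
    (G : MvPolynomial (Fin n) ℂ) : Prop :=
  ∃ C : ℕ, ∀ᶠ N : ℕ in atTop, ∀ u ∈ Metric.ball (ctr κ N) (Real.sqrt N), ∀ ω : ℂ,
    eval (u + ω • v) P = 0 → 1 ≤ ‖eval (u + ω • v) G‖ * (N : ℝ) ^ C

/-- `κ` and `-κ` are good directions -/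
structure GoodDir {n : ℕ} (P : MvPolynomial (Fin n) ℂ) (v : Fin n → ℂ)
    (𝒢 : Set (MvPolynomial (Fin n) ℂ)) (κ : Fin n → ℝ) : Prop where
  bdd : Bdd P v κ ∧ Bdd P v (-κ)
  sheets : Sheets P v κ ∧ Sheets P v (-κ)
  gen : ∀ G ∈ 𝒢, ¬ P ∣ G → Gen P v κ G ∧ Gen P v (-κ) G

/-- the slopes of the branches of `y` as `f → 0`: all are in `S`, and the slope `q` occurs, at all
points of the hypersurface where the polynomials of `𝒢` are not too small -/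
def SlopeData {n : ℕ} (P : MvPolynomial (Fin n) ℂ) (Δ : R1 n) (χ : R2 n) (A : Fin n → R2 n)
    (q : Fin n → ℚ) (S : Finset (Fin n → ℚ)) (𝒢 : Finset (MvPolynomial (Fin n) ℂ)) : Prop :=
  (∀ G ∈ 𝒢, ¬ P ∣ G) ∧
  ∀ C : ℕ, ∃ C' : ℕ, ∀ᶠ N : ℕ in atTop, ∀ x : Fin n → ℂ, eval x P = 0 → ‖x‖ ≤ (N : ℝ) ^ C →
    (∀ G ∈ 𝒢, 1 ≤ ‖eval x G‖ * (N : ℝ) ^ C) → ∀ f : ℂ, f ≠ 0 → ‖f‖ * (N : ℝ) ^ C' ≤ 1 →
    h1 x f Δ ≠ 0 ∧
    (∃ θ : ℂ, (e2 x f χ).eval θ = 0 ∧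
      ∀ j, |Real.log ‖yv Δ A x f θ j‖ - q j * Real.log ‖f‖| ≤ C' * Real.log N) ∧
    (∀ θ : ℂ, (e2 x f χ).eval θ = 0 → ∃ s ∈ S,
      ∀ j, |Real.log ‖yv Δ A x f θ j‖ - s j * Real.log ‖f‖| ≤ C' * Real.log N)

/-- evaluation of `R ∈ ℂ[S][X]` at `S = s`, `X = x` -/
noncomputable def bev (s x : ℂ) (R : Polynomial (Polynomial ℂ)) : ℂ :=
  (R.map (Polynomial.evalRingHom s)).eval x

/-- the partial product `∏_{j < i} x_j ^ (M_j)` -/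
noncomputable def pp {r : ℕ} (M : Fin r → ℕ) (x : Fin r → ℂ) (i : Fin r) : ℂ :=
  ∏ j ∈ Finset.univ.filter (fun j => j < i), x j ^ M j

/-- the full product `∏_j x_j ^ (M_j)` -/
noncomputable def fp {r : ℕ} (M : Fin r → ℕ) (x : Fin r → ℂ) : ℂ := ∏ j, x j ^ M j

/-- `x` solves the tower of relations `R_i(∏_{j < i} x_j ^ (M_j), x_i) = 0`, `i > 0` -/
def Tow {r : ℕ} (M : Fin r → ℕ) (R : Fin r → Polynomial (Polynomial ℂ)) (x : Fin r → ℂ) :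
    Prop :=
  (∀ i, x i ≠ 0) ∧ ∀ i : Fin r, 0 < i.val → bev (pp M x i) (x i) (R i) = 0

/-- degree conditions on a tower of relations -/
def TDeg {r : ℕ} (M : Fin r → ℕ) (D : ℕ) (R : Fin r → Polynomial (Polynomial ℂ)) : Prop :=
  ∀ i : Fin r, 0 < i.val → R i ≠ 0 ∧ (R i).natDegree < M i ∧
    ∀ k, ((R i).coeff k).natDegree ≤ D

/-- a complex algebraic curve, given over the `f`-line outside the zeros of `Δ` by the simple
roots `θ` of a monic family `χ_f` of degree `m`, with nowhere zero coordinates `X_i(f, θ)` which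
solve a tower of relations and satisfy `∏ X_i ^ M_i = f` and relations `G_i(f, X_i) = 0`. -/
structure Crv {r : ℕ} (M : Fin r → ℕ) (D m : ℕ) (Δ : Polynomial ℂ) (χ : ℂ → Polynomial ℂ)
    (X : Fin r → ℂ × ℂ → ℂ) (R G : Fin r → Polynomial (Polynomial ℂ)) : Prop where
  ne : Δ ≠ 0
  deg : Δ.natDegree ≤ D
  monic : ∀ f, (χ f).Monic ∧ (χ f).natDegree = m
  pos : 0 < m
  coeff : ∀ i, Differentiable ℂ (fun f => (χ f).coeff i)
  simple : ∀ f θ : ℂ, Δ.eval f ≠ 0 → (χ f).eval θ = 0 → (χ f).derivative.eval θ ≠ 0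
  diff : ∀ f θ : ℂ, Δ.eval f ≠ 0 → (χ f).eval θ = 0 → ∀ i, DifferentiableAt ℂ (X i) (f, θ)
  tow : ∀ f θ : ℂ, Δ.eval f ≠ 0 → (χ f).eval θ = 0 → Tow M R (fun i => X i (f, θ))
  prod : ∀ f θ : ℂ, Δ.eval f ≠ 0 → (χ f).eval θ = 0 → fp M (fun i => X i (f, θ)) = f
  tdeg : TDeg M D R
  rel : ∀ f θ : ℂ, Δ.eval f ≠ 0 → (χ f).eval θ = 0 → ∀ i, bev f (X i (f, θ)) (G i) = 0
  gdeg : ∀ i, G i ≠ 0 ∧ (G i).natDegree ≤ D ∧ ∀ k, ((G i).coeff k).natDegree ≤ D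

end XV
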