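import Pool.Agent.Lib.MP_228259_lc.V.Defs2

/-!
Definitions for families of polynomials with simple roots over open sets of the complex line, their
branches, locally constant predicates on the roots, and the specialisation at a point.
-/

set_option autoImplicit false

namespace XV

open MvPolynomial Filter Topology

/-- a monic family of degree `m` with holomorphic coefficients and simple roots over `U` -/
structure Fam (χ : ℂ → Polynomial ℂ) (U : Set ℂ) (m : ℕ) : Prop where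
  isOpen : IsOpen U
  monic : ∀ f ∈ U, (χ f).Monic ∧ (χ f).natDegree = m
  coeff : ∀ i, DifferentiableOn ℂ (fun f => (χ f).coeff i) U
  simple : ∀ f ∈ U, ∀ θ : ℂ, (χ f).eval θ = 0 → (χ f).derivative.eval θ ≠ 0

/-- `θ` is a holomorphic root of the family over the ball, which is contained in `U` -/
structure Br (χ : ℂ → Polynomial ℂ) (U : Set ℂ) (z : ℂ) (ρ : ℝ) (θ : ℂ → ℂ) : Prop where
  sub : Metric.ball z ρ ⊆ U
  diff : DifferentiableOn ℂ θ (Metric.ball z ρ)
  root : ∀ f ∈ Metric.ball z ρ, (χ f).eval (θ f) = 0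

/-- the predicate `p` on the roots is constant along holomorphic roots over balls in `U` -/
def LC (χ : ℂ → Polynomial ℂ) (U : Set ℂ) (p : ℂ → ℂ → Prop) : Prop :=
  ∀ (z : ℂ) (ρ : ℝ) (θ : ℂ → ℂ), Br χ U z ρ θ → ∀ f ∈ Metric.ball z ρ,
    ∀ f' ∈ Metric.ball z ρ, p f (θ f) → p f' (θ f')

/-- the function `g` is holomorphic along holomorphic roots over balls in `U` with property `p` -/
def Hol (χ : ℂ → Polynomial ℂ) (U : Set ℂ) (p : ℂ → ℂ → Prop) (g : ℂ → ℂ → ℂ) : Prop :=
  ∀ (z : ℂ) (ρ : ℝ) (θ : ℂ → ℂ), Br χ U z ρ θ → (∀ f ∈ Metric.ball z ρ, p f (θ f)) →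
    DifferentiableOn ℂ (fun f => g f (θ f)) (Metric.ball z ρ)

open scoped Classical in
/-- the roots of `χ f` with property `p` -/
noncomputable def shts (χ : ℂ → Polynomial ℂ) (p : ℂ → ℂ → Prop) (f : ℂ) : Finset ℂ :=
  (χ f).roots.toFinset.filter (p f)

/-- specialisation of `ℂ[x][F][T]` at the point `x` -/
noncomputable def spec {n : ℕ} (x : Fin n → ℂ) (R : R2 n) : Polynomial (Polynomial ℂ) :=
  R.map (Polynomial.mapRingHom (MvPolynomial.eval x))

/-- the partial sum `∑_{j < i} M_j b_j` of integer vectors -/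
noncomputable def bp {n r : ℕ} (M : Fin r → ℕ) (b : Fin r → Fin n → ℤ) (i : Fin r) :
    Fin n → ℤ :=
  ∑ j ∈ Finset.univ.filter (fun j => j < i), (M j : ℤ) • b j

/-- the full sum `∑_j M_j b_j` of integer vectors -/
noncomputable def bf {n r : ℕ} (M : Fin r → ℕ) (b : Fin r → Fin n → ℤ) : Fin n → ℤ :=
  ∑ j, (M j : ℤ) • b j

/-- `μ` is linearly independent over the rational numbers -/
def QInd {r : ℕ} (μ : Fin r → ℝ) : Prop :=
  ∀ s : Fin r → ℚ, ∑ i, μ i * s i = 0 → s = 0

/-- a sequence of curves with the same discrete data, normalised at the base points `(1, θ₀)` -/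
structure NSeq {r : ℕ} (M : Fin r → ℕ) (D m : ℕ) (Δ : ℕ → Polynomial ℂ)
    (χ : ℕ → ℂ → Polynomial ℂ) (X : ℕ → Fin r → ℂ × ℂ → ℂ)
    (R G : ℕ → Fin r → Polynomial (Polynomial ℂ)) (θ₀ : ℕ → ℂ) : Prop where
  crv : ∀ l, Crv M D m (Δ l) (χ l) (X l) (R l) (G l)
  good : ∀ l, (Δ l).eval 1 ≠ 0
  root : ∀ l, (χ l 1).eval (θ₀ l) = 0
  one : ∀ l i, X l i (1, θ₀ l) = 1

end XV
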