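import Pool.Agent.Lib.MP_228259_lc.V.Defs3

/-!
XV-F10 (branch_unique, mem_shts, Crv_fam).

`branch_unique`: the set where `θ₁ = θ₂` is closed in the preconnected `U` and open: at a common value
`θ₁ u₁ = θ₂ u₁ = θ`, write `χ_u(a) - χ_u(b) = (a - b) Q_u(a, b)` with `Q_u(a, b)` a polynomial in `a, b`
and the coefficients of `χ_u`, `Q_{u₁}(θ, θ) = χ_{u₁}'(θ) ≠ 0`; by continuity `Q_u(θ₁ u, θ₂ u) ≠ 0` near
`u₁`, so `θ₁ = θ₂` there. (`Polynomial.sub_dvd_eval_sub`, or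
`Polynomial.evalSubFactor`: `Polynomial.eval_sub_factor`-type identities; or the explicit
`∑_i c_i ∑_{j < i} a^j b^(i-1-j)`.)

`mem_shts`: definition, `χ f ≠ 0` because it is monic.

`Crv_fam`: the fields of `Crv`; `{f | Δ.eval f ≠ 0}` is open and its complement is finite.
-/

set_option autoImplicit false

namespace XV

open MvPolynomial Filter Topology

/-- the divided difference -/
private noncomputable def F10_Q (m : ℕ) (p : Polynomial ℂ) (a b : ℂ) : ℂ :=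
  ∑ i ∈ Finset.range (m + 1), p.coeff i * ∑ j ∈ Finset.range i, a ^ j * b ^ (i - 1 - j)

private theorem F10_Q_mul {m : ℕ} {p : Polynomial ℂ} (hp : p.natDegree ≤ m) (a b : ℂ) :
    F10_Q m p a b * (a - b) = p.eval a - p.eval b := by
  rw [Polynomial.eval_eq_sum_range' (Nat.lt_succ_of_le hp) a,
    Polynomial.eval_eq_sum_range' (Nat.lt_succ_of_le hp) b, ← Finset.sum_sub_distrib]
  unfold F10_Q
  rw [Finset.sum_mul]
  refine Finset.sum_congr rfl fun i _ => ?_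
  rw [mul_assoc, geom_sum₂_mul]
  ring

private theorem F10_Q_self {m : ℕ} {p : Polynomial ℂ} (hp : p.natDegree ≤ m) (a : ℂ) :
    F10_Q m p a a = p.derivative.eval a := by
  rw [Polynomial.derivative_eval]
  rw [Polynomial.sum_over_range' p (fun n => by simp) (m + 1) (Nat.lt_succ_of_le hp)]
  unfold F10_Q
  refine Finset.sum_congr rfl fun i _ => ?_
  rw [geom_sum₂_self]
  ring

theorem branch_unique {E : Type*} [NormedAddCommGroup E] [NormedSpace ℂ E] {U : Set E}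
    (hU : IsPreconnected U) (χ : E → Polynomial ℂ) (m : ℕ)
    (hm : ∀ u ∈ U, (χ u).natDegree ≤ m)
    (hd : ∀ i, ContinuousOn (fun u => (χ u).coeff i) U)
    (hs : ∀ u ∈ U, ∀ θ : ℂ, (χ u).eval θ = 0 → (χ u).derivative.eval θ ≠ 0)
    (θ₁ θ₂ : E → ℂ) (h1 : ContinuousOn θ₁ U) (h2 : ContinuousOn θ₂ U)
    (hr1 : ∀ u ∈ U, (χ u).eval (θ₁ u) = 0) (hr2 : ∀ u ∈ U, (χ u).eval (θ₂ u) = 0)
    {u₀ : E} (hu₀ : u₀ ∈ U) (h0 : θ₁ u₀ = θ₂ u₀) : ∀ u ∈ U, θ₁ u = θ₂ u := by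
  have hP : PreconnectedSpace U := isPreconnected_iff_preconnectedSpace.1 hU
  have g1 : Continuous (fun u : U => θ₁ u) := continuousOn_iff_continuous_domRestrict.1 h1
  have g2 : Continuous (fun u : U => θ₂ u) := continuousOn_iff_continuous_domRestrict.1 h2
  have gc : ∀ i, Continuous (fun u : U => (χ u).coeff i) := fun i =>
    continuousOn_iff_continuous_domRestrict.1 (hd i)
  have gQ : Continuous (fun u : U => F10_Q m (χ u) (θ₁ u) (θ₂ u)) := by
    unfold F10_Q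
    refine continuous_finsetSum _ fun i _ => (gc i).mul ?_
    exact continuous_finsetSum _ fun j _ => (g1.pow _).mul (g2.pow _)
  set T : Set U := {u | θ₁ u = θ₂ u} with hT
  have hTc : IsClosed T := isClosed_eq g1 g2
  have hTo : IsOpen T := by
    rw [isOpen_iff_mem_nhds]
    intro u₁ hu₁
    have hne : F10_Q m (χ u₁) (θ₁ u₁) (θ₂ u₁) ≠ 0 := by
      have e : θ₁ u₁ = θ₂ u₁ := hu₁
      rw [← e, F10_Q_self (hm u₁ u₁.2)]
      exact hs u₁ u₁.2 _ (hr1 u₁ u₁.2)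
    have hev : ∀ᶠ u : U in 𝓝 u₁, F10_Q m (χ u) (θ₁ u) (θ₂ u) ≠ 0 :=
      gQ.continuousAt.eventually_ne hne
    filter_upwards [hev] with u hu
    have h3 := F10_Q_mul (hm u u.2) (θ₁ u) (θ₂ u)
    rw [hr1 u u.2, hr2 u u.2, sub_zero] at h3
    rcases mul_eq_zero.1 h3 with h4 | h4
    · exact absurd h4 hu
    · exact sub_eq_zero.1 h4
  have hne : T.Nonempty := ⟨⟨u₀, hu₀⟩, h0⟩
  have huniv : T = Set.univ := IsClopen.eq_univ ⟨hTc, hTo⟩ hne
  intro u hu
  have h3 : (⟨u, hu⟩ : U) ∈ T := by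
    rw [huniv]
    exact Set.mem_univ _
  exact h3

theorem mem_shts {χ : ℂ → Polynomial ℂ} {p : ℂ → ℂ → Prop} {f : ℂ} (hf : (χ f).Monic) (θ : ℂ) :
    θ ∈ shts χ p f ↔ (χ f).eval θ = 0 ∧ p f θ := by
  classical
  unfold shts
  rw [Finset.mem_filter, Multiset.mem_toFinset, Polynomial.mem_roots hf.ne_zero]
  rfl

theorem card_shts {χ : ℂ → Polynomial ℂ} (p : ℂ → ℂ → Prop) {f : ℂ} {m : ℕ}
    (hf : (χ f).natDegree = m) : (shts χ p f).card ≤ m := by
  classical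
  unfold shts
  refine (Finset.card_filter_le _ _).trans ((Multiset.toFinset_card_le _).trans ?_)
  rw [← hf]
  exact Polynomial.card_roots' _

theorem Crv_fam {r : ℕ} {M : Fin r → ℕ} {D m : ℕ} {Δ : Polynomial ℂ} {χ : ℂ → Polynomial ℂ}
    {X : Fin r → ℂ × ℂ → ℂ} {R G : Fin r → Polynomial (Polynomial ℂ)}
    (hC : Crv M D m Δ χ X R G) {U : Set ℂ} (hU : IsOpen U) (hUg : ∀ f ∈ U, Δ.eval f ≠ 0) :
    Fam χ U m ∧ {f : ℂ | Δ.eval f = 0}.Finite := by
  refine ⟨⟨hU, fun f _ => hC.monic f, fun i => (hC.coeff i).differentiableOn,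
    fun f hf θ hθ => hC.simple f θ (hUg f hf) hθ⟩, ?_⟩
  exact Polynomial.finite_setOfPred_isRoot hC.ne

/-- the coordinates along a holomorphic root are holomorphic and nowhere zero -/
theorem Crv_hol {r : ℕ} {M : Fin r → ℕ} {D m : ℕ} {Δ : Polynomial ℂ} {χ : ℂ → Polynomial ℂ}
    {X : Fin r → ℂ × ℂ → ℂ} {R G : Fin r → Polynomial (Polynomial ℂ)}
    (hC : Crv M D m Δ χ X R G) {U : Set ℂ} (hUg : ∀ f ∈ U, Δ.eval f ≠ 0) {z : ℂ} {ρ : ℝ}
    {θ : ℂ → ℂ} (hB : Br χ U z ρ θ) (i : Fin r) :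
    DifferentiableOn ℂ (fun f => X i (f, θ f)) (Metric.ball z ρ) ∧
      ∀ f ∈ Metric.ball z ρ, X i (f, θ f) ≠ 0 := by
  constructor
  · intro f hf
    have h1 : DifferentiableAt ℂ (X i) (f, θ f) :=
      hC.diff f (θ f) (hUg f (hB.sub hf)) (hB.root f hf) i
    have h2 : DifferentiableAt ℂ θ f :=
      (hB.diff f hf).differentiableAt (Metric.isOpen_ball.mem_nhds hf)
    have h3 : DifferentiableAt ℂ (fun f => (f, θ f)) f := differentiableAt_id.prodMk h2
    have h4 : DifferentiableAt ℂ (fun f => X i (f, θ f)) f :=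
      DifferentiableAt.comp f h1 h3
    exact h4.differentiableWithinAt
  · intro f hf
    exact (hC.tow f (θ f) (hUg f (hB.sub hf)) (hB.root f hf)).1 i

end XV
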