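import Mathlib

/-!
XV-F3 (bc_lip). A holomorphic function with bounded real part on a ball is Lipschitz on the ball of
a quarter of the radius.

Proof. For `u ≠ u'` in the small ball put `δ = ‖u' - u‖ < R / 2` and
`g t = L (u + t • (u' - u)) - L u` on the disc `‖t‖ < ρ = (3 R / 4) / δ` (inside the big ball;
`ρ ≥ 3 / 2`). `Re g ≤ 2 M`, `g 0 = 0`: `Complex.borelCaratheodory_zero` at `t = 1` gives
`‖L u' - L u‖ ≤ 2 (2 M) / (ρ - 1) ≤ 12 M / ρ = 16 M δ / R` (`ρ - 1 ≥ ρ / 3`).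
-/

set_option autoImplicit false

namespace XV

open Metric

theorem bc_lip {E : Type*} [NormedAddCommGroup E] [NormedSpace ℂ E] {c : E} {R M : ℝ}
    (hR : 0 < R) (hM : 0 < M) (L : E → ℂ) (hL : DifferentiableOn ℂ L (Metric.ball c R))
    (hb : ∀ u ∈ Metric.ball c R, |(L u).re| ≤ M) {u u' : E} (hu : u ∈ Metric.ball c (R / 4))
    (hu' : u' ∈ Metric.ball c (R / 4)) : ‖L u - L u'‖ ≤ 16 * M / R * ‖u - u'‖ := by
  rw [norm_sub_rev (L u), norm_sub_rev u]
  rcases eq_or_ne u' u with rfl | hne'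
  · simp
  have hpos : 0 < ‖u' - u‖ := norm_pos_iff.2 (sub_ne_zero.2 hne')
  have hdist : ‖u' - u‖ < R / 2 := by
    have h1 : ‖u' - u‖ ≤ ‖u' - c‖ + ‖u - c‖ := by
      have : u' - u = (u' - c) - (u - c) := by abel
      rw [this]; exact norm_sub_le _ _
    rw [mem_ball_iff_norm] at hu hu'
    linarith
  set ρ : ℝ := 3 * R / 4 / ‖u' - u‖ with hρ
  have hρ2 : 3 / 2 < ρ := by
    rw [hρ, lt_div_iff₀ hpos]
    linarith
  have hmem : ∀ s ∈ ball (0 : ℂ) ρ, u + s • (u' - u) ∈ ball c R := by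
    intro s hs
    rw [mem_ball_zero_iff] at hs
    rw [mem_ball_iff_norm]
    have h1 : ‖s • (u' - u)‖ < 3 * R / 4 := by
      rw [norm_smul]
      calc ‖s‖ * ‖u' - u‖ < ρ * ‖u' - u‖ := by gcongr
        _ = 3 * R / 4 := by rw [hρ]; field_simp
    rw [mem_ball_iff_norm] at hu
    calc ‖u + s • (u' - u) - c‖ = ‖(u - c) + s • (u' - u)‖ := by congr 1; abel
      _ ≤ ‖u - c‖ + ‖s • (u' - u)‖ := norm_add_le _ _
      _ < R := by linarith
  let F : ℂ → ℂ := fun s => L (u + s • (u' - u)) - L u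
  have hF : DifferentiableOn ℂ F (ball 0 ρ) := by
    refine DifferentiableOn.sub_const ?_ _
    refine hL.comp ?_ hmem
    fun_prop
  have huR : u ∈ ball c R := ball_subset_ball (by linarith) hu
  have hFM : Set.MapsTo F (ball 0 ρ) {z | z.re ≤ 2 * M} := by
    intro s hs
    have h1 := abs_le.1 (hb _ (hmem s hs))
    have h2 := abs_le.1 (hb u huR)
    change (L (u + s • (u' - u)) - L u).re ≤ 2 * M
    rw [Complex.sub_re]
    linarith [h1.2, h2.1]
  have h1 := Complex.borelCaratheodory_zero (by linarith : (0 : ℝ) < 2 * M) hF hFM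
    (by linarith : 0 < ρ) (z := 1) (by rw [mem_ball_zero_iff, norm_one]; linarith)
    (by simp [F])
  have h2 : F 1 = L u' - L u := by simp [F]
  rw [h2, norm_one] at h1
  refine h1.trans ?_
  have h3 : ρ / 3 ≤ ρ - 1 := by linarith
  calc 2 * (2 * M) * 1 / (ρ - 1) ≤ 2 * (2 * M) * 1 / (ρ / 3) := by gcongr
    _ = 16 * M / R * ‖u' - u‖ := by rw [hρ]; field_simp; ring

end XV
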