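import Pool.Agent.Lib.MP_228259_lc.V.Defs2
import Pool.Agent.Lib.MP_228259_lc.P2c

/-!
XV-F5 (regular_dir). A polynomial whose top form does not vanish at `A` is at least `c N ^ deg` near
the ray through `A`.

Proof. `u = N (A + e)`, `‖e‖ ≤ 2 / √N → 0`. `eval (N • y) D / N ^ deg → eval A (top form)` jointly in
`(N, y) → (∞, A)`: this is `XW.lemmaTop` (file P2c) applied to the filter
`atTop ×ˢ 𝓝 A` (index `(N, y)`), then take `c = ‖top form at A‖ / 2` and use
`Filter.eventually_prod_iff` / `tendsto` of `2 / √N` to get the uniform statement.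
-/

set_option autoImplicit false

namespace XV

open MvPolynomial Filter Topology

theorem regular_dir {n : ℕ} (D : MvPolynomial (Fin n) ℂ) (A : Fin n → ℂ)
    (hA : eval A (homogeneousComponent D.totalDegree D) ≠ 0) :
    ∃ c : ℝ, 0 < c ∧ ∀ᶠ N : ℕ in atTop, ∀ u : Fin n → ℂ,
      ‖u - (N : ℂ) • A‖ ≤ 2 * Real.sqrt N → c * (N : ℝ) ^ D.totalDegree ≤ ‖eval u D‖ := by
  have hpos : 0 < ‖eval A (homogeneousComponent D.totalDegree D)‖ := norm_pos_iff.2 hA
  refine ⟨‖eval A (homogeneousComponent D.totalDegree D)‖ / 2, by positivity, ?_⟩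
  have h1 := XW.lemmaTop (l := (atTop : Filter ℕ) ×ˢ 𝓝 A) D (fun i => (i.1 : ℂ)) (fun i => i.2) A
    (by
      have h2 : Tendsto (fun i : ℕ × (Fin n → ℂ) => (i.1 : ℝ)) ((atTop : Filter ℕ) ×ˢ 𝓝 A) atTop :=
        tendsto_natCast_atTop_atTop.comp tendsto_fst
      refine h2.congr (fun i => ?_)
      rw [Complex.norm_natCast]) tendsto_snd
  have h2 := h1.norm
  have h3 : ∀ᶠ i : ℕ × (Fin n → ℂ) in (atTop : Filter ℕ) ×ˢ 𝓝 A,
      ‖eval A (homogeneousComponent D.totalDegree D)‖ / 2 <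
        ‖eval ((i.1 : ℂ) • i.2) D / (i.1 : ℂ) ^ D.totalDegree‖ :=
    h2.eventually (lt_mem_nhds (by linarith))
  rw [Filter.eventually_prod_iff] at h3
  obtain ⟨pa, hpa, pb, hpb, hab⟩ := h3
  rw [Metric.eventually_nhds_iff] at hpb
  obtain ⟨ε, hε, hball⟩ := hpb
  have h4 : Tendsto (fun N : ℕ => 2 * Real.sqrt N / N) atTop (𝓝 0) := by
    have h5 : Tendsto (fun N : ℕ => 2 * (Real.sqrt N)⁻¹) atTop (𝓝 (2 * 0)) := by
      refine Tendsto.const_mul _ ?_
      exact tendsto_inv_atTop_zero.comp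
        (Real.tendsto_sqrt_atTop.comp tendsto_natCast_atTop_atTop)
    rw [mul_zero] at h5
    refine h5.congr' ?_
    filter_upwards [eventually_gt_atTop 0] with N hN
    have hN' : (0 : ℝ) < N := by exact_mod_cast hN
    have hs : 0 < Real.sqrt N := Real.sqrt_pos.2 hN'
    have h6 : Real.sqrt N * Real.sqrt N = N := Real.mul_self_sqrt hN'.le
    rw [eq_div_iff hN'.ne']
    rw [mul_assoc]
    congr 1
    rw [inv_mul_eq_iff_eq_mul₀ hs.ne']
    exact h6.symm
  have h5 : ∀ᶠ N : ℕ in atTop, 2 * Real.sqrt N / N < ε := h4.eventually (gt_mem_nhds hε)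
  filter_upwards [hpa, h5, eventually_gt_atTop 0] with N hN1 hN2 hN3 u hu
  have hN' : (0 : ℝ) < N := by exact_mod_cast hN3
  have hNc : (N : ℂ) ≠ 0 := by exact_mod_cast hN3.ne'
  have hdist : dist ((N : ℂ)⁻¹ • u) A < ε := by
    have h6 : (N : ℂ)⁻¹ • u - A = (N : ℂ)⁻¹ • (u - (N : ℂ) • A) := by
      rw [smul_sub, smul_smul, inv_mul_cancel₀ hNc, one_smul]
    rw [dist_eq_norm, h6, norm_smul, norm_inv, Complex.norm_natCast]
    calc (N : ℝ)⁻¹ * ‖u - (N : ℂ) • A‖ ≤ (N : ℝ)⁻¹ * (2 * Real.sqrt N) :=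
          mul_le_mul_of_nonneg_left hu (by positivity)
      _ = 2 * Real.sqrt N / N := by rw [div_eq_inv_mul]
      _ < ε := hN2
  have h7 := hab hN1 (hball hdist)
  simp only at h7
  rw [smul_smul, mul_inv_cancel₀ hNc, one_smul, norm_div, norm_pow, Complex.norm_natCast,
    lt_div_iff₀ (by positivity)] at h7
  exact h7.le

/-- special case of the centre `2 π i N κ` -/
theorem regular_ctr {n : ℕ} (D : MvPolynomial (Fin n) ℂ) (κ : Fin n → ℝ)
    (hA : eval (XW.rc κ) (homogeneousComponent D.totalDegree D) ≠ 0) :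
    ∃ c : ℝ, 0 < c ∧ ∀ᶠ N : ℕ in atTop, ∀ u : Fin n → ℂ,
      ‖u - ctr κ N‖ ≤ 2 * Real.sqrt N → c ≤ ‖eval u D‖ := by
  have hz : (2 * (Real.pi : ℂ) * Complex.I) ≠ 0 := Complex.two_pi_I_ne_zero
  have hhom : (homogeneousComponent D.totalDegree D).IsHomogeneous D.totalDegree :=
    homogeneousComponent_isHomogeneous _ _
  have hev : eval ((2 * (Real.pi : ℂ) * Complex.I) • XW.rc κ)
      (homogeneousComponent D.totalDegree D) ≠ 0 := by
    have h1 : eval ((2 * (Real.pi : ℂ) * Complex.I) • XW.rc κ)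
        (homogeneousComponent D.totalDegree D) =
        (2 * (Real.pi : ℂ) * Complex.I) ^ D.totalDegree *
          eval (XW.rc κ) (homogeneousComponent D.totalDegree D) :=
      XW.P2c_eval_smul hhom _ _
    rw [h1]
    exact mul_ne_zero (pow_ne_zero _ hz) hA
  obtain ⟨c, hc, h⟩ := regular_dir D ((2 * (Real.pi : ℂ) * Complex.I) • XW.rc κ) hev
  refine ⟨c, hc, ?_⟩
  filter_upwards [h, eventually_ge_atTop 1] with N hN hN1 u hu
  have hctr : ctr κ N = (N : ℂ) • ((2 * (Real.pi : ℂ) * Complex.I) • XW.rc κ) := by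
    funext j
    simp only [ctr, XW.rc, Pi.smul_apply, smul_eq_mul]
    ring
  rw [hctr] at hu
  refine le_trans ?_ (hN u hu)
  have hN' : (1 : ℝ) ≤ N := by exact_mod_cast hN1
  exact le_mul_of_one_le_right hc.le (one_le_pow₀ hN')

end XV
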