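import Pool.Agent.Lib.MP_228259_lc.V.F6
import Pool.Agent.Lib.MP_228259_lc.P3b

/-!
XV-N0 (exists_point). A point of the irreducible hypersurface `P = 0` outside finitely many others.

Proof. The product `G'` of the `G ∈ 𝒢` is not divisible by the prime `P`. If `G'` vanished on the zero
set of `P`, then by the Nullstellensatz (`MvPolynomial.vanishingIdeal_zeroLocus_eq_radical`, the ideal
`(P)` is prime, hence radical) `P ∣ G'`. (`XW.vanish_mem`, file F2b, is such a statement.)
-/

set_option autoImplicit false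

namespace XV

open MvPolynomial Filter Topology

theorem exists_point {n : ℕ} (P : MvPolynomial (Fin n) ℂ) (hP : Irreducible P)
    (𝒢 : Finset (MvPolynomial (Fin n) ℂ)) (h𝒢 : ∀ G ∈ 𝒢, ¬ P ∣ G) :
    ∃ x : Fin n → ℂ, eval x P = 0 ∧ ∀ G ∈ 𝒢, eval x G ≠ 0 := by
  classical
  have hp : Prime P := hP.prime
  by_contra hcon
  push Not at hcon
  have e : ∀ (x : Fin n → ℂ) (q : MvPolynomial (Fin n) ℂ), aeval x q = eval x q := fun x q => by
    rw [← coe_aeval_eq_eval]
    rfl
  have hI : (Ideal.span {P} : Ideal (MvPolynomial (Fin n) ℂ)).IsPrime :=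
    (Ideal.span_singleton_prime hp.ne_zero).2 hp
  have h1 : (∏ G ∈ 𝒢, G) ∈ vanishingIdeal ℂ
      (zeroLocus ℂ (Ideal.span {P} : Ideal (MvPolynomial (Fin n) ℂ))) := by
    rw [mem_vanishingIdeal_iff]
    intro x hx
    rw [mem_zeroLocus_iff] at hx
    have hx1 : eval x P = 0 := by
      rw [← e]
      exact hx P (Ideal.mem_span_singleton_self P)
    obtain ⟨G, hG, hG0⟩ := hcon x hx1
    rw [e, map_prod]
    exact Finset.prod_eq_zero hG hG0
  rw [vanishingIdeal_zeroLocus_eq_radical, hI.radical, Ideal.mem_span_singleton] at h1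
  obtain ⟨G, hG, hd⟩ := (hp.dvd_finsetProd_iff (fun G => G)).1 h1
  exact h𝒢 G hG hd


end XV
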