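import Mathlib

/-!
XV-N1. Two numerical lemmas.

`two_largest`: if a finite sum of complex numbers vanishes then its two largest terms are comparable.
Proof: `s` = index of a term of maximal norm (nonzero), `s'` = index of maximal norm among the others;
`‖m s‖ = ‖∑_{t ≠ s} m t‖ ≤ card * ‖m s'‖`.

`root_size`: if all roots of `Q` (degree `r`) are smaller than `t / K` or larger than `t K`, one
coefficient dominates at the radius `t`. Proof: `Q = lead * ∏ (T - T_s)` (`ℂ` algebraically closed: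
`IsAlgClosed.splits`, `Polynomial.eq_prod_roots_of_splits_id`), `Q(t X) = lead t^r ∏ (X - τ_s)` with
`‖τ_s‖ ≤ 1 / K` or `≥ K`; divide by the large `-τ_s`: the product of factors `X - τ` (small) and
`1 - X / τ` (large) is `X ^ j +` (a polynomial all of whose coefficients are at most `(2^r - 1) / K`),
`j` = number of small roots (induction over the roots: the claim
`B = X ^ j + E`, sum of the norms of the coefficients of `E` at most `((1 + 1/K) ^ r - 1)`, or
`(2 ^ r - 1) / K`). For `K ≥ 2 ^ (r + 1)` the coefficient at `j` has norm at least `1 / 2`.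
-/

set_option autoImplicit false

namespace XV

theorem two_largest {ι : Type*} [DecidableEq ι] (S : Finset ι) (m : ι → ℂ)
    (h : ∑ s ∈ S, m s = 0) (hne : ∃ s ∈ S, m s ≠ 0) :
    ∃ s ∈ S, ∃ s' ∈ S, s ≠ s' ∧ m s ≠ 0 ∧ m s' ≠ 0 ∧ ‖m s‖ ≤ S.card * ‖m s'‖ ∧
      ‖m s'‖ ≤ ‖m s‖ ∧ ∀ t ∈ S, ‖m t‖ ≤ ‖m s‖ := by
  obtain ⟨s₀, hs₀, hm₀⟩ := hne
  obtain ⟨s, hs, hmax⟩ := Finset.exists_max_image S (fun s => ‖m s‖) ⟨s₀, hs₀⟩
  have hms : 0 < ‖m s‖ := lt_of_lt_of_le (norm_pos_iff.2 hm₀) (hmax s₀ hs₀)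
  have hsum : m s = -∑ t ∈ S.erase s, m t := by
    rw [← Finset.add_sum_erase S m hs] at h
    exact eq_neg_of_add_eq_zero_left h
  have hne' : (S.erase s).Nonempty := by
    by_contra hem
    rw [Finset.not_nonempty_iff_eq_empty] at hem
    rw [hem, Finset.sum_empty, neg_zero] at hsum
    rw [hsum, norm_zero] at hms
    exact lt_irrefl _ hms
  obtain ⟨s', hs', hmax'⟩ := Finset.exists_max_image (S.erase s) (fun s => ‖m s‖) hne'
  have hle : ‖m s‖ ≤ S.card * ‖m s'‖ := by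
    calc ‖m s‖ = ‖∑ t ∈ S.erase s, m t‖ := by rw [hsum, norm_neg]
      _ ≤ ∑ t ∈ S.erase s, ‖m t‖ := norm_sum_le _ _
      _ ≤ ∑ t ∈ S.erase s, ‖m s'‖ := Finset.sum_le_sum fun t ht => hmax' t ht
      _ = ((S.erase s).card : ℝ) * ‖m s'‖ := by rw [Finset.sum_const, nsmul_eq_mul]
      _ ≤ S.card * ‖m s'‖ := by
          refine mul_le_mul_of_nonneg_right ?_ (norm_nonneg _)
          exact_mod_cast Finset.card_le_card (Finset.erase_subset s S)
  refine ⟨s, hs, s', Finset.mem_of_mem_erase hs', (Finset.ne_of_mem_erase hs').symm,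
    norm_pos_iff.1 hms, ?_, hle, hmax s' (Finset.mem_of_mem_erase hs'), hmax⟩
  intro h0
  rw [h0, norm_zero, mul_zero] at hle
  exact absurd hms (not_lt.2 hle)

/-- the sum of the absolute values of the terms at the radius `t` -/
noncomputable def N1_N (t : ℝ) (E : Polynomial ℂ) : ℝ := ∑ i ∈ E.support, ‖E.coeff i‖ * t ^ i

theorem N1_eq (t : ℝ) (E : Polynomial ℂ) (D : ℕ) (hD : E.natDegree < D) :
    N1_N t E = ∑ i ∈ Finset.range D, ‖E.coeff i‖ * t ^ i := by
  unfold N1_N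
  refine Finset.sum_subset (fun i hi => ?_) (fun i _ hi => ?_)
  · rw [Finset.mem_range]
    exact lt_of_le_of_lt (Polynomial.le_natDegree_of_mem_supp i hi) hD
  · rw [Polynomial.notMem_support_iff] at hi
    rw [hi, norm_zero, zero_mul]

theorem N1_add (t : ℝ) (ht : 0 ≤ t) (E F : Polynomial ℂ) : N1_N t (E + F) ≤ N1_N t E + N1_N t F := by
  set D := max E.natDegree F.natDegree + 1 with hD
  have h1 : E.natDegree < D := by omega
  have h2 : F.natDegree < D := by omega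
  have h3 : (E + F).natDegree < D := lt_of_le_of_lt (Polynomial.natDegree_add_le E F) (by omega)
  rw [N1_eq t _ D h1, N1_eq t _ D h2, N1_eq t _ D h3, ← Finset.sum_add_distrib]
  refine Finset.sum_le_sum fun i _ => ?_
  rw [← add_mul, Polynomial.coeff_add]
  exact mul_le_mul_of_nonneg_right (norm_add_le _ _) (pow_nonneg ht i)

theorem N1_C_mul (t : ℝ) (T : ℂ) (E : Polynomial ℂ) :
    N1_N t (Polynomial.C T * E) = ‖T‖ * N1_N t E := by
  set D := E.natDegree + 1 with hD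
  have h1 : E.natDegree < D := by omega
  have h3 : (Polynomial.C T * E).natDegree < D :=
    lt_of_le_of_lt (Polynomial.natDegree_C_mul_le T E) (by omega)
  rw [N1_eq t _ D h1, N1_eq t _ D h3, Finset.mul_sum]
  refine Finset.sum_congr rfl fun i _ => ?_
  rw [Polynomial.coeff_C_mul, norm_mul, mul_assoc]

theorem N1_mul_X (t : ℝ) (E : Polynomial ℂ) :
    N1_N t (E * Polynomial.X) = t * N1_N t E := by
  set D := E.natDegree + 1 with hD
  have h1 : E.natDegree < D := by omega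
  have h3 : (E * Polynomial.X).natDegree < D + 1 := by
    refine lt_of_le_of_lt (Polynomial.natDegree_mul_le) ?_
    rw [Polynomial.natDegree_X]
    omega
  rw [N1_eq t _ D h1, N1_eq t _ (D + 1) h3, Finset.sum_range_succ', Polynomial.coeff_mul_X_zero,
    norm_zero, zero_mul, add_zero, Finset.mul_sum]
  refine Finset.sum_congr rfl fun i _ => ?_
  rw [Polynomial.coeff_mul_X, pow_succ]
  ring

theorem N1_mono (t : ℝ) (c : ℂ) (j : ℕ) :
    N1_N t (Polynomial.C c * Polynomial.X ^ j) = ‖c‖ * t ^ j := by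
  rw [N1_C_mul]
  congr 1
  unfold N1_N
  rw [Polynomial.support_X_pow, Finset.sum_singleton, Polynomial.coeff_X_pow, if_pos rfl, norm_one,
    one_mul]

theorem N1_nonneg (t : ℝ) (ht : 0 ≤ t) (E : Polynomial ℂ) : 0 ≤ N1_N t E :=
  Finset.sum_nonneg fun i _ => mul_nonneg (norm_nonneg _) (pow_nonneg ht i)

theorem N1_coeff (t : ℝ) (ht : 0 ≤ t) (E : Polynomial ℂ) (i : ℕ) :
    ‖E.coeff i‖ * t ^ i ≤ N1_N t E := by
  by_cases hi : i ∈ E.support
  · exact Finset.single_le_sum (f := fun i => ‖E.coeff i‖ * t ^ i)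
      (fun i _ => mul_nonneg (norm_nonneg _) (pow_nonneg ht i)) hi
  · rw [Polynomial.notMem_support_iff] at hi
    rw [hi, norm_zero, zero_mul]
    exact N1_nonneg t ht E

theorem N1_aux (t K : ℝ) (ht : 0 < t) (hK : 0 < K) (s : Multiset ℂ) :
    (∀ T ∈ s, ‖T‖ ≤ t / K ∨ t * K ≤ ‖T‖) →
    ∃ j ≤ Multiset.card s, ∃ c : ℂ, c ≠ 0 ∧ ∃ E : Polynomial ℂ,
      (s.map fun a => Polynomial.X - Polynomial.C a).prod =
        Polynomial.C c * Polynomial.X ^ j + E ∧
      N1_N t E ≤ ((1 + 1 / K) ^ (Multiset.card s) - 1) * (‖c‖ * t ^ j) := by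
  induction s using Multiset.induction_on with
  | empty =>
    intro _
    refine ⟨0, le_rfl, 1, one_ne_zero, 0, by simp, ?_⟩
    simp [N1_N]
  | cons T s ih =>
    intro hs
    obtain ⟨j, hj, c, hc, E, hE, hN⟩ := ih fun a ha => hs a (Multiset.mem_cons_of_mem ha)
    have hcn : 0 < ‖c‖ := norm_pos_iff.2 hc
    rw [Multiset.card_cons, Multiset.map_cons, Multiset.prod_cons, hE]
    set r := Multiset.card s with hr
    set δ := (1 + 1 / K) ^ r - 1 with hδ
    have hδ' : (1 + 1 / K) ^ (r + 1) - 1 = δ + (1 / K) * (1 + δ) := by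
      rw [hδ, pow_succ]; ring
    have hN0 : 0 ≤ N1_N t E := N1_nonneg t ht.le E
    rw [hδ']
    have htj : 0 < t ^ j := pow_pos ht j
    have hCT : N1_N t (Polynomial.C (-T) * E) = ‖T‖ * N1_N t E := by rw [N1_C_mul, norm_neg]
    rcases hs T (Multiset.mem_cons_self T s) with hT | hT
    · refine ⟨j + 1, by omega, c, hc,
        E * Polynomial.X + (Polynomial.C (-(T * c)) * Polynomial.X ^ j + Polynomial.C (-T) * E),
        ?_, ?_⟩
      · simp only [Polynomial.C_neg, Polynomial.C_mul]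
        ring
      · have h1 := N1_add t ht.le (E * Polynomial.X)
          (Polynomial.C (-(T * c)) * Polynomial.X ^ j + Polynomial.C (-T) * E)
        have h2 := N1_add t ht.le (Polynomial.C (-(T * c)) * Polynomial.X ^ j)
          (Polynomial.C (-T) * E)
        rw [N1_mul_X] at h1
        rw [N1_mono, hCT, norm_neg, norm_mul] at h2
        have h3 : ‖T‖ * (‖c‖ * t ^ j + N1_N t E) ≤ (t / K) * (‖c‖ * t ^ j + N1_N t E) :=
          mul_le_mul_of_nonneg_right hT (by positivity)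
        have h4 : (t / K) * (‖c‖ * t ^ j + N1_N t E) ≤
            (t / K) * (‖c‖ * t ^ j + δ * (‖c‖ * t ^ j)) :=
          mul_le_mul_of_nonneg_left (by linarith) (by positivity)
        have h5 : t * N1_N t E ≤ t * (δ * (‖c‖ * t ^ j)) := mul_le_mul_of_nonneg_left hN ht.le
        have h6 : (δ + 1 / K * (1 + δ)) * (‖c‖ * t ^ (j + 1)) =
            t * (δ * (‖c‖ * t ^ j)) + (t / K) * (‖c‖ * t ^ j + δ * (‖c‖ * t ^ j)) := by
          rw [pow_succ]; field_simp
        rw [h6]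
        nlinarith
    · have hTp : 0 < ‖T‖ := lt_of_lt_of_le (mul_pos ht hK) hT
      refine ⟨j, by omega, -(T * c), neg_ne_zero.2 (mul_ne_zero (norm_pos_iff.1 hTp) hc),
        Polynomial.C c * Polynomial.X ^ (j + 1) + (E * Polynomial.X + Polynomial.C (-T) * E),
        ?_, ?_⟩
      · simp only [Polynomial.C_neg, Polynomial.C_mul]
        ring
      · have h1 := N1_add t ht.le (Polynomial.C c * Polynomial.X ^ (j + 1))
          (E * Polynomial.X + Polynomial.C (-T) * E)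
        have h2 := N1_add t ht.le (E * Polynomial.X) (Polynomial.C (-T) * E)
        rw [N1_mono] at h1
        rw [N1_mul_X, hCT] at h2
        rw [norm_neg, norm_mul]
        have htT : t ≤ ‖T‖ / K := by rwa [le_div_iff₀ hK]
        have h3 : t * (‖c‖ * t ^ j + N1_N t E) ≤ ‖T‖ / K * (‖c‖ * t ^ j + N1_N t E) :=
          mul_le_mul_of_nonneg_right htT (by positivity)
        have h4 : ‖T‖ / K * (‖c‖ * t ^ j + N1_N t E) ≤
            ‖T‖ / K * (‖c‖ * t ^ j + δ * (‖c‖ * t ^ j)) :=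
          mul_le_mul_of_nonneg_left (by linarith) (by positivity)
        have h5 : ‖T‖ * N1_N t E ≤ ‖T‖ * (δ * (‖c‖ * t ^ j)) :=
          mul_le_mul_of_nonneg_left hN hTp.le
        have h6 : (δ + 1 / K * (1 + δ)) * (‖T‖ * ‖c‖ * t ^ j) =
            ‖T‖ * (δ * (‖c‖ * t ^ j)) + ‖T‖ / K * (‖c‖ * t ^ j + δ * (‖c‖ * t ^ j)) := by
          field_simp
        have h7 : ‖c‖ * t ^ (j + 1) = t * (‖c‖ * t ^ j) := by rw [pow_succ]; ring
        rw [h6]
        nlinarith

theorem N1_pow (K : ℝ) (hK : 1 ≤ K) (r : ℕ) : (1 + 1 / K) ^ r - 1 ≤ (2 ^ r - 1) / K := by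
  have hK0 : 0 < K := by linarith
  induction r with
  | zero => simp
  | succ r ih =>
    have h1 : 1 / K ≤ 1 := by rw [div_le_one hK0]; exact hK
    have h2 : (1 + 1 / K) ^ r ≤ 2 ^ r := pow_le_pow_left₀ (by positivity) (by linarith) r
    have h3 : (1 + 1 / K) ^ (r + 1) - 1 = ((1 + 1 / K) ^ r - 1) + (1 + 1 / K) ^ r / K := by
      rw [pow_succ]; field_simp; ring
    rw [h3]
    have h4 : (1 + 1 / K) ^ r / K ≤ 2 ^ r / K := div_le_div_of_nonneg_right h2 hK0.le
    have h5 : ((2 : ℝ) ^ (r + 1) - 1) / K = (2 ^ r - 1) / K + 2 ^ r / K := by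
      rw [pow_succ]; ring
    rw [h5]
    linarith

theorem root_size (Q : Polynomial ℂ) (hQ : Q ≠ 0) (t K : ℝ) (ht : 0 < t)
    (hK : 2 ^ (Q.natDegree + 1) ≤ K)
    (hno : ∀ T : ℂ, Q.eval T = 0 → ‖T‖ ≤ t / K ∨ t * K ≤ ‖T‖) :
    ∃ j ≤ Q.natDegree, Q.coeff j ≠ 0 ∧ ∀ i, i ≠ j →
      ‖Q.coeff i‖ * t ^ i ≤ 2 ^ (Q.natDegree + 1) / K * (‖Q.coeff j‖ * t ^ j) := by
  set r := Q.natDegree with hr
  have hsplit : Q.Splits := IsAlgClosed.splits Q
  have hcard : Multiset.card Q.roots = r := hsplit.natDegree_eq_card_roots.symm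
  have hprod : Q = Polynomial.C Q.leadingCoeff *
      (Q.roots.map fun a => Polynomial.X - Polynomial.C a).prod := hsplit.eq_prod_roots
  have h2r : (1 : ℝ) ≤ 2 ^ (r + 1) := one_le_pow₀ (by norm_num)
  have hK1 : 1 ≤ K := h2r.trans hK
  have hK0 : 0 < K := by linarith
  obtain ⟨j, hj, c, hc, E, hE, hN⟩ := N1_aux t K ht hK0 Q.roots fun T hT =>
    hno T ((Polynomial.mem_roots hQ).1 hT)
  rw [hcard] at hj hN
  have hl : Q.leadingCoeff ≠ 0 := Polynomial.leadingCoeff_ne_zero.2 hQ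
  have hln : 0 < ‖Q.leadingCoeff‖ := norm_pos_iff.2 hl
  have hcn : 0 < ‖c‖ := norm_pos_iff.2 hc
  have htj : 0 < t ^ j := pow_pos ht j
  have hcoeff : ∀ i, Q.coeff i = Q.leadingCoeff * ((if i = j then c else 0) + E.coeff i) := by
    intro i
    conv_lhs => rw [hprod, hE]
    rw [Polynomial.coeff_C_mul, Polynomial.coeff_add, Polynomial.coeff_C_mul_X_pow]
  have hδ : ((1 + 1 / K) ^ r - 1) ≤ (2 ^ r - 1) / K := N1_pow K hK1 r
  have hcj : 0 < ‖c‖ * t ^ j := by positivity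
  have hN' : N1_N t E ≤ (2 ^ r - 1) / K * (‖c‖ * t ^ j) :=
    hN.trans (mul_le_mul_of_nonneg_right hδ hcj.le)
  have hhalf : ((2 : ℝ) ^ r - 1) / K ≤ 1 / 2 := by
    rw [div_le_iff₀ hK0]
    have : (2 : ℝ) ^ (r + 1) = 2 * 2 ^ r := by rw [pow_succ]; ring
    linarith
  have hEj : ‖E.coeff j‖ * t ^ j ≤ 1 / 2 * (‖c‖ * t ^ j) :=
    (N1_coeff t ht.le E j).trans (hN'.trans (mul_le_mul_of_nonneg_right hhalf hcj.le))
  have hcE : 1 / 2 * (‖c‖ * t ^ j) ≤ ‖c + E.coeff j‖ * t ^ j := by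
    have h1 : ‖c‖ - ‖E.coeff j‖ ≤ ‖c + E.coeff j‖ := by
      have := norm_sub_norm_le c (-E.coeff j)
      rwa [norm_neg, sub_neg_eq_add] at this
    have h2 := mul_le_mul_of_nonneg_right h1 htj.le
    rw [sub_mul] at h2
    linarith
  have hcE0 : 0 < ‖c + E.coeff j‖ * t ^ j := lt_of_lt_of_le (by positivity) hcE
  refine ⟨j, hj, ?_, ?_⟩
  · rw [hcoeff j, if_pos rfl]
    refine mul_ne_zero hl ?_
    intro h0
    rw [h0, norm_zero, zero_mul] at hcE0
    exact lt_irrefl _ hcE0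
  · intro i hi
    rw [hcoeff i, hcoeff j, if_neg hi, if_pos rfl, zero_add, norm_mul, norm_mul]
    have h1 : ‖E.coeff i‖ * t ^ i ≤ (2 ^ r - 1) / K * (‖c‖ * t ^ j) :=
      (N1_coeff t ht.le E i).trans hN'
    have h2 : (2 ^ r - 1) / K * (‖c‖ * t ^ j) ≤ 2 ^ (r + 1) / K * (‖c + E.coeff j‖ * t ^ j) := by
      have h3 : (2 : ℝ) ^ (r + 1) / K * (1 / 2 * (‖c‖ * t ^ j)) ≤
          2 ^ (r + 1) / K * (‖c + E.coeff j‖ * t ^ j) :=
        mul_le_mul_of_nonneg_left hcE (by positivity)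
      refine le_trans ?_ h3
      have h4 : (2 : ℝ) ^ (r + 1) / K * (1 / 2 * (‖c‖ * t ^ j)) = 2 ^ r / K * (‖c‖ * t ^ j) := by
        rw [pow_succ]; ring
      rw [h4]
      refine mul_le_mul_of_nonneg_right ?_ hcj.le
      exact div_le_div_of_nonneg_right (by linarith) hK0.le
    calc ‖Q.leadingCoeff‖ * ‖E.coeff i‖ * t ^ i = ‖Q.leadingCoeff‖ * (‖E.coeff i‖ * t ^ i) := by
          ring
      _ ≤ ‖Q.leadingCoeff‖ * (2 ^ (r + 1) / K * (‖c + E.coeff j‖ * t ^ j)) :=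
          mul_le_mul_of_nonneg_left (h1.trans h2) hln.le
      _ = 2 ^ (r + 1) / K * (‖Q.leadingCoeff‖ * ‖c + E.coeff j‖ * t ^ j) := by ring

end XV
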