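import Pool.Agent.Lib.MP_228259_lc.V.Defs2
import Pool.Agent.Lib.MP_228259_lc.V.N1

/-!
XV-N2 (slope_rel). A relation `∑ c_{jk} f^k y^j = 0` whose nonzero coefficients are between `1 / B` and
`B` forces `log |y|` to be a rational multiple of `log |f|`, up to a bounded error.

Proof. The monomials `m_{(j,k)} = c_{jk} f^k y^j`, `(j,k)` in a fixed finite box, sum to `0`, not all
zero; `two_largest` gives `(j,k) ≠ (j',k')` with both coefficients nonzero and
`|log ‖c f^k y^j‖ - log ‖c' f^k' y^j'‖| ≤ log card`, so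
`|(k - k') log ‖f‖ + (j - j') log ‖y‖| ≤ log card + 2 log B`. If `j = j'` then
`|log ‖f‖| ≤ log card + 2 log B`. Else divide by `j - j'` : slope `s = - (k - k') / (j - j')`, one of
finitely many rational numbers.
-/

set_option autoImplicit false

namespace XV

open MvPolynomial

theorem N2_bev_sum (D : ℕ) (R : Polynomial (Polynomial ℂ)) (hR : R.natDegree ≤ D)
    (hc : ∀ j, (R.coeff j).natDegree ≤ D) (f y : ℂ) :
    bev f y R = ∑ p ∈ Finset.range (D + 1) ×ˢ Finset.range (D + 1),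
      (R.coeff p.1).coeff p.2 * f ^ p.2 * y ^ p.1 := by
  unfold bev
  rw [Polynomial.eval_map, Polynomial.eval₂_eq_sum_range' _ (Nat.lt_succ_of_le hR),
    Finset.sum_product]
  refine Finset.sum_congr rfl fun j _ => ?_
  rw [Polynomial.coe_evalRingHom, Polynomial.eval_eq_sum_range' (Nat.lt_succ_of_le (hc j)),
    Finset.sum_mul]

theorem slope_rel (D : ℕ) : ∃ (S : Finset ℚ) (K : ℝ), 0 < K ∧
    ∀ R : Polynomial (Polynomial ℂ), R ≠ 0 → R.natDegree ≤ D →
      (∀ j, (R.coeff j).natDegree ≤ D) → ∀ B : ℝ, 1 ≤ B →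
      (∀ j k, (R.coeff j).coeff k = 0 ∨
        (1 / B ≤ ‖(R.coeff j).coeff k‖ ∧ ‖(R.coeff j).coeff k‖ ≤ B)) →
      ∀ f y : ℂ, f ≠ 0 → y ≠ 0 → bev f y R = 0 →
        K * (1 + Real.log B) < |Real.log ‖f‖| →
        ∃ s ∈ S, |Real.log ‖y‖ - s * Real.log ‖f‖| ≤ K * (1 + Real.log B) := by
  classical
  set E : Finset (ℕ × ℕ) := Finset.range (D + 1) ×ˢ Finset.range (D + 1) with hE
  refine ⟨(E ×ˢ E).image (fun q => -((q.1.2 : ℚ) - q.2.2) / ((q.1.1 : ℚ) - q.2.1)),
    Real.log (E.card : ℝ) + 2, ?_, ?_⟩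
  · have : 0 ≤ Real.log (E.card : ℝ) := Real.log_natCast_nonneg _
    linarith
  intro R hR0 hRD hRc B hB hcoef f y hf hy hbev hbig
  set m : ℕ × ℕ → ℂ := fun p => (R.coeff p.1).coeff p.2 * f ^ p.2 * y ^ p.1 with hm
  have hsum : ∑ p ∈ E, m p = 0 := by
    rw [hm, hE, ← N2_bev_sum D R hRD hRc f y]; exact hbev
  have hne : ∃ p ∈ E, m p ≠ 0 := by
    obtain ⟨j, hj⟩ : ∃ j, R.coeff j ≠ 0 := by
      by_contra h
      push Not at h
      exact hR0 (Polynomial.ext (by intro n; rw [h n]; simp))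
    obtain ⟨k, hk⟩ : ∃ k, (R.coeff j).coeff k ≠ 0 := by
      by_contra h
      push Not at h
      exact hj (Polynomial.ext (by intro n; rw [h n]; simp))
    refine ⟨(j, k), ?_, ?_⟩
    · rw [hE, Finset.mem_product, Finset.mem_range, Finset.mem_range]
      exact ⟨Nat.lt_succ_of_le ((Polynomial.le_natDegree_of_ne_zero hj).trans hRD),
        Nat.lt_succ_of_le ((Polynomial.le_natDegree_of_ne_zero hk).trans (hRc j))⟩
    · exact mul_ne_zero (mul_ne_zero hk (pow_ne_zero _ hf)) (pow_ne_zero _ hy)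
  obtain ⟨p, hp, p', hp', hpp, h1, h2, h3, h4, -⟩ := two_largest E m hsum hne
  have hlogB : 0 ≤ Real.log B := Real.log_nonneg hB
  have hBpos : 0 < B := lt_of_lt_of_le one_pos hB
  have hlogc : 0 ≤ Real.log (E.card : ℝ) := Real.log_natCast_nonneg _
  have hcard : (E.card : ℝ) ≠ 0 := by
    have : E.Nonempty := ⟨p, hp⟩
    exact_mod_cast (Finset.card_pos.mpr this).ne'
  -- logarithms of the monomials
  have hml : ∀ q, m q ≠ 0 → ∃ e : ℝ, |e| ≤ Real.log B ∧
      Real.log ‖m q‖ = e + q.2 * Real.log ‖f‖ + q.1 * Real.log ‖y‖ := by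
    intro q hq
    have hc0 : (R.coeff q.1).coeff q.2 ≠ 0 := by
      intro h0
      apply hq
      simp only [hm, h0, zero_mul]
    refine ⟨Real.log ‖(R.coeff q.1).coeff q.2‖, ?_, ?_⟩
    · rcases hcoef q.1 q.2 with h0 | ⟨h5, h6⟩
      · exact absurd h0 hc0
      · have hcp : 0 < ‖(R.coeff q.1).coeff q.2‖ := norm_pos_iff.mpr hc0
        rw [abs_le]
        constructor
        · have := Real.log_le_log (by positivity) h5
          rw [one_div, Real.log_inv] at this
          exact this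
        · exact Real.log_le_log hcp h6
    · simp only [hm, norm_mul, norm_pow]
      rw [Real.log_mul (mul_ne_zero (norm_ne_zero_iff.mpr hc0)
          (pow_ne_zero _ (norm_ne_zero_iff.mpr hf))) (pow_ne_zero _ (norm_ne_zero_iff.mpr hy)),
        Real.log_mul (norm_ne_zero_iff.mpr hc0) (pow_ne_zero _ (norm_ne_zero_iff.mpr hf)),
        Real.log_pow, Real.log_pow]
  obtain ⟨e, he, hme⟩ := hml p h1
  obtain ⟨e', he', hme'⟩ := hml p' h2
  have hl1 : Real.log ‖m p‖ ≤ Real.log (E.card : ℝ) + Real.log ‖m p'‖ := by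
    rw [← Real.log_mul hcard (norm_ne_zero_iff.mpr h2)]
    exact Real.log_le_log (norm_pos_iff.mpr h1) h3
  have hl2 : Real.log ‖m p'‖ ≤ Real.log ‖m p‖ :=
    Real.log_le_log (norm_pos_iff.mpr h2) h4
  set F := Real.log ‖f‖ with hF
  set Y := Real.log ‖y‖ with hY
  have hmain : |((p.2 : ℝ) - p'.2) * F + ((p.1 : ℝ) - p'.1) * Y| ≤
      (Real.log (E.card : ℝ) + 2) * (1 + Real.log B) := by
    rw [abs_le] at he he' ⊢
    have hnn : 0 ≤ Real.log (E.card : ℝ) * Real.log B := mul_nonneg hlogc hlogB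
    constructor <;> nlinarith [he.1, he.2, he'.1, he'.2]
  by_cases hjj : p.1 = p'.1
  · exfalso
    have hkk : p.2 ≠ p'.2 := fun h => hpp (Prod.ext hjj h)
    rw [hjj, sub_self, zero_mul, add_zero, abs_mul] at hmain
    have h1le : (1 : ℝ) ≤ |(p.2 : ℝ) - p'.2| := by
      have hz : ((p.2 : ℤ) - p'.2) ≠ 0 := by
        intro h
        apply hkk
        have : (p.2 : ℤ) = p'.2 := by linarith
        exact_mod_cast this
      have := Int.one_le_abs hz
      have h' : ((1 : ℤ) : ℝ) ≤ ((|(p.2 : ℤ) - p'.2| : ℤ) : ℝ) := by exact_mod_cast this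
      rw [Int.cast_abs] at h'
      push_cast at h'
      exact h'
    have h2le : |F| ≤ |(p.2 : ℝ) - p'.2| * |F| :=
      le_mul_of_one_le_left (abs_nonneg _) h1le
    linarith
  · refine ⟨-((p.2 : ℚ) - p'.2) / ((p.1 : ℚ) - p'.1), ?_, ?_⟩
    · exact Finset.mem_image.mpr ⟨(p, p'), Finset.mem_product.mpr ⟨hp, hp'⟩, rfl⟩
    · have h1le : (1 : ℝ) ≤ |(p.1 : ℝ) - p'.1| := by
        have hz : ((p.1 : ℤ) - p'.1) ≠ 0 := by
          intro h
          apply hjj
          have : (p.1 : ℤ) = p'.1 := by linarith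
          exact_mod_cast this
        have := Int.one_le_abs hz
        have h' : ((1 : ℤ) : ℝ) ≤ ((|(p.1 : ℤ) - p'.1| : ℤ) : ℝ) := by exact_mod_cast this
        rw [Int.cast_abs] at h'
        push_cast at h'
        exact h'
      have hd0 : ((p.1 : ℝ) - p'.1) ≠ 0 := by
        intro h
        rw [h, abs_zero] at h1le
        linarith
      have heq : Y - ((-((p.2 : ℚ) - p'.2) / ((p.1 : ℚ) - p'.1) : ℚ) : ℝ) * F =
          (((p.2 : ℝ) - p'.2) * F + ((p.1 : ℝ) - p'.1) * Y) / ((p.1 : ℝ) - p'.1) := by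
        push_cast
        field_simp
        ring
      rw [heq, abs_div]
      exact (div_le_self (abs_nonneg _) h1le).trans hmain

end XV
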