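import Pool.Agent.Lib.MP_228259_lc.V.Defs2

/-!
XV-N3 (charpoly_exists). For a monic `χ ∈ ℂ[x][F][T]` and `δ ∈ ℂ[x][F]`, `B ∈ ℂ[x][F][T]` there is
`Ch ∈ ℂ[x][F][T]` whose specialisations are `∏_{θ root of χ(x,f,.)} (δ T - B(θ))`.

Proof. Resultant with respect to `θ` over the ring `A = ℂ[x][F][T]` (`Polynomial (R1 n)`):
`Ch = Polynomial.resultant (χ.map Polynomial.C) (C (C δ * X) - B.map Polynomial.C)` (in `A[θ]`, the
degrees `χ.natDegree` and `max` as needed); `Polynomial.resultant_map_map` for the homomorphism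
`A → ℂ[T]` (evaluation of the coefficients at `(x,f)`) and
`Polynomial.resultant_eq_prod_eval` (`χ` monic, splits over `ℂ`, viewed in `ℂ[T][θ]`).
Degree in `T`: `Ch` specialises to degree at most `χ.natDegree` for all `(x, f)`; if necessary cut off
the coefficients of `Ch` above `χ.natDegree` (they vanish at all `(x,f)`, hence are zero; or bound the
degree only through the specialisations, as stated).
-/

set_option autoImplicit false

namespace XV

open MvPolynomial

theorem N3_aux {R : Type*} [CommRing R] (χ : Polynomial R) (hχ : χ.Monic) (δ : R)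
    (B : Polynomial R) :
    ∃ Ch : Polynomial R, ∀ h : R →+* ℂ, Ch.map h =
      ((χ.map h).roots.map (fun θ => Polynomial.C (h δ) * Polynomial.X -
        Polynomial.C ((B.map h).eval θ))).prod := by
  refine ⟨Polynomial.resultant (χ.map Polynomial.C)
    (Polynomial.C (Polynomial.C δ * Polynomial.X) - B.map Polynomial.C) χ.natDegree
      B.natDegree, ?_⟩
  intro h
  obtain ⟨p, hp⟩ : ∃ p : Polynomial ℂ, p = χ.map h := ⟨_, rfl⟩
  obtain ⟨b, hb⟩ : ∃ b : Polynomial ℂ, b = B.map h := ⟨_, rfl⟩
  have hpm : p.Monic := by rw [hp]; exact hχ.map _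
  have hpd : χ.natDegree = p.natDegree := by
    rw [hp]
    exact (hχ.natDegree_map _).symm
  have hs : p.Splits := IsAlgClosed.splits p
  have hcomp : (Polynomial.mapRingHom h).comp Polynomial.C =
      (Polynomial.C : ℂ →+* Polynomial ℂ).comp h := by
    refine RingHom.ext fun r => ?_
    simp
  have h1' : (χ.map Polynomial.C).map (Polynomial.mapRingHom h) = p.map Polynomial.C := by
    rw [Polynomial.map_map, hcomp, ← Polynomial.map_map, hp]
  have hB : (Polynomial.map Polynomial.C B).map (Polynomial.mapRingHom h) =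
      b.map Polynomial.C := by
    rw [Polynomial.map_map, hcomp, ← Polynomial.map_map, hb]
  have h2 : (Polynomial.C (Polynomial.C δ * Polynomial.X) - B.map Polynomial.C).map
      (Polynomial.mapRingHom h) =
      Polynomial.C (Polynomial.C (h δ) * Polynomial.X) - b.map Polynomial.C := by
    rw [Polynomial.map_sub, hB, Polynomial.map_C, map_mul]
    simp
  have h3 : (Polynomial.resultant (χ.map Polynomial.C)
      (Polynomial.C (Polynomial.C δ * Polynomial.X) - B.map Polynomial.C) χ.natDegree
      B.natDegree).map h =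
      Polynomial.resultant (p.map Polynomial.C)
      (Polynomial.C (Polynomial.C (h δ) * Polynomial.X) - b.map Polynomial.C)
      (p.map (Polynomial.C : ℂ →+* Polynomial ℂ)).natDegree B.natDegree := by
    rw [hpm.natDegree_map, ← hpd, ← h1', ← h2, Polynomial.resultant_map_map]
    rfl
  rw [h3, Polynomial.resultant_eq_prod_eval _ _ _ _ (hs.map _), (hpm.map _).leadingCoeff,
    one_pow, one_mul, hs.roots_map, Multiset.map_map, ← hp, ← hb]
  · congr 1
    refine Multiset.map_congr rfl fun θ _ => ?_
    simp
  · refine (Polynomial.natDegree_sub_le _ _).trans ?_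
    rw [Polynomial.natDegree_C, Nat.zero_max]
    refine (Polynomial.natDegree_map_le).trans ?_
    rw [hb]
    exact Polynomial.natDegree_map_le

theorem charpoly_exists {n : ℕ} (χ : R2 n) (hχ : χ.Monic) (δ : R1 n) (B : R2 n) :
    ∃ Ch : R2 n, ∀ (x : Fin n → ℂ) (f : ℂ), e2 x f Ch =
      ((e2 x f χ).roots.map (fun θ => Polynomial.C (h1 x f δ) * Polynomial.X -
        Polynomial.C ((e2 x f B).eval θ))).prod := by
  obtain ⟨Ch, h⟩ := N3_aux χ hχ δ B
  exact ⟨Ch, fun x f => h (h1 x f)⟩

end XV
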