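import Pool.Agent.Lib.MP_228259_lc.V.N2
import Pool.Agent.Lib.MP_228259_lc.V.N3
import Pool.Agent.Lib.MP_228259_lc.V.F7
import Pool.Agent.Lib.MP_228259_lc.V.N0

/-!
XV-N4 (slope of one monomial). For every integer vector `m` there is a rational `σ` such that at all
generic points `x` of the hypersurface and all small `f` some branch has
`log |y^m| = σ log |f| + O(log N)`.

Proof. `B = ∏_{m_j > 0} A_j^(m_j) ∏_{m_j < 0} A'_j^(-m_j) ∈ ℂ[x][F][T]`, `δ = Δ ^ (∑ |m_j|)`: at a root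
`θ` (with `Δ(x,f) ≠ 0`) `y^m = B(θ) / δ` (`RPres.inv`). `Ch` from `charpoly_exists`, `r = χ.natDegree`,
`Ch(x,f) = δ^r ∏ (T - y^m(θ))` in `ℂ[T]` of degree `r`. Write `Ch = ∑_j Ch_j T^j`,
`Ch_j = ∑_i c_{ij} F^i`, `ord_j` = least `i` with `P ∤ c_{ij}` (if any). `ord_r` exists: the
specialisation of `Ch_r` is `δ^r` (`P ∤` some coefficient of `δ^r`, since `ℂ[x]/(P)` is a domain; look at
the lowest coefficient). `ord_0` exists: otherwise `Ch_0(x,f) = ± ∏ B(θ)` would vanish at all `x` in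
`P = 0`; but at points with `Δ(x,f) ≠ 0` it is nonzero (`y^m ≠ 0`); there are such points, because
`Δ` has a coefficient not divisible by `P` (by `elim`/`Gen` or Nullstellensatz: a polynomial vanishing
on the zero set of the irreducible `P` is divisible by `P`).
`σ = max_{1 ≤ j ≤ r, ord_j exists} (ord_0 - ord_j) / j`, attained at `j₁`. So
`ord_j + σ j ≥ ord_0` with equality for `0` and `j₁`.
`𝒢` = the lowest coefficients `c_{ord_j, j}` and the lowest coefficient of `Δ` (index least with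
`P ∤`). At a point `x` with `‖x‖ ≤ N^C`, `‖G(x)‖ N^C ≥ 1`, and `‖f‖ N^{C'} ≤ 1`: coefficients divisible
by `P` vanish at `x`, so `Ch_j(x,f) = f^{ord_j} (c_{ord_j,j}(x) + O(N^{C''} |f|))`, of size between
`N^{-C-1} |f|^{ord_j}` and `N^{C''} |f|^{ord_j}` (similarly `Δ(x,f) ≠ 0`). If no root of `Ch(x,f)` had
norm in `(t/K, tK)`, `t = |f|^σ` (real power), `K = N^{C'''}`, then `root_size` would make one
coefficient dominate all others at the radius `t` by the factor `K / 2^(r+1)`; but the terms `0` and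
`j₁` are both at least `N^{-C-1} |f|^{ord_0}` and all terms are at most `N^{C''} |f|^{ord_0}`.
-/

set_option autoImplicit false

namespace XV

open MvPolynomial Filter Topology

theorem N4_h1_sum {n : ℕ} (G : R1 n) (x : Fin n → ℂ) (f : ℂ) :
    h1 x f G = ∑ i ∈ Finset.range (G.natDegree + 1), eval x (G.coeff i) * f ^ i := by
  change Polynomial.eval₂ (MvPolynomial.eval x) f G = _
  rw [Polynomial.eval₂_eq_sum_range]

theorem N4_eval_zero {n : ℕ} {P G : MvPolynomial (Fin n) ℂ} (h : P ∣ G) {x : Fin n → ℂ}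
    (hx : eval x P = 0) : eval x G = 0 := by
  obtain ⟨Q, rfl⟩ := h
  rw [map_mul, hx, zero_mul]

theorem N4_up0 {n : ℕ} (P : MvPolynomial (Fin n) ℂ) (G : R1 n) (o : ℕ)
    (h : ∀ i < o, P ∣ G.coeff i) :
    ∃ K : ℕ, ∀ (x : Fin n → ℂ) (f : ℂ), eval x P = 0 → ‖f‖ ≤ 1 →
      ‖h1 x f G‖ ≤ K * (1 + ‖x‖) ^ K * ‖f‖ ^ o := by
  choose c hc using fun i => eval_bound (G.coeff i)
  refine ⟨∑ i ∈ Finset.range (G.natDegree + 1), c i, fun x f hx hf => ?_⟩
  rw [N4_h1_sum]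
  set K := ∑ i ∈ Finset.range (G.natDegree + 1), c i with hK
  have hx1 : 1 ≤ 1 + ‖x‖ := by linarith [norm_nonneg x]
  refine (norm_sum_le _ _).trans ?_
  have hterm : ∀ i ∈ Finset.range (G.natDegree + 1),
      ‖eval x (G.coeff i) * f ^ i‖ ≤ (c i : ℝ) * ((1 + ‖x‖) ^ K * ‖f‖ ^ o) := by
    intro i hi
    by_cases hio : i < o
    · rw [N4_eval_zero (h i hio) hx, zero_mul, norm_zero]
      positivity
    · rw [norm_mul, norm_pow]
      have h1 : ‖eval x (G.coeff i)‖ ≤ c i * (1 + ‖x‖) ^ K := by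
        refine (hc i x).trans ?_
        apply mul_le_mul_of_nonneg_left _ (Nat.cast_nonneg _)
        exact pow_le_pow_right₀ hx1 (Finset.single_le_sum (f := c) (fun _ _ => Nat.zero_le _) hi)
      have h2 : ‖f‖ ^ i ≤ ‖f‖ ^ o := pow_le_pow_of_le_one (norm_nonneg _) hf (by omega)
      calc ‖eval x (G.coeff i)‖ * ‖f‖ ^ i ≤ (c i * (1 + ‖x‖) ^ K) * ‖f‖ ^ o :=
            mul_le_mul h1 h2 (by positivity) (by positivity)
        _ = _ := by ring
  refine (Finset.sum_le_sum hterm).trans ?_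
  rw [← Finset.sum_mul, hK]
  push_cast
  apply le_of_eq
  ring

theorem N4_up {n : ℕ} (P : MvPolynomial (Fin n) ℂ) (G : R1 n) (o : ℕ)
    (h : ∀ i < o, P ∣ G.coeff i) :
    ∃ K : ℕ, ∀ (x : Fin n → ℂ) (f : ℂ), eval x P = 0 → ‖f‖ ≤ 1 →
      ‖h1 x f G‖ ≤ K * (1 + ‖x‖) ^ K * ‖f‖ ^ o ∧
      ‖h1 x f G - eval x (G.coeff o) * f ^ o‖ ≤ K * (1 + ‖x‖) ^ K * ‖f‖ ^ (o + 1) := by
  obtain ⟨K₁, h₁⟩ := N4_up0 P G o h
  obtain ⟨K₂, h₂⟩ := N4_up0 P (G - Polynomial.monomial o (G.coeff o)) (o + 1) (by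
    intro i hi
    rw [Polynomial.coeff_sub, Polynomial.coeff_monomial]
    rcases Nat.lt_succ_iff_lt_or_eq.1 hi with h3 | h3
    · rw [if_neg (by omega), sub_zero]
      exact h i h3
    · subst h3
      simp)
  refine ⟨K₁ + K₂, fun x f hx hf => ?_⟩
  have hx1 : 1 ≤ 1 + ‖x‖ := by linarith [norm_nonneg x]
  have hmono : ∀ k : ℕ, k ≤ K₁ + K₂ →
      (k : ℝ) * (1 + ‖x‖) ^ k ≤ ((K₁ + K₂ : ℕ) : ℝ) * (1 + ‖x‖) ^ (K₁ + K₂) := by
    intro k hk
    exact mul_le_mul (by exact_mod_cast hk) (pow_le_pow_right₀ hx1 hk) (by positivity)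
      (Nat.cast_nonneg _)
  constructor
  · exact (h₁ x f hx hf).trans
      (mul_le_mul_of_nonneg_right (hmono K₁ (by omega)) (by positivity))
  · have h3 := h₂ x f hx hf
    have h4 : h1 x f (G - Polynomial.monomial o (G.coeff o)) =
        h1 x f G - eval x (G.coeff o) * f ^ o := by
      rw [map_sub]
      congr 1
      change Polynomial.eval₂ (MvPolynomial.eval x) f _ = _
      rw [Polynomial.eval₂_monomial]
    rw [h4] at h3
    exact h3.trans (mul_le_mul_of_nonneg_right (hmono K₂ (by omega)) (by positivity))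

theorem N4_size {n : ℕ} (P : MvPolynomial (Fin n) ℂ) (G : R1 n) (o : ℕ)
    (h : ∀ i < o, P ∣ G.coeff i) (C : ℕ) :
    ∃ E₀ : ℕ, ∀ E : ℕ, E₀ ≤ E → ∀ N : ℕ, 2 ≤ N → ∀ x : Fin n → ℂ, eval x P = 0 →
      ‖x‖ ≤ (N : ℝ) ^ C → ∀ f : ℂ, ‖f‖ * (N : ℝ) ^ E ≤ 1 →
      ‖h1 x f G‖ ≤ (N : ℝ) ^ E * ‖f‖ ^ o ∧
      (1 ≤ ‖eval x (G.coeff o)‖ * (N : ℝ) ^ C → ‖f‖ ^ o ≤ ‖h1 x f G‖ * (N : ℝ) ^ (C + 1)) := by
  obtain ⟨K, hK⟩ := N4_up P G o h
  refine ⟨K + (C + 1) * K + C + 1, fun E hE N hN x hx hxN f hf => ?_⟩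
  have hN2 : (2 : ℝ) ≤ N := by exact_mod_cast hN
  have hN0 : (0 : ℝ) < N := by linarith
  have hN1 : (1 : ℝ) ≤ N := by linarith
  have hf1 : ‖f‖ ≤ 1 := by
    have : (1 : ℝ) ≤ (N : ℝ) ^ E := one_le_pow₀ hN1
    nlinarith [norm_nonneg f]
  obtain ⟨h1', h2'⟩ := hK x f hx hf1
  have hKN : (K : ℝ) * (1 + ‖x‖) ^ K ≤ (N : ℝ) ^ (K + (C + 1) * K) := by
    have e1 : (K : ℝ) ≤ (N : ℝ) ^ K := by
      have : (K : ℝ) ≤ (2 : ℝ) ^ K := by exact_mod_cast (Nat.lt_two_pow_self (n := K)).le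
      exact this.trans (pow_le_pow_left₀ (by norm_num) hN2 K)
    have e2 : 1 + ‖x‖ ≤ (N : ℝ) ^ (C + 1) := by
      have e3 : (1 : ℝ) ≤ (N : ℝ) ^ C := one_le_pow₀ hN1
      calc 1 + ‖x‖ ≤ (N : ℝ) ^ C + (N : ℝ) ^ C := add_le_add e3 hxN
        _ = (N : ℝ) ^ C * 2 := by ring
        _ ≤ (N : ℝ) ^ C * N := mul_le_mul_of_nonneg_left hN2 (by positivity)
        _ = _ := (pow_succ _ _).symm
    calc (K : ℝ) * (1 + ‖x‖) ^ K ≤ (N : ℝ) ^ K * ((N : ℝ) ^ (C + 1)) ^ K :=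
          mul_le_mul e1 (pow_le_pow_left₀ (by positivity) e2 K) (by positivity) (by positivity)
      _ = _ := by rw [← pow_mul, ← pow_add]
  constructor
  · refine h1'.trans (mul_le_mul_of_nonneg_right ?_ (by positivity))
    exact hKN.trans (pow_le_pow_right₀ hN1 (by omega))
  · intro hlow
    have h3 : ‖eval x (G.coeff o) * f ^ o‖ ≤ ‖h1 x f G‖ + (N : ℝ) ^ (K + (C + 1) * K) * ‖f‖ ^ (o + 1) := by
      have e4 : eval x (G.coeff o) * f ^ o = h1 x f G - (h1 x f G - eval x (G.coeff o) * f ^ o) := by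
        ring
      rw [e4]
      refine (norm_sub_le _ _).trans (add_le_add le_rfl (h2'.trans ?_))
      exact mul_le_mul_of_nonneg_right hKN (by positivity)
    rw [norm_mul, norm_pow] at h3
    -- multiply by `N ^ (C + 1)`
    have h4 : ‖f‖ ^ o * N ≤ ‖eval x (G.coeff o)‖ * ‖f‖ ^ o * (N : ℝ) ^ (C + 1) := by
      have : ‖f‖ ^ o * N * 1 ≤ ‖f‖ ^ o * N * (‖eval x (G.coeff o)‖ * (N : ℝ) ^ C) :=
        mul_le_mul_of_nonneg_left hlow (by positivity)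
      calc ‖f‖ ^ o * N = ‖f‖ ^ o * N * 1 := by ring
        _ ≤ _ := this
        _ = _ := by rw [pow_succ]; ring
    have h5 : (N : ℝ) ^ (K + (C + 1) * K) * ‖f‖ ^ (o + 1) * (N : ℝ) ^ (C + 1) ≤ ‖f‖ ^ o := by
      have e5 : ‖f‖ * (N : ℝ) ^ (K + (C + 1) * K + C + 1) ≤ 1 :=
        le_trans (mul_le_mul_of_nonneg_left (pow_le_pow_right₀ hN1 hE) (norm_nonneg _)) hf
      calc (N : ℝ) ^ (K + (C + 1) * K) * ‖f‖ ^ (o + 1) * (N : ℝ) ^ (C + 1)
          = ‖f‖ ^ o * (‖f‖ * (N : ℝ) ^ (K + (C + 1) * K + C + 1)) := by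
            rw [pow_succ ‖f‖ o, show K + (C + 1) * K + C + 1 = (K + (C + 1) * K) + (C + 1) by ring,
              pow_add]
            ring
        _ ≤ ‖f‖ ^ o * 1 := mul_le_mul_of_nonneg_left e5 (by positivity)
        _ = _ := mul_one _
    have h6 : ‖eval x (G.coeff o)‖ * ‖f‖ ^ o * (N : ℝ) ^ (C + 1) ≤
        ‖h1 x f G‖ * (N : ℝ) ^ (C + 1) + ‖f‖ ^ o := by
      calc ‖eval x (G.coeff o)‖ * ‖f‖ ^ o * (N : ℝ) ^ (C + 1)
          ≤ (‖h1 x f G‖ + (N : ℝ) ^ (K + (C + 1) * K) * ‖f‖ ^ (o + 1)) * (N : ℝ) ^ (C + 1) :=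
            mul_le_mul_of_nonneg_right h3 (by positivity)
        _ = ‖h1 x f G‖ * (N : ℝ) ^ (C + 1) +
            (N : ℝ) ^ (K + (C + 1) * K) * ‖f‖ ^ (o + 1) * (N : ℝ) ^ (C + 1) := by ring
        _ ≤ _ := add_le_add le_rfl h5
    have h7 : ‖f‖ ^ o * 2 ≤ ‖f‖ ^ o * N := mul_le_mul_of_nonneg_left hN2 (by positivity)
    linarith

/-- the product of the linear factors -/
theorem N4_prod (s : Multiset ℂ) (δ : ℂ) (hδ : δ ≠ 0) (g : ℂ → ℂ) :
    (s.map (fun θ => Polynomial.C δ * Polynomial.X - Polynomial.C (g θ))).prod =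
      Polynomial.C (δ ^ Multiset.card s) *
        (s.map (fun θ => Polynomial.X - Polynomial.C (g θ / δ))).prod := by
  induction s using Multiset.induction_on with
  | empty => simp
  | cons a s ih =>
    rw [Multiset.map_cons, Multiset.prod_cons, ih, Multiset.map_cons, Multiset.prod_cons,
      Multiset.card_cons, pow_succ]
    have e : Polynomial.C δ * Polynomial.X - Polynomial.C (g a) =
        Polynomial.C δ * (Polynomial.X - Polynomial.C (g a / δ)) := by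
      rw [mul_sub, ← Polynomial.C_mul, mul_div_cancel₀ _ hδ]
    rw [e, Polynomial.C_mul]
    ring

theorem N4_facts (s : Multiset ℂ) (δ : ℂ) (hδ : δ ≠ 0) (g : ℂ → ℂ) (Q : Polynomial ℂ)
    (hQ : Q = (s.map (fun θ => Polynomial.C δ * Polynomial.X - Polynomial.C (g θ))).prod) :
    Q ≠ 0 ∧ Q.natDegree = Multiset.card s ∧ Q.coeff (Multiset.card s) ≠ 0 ∧
      (∀ T, Q.eval T = 0 → ∃ θ ∈ s, T = g θ / δ) ∧
      ((∀ θ ∈ s, g θ ≠ 0) → Q.coeff 0 ≠ 0) := by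
  rw [N4_prod s δ hδ g] at hQ
  set R := (s.map (fun θ => Polynomial.X - Polynomial.C (g θ / δ))).prod with hR
  have hd : δ ^ Multiset.card s ≠ 0 := pow_ne_zero _ hδ
  have hRm : R.Monic := by
    rw [hR]
    exact Polynomial.monic_multiset_prod_of_monic _ _ fun θ _ => Polynomial.monic_X_sub_C _
  have hRd : R.natDegree = Multiset.card s := by
    rw [hR]
    have := Polynomial.natDegree_multiset_prod_X_sub_C_eq_card (s.map fun θ => g θ / δ)
    rw [Multiset.map_map, Multiset.card_map] at this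
    exact this
  have hev : ∀ T, Q.eval T = 0 → ∃ θ ∈ s, T = g θ / δ := by
    intro T hT
    rw [hQ, Polynomial.eval_mul, Polynomial.eval_C] at hT
    have hT' := (mul_eq_zero.1 hT).resolve_left hd
    rw [hR, Polynomial.eval_multiset_prod, Multiset.map_map, Multiset.prod_eq_zero_iff,
      Multiset.mem_map] at hT'
    obtain ⟨θ, hθ, e⟩ := hT'
    refine ⟨θ, hθ, ?_⟩
    simp only [Function.comp_apply, Polynomial.eval_sub, Polynomial.eval_X, Polynomial.eval_C] at e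
    exact sub_eq_zero.1 e
  have hdeg : Q.natDegree = Multiset.card s := by
    rw [hQ, Polynomial.natDegree_C_mul hd, hRd]
  have hQ0 : Q ≠ 0 := by
    rw [hQ]
    exact mul_ne_zero (Polynomial.C_ne_zero.2 hd) hRm.ne_zero
  refine ⟨hQ0, hdeg, ?_, hev, ?_⟩
  · rw [← hdeg]
    exact Polynomial.leadingCoeff_ne_zero.2 hQ0
  · intro hg h0
    have h1 : Q.eval 0 = 0 := by rw [← Polynomial.coeff_zero_eq_eval_zero]; exact h0
    obtain ⟨θ, hθ, e⟩ := hev 0 h1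
    exact div_ne_zero (hg θ hθ) hδ e.symm

/-- the numerator and the denominator of `y ^ m` -/
noncomputable def N4_B {n : ℕ} (A A' : Fin n → R2 n) (m : Fin n → ℤ) : R2 n :=
  ∏ j, (A j ^ (m j).toNat * A' j ^ (-(m j)).toNat)

noncomputable def N4_δ {n : ℕ} (Δ : R1 n) (m : Fin n → ℤ) : R1 n :=
  ∏ j, (Δ ^ (m j).toNat * Δ ^ (-(m j)).toNat)

theorem N4_mon {n : ℕ} {V : Set ((Fin n → ℂ) × (Fin n → ℂ))} {P : MvPolynomial (Fin n) ℂ}
    {a : Fin n → ℤ} {Δ : R1 n} {χ : R2 n} {A A' : Fin n → R2 n}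
    (hp : RPres V P a Δ χ A A') (m : Fin n → ℤ) (x : Fin n → ℂ) (f θ : ℂ) (hx : eval x P = 0)
    (hΔ : h1 x f Δ ≠ 0) (hθ : (e2 x f χ).eval θ = 0) :
    h1 x f (N4_δ Δ m) ≠ 0 ∧ (e2 x f (N4_B A A' m)).eval θ ≠ 0 ∧
      mon m (yv Δ A x f θ) = (e2 x f (N4_B A A' m)).eval θ / h1 x f (N4_δ Δ m) := by
  have hδ : h1 x f (N4_δ Δ m) = ∏ j, (h1 x f Δ ^ (m j).toNat * h1 x f Δ ^ (-(m j)).toNat) := by
    rw [N4_δ, map_prod]
    simp only [map_mul, map_pow]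
  have hB : (e2 x f (N4_B A A' m)).eval θ =
      ∏ j, ((e2 x f (A j)).eval θ ^ (m j).toNat * (e2 x f (A' j)).eval θ ^ (-(m j)).toNat) := by
    rw [N4_B, e2, Polynomial.map_prod, Polynomial.eval_prod]
    simp only [Polynomial.map_mul, Polynomial.map_pow, Polynomial.eval_mul, Polynomial.eval_pow]
    rfl
  have hδ0 : h1 x f (N4_δ Δ m) ≠ 0 := by
    rw [hδ]
    exact Finset.prod_ne_zero_iff.2 fun j _ => mul_ne_zero (pow_ne_zero _ hΔ) (pow_ne_zero _ hΔ)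
  have hinv := hp.inv x f θ hx hΔ hθ
  have hA : ∀ j, (e2 x f (A j)).eval θ ≠ 0 := by
    intro j h0
    have := hinv j
    rw [h0, zero_div, zero_mul] at this
    exact zero_ne_one this
  have hA' : ∀ j, (e2 x f (A' j)).eval θ ≠ 0 := by
    intro j h0
    have := hinv j
    rw [h0, zero_div, mul_zero] at this
    exact zero_ne_one this
  have hB0 : (e2 x f (N4_B A A' m)).eval θ ≠ 0 := by
    rw [hB]
    exact Finset.prod_ne_zero_iff.2 fun j _ =>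
      mul_ne_zero (pow_ne_zero _ (hA j)) (pow_ne_zero _ (hA' j))
  refine ⟨hδ0, hB0, ?_⟩
  rw [hB, hδ, ← Finset.prod_div_distrib, mon]
  apply Finset.prod_congr rfl
  intro j _
  have hy : yv Δ A x f θ j ≠ 0 := by
    rw [yv]
    exact div_ne_zero (hA j) hΔ
  have hy' : (yv Δ A x f θ j)⁻¹ = (e2 x f (A' j)).eval θ / h1 x f Δ := by
    have := hinv j
    rw [yv]
    exact inv_eq_of_mul_eq_one_right this
  have e : yv Δ A x f θ j ^ m j =
      yv Δ A x f θ j ^ (m j).toNat * (yv Δ A x f θ j)⁻¹ ^ (-(m j)).toNat := by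
    conv_lhs => rw [← Int.toNat_sub_toNat_neg (m j)]
    rw [zpow_sub₀ hy, zpow_natCast, zpow_natCast, inv_pow]
    rfl
  rw [e, hy', yv, div_pow, div_pow, div_mul_div_comm]

open Classical in
/-- the least index of a coefficient not divisible by `P` -/
noncomputable def N4_ord {n : ℕ} (P : MvPolynomial (Fin n) ℂ) (G : R1 n) : ℕ :=
  if h : ∃ i, ¬ P ∣ G.coeff i then Nat.find h else 0

theorem N4_ord_lt {n : ℕ} (P : MvPolynomial (Fin n) ℂ) (G : R1 n) :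
    ∀ i < N4_ord P G, P ∣ G.coeff i := by
  classical
  intro i hi
  unfold N4_ord at hi
  split_ifs at hi with h
  · by_contra h2
    exact Nat.find_min h hi h2
  · omega

theorem N4_ord_spec {n : ℕ} (P : MvPolynomial (Fin n) ℂ) (G : R1 n)
    (h : ∃ i, ¬ P ∣ G.coeff i) : ¬ P ∣ G.coeff (N4_ord P G) := by
  classical
  unfold N4_ord
  rw [dif_pos h]
  exact Nat.find_spec h

open Classical in
/-- the lowest coefficient not divisible by `P` -/
noncomputable def N4_low {n : ℕ} (P : MvPolynomial (Fin n) ℂ) (G : R1 n) :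
    MvPolynomial (Fin n) ℂ :=
  if ∃ i, ¬ P ∣ G.coeff i then G.coeff (N4_ord P G) else 1

theorem N4_low_not {n : ℕ} (P : MvPolynomial (Fin n) ℂ) (hP : Irreducible P) (G : R1 n) :
    ¬ P ∣ N4_low P G := by
  unfold N4_low
  split_ifs with h
  · exact N4_ord_spec P G h
  · intro h1
    exact hP.not_isUnit (isUnit_of_dvd_one h1)

theorem N4_low_eq {n : ℕ} (P : MvPolynomial (Fin n) ℂ) (G : R1 n)
    (h : ∃ i, ¬ P ∣ G.coeff i) : N4_low P G = G.coeff (N4_ord P G) := by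
  unfold N4_low
  rw [if_pos h]

/-- the two terms of maximal size exclude a dominating coefficient -/
theorem N4_core (Q : Polynomial ℂ) (hQ : Q ≠ 0) (r : ℕ) (hr : Q.natDegree = r) (t F N : ℝ)
    (ht : 0 < t) (hF : 0 < F) (hN : 2 ≤ N) (E C : ℕ) (j₁ : ℕ) (hj₁ : j₁ ≠ 0)
    (hU : ∀ i ≤ r, ‖Q.coeff i‖ * t ^ i ≤ N ^ E * F)
    (hL0 : F ≤ ‖Q.coeff 0‖ * t ^ 0 * N ^ (C + 1))
    (hL1 : F ≤ ‖Q.coeff j₁‖ * t ^ j₁ * N ^ (C + 1)) :
    ∃ T : ℂ, Q.eval T = 0 ∧ t / (2 ^ (r + 1) * N ^ (E + C + 2)) < ‖T‖ ∧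
      ‖T‖ < t * (2 ^ (r + 1) * N ^ (E + C + 2)) := by
  by_contra hcon
  push Not at hcon
  have hN1 : (1 : ℝ) ≤ N := by linarith
  have hNe : (1 : ℝ) ≤ N ^ (E + C + 2) := one_le_pow₀ hN1
  obtain ⟨j, hj, hj0, hdom⟩ := root_size Q hQ t (2 ^ (r + 1) * N ^ (E + C + 2)) ht (by
      rw [hr]
      exact le_mul_of_one_le_right (by positivity) hNe) (fun T hT => by
      by_cases h1 : ‖T‖ ≤ t / (2 ^ (r + 1) * N ^ (E + C + 2))
      · exact Or.inl h1
      · exact Or.inr (hcon T hT (not_le.1 h1)))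
  rw [hr] at hj hdom
  have key : ∀ i, i ≠ j → F ≤ ‖Q.coeff i‖ * t ^ i * N ^ (C + 1) → False := by
    intro i hij hLi
    have h1 := hdom i hij
    have h2 : (2 : ℝ) ^ (r + 1) / (2 ^ (r + 1) * N ^ (E + C + 2)) = 1 / N ^ (E + C + 2) := by
      field_simp
    rw [h2] at h1
    have h3 : F ≤ F / N := by
      calc F ≤ ‖Q.coeff i‖ * t ^ i * N ^ (C + 1) := hLi
        _ ≤ (1 / N ^ (E + C + 2) * (N ^ E * F)) * N ^ (C + 1) := by
          apply mul_le_mul_of_nonneg_right _ (by positivity)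
          exact h1.trans (mul_le_mul_of_nonneg_left (hU j hj) (by positivity))
        _ = F / N := by
          rw [show E + C + 2 = E + (C + 1) + 1 by ring, pow_succ N (E + (C + 1)), pow_add N E]
          field_simp
    have h4 : F / N ≤ F / 2 := div_le_div_of_nonneg_left hF.le (by norm_num) hN
    linarith
  by_cases h0 : j = 0
  · exact key j₁ (by omega) hL1
  · exact key 0 (fun h => h0 h.symm) hL0

theorem slope_mon {n : ℕ} {V : Set ((Fin n → ℂ) × (Fin n → ℂ))} {P : MvPolynomial (Fin n) ℂ}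
    (hV : VData V P) {a : Fin n → ℤ} {Δ : R1 n} {χ : R2 n} {A A' : Fin n → R2 n}
    (hp : RPres V P a Δ χ A A') (m : Fin n → ℤ) :
    ∃ (σ : ℚ) (𝒢 : Finset (MvPolynomial (Fin n) ℂ)), (∀ G ∈ 𝒢, ¬ P ∣ G) ∧
      ∀ C : ℕ, ∃ C' : ℕ, ∀ᶠ N : ℕ in atTop, ∀ x : Fin n → ℂ, eval x P = 0 →
        ‖x‖ ≤ (N : ℝ) ^ C → (∀ G ∈ 𝒢, 1 ≤ ‖eval x G‖ * (N : ℝ) ^ C) → ∀ f : ℂ, f ≠ 0 →
        ‖f‖ * (N : ℝ) ^ C' ≤ 1 →
        h1 x f Δ ≠ 0 ∧ ∃ θ : ℂ, (e2 x f χ).eval θ = 0 ∧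
          |Real.log ‖mon m (yv Δ A x f θ)‖ - σ * Real.log ‖f‖| ≤ C' * Real.log N := by
  classical
  obtain ⟨Ch, hCh⟩ := charpoly_exists χ hp.monic (N4_δ Δ m) (N4_B A A' m)
  set r := χ.natDegree with hr
  have hrpos : 0 < r := hp.pos
  -- the facts at a point with `Δ ≠ 0`
  have hfacts : ∀ (x : Fin n → ℂ) (f : ℂ), eval x P = 0 → h1 x f Δ ≠ 0 →
      e2 x f Ch ≠ 0 ∧ (e2 x f Ch).natDegree = r ∧ h1 x f (Ch.coeff r) ≠ 0 ∧
      h1 x f (Ch.coeff 0) ≠ 0 ∧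
      ∀ T, (e2 x f Ch).eval T = 0 → ∃ θ, (e2 x f χ).eval θ = 0 ∧
        mon m (yv Δ A x f θ) = T := by
    intro x f hx hΔ
    obtain ⟨hm1, hm2⟩ := e2_monic χ hp.monic x f
    have hroots : ∀ θ ∈ (e2 x f χ).roots, (e2 x f χ).eval θ = 0 := fun θ hθ =>
      (Polynomial.mem_roots'.1 hθ).2
    have hcard : Multiset.card (e2 x f χ).roots = r := by
      have h := (IsAlgClosed.splits (e2 x f χ)).natDegree_eq_card_roots
      rw [← h, hm2]
    have hδ0 : h1 x f (N4_δ Δ m) ≠ 0 := by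
      rw [N4_δ, map_prod]
      simp only [map_mul, map_pow]
      exact Finset.prod_ne_zero_iff.2 fun j _ => mul_ne_zero (pow_ne_zero _ hΔ) (pow_ne_zero _ hΔ)
    obtain ⟨c1, c2, c3, c4, c5⟩ := N4_facts (e2 x f χ).roots (h1 x f (N4_δ Δ m)) hδ0
      (fun θ => (e2 x f (N4_B A A' m)).eval θ) (e2 x f Ch) (hCh x f)
    rw [hcard] at c2 c3
    have hco : ∀ j, (e2 x f Ch).coeff j = h1 x f (Ch.coeff j) := fun j => Polynomial.coeff_map _ _
    refine ⟨c1, c2, by rw [← hco]; exact c3, ?_, ?_⟩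
    · rw [← hco]
      exact c5 fun θ hθ => (N4_mon hp m x f θ hx hΔ (hroots θ hθ)).2.1
    · intro T hT
      obtain ⟨θ, hθ, e⟩ := c4 T hT
      exact ⟨θ, hroots θ hθ, by rw [e]; exact (N4_mon hp m x f θ hx hΔ (hroots θ hθ)).2.2⟩
  -- a point with `Δ ≠ 0`
  obtain ⟨x₀, hx₀, hlow₀⟩ := exists_point P hV.irr {N4_low P Δ} (by
    intro G hG
    rw [Finset.mem_singleton] at hG
    subst hG
    exact N4_low_not P hV.irr Δ)
  obtain ⟨f₀, hf₀⟩ : ∃ f₀ : ℂ, h1 x₀ f₀ Δ ≠ 0 := by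
    by_contra hcon
    push Not at hcon
    have hz : Δ.map (eval x₀) = 0 := by
      apply Polynomial.funext
      intro f
      rw [Polynomial.eval_zero, Polynomial.eval_map]
      exact hcon f
    have h2 := hlow₀ (N4_low P Δ) (Finset.mem_singleton_self _)
    rw [N4_low_eq P Δ hp.ne, ← Polynomial.coeff_map, hz, Polynomial.coeff_zero] at h2
    exact h2 rfl
  obtain ⟨-, -, hr0, h00, -⟩ := hfacts x₀ f₀ hx₀ hf₀
  have hex : ∀ G : R1 n, h1 x₀ f₀ G ≠ 0 → ∃ i, ¬ P ∣ G.coeff i := by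
    intro G hG
    by_contra hcon
    push Not at hcon
    apply hG
    rw [N4_h1_sum]
    exact Finset.sum_eq_zero fun i _ => by rw [N4_eval_zero (hcon i) hx₀, zero_mul]
  have hex0 := hex _ h00
  have hexr := hex _ hr0
  -- the slope
  set o : ℕ → ℕ := fun j => N4_ord P (Ch.coeff j) with ho
  set S := (Finset.Icc 1 r).filter (fun j => ∃ i, ¬ P ∣ (Ch.coeff j).coeff i) with hS
  have hrS : r ∈ S := by
    rw [hS, Finset.mem_filter, Finset.mem_Icc]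
    exact ⟨⟨hrpos, le_rfl⟩, hexr⟩
  obtain ⟨j₁, hj₁, hmax⟩ := S.exists_max_image (fun j => ((o 0 : ℚ) - o j) / j) ⟨r, hrS⟩
  have hj₁' := hj₁
  rw [hS, Finset.mem_filter, Finset.mem_Icc] at hj₁'
  obtain ⟨⟨hj₁1, hj₁r⟩, hj₁ex⟩ := hj₁'
  set σ : ℚ := ((o 0 : ℚ) - o j₁) / j₁ with hσ
  refine ⟨σ, insert (N4_low P Δ) ((Finset.range (r + 1)).image fun j => N4_low P (Ch.coeff j)),
    ?_, ?_⟩
  · intro G hG
    rw [Finset.mem_insert, Finset.mem_image] at hG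
    rcases hG with rfl | ⟨j, -, rfl⟩
    · exact N4_low_not P hV.irr _
    · exact N4_low_not P hV.irr _
  intro C
  obtain ⟨E₁, hE₁⟩ := N4_size P Δ (N4_ord P Δ) (N4_ord_lt P Δ) C
  choose E₂ hE₂ using fun j => N4_size P (Ch.coeff j) (o j) (N4_ord_lt P (Ch.coeff j)) C
  set E := E₁ + ∑ j ∈ Finset.range (r + 1), E₂ j with hE
  have hEle : ∀ j ≤ r, E₂ j ≤ E := by
    intro j hj
    have hjr : j ∈ Finset.range (r + 1) := Finset.mem_range.2 (by omega)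
    have := Finset.single_le_sum (f := E₂) (fun _ _ => Nat.zero_le _) hjr
    omega
  refine ⟨(r + 1) + (E + C + 2), ?_⟩
  filter_upwards [eventually_ge_atTop 2] with N hN x hx hxN hG f hf hfN
  have hN2 : (2 : ℝ) ≤ N := by exact_mod_cast hN
  have hN1 : (1 : ℝ) ≤ N := by linarith
  have hN0 : (0 : ℝ) < N := by linarith
  have hfn : 0 < ‖f‖ := norm_pos_iff.2 hf
  have hfE : ‖f‖ * (N : ℝ) ^ E ≤ 1 :=
    le_trans (mul_le_mul_of_nonneg_left (pow_le_pow_right₀ hN1 (by omega)) (norm_nonneg _)) hfN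
  have hf1 : ‖f‖ ≤ 1 := by
    have : (1 : ℝ) ≤ (N : ℝ) ^ E := one_le_pow₀ hN1
    nlinarith [norm_nonneg f]
  have hΔ : h1 x f Δ ≠ 0 := by
    intro h0
    have h2 := (hE₁ E (by omega) N hN x hx hxN f hfE).2 (by
      rw [← N4_low_eq P Δ hp.ne]
      exact hG _ (Finset.mem_insert_self _ _))
    rw [h0, norm_zero, zero_mul] at h2
    exact absurd h2 (not_le.2 (by positivity))
  refine ⟨hΔ, ?_⟩
  obtain ⟨hQ0, hQd, -, -, hroot⟩ := hfacts x f hx hΔ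
  set t : ℝ := ‖f‖ ^ (σ : ℝ) with ht
  have htpos : 0 < t := Real.rpow_pos_of_pos hfn _
  have hco : ∀ j, (e2 x f Ch).coeff j = h1 x f (Ch.coeff j) := fun j => Polynomial.coeff_map _ _
  have hti : ∀ i : ℕ, ‖f‖ ^ (o i) * t ^ i = ‖f‖ ^ ((o i : ℝ) + σ * i) := by
    intro i
    rw [ht, ← Real.rpow_natCast (‖f‖ ^ (σ : ℝ)) i, ← Real.rpow_mul hfn.le,
      ← Real.rpow_natCast ‖f‖ (o i), ← Real.rpow_add hfn]
  -- the exponents
  have hexp : ∀ i ≤ r, (∃ k, ¬ P ∣ (Ch.coeff i).coeff k) → (o 0 : ℝ) ≤ (o i : ℝ) + σ * i := by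
    intro i hi hexi
    rcases Nat.eq_zero_or_pos i with rfl | hipos
    · simp
    · have h1 := hmax i (by
        rw [hS, Finset.mem_filter, Finset.mem_Icc]
        exact ⟨⟨hipos, hi⟩, hexi⟩)
      have hiq : (0 : ℚ) < i := by exact_mod_cast hipos
      have h2 : ((o 0 : ℚ) - o i) ≤ σ * i := by
        rw [div_le_iff₀ hiq] at h1
        exact h1
      have h3 : (o 0 : ℚ) ≤ (o i : ℚ) + σ * i := by linarith
      exact_mod_cast h3
  have hexp1 : (o j₁ : ℝ) + σ * j₁ = (o 0 : ℝ) := by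
    have hj0 : (j₁ : ℚ) ≠ 0 := by
      have : j₁ ≠ 0 := by omega
      exact_mod_cast this
    have h3 : (o j₁ : ℚ) + σ * j₁ = (o 0 : ℚ) := by
      rw [hσ, div_mul_cancel₀ _ hj0]
      ring
    exact_mod_cast h3
  have hU : ∀ i ≤ r, ‖(e2 x f Ch).coeff i‖ * t ^ i ≤ (N : ℝ) ^ E * ‖f‖ ^ (o 0) := by
    intro i hi
    rw [hco]
    by_cases hexi : ∃ k, ¬ P ∣ (Ch.coeff i).coeff k
    · have g1 := (hE₂ i E (hEle i hi) N hN x hx hxN f hfE).1
      calc ‖h1 x f (Ch.coeff i)‖ * t ^ i ≤ ((N : ℝ) ^ E * ‖f‖ ^ (o i)) * t ^ i :=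
            mul_le_mul_of_nonneg_right g1 (by positivity)
        _ = (N : ℝ) ^ E * ‖f‖ ^ ((o i : ℝ) + σ * i) := by rw [mul_assoc, hti]
        _ ≤ (N : ℝ) ^ E * ‖f‖ ^ (o 0 : ℝ) := by
          apply mul_le_mul_of_nonneg_left _ (by positivity)
          exact Real.rpow_le_rpow_of_exponent_ge hfn hf1 (hexp i hi hexi)
        _ = _ := by rw [Real.rpow_natCast]
    · push Not at hexi
      have h0 : h1 x f (Ch.coeff i) = 0 := by
        rw [N4_h1_sum]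
        exact Finset.sum_eq_zero fun k _ => by rw [N4_eval_zero (hexi k) hx, zero_mul]
      rw [h0, norm_zero, zero_mul]
      positivity
  have hL : ∀ i ≤ r, (∃ k, ¬ P ∣ (Ch.coeff i).coeff k) → (o i : ℝ) + σ * i = (o 0 : ℝ) →
      ‖f‖ ^ (o 0) ≤ ‖(e2 x f Ch).coeff i‖ * t ^ i * (N : ℝ) ^ (C + 1) := by
    intro i hi hexi he
    rw [hco]
    have g1 := (hE₂ i E (hEle i hi) N hN x hx hxN f hfE).2 (by
      rw [← N4_low_eq P _ hexi]
      exact hG _ (Finset.mem_insert_of_mem (Finset.mem_image.2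
        ⟨i, Finset.mem_range.2 (by omega), rfl⟩)))
    calc ‖f‖ ^ (o 0) = ‖f‖ ^ (o i) * t ^ i := by rw [hti, he, Real.rpow_natCast]
      _ ≤ (‖h1 x f (Ch.coeff i)‖ * (N : ℝ) ^ (C + 1)) * t ^ i :=
        mul_le_mul_of_nonneg_right g1 (by positivity)
      _ = _ := by ring
  obtain ⟨T, hT, hT1, hT2⟩ := N4_core (e2 x f Ch) hQ0 r hQd t (‖f‖ ^ (o 0)) N htpos
    (by positivity) hN2 E C j₁ (by omega) hU (hL 0 (Nat.zero_le _) hex0 (by simp))
    (hL j₁ hj₁r hj₁ex hexp1)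
  obtain ⟨θ, hθ, hmon⟩ := hroot T hT
  refine ⟨θ, hθ, ?_⟩
  rw [hmon]
  set K : ℝ := 2 ^ (r + 1) * (N : ℝ) ^ (E + C + 2) with hK
  have hKpos : 0 < K := by positivity
  have hTpos : 0 < ‖T‖ := lt_trans (by positivity) hT1
  have hlogt : Real.log t = σ * Real.log ‖f‖ := Real.log_rpow hfn _
  have hlogK : Real.log K ≤ (((r + 1) + (E + C + 2) : ℕ) : ℝ) * Real.log N := by
    have e1 : Real.log K = ((r + 1 : ℕ) : ℝ) * Real.log 2 + ((E + C + 2 : ℕ) : ℝ) * Real.log N := by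
      rw [hK, Real.log_mul (by positivity) (by positivity), Real.log_pow, Real.log_pow]
    have e2 : Real.log 2 ≤ Real.log N := Real.log_le_log (by norm_num) hN2
    rw [e1, Nat.cast_add (r + 1) (E + C + 2), add_mul]
    exact add_le_add (mul_le_mul_of_nonneg_left e2 (Nat.cast_nonneg _)) le_rfl
  have hup : Real.log ‖T‖ ≤ Real.log t + Real.log K := by
    rw [← Real.log_mul htpos.ne' hKpos.ne']
    exact Real.log_le_log hTpos hT2.le
  have hlo : Real.log t - Real.log K ≤ Real.log ‖T‖ := by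
    rw [← Real.log_div htpos.ne' hKpos.ne']
    exact Real.log_le_log (by positivity) hT1.le
  rw [← hlogt, abs_le]
  constructor <;> linarith

end XV
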