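import Pool.Agent.Lib.MP_228259_lc.V.N4
import Pool.Agent.Lib.MP_228259_lc.P5b

/-!
XV-N5 (good_slope). A rational vector `q` with `a · q = 1` such that at all generic points of the
hypersurface some branch has `log |y_j| = q_j log |f| + O(log N)` as `f → 0`.

Proof. `hV.rel a (Pi.single j 1)` is a relation between `f = y^a` and `y_j`
(`mon (Pi.single j 1) y = y j`); at `x` put `R_x = R.map (…)` (coefficients `eval x`); it is nonzero
and its nonzero coefficients are between `N^{-C}` and `N^{C}` if the coefficients of `R` not divisible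
by `P` are in `𝒢` (those divisible by `P` vanish at `x`); `slope_rel`: for `|log |f|| ≥ C' log N` every
branch has `|log |y_j| - s_j log |f|| ≤ C'' log N` with `s_j` in a finite set `S_j ⊂ ℚ`; let
`S = Fintype.piFinset S_j`.
Kronecker vector: `m` integer with `m · s ≠ m · s'` for `s ≠ s'` in `S` (a nonzero polynomial does
not vanish on all integer points: `XW.int_poly` for `∏_{s ≠ s'} ((s - s') · X)`).
`slope_mon` for `m`: `σ`. For a generic `x`, small `f`, the branch `θ` given by `slope_mon` has a slope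
vector `s ∈ S` and `log |y^m| = ∑ m_j log |y_j|`, so `|m·s - σ| |log |f|| ≤ C''' log N`; for
`|log |f|| > C'''' log N` this forces `m·s = σ` (`m·s - σ`, `s ∈ S`, takes finitely many values).
Hence all these branches have the same slope vector `q` (the unique `s ∈ S` with `m·s = σ`), and such
an `s` exists because generic points exist (`gen`: for `𝒢 ∪ …` use `good_dir`-free argument: a point `x`
of `P = 0` where finitely many polynomials not divisible by `P` do not vanish, e.g. by `elim` along a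
coordinate direction; then `N → ∞` with this fixed `x`).
`a · q = 1`: `∑ a_j log |y_j| = log |f|` (`RPres.mono`) and `|log |f||` large.
`SlopeData` needs `1 ≤ ‖…‖`, constants `C'` may be enlarged.
-/

set_option autoImplicit false

namespace XV

open MvPolynomial Filter Topology

theorem N5_bev {n : ℕ} (x : Fin n → ℂ) (f y : ℂ) (R : R2 n) :
    bev f y (R.map (Polynomial.mapRingHom (MvPolynomial.eval x))) = (e2 x f R).eval y := by
  unfold bev e2
  rw [Polynomial.map_map]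
  have h : (Polynomial.evalRingHom f).comp (Polynomial.mapRingHom (MvPolynomial.eval x)) =
      h1 x f := by
    refine RingHom.ext fun p => ?_
    show Polynomial.eval f (p.map (MvPolynomial.eval x)) =
      Polynomial.eval₂ (MvPolynomial.eval x) f p
    rw [Polynomial.eval_map]
  rw [h]

theorem N5_mon_single {n : ℕ} (j : Fin n) (y : Fin n → ℂ) :
    mon (Pi.single j 1) y = y j := by
  unfold mon
  rw [Finset.prod_eq_single j]
  · simp
  · intro k _ hk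
    rw [Pi.single_eq_of_ne hk]
    simp
  · intro h
    exact absurd (Finset.mem_univ j) h

theorem N5_logmon {n : ℕ} (m : Fin n → ℤ) (y : Fin n → ℂ) (hy : ∀ j, y j ≠ 0) :
    Real.log ‖mon m y‖ = ∑ j, (m j : ℝ) * Real.log ‖y j‖ := by
  unfold mon
  rw [norm_prod, Real.log_prod]
  · refine Finset.sum_congr rfl fun j _ => ?_
    rw [norm_zpow, Real.log_zpow]
  · intro j _
    exact norm_ne_zero_iff.mpr (zpow_ne_zero _ (hy j))

theorem N5_deg {n : ℕ} (R : R2 n) : ∃ D : ℕ, R.natDegree ≤ D ∧ ∀ k, (R.coeff k).natDegree ≤ D := by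
  refine ⟨R.natDegree + ∑ k ∈ Finset.range (R.natDegree + 1), (R.coeff k).natDegree,
    Nat.le_add_right _ _, fun k => ?_⟩
  by_cases hk : k ≤ R.natDegree
  · have h : (R.coeff k).natDegree ≤
        ∑ k ∈ Finset.range (R.natDegree + 1), (R.coeff k).natDegree :=
      Finset.single_le_sum (f := fun k => (R.coeff k).natDegree) (fun _ _ => Nat.zero_le _)
        (Finset.mem_range.mpr (Nat.lt_succ_of_le hk))
    exact h.trans (Nat.le_add_left _ _)
  · rw [Polynomial.coeff_eq_zero_of_natDegree_lt (not_le.mp hk)]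
    simp

/-- uniform upper bounds at points of polynomial size -/
theorem N5_upper {n : ℕ} (𝒞 : Finset (MvPolynomial (Fin n) ℂ)) (C : ℕ) :
    ∃ C' : ℕ, ∀ᶠ N : ℕ in atTop, ∀ x : Fin n → ℂ, ‖x‖ ≤ (N : ℝ) ^ C →
      ∀ G ∈ 𝒞, ‖eval x G‖ ≤ (N : ℝ) ^ C' := by
  choose cf hcf using fun G : MvPolynomial (Fin n) ℂ => eval_bound G
  refine ⟨1 + (C + 1) * 𝒞.sup cf, ?_⟩
  filter_upwards [eventually_ge_atTop (max 2 (𝒞.sup cf))] with N hN x hx G hG
  have hN2 : 2 ≤ N := le_trans (le_max_left _ _) hN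
  have hNs : 𝒞.sup cf ≤ N := le_trans (le_max_right _ _) hN
  have hG' : cf G ≤ 𝒞.sup cf := Finset.le_sup hG
  have hN2' : (2 : ℝ) ≤ N := by exact_mod_cast hN2
  have hN1 : (1 : ℝ) ≤ N := by linarith
  have hp1 : (1 : ℝ) ≤ (N : ℝ) ^ C := one_le_pow₀ hN1
  have h3 : 1 + ‖x‖ ≤ (N : ℝ) ^ (C + 1) := by
    rw [pow_succ]
    nlinarith
  have h4 : (cf G : ℝ) ≤ N := by exact_mod_cast hG'.trans hNs
  have h5 : (0 : ℝ) ≤ 1 + ‖x‖ := by positivity
  calc ‖eval x G‖ ≤ cf G * (1 + ‖x‖) ^ cf G := hcf G x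
    _ ≤ N * ((N : ℝ) ^ (C + 1)) ^ cf G := by gcongr
    _ ≤ N * ((N : ℝ) ^ (C + 1)) ^ 𝒞.sup cf := by
        gcongr
        exact one_le_pow₀ hN1
    _ = (N : ℝ) ^ (1 + (C + 1) * 𝒞.sup cf) := by
        rw [← pow_mul, pow_add, pow_one]

/-- for a fixed point a lower bound -/
theorem N5_fixed {n : ℕ} (𝒢 : Finset (MvPolynomial (Fin n) ℂ)) (x : Fin n → ℂ)
    (hx : ∀ G ∈ 𝒢, eval x G ≠ 0) :
    ∀ᶠ N : ℕ in atTop, ‖x‖ ≤ (N : ℝ) ^ 1 ∧ ∀ G ∈ 𝒢, 1 ≤ ‖eval x G‖ * (N : ℝ) ^ 1 := by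
  have hT : Tendsto (fun N : ℕ => (N : ℝ)) atTop atTop := tendsto_natCast_atTop_atTop
  refine Filter.Eventually.and ?_ ?_
  · filter_upwards [hT.eventually_ge_atTop ‖x‖] with N hN
    rw [pow_one]
    exact hN
  · rw [Finset.eventually_all]
    intro G hG
    have hp : 0 < ‖eval x G‖ := norm_pos_iff.mpr (hx G hG)
    filter_upwards [hT.eventually_ge_atTop (1 / ‖eval x G‖)] with N hN
    rw [pow_one]
    rw [div_le_iff₀ hp] at hN
    rw [mul_comm]
    exact hN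

/-- all branches have slopes in a finite set -/
theorem N5_branches {n : ℕ} {V : Set ((Fin n → ℂ) × (Fin n → ℂ))} {P : MvPolynomial (Fin n) ℂ}
    (hV : VData V P) {a : Fin n → ℤ} {Δ : R1 n} {χ : R2 n} {A A' : Fin n → R2 n}
    (hp : RPres V P a Δ χ A A') :
    ∃ (S : Finset (Fin n → ℚ)) (𝒢 : Finset (MvPolynomial (Fin n) ℂ)), (∀ G ∈ 𝒢, ¬ P ∣ G) ∧
      ∀ C : ℕ, ∃ C' : ℕ, ∀ᶠ N : ℕ in atTop, ∀ x : Fin n → ℂ, eval x P = 0 →
        ‖x‖ ≤ (N : ℝ) ^ C → (∀ G ∈ 𝒢, 1 ≤ ‖eval x G‖ * (N : ℝ) ^ C) → ∀ f : ℂ, f ≠ 0 →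
        ‖f‖ * (N : ℝ) ^ C' ≤ 1 → h1 x f Δ ≠ 0 → ∀ θ : ℂ, (e2 x f χ).eval θ = 0 →
        ∃ s ∈ S, ∀ j, |Real.log ‖yv Δ A x f θ j‖ - s j * Real.log ‖f‖| ≤ C' * Real.log N := by
  classical
  choose R hR using fun j : Fin n => hV.rel a (Pi.single j 1)
  choose Df hDf using fun j : Fin n => N5_deg (R j)
  have hDle : ∀ j, Df j ≤ ∑ i, Df i := fun j =>
    Finset.single_le_sum (f := Df) (fun _ _ => Nat.zero_le _) (Finset.mem_univ j)
  obtain ⟨D, hD⟩ : ∃ D, D = ∑ i, Df i := ⟨_, rfl⟩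
  rw [← hD] at hDle
  have hd1 : ∀ j, (R j).natDegree ≤ D := fun j => (hDf j).1.trans (hDle j)
  have hd2 : ∀ j k, ((R j).coeff k).natDegree ≤ D := fun j k => ((hDf j).2 k).trans (hDle j)
  obtain ⟨S₀, K, hK, hslope⟩ := slope_rel D
  obtain ⟨𝒞, h𝒞⟩ : ∃ 𝒞 : Finset (MvPolynomial (Fin n) ℂ),
      ∀ j, ∀ k ≤ D, ∀ i ≤ D, ((R j).coeff k).coeff i ∈ 𝒞 := by
    refine ⟨((Finset.univ : Finset (Fin n)) ×ˢ (Finset.range (D + 1) ×ˢ
      Finset.range (D + 1))).image (fun t => ((R t.1).coeff t.2.1).coeff t.2.2), ?_⟩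
    intro j k hk i hi
    refine Finset.mem_image.mpr ⟨(j, k, i), ?_, rfl⟩
    rw [Finset.mem_product, Finset.mem_product]
    exact ⟨Finset.mem_univ _, Finset.mem_range.mpr (Nat.lt_succ_of_le hk),
      Finset.mem_range.mpr (Nat.lt_succ_of_le hi)⟩
  refine ⟨Fintype.piFinset (fun _ => S₀), 𝒞.filter (fun G => ¬ P ∣ G),
    fun G hG => (Finset.mem_filter.mp hG).2, ?_⟩
  intro C
  obtain ⟨C2, hC2⟩ := N5_upper 𝒞 C
  obtain ⟨C3, hC3⟩ : ∃ C3, C3 = max C C2 := ⟨_, rfl⟩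
  have hC3a : C ≤ C3 := by rw [hC3]; exact le_max_left _ _
  have hC3b : C2 ≤ C3 := by rw [hC3]; exact le_max_right _ _
  obtain ⟨C', hC'⟩ := exists_nat_gt (K * (1 + C3))
  refine ⟨C', ?_⟩
  filter_upwards [hC2, eventually_ge_atTop 3] with N hN hN3 x hxP hx hG f hf hfN hΔ θ hθ
  have hN3' : (3 : ℝ) ≤ N := by exact_mod_cast hN3
  have hN1 : (1 : ℝ) ≤ N := by linarith
  have hN0 : (0 : ℝ) < N := by linarith
  have hlog : 1 ≤ Real.log N := by
    rw [Real.le_log_iff_exp_le hN0]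
    exact Real.exp_one_lt_three.le.trans hN3'
  -- the point of `V`
  have hmem := hp.mem x f θ hxP hΔ hθ
  have hmono := hp.mono x f θ hxP hΔ hθ
  have hy0 : ∀ j, yv Δ A x f θ j ≠ 0 := by
    intro j h
    have h2 := hp.inv x f θ hxP hΔ hθ j
    have h3 : (e2 x f (A j)).eval θ / h1 x f Δ = 0 := h
    rw [h3, zero_mul] at h2
    exact zero_ne_one h2
  have hB1 : (1 : ℝ) ≤ (N : ℝ) ^ C3 := one_le_pow₀ hN1
  have hlogB : Real.log ((N : ℝ) ^ C3) = C3 * Real.log N := by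
    rw [Real.log_pow]
  have hKB : K * (1 + Real.log ((N : ℝ) ^ C3)) ≤ K * (1 + C3) * Real.log N := by
    rw [hlogB, mul_assoc]
    refine mul_le_mul_of_nonneg_left ?_ hK.le
    nlinarith
  have hKB2 : K * (1 + C3) * Real.log N < C' * Real.log N :=
    mul_lt_mul_of_pos_right hC' (by linarith)
  have hfp : 0 < ‖f‖ := norm_pos_iff.mpr hf
  have hlf : C' * Real.log N ≤ |Real.log ‖f‖| := by
    have h1 : Real.log (‖f‖ * (N : ℝ) ^ C') ≤ 0 :=
      Real.log_nonpos (by positivity) hfN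
    rw [Real.log_mul hfp.ne' (by positivity), Real.log_pow] at h1
    rw [le_abs]
    right
    linarith
  have key : ∀ j, ∃ s ∈ S₀, |Real.log ‖yv Δ A x f θ j‖ - s * Real.log ‖f‖| ≤
      C' * Real.log N := by
    intro j
    obtain ⟨Rx, hRx⟩ : ∃ Rx, Rx = (R j).map (Polynomial.mapRingHom (MvPolynomial.eval x)) :=
      ⟨_, rfl⟩
    have hco : ∀ k i, (Rx.coeff k).coeff i = eval x (((R j).coeff k).coeff i) := by
      intro k i
      rw [hRx, Polynomial.coeff_map, Polynomial.coe_mapRingHom, Polynomial.coeff_map]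
    have hcoef : ∀ k i, (Rx.coeff k).coeff i = 0 ∨
        (1 / (N : ℝ) ^ C3 ≤ ‖(Rx.coeff k).coeff i‖ ∧ ‖(Rx.coeff k).coeff i‖ ≤ (N : ℝ) ^ C3) := by
      intro k i
      rw [hco]
      by_cases hk : k ≤ D
      · by_cases hi : i ≤ D
        · have hm := h𝒞 j k hk i hi
          by_cases hdiv : P ∣ ((R j).coeff k).coeff i
          · left
            obtain ⟨Q, hQ⟩ := hdiv
            rw [hQ, map_mul, hxP, zero_mul]
          · right
            have hl := hG _ (Finset.mem_filter.mpr ⟨hm, hdiv⟩)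
            have hu := hN x hx _ hm
            refine ⟨?_, hu.trans (pow_le_pow_right₀ hN1 hC3b)⟩
            rw [div_le_iff₀ (by positivity)]
            exact hl.trans (mul_le_mul_of_nonneg_left (pow_le_pow_right₀ hN1 hC3a)
              (norm_nonneg _))
        · left
          rw [Polynomial.coeff_eq_zero_of_natDegree_lt (lt_of_le_of_lt (hd2 j k) (not_le.mp hi)),
            map_zero]
      · left
        rw [Polynomial.coeff_eq_zero_of_natDegree_lt (lt_of_le_of_lt (hd1 j) (not_le.mp hk)),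
          Polynomial.coeff_zero, map_zero]
    have hne : Rx ≠ 0 := by
      intro h0
      obtain ⟨i, k, hik⟩ := (hR j).1
      have hk : k ≤ D := by
        by_contra hcon
        apply hik
        rw [Polynomial.coeff_eq_zero_of_natDegree_lt (lt_of_le_of_lt (hd1 j) (not_le.mp hcon)),
          Polynomial.coeff_zero]
        exact dvd_zero _
      have hi : i ≤ D := by
        by_contra hcon
        apply hik
        rw [Polynomial.coeff_eq_zero_of_natDegree_lt (lt_of_le_of_lt (hd2 j k) (not_le.mp hcon))]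
        exact dvd_zero _
      have hl := hG _ (Finset.mem_filter.mpr ⟨h𝒞 j k hk i hi, hik⟩)
      rw [← hco, h0] at hl
      simp at hl
      linarith
    have hbev : bev f (yv Δ A x f θ j) Rx = 0 := by
      rw [hRx, N5_bev]
      have h2 := (hR j).2 _ hmem
      have h3 : mon (Pi.single j 1) (fun j => (e2 x f (A j)).eval θ / h1 x f Δ) =
          yv Δ A x f θ j := N5_mon_single j _
      simp only at h2
      rw [hmono, h3] at h2
      exact h2
    have hnd : Rx.natDegree ≤ D := by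
      rw [hRx]
      exact Polynomial.natDegree_map_le.trans (hd1 j)
    have hnd2 : ∀ k, (Rx.coeff k).natDegree ≤ D := by
      intro k
      rw [hRx, Polynomial.coeff_map, Polynomial.coe_mapRingHom]
      exact Polynomial.natDegree_map_le.trans (hd2 j k)
    obtain ⟨s, hs, hs2⟩ := hslope Rx hne hnd hnd2 _ hB1 hcoef f _ hf (hy0 j) hbev
      (by linarith)
    exact ⟨s, hs, by linarith⟩
  choose s hs hs2 using key
  exact ⟨s, Fintype.mem_piFinset.mpr hs, hs2⟩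

theorem N5_kron {n : ℕ} (S : Finset (Fin n → ℚ)) :
    ∃ m : Fin n → ℤ, ∀ s ∈ S, ∀ s' ∈ S,
      ∑ j, (m j : ℚ) * s j = ∑ j, (m j : ℚ) * s' j → s = s' := by
  classical
  obtain ⟨Q, hQd⟩ : ∃ Q : (Fin n → ℚ) → MvPolynomial (Fin n) ℂ,
      ∀ d, Q d = ∑ j, C ((d j : ℚ) : ℂ) * X j := ⟨_, fun _ => rfl⟩
  have hQe : ∀ (d : Fin n → ℚ) (x : Fin n → ℂ), eval x (Q d) = ∑ j, ((d j : ℚ) : ℂ) * x j := by
    intro d x
    rw [hQd, map_sum]
    refine Finset.sum_congr rfl fun j _ => ?_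
    rw [map_mul, eval_C, eval_X]
  have hQ0 : ∀ d : Fin n → ℚ, d ≠ 0 → Q d ≠ 0 := by
    intro d hd h
    apply hd
    funext j
    have h2 := hQe d (Pi.single j 1)
    rw [h, map_zero, Finset.sum_eq_single j] at h2
    · rw [Pi.single_eq_same, mul_one] at h2
      exact_mod_cast h2.symm
    · intro k _ hk
      rw [Pi.single_eq_of_ne hk, mul_zero]
    · intro h3
      exact absurd (Finset.mem_univ j) h3
  obtain ⟨m, hm⟩ := XW.int_poly (∏ t ∈ (S ×ˢ S).filter (fun t => t.1 ≠ t.2), Q (t.1 - t.2))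
    (Finset.prod_ne_zero_iff.mpr fun t ht =>
      hQ0 _ (sub_ne_zero.mpr (Finset.mem_filter.mp ht).2))
  refine ⟨m, fun s hs s' hs' h => ?_⟩
  by_contra hne
  rw [map_prod, Finset.prod_ne_zero_iff] at hm
  apply hm (s, s') (Finset.mem_filter.mpr ⟨Finset.mem_product.mpr ⟨hs, hs'⟩, hne⟩)
  rw [hQe]
  have h2 : ∑ j, (m j : ℚ) * s j - ∑ j, (m j : ℚ) * s' j = 0 := sub_eq_zero.mpr h
  have h3 : ∑ j, (s j - s' j) * (m j : ℚ) = 0 := by
    rw [← h2, ← Finset.sum_sub_distrib]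
    refine Finset.sum_congr rfl fun j _ => ?_
    ring
  have h4 : ((∑ j, (s j - s' j) * (m j : ℚ) : ℚ) : ℂ) = 0 := by
    rw [h3]
    exact Rat.cast_zero
  rw [← h4, Rat.cast_sum]
  refine Finset.sum_congr rfl fun j _ => ?_
  show (((s - s') j : ℚ) : ℂ) * XW.zc m j = _
  rw [Pi.sub_apply, Rat.cast_mul]
  congr 1

theorem N5_lin {n : ℕ} (c : Fin n → ℤ) (s : Fin n → ℚ) (L : Fin n → ℝ) (F E : ℝ)
    (h : ∀ j, |L j - s j * F| ≤ E) :
    |∑ j, (c j : ℝ) * L j - ((∑ j, (c j : ℚ) * s j : ℚ) : ℝ) * F| ≤ (∑ j, |(c j : ℝ)|) * E := by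
  have e : ∑ j, (c j : ℝ) * L j - ((∑ j, (c j : ℚ) * s j : ℚ) : ℝ) * F =
      ∑ j, (c j : ℝ) * (L j - s j * F) := by
    push_cast
    rw [Finset.sum_mul, ← Finset.sum_sub_distrib]
    refine Finset.sum_congr rfl fun j _ => ?_
    ring
  rw [e, Finset.sum_mul]
  refine (Finset.abs_sum_le_sum_abs _ _).trans (Finset.sum_le_sum fun j _ => ?_)
  rw [abs_mul]
  exact mul_le_mul_of_nonneg_left (h j) (abs_nonneg _)

theorem N5_gap {n : ℕ} (S : Finset (Fin n → ℚ)) (m : Fin n → ℤ) (σ : ℚ) :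
    ∃ g : ℝ, 0 < g ∧ ∀ s ∈ S, ∑ j, (m j : ℚ) * s j ≠ σ →
      g ≤ |((∑ j, (m j : ℚ) * s j - σ : ℚ) : ℝ)| := by
  classical
  induction S using Finset.induction_on with
  | empty => exact ⟨1, one_pos, fun s hs => absurd hs (Finset.notMem_empty s)⟩
  | insert s₀ S hs₀ ih =>
    obtain ⟨g, hg, hgap⟩ := ih
    by_cases h0 : ∑ j, (m j : ℚ) * s₀ j = σ
    · refine ⟨g, hg, fun s hs hne => ?_⟩
      rcases Finset.mem_insert.mp hs with rfl | hs'
      · exact absurd h0 hne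
      · exact hgap s hs' hne
    · have hpos : 0 < |((∑ j, (m j : ℚ) * s₀ j - σ : ℚ) : ℝ)| := by
        rw [abs_pos]
        exact_mod_cast sub_ne_zero.mpr h0
      refine ⟨min g _, lt_min hg hpos, fun s hs hne => ?_⟩
      rcases Finset.mem_insert.mp hs with rfl | hs'
      · exact min_le_right _ _
      · exact (min_le_left _ _).trans (hgap s hs' hne)

theorem good_slope {n : ℕ} {V : Set ((Fin n → ℂ) × (Fin n → ℂ))} {P : MvPolynomial (Fin n) ℂ}
    (hV : VData V P) {a : Fin n → ℤ} {Δ : R1 n} {χ : R2 n} {A A' : Fin n → R2 n}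
    (hp : RPres V P a Δ χ A A') :
    ∃ (q : Fin n → ℚ) (S : Finset (Fin n → ℚ)) (𝒢 : Finset (MvPolynomial (Fin n) ℂ)),
      ∑ j, (a j : ℚ) * q j = 1 ∧ SlopeData P Δ χ A q S 𝒢 := by
  classical
  obtain ⟨S, 𝒢₁, h𝒢₁, hbr⟩ := N5_branches hV hp
  obtain ⟨m, hm⟩ := N5_kron S
  obtain ⟨σ, 𝒢₂, h𝒢₂, hmon⟩ := slope_mon hV hp m
  obtain ⟨g, hg, hgap⟩ := N5_gap S m σ
  have hG12 : ∀ G ∈ 𝒢₁ ∪ 𝒢₂, ¬ P ∣ G := by
    intro G hG
    rcases Finset.mem_union.mp hG with h | h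
    · exact h𝒢₁ G h
    · exact h𝒢₂ G h
  have hy0 : ∀ (x : Fin n → ℂ) (f θ : ℂ), eval x P = 0 → h1 x f Δ ≠ 0 →
      (e2 x f χ).eval θ = 0 → ∀ j, yv Δ A x f θ j ≠ 0 := by
    intro x f θ hxP hΔ hθ j h
    have h2 := hp.inv x f θ hxP hΔ hθ j
    have h3 : (e2 x f (A j)).eval θ / h1 x f Δ = 0 := h
    rw [h3, zero_mul] at h2
    exact zero_ne_one h2
  have claim : ∀ C : ℕ, ∃ C' : ℕ, ∀ᶠ N : ℕ in atTop, ∀ x : Fin n → ℂ, eval x P = 0 →
      ‖x‖ ≤ (N : ℝ) ^ C → (∀ G ∈ 𝒢₁ ∪ 𝒢₂, 1 ≤ ‖eval x G‖ * (N : ℝ) ^ C) → ∀ f : ℂ, f ≠ 0 →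
      ‖f‖ * (N : ℝ) ^ C' ≤ 1 → h1 x f Δ ≠ 0 ∧
      (∃ θ : ℂ, (e2 x f χ).eval θ = 0 ∧ ∃ s ∈ S, ∑ j, (m j : ℚ) * s j = σ ∧
        ∀ j, |Real.log ‖yv Δ A x f θ j‖ - s j * Real.log ‖f‖| ≤ C' * Real.log N) ∧
      (∀ θ : ℂ, (e2 x f χ).eval θ = 0 → ∃ s ∈ S,
        ∀ j, |Real.log ‖yv Δ A x f θ j‖ - s j * Real.log ‖f‖| ≤ C' * Real.log N) := by
    intro C
    obtain ⟨C1, hC1⟩ := hbr C
    obtain ⟨C2, hC2⟩ := hmon C
    obtain ⟨M, hM⟩ : ∃ M : ℝ, M = ∑ j, |(m j : ℝ)| := ⟨_, rfl⟩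
    obtain ⟨C3, hC3⟩ := exists_nat_gt ((C2 + M * C1) / g)
    refine ⟨C1 + C2 + C3, ?_⟩
    filter_upwards [hC1, hC2, eventually_ge_atTop 3] with N hN1 hN2 hN3 x hxP hx hG f hf hfN
    have hN3' : (3 : ℝ) ≤ N := by exact_mod_cast hN3
    have hN1' : (1 : ℝ) ≤ N := by linarith
    have hlogN : 0 < Real.log N := Real.log_pos (by linarith)
    have hfp : 0 < ‖f‖ := norm_pos_iff.mpr hf
    have hf1 : ‖f‖ * (N : ℝ) ^ C1 ≤ 1 := by
      refine le_trans (mul_le_mul_of_nonneg_left ?_ hfp.le) hfN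
      exact pow_le_pow_right₀ hN1' (by omega)
    have hf2 : ‖f‖ * (N : ℝ) ^ C2 ≤ 1 := by
      refine le_trans (mul_le_mul_of_nonneg_left ?_ hfp.le) hfN
      exact pow_le_pow_right₀ hN1' (by omega)
    have hlf : ((C1 + C2 + C3 : ℕ) : ℝ) * Real.log N ≤ |Real.log ‖f‖| := by
      have h1 : Real.log (‖f‖ * (N : ℝ) ^ (C1 + C2 + C3)) ≤ 0 :=
        Real.log_nonpos (by positivity) hfN
      rw [Real.log_mul hfp.ne' (by positivity), Real.log_pow] at h1
      rw [le_abs]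
      right
      linarith
    obtain ⟨hΔ, θ, hθ, hθ2⟩ := hN2 x hxP hx (fun G hG' => hG G (Finset.mem_union_right _ hG'))
      f hf hf2
    have hall := hN1 x hxP hx (fun G hG' => hG G (Finset.mem_union_left _ hG')) f hf hf1 hΔ
    have hcc : (C1 : ℝ) * Real.log N ≤ ((C1 + C2 + C3 : ℕ) : ℝ) * Real.log N := by
      refine mul_le_mul_of_nonneg_right ?_ hlogN.le
      exact_mod_cast (by omega : C1 ≤ C1 + C2 + C3)
    refine ⟨hΔ, ⟨θ, hθ, ?_⟩, ?_⟩
    · obtain ⟨s, hs, hs2⟩ := hall θ hθ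
      refine ⟨s, hs, ?_, fun j => (hs2 j).trans hcc⟩
      by_contra hne
      have h1 := hgap s hs hne
      have h2 := N5_lin m s _ _ _ hs2
      rw [← N5_logmon m _ (hy0 x f θ hxP hΔ hθ), ← hM] at h2
      have h3 : |((∑ j, (m j : ℚ) * s j - σ : ℚ) : ℝ)| * |Real.log ‖f‖| ≤
          (C2 + M * C1) * Real.log N := by
        rw [← abs_mul]
        have e : ((∑ j, (m j : ℚ) * s j - σ : ℚ) : ℝ) * Real.log ‖f‖ =
            (Real.log ‖mon m (yv Δ A x f θ)‖ - σ * Real.log ‖f‖) -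
            (Real.log ‖mon m (yv Δ A x f θ)‖ -
              ((∑ j, (m j : ℚ) * s j : ℚ) : ℝ) * Real.log ‖f‖) := by
          rw [Rat.cast_sub]
          ring
        rw [e]
        refine (abs_sub _ _).trans ?_
        linarith
      have h4 : g * (((C1 + C2 + C3 : ℕ) : ℝ) * Real.log N) ≤ (C2 + M * C1) * Real.log N :=
        (mul_le_mul h1 hlf (by positivity) (abs_nonneg _)).trans h3
      have h5 : g * ((C1 + C2 + C3 : ℕ) : ℝ) ≤ C2 + M * C1 := by
        rw [← mul_assoc] at h4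
        exact le_of_mul_le_mul_right h4 hlogN
      rw [div_lt_iff₀ hg] at hC3
      have h6 : (C3 : ℝ) * g ≤ g * ((C1 + C2 + C3 : ℕ) : ℝ) := by
        rw [mul_comm]
        refine mul_le_mul_of_nonneg_left ?_ hg.le
        exact_mod_cast (by omega : C3 ≤ C1 + C2 + C3)
      linarith
    · intro θ' hθ'
      obtain ⟨s, hs, hs2⟩ := hall θ' hθ'
      exact ⟨s, hs, fun j => (hs2 j).trans hcc⟩
  obtain ⟨x₀, hx₀P, hx₀⟩ := exists_point P hV.irr (𝒢₁ ∪ 𝒢₂) hG12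
  obtain ⟨C', hC'⟩ := claim 1
  obtain ⟨N, hN, ⟨hNx, hNG⟩, hN3⟩ :=
    (hC'.and ((N5_fixed _ x₀ hx₀).and (eventually_ge_atTop 3))).exists
  have hN3' : (3 : ℝ) ≤ N := by exact_mod_cast hN3
  have hN0 : (0 : ℝ) < N := by linarith
  have hlogN : 0 < Real.log N := Real.log_pos (by linarith)
  have hfix := hN x₀ hx₀P hNx hNG
  obtain ⟨q, hqS, hqσ⟩ : ∃ q ∈ S, ∑ j, (m j : ℚ) * q j = σ := by
    have h := hfix (((1 / (N : ℝ) ^ C' : ℝ)) : ℂ)
      (by
        rw [Complex.ofReal_ne_zero]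
        positivity)
      (by
        rw [Complex.norm_real, Real.norm_of_nonneg (by positivity)]
        rw [div_mul_cancel₀]
        positivity)
    obtain ⟨_, ⟨θ, _, s, hs, hsσ, _⟩, _⟩ := h
    exact ⟨s, hs, hsσ⟩
  refine ⟨q, S, 𝒢₁ ∪ 𝒢₂, ?_, hG12, ?_⟩
  · by_contra hne
    obtain ⟨Ma, hMa⟩ : ∃ Ma : ℝ, Ma = ∑ j, |(a j : ℝ)| := ⟨_, rfl⟩
    have hMa0 : 0 ≤ Ma := by
      rw [hMa]
      exact Finset.sum_nonneg fun j _ => abs_nonneg _
    have hdpos : 0 < |((∑ j, (a j : ℚ) * q j - 1 : ℚ) : ℝ)| := by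
      rw [abs_pos]
      exact_mod_cast sub_ne_zero.mpr hne
    obtain ⟨d, hd⟩ : ∃ d : ℝ, d = |((∑ j, (a j : ℚ) * q j - 1 : ℚ) : ℝ)| := ⟨_, rfl⟩
    rw [← hd] at hdpos
    obtain ⟨E, hE⟩ : ∃ E : ℝ, E = C' * Real.log N := ⟨_, rfl⟩
    have hE0 : 0 ≤ E := by
      rw [hE]
      positivity
    obtain ⟨T, hT⟩ : ∃ T : ℝ, T = E + (Ma * E + 1) / d := ⟨_, rfl⟩
    have hTE : E ≤ T := by
      rw [hT]
      have : 0 ≤ (Ma * E + 1) / d := by positivity
      linarith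
    have hT0 : 0 ≤ T := hE0.trans hTE
    have hdT : Ma * E < d * T := by
      rw [hT, mul_add, mul_div_cancel₀ _ hdpos.ne']
      have : 0 ≤ d * E := by positivity
      linarith
    have hfn : ‖((Real.exp (-T) : ℝ) : ℂ)‖ = Real.exp (-T) := by
      rw [Complex.norm_real, Real.norm_of_nonneg (Real.exp_pos _).le]
    have hlogf : Real.log ‖((Real.exp (-T) : ℝ) : ℂ)‖ = -T := by
      rw [hfn, Real.log_exp]
    have hf0 : ((Real.exp (-T) : ℝ) : ℂ) ≠ 0 := by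
      rw [Complex.ofReal_ne_zero]
      exact (Real.exp_pos _).ne'
    have hfs : ‖((Real.exp (-T) : ℝ) : ℂ)‖ * (N : ℝ) ^ C' ≤ 1 := by
      rw [hfn]
      have h1 : (N : ℝ) ^ C' = Real.exp E := by
        rw [hE, mul_comm, Real.exp_mul, Real.exp_log hN0, Real.rpow_natCast]
      rw [h1, ← Real.exp_add, Real.exp_le_one_iff]
      linarith
    obtain ⟨hΔ, ⟨θ, hθ, s, hs, hsσ, hs2⟩, _⟩ := hfix _ hf0 hfs
    have hsq : s = q := hm s hs q hqS (hsσ.trans hqσ.symm)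
    rw [hsq] at hs2
    have h2 := N5_lin a q _ _ _ hs2
    rw [← N5_logmon a _ (hy0 x₀ _ θ hx₀P hΔ hθ)] at h2
    have h3 : mon a (yv Δ A x₀ ((Real.exp (-T) : ℝ) : ℂ) θ) = ((Real.exp (-T) : ℝ) : ℂ) :=
      hp.mono x₀ _ θ hx₀P hΔ hθ
    rw [h3, hlogf, ← hMa, ← hE] at h2
    have h4 : -T - ((∑ j, (a j : ℚ) * q j : ℚ) : ℝ) * -T =
        ((∑ j, (a j : ℚ) * q j - 1 : ℚ) : ℝ) * T := by
      rw [Rat.cast_sub, Rat.cast_one]
      ring
    rw [h4, abs_mul, ← hd, abs_of_nonneg hT0] at h2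
    linarith
  · intro C
    obtain ⟨C'', hC''⟩ := claim C
    refine ⟨C'', ?_⟩
    filter_upwards [hC''] with N hN x hxP hx hG f hf hfN
    obtain ⟨hΔ, ⟨θ, hθ, s, hs, hsσ, hs2⟩, hall⟩ := hN x hxP hx hG f hf hfN
    have hsq : s = q := hm s hs q hqS (hsσ.trans hqσ.symm)
    rw [hsq] at hs2
    exact ⟨hΔ, ⟨θ, hθ, hs2⟩, hall⟩

end XV
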