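import Pool.Agent.Lib.MP_228259_lc.V.Defs2
import Pool.Agent.Lib.MP_228259_lc.V.N0

/-!
XV-N6 (not_alg). If `b · q ≠ 0` for the slope vector `q`, then `y^b` is transcendental over `ℂ(X)`.

Proof. Suppose `G ∈ ℂ[x][F]`, some coefficient not divisible by `P`, `G(x, y^b) = 0` on `V`. Choose a
point `x` with `P(x) = 0` at which no polynomial of `𝒢` and not that coefficient vanish (product `G'` of
all of them is not divisible by the irreducible `P`; a point of `P = 0` with `G' ≠ 0`: `elim` along a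
direction with `dirD v P ≠ 0`, `R(x) ≠ 0`, the leading coefficient in `T` of `P(x + T v)` nonzero, then
a root `t` of `P(x + t v)`; or the Nullstellensatz). `SlopeData` with `C` such that
`‖x‖ ≤ N^C`, `1 ≤ ‖eval x G‖ N^C` (all large `N`): for `f → 0` (fixed large `N`) there are branches with
`|log |y_j| - q_j log |f|| ≤ const`, so `|y^b| → 0` or `∞` as `f → 0`, while `y^b ≠ 0` is a root of the
fixed nonzero polynomial `G(x, .)`: bounded above and below. Contradiction.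
-/

set_option autoImplicit false

namespace XV

open MvPolynomial Filter Topology

theorem N6_bound (Q : Polynomial ℂ) (hQ : Q ≠ 0) :
    ∃ M : ℝ, ∀ w : ℂ, Q.eval w = 0 → |Real.log ‖w‖| ≤ M := by
  classical
  refine ⟨∑ w ∈ Q.roots.toFinset, |Real.log ‖w‖|, fun w hw => ?_⟩
  exact Finset.single_le_sum (f := fun w : ℂ => |Real.log ‖w‖|) (fun _ _ => abs_nonneg _)
    (Multiset.mem_toFinset.2 ((Polynomial.mem_roots hQ).2 hw))

theorem N6_log {n : ℕ} (b : Fin n → ℤ) (y : Fin n → ℂ) (hy : ∀ j, y j ≠ 0) :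
    Real.log ‖mon b y‖ = ∑ j, (b j : ℝ) * Real.log ‖y j‖ := by
  unfold mon
  rw [norm_prod, Real.log_prod (fun j _ => by
    rw [norm_zpow]; exact zpow_ne_zero _ (norm_ne_zero_iff.2 (hy j)))]
  refine Finset.sum_congr rfl fun j _ => ?_
  rw [norm_zpow, Real.log_zpow]

theorem not_alg {n : ℕ} {V : Set ((Fin n → ℂ) × (Fin n → ℂ))} {P : MvPolynomial (Fin n) ℂ}
    (hV : VData V P) {a : Fin n → ℤ} {Δ : R1 n} {χ : R2 n} {A A' : Fin n → R2 n}
    (hp : RPres V P a Δ χ A A') {q : Fin n → ℚ} {S : Finset (Fin n → ℚ)}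
    {𝒢 : Finset (MvPolynomial (Fin n) ℂ)} (hs : SlopeData P Δ χ A q S 𝒢)
    (b : Fin n → ℤ) (hb : ∑ j, (b j : ℚ) * q j ≠ 0) : ¬ Alg V P b := by
  classical
  rintro ⟨G, ⟨i0, hi0⟩, hG⟩
  obtain ⟨x, hxP, hx⟩ := exists_point P hV.irr (insert (G.coeff i0) 𝒢) (by
    intro H hH
    rcases Finset.mem_insert.1 hH with rfl | h
    · exact hi0
    · exact hs.1 H h)
  have hx0 : eval x (G.coeff i0) ≠ 0 := hx _ (Finset.mem_insert_self _ _)
  have hQ : G.map (MvPolynomial.eval x) ≠ 0 := by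
    intro h
    apply hx0
    have := congrArg (fun p => Polynomial.coeff p i0) h
    simpa using this
  obtain ⟨M, hM⟩ := N6_bound _ hQ
  obtain ⟨C', hC'⟩ := hs.2 1
  have e1 : ∀ᶠ N : ℕ in atTop, ‖x‖ ≤ (N : ℝ) ^ 1 := by
    filter_upwards [tendsto_natCast_atTop_atTop.eventually_ge_atTop ‖x‖] with N hN
    rwa [pow_one]
  have e2 : ∀ᶠ N : ℕ in atTop, ∀ H ∈ 𝒢, 1 ≤ ‖eval x H‖ * (N : ℝ) ^ 1 := by
    rw [Filter.eventually_all_finset]
    intro H hH
    have h0 : 0 < ‖eval x H‖ := norm_pos_iff.2 (hx H (Finset.mem_insert_of_mem hH))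
    filter_upwards [tendsto_natCast_atTop_atTop.eventually_ge_atTop (1 / ‖eval x H‖)] with N hN
    rw [pow_one, mul_comm]
    exact (div_le_iff₀ h0).1 hN
  obtain ⟨N, hN1, hN2, hN3, hN4⟩ := (hC'.and (e1.and (e2.and (eventually_ge_atTop 1)))).exists
  have hNpos : (0 : ℝ) < N := by exact_mod_cast hN4
  have hlog : 0 ≤ Real.log (N : ℝ) := Real.log_natCast_nonneg N
  set K : ℝ := ∑ j, |(b j : ℝ)| * (C' * Real.log N) with hK
  set s : ℝ := ∑ j, (b j : ℝ) * (q j : ℝ) with hsdef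
  have hs0 : s ≠ 0 := by
    intro h
    apply hb
    have : ((∑ j, (b j : ℚ) * q j : ℚ) : ℝ) = 0 := by
      rw [← h, hsdef]
      push_cast
      rfl
    exact_mod_cast this
  have hspos : 0 < |s| := abs_pos.2 hs0
  set t : ℝ := max (C' * Real.log N) ((M + K + 1) / |s|) with ht
  have ht1 : C' * Real.log N ≤ t := le_max_left _ _
  have ht0 : 0 ≤ t := le_trans (by positivity) ht1
  have ht2 : M + K + 1 ≤ |s| * t := by
    have := le_max_right (C' * Real.log N) ((M + K + 1) / |s|)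
    rw [← ht, div_le_iff₀ hspos] at this
    linarith [mul_comm t |s|]
  have hf0 : ((Real.exp (-t) : ℝ) : ℂ) ≠ 0 := by
    exact_mod_cast (Real.exp_pos _).ne'
  have hfn : ‖((Real.exp (-t) : ℝ) : ℂ)‖ = Real.exp (-t) := by
    rw [Complex.norm_real, Real.norm_eq_abs, abs_of_pos (Real.exp_pos _)]
  have hfl : Real.log ‖((Real.exp (-t) : ℝ) : ℂ)‖ = -t := by rw [hfn, Real.log_exp]
  have hfN : ‖((Real.exp (-t) : ℝ) : ℂ)‖ * (N : ℝ) ^ C' ≤ 1 := by
    have h1 : (N : ℝ) ^ C' = Real.exp (C' * Real.log N) := by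
      rw [Real.exp_nat_mul, Real.exp_log hNpos]
    rw [hfn, h1, ← Real.exp_add]
    exact Real.exp_le_one_iff.2 (by linarith)
  obtain ⟨hΔ, ⟨θ, hθ, hj⟩, -⟩ := hN1 x hxP hN2 hN3 _ hf0 hfN
  have hmem := hp.mem x _ θ hxP hΔ hθ
  have hy : ∀ j, yv Δ A x ((Real.exp (-t) : ℝ) : ℂ) θ j ≠ 0 := fun j => hV.nz _ hmem j
  have hroot : (G.map (MvPolynomial.eval x)).eval
      (mon b (yv Δ A x ((Real.exp (-t) : ℝ) : ℂ) θ)) = 0 := by
    rw [Polynomial.eval_map]
    exact hG _ hmem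
  have h1 := hM _ hroot
  rw [N6_log b _ hy] at h1
  have h2 : |∑ j, (b j : ℝ) * Real.log ‖yv Δ A x ((Real.exp (-t) : ℝ) : ℂ) θ j‖ - s * (-t)| ≤ K := by
    have h3 : ∑ j, (b j : ℝ) * Real.log ‖yv Δ A x ((Real.exp (-t) : ℝ) : ℂ) θ j‖ - s * (-t) =
        ∑ j, (b j : ℝ) * (Real.log ‖yv Δ A x ((Real.exp (-t) : ℝ) : ℂ) θ j‖ -
          q j * Real.log ‖((Real.exp (-t) : ℝ) : ℂ)‖) := by
      rw [hfl, hsdef, Finset.sum_mul, ← Finset.sum_sub_distrib]
      refine Finset.sum_congr rfl fun j _ => ?_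
      ring
    rw [h3]
    refine (Finset.abs_sum_le_sum_abs _ _).trans (Finset.sum_le_sum fun j _ => ?_)
    rw [abs_mul]
    exact mul_le_mul_of_nonneg_left (hj j) (abs_nonneg _)
  have h4 : |s * (-t)| = |s| * t := by rw [abs_mul, abs_neg, abs_of_nonneg ht0]
  have h5 : |s * (-t)| ≤ M + K := by
    have := abs_sub_abs_le_abs_sub (s * (-t))
      (∑ j, (b j : ℝ) * Real.log ‖yv Δ A x ((Real.exp (-t) : ℝ) : ℂ) θ j‖)
    rw [abs_sub_comm] at this
    linarith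
  linarith

end XV
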