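import Pool.Agent.Lib.MP_228259_lc.V.F1
import Pool.Agent.Lib.MP_228259_lc.V.F2
import Pool.Agent.Lib.MP_228259_lc.V.F4
import Pool.Agent.Lib.MP_228259_lc.V.F7
import Pool.Agent.Lib.MP_228259_lc.V.F8

/-!
XV-P1 (punct). The puncture case: if on some sheet `x = u + ω(u) q` the function `Re ω` is at most
`- C₀ log N` on a ball of radius `(log N)^2`, with `C₀` as large as we like, there is an exponential
point.

Proof. Let `C` be such that `‖x‖ ≤ N^C` and `1 ≤ ‖G(x)‖ N^C` (`G ∈ 𝒢`) for the points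
`x = u + ω q`, `u` in the ball, `P(x) = 0` (`Bdd`, `Gen`; `(log N)^2 ≤ √N`), `C'` from `SlopeData` for
`C`. Let `g > 0` be the least nonzero value of `|s_j - q_j|`, `s ∈ S`. Take `C₀ ≥ C' + 1` with
`g C₀ > 4 C' + 4`, and `N` large with a sheet `ω` as in the hypothesis. Put `x(u) = u + ω(u) q`,
`f(u) = exp (ω(u))`: `‖f(u)‖ = exp (Re ω(u)) ≤ N^{-C₀}`. The family `χ_u = e2 (x u) (f u) χ` on the ball
is monic (`e2_monic`), has holomorphic coefficients (`diff_coeff`) and simple roots (`RPres.simple`,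
`h1 (x u) (f u) Δ ≠ 0`). Let `θ₀` be the root at the centre with slope `q` (`SlopeData`), `cov_branch`
gives `θ(u)`; `y(u) = yv Δ A (x u) (f u) (θ u)` is holomorphic (`diff_e2`, `diff_h1`) without zeros
(`RPres.inv`), `exp`-point of `V` by `RPres.mem`.
Slopes: for each `u` some `s ∈ S` has `|log |y_j(u)| - s_j Re ω(u)| ≤ C' log N` for all `j`
(`log ‖f(u)‖ = Re ω(u)`). Let `g_j(u) = |log |y_j(u)| - q_j Re ω(u)|` (continuous, `≤ C' log N` at the
centre). If `s_j = q_j` then `g_j(u) ≤ C' log N`, else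
`g_j(u) ≥ g C₀ log N - C' log N > 2 C' log N + …`; so `g_j(u) ≠ (3/2) C' log N` (take `C' ≥ 1`) and
`trap` gives `g_j(u) ≤ C' log N` on the whole ball. Let `ℓ_j` be a logarithm of `y_j` (`exists_log`),
`L_j(u) = ℓ_j(u) - ω(u) q_j`, `|Re L_j| = g_j ≤ M := C' log N`. `sol` with `c = ctr κ N` (real parts
zero), `R = (log N)^2 ≥ 32 (M + 1)`: `u_j = L_j(u) + 2 π i k_j`. Then `z = x(u)` has
`exp z_j = exp (ℓ_j(u) + 2 π i k_j) = y_j(u)` and `(x(u), y(u)) ∈ V`.
-/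

set_option autoImplicit false

namespace XV

open MvPolynomial Filter Topology

private theorem P1_min {ι : Type*} (F : Finset ι) (f : ι → ℝ) (hf : ∀ i ∈ F, 0 < f i) :
    ∃ g : ℝ, 0 < g ∧ ∀ i ∈ F, g ≤ f i := by
  classical
  induction F using Finset.induction_on with
  | empty => exact ⟨1, one_pos, by simp⟩
  | insert a F ha ih =>
    obtain ⟨g, hg, h⟩ := ih (fun i hi => hf i (Finset.mem_insert_of_mem hi))
    refine ⟨min g (f a), lt_min hg (hf a (Finset.mem_insert_self a F)), ?_⟩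
    intro i hi
    rcases Finset.mem_insert.1 hi with rfl | hi
    · exact min_le_right _ _
    · exact (min_le_left _ _).trans (h i hi)

private theorem P1_gap {n : ℕ} (S : Finset (Fin n → ℚ)) (q : Fin n → ℚ) :
    ∃ g : ℝ, 0 < g ∧ ∀ s ∈ S, ∀ j, s j ≠ q j → g ≤ |(s j : ℝ) - q j| := by
  classical
  obtain ⟨g, hg, h⟩ := P1_min ((S ×ˢ (Finset.univ : Finset (Fin n))).filter
    (fun z => z.1 z.2 ≠ q z.2)) (fun z => |(z.1 z.2 : ℝ) - q z.2|) (by
      intro z hz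
      have h1 := (Finset.mem_filter.1 hz).2
      have h2 : ((z.1 z.2 : ℚ) : ℝ) - q z.2 ≠ 0 := by
        rw [sub_ne_zero]
        exact_mod_cast h1
      exact abs_pos.2 h2)
  refine ⟨g, hg, fun s hs j hj => ?_⟩
  exact h (s, j) (Finset.mem_filter.2 ⟨Finset.mem_product.2 ⟨hs, Finset.mem_univ j⟩, hj⟩)

private theorem P1_unif {ι : Type*} (F : Finset ι) (p : ι → ℕ → ℕ → Prop)
    (mono : ∀ i C C' N, 1 ≤ N → C ≤ C' → p i C N → p i C' N)
    (h : ∀ i ∈ F, ∃ C, ∀ᶠ N in atTop, p i C N) :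
    ∃ C, ∀ᶠ N in atTop, ∀ i ∈ F, p i C N := by
  classical
  induction F using Finset.induction_on with
  | empty => exact ⟨0, Filter.Eventually.of_forall (by simp)⟩
  | insert a F ha ih =>
    obtain ⟨C, hC⟩ := ih (fun i hi => h i (Finset.mem_insert_of_mem hi))
    obtain ⟨D, hD⟩ := h a (Finset.mem_insert_self a F)
    refine ⟨max C D, ?_⟩
    filter_upwards [hC, hD, eventually_ge_atTop 1] with N h1 h2 h3
    intro i hi
    rcases Finset.mem_insert.1 hi with rfl | hi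
    · exact mono _ _ _ _ h3 (le_max_right _ _) h2
    · exact mono _ _ _ _ h3 (le_max_left _ _) (h1 i hi)

private theorem P1_sq : ∀ᶠ N : ℕ in atTop, Real.log N ^ 2 ≤ Real.sqrt N := by
  have h1 := (isLittleO_log_rpow_atTop (r := 1 / 4) (by norm_num)).bound (c := 1) one_pos
  have h2 := tendsto_natCast_atTop_atTop (R := ℝ) |>.eventually h1
  filter_upwards [h2, eventually_ge_atTop 1] with N hN hN1
  have hN0 : (0 : ℝ) ≤ N := Nat.cast_nonneg N
  have hl : 0 ≤ Real.log N := Real.log_natCast_nonneg N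
  rw [one_mul, Real.norm_of_nonneg hl, Real.norm_of_nonneg (Real.rpow_nonneg hN0 _)] at hN
  have h3 : Real.log N ^ 2 ≤ ((N : ℝ) ^ (1 / 4 : ℝ)) ^ 2 := pow_le_pow_left₀ hl hN 2
  refine h3.trans (le_of_eq ?_)
  rw [← Real.rpow_natCast, ← Real.rpow_mul hN0, Real.sqrt_eq_rpow]
  norm_num

private theorem P1_ctr {n : ℕ} (κ : Fin n → ℝ) (N : ℕ) :
    ‖ctr κ N‖ ≤ 2 * Real.pi * ‖κ‖ * N := by
  rw [pi_norm_le_iff_of_nonneg (by positivity)]
  intro j
  have h1 : ctr κ N j = ((2 * Real.pi * N * κ j : ℝ) : ℂ) * Complex.I := by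
    rw [ctr]; push_cast; ring
  rw [h1, norm_mul, Complex.norm_I, mul_one, Complex.norm_real, norm_mul, norm_mul, norm_mul,
    Real.norm_of_nonneg (by norm_num : (0 : ℝ) ≤ 2), Real.norm_of_nonneg Real.pi_pos.le,
    Real.norm_of_nonneg (Nat.cast_nonneg N)]
  have h2 : ‖κ j‖ ≤ ‖κ‖ := norm_le_pi_norm κ j
  have h3 : 0 ≤ 2 * Real.pi * (N : ℝ) := by positivity
  nlinarith [mul_le_mul_of_nonneg_left h2 h3]

private theorem P1_ctr_re {n : ℕ} (κ : Fin n → ℝ) (N : ℕ) (j : Fin n) : (ctr κ N j).re = 0 := by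
  have h1 : ctr κ N j = ((2 * Real.pi * N * κ j : ℝ) : ℂ) * Complex.I := by
    rw [ctr]; push_cast; ring
  rw [h1, Complex.re_ofReal_mul, Complex.I_re, mul_zero]

theorem punct {n : ℕ} {V : Set ((Fin n → ℂ) × (Fin n → ℂ))} {P : MvPolynomial (Fin n) ℂ}
    {a : Fin n → ℤ} {Δ : R1 n} {χ : R2 n} {A A' : Fin n → R2 n}
    (hp : RPres V P a Δ χ A A') {q : Fin n → ℚ} {S : Finset (Fin n → ℚ)}
    {𝒢 : Finset (MvPolynomial (Fin n) ℂ)} (hs : SlopeData P Δ χ A q S 𝒢)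
    {κ : Fin n → ℝ} (hb : Bdd P (XW.qc q) κ) (hg : ∀ G ∈ 𝒢, Gen P (XW.qc q) κ G)
    (hω : ∀ C₀ : ℕ, ∃ᶠ N : ℕ in atTop, ∃ ω : (Fin n → ℂ) → ℂ,
      DifferentiableOn ℂ ω (Metric.ball (ctr κ N) (Real.log N ^ 2)) ∧
      ∀ u ∈ Metric.ball (ctr κ N) (Real.log N ^ 2),
        eval (u + ω u • XW.qc q) P = 0 ∧ (ω u).re ≤ - (C₀ * Real.log N)) :
    ∃ z : Fin n → ℂ, (z, fun j => Complex.exp (z j)) ∈ V := by
  classical
  obtain ⟨hs1, hs2⟩ := hs
  obtain ⟨C₁, hC₁⟩ := hb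
  obtain ⟨C₂, hC₂⟩ := P1_unif 𝒢 (fun G C N => ∀ u ∈ Metric.ball (ctr κ N) (Real.sqrt N),
    ∀ ω : ℂ, eval (u + ω • XW.qc q) P = 0 → 1 ≤ ‖eval (u + ω • XW.qc q) G‖ * (N : ℝ) ^ C) (by
      intro G C C' N hN hCC hG u hu w hw
      refine (hG u hu w hw).trans (mul_le_mul_of_nonneg_left ?_ (norm_nonneg _))
      exact pow_le_pow_right₀ (by exact_mod_cast hN) hCC) (fun G hG => hg G hG)
  obtain ⟨C, hC⟩ : ∃ C : ℕ, C = max (C₁ + 2) C₂ := ⟨_, rfl⟩
  obtain ⟨C', hC'⟩ := hs2 C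
  obtain ⟨g, hg0, hgS⟩ := P1_gap S q
  obtain ⟨C₀, hC₀, hC₀'⟩ : ∃ C₀ : ℕ, (C' : ℝ) + 1 ≤ C₀ ∧ 4 * (C' : ℝ) + 4 < g * C₀ := by
    obtain ⟨m, hm⟩ := exists_nat_gt (max ((C' : ℝ) + 1) ((4 * (C' : ℝ) + 4) / g))
    refine ⟨m, ((le_max_left _ _).trans hm.le), ?_⟩
    have := (le_max_right _ _).trans_lt hm
    rwa [div_lt_iff₀' hg0] at this
  have hlog : Tendsto (fun N : ℕ => Real.log N) atTop atTop :=
    Real.tendsto_log_atTop.comp tendsto_natCast_atTop_atTop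
  have h32 := hlog.eventually_ge_atTop (48 * (C' + 1) + 32)
  have hbig := (tendsto_natCast_atTop_atTop (R := ℝ)).eventually_ge_atTop
    (2 * Real.pi * ‖κ‖ + 1 + ‖XW.qc q‖)
  obtain ⟨N, ⟨ω, hωd, hωP⟩, hN₁, hN₂, hN₃, hN₄, hN₅, hN₆, hN₇⟩ :=
    ((hω C₀).and_eventually (hC₁.and (hC₂.and (hC'.and (h32.and
      (P1_sq.and (hbig.and (eventually_ge_atTop 1)))))))).exists
  clear hω hC₁ hC₂ hC' h32 hbig
  have hNR : (1 : ℝ) ≤ N := by exact_mod_cast hN₇
  have hC'0 : (0 : ℝ) ≤ C' := Nat.cast_nonneg C'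
  have hl1 : 1 ≤ Real.log N := by linarith
  have hl0 : 0 < Real.log N := by linarith
  obtain ⟨B, hB⟩ : ∃ B : Set (Fin n → ℂ), B = Metric.ball (ctr κ N) (Real.log N ^ 2) := ⟨_, rfl⟩
  rw [← hB] at hωd hωP
  have hBo : IsOpen B := by rw [hB]; exact Metric.isOpen_ball
  have hBc : Convex ℝ B := by rw [hB]; exact convex_ball _ _
  have hcB : ctr κ N ∈ B := by rw [hB]; exact Metric.mem_ball_self (by positivity)
  have hBsub : ∀ u ∈ B, u ∈ Metric.ball (ctr κ N) (Real.sqrt N) := by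
    intro u hu
    rw [hB] at hu
    exact Metric.ball_subset_ball hN₅ hu
  obtain ⟨x, hx⟩ : ∃ x : (Fin n → ℂ) → Fin n → ℂ, x = fun u => u + ω u • XW.qc q := ⟨_, rfl⟩
  have hxu : ∀ u, x u = u + ω u • XW.qc q := fun u => by rw [hx]
  have hxP : ∀ u ∈ B, eval (x u) P = 0 := fun u hu => by rw [hxu]; exact (hωP u hu).1
  have hxG : ∀ u ∈ B, ∀ G ∈ 𝒢, 1 ≤ ‖eval (x u) G‖ * (N : ℝ) ^ C := by
    intro u hu G hG
    have h1 := hN₂ G hG u (hBsub u hu) (ω u) (hωP u hu).1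
    rw [hxu]
    refine h1.trans (mul_le_mul_of_nonneg_left ?_ (norm_nonneg _))
    exact pow_le_pow_right₀ hNR (by rw [hC]; exact le_max_right _ _)
  have hxN : ∀ u ∈ B, ‖x u‖ ≤ (N : ℝ) ^ C := by
    intro u hu
    have h1 := hN₁ u (hBsub u hu) (ω u) (hωP u hu).1
    have h2 : ‖u‖ ≤ 2 * Real.pi * ‖κ‖ * N + N := by
      have h3 : ‖u - ctr κ N‖ < Real.sqrt N := by
        have := hBsub u hu
        rwa [Metric.mem_ball, dist_eq_norm] at this
      have h4 : Real.sqrt N ≤ N := by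
        rw [Real.sqrt_le_left (by linarith)]
        nlinarith
      calc ‖u‖ = ‖ctr κ N + (u - ctr κ N)‖ := by congr 1; abel
        _ ≤ ‖ctr κ N‖ + ‖u - ctr κ N‖ := norm_add_le _ _
        _ ≤ 2 * Real.pi * ‖κ‖ * N + N := by
          have := P1_ctr κ N
          linarith
    have hN0 : (0 : ℝ) ≤ N := Nat.cast_nonneg N
    have h5 : (N : ℝ) ≤ (N : ℝ) ^ (C₁ + 1) := by
      conv_lhs => rw [← pow_one (N : ℝ)]
      exact pow_le_pow_right₀ hNR (by omega)
    have h6 : (N : ℝ) ^ C₁ ≤ (N : ℝ) ^ (C₁ + 1) := pow_le_pow_right₀ hNR (by omega)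
    have hK : 0 ≤ 2 * Real.pi * ‖κ‖ + 1 := by positivity
    calc ‖x u‖ ≤ ‖u‖ + ‖ω u • XW.qc q‖ := by rw [hxu]; exact norm_add_le _ _
      _ = ‖u‖ + ‖ω u‖ * ‖XW.qc q‖ := by rw [norm_smul]
      _ ≤ (2 * Real.pi * ‖κ‖ + 1) * N + (N : ℝ) ^ C₁ * ‖XW.qc q‖ := by
          have := mul_le_mul_of_nonneg_right h1 (norm_nonneg (XW.qc q))
          linarith
      _ ≤ (2 * Real.pi * ‖κ‖ + 1) * (N : ℝ) ^ (C₁ + 1) + (N : ℝ) ^ (C₁ + 1) * ‖XW.qc q‖ := by
          have h7 := mul_le_mul_of_nonneg_left h5 hK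
          have h8 := mul_le_mul_of_nonneg_right h6 (norm_nonneg (XW.qc q))
          linarith
      _ = (2 * Real.pi * ‖κ‖ + 1 + ‖XW.qc q‖) * (N : ℝ) ^ (C₁ + 1) := by ring
      _ ≤ N * (N : ℝ) ^ (C₁ + 1) := mul_le_mul_of_nonneg_right hN₆ (by positivity)
      _ = (N : ℝ) ^ (C₁ + 2) := by ring
      _ ≤ (N : ℝ) ^ C := pow_le_pow_right₀ hNR (by rw [hC]; exact le_max_left _ _)
  have hfn : ∀ u ∈ B, ‖Complex.exp (ω u)‖ * (N : ℝ) ^ C' ≤ 1 := by
    intro u hu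
    have h1 := (hωP u hu).2
    rw [Complex.norm_exp]
    have h2 : (N : ℝ) ^ C' = Real.exp (C' * Real.log N) := by
      rw [Real.exp_nat_mul, Real.exp_log (by linarith)]
    rw [h2, ← Real.exp_add, Real.exp_le_one_iff]
    have h3 : (C' : ℝ) * Real.log N ≤ C₀ * Real.log N :=
      mul_le_mul_of_nonneg_right (by linarith) hl0.le
    linarith
  have key : ∀ u ∈ B, h1 (x u) (Complex.exp (ω u)) Δ ≠ 0 ∧
      (∃ θ : ℂ, (e2 (x u) (Complex.exp (ω u)) χ).eval θ = 0 ∧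
        ∀ j, |Real.log ‖yv Δ A (x u) (Complex.exp (ω u)) θ j‖ -
          q j * Real.log ‖Complex.exp (ω u)‖| ≤ C' * Real.log N) ∧
      (∀ θ : ℂ, (e2 (x u) (Complex.exp (ω u)) χ).eval θ = 0 → ∃ s ∈ S,
        ∀ j, |Real.log ‖yv Δ A (x u) (Complex.exp (ω u)) θ j‖ -
          s j * Real.log ‖Complex.exp (ω u)‖| ≤ C' * Real.log N) := fun u hu =>
    hN₃ (x u) (hxP u hu) (hxN u hu) (hxG u hu) _ (Complex.exp_ne_zero _) (hfn u hu)
  have hlf : ∀ u, Real.log ‖Complex.exp (ω u)‖ = (ω u).re := fun u => by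
    rw [Complex.norm_exp, Real.log_exp]
  have hxd : ∀ j, DifferentiableOn ℂ (fun u => x u j) B := by
    intro j
    have h1 : (fun u : Fin n → ℂ => x u j) = fun u => u j + ω u * XW.qc q j := by
      funext u
      rw [hxu]
      simp
    rw [h1]
    exact (differentiable_apply j).differentiableOn.add (hωd.mul_const _)
  have hfd : DifferentiableOn ℂ (fun u => Complex.exp (ω u)) B := hωd.cexp
  obtain ⟨θ₀, hθ₀, hθ₀q⟩ := (key _ hcB).2.1
  obtain ⟨θ, hθd, hθc, hθr⟩ := cov_branch hBo hBc (fun u => e2 (x u) (Complex.exp (ω u)) χ)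
    χ.natDegree (fun u _ => e2_monic χ hp.monic _ _)
    (fun i => diff_coeff χ x _ hxd hfd i)
    (fun u hu t ht => hp.simple _ _ _ (hxP u hu) (key u hu).1 ht) hcB hθ₀
  obtain ⟨y, hy⟩ : ∃ y : (Fin n → ℂ) → Fin n → ℂ,
      y = fun u => yv Δ A (x u) (Complex.exp (ω u)) (θ u) := ⟨_, rfl⟩
  have hyu : ∀ u, y u = yv Δ A (x u) (Complex.exp (ω u)) (θ u) := fun u => by rw [hy]
  have hyd : ∀ j, DifferentiableOn ℂ (fun u => y u j) B := by
    intro j
    have h1 : (fun u => y u j) = fun u =>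
        (e2 (x u) (Complex.exp (ω u)) (A j)).eval (θ u) / h1 (x u) (Complex.exp (ω u)) Δ := by
      funext u
      rw [hyu, yv]
    rw [h1]
    simp only [div_eq_mul_inv]
    exact (diff_e2 (A j) x _ θ hxd hfd hθd).mul ((diff_h1 Δ x _ hxd hfd).inv
      (fun u hu => (key u hu).1))
  have hy0 : ∀ j, ∀ u ∈ B, y u j ≠ 0 := by
    intro j u hu h0
    have h1 := hp.inv (x u) (Complex.exp (ω u)) (θ u) (hxP u hu) (key u hu).1 (hθr u hu) j
    rw [hyu, yv] at h0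
    rw [h0, zero_mul] at h1
    exact zero_ne_one h1
  obtain ⟨M, hM⟩ : ∃ M : ℝ, M = 3 / 2 * (C' + 1) * Real.log N := ⟨_, rfl⟩
  have hM0 : 0 < M := by rw [hM]; positivity
  have hCM : (C' : ℝ) * Real.log N < M := by rw [hM]; nlinarith
  have hgt : ∀ j, ∀ u ∈ B, |Real.log ‖y u j‖ - q j * (ω u).re| < M := by
    intro j
    refine trap hBc.isPreconnected _ ?_ hcB ?_ ?_
    · have h1 : ContinuousOn (fun u => Real.log ‖y u j‖) B :=
        ((hyd j).continuousOn.norm).log (fun u hu => norm_ne_zero_iff.2 (hy0 j u hu))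
      have h2 : ContinuousOn (fun u => (ω u).re) B :=
        Complex.continuous_re.comp_continuousOn hωd.continuousOn
      exact (h1.sub (h2.const_mul _)).abs
    · have h1 := hθ₀q j
      rw [hlf, ← hθc, ← hyu] at h1
      exact h1.trans_lt hCM
    · intro u hu hgM
      obtain ⟨s, hsS, hs⟩ := (key u hu).2.2 (θ u) (hθr u hu)
      have h1 := hs j
      rw [hlf, ← hyu] at h1
      by_cases hsq : s j = q j
      · rw [hsq, hgM] at h1
        linarith
      · have h2 := hgS s hsS j hsq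
        have h3 : (C₀ : ℝ) * Real.log N ≤ |(ω u).re| := by
          have h4 := (hωP u hu).2
          rw [abs_of_nonpos]
          · linarith
          · have h5 : 0 ≤ (C₀ : ℝ) * Real.log N := by positivity
            linarith
        have h4 : g * (C₀ * Real.log N) ≤ |((s j : ℝ) - q j) * (ω u).re| := by
          rw [abs_mul]
          exact mul_le_mul h2 h3 (by positivity) (abs_nonneg _)
        have h5 : |((s j : ℝ) - q j) * (ω u).re| ≤ |Real.log ‖y u j‖ - q j * (ω u).re| +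
            |Real.log ‖y u j‖ - s j * (ω u).re| := by
          have h6 : ((s j : ℝ) - q j) * (ω u).re = (Real.log ‖y u j‖ - q j * (ω u).re) -
            (Real.log ‖y u j‖ - s j * (ω u).re) := by ring
          rw [h6]
          exact abs_sub _ _
        rw [hgM, hM] at h5
        have h7 : (4 * (C' : ℝ) + 4) * Real.log N < g * C₀ * Real.log N :=
          mul_lt_mul_of_pos_right hC₀' hl0
        nlinarith
  have hex : ∀ j, ∃ ℓ : (Fin n → ℂ) → ℂ, DifferentiableOn ℂ ℓ B ∧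
      ∀ u ∈ B, Complex.exp (ℓ u) = y u j := fun j => exists_log hBo hBc _ (hyd j) (hy0 j)
  choose ℓ hℓd hℓe using hex
  have hR : 32 * (M + 1) ≤ Real.log N ^ 2 := by
    rw [hM]
    nlinarith
  obtain ⟨k, u, hu, hku⟩ := sol (c := ctr κ N) hM0 hR
    (fun j => by rw [P1_ctr_re, abs_zero]; exact hM0.le)
    (fun u j => ℓ j u - ω u * XW.qc q j)
    (fun j => by rw [← hB]; exact (hℓd j).sub (hωd.mul_const _))
    (by
      intro u hu j
      rw [← hB] at hu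
      have h1 : (ℓ j u).re = Real.log ‖y u j‖ := by
        rw [← hℓe j u hu, Complex.norm_exp, Real.log_exp]
      have h2 : (ω u * XW.qc q j).re = q j * (ω u).re := by
        have h3 : XW.qc q j = (((q j : ℚ) : ℝ) : ℂ) := by
          rw [XW.qc]; push_cast; rfl
        rw [h3, Complex.re_mul_ofReal, mul_comm]
      rw [Complex.sub_re, h1, h2]
      exact (hgt j u hu).le)
  have huB : u ∈ B := by
    rw [hB]
    refine Metric.ball_subset_ball ?_ hu
    have : 0 ≤ Real.log N ^ 2 := by positivity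
    linarith
  refine ⟨x u, ?_⟩
  have h1 : (fun j => Complex.exp (x u j)) = y u := by
    funext j
    have h2 : x u j = ℓ j u + k j * (2 * Real.pi * Complex.I) := by
      rw [hxu, Pi.add_apply, Pi.smul_apply, smul_eq_mul, hku j]
      ring
    rw [h2, Complex.exp_add, Complex.exp_int_mul_two_pi_mul_I, mul_one]
    exact hℓe j u huB
  rw [h1, hyu]
  exact hp.mem _ _ _ (hxP u huB) (key u huB).1 (hθr u huB)

end XV
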