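import Pool.Agent.Lib.MP_228259_lc.V.P1
import Pool.Agent.Lib.MP_228259_lc.V.F9
import Pool.Agent.Lib.MP_228259_lc.P2c

/-!
XV-P2 (nonreal). If there is no exponential point, the roots `ω` of `P_d(κ + ω q) = 0` are real for
good real directions `κ` (`P_d` the top form of `P`).

Proof. Suppose `ω.im ≠ 0`. Replacing `(κ, ω)` by `(-κ, -ω)` (`P_d` homogeneous) we may assume
`ω.im > 0`. Let `F_N(ξ, z) = P(ctr κ N + ξ + (2 π i N z) q) / N^d`; uniformly for `‖ξ‖ ≤ √N` and `z` in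
compact sets it tends to `P_d(2 π i (κ + z q)) = (2 π i)^d P_d(κ + z q)` (`XW.lemmaTop` with the filter
`atTop ×ˢ 𝓝 0 ×ˢ 𝓝 z` or a direct estimate; for the uniform form on compact sets use
`tendstoUniformlyOn`-type arguments, or prove the polynomial estimate
`‖P(N y)/N^d - P_d(y)‖ ≤ C / N` for `‖y‖ ≤ C` and the uniform continuity of `P_d` on bounded sets).
`G(z) = (2 π i)^d P_d(κ + z q)` is a polynomial in `z`, not identically zero by `hne`. `trap_lim` at
`z₀ = ω` with `η₀ = ω.im / 2`, `S_N = {‖ξ‖ < √N}`: for large `N` there is a zero `z₁` for `ξ = 0`,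
`‖z₁ - ω‖ < η`. `Sheets`: a holomorphic `ω_N(u)` on the ball of radius `√N` with
`ω_N(ctr κ N) = 2 π i N z₁`. `u ↦ ‖ω_N(u) / (2 π i N) - ω‖` is never `η` on the ball (as `F_N ≠ 0` there),
so it is `< η` by `trap` (the ball is convex). Hence
`Re ω_N(u) = - 2 π N Im (ω_N(u) / (2 π i N)) ≤ - 2 π N (ω.im - η) ≤ - C₀ log N`. Apply `punct`
(ball of radius `(log N)^2 ≤ √N`).
-/

set_option autoImplicit false

namespace XV

open MvPolynomial Filter Topology

private theorem P2_sq : ∀ᶠ N : ℕ in atTop, Real.log N ^ 2 ≤ Real.sqrt N := by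
  have h1 := (isLittleO_log_rpow_atTop (r := 1 / 4) (by norm_num)).bound (c := 1) one_pos
  have h2 := tendsto_natCast_atTop_atTop (R := ℝ) |>.eventually h1
  filter_upwards [h2, eventually_ge_atTop 1] with N hN hN1
  have hN0 : (0 : ℝ) ≤ N := Nat.cast_nonneg N
  have hl : 0 ≤ Real.log N := Real.log_natCast_nonneg N
  rw [one_mul, Real.norm_of_nonneg hl, Real.norm_of_nonneg (Real.rpow_nonneg hN0 _)] at hN
  have h3 : Real.log N ^ 2 ≤ ((N : ℝ) ^ (1 / 4 : ℝ)) ^ 2 := pow_le_pow_left₀ hl hN 2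
  refine h3.trans (le_of_eq ?_)
  rw [← Real.rpow_natCast, ← Real.rpow_mul hN0, Real.sqrt_eq_rpow]
  norm_num

/-- the rescaled polynomial -/
private noncomputable def P2F {n : ℕ} (P : MvPolynomial (Fin n) ℂ) (v : Fin n → ℂ)
    (κ : Fin n → ℝ) (N : ℕ) (ξ : Fin n → ℂ) (z : ℂ) : ℂ :=
  eval (ctr κ N + ξ + (2 * Real.pi * Complex.I * N * z) • v) P / (N : ℂ) ^ P.totalDegree

/-- the limit -/
private noncomputable def P2G {n : ℕ} (P : MvPolynomial (Fin n) ℂ) (v : Fin n → ℂ)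
    (κ : Fin n → ℝ) (z : ℂ) : ℂ :=
  eval ((2 * Real.pi * Complex.I : ℂ) • (XW.rc κ + z • v))
    (homogeneousComponent P.totalDegree P)

private theorem P2_diff {n : ℕ} (P : MvPolynomial (Fin n) ℂ) (a b : Fin n → ℂ) :
    Differentiable ℂ (fun z : ℂ => eval (a + z • b) P) := by
  induction P using MvPolynomial.induction_on with
  | C c => simp
  | add p q hp hq =>
    have h := hp.add hq
    have e : (fun z : ℂ => eval (a + z • b) (p + q)) =
        (fun z : ℂ => eval (a + z • b) p) + fun z : ℂ => eval (a + z • b) q := by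
      funext z; simp
    rw [e]
    exact h
  | mul_X p i hp =>
    have : (fun z : ℂ => eval (a + z • b) (p * X i)) =
        fun z => eval (a + z • b) p * (a i + z * b i) := by
      funext z; simp
    rw [this]
    exact hp.mul ((differentiable_const _).add (differentiable_id.mul_const _))

private theorem P2F_diff {n : ℕ} (P : MvPolynomial (Fin n) ℂ) (v : Fin n → ℂ)
    (κ : Fin n → ℝ) (N : ℕ) (ξ : Fin n → ℂ) : Differentiable ℂ (P2F P v κ N ξ) := by
  have h := P2_diff P (ctr κ N + ξ) ((2 * Real.pi * Complex.I * N : ℂ) • v)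
  have h2 : P2F P v κ N ξ = fun z => eval (ctr κ N + ξ + z • ((2 * Real.pi * Complex.I * N : ℂ) • v)) P
      / (N : ℂ) ^ P.totalDegree := by
    funext z
    unfold P2F
    congr 3
    rw [smul_smul, mul_comm]
  rw [h2]
  exact h.div_const _

private theorem P2G_diff {n : ℕ} (P : MvPolynomial (Fin n) ℂ) (v : Fin n → ℂ)
    (κ : Fin n → ℝ) : Differentiable ℂ (P2G P v κ) := by
  have h := P2_diff (homogeneousComponent P.totalDegree P)
    ((2 * Real.pi * Complex.I : ℂ) • XW.rc κ) ((2 * Real.pi * Complex.I : ℂ) • v)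
  have h2 : P2G P v κ = fun z => eval ((2 * Real.pi * Complex.I : ℂ) • XW.rc κ +
      z • ((2 * Real.pi * Complex.I : ℂ) • v)) (homogeneousComponent P.totalDegree P) := by
    funext z
    unfold P2G
    congr 2
    rw [smul_add, smul_smul, smul_smul, mul_comm z]
  rw [h2]
  exact h

private theorem P2_lim {n : ℕ} (P : MvPolynomial (Fin n) ℂ) (v : Fin n → ℂ)
    (κ : Fin n → ℝ) (z₀ : ℂ) (r' ε : ℝ) (hε : 0 < ε) :
    ∀ᶠ N : ℕ in atTop, ∀ ξ ∈ Metric.ball (0 : Fin n → ℂ) (Real.sqrt N),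
      ∀ z ∈ Metric.closedBall z₀ r', ‖P2F P v κ N ξ z - P2G P v κ z‖ < ε := by
  by_contra hcon
  rw [Filter.not_eventually] at hcon
  have hcon' : ∃ᶠ N : ℕ in atTop, 1 ≤ N ∧ ∃ ξ ∈ Metric.ball (0 : Fin n → ℂ) (Real.sqrt N),
      ∃ z ∈ Metric.closedBall z₀ r', ε ≤ ‖P2F P v κ N ξ z - P2G P v κ z‖ := by
    refine (hcon.and_eventually (eventually_ge_atTop 1)).mono ?_
    rintro N ⟨hN, hN1⟩
    push Not at hN
    obtain ⟨ξ, hξ, z, hz, h⟩ := hN
    exact ⟨hN1, ξ, hξ, z, hz, h⟩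
  obtain ⟨φ, hφ, hp⟩ := Filter.extraction_of_frequently_atTop hcon'
  choose hφ1 ξ hξ z hz hle using hp
  obtain ⟨z', -, ψ, hψ, hlim⟩ := (isCompact_closedBall z₀ r').tendsto_subseq hz
  have hφψ : Tendsto (fun i => φ (ψ i)) atTop atTop := (hφ.comp hψ).tendsto_atTop
  have hNt : Tendsto (fun i => ‖((φ (ψ i) : ℕ) : ℂ)‖) atTop atTop := by
    have : (fun i => ‖((φ (ψ i) : ℕ) : ℂ)‖) = fun i => ((φ (ψ i) : ℕ) : ℝ) := by
      funext i; simp
    rw [this]
    exact tendsto_natCast_atTop_atTop.comp hφψ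
  have hξ0 : Tendsto (fun i => (((φ (ψ i) : ℕ) : ℂ))⁻¹ • ξ (ψ i)) atTop (𝓝 0) := by
    rw [tendsto_zero_iff_norm_tendsto_zero]
    have h1 : Tendsto (fun i => (Real.sqrt ((φ (ψ i) : ℕ) : ℝ))⁻¹) atTop (𝓝 0) :=
      (Real.tendsto_sqrt_atTop.comp (tendsto_natCast_atTop_atTop.comp hφψ)).inv_tendsto_atTop
    refine squeeze_zero (fun _ => norm_nonneg _) ?_ h1
    intro i
    have h2 : ‖ξ (ψ i)‖ < Real.sqrt (φ (ψ i)) := by
      have := hξ (ψ i)
      rwa [mem_ball_zero_iff] at this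
    have h3 : (0 : ℝ) < φ (ψ i) := by
      have := hφ1 (ψ i)
      exact_mod_cast this
    have h4 : 0 < Real.sqrt (φ (ψ i)) := Real.sqrt_pos.2 h3
    rw [norm_smul, norm_inv, Complex.norm_natCast]
    have h5 : (((φ (ψ i) : ℕ) : ℝ))⁻¹ = (Real.sqrt (φ (ψ i)))⁻¹ * (Real.sqrt (φ (ψ i)))⁻¹ := by
      rw [← mul_inv, Real.mul_self_sqrt h3.le]
    rw [h5, mul_assoc]
    have h6 : (Real.sqrt (φ (ψ i)))⁻¹ * ‖ξ (ψ i)‖ ≤ 1 := by
      rw [inv_mul_le_iff₀ h4, mul_one]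
      exact h2.le
    have h7 := mul_le_mul_of_nonneg_left h6 (inv_nonneg.2 h4.le)
    rwa [mul_one] at h7
  have hy : Tendsto (fun i => (2 * Real.pi * Complex.I : ℂ) • (XW.rc κ + z (ψ i) • v) +
      (((φ (ψ i) : ℕ) : ℂ))⁻¹ • ξ (ψ i)) atTop
      (𝓝 ((2 * Real.pi * Complex.I : ℂ) • (XW.rc κ + z' • v))) := by
    have h1 : Tendsto (fun i => (2 * Real.pi * Complex.I : ℂ) • (XW.rc κ + z (ψ i) • v)) atTop
        (𝓝 ((2 * Real.pi * Complex.I : ℂ) • (XW.rc κ + z' • v))) :=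
      (tendsto_const_nhds.add (hlim.smul_const v)).const_smul _
    simpa using h1.add hξ0
  have hL := XW.lemmaTop P (fun i => ((φ (ψ i) : ℕ) : ℂ)) _ _ hNt hy
  have hF : ∀ i, eval (((φ (ψ i) : ℕ) : ℂ) • ((2 * Real.pi * Complex.I : ℂ) •
      (XW.rc κ + z (ψ i) • v) + (((φ (ψ i) : ℕ) : ℂ))⁻¹ • ξ (ψ i))) P /
      ((φ (ψ i) : ℕ) : ℂ) ^ P.totalDegree = P2F P v κ (φ (ψ i)) (ξ (ψ i)) (z (ψ i)) := by
    intro i
    have h3 : ((φ (ψ i) : ℕ) : ℂ) ≠ 0 := by
      have := hφ1 (ψ i)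
      exact_mod_cast (by omega : φ (ψ i) ≠ 0)
    unfold P2F
    congr 3
    rw [smul_add, smul_smul ((φ (ψ i) : ℕ) : ℂ) (((φ (ψ i) : ℕ) : ℂ))⁻¹, mul_inv_cancel₀ h3,
      one_smul]
    funext j
    simp only [Pi.add_apply, Pi.smul_apply, smul_eq_mul, XW.rc, ctr]
    ring
  have hG : Tendsto (fun i => P2G P v κ (z (ψ i))) atTop (𝓝 (P2G P v κ z')) :=
    ((P2G_diff P v κ).continuous.tendsto z').comp hlim
  have hFG : Tendsto (fun i => ‖P2F P v κ (φ (ψ i)) (ξ (ψ i)) (z (ψ i)) - P2G P v κ (z (ψ i))‖)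
      atTop (𝓝 0) := by
    have h1 : Tendsto (fun i => P2F P v κ (φ (ψ i)) (ξ (ψ i)) (z (ψ i))) atTop
        (𝓝 (P2G P v κ z')) := by
      refine Tendsto.congr hF ?_
      exact hL
    have h2 := (h1.sub hG).norm
    simpa using h2
  have h1 := hFG.eventually_lt_const hε
  obtain ⟨i, hi⟩ := h1.exists
  exact absurd (hle (ψ i)) (not_le.2 hi)

private theorem P2_aux {n : ℕ} {V : Set ((Fin n → ℂ) × (Fin n → ℂ))} {P : MvPolynomial (Fin n) ℂ}
    {a : Fin n → ℤ} {Δ : R1 n} {χ : R2 n} {A A' : Fin n → R2 n}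
    (hp : RPres V P a Δ χ A A') {q : Fin n → ℚ} {S : Finset (Fin n → ℚ)}
    {𝒢 : Finset (MvPolynomial (Fin n) ℂ)} (hs : SlopeData P Δ χ A q S 𝒢)
    {κ : Fin n → ℝ} (hb : Bdd P (XW.qc q) κ) (hsh : Sheets P (XW.qc q) κ)
    (hg : ∀ G ∈ 𝒢, Gen P (XW.qc q) κ G)
    (ω : ℂ) (him : 0 < ω.im)
    (h0 : eval (XW.rc κ + ω • XW.qc q) (homogeneousComponent P.totalDegree P) = 0)
    (hne : ∃ ω' : ℂ, eval (XW.rc κ + ω' • XW.qc q) (homogeneousComponent P.totalDegree P) ≠ 0) :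
    ∃ z : Fin n → ℂ, (z, fun j => Complex.exp (z j)) ∈ V := by
  have h2pi : (2 * Real.pi * Complex.I : ℂ) ≠ 0 := by
    have : (Real.pi : ℂ) ≠ 0 := by exact_mod_cast Real.pi_ne_zero
    simp [this, Complex.I_ne_zero]
  have hGe : ∀ z, P2G P (XW.qc q) κ z = (2 * Real.pi * Complex.I : ℂ) ^ P.totalDegree *
      eval (XW.rc κ + z • XW.qc q) (homogeneousComponent P.totalDegree P) := fun z =>
    XW.P2c_eval_smul (homogeneousComponent_isHomogeneous _ P) _ _
  have hG0 : P2G P (XW.qc q) κ ω = 0 := by rw [hGe, h0, mul_zero]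
  have hGne : ¬ ∀ᶠ z in 𝓝 ω, P2G P (XW.qc q) κ z = 0 := by
    intro hev
    obtain ⟨ω', hω'⟩ := hne
    have han : AnalyticOnNhd ℂ (P2G P (XW.qc q) κ) Set.univ :=
      fun z _ => (P2G_diff P (XW.qc q) κ).analyticAt z
    have h1 := han.eqOn_zero_of_preconnected_of_eventuallyEq_zero isPreconnected_univ
      (Set.mem_univ ω) hev
    have h2 := h1 (Set.mem_univ ω')
    rw [hGe] at h2
    simp only [Pi.zero_apply] at h2
    rcases mul_eq_zero.1 h2 with h3 | h3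
    · exact pow_ne_zero _ h2pi h3
    · exact hω' h3
  obtain ⟨η, hη0, hηim, -, hη⟩ := trap_lim (l := atTop) (P2F P (XW.qc q) κ)
    (fun N : ℕ => Metric.ball (0 : Fin n → ℂ) (Real.sqrt N)) (P2G P (XW.qc q) κ) (z₀ := ω)
    (r := 1) one_pos
    (Eventually.of_forall fun N ξ _ => (P2F_diff P (XW.qc q) κ N ξ).differentiableOn)
    (P2G_diff P (XW.qc q) κ).differentiableOn
    (fun r' _ ε hε => P2_lim P (XW.qc q) κ ω r' ε hε) hG0 hGne (ω.im / 2) (by linarith)
  refine punct hp hs hb hg ?_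
  intro C₀
  refine Eventually.frequently ?_
  have hlin : ∀ᶠ N : ℕ in atTop, (C₀ : ℝ) * Real.log N ≤ 2 * Real.pi * N * (ω.im - η) := by
    have hc : 0 < 2 * Real.pi * (ω.im - η) / (C₀ + 1) := by
      have h1 : 0 < ω.im - η := by linarith
      have h2 : (0 : ℝ) < C₀ + 1 := by positivity
      have h3 := Real.pi_pos
      positivity
    have h1 := Real.isLittleO_log_id_atTop.bound hc
    have h2 := tendsto_natCast_atTop_atTop (R := ℝ) |>.eventually h1
    filter_upwards [h2] with N hN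
    have hN0 : (0 : ℝ) ≤ N := Nat.cast_nonneg N
    have hl : 0 ≤ Real.log N := Real.log_natCast_nonneg N
    rw [Real.norm_of_nonneg hl, id, Real.norm_of_nonneg hN0] at hN
    have h3 : (0 : ℝ) < C₀ + 1 := by positivity
    have h4 : ((C₀ : ℝ) + 1) * Real.log N ≤ 2 * Real.pi * (ω.im - η) * N := by
      have := mul_le_mul_of_nonneg_left hN h3.le
      calc ((C₀ : ℝ) + 1) * Real.log N ≤ (C₀ + 1) * (2 * Real.pi * (ω.im - η) / (C₀ + 1) * N) := this
        _ = 2 * Real.pi * (ω.im - η) * N := by field_simp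
    nlinarith
  filter_upwards [hη, hsh, P2_sq, hlin, eventually_ge_atTop 1] with N hN hS hsq hln hN1
  have hNR : (0 : ℝ) < N := by exact_mod_cast hN1
  have hNC : (N : ℂ) ≠ 0 := by exact_mod_cast (by omega : N ≠ 0)
  have hc : (2 * Real.pi * Complex.I * N : ℂ) ≠ 0 := mul_ne_zero h2pi hNC
  have hsq0 : 0 < Real.sqrt N := Real.sqrt_pos.2 hNR
  have hF0 : ∀ ξ z, P2F P (XW.qc q) κ N ξ z = 0 →
      eval (ctr κ N + ξ + (2 * Real.pi * Complex.I * N * z) • XW.qc q) P = 0 := by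
    intro ξ z h
    unfold P2F at h
    rcases div_eq_zero_iff.1 h with h | h
    · exact h
    · exact absurd h (pow_ne_zero _ hNC)
  have hF1 : ∀ ξ z, eval (ctr κ N + ξ + (2 * Real.pi * Complex.I * N * z) • XW.qc q) P = 0 →
      P2F P (XW.qc q) κ N ξ z = 0 := by
    intro ξ z h
    unfold P2F
    rw [h, zero_div]
  obtain ⟨-, z₁, hz₁, hz₁0⟩ := hN 0 (Metric.mem_ball_self hsq0)
  have hroot : eval (ctr κ N + (2 * Real.pi * Complex.I * N * z₁) • XW.qc q) P = 0 := by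
    have := hF0 0 z₁ hz₁0
    rwa [add_zero] at this
  obtain ⟨w, hwd, hwc, hwP⟩ := hS (ctr κ N) (Metric.mem_ball_self hsq0) _ hroot
  have hlt : ∀ u ∈ Metric.ball (ctr κ N) (Real.sqrt N),
      ‖w u / (2 * Real.pi * Complex.I * N) - ω‖ < η := by
    refine trap (convex_ball (ctr κ N) (Real.sqrt N)).isPreconnected
      (fun u => ‖w u / (2 * Real.pi * Complex.I * N) - ω‖) ?_
      (Metric.mem_ball_self hsq0) ?_ ?_
    · exact ((hwd.continuousOn.div_const _).sub continuousOn_const).norm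
    · show ‖w (ctr κ N) / (2 * Real.pi * Complex.I * N) - ω‖ < η
      rw [hwc, mul_div_cancel_left₀ _ hc]
      exact hz₁
    · intro u hu h
      have hξ : u - ctr κ N ∈ Metric.ball (0 : Fin n → ℂ) (Real.sqrt N) := by
        rw [mem_ball_zero_iff, ← dist_eq_norm]
        exact hu
      refine (hN _ hξ).1 _ h (hF1 _ _ ?_)
      rw [mul_div_cancel₀ _ hc, add_sub_cancel]
      exact hwP u hu
  refine ⟨w, hwd.mono (Metric.ball_subset_ball hsq), ?_⟩
  intro u hu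
  have hu' := Metric.ball_subset_ball hsq hu
  refine ⟨hwP u hu', ?_⟩
  have h1 := hlt u hu'
  obtain ⟨t, ht⟩ : ∃ t, t = w u / (2 * Real.pi * Complex.I * N) := ⟨_, rfl⟩
  rw [← ht] at h1
  have h2 : w u = 2 * Real.pi * Complex.I * N * t := by
    rw [ht, mul_div_cancel₀ _ hc]
  have h3 : (w u).re = - (2 * Real.pi * N * t.im) := by
    have h4 : w u = ((2 * Real.pi * N : ℝ) : ℂ) * (Complex.I * t) := by
      rw [h2]; push_cast; ring
    rw [h4, Complex.re_ofReal_mul, Complex.I_mul_re]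
    ring
  have h5 : ω.im - η ≤ t.im := by
    have h6 := (Complex.abs_im_le_norm (t - ω)).trans h1.le
    rw [Complex.sub_im] at h6
    have := (abs_le.1 h6).1
    linarith
  rw [h3]
  have h7 : 2 * Real.pi * N * (ω.im - η) ≤ 2 * Real.pi * N * t.im :=
    mul_le_mul_of_nonneg_left h5 (by positivity)
  linarith

theorem nonreal {n : ℕ} {V : Set ((Fin n → ℂ) × (Fin n → ℂ))} {P : MvPolynomial (Fin n) ℂ}
    {a : Fin n → ℤ} {Δ : R1 n} {χ : R2 n} {A A' : Fin n → R2 n}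
    (hp : RPres V P a Δ χ A A') {q : Fin n → ℚ} {S : Finset (Fin n → ℚ)}
    {𝒢 : Finset (MvPolynomial (Fin n) ℂ)} (hs : SlopeData P Δ χ A q S 𝒢)
    {κ : Fin n → ℝ} (hκ : GoodDir P (XW.qc q) (𝒢 : Set (MvPolynomial (Fin n) ℂ)) κ)
    (hno : ¬ ∃ z : Fin n → ℂ, (z, fun j => Complex.exp (z j)) ∈ V) (ω : ℂ)
    (h0 : eval (XW.rc κ + ω • XW.qc q) (homogeneousComponent P.totalDegree P) = 0)
    (hne : ∃ ω' : ℂ, eval (XW.rc κ + ω' • XW.qc q) (homogeneousComponent P.totalDegree P) ≠ 0) :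
    ω.im = 0 := by
  rcases lt_trichotomy ω.im 0 with him | him | him
  · exfalso
    have hneg : ∀ z : ℂ, eval (XW.rc (-κ) + (-z) • XW.qc q)
        (homogeneousComponent P.totalDegree P) = (-1) ^ P.totalDegree *
        eval (XW.rc κ + z • XW.qc q) (homogeneousComponent P.totalDegree P) := by
      intro z
      rw [← XW.P2c_eval_smul (homogeneousComponent_isHomogeneous _ P)]
      congr 2
      funext j
      simp only [XW.rc, Pi.add_apply, Pi.smul_apply, smul_eq_mul, Pi.neg_apply]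
      push_cast
      ring
    refine hno (P2_aux hp hs (κ := -κ) hκ.bdd.2 hκ.sheets.2
      (fun G hG => (hκ.gen G hG (hs.1 G hG)).2) (-ω) ?_ ?_ ?_)
    · rw [Complex.neg_im]; linarith
    · rw [hneg, h0, mul_zero]
    · obtain ⟨ω', hω'⟩ := hne
      refine ⟨-ω', ?_⟩
      rw [hneg]
      exact mul_ne_zero (pow_ne_zero _ (by norm_num)) hω'
  · exact him
  · exfalso
    exact hno (P2_aux hp hs hκ.bdd.1 hκ.sheets.1
      (fun G hG => (hκ.gen G hG (hs.1 G hG)).1) ω him h0 hne)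

end XV
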