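import Pool.Agent.Lib.MP_228259_lc.V.P1
import Pool.Agent.Lib.MP_228259_lc.V.F9
import Pool.Agent.Lib.MP_228259_lc.P2b
import Pool.Agent.Lib.MP_228259_lc.P7a
import Pool.Agent.Lib.MP_228259_lc.P7b

/-!
XV-P3 (tame2). If there is no exponential point, the decomposition of `P` along `H` is tame.

Proof. The same as `XW.tame` (file P8), with the solution given by `punct` instead of a chart.
Suppose some `i ≤ d` with `B i ≠ 0` has `d + E i < i + E d`. `XW.edge` for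
`S = {i < d, B i ≠ 0}` gives `a, b, i₁` (`a < b` coprime). `N = K^b`, `η = K^a / K^b`; for a sign `σ`
put `A = 2 π i σ (κ + ω q)`; with `x' = v q + ξ / K^a`, `N (A + η x') = ctr (σ κ) N + ξ +
(2 π i σ ω N + K^a v) q` (`ctr (-κ) = - ctr κ`). `XW.lemmaL` (P2b): as `K → ∞`, `v → v'`,
`ξ / K^a → 0`, `P(…) / (N^d η^(E d)) → Σ_k τ_k (v' dirD q H(A))^(E k) B_k(A) =: G(v')`, where
`τ_k = 1` if `(b-a)(E d - E k) = b (d - k)` (`k = d` included) and `0` otherwise. As in P8,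
`G(v) = (2 π i σ)^(d-e) v^e Q((2 π i σ)^a / v^b)` with a polynomial `Q`, `Q(0) ≠ 0`, degree `≥ 1`: take a
root `y ≠ 0` of `Q` and `XW.root_sign` : a sign `σ` and `v₀`, `Re v₀ < 0`, `v₀^b y = (2 π i σ)^a`, so
`G(v₀) = 0`, `G` not locally zero. (Copy the computation from P8; there `p` is an integer vector and
`κ` is integral, here `p` is replaced by the rational `q` and `κ` is real: nothing changes.)
`trap_lim` with `l = atTop` (index `K`), `S_K = {‖ξ‖ < (log N)^2}`, `η₀ = |Re v₀| / 2` : for large `K` a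
root `v₁` at `ξ = 0` with `‖v₁ - v₀‖ < η'` and no root with `‖v - v₀‖ = η'` for `‖ξ‖ < (log N)^2`.
`Sheets` for `σ κ`: `ω_K(u)` on the ball of radius `√N` with value `2 π i σ ω N + K^a v₁` at the centre;
on the ball of radius `(log N)^2` `trap` gives `‖(ω_K(u) - 2 π i σ ω N)/K^a - v₀‖ < η'`, so
`Re ω_K(u) ≤ - K^a |Re v₀| / 2 ≤ - C₀ log N` (`log N = b log K`). `punct` for the direction `σ κ`.
-/

set_option autoImplicit false

namespace XV

open MvPolynomial Filter Topology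

private theorem P3_eval_smul {n : ℕ} {φ : MvPolynomial (Fin n) ℂ} {m : ℕ}
    (hφ : φ.IsHomogeneous m) (c : ℂ) (x : Fin n → ℂ) :
    eval (c • x) φ = c ^ m * eval x φ := by
  rw [eval_eq, eval_eq, Finset.mul_sum]
  refine Finset.sum_congr rfl fun s hs => ?_
  have h1 : ∏ i ∈ s.support, (c • x) i ^ s i = c ^ m * ∏ i ∈ s.support, x i ^ s i := by
    simp only [Pi.smul_apply, smul_eq_mul, mul_pow, Finset.prod_mul_distrib,
      Finset.prod_pow_eq_pow_sum]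
    congr 2
    have h2 := hφ (mem_support_iff.1 hs)
    rw [Finsupp.weight_apply] at h2
    simpa [Finsupp.sum] using h2
  rw [h1]; ring

private theorem P3_eval_diff {n : ℕ} (P : MvPolynomial (Fin n) ℂ) {z : ℂ → Fin n → ℂ}
    {s : Set ℂ} (hz : ∀ j, DifferentiableOn ℂ (fun t => z t j) s) :
    DifferentiableOn ℂ (fun t => eval (z t) P) s := by
  induction P using MvPolynomial.induction_on with
  | C a => simp only [eval_C]; exact differentiableOn_const _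
  | add p q hp hq => simp only [map_add]; exact hp.add hq
  | mul_X p j hp => simp only [map_mul, eval_X]; exact hp.mul (hz j)

/-- the exponents -/
private theorem P3_arith {a b d e k Ek : ℕ} (ha : 0 < a) (hab : a < b)
    (hcop : Nat.Coprime a b) (hk : k ≤ d) 
    (heq : ((b : ℤ) - a) * ((e : ℤ) - Ek) = (b : ℤ) * ((d : ℤ) - k)) :
    ∃ t : ℕ, Ek + b * t = e ∧ k + (b - a) * t = d := by
  obtain ⟨c, rfl⟩ := Nat.exists_eq_add_of_lt hab
  have hc1 : ((a + c + 1 : ℕ) : ℤ) - a = (c + 1 : ℕ) := by push_cast; ring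
  rw [hc1] at heq
  have hcop' : IsCoprime (((a + c + 1 : ℕ) : ℤ)) (((c + 1 : ℕ) : ℤ)) := by
    rw [Nat.isCoprime_iff_coprime]
    have h1 : Nat.Coprime (a + (c + 1)) (c + 1) := by
      rw [Nat.coprime_add_self_left]
      have h2 : Nat.Coprime a (a + (c + 1)) := hcop
      rwa [Nat.coprime_self_add_right] at h2
    exact h1
  have hdvd : (((a + c + 1 : ℕ) : ℤ)) ∣ (e : ℤ) - Ek :=
    hcop'.dvd_of_dvd_mul_left ⟨_, heq⟩
  obtain ⟨t, ht⟩ := hdvd
  have h3 : ((c + 1 : ℕ) : ℤ) * t = (d : ℤ) - k := by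
    rw [ht] at heq
    have h4 : ((a + c + 1 : ℕ) : ℤ) ≠ 0 := by positivity
    apply mul_left_cancel₀ h4
    rw [← heq]; ring
  have ht0 : 0 ≤ t := by
    by_contra hneg
    push Not at hneg
    have h5 : ((c + 1 : ℕ) : ℤ) * t < 0 := mul_neg_of_pos_of_neg (by positivity) hneg
    omega
  obtain ⟨t', rfl⟩ := Int.eq_ofNat_of_zero_le ht0
  refine ⟨t', ?_, ?_⟩
  · have : ((Ek + (a + c + 1) * t' : ℕ) : ℤ) = e := by push_cast at ht ⊢; linarith
    exact_mod_cast this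
  · have h6 : a + c + 1 - a = c + 1 := by omega
    rw [h6]
    have : ((k + (c + 1) * t' : ℕ) : ℤ) = d := by push_cast at h3 ⊢; linarith
    exact_mod_cast this

private theorem P3_coeff (J : Finset ℕ) (t : ℕ → ℕ) (β : ℕ → ℂ)
    (hinj : ∀ k ∈ J, ∀ l ∈ J, t k = t l → k = l) {m : ℕ} (hm : m ∈ J) :
    (∑ k ∈ J, Polynomial.C (β k) * Polynomial.X ^ (t k)).coeff (t m) = β m := by
  rw [Polynomial.finsetSum_coeff]
  simp only [Polynomial.coeff_C_mul_X_pow]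
  rw [Finset.sum_eq_single m]
  · simp
  · intro k hk hkm
    rw [if_neg]
    intro h
    exact hkm (hinj k hk m hm h.symm)
  · intro h; exact absurd hm h

private theorem P3_root {d e : ℕ} {E : ℕ → ℕ} {a b i₁ : ℕ} (ha : 0 < a) (hab : a < b)
    (hcop : Nat.Coprime a b) (J : Finset ℕ) (hJd : d ∈ J) (hi : i₁ ∈ J) (hid : i₁ < d)
    (hle : ∀ k ∈ J, k ≤ d)
    (heq : ∀ k ∈ J, ((b : ℤ) - a) * ((e : ℤ) - E k) = (b : ℤ) * ((d : ℤ) - k))
    (hed : e ≤ d) (hEk : ∀ k ∈ J, E k ≤ k) (β : ℕ → ℂ) (hβ : ∀ k ∈ J, β k ≠ 0) :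
    ∃ σ v : ℂ, (σ = 1 ∨ σ = -1) ∧ v.re < 0 ∧
      ∑ k ∈ J, (2 * Real.pi * Complex.I * σ) ^ (k - E k) * β k * v ^ (E k) = 0 := by
  have hex : ∀ k : ℕ, ∃ t : ℕ, k ∈ J → E k + b * t = e ∧ k + (b - a) * t = d := by
    intro k
    by_cases hk : k ∈ J
    · obtain ⟨t, ht⟩ := P3_arith ha hab hcop (hle k hk) (heq k hk)
      exact ⟨t, fun _ => ht⟩
    · exact ⟨0, fun h => absurd h hk⟩
  choose t ht using hex
  have hba : 0 < b - a := by omega
  have hinj : ∀ k ∈ J, ∀ l ∈ J, t k = t l → k = l := by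
    intro k hk l hl h
    have h1 := (ht k hk).2
    have h2 := (ht l hl).2
    rw [h] at h1
    omega
  have htd : t d = 0 := by
    have h1 := (ht d hJd).2
    have h2 : (b - a) * t d = 0 := by omega
    rcases Nat.mul_eq_zero.1 h2 with h3 | h3
    · omega
    · exact h3
  have hti : t i₁ ≠ 0 := by
    intro h0
    have h1 := (ht i₁ hi).2
    rw [h0] at h1
    omega
  obtain ⟨y, hy⟩ := IsAlgClosed.exists_root
    (∑ k ∈ J, Polynomial.C (β k) * Polynomial.X ^ (t k)) (by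
      intro hdeg
      have h1 := P3_coeff J t β hinj hi
      rw [Polynomial.eq_C_of_degree_eq_zero hdeg, Polynomial.coeff_C, if_neg hti] at h1
      exact hβ i₁ hi h1.symm)
  have hy' : ∑ k ∈ J, β k * y ^ (t k) = 0 := by
    have h1 : Polynomial.eval y (∑ k ∈ J, Polynomial.C (β k) * Polynomial.X ^ (t k)) = 0 := hy
    rw [Polynomial.eval_finsetSum] at h1
    simpa using h1
  have hy0 : y ≠ 0 := by
    rintro rfl
    rw [Finset.sum_eq_single d] at hy'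
    · rw [htd, pow_zero, mul_one] at hy'
      exact hβ d hJd hy'
    · intro k hk hkd
      rw [zero_pow, mul_zero]
      intro h
      exact hkd (hinj k hk d hJd (by rw [h, htd]))
    · intro h; exact absurd hJd h
  obtain ⟨σ, v, hσ, hv, hvy⟩ := XW.root_sign a b ha hab hcop y hy0
  refine ⟨σ, v, hσ, hv, ?_⟩
  have hterm : ∀ k ∈ J, (2 * Real.pi * Complex.I * σ) ^ (k - E k) * β k * v ^ (E k) =
      (v ^ e * (2 * Real.pi * Complex.I * σ) ^ (d - e)) * (β k * y ^ (t k)) := by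
    intro k hk
    obtain ⟨h1, h2⟩ := ht k hk
    have h3 : k - E k = (d - e) + a * t k := by
      have h4 := hEk k hk
      have h5 : (b - a) * t k + a * t k = b * t k := by rw [← Nat.add_mul]; congr 1; omega
      omega
    rw [h3, pow_add, pow_mul, ← hvy, mul_pow (v ^ b) y (t k), ← pow_mul]
    have h4 : v ^ e = v ^ (E k) * v ^ (b * t k) := by rw [← pow_add, h1]
    rw [h4]
    ring
  rw [Finset.sum_congr rfl hterm, ← Finset.mul_sum, hy', mul_zero]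

/-- a nonzero polynomial expression does not vanish near a point -/
private theorem P3_not_locally (J : Finset ℕ) (E : ℕ → ℕ) (c : ℕ → ℂ)
    (hinj : ∀ k ∈ J, ∀ l ∈ J, E k = E l → k = l) {m : ℕ} (hm : m ∈ J) (hc : c m ≠ 0) (v : ℂ) :
    ¬ ∀ᶠ z in 𝓝 v, ∑ k ∈ J, c k * z ^ (E k) = 0 := by
  intro h
  have hp : (∑ k ∈ J, Polynomial.C (c k) * Polynomial.X ^ (E k)) ≠ 0 := by
    intro h0
    have h1 := P3_coeff J E c hinj hm
    rw [h0, Polynomial.coeff_zero] at h1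
    exact hc h1.symm
  have hfin : {z : ℂ | ∑ k ∈ J, c k * z ^ (E k) = 0}.Finite := by
    refine ((∑ k ∈ J, Polynomial.C (c k) * Polynomial.X ^ (E k)).roots.toFinset.finite_toSet).subset ?_
    intro z hz
    simp only [Finset.mem_coe, Multiset.mem_toFinset]
    rw [Polynomial.mem_roots hp, Polynomial.IsRoot, Polynomial.eval_finsetSum]
    simpa using hz
  exact (infinite_of_mem_nhds v h) hfin

private theorem P3_zpow_lim {m : ℤ} (hm : m < 0) :
    Tendsto (fun K : ℕ => ((K : ℂ)) ^ m) atTop (𝓝 0) := by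
  have h1 : Tendsto (fun x : ℝ => x ^ m) atTop (𝓝 0) := tendsto_zpow_atTop_zero hm
  have h2 := (Complex.continuous_ofReal.tendsto 0).comp
    (h1.comp (tendsto_natCast_atTop_atTop (R := ℝ)))
  simp only [Complex.ofReal_zero] at h2
  refine h2.congr fun K => ?_
  simp [Function.comp]


private theorem P3_unif {Ξ : Type*} (F : ℕ → Ξ → ℂ → ℂ) (S : ℕ → Set Ξ) (G : ℂ → ℂ)
    (hG : Continuous G) {A : Set ℂ} (hA : IsCompact A)
    (h : ∀ z₁ ∈ A, Tendsto (fun p : ℕ × Ξ × ℂ => F p.1 p.2.1 p.2.2)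
      ((atTop ×ˢ (⊤ ×ˢ 𝓝 z₁)) ⊓ 𝓟 {p | p.2.1 ∈ S p.1}) (𝓝 (G z₁))) (ε : ℝ) (hε : 0 < ε) :
    ∀ᶠ i in atTop, ∀ ξ ∈ S i, ∀ z ∈ A, ‖F i ξ z - G z‖ < ε := by
  refine hA.induction_on (p := fun s => ∀ᶠ i in atTop, ∀ ξ ∈ S i, ∀ z ∈ s, ‖F i ξ z - G z‖ < ε)
    ?_ ?_ ?_ ?_
  · exact Filter.Eventually.of_forall (by simp)
  · intro s t hst ht
    filter_upwards [ht] with i hi ξ hξ z hz
    exact hi ξ hξ z (hst hz)
  · intro s t hs ht
    filter_upwards [hs, ht] with i h1 h2 ξ hξ z hz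
    rcases hz with hz | hz
    · exact h1 ξ hξ z hz
    · exact h2 ξ hξ z hz
  · intro z₁ hz₁
    have h1 := (h z₁ hz₁).eventually (Metric.ball_mem_nhds (G z₁) (half_pos hε))
    rw [eventually_inf_principal, eventually_prod_iff] at h1
    obtain ⟨pa, hpa, pb, hpb, hab⟩ := h1
    rw [eventually_prod_iff] at hpb
    obtain ⟨pc, hpc, pd, hpd, hcd⟩ := hpb
    rw [eventually_top] at hpc
    have h2 : ∀ᶠ z in 𝓝 z₁, ‖G z - G z₁‖ < ε / 2 := by
      have := (hG.tendsto z₁).eventually (Metric.ball_mem_nhds (G z₁) (half_pos hε))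
      filter_upwards [this] with z hz
      rwa [← dist_eq_norm]
    refine ⟨{z | pd z ∧ ‖G z - G z₁‖ < ε / 2}, mem_nhdsWithin_of_mem_nhds (hpd.and h2), ?_⟩
    filter_upwards [hpa] with i hi ξ hξ z hz
    have h3 : ‖F i ξ z - G z₁‖ < ε / 2 := by
      rw [← dist_eq_norm]
      exact hab hi (hcd (hpc ξ) hz.1) hξ
    calc ‖F i ξ z - G z‖ = ‖(F i ξ z - G z₁) - (G z - G z₁)‖ := by congr 1; ring
      _ ≤ ‖F i ξ z - G z₁‖ + ‖G z - G z₁‖ := norm_sub_le _ _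
      _ < ε / 2 + ε / 2 := add_lt_add h3 hz.2
      _ = ε := by ring

private theorem P3_log_lim (a b : ℕ) (ha : 0 < a) :
    Tendsto (fun K : ℕ => ((K : ℝ) ^ a)⁻¹ * Real.log ((K ^ b : ℕ) : ℝ) ^ 2) atTop (𝓝 0) := by
  have h1 : Tendsto (fun x : ℝ => Real.log x ^ 2 / x) atTop (𝓝 0) :=
    (Real.isLittleO_pow_log_id_atTop (n := 2)).tendsto_div_nhds_zero
  have h2 := ((h1.comp (tendsto_natCast_atTop_atTop (R := ℝ))).const_mul ((b : ℝ) ^ 2))
  rw [mul_zero] at h2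
  refine squeeze_zero' (Filter.Eventually.of_forall fun K => by positivity) ?_ h2
  filter_upwards [eventually_ge_atTop 1] with K hK
  have hK1 : (1 : ℝ) ≤ K := by exact_mod_cast hK
  have h3 : (K : ℝ) ≤ (K : ℝ) ^ a := by
    conv_lhs => rw [← pow_one (K : ℝ)]
    exact pow_le_pow_right₀ hK1 (by omega)
  have h4 : ((K : ℝ) ^ a)⁻¹ ≤ (K : ℝ)⁻¹ := inv_anti₀ (by linarith) h3
  have h5 : Real.log ((K ^ b : ℕ) : ℝ) = b * Real.log K := by
    push_cast
    rw [Real.log_pow]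
  rw [h5, Function.comp_apply]
  calc ((K : ℝ) ^ a)⁻¹ * (b * Real.log K) ^ 2 ≤ (K : ℝ)⁻¹ * (b * Real.log K) ^ 2 :=
        mul_le_mul_of_nonneg_right h4 (by positivity)
    _ = (b : ℝ) ^ 2 * (Real.log K ^ 2 / K) := by ring

private theorem P3_sq (b : ℕ) (hb : 0 < b) :
    ∀ᶠ K : ℕ in atTop, Real.log ((K ^ b : ℕ) : ℝ) ^ 2 ≤ Real.sqrt ((K ^ b : ℕ) : ℝ) := by
  have h1 := (isLittleO_log_rpow_atTop (r := 1 / 4) (by norm_num)).bound (c := 1) one_pos
  have h2 := (tendsto_natCast_atTop_atTop (R := ℝ)).eventually h1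
  have h3 : ∀ᶠ N : ℕ in atTop, Real.log (N : ℝ) ^ 2 ≤ Real.sqrt N := by
    filter_upwards [h2] with N hN
    have hN0 : (0 : ℝ) ≤ N := Nat.cast_nonneg N
    have hl : 0 ≤ Real.log N := Real.log_natCast_nonneg N
    rw [one_mul, Real.norm_of_nonneg hl, Real.norm_of_nonneg (Real.rpow_nonneg hN0 _)] at hN
    have h3 : Real.log N ^ 2 ≤ ((N : ℝ) ^ (1 / 4 : ℝ)) ^ 2 := pow_le_pow_left₀ hl hN 2
    refine h3.trans (le_of_eq ?_)
    rw [← Real.rpow_natCast, ← Real.rpow_mul hN0, Real.sqrt_eq_rpow]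
    norm_num
  exact (tendsto_pow_atTop (by omega)).eventually h3

private theorem P3_lin (a b : ℕ) (ha : 0 < a) (c : ℝ) (hc : 0 < c) (C₀ : ℕ) :
    ∀ᶠ K : ℕ in atTop, (C₀ : ℝ) * Real.log ((K ^ b : ℕ) : ℝ) ≤ c * (K : ℝ) ^ a := by
  have h1 := (Real.isLittleO_log_id_atTop.bound (c := c / (C₀ * b + 1)) (by positivity))
  have h2 := (tendsto_natCast_atTop_atTop (R := ℝ)).eventually h1
  filter_upwards [h2, eventually_ge_atTop 1] with K hK hK1
  have hK1' : (1 : ℝ) ≤ K := by exact_mod_cast hK1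
  have hl : 0 ≤ Real.log K := Real.log_natCast_nonneg K
  rw [id, Real.norm_of_nonneg hl, Real.norm_of_nonneg (by linarith)] at hK
  have h3 : (K : ℝ) ≤ (K : ℝ) ^ a := by
    conv_lhs => rw [← pow_one (K : ℝ)]
    exact pow_le_pow_right₀ hK1' (by omega)
  have h5 : Real.log ((K ^ b : ℕ) : ℝ) = b * Real.log K := by
    push_cast
    rw [Real.log_pow]
  rw [h5]
  have h6 : (0 : ℝ) < C₀ * b + 1 := by positivity
  have h7 : (C₀ * b + 1) * Real.log K ≤ c * K := by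
    rw [div_mul_eq_mul_div, le_div_iff₀ h6] at hK
    linarith
  have h8 : c * K ≤ c * (K : ℝ) ^ a := mul_le_mul_of_nonneg_left h3 hc.le
  nlinarith

theorem tame2 {n : ℕ} {V : Set ((Fin n → ℂ) × (Fin n → ℂ))} {P H : MvPolynomial (Fin n) ℂ}
    {a : Fin n → ℤ} {Δ : R1 n} {χ : R2 n} {A A' : Fin n → R2 n}
    (hp : RPres V P a Δ χ A A') {q : Fin n → ℚ} {S : Finset (Fin n → ℚ)}
    {𝒢 : Finset (MvPolynomial (Fin n) ℂ)} (hs : SlopeData P Δ χ A q S 𝒢)
    {κ : Fin n → ℝ} (hκ : GoodDir P (XW.qc q) (𝒢 : Set (MvPolynomial (Fin n) ℂ)) κ)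
    (hno : ¬ ∃ z : Fin n → ℂ, (z, fun j => Complex.exp (z j)) ∈ V)
    {d h : ℕ} {E : ℕ → ℕ} {B : ℕ → MvPolynomial (Fin n) ℂ} (hdec : XW.Dec P H d h E B)
    (ω : ℝ) (hH0 : eval (XW.rc κ + (ω : ℂ) • XW.qc q) H = 0)
    (hD : eval (XW.rc κ + (ω : ℂ) • XW.qc q) (XW.dirD (XW.qc q) H) ≠ 0)
    (hB : ∀ i ≤ d, B i ≠ 0 → eval (XW.rc κ + (ω : ℂ) • XW.qc q) (B i) ≠ 0) :
    ∀ i ≤ d, B i ≠ 0 → i + E d ≤ d + E i := by
  classical
  intro i hi hBi
  by_contra hcon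
  push Not at hcon
  have hid : i ≠ d := by
    rintro rfl
    omega
  obtain ⟨a', b, i₁, ha, hab, hcop, hi₁, hineq, heq₁⟩ := XW.edge d (E d) E
    ((Finset.range d).filter (fun k => B k ≠ 0))
    (fun k hk => Finset.mem_range.1 (Finset.mem_filter.1 hk).1)
    ⟨i, Finset.mem_filter.2 ⟨Finset.mem_range.2 (lt_of_le_of_ne hi hid), hBi⟩, by omega⟩
  have hi₁d : i₁ < d := Finset.mem_range.1 (Finset.mem_filter.1 hi₁).1
  have hi₁B : B i₁ ≠ 0 := (Finset.mem_filter.1 hi₁).2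
  obtain ⟨κs, hκs⟩ : ∃ x : Fin n → ℂ, x = XW.rc κ + (ω : ℂ) • XW.qc q := ⟨_, rfl⟩
  rw [← hκs] at hH0 hD
  have hB' : ∀ i ≤ d, B i ≠ 0 → eval κs (B i) ≠ 0 := by rw [hκs]; exact hB
  obtain ⟨D, hDD⟩ : ∃ x : ℂ, x = eval κs (XW.dirD (XW.qc q) H) := ⟨_, rfl⟩
  rw [← hDD] at hD
  obtain ⟨J, hJ⟩ : ∃ J : Finset ℕ, J = (Finset.range (d + 1)).filter (fun k => B k ≠ 0 ∧
      ((b : ℤ) - a') * ((E d : ℤ) - E k) = (b : ℤ) * ((d : ℤ) - k)) := ⟨_, rfl⟩
  have hJmem : ∀ k, k ∈ J ↔ k ≤ d ∧ B k ≠ 0 ∧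
      ((b : ℤ) - a') * ((E d : ℤ) - E k) = (b : ℤ) * ((d : ℤ) - k) := by
    intro k
    rw [hJ, Finset.mem_filter, Finset.mem_range, Nat.lt_succ_iff]
  have hhpos := hdec.hpos
  have hEle : ∀ k ≤ d, B k ≠ 0 → E k ≤ k := by
    intro k hk hBk
    have h1 := (hdec.deg k hk hBk).1
    nlinarith
  have hdJ : d ∈ J := (hJmem d).2 ⟨le_rfl, hdec.top, by ring⟩
  have hi₁J : i₁ ∈ J := (hJmem i₁).2 ⟨hi₁d.le, hi₁B, heq₁⟩
  obtain ⟨σ, v₀, hσ, hv₀, hsum⟩ := P3_root (E := E) ha hab hcop J hdJ hi₁J hi₁d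
    (fun k hk => ((hJmem k).1 hk).1) (fun k hk => ((hJmem k).1 hk).2.2)
    (hEle d le_rfl hdec.top)
    (fun k hk => hEle k ((hJmem k).1 hk).1 ((hJmem k).1 hk).2.1)
    (fun k => eval κs (B k) * D ^ (E k))
    (fun k hk => mul_ne_zero (hB' k ((hJmem k).1 hk).1 ((hJmem k).1 hk).2.1) (pow_ne_zero _ hD))
  obtain ⟨σr, κ', hσr, hσ0, hκ', hbd, hsh, hgen⟩ : ∃ (σr : ℝ) (κ' : Fin n → ℝ), σ = σr ∧ σr ≠ 0 ∧
      (∀ j, κ' j = σr * κ j) ∧ Bdd P (XW.qc q) κ' ∧ Sheets P (XW.qc q) κ' ∧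
      ∀ G ∈ 𝒢, Gen P (XW.qc q) κ' G := by
    rcases hσ with h1 | h1
    · exact ⟨1, κ, by simp [h1], one_ne_zero, fun j => by simp, hκ.bdd.1, hκ.sheets.1,
        fun G hG => (hκ.gen G hG (hs.1 G hG)).1⟩
    · exact ⟨-1, -κ, by simp [h1], by norm_num, fun j => by simp, hκ.bdd.2, hκ.sheets.2,
        fun G hG => (hκ.gen G hG (hs.1 G hG)).2⟩
  obtain ⟨u, hu⟩ : ∃ u : ℂ, u = 2 * Real.pi * Complex.I * σ := ⟨_, rfl⟩
  rw [← hu] at hsum
  have hu0 : u ≠ 0 := by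
    rw [hu, hσr]
    refine mul_ne_zero ?_ (by exact_mod_cast hσ0)
    exact Complex.two_pi_I_ne_zero
  have hEinj : ∀ k ∈ J, ∀ l ∈ J, E k = E l → k = l := by
    intro k hk l hl hkl
    obtain ⟨t, ht1, ht2⟩ := P3_arith ha hab hcop ((hJmem k).1 hk).1 ((hJmem k).1 hk).2.2
    obtain ⟨t', ht1', ht2'⟩ := P3_arith ha hab hcop ((hJmem l).1 hl).1 ((hJmem l).1 hl).2.2
    have h1 : b * t = b * t' := by omega
    have h2 : t = t' := Nat.eq_of_mul_eq_mul_left (by omega) h1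
    subst h2
    omega
  have hb0 : 0 < b := by omega
  -- the points
  obtain ⟨X, hX⟩ : ∃ X : ℕ → (Fin n → ℂ) → ℂ → Fin n → ℂ,
      X = fun (K : ℕ) (ξ : Fin n → ℂ) (v : ℂ) =>
      ((K : ℂ) ^ b) • (u • κs + ((K : ℂ) ^ a' / (K : ℂ) ^ b) • (v • XW.qc q +
        (((K : ℂ) ^ a')⁻¹) • ξ)) := ⟨_, rfl⟩
  have hXkey : ∀ (K : ℕ) (ξ : Fin n → ℂ) (v : ℂ), K ≠ 0 → X K ξ v =
      ctr κ' (K ^ b) + ξ + (u * ω * (K : ℂ) ^ b + (K : ℂ) ^ a' * v) • XW.qc q := by
    intro K ξ v hK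
    have hK' : (K : ℂ) ≠ 0 := by exact_mod_cast hK
    have h1 : (K : ℂ) ^ a' ≠ 0 := pow_ne_zero _ hK'
    have h2 : (K : ℂ) ^ b ≠ 0 := pow_ne_zero _ hK'
    funext j
    rw [hX, hκs]
    simp only [Pi.add_apply, Pi.smul_apply, smul_eq_mul, ctr, XW.rc, hκ', hu, hσr]
    push_cast
    field_simp
    ring
  obtain ⟨S', hS'⟩ : ∃ S' : ℕ → Set (Fin n → ℂ), S' = fun (K : ℕ) =>
      {ξ | ‖ξ‖ < Real.log ((K ^ b : ℕ) : ℝ) ^ 2} := ⟨_, rfl⟩
  obtain ⟨F, hF⟩ : ∃ F : ℕ → (Fin n → ℂ) → ℂ → ℂ,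
      F = fun (K : ℕ) (ξ : Fin n → ℂ) (v : ℂ) => eval (X K ξ v) P /
      (((K : ℂ) ^ b) ^ d * ((K : ℂ) ^ a' / (K : ℂ) ^ b) ^ (E d)) := ⟨_, rfl⟩
  obtain ⟨G, hG⟩ : ∃ G : ℂ → ℂ, G = fun v => ∑ k ∈ J,
      (u ^ (k - E k) * (eval κs (B k) * D ^ (E k))) * v ^ (E k) := ⟨_, rfl⟩
  have hGc : Continuous G := by rw [hG]; fun_prop
  have hGd : Differentiable ℂ G := by rw [hG]; fun_prop
  have hv₀2 : 0 < -v₀.re / 2 := by linarith
  -- the limit
  have hlim : ∀ z₁ : ℂ, Tendsto (fun p : ℕ × (Fin n → ℂ) × ℂ => F p.1 p.2.1 p.2.2)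
      ((atTop ×ˢ (⊤ ×ˢ 𝓝 z₁)) ⊓ 𝓟 {p | p.2.1 ∈ S' p.1}) (𝓝 (G z₁)) := by
    intro z₁
    obtain ⟨L, hL⟩ : ∃ L : Filter (ℕ × (Fin n → ℂ) × ℂ),
      L = (atTop ×ˢ (⊤ ×ˢ 𝓝 z₁)) ⊓ 𝓟 {p | p.2.1 ∈ S' p.1} := ⟨_, rfl⟩
    rw [← hL]
    have hfst : Tendsto (fun p : ℕ × (Fin n → ℂ) × ℂ => p.1) L atTop := by
      rw [hL]; exact tendsto_fst.mono_left inf_le_left
    have hsnd : Tendsto (fun p : ℕ × (Fin n → ℂ) × ℂ => p.2.2) L (𝓝 z₁) := by
      rw [hL]; exact (tendsto_snd.comp tendsto_snd).mono_left inf_le_left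
    have hmem : ∀ᶠ p in L, p.2.1 ∈ S' p.1 := by
      rw [hL]
      exact (eventually_principal.2 (fun p hp => hp)).filter_mono inf_le_right
    have hξ : Tendsto (fun p : ℕ × (Fin n → ℂ) × ℂ => (((p.1 : ℂ)) ^ a')⁻¹ • p.2.1) L
        (𝓝 0) := by
      rw [tendsto_zero_iff_norm_tendsto_zero]
      refine squeeze_zero' (Filter.Eventually.of_forall fun p => norm_nonneg _) ?_
        ((P3_log_lim a' b ha).comp hfst)
      filter_upwards [hmem] with p hp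
      rw [hS'] at hp
      rw [norm_smul, norm_inv, norm_pow, Complex.norm_natCast, Function.comp_apply]
      exact mul_le_mul_of_nonneg_left (le_of_lt hp) (by positivity)
    have hx : Tendsto (fun p : ℕ × (Fin n → ℂ) × ℂ => p.2.2 • XW.qc q +
        ((((p.1 : ℂ)) ^ a')⁻¹) • p.2.1) L (𝓝 (z₁ • XW.qc q)) := by
      have h1 := (hsnd.smul_const (XW.qc q)).add hξ
      simpa using h1
    have hne : ∀ᶠ p : ℕ × (Fin n → ℂ) × ℂ in L, p.1 ≠ 0 :=
      hfst.eventually (eventually_ne_atTop 0)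
    have hη : Tendsto (fun p : ℕ × (Fin n → ℂ) × ℂ => (p.1 : ℂ) ^ a' / (p.1 : ℂ) ^ b) L
        (𝓝[≠] 0) := by
      rw [tendsto_nhdsWithin_iff]
      refine ⟨?_, ?_⟩
      · have h1 : Tendsto (fun K : ℕ => ((K : ℂ)) ^ ((a' : ℤ) - b)) atTop (𝓝 0) :=
          P3_zpow_lim (by omega)
        refine (h1.comp hfst).congr' ?_
        filter_upwards [hne] with q hq
        have hq' : (q.1 : ℂ) ≠ 0 := by exact_mod_cast hq
        simp only [Function.comp]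
        rw [zpow_sub₀ hq', zpow_natCast, zpow_natCast]
      · filter_upwards [hne] with q hq
        have hq' : (q.1 : ℂ) ≠ 0 := by exact_mod_cast hq
        exact div_ne_zero (pow_ne_zero _ hq') (pow_ne_zero _ hq')
    have hA0 : eval (u • κs) H = 0 := by
      rw [P3_eval_smul hdec.hom, hH0, mul_zero]
    have hlem := XW.lemmaL (l := L) hdec (u • κs) hA0 (z₁ • XW.qc q)
      (fun p : ℕ × (Fin n → ℂ) × ℂ => (p.1 : ℂ) ^ b)
      (fun p : ℕ × (Fin n → ℂ) × ℂ => (p.1 : ℂ) ^ a' / (p.1 : ℂ) ^ b)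
      (fun p : ℕ × (Fin n → ℂ) × ℂ => p.2.2 • XW.qc q + ((((p.1 : ℂ)) ^ a')⁻¹) • p.2.1)
      (fun k => if ((b : ℤ) - a') * ((E d : ℤ) - E k) = (b : ℤ) * ((d : ℤ) - k) then 1 else 0)
      ?_ hη hx ?_
    · have hGz : G z₁ = ∑ k ∈ Finset.range (d + 1),
          (if ((b : ℤ) - a') * ((E d : ℤ) - E k) = (b : ℤ) * ((d : ℤ) - k) then (1 : ℂ) else 0) *
            (∑ j, (z₁ • XW.qc q) j * eval (u • κs) (pderiv j H)) ^ (E k) *
              eval (u • κs) (B k) := by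
        have hdir : ∑ j, (z₁ • XW.qc q) j * eval (u • κs) (pderiv j H) =
            z₁ * (u ^ (h - 1) * D) := by
          rw [hDD, XW.dirD, map_sum, Finset.mul_sum, Finset.mul_sum]
          refine Finset.sum_congr rfl fun j _ => ?_
          rw [P3_eval_smul (hdec.hom.pderiv (i := j)), map_mul, eval_C, Pi.smul_apply,
            smul_eq_mul]
          ring
        rw [hG, hJ]
        simp only
        rw [Finset.sum_filter]
        refine Finset.sum_congr rfl fun k hk => ?_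
        have hkd : k ≤ d := Nat.lt_succ_iff.1 (Finset.mem_range.1 hk)
        by_cases hBk : B k = 0
        · simp [hBk]
        · by_cases hq : ((b : ℤ) - a') * ((E d : ℤ) - E k) = (b : ℤ) * ((d : ℤ) - k)
          · rw [if_pos ⟨hBk, hq⟩, if_pos hq, one_mul, hdir,
              P3_eval_smul (hdec.deg k hkd hBk).2]
            have h1 := (hdec.deg k hkd hBk).1
            have h2 := hEle k hkd hBk
            have h3 : k - E k = (h - 1) * E k + (k - E k * h) := by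
              obtain ⟨h', rfl⟩ : ∃ h', h = h' + 1 := ⟨h - 1, by omega⟩
              have h4 : (h' + 1 - 1) * E k = h' * E k := by simp
              have h5 : E k * (h' + 1) = h' * E k + E k := by ring
              rw [h4, h5]
              rw [h5] at h1
              omega
            rw [h3, pow_add, pow_mul]
            ring
          · rw [if_neg (fun hh => hq hh.2), if_neg hq]
            ring
      rw [hGz, hF, hX]
      exact hlem
    · filter_upwards [hne] with q hq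
      have hq' : (q.1 : ℂ) ≠ 0 := by exact_mod_cast hq
      exact pow_ne_zero _ hq'
    · intro k hk hBk
      have hexpo : ∀ q : ℕ × (Fin n → ℂ) × ℂ, q.1 ≠ 0 →
          ((q.1 : ℂ) ^ ((b : ℤ) * ((k : ℤ) - d) + ((a' : ℤ) - b) * ((E k : ℤ) - E d))) =
          ((q.1 : ℂ) ^ b) ^ ((k : ℤ) - d) *
            ((q.1 : ℂ) ^ a' / (q.1 : ℂ) ^ b) ^ ((E k : ℤ) - E d) := by
        intro q hq
        have hq' : (q.1 : ℂ) ≠ 0 := by exact_mod_cast hq
        have h1 : (q.1 : ℂ) ^ a' / (q.1 : ℂ) ^ b = (q.1 : ℂ) ^ ((a' : ℤ) - b) := by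
          rw [zpow_sub₀ hq', zpow_natCast, zpow_natCast]
        rw [h1, zpow_add₀ hq', zpow_mul, zpow_mul, zpow_natCast]
      by_cases hq : ((b : ℤ) - a') * ((E d : ℤ) - E k) = (b : ℤ) * ((d : ℤ) - k)
      · rw [if_pos hq]
        refine tendsto_const_nhds.congr' ?_
        filter_upwards [hne] with q hq0
        rw [← hexpo q hq0]
        have h0 : (b : ℤ) * ((k : ℤ) - d) + ((a' : ℤ) - b) * ((E k : ℤ) - E d) = 0 := by
          linarith
        rw [h0, zpow_zero]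
      · rw [if_neg hq]
        have hkd : k ≠ d := by
          rintro rfl
          exact hq (by ring)
        have hle := hineq k (Finset.mem_filter.2
          ⟨Finset.mem_range.2 (lt_of_le_of_ne hk hkd), hBk⟩)
        have hlt : (b : ℤ) * ((k : ℤ) - d) + ((a' : ℤ) - b) * ((E k : ℤ) - E d) < 0 := by
          have h1 := lt_of_le_of_ne hle hq
          linarith
        refine ((P3_zpow_lim hlt).comp hfst).congr' ?_
        filter_upwards [hne] with q hq0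
        rw [← hexpo q hq0]
        rfl
  obtain ⟨η, hη0, hηη, _, hev⟩ := trap_lim (l := atTop) F S' G (z₀ := v₀) (r := -v₀.re / 2) hv₀2
    (by
      refine Filter.Eventually.of_forall fun K ξ _ => ?_
      rw [hF]
      refine DifferentiableOn.div_const ?_ _
      refine P3_eval_diff P fun j => ?_
      rw [hX]
      simp only [Pi.smul_apply, Pi.add_apply, smul_eq_mul]
      refine Differentiable.differentiableOn ?_
      fun_prop)
    hGd.differentiableOn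
    (fun r' _ ε hε => P3_unif F S' G hGc (isCompact_closedBall v₀ r') (fun z₁ _ => hlim z₁) ε hε)
    (by rw [hG]; exact hsum)
    (by
      rw [hG]
      exact P3_not_locally J E _ hEinj hdJ (mul_ne_zero (pow_ne_zero _ hu0)
        (mul_ne_zero (hB' d le_rfl hdec.top) (pow_ne_zero _ hD))) v₀)
    (-v₀.re / 2) hv₀2
  have hzero : ∀ (K : ℕ) (ξ : Fin n → ℂ) (v : ℂ), K ≠ 0 → (F K ξ v = 0 ↔
      eval (ctr κ' (K ^ b) + ξ + (u * ω * (K : ℂ) ^ b + (K : ℂ) ^ a' * v) • XW.qc q) P = 0) := by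
    intro K ξ v hK
    have hK' : (K : ℂ) ≠ 0 := by exact_mod_cast hK
    rw [← hXkey K ξ v hK, hF]
    simp only
    rw [div_eq_zero_iff]
    refine ⟨fun h => h.resolve_right ?_, Or.inl⟩
    exact mul_ne_zero (pow_ne_zero _ (pow_ne_zero _ hK'))
      (pow_ne_zero _ (div_ne_zero (pow_ne_zero _ hK') (pow_ne_zero _ hK')))
  have hure : ∀ (N : ℝ), (u * ω * (N : ℂ)).re = 0 := by
    intro N
    have h1 : u * ω * (N : ℂ) = ((2 * Real.pi * σr * ω * N : ℝ) : ℂ) * Complex.I := by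
      rw [hu, hσr]; push_cast; ring
    rw [h1, Complex.re_ofReal_mul, Complex.I_re, mul_zero]
  have hpow : Tendsto (fun K : ℕ => K ^ b) atTop atTop := tendsto_pow_atTop (by omega)
  refine hno (punct hp hs hbd hgen ?_)
  intro C₀
  refine hpow.frequently (Filter.Eventually.frequently ?_)
  filter_upwards [hev, hpow.eventually hsh, P3_sq b hb0, P3_lin a' b ha (-v₀.re / 2) hv₀2 C₀,
    eventually_ge_atTop 2] with K hK₁ hK₂ hK₃ hK₄ hK₅
  have hK0 : K ≠ 0 := by omega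
  have hK' : (K : ℂ) ≠ 0 := by exact_mod_cast hK0
  have hKa : (K : ℂ) ^ a' ≠ 0 := pow_ne_zero _ hK'
  have hKr : (2 : ℝ) ≤ K := by exact_mod_cast hK₅
  have hlogpos : 0 < Real.log ((K ^ b : ℕ) : ℝ) := by
    push_cast
    rw [Real.log_pow]
    have := Real.log_pos (show (1 : ℝ) < K by linarith)
    positivity
  have hlog2 : 0 < Real.log ((K ^ b : ℕ) : ℝ) ^ 2 := by positivity
  have h0S : (0 : Fin n → ℂ) ∈ S' K := by
    rw [hS']
    show ‖(0 : Fin n → ℂ)‖ < _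
    rw [norm_zero]
    exact hlog2
  obtain ⟨v₁, hv₁, hv₁F⟩ := (hK₁ 0 h0S).2
  rw [hzero K 0 v₁ hK0, add_zero] at hv₁F
  have hsqpos : 0 < Real.sqrt ((K ^ b : ℕ) : ℝ) := lt_of_lt_of_le hlog2 hK₃
  obtain ⟨w, hwd, hwc, hwP⟩ := hK₂ (ctr κ' (K ^ b)) (Metric.mem_ball_self hsqpos) _ hv₁F
  have hsub : Metric.ball (ctr κ' (K ^ b)) (Real.log ((K ^ b : ℕ) : ℝ) ^ 2) ⊆
    Metric.ball (ctr κ' (K ^ b)) (Real.sqrt ((K ^ b : ℕ) : ℝ)) := Metric.ball_subset_ball hK₃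
  refine ⟨w, hwd.mono hsub, ?_⟩
  have hwdlog := hwd.mono hsub
  have htr : ∀ x ∈ Metric.ball (ctr κ' (K ^ b)) (Real.log ((K ^ b : ℕ) : ℝ) ^ 2),
      ‖(w x - u * ω * (K : ℂ) ^ b) / (K : ℂ) ^ a' - v₀‖ < η := by
    refine trap (convex_ball _ _).isPreconnected _ ?_ (Metric.mem_ball_self hlog2) ?_ ?_
    · exact (((hwdlog.continuousOn.sub continuousOn_const).div_const _).sub
        continuousOn_const).norm
    · rw [hwc]
      have h1 : (u * ω * (K : ℂ) ^ b + (K : ℂ) ^ a' * v₁ - u * ω * (K : ℂ) ^ b) / (K : ℂ) ^ a' =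
          v₁ := by
        field_simp
        ring
      rw [h1]
      exact hv₁
    · intro x hx hxη
      have hxS : x - ctr κ' (K ^ b) ∈ S' K := by
        rw [hS']
        show ‖x - ctr κ' (K ^ b)‖ < _
        rw [← dist_eq_norm]
        exact hx
      refine (hK₁ _ hxS).1 _ hxη ?_
      rw [hzero K _ _ hK0]
      have h1 : ctr κ' (K ^ b) + (x - ctr κ' (K ^ b)) + (u * ω * (K : ℂ) ^ b + (K : ℂ) ^ a' *
          ((w x - u * ω * (K : ℂ) ^ b) / (K : ℂ) ^ a')) • XW.qc q = x + w x • XW.qc q := by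
        rw [mul_div_cancel₀ _ hKa]
        congr 1
        · abel
        · congr 1
          ring
      rw [h1]
      exact hwP x (hsub hx)
  intro x hx
  refine ⟨hwP x (hsub hx), ?_⟩
  have h1 := htr x hx
  obtain ⟨z, hz⟩ : ∃ z : ℂ, z = (w x - u * ω * (K : ℂ) ^ b) / (K : ℂ) ^ a' := ⟨_, rfl⟩
  rw [← hz] at h1
  have h2 : w x = u * ω * ((((K : ℝ) ^ b : ℝ)) : ℂ) + ((((K : ℝ) ^ a' : ℝ)) : ℂ) * z := by
    rw [hz]
    push_cast
    field_simp
    ring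
  rw [h2, Complex.add_re, hure, Complex.re_ofReal_mul, zero_add]
  have h3 := (Complex.abs_re_le_norm (z - v₀)).trans_lt h1
  rw [Complex.sub_re] at h3
  have h4 := (abs_lt.1 h3).2
  have h5 : z.re ≤ v₀.re / 2 := by linarith
  have h6 : (0 : ℝ) ≤ (K : ℝ) ^ a' := by positivity
  have h7 := mul_le_mul_of_nonneg_left h5 h6
  linarith

end XV
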