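import Pool.Agent.Lib.MP_228259_lc.V.Defs2
import Pool.Agent.Lib.MP_228259_lc.P1
import Pool.Agent.Lib.MP_228259_lc.P2a
import Pool.Agent.Lib.MP_228259_lc.P10b

/-!
XV-R1 (nu_real2). At a real zero `κ + ω q` of `H` the normalised gradient is real, if the roots along
`q` are real at all real points near `κ`.

Proof. As `XW.nu_real` (P10b). Suppose `s = ∂_j H / dirD q H` at `A = κ + ω q` has `im ≠ 0`.
`F_ε(w) = H(A + ε (e_j + w q)) / ε → ∂_j H(A) + w dirD q H(A)` (`XW.taylor1`, `ε → 0` real, `ε ≠ 0`),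
root `w₀ = - s` not real, limit not locally zero. `XW.hurwitz`: for small `ε` a zero `w` near `w₀`, not
real: `H((κ + ε e_j) + (ω + ε w) q) = 0` with `(ω + ε w).im ≠ 0`, contradicting `hreal` for
`κ' = κ + ε e_j` near `κ`.
-/

set_option autoImplicit false

namespace XV

open MvPolynomial Filter Topology

theorem nu_real2 {n : ℕ} (H : MvPolynomial (Fin n) ℂ) (q : Fin n → ℚ) (κ : Fin n → ℝ)
    (hreal : ∀ᶠ κ' : Fin n → ℝ in 𝓝 κ, ∀ ω : ℂ, eval (XW.rc κ' + ω • XW.qc q) H = 0 →
      ω.im = 0) (ω : ℝ)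
    (h0 : eval (XW.rc κ + (ω : ℂ) • XW.qc q) H = 0)
    (h1 : eval (XW.rc κ + (ω : ℂ) • XW.qc q) (XW.dirD (XW.qc q) H) ≠ 0) (j : Fin n) :
    (eval (XW.rc κ + (ω : ℂ) • XW.qc q) (pderiv j H) /
      eval (XW.rc κ + (ω : ℂ) • XW.qc q) (XW.dirD (XW.qc q) H)).im = 0 := by
  by_contra him
  set A : Fin n → ℂ := XW.rc κ + (ω : ℂ) • XW.qc q with hA
  set v : Fin n → ℂ := XW.qc q with hv
  set D := eval A (XW.dirD v H) with hD
  set w0 : ℂ := - (eval A (pderiv j H) / D) with hw0
  have him0 : w0.im ≠ 0 := by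
    rw [hw0, Complex.neg_im]
    exact neg_ne_zero.mpr him
  set ej : Fin n → ℂ := Pi.single j 1 with hej
  have hdiffH : Differentiable ℂ (fun x : Fin n → ℂ => eval x H) := by
    have h5 : (fun x : Fin n → ℂ => eval x H) = fun x => ∑ s ∈ H.support,
        coeff s H * ∏ i, x i ^ s i := by
      funext x
      rw [eval_eq']
    rw [h5]
    fun_prop
  have hsum : ∀ w : ℂ, ∑ i, (ej + w • v) i * eval A (pderiv i H) =
      eval A (pderiv j H) + w * D := by
    intro w
    rw [hD, XW.p10_eval_dirD, Finset.mul_sum]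
    simp only [Pi.add_apply, Pi.smul_apply, smul_eq_mul, add_mul, Finset.sum_add_distrib]
    congr 1
    · rw [Finset.sum_eq_single j]
      · simp [hej]
      · intro i _ hi
        simp [hej, hi]
      · intro hj
        exact absurd (Finset.mem_univ j) hj
    · exact Finset.sum_congr rfl fun i _ => by ring
  have hreal0 : ∀ᶠ ε : ℝ in 𝓝[≠] 0, ε ≠ 0 := by
    filter_upwards [self_mem_nhdsWithin] with ε hε using hε
  have htoC : Tendsto (fun ε : ℝ => (ε : ℂ)) (𝓝[≠] 0) (𝓝[≠] 0) := by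
    refine tendsto_nhdsWithin_iff.mpr ⟨?_, ?_⟩
    · have h3 : Tendsto (fun ε : ℝ => (ε : ℂ)) (𝓝 0) (𝓝 ((0 : ℝ) : ℂ)) :=
        Complex.continuous_ofReal.tendsto 0
      rw [Complex.ofReal_zero] at h3
      exact h3.mono_left nhdsWithin_le_nhds
    · filter_upwards [hreal0] with ε hε
      simpa using hε
  have hur := XW.hurwitz (l := 𝓝[≠] (0 : ℝ))
    (F := fun ε w => eval (A + (ε : ℂ) • (ej + w • v)) H / (ε : ℂ))
    (G := fun w => eval A (pderiv j H) + w * D) (z₀ := w0) (r := |w0.im|)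
    (abs_pos.mpr him0)
    (Filter.Eventually.of_forall fun ε => by
      refine Differentiable.differentiableOn ?_
      have h3 : Differentiable ℂ (fun w : ℂ => A + (ε : ℂ) • (ej + w • v)) := by fun_prop
      exact (hdiffH.comp h3).div_const _)
    (by
      refine Differentiable.differentiableOn ?_
      fun_prop)
    (fun z _ => by
      have h3 := XW.taylor1 H A (ej + z • v)
      have h4 : Tendsto (fun q : ℝ × ℂ => ((q.1 : ℂ), ej + q.2 • v)) (𝓝[≠] 0 ×ˢ 𝓝 z)
          (𝓝[≠] 0 ×ˢ 𝓝 (ej + z • v)) := by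
        refine Tendsto.prodMk (htoC.comp tendsto_fst) ?_
        have h5 : Continuous (fun w : ℂ => ej + w • v) := by fun_prop
        exact (h5.tendsto z).comp tendsto_snd
      have h5 := h3.comp h4
      rw [hsum] at h5
      refine h5.congr fun q => ?_
      simp only [Function.comp_apply]
      rw [h0, sub_zero])
    (by
      rw [hw0]
      field_simp
      ring)
    (by
      intro hz
      have h3 : ∀ᶠ z in 𝓝[≠] w0, eval A (pderiv j H) + z * D = 0 :=
        hz.filter_mono nhdsWithin_le_nhds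
      have h4 : ∀ᶠ z in 𝓝[≠] w0, z ≠ w0 := by
        filter_upwards [self_mem_nhdsWithin] with z hz using hz
      obtain ⟨z, hz1, hz2⟩ := (h3.and h4).exists
      apply hz2
      rw [hw0]
      field_simp
      linear_combination hz1)
  have hpath : Tendsto (fun ε : ℝ => κ + ε • (Pi.single j 1 : Fin n → ℝ)) (𝓝[≠] 0) (𝓝 κ) := by
    have h3 : Continuous (fun ε : ℝ => κ + ε • (Pi.single j 1 : Fin n → ℝ)) := by fun_prop
    have h4 := h3.tendsto 0
    rw [zero_smul, add_zero] at h4
    exact h4.mono_left nhdsWithin_le_nhds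
  obtain ⟨ε, ⟨⟨w, hw, hFw⟩, hrl⟩, hε⟩ := ((hur.and (hpath.eventually hreal)).and hreal0).exists
  have hεC : (ε : ℂ) ≠ 0 := by exact_mod_cast hε
  have hHw : eval (A + (ε : ℂ) • (ej + w • v)) H = 0 := by
    rcases div_eq_zero_iff.mp hFw with h3 | h3
    · exact h3
    · exact absurd h3 hεC
  have hwim : w.im ≠ 0 := by
    intro h3
    have h4 : |w.im - w0.im| ≤ ‖w - w0‖ := by
      rw [← Complex.sub_im]
      exact Complex.abs_im_le_norm _
    rw [Metric.mem_ball, dist_eq_norm] at hw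
    rw [h3, zero_sub, abs_neg] at h4
    linarith
  have hpt : A + (ε : ℂ) • (ej + w • v) =
      XW.rc (κ + ε • Pi.single j 1) + ((ω : ℂ) + (ε : ℂ) * w) • v := by
    funext i
    by_cases hi : i = j
    · subst hi
      simp only [hA, XW.rc, hej, Pi.add_apply, Pi.smul_apply, smul_eq_mul, Pi.single_eq_same]
      push_cast
      ring
    · simp only [hA, XW.rc, hej, Pi.add_apply, Pi.smul_apply, smul_eq_mul, Pi.single_eq_of_ne hi]
      push_cast
      ring
  rw [hpt] at hHw
  have h3 := hrl _ hHw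
  rw [Complex.add_im, Complex.ofReal_im, zero_add, Complex.im_ofReal_mul] at h3
  rcases mul_eq_zero.mp h3 with h4 | h4
  · exact hε h4
  · exact hwim h4

end XV
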