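import Pool.Agent.Lib.MP_228259_lc.V.Defs2
import Pool.Agent.Lib.MP_228259_lc.P4a
import Pool.Agent.Lib.MP_228259_lc.P4b
import Pool.Agent.Lib.MP_228259_lc.P5a
import Pool.Agent.Lib.MP_228259_lc.P20

/-!
XV-R2 (dichotomy2). Either the normalised gradient of `H` is a constant rational vector, or there is a
real zero `κ + ω q` of `H`, `κ` outside countably many hypersurfaces `R_s = 0`, at which it is not
rational.

Proof. As `XW.dichotomy` (P11). Suppose the first alternative fails: for every `q' : Fin n → ℚ` there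
is `j = j(q')` with `∂_j H ≠ q'_j dirD q H`, and then `H` does not divide
`G_{q'} = ∂_j H - C q'_j * dirD q H` (nonzero of degree `h - 1 < h`; compare `XW.not_dvd_dirD`).
`XW.gp` (direction `v = qc q`) for `G_{q'}` (all `q'`, countably many), for `G`, for `dirD q H`
(`XW.not_dvd_dirD`) and `XW.gp_root` give countably many polynomials; together with the `R_s`
`XW.baire_poly` gives a real `κ` where all are nonzero. `gp_root`: a root `ω` of `H(κ + ω q)`, real by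
`hreal`. All the required non-vanishing statements hold at `κ + ω q`.
-/

set_option autoImplicit false

namespace XV

open MvPolynomial Filter Topology

private theorem R2_not_dvd {n : ℕ} {H K : MvPolynomial (Fin n) ℂ} {h : ℕ}
    (hH : H.IsHomogeneous h) (hH0 : H ≠ 0) (hh : 0 < h) (hK : K.IsHomogeneous (h - 1))
    (hK0 : K ≠ 0) : ¬ H ∣ K := by
  rintro ⟨L, rfl⟩
  have hL : L ≠ 0 := right_ne_zero_of_mul hK0
  have h1 := hK.totalDegree hK0
  rw [totalDegree_mul_of_isDomain hH0 hL, hH.totalDegree hH0] at h1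
  omega

private theorem R2_dirD_hom {n : ℕ} {H : MvPolynomial (Fin n) ℂ} {h : ℕ}
    (hH : H.IsHomogeneous h) (v : Fin n → ℂ) : (XW.dirD v H).IsHomogeneous (h - 1) := by
  apply IsHomogeneous.sum
  intro j _
  have h1 := (isHomogeneous_C (Fin n) (v j)).mul (hH.pderiv (i := j))
  rwa [zero_add] at h1

theorem dichotomy2 {n : ℕ} {S : Type*} [Countable S] (R : S → MvPolynomial (Fin n) ℂ)
    (hR : ∀ s, R s ≠ 0) {H G : MvPolynomial (Fin n) ℂ} {h : ℕ} (hirr : Irreducible H)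
    (hH : H.IsHomogeneous h) (hh : 0 < h) (hG : ¬ H ∣ G) (q : Fin n → ℚ)
    (hq : XW.dirD (XW.qc q) H ≠ 0)
    (hreal : ∀ κ : Fin n → ℝ, (∀ s, eval (XW.rc κ) (R s) ≠ 0) → ∀ ω : ℂ,
      eval (XW.rc κ + ω • XW.qc q) H = 0 → ω.im = 0) :
    (∃ q' : Fin n → ℚ, ∀ j, pderiv j H = C (q' j : ℂ) * XW.dirD (XW.qc q) H) ∨
    (∃ (κ : Fin n → ℝ) (ω : ℝ), (∀ s, eval (XW.rc κ) (R s) ≠ 0) ∧
      eval (XW.rc κ + (ω : ℂ) • XW.qc q) H = 0 ∧
      eval (XW.rc κ + (ω : ℂ) • XW.qc q) (XW.dirD (XW.qc q) H) ≠ 0 ∧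
      eval (XW.rc κ + (ω : ℂ) • XW.qc q) G ≠ 0 ∧
      ∀ q' : Fin n → ℚ, ∃ j, eval (XW.rc κ + (ω : ℂ) • XW.qc q) (pderiv j H) ≠
        q' j * eval (XW.rc κ + (ω : ℂ) • XW.qc q) (XW.dirD (XW.qc q) H)) := by
  by_cases hfirst : ∃ q' : Fin n → ℚ, ∀ j, pderiv j H = C (q' j : ℂ) * XW.dirD (XW.qc q) H
  · exact Or.inl hfirst
  right
  push Not at hfirst
  choose J hJ using hfirst
  have hH0 : H ≠ 0 := hirr.ne_zero
  have hD := R2_dirD_hom hH (XW.qc q)
  have hGq : ∀ q' : Fin n → ℚ,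
      ¬ H ∣ (pderiv (J q') H - C (q' (J q') : ℂ) * XW.dirD (XW.qc q) H) := by
    intro q'
    apply R2_not_dvd hH hH0 hh
    · apply (hH.pderiv (i := J q')).sub
      have h1 := (isHomogeneous_C (Fin n) ((q' (J q') : ℚ) : ℂ)).mul hD
      rwa [zero_add] at h1
    · exact sub_ne_zero.2 (hJ q')
  have hDd : ¬ H ∣ XW.dirD (XW.qc q) H := XW.not_dvd_dirD hH hh _ hq
  choose Rq hRq0 hRq using fun q' => XW.gp H hirr (XW.qc q) hq _ (hGq q')
  obtain ⟨RG, hRG0, hRG⟩ := XW.gp H hirr (XW.qc q) hq G hG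
  obtain ⟨RD, hRD0, hRD⟩ := XW.gp H hirr (XW.qc q) hq _ hDd
  obtain ⟨RR, hRR0, hRR⟩ := XW.gp_root H (XW.qc q) hq
  obtain ⟨κ₀, hκ₀⟩ := XW.baire_poly
    (S := (Fin n → ℚ) ⊕ (Fin 3 ⊕ S))
    (fun s => match s with
      | Sum.inl q' => Rq q'
      | Sum.inr (Sum.inl i) => if i = 0 then RG else if i = 1 then RD else RR
      | Sum.inr (Sum.inr s) => R s)
    (by
      rintro (q' | i | s)
      · exact hRq0 q'
      · dsimp only
        split_ifs
        · exact hRG0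
        · exact hRD0
        · exact hRR0
      · exact hR s)
  have hκq : ∀ q', eval (XW.rc κ₀) (Rq q') ≠ 0 := fun q' => hκ₀ (Sum.inl q')
  have hκG : eval (XW.rc κ₀) RG ≠ 0 := hκ₀ (Sum.inr (Sum.inl 0))
  have hκD : eval (XW.rc κ₀) RD ≠ 0 := hκ₀ (Sum.inr (Sum.inl 1))
  have hκR : eval (XW.rc κ₀) RR ≠ 0 := hκ₀ (Sum.inr (Sum.inl 2))
  have hκS : ∀ s, eval (XW.rc κ₀) (R s) ≠ 0 := fun s => hκ₀ (Sum.inr (Sum.inr s))
  obtain ⟨ω, hω⟩ := hRR _ hκR
  have h3 : ω.im = 0 := hreal κ₀ hκS ω hω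
  have hωr : ((ω.re : ℝ) : ℂ) = ω := by
    apply Complex.ext
    · simp
    · simp [h3]
  refine ⟨κ₀, ω.re, hκS, ?_, ?_, ?_, ?_⟩
  · rw [hωr]; exact hω
  · rw [hωr]; exact hRD _ ω hκD hω
  · rw [hωr]; exact hRG _ ω hκG hω
  · intro q'
    refine ⟨J q', ?_⟩
    rw [hωr]
    have h5 := hRq q' _ ω (hκq q') hω
    rw [map_sub, map_mul, eval_C] at h5
    exact sub_ne_zero.1 h5

end XV
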