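import Pool.Agent.Lib.MP_228259_lc.V.F1
import Pool.Agent.Lib.MP_228259_lc.V.F5
import Pool.Agent.Lib.MP_228259_lc.V.F6
import Pool.Agent.Lib.MP_228259_lc.V.F7

/-!
XV-S1 (good directions). For generic `κ` the roots of `P(u + ω v) = 0` near `2 π i N κ` are
polynomially bounded, simple, extend to holomorphic roots, and a polynomial `G` not divisible by `P`
is polynomially bounded below on them.

Proof. Let `psi = XW.P4b_psi v P ∈ ℂ[x][T]` (`P(x + T v)`; `XW.P4b_psi_eval`), `c_D ∈ ℂ[x]` its leading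
coefficient, `D = natDegree > 0`.
* `bdd_exists`: `R` = top form of `c_D`. `regular_ctr` for `c_D` gives `‖c_D(u)‖ ≥ c`; the other
  coefficients are at most `N ^ C` (`eval_bound`, `‖u‖ ≤ C N`); a root of a polynomial of degree `D`
  is at most `1 + ∑ ‖c_i / c_D‖`.
* `gen_exists`: `elim` gives `R' = U P(x + t v) + W G(x + t v)`; on a root `ω` of `P(u + ω v)`:
  `‖R'(u)‖ ≤ ‖W(u, ω)‖ ‖G(u + ω v)‖`, `‖R'(u)‖ ≥ c` (`regular_ctr`), `‖W‖ ≤ N ^ C` (`h1_bound`, `Bdd`).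
  `R` = (top form of `R'`) * (top form of `c_D`).
* `sheets_exist`: `G = dirD v P` is not divisible by `P` (degree), so for generic `κ` the roots are
  simple: `(P(u + T v))' (ω) = eval (u + ω v) (dirD v P) ≠ 0`. The family
  `χ u = C (c_D(u))⁻¹ * (psi.map (eval u))` on the ball (convex, open) is monic of degree `D` with
  holomorphic coefficients: `cov_branch`.
* the top form of a nonzero polynomial is nonzero, a product of nonzero polynomials is nonzero.
* `good_dir`: product over all the conditions of `R(x) R(-x)` (`R(-x)` is again a nonzero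
  polynomial; `eval (rc (-κ)) R`).
-/

set_option autoImplicit false

namespace XV

open MvPolynomial Filter Topology

/-- top form of a nonzero polynomial is nonzero -/
theorem S1_top_ne {n : ℕ} {Q : MvPolynomial (Fin n) ℂ} (hQ : Q ≠ 0) :
    homogeneousComponent Q.totalDegree Q ≠ 0 := by
  classical
  intro h
  have hs : Q.support.Nonempty := by
    rw [Finset.nonempty_iff_ne_empty]
    intro he
    exact hQ (MvPolynomial.support_eq_empty.1 he)
  obtain ⟨d, hd, hdeg⟩ := Finset.exists_mem_eq_sup Q.support hs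
    (fun s => s.sum fun _ e => e)
  have h1 : coeff d (homogeneousComponent Q.totalDegree Q) = coeff d Q := by
    rw [coeff_homogeneousComponent, if_pos]
    have h2 : Q.totalDegree = d.sum fun _ e => e := hdeg
    rw [h2]
    rfl
  rw [h, coeff_zero] at h1
  exact (mem_support_iff.1 hd) h1.symm

theorem S1_root {p : Polynomial ℂ} {ω : ℂ} (hp : p.eval ω = 0) {c B : ℝ} (hc : 0 < c)
    (hlead : c ≤ ‖p.leadingCoeff‖) (hB : ∀ i, ‖p.coeff i‖ ≤ B) : ‖ω‖ ≤ B / c + 1 := by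
  have hp0 : p ≠ 0 := by
    intro h
    rw [h, Polynomial.leadingCoeff_zero, norm_zero] at hlead
    linarith
  have hB0 : 0 ≤ B := le_trans (norm_nonneg _) (hB 0)
  have h1 := Polynomial.IsRoot.norm_lt_cauchyBound hp0 (a := ω) hp
  have h2 : ‖ω‖ < ((Polynomial.cauchyBound p : NNReal) : ℝ) := by exact_mod_cast h1
  refine le_trans h2.le ?_
  unfold Polynomial.cauchyBound
  rw [NNReal.coe_add, NNReal.coe_div, NNReal.coe_one]
  have h3 : ((Finset.sup (Finset.range p.natDegree) (fun x => ‖p.coeff x‖₊) : NNReal) : ℝ) ≤ B := by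
    have h4 : Finset.sup (Finset.range p.natDegree) (fun x => ‖p.coeff x‖₊) ≤ ⟨B, hB0⟩ := by
      refine Finset.sup_le fun i _ => ?_
      rw [← NNReal.coe_le_coe]
      exact hB i
    exact_mod_cast h4
  have h5 : ((‖p.leadingCoeff‖₊ : NNReal) : ℝ) = ‖p.leadingCoeff‖ := rfl
  rw [h5]
  have h6 : ((Finset.sup (Finset.range p.natDegree) (fun x => ‖p.coeff x‖₊) : NNReal) : ℝ) /
      ‖p.leadingCoeff‖ ≤ B / c := by
    apply div_le_div₀ hB0 h3 hc hlead
  linarith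

theorem S1_ctr {n : ℕ} (κ : Fin n → ℝ) :
    ∀ᶠ N : ℕ in atTop, ∀ u ∈ Metric.ball (ctr κ N) (Real.sqrt N), 1 + ‖u‖ ≤ (N : ℝ) ^ 2 := by
  obtain ⟨M, hM⟩ := exists_nat_ge (2 * Real.pi * ‖κ‖ + 2)
  filter_upwards [eventually_ge_atTop (M + 1)] with N hN u hu
  have hN1 : (1 : ℝ) ≤ N := by
    have : 1 ≤ N := by omega
    exact_mod_cast this
  have hNM : (M : ℝ) ≤ N := by
    have : M ≤ N := by omega
    exact_mod_cast this
  have h1 : ‖ctr κ N‖ ≤ 2 * Real.pi * ‖κ‖ * N := by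
    rw [pi_norm_le_iff_of_nonneg (by positivity)]
    intro j
    unfold ctr
    rw [norm_mul, norm_mul, norm_mul, norm_mul, Complex.norm_I, Complex.norm_natCast,
      Complex.norm_real, Complex.norm_real, Complex.norm_ofNat]
    have h2 : ‖κ j‖ ≤ ‖κ‖ := norm_le_pi_norm κ j
    have h3 : ‖Real.pi‖ = Real.pi := Real.norm_of_nonneg Real.pi_pos.le
    rw [h3]
    have hpi := Real.pi_pos
    calc 2 * Real.pi * 1 * (N : ℝ) * ‖κ j‖ = (2 * Real.pi * N) * ‖κ j‖ := by ring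
      _ ≤ (2 * Real.pi * N) * ‖κ‖ := by gcongr
      _ = 2 * Real.pi * ‖κ‖ * N := by ring
  have h4 : ‖u‖ ≤ ‖ctr κ N‖ + Real.sqrt N := by
    have h5 : ‖u - ctr κ N‖ < Real.sqrt N := by
      rw [← dist_eq_norm]
      exact hu
    calc ‖u‖ = ‖(u - ctr κ N) + ctr κ N‖ := by rw [sub_add_cancel]
      _ ≤ ‖u - ctr κ N‖ + ‖ctr κ N‖ := norm_add_le _ _
      _ ≤ ‖ctr κ N‖ + Real.sqrt N := by linarith
  have h6 : Real.sqrt N ≤ N := by
    rw [Real.sqrt_le_left (by linarith)]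
    nlinarith
  have h7 : (2 * Real.pi * ‖κ‖ + 2) * N ≤ (N : ℝ) * N := by
    have : 2 * Real.pi * ‖κ‖ + 2 ≤ N := le_trans hM hNM
    gcongr
  nlinarith

theorem S1_half {n : ℕ} {κ : Fin n → ℝ} {N : ℕ} {u : Fin n → ℂ}
    (hu : u ∈ Metric.ball (ctr κ N) (Real.sqrt N)) : ‖u - ctr κ N‖ ≤ 2 * Real.sqrt N := by
  have h5 : ‖u - ctr κ N‖ < Real.sqrt N := by
    rw [← dist_eq_norm]
    exact hu
  have := Real.sqrt_nonneg (N : ℝ)
  linarith

theorem S1_coeff_bound {n : ℕ} (Q : R1 n) :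
    ∃ C : ℕ, ∀ (x : Fin n → ℂ) (i : ℕ), ‖eval x (Q.coeff i)‖ ≤ C * (1 + ‖x‖) ^ C := by
  choose C hC using fun i => eval_bound (Q.coeff i)
  refine ⟨∑ i ∈ Finset.range (Q.natDegree + 1), C i, fun x i => ?_⟩
  have hx : (1 : ℝ) ≤ 1 + ‖x‖ := by linarith [norm_nonneg x]
  by_cases hi : i ≤ Q.natDegree
  · have h1 : C i ≤ ∑ i ∈ Finset.range (Q.natDegree + 1), C i :=
      Finset.single_le_sum (f := C) (fun _ _ => Nat.zero_le _)
        (Finset.mem_range.2 (Nat.lt_succ_of_le hi))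
    refine (hC i x).trans ?_
    have h2 : (C i : ℝ) ≤ ((∑ i ∈ Finset.range (Q.natDegree + 1), C i : ℕ) : ℝ) := by
      exact_mod_cast h1
    exact mul_le_mul h2 (pow_le_pow_right₀ hx h1) (by positivity) (by positivity)
  · rw [Polynomial.coeff_eq_zero_of_natDegree_lt (not_le.1 hi), map_zero, norm_zero]
    positivity

theorem S1_bdd {n : ℕ} (P : MvPolynomial (Fin n) ℂ) (v : Fin n → ℂ)
    (κ : Fin n → ℝ)
    (hR : eval (XW.rc κ) (homogeneousComponent (XW.P4b_psi v P).leadingCoeff.totalDegree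
      (XW.P4b_psi v P).leadingCoeff) ≠ 0) :
    Bdd P v κ := by
  obtain ⟨c, hc, hreg⟩ := regular_ctr _ κ hR
  obtain ⟨C, hC⟩ := S1_coeff_bound (XW.P4b_psi v P)
  obtain ⟨M, hM⟩ := exists_nat_ge ((C : ℝ) / c + 1)
  refine ⟨2 * C + 1, ?_⟩
  filter_upwards [hreg, S1_ctr κ, eventually_ge_atTop (M + 1)] with N h1 h2 h3 u hu ω hω
  have hN1 : (1 : ℝ) ≤ N := by
    have : 1 ≤ N := by omega
    exact_mod_cast this
  have hNM : (M : ℝ) ≤ N := by
    have : M ≤ N := by omega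
    exact_mod_cast this
  have hlc : c ≤ ‖eval u (XW.P4b_psi v P).leadingCoeff‖ := h1 u (S1_half hu)
  have hlc0 : eval u (XW.P4b_psi v P).leadingCoeff ≠ 0 := by
    intro h
    rw [h, norm_zero] at hlc
    linarith
  have hroot : ((XW.P4b_psi v P).map (eval u)).eval ω = 0 := by
    rw [XW.P4b_psi_eval]
    exact hω
  have h4 := S1_root hroot hc (by
    rw [Polynomial.leadingCoeff_map_of_leadingCoeff_ne_zero _ hlc0]
    exact hlc) (B := C * ((N : ℝ) ^ 2) ^ C) (fun i => by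
      rw [Polynomial.coeff_map]
      refine (hC u i).trans ?_
      have := h2 u hu
      gcongr)
  refine h4.trans ?_
  have hpow : (1 : ℝ) ≤ ((N : ℝ) ^ 2) ^ C := one_le_pow₀ (one_le_pow₀ hN1)
  calc (C : ℝ) * ((N : ℝ) ^ 2) ^ C / c + 1 = (C / c) * ((N : ℝ) ^ 2) ^ C + 1 := by ring
    _ ≤ (C / c) * ((N : ℝ) ^ 2) ^ C + ((N : ℝ) ^ 2) ^ C := by linarith
    _ = (C / c + 1) * ((N : ℝ) ^ 2) ^ C := by ring
    _ ≤ N * ((N : ℝ) ^ 2) ^ C := by
        have : (C : ℝ) / c + 1 ≤ N := hM.trans hNM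
        gcongr
    _ = (N : ℝ) ^ (2 * C + 1) := by
        rw [← pow_mul]
        ring

theorem S1_psi_ne {n : ℕ} (P : MvPolynomial (Fin n) ℂ) (v : Fin n → ℂ)
    (hv : XW.dirD v P ≠ 0) : (XW.P4b_psi v P).leadingCoeff ≠ 0 := by
  have hdeg := XW.P4b_natDegree_pos v P hv
  have hne : XW.P4b_psi v P ≠ 0 := by
    intro h
    rw [h, Polynomial.natDegree_zero] at hdeg
    exact lt_irrefl _ hdeg
  exact Polynomial.leadingCoeff_ne_zero.mpr hne

theorem bdd_exists {n : ℕ} (P : MvPolynomial (Fin n) ℂ) (v : Fin n → ℂ)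
    (hv : XW.dirD v P ≠ 0) :
    ∃ R : MvPolynomial (Fin n) ℂ, R ≠ 0 ∧ ∀ κ : Fin n → ℝ, eval (XW.rc κ) R ≠ 0 →
      Bdd P v κ :=
  ⟨_, S1_top_ne (S1_psi_ne P v hv), fun κ hκ => S1_bdd P v κ hκ⟩

theorem gen_exists {n : ℕ} (P : MvPolynomial (Fin n) ℂ) (hP : Irreducible P) (v : Fin n → ℂ)
    (hv : XW.dirD v P ≠ 0) (G : MvPolynomial (Fin n) ℂ) (hG : ¬ P ∣ G) :
    ∃ R : MvPolynomial (Fin n) ℂ, R ≠ 0 ∧ ∀ κ : Fin n → ℝ, eval (XW.rc κ) R ≠ 0 →
      Gen P v κ G := by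
  obtain ⟨R', U, W, hR', hid⟩ := elim P G hP v hv hG
  obtain ⟨Rb, hRb, hb⟩ := bdd_exists P v hv
  refine ⟨homogeneousComponent R'.totalDegree R' * Rb, mul_ne_zero (S1_top_ne hR') hRb,
    fun κ hκ => ?_⟩
  rw [map_mul] at hκ
  obtain ⟨c, hc, hreg⟩ := regular_ctr R' κ (left_ne_zero_of_mul hκ)
  obtain ⟨Cb, hCb⟩ := hb κ (right_ne_zero_of_mul hκ)
  obtain ⟨Cw, hCw⟩ := h1_bound W
  obtain ⟨M, hM⟩ := exists_nat_ge ((Cw : ℝ) / c + 1)
  refine ⟨(Cb + 3) * Cw + 1, ?_⟩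
  filter_upwards [hreg, hCb, S1_ctr κ, eventually_ge_atTop (M + 2)] with N g1 h2 h3 h4 u hu ω hω
  have hN2 : (2 : ℝ) ≤ N := by
    have : 2 ≤ N := by omega
    exact_mod_cast this
  have hN1 : (1 : ℝ) ≤ N := by linarith
  have hNM : (M : ℝ) ≤ N := by
    have : M ≤ N := by omega
    exact_mod_cast this
  have h5 := g1 u (S1_half hu)
  have h6 := h2 u hu ω hω
  have h7 := h3 u hu
  have h8 : eval u R' = h1 u ω W * eval (u + ω • v) G := by
    rw [hid u ω, hω, mul_zero, zero_add]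
  rw [h8, norm_mul] at h5
  have h9 : ‖XV.h1 u ω W‖ ≤ Cw * (N : ℝ) ^ ((Cb + 3) * Cw) := by
    refine (hCw u ω).trans ?_
    have h10 : 1 + ‖u‖ + ‖ω‖ ≤ (N : ℝ) ^ (Cb + 3) := by
      have h11 : (N : ℝ) ^ 2 ≤ (N : ℝ) ^ (Cb + 2) := pow_le_pow_right₀ hN1 (by omega)
      have h12 : (N : ℝ) ^ Cb ≤ (N : ℝ) ^ (Cb + 2) := pow_le_pow_right₀ hN1 (by omega)
      calc 1 + ‖u‖ + ‖ω‖ ≤ (N : ℝ) ^ (Cb + 2) + (N : ℝ) ^ (Cb + 2) := by linarith
        _ = 2 * (N : ℝ) ^ (Cb + 2) := by ring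
        _ ≤ N * (N : ℝ) ^ (Cb + 2) := by gcongr
        _ = (N : ℝ) ^ (Cb + 3) := by ring
    rw [pow_mul]
    gcongr
  have h13 : c ≤ Cw * (N : ℝ) ^ ((Cb + 3) * Cw) * ‖eval (u + ω • v) G‖ :=
    h5.trans (by gcongr)
  have h14 : 1 ≤ ((Cw : ℝ) / c) * (N : ℝ) ^ ((Cb + 3) * Cw) * ‖eval (u + ω • v) G‖ := by
    have h15 : ((Cw : ℝ) / c) * (N : ℝ) ^ ((Cb + 3) * Cw) * ‖eval (u + ω • v) G‖ =
      (Cw * (N : ℝ) ^ ((Cb + 3) * Cw) * ‖eval (u + ω • v) G‖) / c := by ring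
    rw [h15, le_div_iff₀ hc]
    linarith
  refine h14.trans ?_
  have h16 : (Cw : ℝ) / c ≤ N := by
    have := hM.trans hNM
    linarith
  calc ((Cw : ℝ) / c) * (N : ℝ) ^ ((Cb + 3) * Cw) * ‖eval (u + ω • v) G‖ ≤
      N * (N : ℝ) ^ ((Cb + 3) * Cw) * ‖eval (u + ω • v) G‖ := by gcongr
    _ = ‖eval (u + ω • v) G‖ * (N : ℝ) ^ ((Cb + 3) * Cw + 1) := by ring

theorem S1_deriv {n : ℕ} (v : Fin n → ℂ) (F : MvPolynomial (Fin n) ℂ) :
    (XW.P4b_psi v F).derivative = XW.P4b_psi v (XW.dirD v F) := by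
  induction F using MvPolynomial.induction_on with
  | C a =>
    have h1 : XW.P4b_psi v (C a) = Polynomial.C (C a) := by
      unfold XW.P4b_psi
      rw [aeval_C]
      rfl
    have h2 : XW.dirD v (C a : MvPolynomial (Fin n) ℂ) = 0 := by
      unfold XW.dirD
      simp
    rw [h1, h2, map_zero, Polynomial.derivative_C]
  | add p q hp hq =>
    have h2 : XW.dirD v (p + q) = XW.dirD v p + XW.dirD v q := by
      unfold XW.dirD
      rw [← Finset.sum_add_distrib]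
      refine Finset.sum_congr rfl fun j _ => ?_
      rw [map_add, mul_add]
    rw [map_add, Polynomial.derivative_add, hp, hq, h2, map_add]
  | mul_X p j hp =>
    have h1 : XW.P4b_psi v (X j) = Polynomial.C (X j) + Polynomial.C (C (v j)) * Polynomial.X := by
      unfold XW.P4b_psi
      rw [aeval_X]
    have h2 : XW.dirD v (p * X j) = XW.dirD v p * X j + p * C (v j) := by
      unfold XW.dirD
      have h3 : ∀ i : Fin n, C (v i) * pderiv i (p * X j) =
          C (v i) * pderiv i p * X j + (if i = j then p * C (v j) else 0) := by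
        intro i
        rw [pderiv_mul, pderiv_X, mul_add]
        by_cases hij : i = j
        · subst hij
          rw [Pi.single_eq_same, if_pos rfl]
          ring
        · rw [if_neg hij, Pi.single_eq_of_ne (Ne.symm hij)]
          ring
      rw [Finset.sum_congr rfl (fun i _ => h3 i), Finset.sum_add_distrib, Finset.sum_mul,
        Finset.sum_ite_eq' Finset.univ j, if_pos (Finset.mem_univ j)]
    have h4 : XW.P4b_psi v (C (v j)) = Polynomial.C (C (v j)) := by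
      unfold XW.P4b_psi
      rw [aeval_C]
      rfl
    rw [map_mul, Polynomial.derivative_mul, hp, h2, map_add, map_mul, map_mul, h4, h1,
      Polynomial.derivative_add, Polynomial.derivative_C, Polynomial.derivative_C_mul,
      Polynomial.derivative_X, mul_one, zero_add]

theorem S1_not_dvd {n : ℕ} (P : MvPolynomial (Fin n) ℂ) (v : Fin n → ℂ)
    (hv : XW.dirD v P ≠ 0) : ¬ P ∣ XW.dirD v P := by
  intro hdvd
  have hdeg := XW.P4b_natDegree_pos v P hv
  have h1 : XW.P4b_psi v P ∣ (XW.P4b_psi v P).derivative := by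
    rw [S1_deriv]
    exact map_dvd _ hdvd
  have h2 : (XW.P4b_psi v P).derivative ≠ 0 := by
    intro h
    have h3 : (XW.P4b_psi v P).derivative.coeff 0 = 0 := by rw [h, Polynomial.coeff_zero]
    rw [Polynomial.coeff_derivative, (XW.P4b_psi_coeff v P).2] at h3
    apply hv
    simpa using h3
  have h4 := Polynomial.natDegree_le_of_dvd h1 h2
  have h5 := Polynomial.natDegree_derivative_lt (p := XW.P4b_psi v P) hdeg.ne'
  omega

theorem sheets_exist {n : ℕ} (P : MvPolynomial (Fin n) ℂ) (hP : Irreducible P) (v : Fin n → ℂ)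
    (hv : XW.dirD v P ≠ 0) :
    ∃ R : MvPolynomial (Fin n) ℂ, R ≠ 0 ∧ ∀ κ : Fin n → ℝ, eval (XW.rc κ) R ≠ 0 →
      Sheets P v κ := by
  obtain ⟨Rg, hRg, hg⟩ := gen_exists P hP v hv (XW.dirD v P) (S1_not_dvd P v hv)
  have hlcne := S1_psi_ne P v hv
  refine ⟨homogeneousComponent (XW.P4b_psi v P).leadingCoeff.totalDegree
      (XW.P4b_psi v P).leadingCoeff * Rg, mul_ne_zero (S1_top_ne hlcne) hRg, fun κ hκ => ?_⟩
  rw [map_mul] at hκ
  obtain ⟨c, hc, hreg⟩ := regular_ctr _ κ (left_ne_zero_of_mul hκ)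
  obtain ⟨C', hC'⟩ := hg κ (right_ne_zero_of_mul hκ)
  unfold Sheets
  filter_upwards [hreg, hC'] with N h1 h2 u₁ hu₁ ω₁ hω₁
  have hlc0 : ∀ u ∈ Metric.ball (ctr κ N) (Real.sqrt N),
      eval u (XW.P4b_psi v P).leadingCoeff ≠ 0 := by
    intro u hu h
    have hlc := h1 u (S1_half hu)
    rw [h, norm_zero] at hlc
    linarith
  have key := cov_branch (E := Fin n → ℂ) (U := Metric.ball (ctr κ N) (Real.sqrt N))
    Metric.isOpen_ball (convex_ball _ _)
    (fun u => Polynomial.C (eval u (XW.P4b_psi v P).leadingCoeff)⁻¹ *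
      ((XW.P4b_psi v P).map (eval u))) (XW.P4b_psi v P).natDegree
    (fun u hu => by
      have h3 := hlc0 u hu
      have h4 := Polynomial.leadingCoeff_map_of_leadingCoeff_ne_zero (eval u) h3
      have h5 := Polynomial.natDegree_map_of_leadingCoeff_ne_zero (eval u) h3
      constructor
      · unfold Polynomial.Monic
        rw [Polynomial.leadingCoeff_mul, Polynomial.leadingCoeff_C, h4, inv_mul_cancel₀ h3]
      · rw [Polynomial.natDegree_C_mul (inv_ne_zero h3), h5])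
    (fun i => by
      have h6 : DifferentiableOn ℂ (fun u : Fin n → ℂ =>
          (eval u (XW.P4b_psi v P).leadingCoeff)⁻¹ * eval u ((XW.P4b_psi v P).coeff i))
          (Metric.ball (ctr κ N) (Real.sqrt N)) := by
        refine DifferentiableOn.mul (DifferentiableOn.inv ?_ hlc0) ?_
        · exact diff_eval _ (fun u => u) (fun j => (differentiable_apply j).differentiableOn)
        · exact diff_eval _ (fun u => u) (fun j => (differentiable_apply j).differentiableOn)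
      refine h6.congr fun u _ => ?_
      show (Polynomial.C (eval u (XW.P4b_psi v P).leadingCoeff)⁻¹ *
        ((XW.P4b_psi v P).map (eval u))).coeff i = _
      rw [Polynomial.coeff_C_mul, Polynomial.coeff_map])
    (fun u hu θ hθ => by
      have h3 := hlc0 u hu
      rw [Polynomial.eval_mul, Polynomial.eval_C] at hθ
      have h7 : ((XW.P4b_psi v P).map (eval u)).eval θ = 0 :=
        (mul_eq_zero.1 hθ).resolve_left (inv_ne_zero h3)
      rw [XW.P4b_psi_eval] at h7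
      have h8 := h2 u hu θ h7
      rw [Polynomial.derivative_C_mul, Polynomial.eval_mul, Polynomial.eval_C,
        Polynomial.derivative_map, S1_deriv, XW.P4b_psi_eval]
      refine mul_ne_zero (inv_ne_zero h3) ?_
      intro h9
      rw [h9, norm_zero, zero_mul] at h8
      linarith)
    hu₁ (θ₀ := ω₁) (by
      rw [Polynomial.eval_mul, XW.P4b_psi_eval, hω₁, mul_zero])
  obtain ⟨θ, hθ1, hθ2, hθ3⟩ := key
  refine ⟨θ, hθ1, hθ2, fun u hu => ?_⟩
  have h10 := hθ3 u hu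
  rw [Polynomial.eval_mul, Polynomial.eval_C] at h10
  have h7 : ((XW.P4b_psi v P).map (eval u)).eval (θ u) = 0 :=
    (mul_eq_zero.1 h10).resolve_left (inv_ne_zero (hlc0 u hu))
  rw [XW.P4b_psi_eval] at h7
  exact h7

/-- `R(-x)` -/
theorem S1_neg {n : ℕ} (R : MvPolynomial (Fin n) ℂ) (hR : R ≠ 0) :
    ∃ R' : MvPolynomial (Fin n) ℂ, R' ≠ 0 ∧ ∀ κ : Fin n → ℝ,
      eval (XW.rc κ) R' = eval (XW.rc (-κ)) R := by
  have key : ∀ (Q : MvPolynomial (Fin n) ℂ) (x : Fin n → ℂ),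
      eval x (aeval (fun j => - X j : Fin n → MvPolynomial (Fin n) ℂ) Q) = eval (-x) Q := by
    intro Q x
    induction Q using MvPolynomial.induction_on with
    | C a => simp
    | add p q hp hq => rw [map_add, map_add, hp, hq, map_add]
    | mul_X p j hp => rw [map_mul, map_mul, hp, map_mul]; simp
  refine ⟨aeval (fun j => - X j : Fin n → MvPolynomial (Fin n) ℂ) R, ?_, fun κ => ?_⟩
  · intro h
    apply hR
    apply MvPolynomial.funext
    intro x
    have h1 := key R (-x)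
    rw [h, map_zero, neg_neg] at h1
    rw [← h1, map_zero]
  · rw [key]
    congr 1
    congr 1
    funext j
    simp [XW.rc]

theorem good_dir {n : ℕ} (P : MvPolynomial (Fin n) ℂ) (hP : Irreducible P) (v : Fin n → ℂ)
    (hv : XW.dirD v P ≠ 0) (𝒢 : Finset (MvPolynomial (Fin n) ℂ)) :
    ∃ R : MvPolynomial (Fin n) ℂ, R ≠ 0 ∧
      ∀ κ : Fin n → ℝ, eval (XW.rc κ) R ≠ 0 →
        GoodDir P v (𝒢 : Set (MvPolynomial (Fin n) ℂ)) κ := by
  classical
  obtain ⟨Rb, hRb, hb⟩ := bdd_exists P v hv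
  obtain ⟨Rs, hRs, hs⟩ := sheets_exist P hP v hv
  have hex : ∀ G : MvPolynomial (Fin n) ℂ, ∃ R : MvPolynomial (Fin n) ℂ, R ≠ 0 ∧
      (¬ P ∣ G → ∀ κ : Fin n → ℝ, eval (XW.rc κ) R ≠ 0 → Gen P v κ G) := by
    intro G
    by_cases h : P ∣ G
    · exact ⟨1, one_ne_zero, fun h' => absurd h h'⟩
    · obtain ⟨R, hR, hR'⟩ := gen_exists P hP v hv G h
      exact ⟨R, hR, fun _ => hR'⟩
  choose RG hRG hgG using hex
  have hR1 : Rb * Rs * ∏ G ∈ 𝒢, RG G ≠ 0 :=
    mul_ne_zero (mul_ne_zero hRb hRs) (Finset.prod_ne_zero_iff.2 fun G _ => hRG G)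
  obtain ⟨Rn, hRn, hn⟩ := S1_neg _ hR1
  refine ⟨(Rb * Rs * ∏ G ∈ 𝒢, RG G) * Rn, mul_ne_zero hR1 hRn, fun κ hκ => ?_⟩
  rw [map_mul, hn] at hκ
  have h1 := left_ne_zero_of_mul hκ
  have h2 := right_ne_zero_of_mul hκ
  have key : ∀ κ : Fin n → ℝ, eval (XW.rc κ) (Rb * Rs * ∏ G ∈ 𝒢, RG G) ≠ 0 →
      Bdd P v κ ∧ Sheets P v κ ∧ ∀ G ∈ 𝒢, ¬ P ∣ G → Gen P v κ G := by
    intro κ h
    rw [map_mul, map_mul, map_prod] at h
    refine ⟨hb κ (left_ne_zero_of_mul (left_ne_zero_of_mul h)),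
      hs κ (right_ne_zero_of_mul (left_ne_zero_of_mul h)), fun G hG hd => ?_⟩
    exact hgG G hd κ (Finset.prod_ne_zero_iff.1 (right_ne_zero_of_mul h) G hG)
  obtain ⟨a1, a2, a3⟩ := key κ h1
  obtain ⟨b1, b2, b3⟩ := key (-κ) h2
  exact ⟨⟨a1, b1⟩, ⟨a2, b2⟩, fun G hG hd =>
    ⟨a3 G (Finset.mem_coe.1 hG) hd, b3 G (Finset.mem_coe.1 hG) hd⟩⟩

end XV
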