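import Pool.Agent.Lib.MP_228259_lc.V.Z0
import Pool.Agent.Lib.MP_228259_lc.A.VD
import Pool.Agent.Lib.MP_228259_lc.A.AL
import Pool.Agent.Lib.MP_228259_lc.A.FR
import Pool.Agent.Lib.MP_228259_lc.A.ND

/-!
XV-W1 (frozen_hyper). Exponential closedness of varieties of dimension `n` over a hypersurface of
`ℂⁿ` whose top form is not degenerate with respect to the algebraic monomials.
-/

set_option autoImplicit false

namespace XV

open MvPolynomial XW

private theorem W1_dirD_mul {n : ℕ} (v : Fin n → ℂ) (f g : MvPolynomial (Fin n) ℂ) :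
    dirD v (f * g) = dirD v f * g + f * dirD v g := by
  unfold dirD
  rw [Finset.sum_mul, Finset.mul_sum, ← Finset.sum_add_distrib]
  refine Finset.sum_congr rfl fun j _ => ?_
  rw [pderiv_mul]
  ring

private theorem W1_dirD_C {n : ℕ} (v : Fin n → ℂ) (c : ℂ) :
    dirD v (C c : MvPolynomial (Fin n) ℂ) = 0 := by
  unfold dirD
  refine Finset.sum_eq_zero fun j _ => ?_
  rw [pderiv_C, mul_zero]

private theorem W1_factor {n : ℕ} {T : MvPolynomial (Fin n) ℂ} (v : Fin n → ℂ)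
    (h : dirD v T ≠ 0) :
    ∃ H : MvPolynomial (Fin n) ℂ, Irreducible H ∧ H ∣ T ∧ dirD v H ≠ 0 := by
  by_contra hc
  push Not at hc
  have hT : T ≠ 0 := by
    rintro rfl
    apply h
    have h0 := W1_dirD_C v 0
    rwa [C_0] at h0
  obtain ⟨f, hf, u, hu⟩ := WfDvdMonoid.exists_factors T hT
  have h1 : ∀ g : Multiset (MvPolynomial (Fin n) ℂ), (∀ b ∈ g, dirD v b = 0) →
      dirD v g.prod = 0 := by
    intro g
    induction g using Multiset.induction_on with
    | empty =>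
      intro _
      rw [Multiset.prod_zero, ← C_1]
      exact W1_dirD_C v 1
    | cons a g ih =>
      intro hg
      rw [Multiset.prod_cons, W1_dirD_mul, hg a (Multiset.mem_cons_self a g),
        ih fun b hb => hg b (Multiset.mem_cons_of_mem hb), zero_mul, mul_zero, add_zero]
  have h2 : dirD v f.prod = 0 := by
    refine h1 f fun b hb => hc b (hf b hb) ?_
    exact (Multiset.dvd_prod hb).trans (Dvd.intro _ hu)
  obtain ⟨c, _, hcu⟩ := isUnit_iff_eq_C_of_isReduced.1 u.isUnit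
  apply h
  rw [← hu, W1_dirD_mul, h2, hcu, W1_dirD_C, zero_mul, mul_zero, add_zero]

private theorem W1_dirD_add {n : ℕ} (p q : Fin n → ℚ) (H : MvPolynomial (Fin n) ℂ) :
    dirD (qc (p + q)) H = dirD (qc p) H + dirD (qc q) H := by
  unfold dirD qc
  rw [← Finset.sum_add_distrib]
  refine Finset.sum_congr rfl fun j _ => ?_
  rw [Pi.add_apply, Rat.cast_add, C_add, add_mul]

private theorem W1_dirD_smul {n : ℕ} (c : ℚ) (q : Fin n → ℚ) (H : MvPolynomial (Fin n) ℂ) :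
    dirD (qc (c • q)) H = C (c : ℂ) * dirD (qc q) H := by
  unfold dirD qc
  rw [Finset.mul_sum]
  refine Finset.sum_congr rfl fun j _ => ?_
  rw [Pi.smul_apply, smul_eq_mul, Rat.cast_mul, C_mul, mul_assoc]

private def W1_W {n : ℕ} (H : MvPolynomial (Fin n) ℂ) : Submodule ℚ (Fin n → ℚ) where
  carrier := {q | dirD (qc q) H = 0}
  add_mem' := by
    intro p q hp hq
    rw [Set.mem_ofPred_eq] at hp hq ⊢
    rw [W1_dirD_add, hp, hq, add_zero]
  zero_mem' := by
    rw [Set.mem_ofPred_eq]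
    have h := W1_dirD_smul 0 (0 : Fin n → ℚ) H
    rwa [smul_zero, Rat.cast_zero, C_0, zero_mul] at h
  smul_mem' := by
    intro c q hq
    rw [Set.mem_ofPred_eq] at hq ⊢
    rw [W1_dirD_smul, hq, mul_zero]

theorem nondeg_of_q {n : ℕ} (T : MvPolynomial (Fin n) ℂ) (q : Fin n → ℚ)
    (hq : dirD (qc q) T ≠ 0) :
    ∃ H : MvPolynomial (Fin n) ℂ, Irreducible H ∧ H ∣ T ∧
      ∃ a : Fin n → ℤ, (∀ q' : Fin n → ℚ, dirD (qc q') H = 0 → ∑ j, (a j : ℚ) * q' j = 0) ∧
        ∑ j, (a j : ℚ) * q j ≠ 0 := by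
  obtain ⟨H, hH, hd, hpd⟩ := W1_factor (qc q) hq
  refine ⟨H, hH, hd, ?_⟩
  have hi' : q ∉ W1_W H := fun h => hpd h
  obtain ⟨φ, hφ, hker⟩ := Submodule.exists_le_ker_of_notMem hi'
  have h2 : ∀ q' : Fin n → ℚ, φ q' = ∑ j, q' j * φ (Pi.single j 1) := by
    intro q'
    conv_lhs => rw [← Finset.univ_sum_single q']
    rw [map_sum]
    refine Finset.sum_congr rfl fun j _ => ?_
    have h3 : (Pi.single j (q' j) : Fin n → ℚ) = q' j • Pi.single j 1 := by
      rw [← Pi.single_smul, smul_eq_mul, mul_one]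
    rw [h3, map_smul, smul_eq_mul]
  have hq0 : (fun j => φ (Pi.single j 1)) ≠ 0 := by
    intro h
    apply hφ
    rw [h2]
    refine Finset.sum_eq_zero fun j _ => ?_
    rw [show φ (Pi.single j 1) = 0 from congrFun h j, mul_zero]
  obtain ⟨a, q₀, _, hq₀, ha, _⟩ := primitive_vec (fun j => φ (Pi.single j 1)) hq0
  have h3 : ∀ q' : Fin n → ℚ, ∑ j, (a j : ℚ) * q' j = q₀ * φ q' := by
    intro q'
    rw [h2, Finset.mul_sum]
    refine Finset.sum_congr rfl fun j _ => ?_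
    rw [ha j]
    ring
  refine ⟨a, ?_, ?_⟩
  · intro q' hq'
    have h1 : φ q' = 0 := hker hq'
    rw [h3, h1, mul_zero]
  · rw [h3]
    exact mul_ne_zero hq₀ hφ

theorem frozen_hyper (n : ℕ) (P : Ideal (MvPolynomial (Fin n ⊕ Fin n) ℂ))
    (V : Set (Fin n ⊕ Fin n → ℂ)) (hP : P.IsPrime)
    (hV : V = {p | (∀ f ∈ P, eval p f = 0) ∧ ∀ j : Fin n, p (Sum.inr j) ≠ 0})
    (hadd : ∀ m : Fin n → ℤ, m ≠ 0 → ∀ c : ℂ,
          ∃ p ∈ V, (∑ j : Fin n, (m j : ℂ) * p (Sum.inl j)) ≠ c)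
    (hmul : ∀ m : Fin n → ℤ, m ≠ 0 → ∀ c : ℂ,
          ∃ p ∈ V, (∏ j : Fin n, p (Sum.inr j) ^ (m j)) ≠ c)
    (hrot : ∀ k : ℕ, 1 ≤ k → k ≤ n → ∀ M : Matrix (Fin k) (Fin n) ℤ,
          ∃ J : Finset (Fin k ⊕ Fin k),
            (M.map (Int.cast : ℤ → ℚ)).rank ≤ J.card ∧
            ∀ f : MvPolynomial (Fin k ⊕ Fin k) ℂ, f.vars ⊆ J →
              (∀ p ∈ V, MvPolynomial.eval
                  (Sum.elim (fun i : Fin k => ∑ j : Fin n, (M i j : ℂ) * p (Sum.inl j))
                            (fun i : Fin k => ∏ j : Fin n, p (Sum.inr j) ^ (M i j))) f = 0) →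
              f = 0)
    (hdim : ∀ J : Finset (Fin n ⊕ Fin n), n < J.card →
      ∃ f : MvPolynomial (Fin n ⊕ Fin n) ℂ, f ≠ 0 ∧ f.vars ⊆ J ∧ ∀ p ∈ V, eval p f = 0)
    (hind : ∃ J : Finset (Fin n), n ≤ J.card + 1 ∧ ∀ f : MvPolynomial (Fin n) ℂ, f.vars ⊆ J →
      (∀ p ∈ V, eval (fun j => p (Sum.inl j)) f = 0) → f = 0)
    (g : MvPolynomial (Fin n) ℂ) (hg : Irreducible g)
    (hgV : ∀ p ∈ V, eval (fun j => p (Sum.inl j)) g = 0) (q : Fin n → ℚ)
    (hq : ∑ j, C (q j : ℂ) * pderiv j (homogeneousComponent g.totalDegree g) ≠ 0)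
    (hA : ∀ a : Fin n → ℤ, (∃ G : Polynomial (MvPolynomial (Fin n) ℂ),
        (∃ i, ∃ p ∈ V, eval (fun j => p (Sum.inl j)) (G.coeff i) ≠ 0) ∧
        ∀ p ∈ V, (G.map (eval (fun j => p (Sum.inl j)))).eval
          (∏ j, p (Sum.inr j) ^ (a j)) = 0) → ∑ j, (a j : ℚ) * q j = 0) :
    ∃ z : Fin n → ℂ, ∀ f ∈ P,
        MvPolynomial.eval (Sum.elim z (fun i : Fin n => Complex.exp (z i))) f = 0 := by
  rcases Nat.eq_zero_or_pos n with rfl | hn
  · exact absurd (by simp) hq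
  obtain ⟨F, _, _, x, y, hF, hR, hker⟩ := XA.frozen_fd n hn P V hP hV hadd hmul hrot hdim
    ⟨g, hg.ne_zero, hgV⟩ hind
  have hVP : ∀ f : MvPolynomial (Fin n ⊕ Fin n) ℂ, (∀ p ∈ V, eval p f = 0) → f ∈ P := by
    have hne : V.Nonempty := by
      obtain ⟨p, hp, -⟩ := hadd (Pi.single ⟨0, hn⟩ 1) (by
        intro h0
        have := congrFun h0 ⟨0, hn⟩
        simp at this) 0
      exact ⟨p, hp⟩
    refine fun f hf => XW.vanish_mem P hP (Set.range Sum.inr) V ?_ hne f hf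
    rw [hV]
    ext p
    simp
  obtain ⟨P₀, hP₀, hVD⟩ := XA.vdata hF
  have hinl : ∀ G : MvPolynomial (Fin n) ℂ, aeval x G = aeval (Sum.elim x y) (rename Sum.inl G) := by
    intro G
    rw [aeval_rename]
    rfl
  have hinle : ∀ (G : MvPolynomial (Fin n) ℂ) (p : Fin n ⊕ Fin n → ℂ),
      eval p (rename Sum.inl G) = eval (fun j => p (Sum.inl j)) G := by
    intro G p
    rw [eval_rename]
    rfl
  have hgP : P₀ ∣ g := by
    rw [← hP₀, hinl, hker]
    apply hVP
    intro p hp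
    rw [hinle]
    exact hgV p hp
  obtain ⟨w, hw⟩ := hgP
  have hwu : IsUnit w := (hg.isUnit_or_isUnit hw).resolve_left hVD.irr.not_isUnit
  obtain ⟨c, hc, hcw⟩ := isUnit_iff_eq_C_of_isReduced.1 hwu
  have hc0 : c ≠ 0 := hc.ne_zero
  have hgc : g = C c * P₀ := by rw [hw, hcw, mul_comm]
  have hdeg : g.totalDegree = P₀.totalDegree := by
    have hP0 : P₀ ≠ 0 := hVD.irr.ne_zero
    have hC0 : (C c : MvPolynomial (Fin n) ℂ) ≠ 0 := by
      rw [Ne, C_eq_zero]
      exact hc0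
    rw [hgc, totalDegree_mul_of_isDomain hC0 hP0, totalDegree_C, zero_add]
  have htop : homogeneousComponent g.totalDegree g =
      C c * homogeneousComponent P₀.totalDegree P₀ := by
    rw [hdeg]
    conv_lhs => rw [hgc]
    exact homogeneousComponent_C_mul _ _ _
  have hq2 : dirD (qc q) (homogeneousComponent P₀.totalDegree P₀) ≠ 0 := by
    intro h0
    apply hq
    have h1 : dirD (qc q) (homogeneousComponent g.totalDegree g) = 0 := by
      rw [htop, W1_dirD_mul, h0, W1_dirD_C, zero_mul, mul_zero, add_zero]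
    exact h1
  obtain ⟨H, hHi, hHd, a, ha1, ha2⟩ := nondeg_of_q _ q hq2
  have hnalg : ¬ Alg (XA.Loc x y) P₀ a := by
    rintro ⟨G, ⟨i, hi⟩, hG⟩
    apply ha2
    apply hA a
    refine ⟨G, ⟨i, ?_⟩, ?_⟩
    · by_contra hcon
      push Not at hcon
      apply hi
      rw [← hP₀, hinl, hker]
      apply hVP
      intro p hp
      rw [hinle]
      exact hcon p hp
    · intro p hp
      have hpL : ((fun j => p (Sum.inl j)), (fun j => p (Sum.inr j))) ∈ XA.Loc x y := by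
        have hp' := hp
        rw [hV] at hp'
        refine ⟨?_, hp'.2⟩
        intro f hf
        have h2 : (Sum.elim (fun j => p (Sum.inl j)) (fun j => p (Sum.inr j)) :
            Fin n ⊕ Fin n → ℂ) = p := by
          funext j
          rcases j with j | j <;> rfl
        show eval (Sum.elim (fun j => p (Sum.inl j)) (fun j => p (Sum.inr j))) f = 0
        rw [h2]
        exact hp'.1 f ((hker f).1 hf)
      have h3 := hG _ hpL
      rw [Polynomial.eval_map]
      exact h3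
  obtain ⟨z, hz⟩ := nondeg_main hVD H hHi hHd a ha1 hnalg
  exact ⟨z, fun f hf => hz.1 f ((hker f).2 hf)⟩

end XV
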