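import Pool.Agent.Lib.MP_228259_lc.V.Defs3
import Pool.Agent.Lib.MP_228259_lc.V.N1

/-!
XV-Y1 (tower_step, tower_count). Uniform finiteness of the sizes of the solutions of a tower.

`tower_step`. Let `f = s x^M`, `c_{jk}` the coefficient of `s^k x^j` in `R` (`j < M`, `k ≤ D`):
`0 = bev s x R = ∑ c_{jk} s^k x^j = ∑ c_{jk} f^k x^(j - M k)`, and the exponents `j - M k` of `x` are
different for different `(j,k)`, because `0 ≤ j < M`. The terms are not all zero, `two_largest` gives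
`(j,k) ≠ (j',k')` with `c_{jk}, c_{j'k'} ≠ 0` and the logarithms of the norms of the two terms differ by
at most `log card`, so with `e = j - M k ≠ e' = j' - M k'`
`log ‖x‖ = - (log ‖c_{jk}‖ - log ‖c_{j'k'}‖ + (k - k') log ‖f‖) / (e - e') + O(log card)`,
which is within `log card + D L` of the number obtained by replacing `log ‖f‖` by `log ‖f₀‖`. `T` = the
set of these numbers for all pairs, `T.card ≤ (M (D+1))^2`.

`tower_count`. Induction on `r`. `r = 0`: `fp M x = x 0` (`M 0 = 1`), `T = {log ‖f₀‖}`. Step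
(`Fin (r + 2)`, last index `i = Fin.last`): `fp M x = pp M x i * x i ^ M i` and `pp M x i = fp` of the
truncated tower (`Fin.castSucc`); `tower_step` gives `T₁`; for `τ ∈ T₁`,
`|log ‖pp M x i‖ - (log ‖f₀‖ - M i τ)| ≤ L + M i K₁`; apply the induction hypothesis with this `L` and
`f₀' = exp (log ‖f₀‖ - M i τ)` for each `τ ∈ T₁`; the cardinality is at most the product.
-/

set_option autoImplicit false

namespace XV

private theorem Y1_bev (s x : ℂ) (M D : ℕ) (R : Polynomial (Polynomial ℂ)) (h1 : R.natDegree < M)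
    (h2 : ∀ k, (R.coeff k).natDegree ≤ D) :
    bev s x R = ∑ p ∈ Finset.range M ×ˢ Finset.range (D + 1),
      (R.coeff p.1).coeff p.2 * s ^ p.2 * x ^ p.1 := by
  unfold bev
  rw [Polynomial.eval_eq_sum_range' (n := M)
    (lt_of_le_of_lt Polynomial.natDegree_map_le h1), Finset.sum_product]
  refine Finset.sum_congr rfl fun j _ => ?_
  rw [Polynomial.coeff_map, Polynomial.coe_evalRingHom,
    Polynomial.eval_eq_sum_range' (n := D + 1) (Nat.lt_succ_of_le (h2 j)), Finset.sum_mul]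

private theorem Y1_exp (M j k j' k' : ℕ) (hj : j < M) (hj' : j' < M)
    (hne : (j, k) ≠ (j', k')) : ((j : ℤ) - M * k) - ((j' : ℤ) - M * k') ≠ 0 := by
  intro h
  apply hne
  have hM : 0 < M := by omega
  have h1 : (j : ℤ) - j' = M * ((k : ℤ) - k') := by linarith
  have h2 : (j : ℤ) - j' = 0 := by
    refine Int.eq_zero_of_abs_lt_dvd (m := (M : ℤ)) ⟨_, h1⟩ ?_
    rw [abs_lt]
    constructor <;> omega
  have h3 : (k : ℤ) - k' = 0 := by
    rw [h2] at h1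
    rcases mul_eq_zero.1 h1.symm with h | h
    · omega
    · exact h
  ext <;> simp <;> omega

private theorem Y1_log (c s x : ℂ) (M j k : ℕ) (hc : c ≠ 0) (hs : s ≠ 0) (hx : x ≠ 0) :
    Real.log ‖c * s ^ k * x ^ j‖ = Real.log ‖c‖ + k * Real.log ‖s * x ^ M‖ +
      (((j : ℤ) - M * k : ℤ) : ℝ) * Real.log ‖x‖ := by
  have hc' : ‖c‖ ≠ 0 := norm_ne_zero_iff.2 hc
  have hs' : ‖s‖ ≠ 0 := norm_ne_zero_iff.2 hs
  have hx' : ‖x‖ ≠ 0 := norm_ne_zero_iff.2 hx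
  rw [norm_mul, norm_mul, norm_mul, norm_pow, norm_pow, norm_pow,
    Real.log_mul (mul_ne_zero hc' (pow_ne_zero _ hs')) (pow_ne_zero _ hx'),
    Real.log_mul hc' (pow_ne_zero _ hs'), Real.log_mul hs' (pow_ne_zero _ hx'), Real.log_pow,
    Real.log_pow, Real.log_pow]
  push_cast
  ring

private theorem Y1_div (E B lx P P' : ℝ) (e : ℤ) (he : e ≠ 0) (hB : 0 ≤ B)
    (hE : |E| ≤ B) (h : (e : ℝ) * lx = E - P + P') :
    |lx - (-(P - P') / e)| ≤ B := by
  have he1 : (1 : ℝ) ≤ |(e : ℝ)| := by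
    rw [← Int.cast_abs]
    exact_mod_cast Int.one_le_abs he
  have he0 : (e : ℝ) ≠ 0 := by exact_mod_cast he
  have h1 : lx - (-(P - P') / e) = E / e := by
    field_simp
    linarith
  rw [h1, abs_div, div_le_iff₀ (by linarith)]
  nlinarith [abs_nonneg E]

theorem tower_step (M D : ℕ) (L : ℝ) : ∃ (N₀ : ℕ) (K : ℝ), 0 < K ∧
    ∀ R : Polynomial (Polynomial ℂ), R ≠ 0 → R.natDegree < M →
      (∀ k, (R.coeff k).natDegree ≤ D) → ∀ f₀ : ℂ, f₀ ≠ 0 → ∃ T : Finset ℝ, T.card ≤ N₀ ∧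
        ∀ s x : ℂ, s ≠ 0 → x ≠ 0 → bev s x R = 0 →
          |Real.log ‖s * x ^ M‖ - Real.log ‖f₀‖| ≤ L → ∃ τ ∈ T, |Real.log ‖x‖ - τ| ≤ K := by
  classical
  obtain ⟨S, hS⟩ : ∃ S : Finset (ℕ × ℕ), S = Finset.range M ×ˢ Finset.range (D + 1) := ⟨_, rfl⟩
  refine ⟨S.card * S.card, |Real.log S.card| + D * |L| + 1, by positivity, ?_⟩
  intro R hR hRM hRD f₀ hf₀
  refine ⟨(S ×ˢ S).image (fun q => -((Real.log ‖(R.coeff q.1.1).coeff q.1.2‖ +
      q.1.2 * Real.log ‖f₀‖) - (Real.log ‖(R.coeff q.2.1).coeff q.2.2‖ +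
      q.2.2 * Real.log ‖f₀‖)) / (((((q.1.1 : ℤ) - M * q.1.2) - ((q.2.1 : ℤ) - M * q.2.2) : ℤ)) : ℝ)),
    ?_, ?_⟩
  · refine Finset.card_image_le.trans ?_
    rw [Finset.card_product]
  intro s x hs hx hb hL
  rw [Y1_bev s x M D R hRM hRD, ← hS] at hb
  have hne : ∃ p ∈ S, (R.coeff p.1).coeff p.2 * s ^ p.2 * x ^ p.1 ≠ 0 := by
    obtain ⟨j, hj⟩ : ∃ j, R.coeff j ≠ 0 := by
      by_contra hcon
      push Not at hcon
      exact hR (Polynomial.ext hcon)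
    obtain ⟨k, hk⟩ : ∃ k, (R.coeff j).coeff k ≠ 0 := by
      by_contra hcon
      push Not at hcon
      exact hj (Polynomial.ext hcon)
    refine ⟨(j, k), ?_, mul_ne_zero (mul_ne_zero hk (pow_ne_zero _ hs)) (pow_ne_zero _ hx)⟩
    rw [hS, Finset.mem_product, Finset.mem_range, Finset.mem_range]
    exact ⟨lt_of_le_of_lt (Polynomial.le_natDegree_of_ne_zero hj) hRM,
      Nat.lt_succ_of_le ((Polynomial.le_natDegree_of_ne_zero hk).trans (hRD j))⟩
  obtain ⟨p, hp, p', hp', hpp, hm, hm', h1, h2, -⟩ := two_largest S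
    (fun p => (R.coeff p.1).coeff p.2 * s ^ p.2 * x ^ p.1) hb hne
  have hc : (R.coeff p.1).coeff p.2 ≠ 0 := left_ne_zero_of_mul (left_ne_zero_of_mul hm)
  have hc' : (R.coeff p'.1).coeff p'.2 ≠ 0 := left_ne_zero_of_mul (left_ne_zero_of_mul hm')
  have hpS := hp
  have hpS' := hp'
  rw [hS, Finset.mem_product, Finset.mem_range, Finset.mem_range] at hpS hpS'
  refine ⟨_, Finset.mem_image_of_mem _ (Finset.mem_product.2 ⟨hp, hp'⟩ :
    (p, p') ∈ S ×ˢ S), ?_⟩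
  have hN : 0 < ‖(R.coeff p.1).coeff p.2 * s ^ p.2 * x ^ p.1‖ := norm_pos_iff.2 hm
  have hN' : 0 < ‖(R.coeff p'.1).coeff p'.2 * s ^ p'.2 * x ^ p'.1‖ := norm_pos_iff.2 hm'
  have hcard : (0 : ℝ) < S.card := by exact_mod_cast Finset.card_pos.2 ⟨p, hp⟩
  have g1 : Real.log ‖(R.coeff p.1).coeff p.2 * s ^ p.2 * x ^ p.1‖ ≤
      Real.log S.card + Real.log ‖(R.coeff p'.1).coeff p'.2 * s ^ p'.2 * x ^ p'.1‖ := by
    rw [← Real.log_mul hcard.ne' hN'.ne']
    exact Real.log_le_log hN h1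
  have g2 : Real.log ‖(R.coeff p'.1).coeff p'.2 * s ^ p'.2 * x ^ p'.1‖ ≤
      Real.log ‖(R.coeff p.1).coeff p.2 * s ^ p.2 * x ^ p.1‖ := Real.log_le_log hN' h2
  rw [Y1_log _ s x M p.1 p.2 hc hs hx, Y1_log _ s x M p'.1 p'.2 hc' hs hx] at g1 g2
  have hne' : ((p.1 : ℤ) - M * p.2) - ((p'.1 : ℤ) - M * p'.2) ≠ 0 :=
    Y1_exp M p.1 p.2 p'.1 p'.2 hpS.1 hpS'.1 hpp
  obtain ⟨E, hE⟩ : ∃ E : ℝ, E = (Real.log ‖(R.coeff p.1).coeff p.2‖ +
      p.2 * Real.log ‖s * x ^ M‖ + (((p.1 : ℤ) - M * p.2 : ℤ) : ℝ) * Real.log ‖x‖) -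
      (Real.log ‖(R.coeff p'.1).coeff p'.2‖ +
      p'.2 * Real.log ‖s * x ^ M‖ + (((p'.1 : ℤ) - M * p'.2 : ℤ) : ℝ) * Real.log ‖x‖) -
      ((p.2 : ℝ) - p'.2) * (Real.log ‖s * x ^ M‖ - Real.log ‖f₀‖) := ⟨_, rfl⟩
  have hk : |(p.2 : ℝ) - p'.2| ≤ D := by
    have h3 : (p.2 : ℝ) ≤ D := by exact_mod_cast Nat.le_of_lt_succ hpS.2
    have h4 : (p'.2 : ℝ) ≤ D := by exact_mod_cast Nat.le_of_lt_succ hpS'.2
    have h5 : (0 : ℝ) ≤ p.2 := Nat.cast_nonneg _
    have h6 : (0 : ℝ) ≤ p'.2 := Nat.cast_nonneg _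
    rw [abs_le]
    constructor <;> linarith
  have hEB : |E| ≤ |Real.log S.card| + D * |L| + 1 := by
    have h3 : |((p.2 : ℝ) - p'.2) * (Real.log ‖s * x ^ M‖ - Real.log ‖f₀‖)| ≤ D * |L| := by
      rw [abs_mul]
      exact mul_le_mul hk (hL.trans (le_abs_self L)) (abs_nonneg _) (Nat.cast_nonneg _)
    have h4 := le_abs_self (Real.log (S.card : ℝ))
    have h5 := abs_nonneg (Real.log (S.card : ℝ))
    rw [abs_le] at h3
    rw [hE, abs_le]
    constructor <;> linarith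
  refine Y1_div E _ _ _ _ _ hne' (by positivity) hEB ?_
  rw [hE]
  push_cast
  ring

private theorem Y1_pp {r : ℕ} (M : Fin (r + 1) → ℕ) (x : Fin (r + 1) → ℂ) (i : Fin r) :
    pp M x i.castSucc = pp (fun j => M j.castSucc) (fun j => x j.castSucc) i := by
  unfold pp
  rw [Finset.prod_filter, Finset.prod_filter, Fin.prod_univ_castSucc]
  have h : ¬ Fin.last r < i.castSucc := not_lt.2 (Fin.le_last _)
  rw [if_neg h, mul_one]
  refine Finset.prod_congr rfl fun j _ => ?_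
  simp only [Fin.castSucc_lt_castSucc_iff]

private theorem Y1_last {r : ℕ} (M : Fin (r + 1) → ℕ) (x : Fin (r + 1) → ℂ) :
    pp M x (Fin.last r) = fp (fun j => M j.castSucc) (fun j => x j.castSucc) := by
  unfold pp fp
  rw [Finset.prod_filter, Fin.prod_univ_castSucc, if_neg (lt_irrefl _), mul_one]
  refine Finset.prod_congr rfl fun j _ => ?_
  rw [if_pos (Fin.castSucc_lt_last j)]

theorem tower_count {r : ℕ} (M : Fin (r + 1) → ℕ) (hM : M 0 = 1) (D : ℕ) (L : ℝ) :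
    ∃ (N₀ : ℕ) (K : ℝ), 0 < K ∧
      ∀ R : Fin (r + 1) → Polynomial (Polynomial ℂ), TDeg M D R → ∀ f₀ : ℂ, f₀ ≠ 0 →
        ∃ T : Finset (Fin (r + 1) → ℝ), T.card ≤ N₀ ∧ ∀ x : Fin (r + 1) → ℂ, Tow M R x →
          |Real.log ‖fp M x‖ - Real.log ‖f₀‖| ≤ L → ∃ τ ∈ T, ∀ i, |Real.log ‖x i‖ - τ i| ≤ K := by
  classical
  induction r generalizing L with
  | zero =>
    refine ⟨1, |L| + 1, by positivity, fun R _ f₀ _ => ⟨{fun _ => Real.log ‖f₀‖}, by simp, ?_⟩⟩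
    intro x _ hL
    refine ⟨_, Finset.mem_singleton_self _, fun i => ?_⟩
    have h : fp M x = x 0 := by
      unfold fp
      rw [Fin.prod_univ_one, hM, pow_one]
    rw [h] at hL
    have hi : i = 0 := Subsingleton.elim (α := Fin 1) i 0
    rw [hi]
    linarith [le_abs_self L]
  | succ r ih =>
    obtain ⟨N₁, K₁, hK₁, h1⟩ := tower_step (M (Fin.last (r + 1))) D L
    obtain ⟨N₂, K₂, hK₂, h2⟩ := ih (fun i => M i.castSucc) (by simpa using hM)
      (L + M (Fin.last (r + 1)) * K₁)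
    refine ⟨N₁ * N₂, K₁ + K₂, by positivity, ?_⟩
    intro R hR f₀ hf₀
    obtain ⟨hl1, hl2, hl3⟩ := hR (Fin.last (r + 1)) (by simp)
    obtain ⟨T₁, hT₁, h3⟩ := h1 (R (Fin.last (r + 1))) hl1 hl2 hl3 f₀ hf₀
    have hR' : TDeg (fun i => M (Fin.castSucc i)) D (fun i : Fin (r + 1) => R i.castSucc) := by
      intro i hi
      exact hR i.castSucc (by simpa using hi)
    obtain ⟨g, hg⟩ : ∃ g : ℝ → ℂ, g = fun τ =>
        ((Real.exp (Real.log ‖f₀‖ - M (Fin.last (r + 1)) * τ) : ℝ) : ℂ) := ⟨_, rfl⟩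
    have hg0 : ∀ τ, g τ ≠ 0 := by
      intro τ
      rw [hg]
      exact Complex.ofReal_ne_zero.2 (Real.exp_pos _).ne'
    have hgl : ∀ τ, Real.log ‖g τ‖ = Real.log ‖f₀‖ - M (Fin.last (r + 1)) * τ := by
      intro τ
      rw [hg]
      simp only
      rw [Complex.norm_real, Real.norm_eq_abs, abs_of_pos (Real.exp_pos _), Real.log_exp]
    choose T₂ hT₂ h4 using fun τ : ℝ => h2 (fun i => R i.castSucc) hR' (g τ) (hg0 τ)
    refine ⟨T₁.biUnion (fun τ => (T₂ τ).image (fun σ => (Fin.snoc σ τ : Fin (r + 2) → ℝ))),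
      ?_, ?_⟩
    · refine Finset.card_biUnion_le.trans ?_
      calc ∑ τ ∈ T₁, ((T₂ τ).image (fun σ => (Fin.snoc σ τ : Fin (r + 2) → ℝ))).card
          ≤ ∑ _τ ∈ T₁, N₂ := Finset.sum_le_sum fun τ _ => Finset.card_image_le.trans (hT₂ τ)
        _ = T₁.card * N₂ := by rw [Finset.sum_const, smul_eq_mul]
        _ ≤ N₁ * N₂ := Nat.mul_le_mul_right _ hT₁
    intro x hx hL
    obtain ⟨hx0, hxr⟩ := hx
    have hfp : fp M x = pp M x (Fin.last (r + 1)) *
        x (Fin.last (r + 1)) ^ M (Fin.last (r + 1)) := by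
      rw [Y1_last]
      unfold fp
      rw [Fin.prod_univ_castSucc]
    have hs0 : pp M x (Fin.last (r + 1)) ≠ 0 :=
      Finset.prod_ne_zero_iff.2 fun j _ => pow_ne_zero _ (hx0 j)
    obtain ⟨τ, hτ, h5⟩ := h3 (pp M x (Fin.last (r + 1))) (x (Fin.last (r + 1))) hs0 (hx0 _)
      (hxr _ (by simp)) (by rw [← hfp]; exact hL)
    have hTow : Tow (fun i => M (Fin.castSucc i)) (fun i : Fin (r + 1) => R i.castSucc)
        (fun i => x i.castSucc) := by
      refine ⟨fun i => hx0 _, fun i hi => ?_⟩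
      have h6 := hxr i.castSucc (by simpa using hi)
      rw [Y1_pp] at h6
      exact h6
    have h7 : |Real.log ‖fp (fun i => M (Fin.castSucc i)) (fun i => x i.castSucc)‖ -
        Real.log ‖g τ‖| ≤ L + M (Fin.last (r + 1)) * K₁ := by
      rw [← Y1_last, hgl]
      rw [hfp, norm_mul, Real.log_mul (norm_ne_zero_iff.2 hs0)
        (norm_ne_zero_iff.2 (pow_ne_zero _ (hx0 _))), norm_pow, Real.log_pow] at hL
      have h8 : (0 : ℝ) ≤ M (Fin.last (r + 1)) := Nat.cast_nonneg _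
      have h9 : |(M (Fin.last (r + 1)) : ℝ) * (Real.log ‖x (Fin.last (r + 1))‖ - τ)| ≤
          M (Fin.last (r + 1)) * K₁ := by
        rw [abs_mul, abs_of_nonneg h8]
        exact mul_le_mul_of_nonneg_left h5 h8
      rw [abs_le] at hL h9 ⊢
      constructor <;> linarith [hL.1, hL.2, h9.1, h9.2]
    obtain ⟨σ, hσ, h10⟩ := h4 τ (fun i => x i.castSucc) hTow h7
    refine ⟨Fin.snoc σ τ, Finset.mem_biUnion.2 ⟨τ, hτ, Finset.mem_image_of_mem _ hσ⟩, ?_⟩
    intro i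
    refine Fin.lastCases ?_ (fun j => ?_) i
    · rw [Fin.snoc_last]
      linarith
    · rw [Fin.snoc_castSucc]
      linarith [h10 j]

end XV
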