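import Pool.Agent.Lib.MP_228259_lc.V.Defs3
import Pool.Agent.Lib.MP_228259_lc.V.F1
import Pool.Agent.Lib.MP_228259_lc.V.F10
import Pool.Agent.Lib.MP_228259_lc.P4a

/-!
XV-Y10a (alg_cont). Analytic continuation of an algebraic function along convex sets which avoid a
finite set.

Proof. Among the nonzero `G' ∈ ℂ[S][X]` with `bev s (ξ s) G' = 0` on the ball choose one of minimal
degree in `X` (`Nat.find`; `G` is one); then it suffices to continue a root of `G'` (`G'` divides `G`
over `ℂ(S)`: `c(S) G = G' H`, pseudo-division, and by minimality; or simpler: continue `ξ` as a root of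
`G'`; on `U` the function `s ↦ bev s (ξ' s) G` is holomorphic and vanishes near `z'`, so it vanishes on
the preconnected `U`). `natDegree G' > 0`, because a nonzero element of `ℂ[S]` has finitely many
zeros. `G'` and its `X`-derivative (nonzero, smaller degree) are coprime over `ℂ(S)`: otherwise a common
factor or cofactor of smaller degree would give a relation of smaller degree (`ξ` is analytic, the ring
of germs is a domain); so (resultant, or `P4a_abstract`-type Bezout over `ℂ(S)` with denominators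
cleared) `a G' + b G'_X = ρ(S) ≠ 0`. `F` = zeros of `ρ` and of the leading coefficient of `G'`. Over `U`
convex, open, disjoint from `F`, the family `χ_s = (leading coefficient at s)⁻¹ • G'(s, X)` is monic with
holomorphic coefficients and simple roots: `cov_branch` gives `ξ'` with `ξ' z' = ξ z'`; `branch_unique`
on a small ball about `z'` gives `ξ' = ξ` near `z'`.

(Here: instead of a relation of minimal degree a prime factor of `G` which vanishes along `ξ`.)
-/

set_option autoImplicit false

namespace XV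

open Filter Topology

private theorem Y10a_mul (s x : ℂ) (g h : Polynomial (Polynomial ℂ)) :
    bev s x (g * h) = bev s x g * bev s x h := by
  unfold bev; rw [Polynomial.map_mul, Polynomial.eval_mul]

private theorem Y10a_C (s x : ℂ) (c : Polynomial ℂ) : bev s x (Polynomial.C c) = c.eval s := by
  unfold bev; rw [Polynomial.map_C, Polynomial.eval_C]; rfl

private theorem Y10a_sum (s x : ℂ) (g : Polynomial (Polynomial ℂ)) :
    bev s x g = ∑ i ∈ Finset.range (g.natDegree + 1), (g.coeff i).eval s * x ^ i := by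
  unfold bev
  rw [Polynomial.eval_eq_sum_range' (n := g.natDegree + 1)
    (lt_of_le_of_lt Polynomial.natDegree_map_le (Nat.lt_succ_self _))]
  refine Finset.sum_congr rfl fun i _ => ?_
  rw [Polynomial.coeff_map]; rfl

private theorem Y10a_diff (g : Polynomial (Polynomial ℂ)) {V : Set ℂ} {ξ : ℂ → ℂ}
    (hξ : DifferentiableOn ℂ ξ V) : DifferentiableOn ℂ (fun s => bev s (ξ s) g) V := by
  have h1 : (fun s => bev s (ξ s) g) =
      fun s => ∑ i ∈ Finset.range (g.natDegree + 1), (g.coeff i).eval s * ξ s ^ i := by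
    funext s; exact Y10a_sum s (ξ s) g
  rw [h1]
  refine DifferentiableOn.fun_sum fun i _ => ?_
  exact ((g.coeff i).differentiable.differentiableOn).mul (hξ.pow i)

/-- a prime factor which vanishes along `ξ` -/
private theorem Y10a_prime (G : Polynomial (Polynomial ℂ)) (hG : G ≠ 0) {z : ℂ} {δ : ℝ}
    (hδ : 0 < δ) (ξ : ℂ → ℂ) (hξ : DifferentiableOn ℂ ξ (Metric.ball z δ))
    (hrel : ∀ s ∈ Metric.ball z δ, bev s (ξ s) G = 0) :
    ∃ g : Polynomial (Polynomial ℂ), Prime g ∧ g ∣ G ∧
      ∀ s ∈ Metric.ball z δ, bev s (ξ s) g = 0 := by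
  induction G using UniqueFactorizationMonoid.induction_on_prime with
  | h₁ => exact absurd rfl hG
  | h₂ u hu =>
    exfalso
    obtain ⟨v, hv⟩ := hu.exists_right_inv
    have h1 := Y10a_mul z (ξ z) u v
    rw [hv, hrel z (Metric.mem_ball_self hδ), zero_mul] at h1
    unfold bev at h1
    simp at h1
  | h₃ a p ha hp ih =>
    have hopen : IsOpen (Metric.ball z δ) := Metric.isOpen_ball
    have hf := (Y10a_diff a hξ).analyticOnNhd hopen
    have hg := (Y10a_diff p hξ).analyticOnNhd hopen
    have hpre : IsPreconnected (Metric.ball z δ) := (convex_ball z δ).isPreconnected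
    have h1 := hg.eq_zero_or_eq_zero_of_mul_eq_zero hf (fun s hs => by
      have := hrel s hs
      rw [Y10a_mul] at this
      exact this) hpre
    rcases h1 with h1 | h1
    · exact ⟨p, hp, dvd_mul_right p a, h1⟩
    · obtain ⟨g, h2, h3, h4⟩ := ih ha h1
      exact ⟨g, h2, h3.mul_left p, h4⟩

theorem alg_cont (G : Polynomial (Polynomial ℂ)) (hG : G ≠ 0) {z : ℂ} {δ : ℝ} (hδ : 0 < δ)
    (ξ : ℂ → ℂ) (hξ : DifferentiableOn ℂ ξ (Metric.ball z δ))
    (hrel : ∀ s ∈ Metric.ball z δ, bev s (ξ s) G = 0) :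
    ∃ F : Set ℂ, F.Finite ∧ ∀ z' ∈ Metric.ball z δ, ∀ U : Set ℂ, IsOpen U → Convex ℝ U →
      Disjoint U F → z' ∈ U → ∃ ξ' : ℂ → ℂ, DifferentiableOn ℂ ξ' U ∧
        (∀ᶠ s in 𝓝 z', ξ' s = ξ s) ∧ ∀ s ∈ U, bev s (ξ' s) G = 0 := by
  classical
  obtain ⟨g, hgp, hgG, hg0⟩ := Y10a_prime G hG hδ ξ hξ hrel
  have hgne : g ≠ 0 := hgp.ne_zero
  have hdeg : g.natDegree ≠ 0 := by
    intro h
    obtain ⟨c, hc⟩ := Polynomial.natDegree_eq_zero.1 h
    have hc0 : c ≠ 0 := by
      rintro rfl
      apply hgne
      rw [← hc, map_zero]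
    have hfin : {s : ℂ | c.IsRoot s}.Finite := Polynomial.finite_setOfPred_isRoot hc0
    have hsub : Metric.ball z δ ⊆ {s : ℂ | c.IsRoot s} := by
      intro s hs
      have := hg0 s hs
      rw [← hc, Y10a_C] at this
      exact this
    exact (infinite_of_mem_nhds z (Metric.ball_mem_nhds z hδ)) (hfin.subset hsub)
  have hder0 : g.derivative ≠ 0 := by
    intro h
    exact hdeg (Polynomial.derivative_eq_zero.1 h)
  have hnd : ¬ g ∣ g.derivative := by
    intro h
    have h1 := Polynomial.natDegree_le_of_dvd h hder0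
    have h2 := Polynomial.natDegree_derivative_lt hdeg
    omega
  let _ : NormalizedGCDMonoid (Polynomial ℂ) :=
    UniqueFactorizationMonoid.toNormalizedGCDMonoid (Polynomial ℂ)
  obtain ⟨R, a, b, hR, hab⟩ := XW.P4a_abstract (K := FractionRing (Polynomial ℂ)) g g.derivative
    hgp hdeg hnd
  have hlc : g.leadingCoeff ≠ 0 := Polynomial.leadingCoeff_ne_zero.2 hgne
  refine ⟨{s : ℂ | R.IsRoot s} ∪ {s : ℂ | g.leadingCoeff.IsRoot s},
    (Polynomial.finite_setOfPred_isRoot hR).union (Polynomial.finite_setOfPred_isRoot hlc), ?_⟩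
  intro z' hz' U hU hUc hUF hz'U
  have hRU : ∀ s ∈ U, R.eval s ≠ 0 := by
    intro s hs h
    exact Set.disjoint_left.1 hUF hs (Or.inl h)
  have hLU : ∀ s ∈ U, g.leadingCoeff.eval s ≠ 0 := by
    intro s hs h
    exact Set.disjoint_left.1 hUF hs (Or.inr h)
  set χ : ℂ → Polynomial ℂ := fun s =>
    Polynomial.C (g.leadingCoeff.eval s)⁻¹ * g.map (Polynomial.evalRingHom s) with hχ
  have hcoeff : ∀ (s : ℂ) (i : ℕ), (χ s).coeff i =
      (g.leadingCoeff.eval s)⁻¹ * (g.coeff i).eval s := by
    intro s i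
    rw [hχ]
    simp only [Polynomial.coeff_C_mul, Polynomial.coeff_map, Polynomial.coe_evalRingHom]
  have heval : ∀ s ∈ U, ∀ θ : ℂ, (χ s).eval θ = (g.leadingCoeff.eval s)⁻¹ * bev s θ g := by
    intro s _ θ
    rw [hχ]
    simp only [Polynomial.eval_mul, Polynomial.eval_C]
    rfl
  have hroot : ∀ s ∈ U, ∀ θ : ℂ, (χ s).eval θ = 0 ↔ bev s θ g = 0 := by
    intro s hs θ
    rw [heval s hs θ, mul_eq_zero]
    constructor
    · rintro (h | h)
      · exact absurd (inv_eq_zero.1 h) (hLU s hs)
      · exact h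
    · exact Or.inr
  have hmdeg : ∀ s ∈ U, (χ s).Monic ∧ (χ s).natDegree = g.natDegree := by
    intro s hs
    have h1 : (χ s).coeff g.natDegree = 1 := by
      rw [hcoeff]
      exact inv_mul_cancel₀ (hLU s hs)
    have h2 : (χ s).natDegree ≤ g.natDegree := by
      rw [Polynomial.natDegree_le_iff_coeff_eq_zero]
      intro i hi
      rw [hcoeff, Polynomial.coeff_eq_zero_of_natDegree_lt hi, Polynomial.eval_zero, mul_zero]
    have h3 : g.natDegree ≤ (χ s).natDegree :=
      Polynomial.le_natDegree_of_ne_zero (by rw [h1]; exact one_ne_zero)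
    have h4 : (χ s).natDegree = g.natDegree := le_antisymm h2 h3
    refine ⟨?_, h4⟩
    rw [Polynomial.Monic, Polynomial.leadingCoeff, h4, h1]
  have hdiff : ∀ i, DifferentiableOn ℂ (fun s => (χ s).coeff i) U := by
    intro i
    have h1 : (fun s => (χ s).coeff i) = fun s => (g.leadingCoeff.eval s)⁻¹ * (g.coeff i).eval s := by
      funext s; exact hcoeff s i
    rw [h1]
    exact (g.leadingCoeff.differentiable.differentiableOn.inv hLU).mul
      (g.coeff i).differentiable.differentiableOn
  have hsimple : ∀ s ∈ U, ∀ θ : ℂ, (χ s).eval θ = 0 → (χ s).derivative.eval θ ≠ 0 := by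
    intro s hs θ hθ
    have h1 : bev s θ g = 0 := (hroot s hs θ).1 hθ
    have h2 : bev s θ a * bev s θ g + bev s θ b * bev s θ g.derivative = R.eval s := by
      have h3 := congrArg (bev s θ) hab
      rw [Y10a_C] at h3
      rw [← h3]
      unfold bev
      rw [Polynomial.map_add, Polynomial.eval_add, Polynomial.map_mul, Polynomial.map_mul,
        Polynomial.eval_mul, Polynomial.eval_mul]
    rw [h1, mul_zero, zero_add] at h2
    have h4 : (χ s).derivative.eval θ = (g.leadingCoeff.eval s)⁻¹ * bev s θ g.derivative := by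
      rw [hχ]
      simp only [Polynomial.derivative_mul, Polynomial.derivative_C, zero_mul, zero_add,
        Polynomial.eval_mul, Polynomial.eval_C, Polynomial.derivative_map]
      rfl
    rw [h4]
    refine mul_ne_zero (inv_ne_zero (hLU s hs)) ?_
    intro h5
    rw [h5, mul_zero] at h2
    exact hRU s hs h2.symm
  obtain ⟨ξ', h1, h2, h3⟩ := cov_branch hU hUc χ g.natDegree hmdeg hdiff hsimple hz'U
    (θ₀ := ξ z') ((hroot z' hz'U (ξ z')).2 (hg0 z' hz'))
  refine ⟨ξ', h1, ?_, ?_⟩
  · obtain ⟨ε, hε, hε'⟩ := Metric.isOpen_iff.1 (hU.inter Metric.isOpen_ball) z' ⟨hz'U, hz'⟩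
    have hW : ∀ s ∈ Metric.ball z' ε, ξ' s = ξ s := by
      refine branch_unique (convex_ball z' ε).isPreconnected χ g.natDegree
        (fun u hu => (hmdeg u (hε' hu).1).2.le)
        (fun i => ((hdiff i).mono (fun u hu => (hε' hu).1)).continuousOn)
        (fun u hu => hsimple u (hε' hu).1) ξ' ξ
        (h1.mono (fun u hu => (hε' hu).1)).continuousOn
        (hξ.mono (fun u hu => (hε' hu).2)).continuousOn
        (fun u hu => h3 u (hε' hu).1)
        (fun u hu => (hroot u (hε' hu).1 _).2 (hg0 u (hε' hu).2))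
        (Metric.mem_ball_self hε) h2
    filter_upwards [Metric.ball_mem_nhds z' hε] with s hs using hW s hs
  · intro s hs
    obtain ⟨h, rfl⟩ := hgG
    rw [Y10a_mul, (hroot s hs _).1 (h3 s hs), zero_mul]

end XV
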