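import Pool.Agent.Lib.MP_228259_lc.V.Y10a
import Pool.Agent.Lib.MP_228259_lc.V.F2
import Pool.Agent.Lib.MP_228259_lc.V.N2

/-!
XV-Y10b (nonconst). `∑ μ_i log ξ_i` is not constant for algebraic functions `ξ_i` with
`∏ ξ_i^(M_i) = s` and `μ` independent over the rational numbers.

Proof. Suppose it is constant near `z`. `ξ_i = exp (lam i)` on the ball. `alg_cont` for each `i`: finite
sets `F_i`; `F = {0} ∪ ⋃ F_i`. Choose `z' ∈ ball z δ` (close to `z`, where the sum is constant near `z'`),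
whose imaginary part is not the imaginary part of a point of `F`; `U` is a horizontal strip about `z'`
disjoint from `F`, open and convex. Continue: `ξ'_i` on `U`. `∏ ξ'_i^(M_i) = s` near
`z'`, hence on `U` (identity theorem, `U` preconnected); so `ξ'_i s ≠ 0` on `U` for all `i` with
`0 < M i`. Holomorphic logarithms `ℓ_i` on `U` (`exists_log`); near `z'` each `ℓ_i - lam i` is locally
constant, so `∑ μ_i ℓ_i` is constant near `z'`, hence on `U`; so `∑ μ_i log ‖ξ'_i s‖` is constant on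
`U`. For `s = z' + t`, `t → ∞`: `slope_rel` for `G i` (with `B` bounding its nonzero coefficients and
their inverses, `D` its degrees) gives `s_i ∈ S` rational with
`|log ‖ξ'_i s‖ - s_i log ‖s‖| ≤ K'`. So `|∑ μ_i s_i| log ‖s‖ ≤ K''` and `|∑ M_i s_i - 1| log ‖s‖ ≤ K''`
for all large `t`, with `s_i` in a finite set (depending on `t`): for `t` large `∑ μ_i s_i = 0`, so
`s = 0` (`hμ`), and `∑ M_i s_i = 1`: contradiction.
-/

set_option autoImplicit false

namespace XV

open Filter Topology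

/-- bounds for the degrees and the nonzero coefficients of a polynomial in two variables -/
theorem Y10b_coef (R : Polynomial (Polynomial ℂ)) :
    ∃ (D : ℕ) (B : ℝ), 1 ≤ B ∧ R.natDegree ≤ D ∧ (∀ j, (R.coeff j).natDegree ≤ D) ∧
      ∀ j k, (R.coeff j).coeff k = 0 ∨
        (1 / B ≤ ‖(R.coeff j).coeff k‖ ∧ ‖(R.coeff j).coeff k‖ ≤ B) := by
  classical
  set D : ℕ := R.natDegree + ∑ j ∈ R.support, (R.coeff j).natDegree with hD
  have hD1 : R.natDegree ≤ D := Nat.le_add_right _ _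
  have hD2 : ∀ j, (R.coeff j).natDegree ≤ D := by
    intro j
    by_cases hj : j ∈ R.support
    · have h1 := Finset.single_le_sum (f := fun j => (R.coeff j).natDegree)
        (fun i _ => Nat.zero_le _) hj
      exact le_trans h1 (Nat.le_add_left _ _)
    · rw [Polynomial.notMem_support_iff.1 hj]
      simp
  set E : Finset (ℕ × ℕ) := Finset.range (D + 1) ×ˢ Finset.range (D + 1) with hE
  set w : ℕ × ℕ → ℝ := fun p => ‖(R.coeff p.1).coeff p.2‖ + ‖(R.coeff p.1).coeff p.2‖⁻¹ with hw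
  have hw0 : ∀ p, 0 ≤ w p := fun p => by
    simp only [hw]
    positivity
  have hsum : 0 ≤ ∑ p ∈ E, w p := Finset.sum_nonneg fun p _ => hw0 p
  refine ⟨D, 1 + ∑ p ∈ E, w p, by linarith, hD1, hD2, ?_⟩
  intro j k
  by_cases h0 : (R.coeff j).coeff k = 0
  · exact Or.inl h0
  · right
    have hj : j ≤ R.natDegree := by
      refine Polynomial.le_natDegree_of_ne_zero fun h => h0 ?_
      rw [h]
      simp
    have hk : k ≤ (R.coeff j).natDegree := Polynomial.le_natDegree_of_ne_zero h0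
    have hmem : (j, k) ∈ E := by
      rw [hE, Finset.mem_product, Finset.mem_range, Finset.mem_range]
      exact ⟨Nat.lt_succ_of_le (hj.trans hD1), Nat.lt_succ_of_le (hk.trans (hD2 j))⟩
    have h1 : w (j, k) ≤ ∑ p ∈ E, w p := Finset.single_le_sum (fun p _ => hw0 p) hmem
    have hc : 0 < ‖(R.coeff j).coeff k‖ := norm_pos_iff.2 h0
    have hci : 0 < ‖(R.coeff j).coeff k‖⁻¹ := inv_pos.2 hc
    have h2 : w (j, k) = ‖(R.coeff j).coeff k‖ + ‖(R.coeff j).coeff k‖⁻¹ := rfl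
    constructor
    · rw [one_div]
      refine inv_le_of_inv_le₀ hc ?_
      linarith
    · linarith

/-- an algebraic function has one of finitely many rational slopes at a large point -/
theorem Y10b_slope (R : Polynomial (Polynomial ℂ)) (hR : R ≠ 0) :
    ∃ (S : Finset ℚ) (K : ℝ), 0 < K ∧ ∀ f y : ℂ, f ≠ 0 → y ≠ 0 → bev f y R = 0 →
      K < Real.log ‖f‖ → ∃ s ∈ S, |Real.log ‖y‖ - s * Real.log ‖f‖| ≤ K := by
  obtain ⟨D, B, hB, hD, hc, hcoef⟩ := Y10b_coef R
  obtain ⟨S, K, hK, h⟩ := slope_rel D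
  refine ⟨S, K * (1 + Real.log B), ?_, ?_⟩
  · have h1 := Real.log_nonneg hB
    positivity
  intro f y hf hy hr hlt
  exact h R hR hD hc B hB hcoef f y hf hy hr (hlt.trans_le (le_abs_self _))

theorem Y10b_tendsto (z' : ℂ) :
    Tendsto (fun t : ℝ => Real.log ‖z' + (t : ℂ)‖) atTop atTop := by
  refine Real.tendsto_log_atTop.comp ?_
  refine tendsto_atTop_mono (f := fun t : ℝ => t - ‖z'‖) ?_
    (tendsto_atTop_add_const_right _ _ tendsto_id)
  intro t
  have h1 : ‖(t : ℂ)‖ ≤ ‖z' + (t : ℂ)‖ + ‖z'‖ := by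
    have h2 : (t : ℂ) = (z' + (t : ℂ)) - z' := by ring
    calc ‖(t : ℂ)‖ = ‖(z' + (t : ℂ)) - z'‖ := by rw [← h2]
      _ ≤ _ := norm_sub_le _ _
  have h3 : t ≤ ‖(t : ℂ)‖ := by
    rw [Complex.norm_real]
    exact Real.le_norm_self t
  linarith

theorem Y10b_end {r : ℕ} (M : Fin r → ℕ) (μ : Fin r → ℝ) (hμ : QInd μ)
    (G : Fin r → Polynomial (Polynomial ℂ)) (hG : ∀ i, G i ≠ 0) (z' : ℂ) (ξ : Fin r → ℂ → ℂ)
    (hne : ∀ (i : Fin r) (t : ℝ), ξ i (z' + t) ≠ 0)
    (hrel : ∀ (i : Fin r) (t : ℝ), bev (z' + t) (ξ i (z' + t)) (G i) = 0)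
    (hprod : ∀ t : ℝ, ∏ i, ξ i (z' + t) ^ M i = z' + t)
    (C : ℝ) (hC : ∀ t : ℝ, ∑ i, μ i * Real.log ‖ξ i (z' + t)‖ = C) : False := by
  classical
  choose S K hK h using fun i => Y10b_slope (G i) (hG i)
  have hlim := Y10b_tendsto z'
  have hlog : ∀ t : ℝ, Real.log ‖z' + (t : ℂ)‖ = ∑ i, (M i : ℝ) * Real.log ‖ξ i (z' + t)‖ := by
    intro t
    conv_lhs => rw [← hprod t]
    rw [norm_prod, Real.log_prod]
    · refine Finset.sum_congr rfl fun i _ => ?_
      rw [norm_pow, Real.log_pow]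
    · intro i _
      rw [norm_pow]
      exact pow_ne_zero _ (norm_ne_zero_iff.2 (hne i t))
  -- every large `t` has a good tuple of slopes
  have h1 : ∀ᶠ t : ℝ in atTop, ∃ σ ∈ Fintype.piFinset S, ∀ i,
      |Real.log ‖ξ i (z' + t)‖ - σ i * Real.log ‖z' + (t : ℂ)‖| ≤ K i := by
    have h2 : ∀ᶠ t : ℝ in atTop, ∀ i, K i < Real.log ‖z' + (t : ℂ)‖ :=
      Filter.eventually_all.2 fun i => hlim.eventually_gt_atTop (K i)
    filter_upwards [h2] with t ht
    have h3 : ∀ i, ∃ s ∈ S i, |Real.log ‖ξ i (z' + t)‖ - s * Real.log ‖z' + (t : ℂ)‖| ≤ K i := by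
      intro i
      have h4 : z' + (t : ℂ) ≠ 0 := by
        intro h5
        have h6 := ht i
        rw [h5, norm_zero, Real.log_zero] at h6
        linarith [hK i]
      exact h i _ _ h4 (hne i t) (hrel i t) (ht i)
    choose σ hσ hσ' using h3
    exact ⟨σ, Fintype.mem_piFinset.2 hσ, hσ'⟩
  -- no tuple of slopes is good for arbitrarily large `t`
  have h2 : ∀ σ ∈ Fintype.piFinset S, ∀ᶠ t : ℝ in atTop, ¬ ∀ i,
      |Real.log ‖ξ i (z' + t)‖ - σ i * Real.log ‖z' + (t : ℂ)‖| ≤ K i := by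
    intro σ _
    by_cases ha : ∑ i, μ i * (σ i : ℝ) = 0
    · have hσ0 : σ = 0 := hμ σ ha
      filter_upwards [hlim.eventually_gt_atTop (∑ i, (M i : ℝ) * K i)] with t ht hgood
      have h3 : Real.log ‖z' + (t : ℂ)‖ ≤ ∑ i, (M i : ℝ) * K i := by
        rw [hlog t]
        refine Finset.sum_le_sum fun i _ => ?_
        refine mul_le_mul_of_nonneg_left ?_ (Nat.cast_nonneg _)
        have h4 := hgood i
        rw [hσ0] at h4
        simp only [Pi.zero_apply, Rat.cast_zero, zero_mul, sub_zero] at h4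
        exact (le_abs_self _).trans h4
      linarith
    · have ha' : 0 < |∑ i, μ i * (σ i : ℝ)| := abs_pos.2 ha
      set a : ℝ := ∑ i, μ i * (σ i : ℝ) with hadef
      filter_upwards [hlim.eventually_gt_atTop ((|C| + ∑ i, |μ i| * K i) / |a|),
        hlim.eventually_gt_atTop 0] with t ht ht0 hgood
      rw [div_lt_iff₀ ha'] at ht
      set L : ℝ := Real.log ‖z' + (t : ℂ)‖ with hL
      have h3 : ∑ i, μ i * (Real.log ‖ξ i (z' + t)‖ - σ i * L) = C - a * L := by
        rw [← hC t, hadef, Finset.sum_mul, ← Finset.sum_sub_distrib]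
        refine Finset.sum_congr rfl fun i _ => ?_
        ring
      have h4 : |C - a * L| ≤ ∑ i, |μ i| * K i := by
        rw [← h3]
        refine (Finset.abs_sum_le_sum_abs _ _).trans (Finset.sum_le_sum fun i _ => ?_)
        rw [abs_mul]
        exact mul_le_mul_of_nonneg_left (hgood i) (abs_nonneg _)
      have h5 : |a| * L = |a * L| := by rw [abs_mul, abs_of_pos ht0]
      have h6 : |a * L| ≤ |C - a * L| + |C| := by
        have h7 : a * L = -(C - a * L) + C := by ring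
        calc |a * L| = |-(C - a * L) + C| := by rw [← h7]
          _ ≤ |-(C - a * L)| + |C| := abs_add_le _ _
          _ = _ := by rw [abs_neg]
      rw [mul_comm] at ht
      linarith
  have h3 : ∀ᶠ t : ℝ in atTop, ∀ σ ∈ Fintype.piFinset S, ¬ ∀ i,
      |Real.log ‖ξ i (z' + t)‖ - σ i * Real.log ‖z' + (t : ℂ)‖| ≤ K i :=
    (Finset.eventually_all _).2 h2
  obtain ⟨t, ⟨σ, hσ, hgood⟩, hbad⟩ := (h1.and h3).exists
  exact hbad σ hσ hgood

/-- if the exponentials agree near a point, so do the derivatives -/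
theorem Y10b_deriv {f g : ℂ → ℂ} {V : Set ℂ} (hV : IsOpen V) (hf : DifferentiableOn ℂ f V)
    (hg : DifferentiableOn ℂ g V) (h : ∀ s ∈ V, Complex.exp (f s) = Complex.exp (g s)) :
    ∀ s ∈ V, deriv f s = deriv g s := by
  intro s hs
  have h1 : (fun u => Complex.exp (f u)) =ᶠ[𝓝 s] fun u => Complex.exp (g u) :=
    Filter.eventually_of_mem (hV.mem_nhds hs) h
  have h2 := h1.deriv_eq
  have hf' : DifferentiableAt ℂ f s := hf.differentiableAt (hV.mem_nhds hs)
  have hg' : DifferentiableAt ℂ g s := hg.differentiableAt (hV.mem_nhds hs)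
  rw [hf'.hasDerivAt.cexp.deriv, hg'.hasDerivAt.cexp.deriv, h s hs] at h2
  exact mul_left_cancel₀ (Complex.exp_ne_zero _) h2

theorem nonconst {r : ℕ} (M : Fin r → ℕ) (hM : ∀ i, 0 < M i) (μ : Fin r → ℝ) (hμ : QInd μ)
    (G : Fin r → Polynomial (Polynomial ℂ)) (hG : ∀ i, G i ≠ 0) {z : ℂ} {δ : ℝ} (hδ : 0 < δ)
    (lam : Fin r → ℂ → ℂ) (hd : ∀ i, DifferentiableOn ℂ (lam i) (Metric.ball z δ))
    (hrel : ∀ i, ∀ s ∈ Metric.ball z δ, bev s (Complex.exp (lam i s)) (G i) = 0)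
    (hprod : ∀ s ∈ Metric.ball z δ, ∏ i, Complex.exp (lam i s) ^ M i = s) :
    ¬ ∀ᶠ s in 𝓝 z, ∑ i, (μ i : ℂ) * lam i s = ∑ i, (μ i : ℂ) * lam i z := by
  classical
  intro H
  choose F hFfin hF using fun i => alg_cont (G i) (hG i) hδ (fun s => Complex.exp (lam i s))
    ((hd i).cexp) (hrel i)
  obtain ⟨δ', hδ', hδ'δ, hH⟩ : ∃ δ' : ℝ, 0 < δ' ∧ δ' ≤ δ ∧ ∀ s ∈ Metric.ball z δ',
      ∑ i, (μ i : ℂ) * lam i s = ∑ i, (μ i : ℂ) * lam i z := by
    obtain ⟨e, he, h⟩ := Metric.eventually_nhds_iff_ball.1 H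
    exact ⟨min e δ, lt_min he hδ, min_le_right _ _,
      fun s hs => h s (Metric.ball_subset_ball (min_le_left _ _) hs)⟩
  set F' : Set ℂ := {0} ∪ ⋃ i, F i with hF'
  have hF'fin : F'.Finite := (Set.finite_singleton 0).union (Set.finite_iUnion hFfin)
  obtain ⟨y, hy1, hy2⟩ : ∃ y ∈ Metric.ball z.im δ', y ∉ Complex.im '' F' := by
    have hinf : (Metric.ball z.im δ').Infinite := by
      rw [Real.ball_eq_Ioo]
      exact Set.Ioo_infinite (by linarith)
    exact hinf.exists_notMem_finite (hF'fin.image _)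
  obtain ⟨ε, hε, hεs⟩ := Metric.isOpen_iff.1 (hF'fin.image Complex.im).isClosed.isOpen_compl y hy2
  set U : Set ℂ := Complex.im ⁻¹' (Metric.ball y ε) with hU
  have hUo : IsOpen U := Metric.isOpen_ball.preimage Complex.continuous_im
  have hUc : Convex ℝ U := (convex_ball y ε).linear_preimage Complex.imLm
  have hUF : ∀ s ∈ U, s ∉ F' := fun s hs hsF => hεs hs ⟨s, hsF, rfl⟩
  have hU0 : ∀ s ∈ U, s ≠ 0 := fun s hs h0 => hUF s hs (Or.inl h0)
  have hUFi : ∀ i, Disjoint U (F i) := fun i =>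
    Set.disjoint_left.2 fun s hs hsF => hUF s hs (Or.inr (Set.mem_iUnion.2 ⟨i, hsF⟩))
  set z' : ℂ := ⟨z.re, y⟩ with hz'
  have hz'1 : z' ∈ Metric.ball z δ' := by
    rw [Metric.mem_ball, Complex.dist_of_re_eq (by simp [hz'])]
    exact hy1
  have hz'2 : z' ∈ Metric.ball z δ := Metric.ball_subset_ball hδ'δ hz'1
  have hz'U : z' ∈ U := Metric.mem_ball_self hε
  have hUpc : IsPreconnected U := hUc.isPreconnected
  choose ξ hξd hξe hξr using fun i => hF i z' hz'2 U hUo hUc (hUFi i) hz'U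
  -- the product
  have hpr : ∀ s ∈ U, ∏ i, ξ i s ^ M i = s := by
    have h1 : AnalyticOnNhd ℂ (fun s => ∏ i, ξ i s ^ M i) U := by
      refine DifferentiableOn.analyticOnNhd ?_ hUo
      refine DifferentiableOn.fun_finsetProd fun i _ => ?_
      exact (hξd i).pow _
    have h2 : AnalyticOnNhd ℂ (fun s : ℂ => s) U := analyticOnNhd_id
    have h3 : (fun s => ∏ i, ξ i s ^ M i) =ᶠ[𝓝 z'] fun s : ℂ => s := by
      have h4 : ∀ᶠ s in 𝓝 z', ∀ i, ξ i s = Complex.exp (lam i s) := Filter.eventually_all.2 hξe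
      filter_upwards [h4, Metric.isOpen_ball.mem_nhds hz'2] with s hs hs'
      rw [Finset.prod_congr rfl fun i _ => by rw [hs i]]
      exact hprod s hs'
    exact h1.eqOn_of_preconnected_of_eventuallyEq h2 hUpc hz'U h3
  have hξ0 : ∀ i, ∀ s ∈ U, ξ i s ≠ 0 := by
    intro i s hs h0
    apply hU0 s hs
    rw [← hpr s hs]
    refine Finset.prod_eq_zero (Finset.mem_univ i) ?_
    rw [h0, zero_pow (hM i).ne']
  choose ℓ hℓd hℓe using fun i => exists_log hUo hUc (ξ i) (hξd i) (hξ0 i)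
  -- the sum of the logarithms is constant
  set Lf : ℂ → ℂ := fun s => ∑ i, (μ i : ℂ) * ℓ i s with hLf
  have hLd : DifferentiableOn ℂ Lf U := by
    refine DifferentiableOn.fun_sum fun i _ => ?_
    exact (hℓd i).const_mul _
  have hderiv : ∀ᶠ s in 𝓝 z', deriv Lf s = 0 := by
    have h4 : ∀ᶠ s in 𝓝 z', (∀ i, ξ i s = Complex.exp (lam i s)) ∧ s ∈ U ∧
        s ∈ Metric.ball z δ' := by
      filter_upwards [Filter.eventually_all.2 hξe, hUo.mem_nhds hz'U,
        Metric.isOpen_ball.mem_nhds hz'1] with s h5 h6 h7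
      exact ⟨h5, h6, h7⟩
    obtain ⟨V, hV1, hVo, hz'V⟩ := eventually_nhds_iff.1 h4
    have hVU : V ⊆ U := fun s hs => (hV1 s hs).2.1
    have hVb : V ⊆ Metric.ball z δ' := fun s hs => (hV1 s hs).2.2
    have hlamd : ∀ i, DifferentiableOn ℂ (lam i) V := fun i =>
      (hd i).mono (hVb.trans (Metric.ball_subset_ball hδ'δ))
    filter_upwards [hVo.mem_nhds hz'V] with s hs
    have h5 : ∀ i, deriv (ℓ i) s = deriv (lam i) s := fun i =>
      Y10b_deriv hVo ((hℓd i).mono hVU) (hlamd i)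
        (fun u hu => by rw [hℓe i u (hVU hu), (hV1 u hu).1 i]) s hs
    have h6 : deriv Lf s = ∑ i, (μ i : ℂ) * deriv (ℓ i) s := by
      have h7 : HasDerivAt Lf (∑ i, (μ i : ℂ) * deriv (ℓ i) s) s := by
        rw [hLf]
        refine HasDerivAt.fun_sum fun i _ => ?_
        exact (((hℓd i).differentiableAt (hUo.mem_nhds (hVU hs))).hasDerivAt).const_mul _
      exact h7.deriv
    have h8 : HasDerivAt (fun s => ∑ i, (μ i : ℂ) * lam i s)
        (∑ i, (μ i : ℂ) * deriv (lam i) s) s := by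
      refine HasDerivAt.fun_sum fun i _ => ?_
      exact (((hlamd i).differentiableAt (hVo.mem_nhds hs)).hasDerivAt).const_mul _
    have h9 : (fun s => ∑ i, (μ i : ℂ) * lam i s) =ᶠ[𝓝 s]
        fun _ => ∑ i, (μ i : ℂ) * lam i z :=
      Filter.eventually_of_mem (Metric.isOpen_ball.mem_nhds (hVb hs)) hH
    rw [h6, Finset.sum_congr rfl fun i _ => by rw [h5 i], ← h8.deriv, h9.deriv_eq, deriv_const]
  have hderivU : ∀ s ∈ U, deriv Lf s = 0 := by
    have h1 : AnalyticOnNhd ℂ (deriv Lf) U := (hLd.analyticOnNhd hUo).deriv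
    have h2 : AnalyticOnNhd ℂ (fun _ : ℂ => (0 : ℂ)) U := analyticOnNhd_const
    exact h1.eqOn_of_preconnected_of_eventuallyEq h2 hUpc hz'U hderiv
  have hconst : ∀ s ∈ U, Lf s = Lf z' := by
    intro s hs
    exact hUo.is_const_of_deriv_eq_zero hUpc hLd hderivU hs hz'U
  -- the points `z' + t`
  have hzt : ∀ t : ℝ, z' + (t : ℂ) ∈ U := by
    intro t
    rw [hU, Set.mem_preimage, Complex.add_im, Complex.ofReal_im, add_zero]
    exact Metric.mem_ball_self hε
  refine Y10b_end M μ hμ G hG z' ξ (fun i t => hξ0 i _ (hzt t)) (fun i t => hξr i _ (hzt t))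
    (fun t => hpr _ (hzt t)) (Lf z').re fun t => ?_
  rw [← hconst _ (hzt t), hLf]
  simp only [Complex.re_sum]
  refine Finset.sum_congr rfl fun i _ => ?_
  rw [← hℓe i _ (hzt t), Complex.norm_exp, Real.log_exp, Complex.re_ofReal_mul]

end XV
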