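import Mathlib

/-!
XV-Y4 (removable singularities). `bdd_lip`: a bounded holomorphic function on a ball minus a finite set
is Lipschitz on the half ball. `liouville_punct`: a holomorphic function on the plane minus a finite
set, bounded near the points of the set and tending to zero at infinity, vanishes. `ball_diff_finite`,
`annulus_preconnected`: connectedness.

Proofs. Remove the points of the finite set one at a time
(`Complex.differentiableOn_update_limUnder_of_bddAbove` or
`Complex.differentiableOn_update_limUnder_of_isLittleO`; induction on the finite set, the statement for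
open sets `U` in place of the ball is convenient: a function differentiable on `U \ B`, bounded near the
points of `B`, agrees on `U \ B` with a function differentiable on `U`). `bdd_lip`: the extension is
bounded by `K` (continuity, `B` has empty interior), Cauchy estimate
(`Complex.norm_deriv_le_of_forall_mem_sphere_norm_le`) and the mean value inequality on the convex half
ball. `liouville_punct`: the extension is entire, bounded, tends to `0`:
`Differentiable.apply_eq_of_tendsto_cocompact` or Liouville. `ball_diff_finite`: a ball in `ℂ` minus a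
countable set is path connected (Mathlib: complement of a countable set in a real space of rank > 1;
for the ball use a homeomorphism of the ball with `ℂ` (`Homeomorph.unitBall`, `PartialHomeomorph`), or
directly: a bounded function `Φ` with values `0, 1`, locally constant on `ball \ B`, is holomorphic,
extends to a holomorphic function on the ball with derivative zero off the finite set `B`, so is
constant: `IsPreconnected` through `isPreconnected_iff_…` continuous maps to `Bool` or clopen sets).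
-/

set_option autoImplicit false

namespace XV

open Filter Topology

/-- removal of one point -/
private theorem Y4_one {Φ : ℂ → ℂ} {U : Set ℂ} (hU : IsOpen U) {a : ℂ} (ha : a ∈ U)
    (hΦ : DifferentiableOn ℂ Φ (U \ {a}))
    (hb : ∃ K : ℝ, ∀ᶠ f in 𝓝[≠] a, ‖Φ f‖ ≤ K) :
    DifferentiableOn ℂ (Function.update Φ a (limUnder (𝓝[≠] a) Φ)) U := by
  refine Complex.differentiableOn_update_limUnder_of_isLittleO (hU.mem_nhds ha) hΦ ?_
  obtain ⟨K, hK⟩ := hb
  have h1 : (fun f => Φ f - Φ a) =O[𝓝[≠] a] (fun _ => (1 : ℝ)) := by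
    refine Asymptotics.IsBigO.of_bound (K + ‖Φ a‖) ?_
    filter_upwards [hK] with f hf
    rw [norm_one, mul_one]
    exact (norm_sub_le _ _).trans (by linarith)
  refine h1.trans_isLittleO ?_
  rw [Asymptotics.isLittleO_one_left_iff]
  have h2 : Tendsto (fun f : ℂ => ‖f - a‖) (𝓝[≠] a) (𝓝[>] 0) := by
    rw [tendsto_nhdsWithin_iff]
    constructor
    · have h3 : Tendsto (fun f : ℂ => ‖f - a‖) (𝓝 a) (𝓝 ‖a - a‖) :=
        (continuous_norm.comp (continuous_id.sub continuous_const)).tendsto a
      rw [sub_self, norm_zero] at h3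
      exact h3.mono_left nhdsWithin_le_nhds
    · filter_upwards [self_mem_nhdsWithin] with f hf
      exact norm_pos_iff.2 (sub_ne_zero.2 hf)
  have h4 := tendsto_inv_nhdsGT_zero.comp h2
  refine h4.congr fun f => ?_
  simp

theorem removable {Φ : ℂ → ℂ} {U B : Set ℂ} (hU : IsOpen U) (hB : B.Finite)
    (hΦ : DifferentiableOn ℂ Φ (U \ B))
    (hb : ∀ b ∈ B ∩ U, ∃ K : ℝ, ∀ᶠ f in 𝓝[≠] b, ‖Φ f‖ ≤ K) :
    ∃ Ψ : ℂ → ℂ, DifferentiableOn ℂ Ψ U ∧ ∀ f ∈ U \ B, Ψ f = Φ f := by
  induction B, hB using Set.Finite.induction_on generalizing Φ with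
  | empty =>
    refine ⟨Φ, ?_, fun f _ => rfl⟩
    simpa using hΦ
  | @insert a B haB hB ih =>
    by_cases ha : a ∈ U
    · have hU' : IsOpen (U \ B) := hU.sdiff hB.isClosed
      have hset : (U \ B) \ {a} = U \ insert a B := by
        ext w
        simp only [Set.mem_sdiff, Set.mem_singleton_iff, Set.mem_insert_iff]
        tauto
      have h1 := Y4_one hU' (a := a) ⟨ha, haB⟩ (by rw [hset]; exact hΦ)
        (hb a ⟨Set.mem_insert _ _, ha⟩)
      obtain ⟨Ψ, hΨ, hΨ'⟩ := ih (Φ := Function.update Φ a (limUnder (𝓝[≠] a) Φ)) h1 (by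
        intro b hbB
        obtain ⟨K, hK⟩ := hb b ⟨Set.mem_insert_of_mem _ hbB.1, hbB.2⟩
        have hne : b ≠ a := by
          rintro rfl
          exact haB hbB.1
        refine ⟨K, ?_⟩
        have h2 : ∀ᶠ f in 𝓝[≠] b, f ≠ a :=
          (isOpen_ne.mem_nhds hne : {f : ℂ | f ≠ a} ∈ 𝓝 b) |> fun h => nhdsWithin_le_nhds h
        filter_upwards [hK, h2] with f hf hf2
        rw [Function.update_of_ne hf2]
        exact hf)
      refine ⟨Ψ, hΨ, fun f hf => ?_⟩
      have hfa : f ≠ a := fun h => hf.2 (h ▸ Set.mem_insert _ _)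
      rw [hΨ' f ⟨hf.1, fun h => hf.2 (Set.mem_insert_of_mem _ h)⟩, Function.update_of_ne hfa]
    · have hset : U \ insert a B = U \ B := by
        ext w
        simp only [Set.mem_sdiff, Set.mem_insert_iff]
        constructor
        · rintro ⟨h1, h2⟩
          exact ⟨h1, fun h => h2 (Or.inr h)⟩
        · rintro ⟨h1, h2⟩
          refine ⟨h1, ?_⟩
          rintro (rfl | h)
          · exact ha h1
          · exact h2 h
      rw [hset] at hΦ ⊢
      exact ih hΦ fun b hbB => hb b ⟨Set.mem_insert_of_mem _ hbB.1, hbB.2⟩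

/-- the closure of `U \ B` contains `U` -/
private theorem Y4_closure {U B : Set ℂ} (hU : IsOpen U) (hB : B.Finite) : U ⊆ closure (U \ B) := by
  intro w hw
  have h1 : Dense (Bᶜ : Set ℂ) := hB.countable.dense_compl ℝ
  have h2 := h1.open_subset_closure_inter hU hw
  have h3 : U ∩ Bᶜ = U \ B := rfl
  rwa [h3] at h2

theorem bdd_lip {Φ : ℂ → ℂ} {z : ℂ} {r K : ℝ} (hr : 0 < r) {B : Set ℂ} (hB : B.Finite)
    (hΦ : DifferentiableOn ℂ Φ (Metric.ball z r \ B))
    (hb : ∀ f ∈ Metric.ball z r \ B, ‖Φ f‖ ≤ K) :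
    ∀ f ∈ Metric.ball z (r / 2) \ B, ∀ f' ∈ Metric.ball z (r / 2) \ B,
      ‖Φ f - Φ f'‖ ≤ 4 * K / r * ‖f - f'‖ := by
  have hUo : IsOpen (Metric.ball z r) := Metric.isOpen_ball
  obtain ⟨Ψ, hΨ, hΨ'⟩ := removable hUo hB hΦ (by
    intro b hbB
    refine ⟨K, ?_⟩
    have h1 : ∀ᶠ f in 𝓝[≠] b, f ∈ Metric.ball z r :=
      nhdsWithin_le_nhds (hUo.mem_nhds hbB.2)
    have h2 : ∀ᶠ f in 𝓝[≠] b, f ∉ B := by
      have h3 : (B \ {b})ᶜ ∈ 𝓝 b :=
        ((hB.subset Set.sdiff_subset).isClosed.isOpen_compl).mem_nhds (by simp)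
      filter_upwards [nhdsWithin_le_nhds h3, self_mem_nhdsWithin] with f hf hf2 hfB
      exact hf ⟨hfB, hf2⟩
    filter_upwards [h1, h2] with f hf1 hf2
    exact hb f ⟨hf1, hf2⟩)
  have hbd : ∀ w ∈ Metric.ball z r, ‖Ψ w‖ ≤ K := by
    intro w hw
    have h1 : ContinuousWithinAt Ψ (Metric.ball z r \ B) w :=
      ((hΨ w hw).continuousWithinAt).mono Set.sdiff_subset
    have h2 : w ∈ closure (Metric.ball z r \ B) := Y4_closure hUo hB hw
    have h3 : (𝓝[Metric.ball z r \ B] w).NeBot := mem_closure_iff_nhdsWithin_neBot.1 h2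
    refine le_of_tendsto (h1.norm) ?_
    filter_upwards [self_mem_nhdsWithin] with f hf
    rw [hΨ' f hf]
    exact hb f hf
  have hder : ∀ w ∈ Metric.ball z (r / 2), ‖deriv Ψ w‖ ≤ 4 * K / r := by
    intro w hw
    rw [Metric.mem_ball] at hw
    have hsub : Metric.closedBall w (r / 4) ⊆ Metric.ball z r := by
      intro v hv
      rw [Metric.mem_closedBall] at hv
      rw [Metric.mem_ball]
      have := dist_triangle v w z
      linarith
    have h1 : DiffContOnCl ℂ Ψ (Metric.ball w (r / 4)) := by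
      apply DifferentiableOn.diffContOnCl
      rw [closure_ball w (by positivity)]
      exact hΨ.mono hsub
    have h2 := Complex.norm_deriv_le_of_forall_mem_sphere_norm_le (show 0 < r / 4 by positivity) h1
      (C := K) fun v hv => hbd v (hsub (Metric.sphere_subset_closedBall hv))
    have h3 : K / (r / 4) = 4 * K / r := by
      field_simp
    rwa [h3] at h2
  intro f hf f' hf'
  have hsub : Metric.ball z (r / 2) ⊆ Metric.ball z r := Metric.ball_subset_ball (by linarith)
  have h1 := (convex_ball z (r / 2)).norm_image_sub_le_of_norm_deriv_le (f := Ψ)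
    (fun w hw => (hΨ w (hsub hw)).differentiableAt (hUo.mem_nhds (hsub hw))) hder hf'.1 hf.1
  rw [hΨ' f ⟨hsub hf.1, hf.2⟩, hΨ' f' ⟨hsub hf'.1, hf'.2⟩] at h1
  exact h1

theorem liouville_punct {Φ : ℂ → ℂ} {B : Set ℂ} (hB : B.Finite)
    (hΦ : DifferentiableOn ℂ Φ Bᶜ) (hb : ∀ b ∈ B, ∃ K : ℝ, ∀ᶠ f in 𝓝[≠] b, ‖Φ f‖ ≤ K)
    (hinf : Tendsto Φ (cocompact ℂ) (𝓝 0)) : ∀ f ∉ B, Φ f = 0 := by
  obtain ⟨Ψ, hΨ, hΨ'⟩ := removable (U := Set.univ) isOpen_univ hB
    (by rwa [← Set.compl_eq_univ_sdiff]) (fun b hbB => hb b hbB.1)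
  have h1 : Differentiable ℂ Ψ := fun w => (hΨ w trivial).differentiableAt Filter.univ_mem
  have h2 : Tendsto Ψ (cocompact ℂ) (𝓝 0) := by
    refine hinf.congr' ?_
    have h3 : Bᶜ ∈ cocompact ℂ := hB.isCompact.compl_mem_cocompact
    filter_upwards [h3] with f hf
    exact (hΨ' f ⟨trivial, hf⟩).symm
  intro f hf
  rw [← hΨ' f ⟨trivial, hf⟩]
  exact h1.apply_eq_of_tendsto_cocompact f h2

/-- an open preconnected set minus a finite set is preconnected -/
private theorem Y4_diff {U B : Set ℂ} (hU : IsOpen U) (hUc : IsPreconnected U) (hB : B.Finite) :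
    IsPreconnected (U \ B) := by
  classical
  rw [isPreconnected_iff_subset_of_disjoint]
  intro u v hu hv huv hdis
  have hUB : IsOpen (U \ B) := hU.sdiff hB.isClosed
  set Φ : ℂ → ℂ := fun w => if w ∈ u then 1 else 0 with hΦdef
  have hΦ : DifferentiableOn ℂ Φ (U \ B) := by
    intro w hw
    rcases huv hw with h1 | h1
    · have h2 : Φ =ᶠ[𝓝 w] fun _ => (1 : ℂ) := by
        filter_upwards [hu.mem_nhds h1] with f hf
        simp [hΦdef, hf]
      exact (((differentiableAt_const (1 : ℂ)).congr_of_eventuallyEq h2)).differentiableWithinAt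
    · have h2 : Φ =ᶠ[𝓝 w] fun _ => (0 : ℂ) := by
        filter_upwards [hv.mem_nhds h1, hUB.mem_nhds hw] with f hf hf2
        have h3 : f ∉ u := by
          intro h4
          have h5 : f ∈ (U \ B) ∩ (u ∩ v) := ⟨hf2, h4, hf⟩
          rw [hdis] at h5
          exact h5
        simp [hΦdef, h3]
      exact (((differentiableAt_const (0 : ℂ)).congr_of_eventuallyEq h2)).differentiableWithinAt
  obtain ⟨Ψ, hΨ, hΨ'⟩ := removable hU hB hΦ (by
    intro b _
    refine ⟨1, Eventually.of_forall fun f => ?_⟩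
    simp only [hΦdef]
    split_ifs <;> simp)
  have hval : ∀ w ∈ U, Ψ w * (Ψ w - 1) = 0 := by
    intro w hw
    have h1 : ContinuousWithinAt (fun f => Ψ f * (Ψ f - 1)) (U \ B) w := by
      have h2 : ContinuousWithinAt Ψ (U \ B) w :=
        ((hΨ w hw).continuousWithinAt).mono Set.sdiff_subset
      exact h2.mul (h2.sub continuousWithinAt_const)
    have h2 : w ∈ closure (U \ B) := Y4_closure hU hB hw
    have h3 : (𝓝[U \ B] w).NeBot := mem_closure_iff_nhdsWithin_neBot.1 h2
    have h4 : Tendsto (fun f => Ψ f * (Ψ f - 1)) (𝓝[U \ B] w) (𝓝 0) := by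
      refine Tendsto.congr' ?_ tendsto_const_nhds
      filter_upwards [self_mem_nhdsWithin] with f hf
      rw [hΨ' f hf]
      simp only [hΦdef]
      split_ifs <;> simp
    exact tendsto_nhds_unique h1 h4
  by_contra hcon
  rw [not_or, Set.not_subset, Set.not_subset] at hcon
  obtain ⟨⟨p, hp, hpu⟩, q, hq, hqv⟩ := hcon
  have hqu : q ∈ u := by
    rcases huv hq with h | h
    · exact h
    · exact absurd h hqv
  have hΨp : Ψ p = 0 := by
    rw [hΨ' p hp]
    simp [hΦdef, hpu]
  have hΨq : Ψ q = 1 := by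
    rw [hΨ' q hq]
    simp [hΦdef, hqu]
  have hcont : ContinuousOn (fun w => (Ψ w).re) U :=
    Complex.continuous_re.comp_continuousOn hΨ.continuousOn
  have h5 := hUc.intermediate_value hp.1 hq.1 hcont
  have h6 : (1 / 2 : ℝ) ∈ Set.Icc ((Ψ p).re) ((Ψ q).re) := by
    rw [hΨp, hΨq]
    constructor <;> norm_num
  obtain ⟨w, hw, hw2⟩ := h5 h6
  have hw3 : (Ψ w).re = 1 / 2 := hw2
  rcases mul_eq_zero.1 (hval w hw) with h7 | h7
  · rw [h7] at hw3
    norm_num at hw3
  · rw [sub_eq_zero.1 h7] at hw3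
    norm_num at hw3

theorem ball_diff_finite (z : ℂ) (r : ℝ) {B : Set ℂ} (hB : B.Finite) :
    IsPreconnected (Metric.ball z r \ B) :=
  Y4_diff Metric.isOpen_ball (convex_ball z r).isPreconnected hB

theorem compl_finite_preconnected {B : Set ℂ} (hB : B.Finite) : IsPreconnected (Bᶜ : Set ℂ) := by
  rw [Set.compl_eq_univ_sdiff]
  exact Y4_diff isOpen_univ isPreconnected_univ hB

theorem sphere_preconnected (z : ℂ) (r : ℝ) : IsPreconnected (Metric.sphere z r) := by
  apply isPreconnected_sphere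
  rw [Complex.rank_real_complex]
  exact Cardinal.one_lt_two

/-- the mean values of a holomorphic function over the circles in an annulus are the same -/
theorem annulus_mean {F : ℂ → ℂ} {z : ℂ} {r₁ r₂ : ℝ} (h1 : 0 < r₁) (h12 : r₁ < r₂) {U : Set ℂ}
    (hU : IsOpen U) (hsub : ∀ w : ℂ, r₁ ≤ ‖w - z‖ → ‖w - z‖ ≤ r₂ → w ∈ U)
    (hF : DifferentiableOn ℂ F U) {a b : ℝ}
    (hlow : ∀ w : ℂ, ‖w - z‖ = r₂ → a ≤ (F w).re) (hup : ∀ w : ℂ, ‖w - z‖ = r₁ → (F w).re ≤ b) :
    a ≤ b := by
  have h2 : 0 < r₂ := h1.trans h12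
  have hc : ContinuousOn F (Metric.closedBall z r₂ \ Metric.ball z r₁) := by
    refine hF.continuousOn.mono ?_
    rintro w ⟨hw1, hw2⟩
    rw [Metric.mem_closedBall, dist_eq_norm] at hw1
    rw [Metric.mem_ball, dist_eq_norm, not_lt] at hw2
    exact hsub w hw2 hw1
  have hd : ∀ w ∈ (Metric.ball z r₂ \ Metric.closedBall z r₁) \ (∅ : Set ℂ),
      DifferentiableAt ℂ F w := by
    rintro w ⟨⟨hw1, hw2⟩, -⟩
    rw [Metric.mem_ball, dist_eq_norm] at hw1
    rw [Metric.mem_closedBall, dist_eq_norm, not_le] at hw2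
    have hwU := hsub w hw2.le hw1.le
    exact (hF w hwU).differentiableAt (hU.mem_nhds hwU)
  have h3 := Complex.circleIntegral_sub_center_inv_smul_eq_of_differentiable_on_annulus_off_countable
    h1 h12.le Set.countable_empty hc hd
  have hav : Real.circleAverage F z r₂ = Real.circleAverage F z r₁ := by
    rw [Real.circleAverage_eq_circleIntegral h2.ne', Real.circleAverage_eq_circleIntegral h1.ne', h3]
  have hint : ∀ r : ℝ, r₁ ≤ r → r ≤ r₂ → CircleIntegrable F z r := by
    intro r hr1 hr2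
    have hr0 : 0 ≤ r := h1.le.trans hr1
    refine ContinuousOn.circleIntegrable hr0 (hF.continuousOn.mono ?_)
    intro w hw
    rw [mem_sphere_iff_norm] at hw
    exact hsub w (by rw [hw]; exact hr1) (by rw [hw]; exact hr2)
  have hre : ∀ r : ℝ, r₁ ≤ r → r ≤ r₂ →
      Real.circleAverage (fun w => (F w).re) z r = (Real.circleAverage F z r).re := by
    intro r hr1 hr2
    exact Complex.reCLM.circleAverage_comp_comm (hint r hr1 hr2)
  have hre' : ∀ r : ℝ, r₁ ≤ r → r ≤ r₂ → CircleIntegrable (fun w => (F w).re) z r := by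
    intro r hr1 hr2
    have hr0 : 0 ≤ r := h1.le.trans hr1
    refine ContinuousOn.circleIntegrable hr0
      (Complex.continuous_re.comp_continuousOn (hF.continuousOn.mono ?_))
    intro w hw
    rw [mem_sphere_iff_norm] at hw
    exact hsub w (by rw [hw]; exact hr1) (by rw [hw]; exact hr2)
  have hA : Real.circleAverage (fun w => (F w).re) z r₁ ≤ b := by
    refine Real.circleAverage_mono_on_of_le_circle (hre' r₁ le_rfl h12.le) ?_
    intro w hw
    rw [abs_of_pos h1, mem_sphere_iff_norm] at hw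
    exact hup w hw
  have hB : a ≤ Real.circleAverage (fun w => (F w).re) z r₂ := by
    have h4 : Real.circleAverage (fun _ : ℂ => a) z r₂ ≤
        Real.circleAverage (fun w => (F w).re) z r₂ := by
      refine Real.circleAverage_mono ?_ (hre' r₂ h12.le le_rfl) ?_
      · exact ContinuousOn.circleIntegrable h2.le continuousOn_const
      · intro w hw
        rw [abs_of_pos h2, mem_sphere_iff_norm] at hw
        exact hlow w hw
    rwa [Real.circleAverage_const] at h4
  rw [hre r₁ le_rfl h12.le] at hA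
  rw [hre r₂ h12.le le_rfl, hav] at hB
  exact hB.trans hA

end XV
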