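import Pool.Agent.Lib.MP_228259_lc.V.Y3
import Pool.Agent.Lib.MP_228259_lc.V.Y4

/-!
XV-Y7 (annulus_esc). In an annulus about `1` the real parts of `g` on the cluster come close to zero.

Proof. `ρ₂ = ρ / 2`. Suppose that for no `ρ₁ ∈ (0, ρ₂]` the conclusion holds: for every such `ρ₁` there is
`η > 0` with, for all large `l`, `|Re g| ≥ η` on all sheets with `p` over `ρ₁ ≤ ‖f - 1‖ ≤ ρ₂`. Let `η₂` be
the `η` for `ρ₁ = ρ₂ / 2`; `hsmall` for `η₂ / (2 (m + 1))` gives `ρ'`. Let `r₁ = min ρ' ρ₂ / 2`,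
`r₂ = 3 ρ₂ / 4`, `ρ₁ = r₁ / 2`; let `l` be large (all eventual statements for `ρ₁`, and `hU` for `ρ₁`).
Over the open annulus `Ω = {ρ₁ < ‖f - 1‖ < ρ₂} ⊆ U l` the predicates `p⁺ = p ∧ 0 < Re g` and
`p⁻ = p ∧ Re g < 0` are `LC` (`Re g` is continuous without zeros along a holomorphic root with `p`).
`F(f) = ∑_{θ ∈ shts χ p⁺ f} g f θ` is holomorphic on `Ω` (`sym_sum`), `card (shts χ p⁺ f)` is constant on
`Ω` (an annulus is preconnected; or use only the circle `sphere 1 r₂`, `sphere_preconnected`). If it is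
`≥ 1` on the circle of radius `r₂` then `Re F ≥ η₂` there, while `Re F ≤ ‖F‖ ≤ m η₂ / (2 (m + 1)) < η₂`
on the circle of radius `r₁`: contradiction to `annulus_mean`. So `shts χ p⁺ f = ∅` for `‖f - 1‖ = r₂`,
the same for `p⁻` (replace `g` by `-g`), but there is a sheet with `p` (`hne`) and `Re g ≠ 0` on it.
-/

set_option autoImplicit false

namespace XV

open Filter Topology

/-- one sign: no sheets with positive real part on the outer circle -/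
private theorem Y7_key {m : ℕ} {χ : ℂ → Polynomial ℂ} {U : Set ℂ} {p : ℂ → ℂ → Prop}
    {g : ℂ → ℂ → ℂ} (hF : Fam χ U m) (hp : LC χ U p) (hg : Hol χ U p g)
    {r₁ r₂ a b η ε : ℝ} (h1 : 0 < a) (h2 : a < r₁) (h3 : r₁ < r₂) (h4 : r₂ < b)
    (hsub : ∀ f : ℂ, a < ‖f - 1‖ → ‖f - 1‖ < b → f ∈ U)
    (hne : ∀ f θ : ℂ, a < ‖f - 1‖ → ‖f - 1‖ < b → (χ f).eval θ = 0 → p f θ → (g f θ).re ≠ 0)
    (hbig : ∀ f θ : ℂ, ‖f - 1‖ = r₂ → (χ f).eval θ = 0 → p f θ → η ≤ |(g f θ).re|)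
    (hsm : ∀ f θ : ℂ, ‖f - 1‖ = r₁ → (χ f).eval θ = 0 → p f θ → ‖g f θ‖ ≤ ε)
    (hη : 0 < η) (hε0 : 0 ≤ ε) (hε : m * ε < η) :
    ∀ f θ : ℂ, ‖f - 1‖ = r₂ → (χ f).eval θ = 0 → p f θ → ¬ 0 < (g f θ).re := by
  classical
  intro f₀ θ₀ hf₀ hθ₀ hp₀ hpos
  set Ω : Set ℂ := {f | a < ‖f - 1‖ ∧ ‖f - 1‖ < b} with hΩ
  have hcn : Continuous (fun f : ℂ => ‖f - 1‖) := by fun_prop
  have hΩo : IsOpen Ω := (isOpen_lt continuous_const hcn).inter (isOpen_lt hcn continuous_const)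
  have hΩU : Ω ⊆ U := fun f hf => hsub f hf.1 hf.2
  have hFΩ : Fam χ Ω m :=
    ⟨hΩo, fun f hf => hF.monic f (hΩU hf), fun i => (hF.coeff i).mono hΩU,
      fun f hf => hF.simple f (hΩU hf)⟩
  set P : ℂ → ℂ → Prop := fun f θ => p f θ ∧ 0 < (g f θ).re with hP
  have hBr : ∀ {z : ℂ} {ρ : ℝ} {θ : ℂ → ℂ}, Br χ Ω z ρ θ → Br χ U z ρ θ :=
    fun h => ⟨h.sub.trans hΩU, h.diff, h.root⟩
  have hLC : LC χ Ω P := by
    intro z ρ θ hB f hf f' hf' hPf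
    have hB' := hBr hB
    have hall : ∀ u ∈ Metric.ball z ρ, p u (θ u) := fun u hu => hp z ρ θ hB' f hf u hu hPf.1
    refine ⟨hall f' hf', ?_⟩
    by_contra hcon
    rw [not_lt] at hcon
    have hc : ContinuousOn (fun u => (g u (θ u)).re) (Metric.ball z ρ) :=
      Complex.continuous_re.comp_continuousOn (hg z ρ θ hB' hall).continuousOn
    have h5 := (convex_ball z ρ).isPreconnected.intermediate_value hf' hf hc
    obtain ⟨w, hw, hw2⟩ := h5 ⟨hcon, hPf.2.le⟩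
    have hwΩ := hB.sub hw
    exact hne w (θ w) hwΩ.1 hwΩ.2 (hB.root w hw) (hall w hw) hw2
  have hHol : Hol χ Ω P g := fun z ρ θ hB hall => hg z ρ θ (hBr hB) fun u hu => (hall u hu).1
  have hdiff := sym_sum hFΩ hLC hHol
  have hmem : ∀ f ∈ Ω, ∀ θ : ℂ, θ ∈ shts χ P f ↔ (χ f).eval θ = 0 ∧ P f θ := by
    intro f hf θ
    exact mem_shts (hFΩ.monic f hf).1 θ
  have hcirc : ∀ r : ℝ, a < r → r < b → ∀ w : ℂ, ‖w - 1‖ = r → w ∈ Ω := by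
    intro r hr1 hr2 w hw
    exact ⟨by rw [hw]; exact hr1, by rw [hw]; exact hr2⟩
  have har2 : a < r₂ := h2.trans h3
  have hr1b : r₁ < b := h3.trans h4
  have hcard0 : ∀ w : ℂ, ‖w - 1‖ = r₂ → 0 < (shts χ P w).card := by
    intro w hw
    have h5 := sym_card hFΩ hLC (V := Metric.sphere 1 r₂) (by
      intro u hu
      rw [mem_sphere_iff_norm] at hu
      exact hcirc r₂ har2 h4 u hu) (sphere_preconnected 1 r₂) w (by
        rw [mem_sphere_iff_norm]; exact hw) f₀ (by rw [mem_sphere_iff_norm]; exact hf₀)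
    rw [h5, Finset.card_pos]
    exact ⟨θ₀, (hmem f₀ (hcirc r₂ har2 h4 f₀ hf₀) θ₀).2 ⟨hθ₀, hp₀, hpos⟩⟩
  have hcardm : ∀ w ∈ Ω, (shts χ P w).card ≤ m := by
    intro w hw
    exact card_shts P (hFΩ.monic w hw).2
  have hlow : ∀ w : ℂ, ‖w - 1‖ = r₂ → η ≤ (∑ θ ∈ shts χ P w, g w θ).re := by
    intro w hw
    rw [Complex.re_sum]
    have h5 : ∀ θ ∈ shts χ P w, η ≤ (g w θ).re := by
      intro θ hθ
      obtain ⟨h6, h7, h8⟩ := (hmem w (hcirc r₂ har2 h4 w hw) θ).1 hθ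
      have := hbig w θ hw h6 h7
      rwa [abs_of_pos h8] at this
    have h6 := Finset.card_nsmul_le_sum (shts χ P w) (fun θ => (g w θ).re) η h5
    refine le_trans ?_ h6
    rw [nsmul_eq_mul]
    have h7 : (1 : ℝ) ≤ ((shts χ P w).card : ℝ) := by exact_mod_cast hcard0 w hw
    nlinarith
  have hup : ∀ w : ℂ, ‖w - 1‖ = r₁ → (∑ θ ∈ shts χ P w, g w θ).re ≤ m * ε := by
    intro w hw
    have hwΩ := hcirc r₁ h2 hr1b w hw
    refine (Complex.re_le_norm _).trans ((norm_sum_le _ _).trans ?_)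
    have h5 : ∀ θ ∈ shts χ P w, ‖g w θ‖ ≤ ε := by
      intro θ hθ
      obtain ⟨h6, h7, h8⟩ := (hmem w hwΩ θ).1 hθ
      exact hsm w θ hw h6 h7
    refine (Finset.sum_le_card_nsmul _ _ _ h5).trans ?_
    rw [nsmul_eq_mul]
    have h7 : ((shts χ P w).card : ℝ) ≤ m := by exact_mod_cast hcardm w hwΩ
    exact mul_le_mul_of_nonneg_right h7 hε0
  have hmean := annulus_mean (z := 1) (h1.trans h2) h3 hΩo
    (fun w hw1 hw2 => ⟨h2.trans_le hw1, hw2.trans_lt h4⟩) hdiff hlow hup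
  linarith

theorem annulus_esc {m : ℕ} {ρ : ℝ} (hρ : 0 < ρ) (χ : ℕ → ℂ → Polynomial ℂ) (U : ℕ → Set ℂ)
    (p : ℕ → ℂ → ℂ → Prop) (g : ℕ → ℂ → ℂ → ℂ) (hF : ∀ l, Fam (χ l) (U l) m)
    (hp : ∀ l, LC (χ l) (U l) (p l)) (hg : ∀ l, Hol (χ l) (U l) (p l) (g l))
    (hU : ∀ ρ₁ : ℝ, 0 < ρ₁ → ∀ᶠ l in atTop, ∀ f : ℂ, ρ₁ ≤ ‖f - 1‖ → ‖f - 1‖ < ρ → f ∈ U l)
    (hne : ∀ᶠ l in atTop, ∀ f ∈ U l, ‖f - 1‖ < ρ → ∃ θ : ℂ, (χ l f).eval θ = 0 ∧ p l f θ)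
    (hsmall : ∀ η : ℝ, 0 < η → ∃ ρ' : ℝ, 0 < ρ' ∧ ∀ᶠ l in atTop, ∀ f ∈ U l, ‖f - 1‖ < ρ' →
      ∀ θ : ℂ, (χ l f).eval θ = 0 → p l f θ → ‖g l f θ‖ < η) :
    ∃ ρ₁ ρ₂ : ℝ, 0 < ρ₁ ∧ ρ₁ ≤ ρ₂ ∧ ρ₂ < ρ ∧ ∀ η : ℝ, 0 < η → ∃ᶠ l in atTop,
      ∃ f θ : ℂ, ρ₁ ≤ ‖f - 1‖ ∧ ‖f - 1‖ ≤ ρ₂ ∧ (χ l f).eval θ = 0 ∧ p l f θ ∧
        |(g l f θ).re| < η := by
  classical
  by_contra hcon
  push Not at hcon
  have hρ2 : 0 < ρ / 2 := by positivity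
  have hA : ∀ ρ₁ : ℝ, 0 < ρ₁ → ρ₁ ≤ ρ / 2 → ∃ η : ℝ, 0 < η ∧ ∀ᶠ l in atTop, ∀ f θ : ℂ,
      ρ₁ ≤ ‖f - 1‖ → ‖f - 1‖ ≤ ρ / 2 → (χ l f).eval θ = 0 → p l f θ → η ≤ |(g l f θ).re| := by
    intro ρ₁ h1 h2
    obtain ⟨η, hη, h3⟩ := hcon ρ₁ (ρ / 2) h1 h2 (by linarith)
    exact ⟨η, hη, h3⟩
  obtain ⟨η₂, hη₂, hA2⟩ := hA (ρ / 4) (by positivity) (by linarith)
  have hm1 : (0 : ℝ) < 2 * (m + 1) := by positivity
  obtain ⟨ρ', hρ', hS⟩ := hsmall (η₂ / (2 * (m + 1))) (by positivity)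
  set r₁ : ℝ := min ρ' (ρ / 2) / 2 with hr₁
  have hmin : 0 < min ρ' (ρ / 2) := lt_min hρ' hρ2
  have hr10 : 0 < r₁ := by rw [hr₁]; linarith
  have hr1ρ' : r₁ < ρ' := by
    have := min_le_left ρ' (ρ / 2)
    rw [hr₁]
    linarith
  have hr1ρ : r₁ ≤ ρ / 4 := by
    have := min_le_right ρ' (ρ / 2)
    rw [hr₁]
    linarith
  obtain ⟨η₁, hη₁, hA1⟩ := hA (r₁ / 2) (by positivity) (by linarith)
  have hU1 := hU (r₁ / 2) (by positivity)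
  obtain ⟨l, hl1, hl2, hl3, hl4, hl5⟩ := (hA1.and (hA2.and (hS.and (hU1.and hne)))).exists
  have hε : (m : ℝ) * (η₂ / (2 * (m + 1))) < η₂ := by
    rw [← mul_div_assoc, div_lt_iff₀ hm1]
    have hm0 : (0 : ℝ) ≤ m := Nat.cast_nonneg m
    nlinarith
  have hsub : ∀ f : ℂ, r₁ / 2 < ‖f - 1‖ → ‖f - 1‖ < ρ / 2 → f ∈ U l := fun f h1 h2 =>
    hl4 f h1.le (by linarith)
  have hbig : ∀ f θ : ℂ, ‖f - 1‖ = 3 * ρ / 8 → (χ l f).eval θ = 0 → p l f θ →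
      η₂ ≤ |(g l f θ).re| := fun f θ hf h1 h2 =>
    hl2 f θ (by rw [hf]; linarith) (by rw [hf]; linarith) h1 h2
  have hk1 := Y7_key (hF l) (hp l) (hg l) (r₁ := r₁) (r₂ := 3 * ρ / 8) (a := r₁ / 2)
    (b := ρ / 2) (η := η₂) (ε := η₂ / (2 * (m + 1))) (by positivity) (by linarith)
    (by linarith) (by linarith) hsub
    (fun f θ h1 h2 h3 h4 h5 => by
      have := hl1 f θ h1.le h2.le h3 h4
      rw [h5, abs_zero] at this
      linarith) hbig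
    (fun f θ hf h1 h2 => (hl3 f (hl4 f (by rw [hf]; linarith) (by rw [hf]; linarith))
      (by rw [hf]; exact hr1ρ') θ h1 h2).le) hη₂ (by positivity) hε
  have hk2 := Y7_key (g := fun f θ => - g l f θ) (hF l) (hp l)
    (fun z ρ θ hB hall => ((hg l) z ρ θ hB hall).neg) (r₁ := r₁) (r₂ := 3 * ρ / 8) (a := r₁ / 2)
    (b := ρ / 2) (η := η₂) (ε := η₂ / (2 * (m + 1))) (by positivity) (by linarith)
    (by linarith) (by linarith) hsub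
    (fun f θ h1 h2 h3 h4 h5 => by
      have := hl1 f θ h1.le h2.le h3 h4
      rw [Complex.neg_re, neg_eq_zero] at h5
      rw [h5, abs_zero] at this
      linarith)
    (fun f θ hf h1 h2 => by
      rw [Complex.neg_re, abs_neg]
      exact hbig f θ hf h1 h2)
    (fun f θ hf h1 h2 => by
      rw [norm_neg]
      exact (hl3 f (hl4 f (by rw [hf]; linarith) (by rw [hf]; linarith))
        (by rw [hf]; exact hr1ρ') θ h1 h2).le) hη₂ (by positivity) hε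
  have hf₀ : ‖(1 + ((3 * ρ / 8 : ℝ) : ℂ)) - 1‖ = 3 * ρ / 8 := by
    rw [add_sub_cancel_left, Complex.norm_real, Real.norm_of_nonneg (by positivity)]
  obtain ⟨θ, hθ1, hθ2⟩ := hl5 (1 + ((3 * ρ / 8 : ℝ) : ℂ))
    (hsub _ (by rw [hf₀]; linarith) (by rw [hf₀]; linarith)) (by rw [hf₀]; linarith)
  have h6 := hk1 _ θ hf₀ hθ1 hθ2
  have h7 := hk2 _ θ hf₀ hθ1 hθ2
  have h8 := hbig _ θ hf₀ hθ1 hθ2
  rw [Complex.neg_re] at h7
  have h9 : (g l (1 + ((3 * ρ / 8 : ℝ) : ℂ)) θ).re = 0 := by linarith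
  rw [h9, abs_zero] at h8
  linarith

end XV
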