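import Pool.Agent.Lib.MP_228259_lc.V.Defs3

/-!
XV-Y8 (poly_limit, rel_limit). Compactness of polynomials of bounded degree, up to scalars.

`poly_limit`: divide `Δ l` by a coefficient of maximal norm (nonzero): the vector of the coefficients
(`Fin (D + 1) → ℂ`) has sup norm `1`; a subsequence converges to the coefficient vector of a nonzero
polynomial `Δ∞` of degree `≤ D`; `F` = its zero set (finite). On a compact `K` disjoint from `F`,
`‖Δ∞(s)‖ ≥ 2 c > 0` and the normalised polynomials converge uniformly on the bounded set `K`, so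
eventually `‖Δ(s)‖ ≥ c max_k ‖coeff_k‖`.

`rel_limit`: the same for the coefficients `((G l i).coeff j).coeff k`, `j, k ≤ D`, normalised for each
`i` separately; convergence in the product over `i : ι` (finite). `bev s x G = ∑_{j,k} c_{jk} s^k x^j` is
continuous in everything; a scalar multiple of `G` has the same zeros.
-/

set_option autoImplicit false

namespace XV

open Filter Topology

/-- the coefficients of a polynomial in two variables -/
private noncomputable def Y8_v (D : ℕ) (G : Polynomial (Polynomial ℂ)) :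
    Fin (D + 1) × Fin (D + 1) → ℂ :=
  fun q => (G.coeff q.1.val).coeff q.2.val

/-- the value of the polynomial with coefficients `w` -/
private noncomputable def Y8_q (D : ℕ) (w : Fin (D + 1) × Fin (D + 1) → ℂ) (s x : ℂ) : ℂ :=
  ∑ j : Fin (D + 1), (∑ k : Fin (D + 1), w (j, k) * s ^ k.val) * x ^ j.val

private theorem Y8_q_cont (D : ℕ) : Continuous
    (fun z : (Fin (D + 1) × Fin (D + 1) → ℂ) × (ℂ × ℂ) => Y8_q D z.1 z.2.1 z.2.2) := by
  unfold Y8_q
  fun_prop

private theorem Y8_q_smul (D : ℕ) (c : ℂ) (w : Fin (D + 1) × Fin (D + 1) → ℂ) (s x : ℂ) :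
    Y8_q D (c • w) s x = c * Y8_q D w s x := by
  unfold Y8_q
  rw [Finset.mul_sum]
  refine Finset.sum_congr rfl (fun j _ => ?_)
  rw [← mul_assoc, Finset.mul_sum]
  congr 1
  refine Finset.sum_congr rfl (fun k _ => ?_)
  rw [Pi.smul_apply, smul_eq_mul, mul_assoc]

private theorem Y8_v_ne (D : ℕ) (G : Polynomial (Polynomial ℂ)) (h0 : G ≠ 0)
    (h1 : G.natDegree ≤ D) (h2 : ∀ k, (G.coeff k).natDegree ≤ D) : Y8_v D G ≠ 0 := by
  intro hl
  apply h0
  refine Polynomial.ext (fun j => Polynomial.ext (fun k => ?_))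
  rw [Polynomial.coeff_zero, Polynomial.coeff_zero]
  by_cases hj : j < D + 1
  · by_cases hk : k < D + 1
    · exact congrFun hl (⟨j, hj⟩, ⟨k, hk⟩)
    · exact Polynomial.coeff_eq_zero_of_natDegree_lt (by have := h2 j; omega)
  · rw [Polynomial.coeff_eq_zero_of_natDegree_lt (p := G) (by omega), Polynomial.coeff_zero]

/-- the polynomial with the given coefficients -/
private noncomputable def Y8_mk {A : Type*} [Semiring A] (D : ℕ) (w : Fin (D + 1) → A) :
    Polynomial A :=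
  ∑ k : Fin (D + 1), Polynomial.monomial k.val (w k)

private theorem Y8_coeff {A : Type*} [Semiring A] (D : ℕ) (w : Fin (D + 1) → A)
    (k : Fin (D + 1)) : (Y8_mk D w).coeff k.val = w k := by
  unfold Y8_mk
  rw [Polynomial.finsetSum_coeff]
  simp only [Polynomial.coeff_monomial]
  rw [Finset.sum_eq_single k]
  · rw [if_pos rfl]
  · intro b _ hb
    rw [if_neg (fun h => hb (Fin.ext h))]
  · intro h
    exact absurd (Finset.mem_univ k) h

private theorem Y8_deg {A : Type*} [Semiring A] (D : ℕ) (w : Fin (D + 1) → A) :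
    (Y8_mk D w).natDegree ≤ D := by
  unfold Y8_mk
  refine Polynomial.natDegree_sum_le_of_forall_le _ _ (fun k _ => ?_)
  exact (Polynomial.natDegree_monomial_le _).trans (Nat.lt_succ_iff.1 k.2)

private theorem Y8_eval (D : ℕ) (P : Polynomial ℂ) (hP : P.natDegree ≤ D) (s : ℂ) :
    P.eval s = ∑ k : Fin (D + 1), P.coeff k.val * s ^ k.val := by
  rw [Polynomial.eval_eq_sum_range' (Nat.lt_succ_of_le hP), Finset.sum_range]

private theorem Y8_bev (D : ℕ) (R : Polynomial (Polynomial ℂ)) (hR : R.natDegree ≤ D)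
    (hc : ∀ k, (R.coeff k).natDegree ≤ D) (s x : ℂ) :
    bev s x R = ∑ j : Fin (D + 1), (∑ k : Fin (D + 1), (R.coeff j.val).coeff k.val * s ^ k.val) *
      x ^ j.val := by
  unfold bev
  rw [Y8_eval D _ ((Polynomial.natDegree_map_le).trans hR)]
  refine Finset.sum_congr rfl (fun j _ => ?_)
  rw [Polynomial.coeff_map, Polynomial.coe_evalRingHom, Y8_eval D _ (hc _)]

private theorem Y8_bev_q (D : ℕ) (R : Polynomial (Polynomial ℂ)) (hR : R.natDegree ≤ D)
    (hc : ∀ k, (R.coeff k).natDegree ≤ D) (s x : ℂ) : bev s x R = Y8_q D (Y8_v D R) s x :=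
  Y8_bev D R hR hc s x

/-- the polynomial in two variables with the given coefficients -/
private noncomputable def Y8_mk2 (D : ℕ) (w : Fin (D + 1) × Fin (D + 1) → ℂ) :
    Polynomial (Polynomial ℂ) :=
  Y8_mk D (fun j => Y8_mk D (fun k => w (j, k)))

private theorem Y8_mk2_v (D : ℕ) (w : Fin (D + 1) × Fin (D + 1) → ℂ) :
    Y8_v D (Y8_mk2 D w) = w := by
  funext q
  unfold Y8_v Y8_mk2
  rw [Y8_coeff, Y8_coeff]

private theorem Y8_mk2_deg (D : ℕ) (w : Fin (D + 1) × Fin (D + 1) → ℂ) (k : ℕ) :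
    ((Y8_mk2 D w).coeff k).natDegree ≤ D := by
  by_cases hk : k < D + 1
  · unfold Y8_mk2
    rw [Y8_coeff D _ ⟨k, hk⟩]
    exact Y8_deg D _
  · rw [Polynomial.coeff_eq_zero_of_natDegree_lt, Polynomial.natDegree_zero]
    · exact Nat.zero_le _
    · have : (Y8_mk2 D w).natDegree ≤ D := Y8_deg D _
      omega

private theorem Y8_scale {ι : Type*} [Fintype ι] (v : ι → ℂ) (hv : v ≠ 0) :
    ((‖v‖⁻¹ : ℝ) : ℂ) • v ∈ Metric.sphere (0 : ι → ℂ) 1 := by
  rw [mem_sphere_zero_iff_norm, norm_smul]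
  rw [Complex.norm_real, norm_inv, norm_norm]
  exact inv_mul_cancel₀ (norm_ne_zero_iff.2 hv)

theorem poly_limit (D : ℕ) (Δ : ℕ → Polynomial ℂ) (h : ∀ l, Δ l ≠ 0 ∧ (Δ l).natDegree ≤ D) :
    ∃ (φ : ℕ → ℕ) (F : Set ℂ), StrictMono φ ∧ F.Finite ∧ ∀ K : Set ℂ, IsCompact K →
      Disjoint K F → ∃ c : ℝ, 0 < c ∧ ∀ᶠ l in atTop, ∀ s ∈ K, ∀ k,
        c * ‖(Δ (φ l)).coeff k‖ ≤ ‖(Δ (φ l)).eval s‖ := by
  classical
  have hv : ∀ l, (fun k : Fin (D + 1) => (Δ l).coeff k.val) ≠ 0 := by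
    intro l hl
    apply (h l).1
    ext k
    rw [Polynomial.coeff_zero]
    by_cases hk : k < D + 1
    · exact congrFun hl ⟨k, hk⟩
    · exact Polynomial.coeff_eq_zero_of_natDegree_lt (by have := (h l).2; omega)
  obtain ⟨w, hw, φ, hφ, hlim⟩ := (isCompact_sphere (0 : Fin (D + 1) → ℂ) 1).tendsto_subseq
    (fun l => Y8_scale _ (hv l))
  have hw1 : ‖w‖ = 1 := by rwa [mem_sphere_zero_iff_norm] at hw
  have hw0 : w ≠ 0 := by
    intro h0
    rw [h0, norm_zero] at hw1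
    exact zero_ne_one hw1
  have hP0 : Y8_mk D w ≠ 0 := by
    intro h0
    apply hw0
    funext k
    rw [← Y8_coeff D w k, h0, Polynomial.coeff_zero]
    rfl
  refine ⟨φ, {s | (Y8_mk D w).eval s = 0}, hφ, ?_, ?_⟩
  · refine Set.Finite.subset ((Y8_mk D w).roots.toFinset.finite_toSet) ?_
    intro s hs
    rw [Finset.mem_coe, Multiset.mem_toFinset, Polynomial.mem_roots hP0]
    exact hs
  · intro K hK hd
    have hcont : Continuous (fun z : (Fin (D + 1) → ℂ) × ℂ =>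
        ‖∑ k : Fin (D + 1), z.1 k * z.2 ^ k.val‖) := by fun_prop
    have hev : ∀ s, (Y8_mk D w).eval s = ∑ k : Fin (D + 1), w k * s ^ k.val := by
      intro s
      rw [Y8_eval D _ (Y8_deg D w)]
      refine Finset.sum_congr rfl (fun k _ => ?_)
      rw [Y8_coeff]
    obtain ⟨c, hc0, hc⟩ : ∃ c : ℝ, 0 < c ∧ ∀ s ∈ K, c < ‖∑ k : Fin (D + 1), w k * s ^ k.val‖ := by
      rcases K.eq_empty_or_nonempty with he | hne
      · exact ⟨1, one_pos, fun s hs => by rw [he] at hs; exact absurd hs (Set.notMem_empty s)⟩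
      · obtain ⟨s₀, hs₀, hmin⟩ := hK.exists_isMinOn hne
          ((hcont.comp (by fun_prop : Continuous (fun s : ℂ => (w, s)))).continuousOn)
        have hpos : 0 < ‖∑ k : Fin (D + 1), w k * s₀ ^ k.val‖ := by
          rw [norm_pos_iff]
          intro h0
          rw [← hev] at h0
          exact Set.disjoint_left.1 hd hs₀ h0
        refine ⟨‖∑ k : Fin (D + 1), w k * s₀ ^ k.val‖ / 2, half_pos hpos, fun s hs => ?_⟩
        have h1 : ‖∑ k : Fin (D + 1), w k * s₀ ^ k.val‖ ≤ ‖∑ k : Fin (D + 1), w k * s ^ k.val‖ :=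
          hmin hs
        linarith
    have hevt : ∀ᶠ w' in 𝓝 w, ∀ s ∈ K, c < ‖∑ k : Fin (D + 1), w' k * s ^ k.val‖ := by
      refine hK.eventually_forall_of_forall_eventually (fun s hs => ?_)
      exact (hcont.tendsto (w, s)).eventually_const_lt (hc s hs)
    refine ⟨c, hc0, ?_⟩
    refine (hlim.eventually hevt).mono (fun l hl s hs k => ?_)
    set v : Fin (D + 1) → ℂ := fun k : Fin (D + 1) => (Δ (φ l)).coeff k.val with hvdef
    have hvn : 0 < ‖v‖ := norm_pos_iff.2 (hv (φ l))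
    have h1 : c < ‖∑ k : Fin (D + 1), (((‖v‖⁻¹ : ℝ) : ℂ) • v) k * s ^ k.val‖ := hl s hs
    have h2 : ∑ k : Fin (D + 1), (((‖v‖⁻¹ : ℝ) : ℂ) • v) k * s ^ k.val =
        ((‖v‖⁻¹ : ℝ) : ℂ) * (Δ (φ l)).eval s := by
      rw [Y8_eval D _ (h (φ l)).2, Finset.mul_sum]
      refine Finset.sum_congr rfl (fun k _ => ?_)
      rw [Pi.smul_apply, smul_eq_mul, mul_assoc]
    rw [h2, norm_mul, Complex.norm_real, norm_inv, norm_norm, ← div_eq_inv_mul,
      lt_div_iff₀ hvn] at h1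
    have h3 : ‖(Δ (φ l)).coeff k‖ ≤ ‖v‖ := by
      by_cases hk : k < D + 1
      · exact norm_le_pi_norm v ⟨k, hk⟩
      · rw [Polynomial.coeff_eq_zero_of_natDegree_lt (by have := (h (φ l)).2; omega), norm_zero]
        exact norm_nonneg _
    exact (mul_le_mul_of_nonneg_left h3 hc0.le).trans h1.le

theorem rel_limit {ι : Type*} [Fintype ι] (D : ℕ) (G : ℕ → ι → Polynomial (Polynomial ℂ))
    (h : ∀ l i, G l i ≠ 0 ∧ (G l i).natDegree ≤ D ∧ ∀ k, ((G l i).coeff k).natDegree ≤ D) :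
    ∃ (φ : ℕ → ℕ) (G' : ι → Polynomial (Polynomial ℂ)), StrictMono φ ∧ (∀ i, G' i ≠ 0) ∧
      ∀ ψ : ℕ → ℕ, StrictMono ψ → ∀ (i : ι) (s x : ℕ → ℂ) (s' x' : ℂ),
        Tendsto s atTop (𝓝 s') → Tendsto x atTop (𝓝 x') →
        (∀ l, bev (s l) (x l) (G (φ (ψ l)) i) = 0) → bev s' x' (G' i) = 0 := by
  classical
  have hv : ∀ l i, Y8_v D (G l i) ≠ 0 := fun l i =>
    Y8_v_ne D _ (h l i).1 (h l i).2.1 (h l i).2.2
  have hcomp : IsCompact (Set.pi Set.univ
      (fun _ : ι => Metric.sphere (0 : Fin (D + 1) × Fin (D + 1) → ℂ) 1)) :=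
    isCompact_univ_pi (fun _ => isCompact_sphere _ _)
  obtain ⟨w, hw, φ, hφ, hlim⟩ := hcomp.tendsto_subseq
    (x := fun l i => ((‖Y8_v D (G l i)‖⁻¹ : ℝ) : ℂ) • Y8_v D (G l i))
    (fun l i _ => Y8_scale _ (hv l i))
  have hw0 : ∀ i, w i ≠ 0 := by
    intro i h0
    have h1 := hw i (Set.mem_univ i)
    rw [mem_sphere_zero_iff_norm, h0, norm_zero] at h1
    exact zero_ne_one h1
  refine ⟨φ, fun i => Y8_mk2 D (w i), hφ, ?_, ?_⟩
  · intro i h0
    have h0' : Y8_mk2 D (w i) = 0 := h0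
    apply hw0 i
    rw [← Y8_mk2_v D (w i), h0']
    funext q
    unfold Y8_v
    rw [Polynomial.coeff_zero, Polynomial.coeff_zero]
    rfl
  · intro ψ hψ i s x s' x' hs hx hz
    have h1 : Tendsto (fun l => ((‖Y8_v D (G (φ (ψ l)) i)‖⁻¹ : ℝ) : ℂ) •
        Y8_v D (G (φ (ψ l)) i)) atTop (𝓝 (w i)) :=
      ((tendsto_pi_nhds.1 hlim) i).comp hψ.tendsto_atTop
    have h2 : Tendsto (fun l => Y8_q D (((‖Y8_v D (G (φ (ψ l)) i)‖⁻¹ : ℝ) : ℂ) •
        Y8_v D (G (φ (ψ l)) i)) (s l) (x l)) atTop (𝓝 (Y8_q D (w i) s' x')) := by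
      have h2a := h1.prodMk_nhds (hs.prodMk_nhds hx)
      have h2b := (Y8_q_cont D).tendsto (w i, (s', x'))
      have h2c := h2b.comp h2a
      exact h2c
    have h3 : ∀ l, Y8_q D (((‖Y8_v D (G (φ (ψ l)) i)‖⁻¹ : ℝ) : ℂ) •
        Y8_v D (G (φ (ψ l)) i)) (s l) (x l) = 0 := by
      intro l
      have h4 := hz l
      rw [Y8_bev_q D _ (h _ i).2.1 (h _ i).2.2] at h4
      rw [Y8_q_smul, h4, mul_zero]
    simp only [h3] at h2
    have h5 : bev s' x' (Y8_mk2 D (w i)) = Y8_q D (w i) s' x' := by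
      rw [Y8_bev_q D (Y8_mk2 D (w i)) (Y8_deg D _) (Y8_mk2_deg D _), Y8_mk2_v]
    show bev s' x' (Y8_mk2 D (w i)) = 0
    rw [h5]
    exact tendsto_nhds_unique h2 tendsto_const_nhds

end XV
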