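import Mathlib

/-!
XV-Y9 (montel). A finite family of sequences of uniformly bounded holomorphic functions on a disc has a
subsequence which converges locally uniformly.

Proof. Taylor coefficients at the centre: `a l i k = iteratedDeriv k (g l i) z / k!`, by the Cauchy
estimate `‖a l i k‖ ≤ K / δ^k` (for every radius `< δ`, then pass to the limit; or use `δ'' < δ` and
bounds `K / δ''^k` with `δ''` between `δ'` and `δ`: take the bound `K / δ^k` by letting the radius tend
to `δ`). The product of the closed balls is compact (Tychonoff) and `ℕ × ι → ℂ` is first countable: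
`IsCompact.tendsto_subseq`. `G i s = ∑' k, a∞ i k (s - z)^k`; for `‖s - z‖ ≤ δ' < δ`
`‖g - G‖ ≤ ∑_{k < n} ‖a l i k - a∞ i k‖ δ'^k + 2 K (δ'/δ)^n / (1 - δ'/δ)`, uniformly small.
Differentiability of `G`: `TendstoLocallyUniformlyOn.differentiableOn`.
(Alternatively Arzela-Ascoli.) `ι` is finite.
-/

set_option autoImplicit false

namespace XV

open Filter Topology

theorem Y9_coeff {f : ℂ → ℂ} {z : ℂ} {δ K r : ℝ}
    (hf : DifferentiableOn ℂ f (Metric.ball z δ)) (hb : ∀ s ∈ Metric.ball z δ, ‖f s‖ ≤ K)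
    (hr : 0 < r) (hrδ : r < δ) (k : ℕ) :
    ‖(k.factorial : ℂ)⁻¹ * iteratedDeriv k f z‖ ≤ K / r ^ k := by
  have hsub : Metric.closedBall z r ⊆ Metric.ball z δ := Metric.closedBall_subset_ball hrδ
  have h := Complex.norm_iteratedDeriv_le_of_forall_mem_sphere_norm_le (c := z) (R := r) (C := K)
    (f := f) k hr
    ((hf.mono (Metric.closure_ball_subset_closedBall.trans hsub)).diffContOnCl)
    (fun s hs => hb s (hsub (Metric.sphere_subset_closedBall hs)))
  have hk : (0 : ℝ) < k.factorial := by exact_mod_cast k.factorial_pos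
  rw [norm_mul, norm_inv, Complex.norm_natCast]
  calc (k.factorial : ℝ)⁻¹ * ‖iteratedDeriv k f z‖
      ≤ (k.factorial : ℝ)⁻¹ * (k.factorial * K / r ^ k) := by gcongr
    _ = K / r ^ k := by field_simp

theorem montel {ι : Type*} [Finite ι] {z : ℂ} {δ K : ℝ} (hδ : 0 < δ) (g : ℕ → ι → ℂ → ℂ)
    (hg : ∀ l i, DifferentiableOn ℂ (g l i) (Metric.ball z δ))
    (hb : ∀ l i, ∀ s ∈ Metric.ball z δ, ‖g l i s‖ ≤ K) :
    ∃ (φ : ℕ → ℕ) (G : ι → ℂ → ℂ), StrictMono φ ∧
      (∀ i, DifferentiableOn ℂ (G i) (Metric.ball z δ)) ∧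
      ∀ i, ∀ δ' < δ, TendstoUniformlyOn (fun l => g (φ l) i) (G i) atTop
        (Metric.closedBall z δ') := by
  -- the Taylor coefficients
  obtain ⟨c, hc⟩ : ∃ c : ℕ → ι × ℕ → ℂ, ∀ l p,
      c l p = (p.2.factorial : ℂ)⁻¹ * iteratedDeriv p.2 (g l p.1) z := ⟨_, fun _ _ => rfl⟩
  have hcb : ∀ l i k, ∀ r, 0 < r → r < δ → ‖c l (i, k)‖ ≤ K / r ^ k := by
    intro l i k r hr hrδ
    rw [hc]
    exact Y9_coeff (hg l i) (hb l i) hr hrδ k
  obtain ⟨cc, hcc⟩ : ∃ cc : Set (ι × ℕ → ℂ), cc = Set.pi Set.univ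
      (fun p : ι × ℕ => Metric.closedBall (0 : ℂ) (K / (δ / 2) ^ p.2)) := ⟨_, rfl⟩
  have hcomp : IsCompact cc := by
    rw [hcc]
    exact isCompact_univ_pi fun p => isCompact_closedBall _ _
  have hmem : ∀ l, c l ∈ cc := by
    intro l
    rw [hcc]
    intro p _
    rw [mem_closedBall_zero_iff]
    exact hcb l p.1 p.2 (δ / 2) (by linarith) (by linarith)
  obtain ⟨b, _, φ, hφ, hlim⟩ := hcomp.tendsto_subseq hmem
  rw [tendsto_pi_nhds] at hlim
  have hbb : ∀ i k, ∀ r, 0 < r → r < δ → ‖b (i, k)‖ ≤ K / r ^ k := by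
    intro i k r hr hrδ
    exact le_of_tendsto (hlim (i, k)).norm (Eventually.of_forall fun l => hcb (φ l) i k r hr hrδ)
  have hunif : ∀ i, ∀ δ' < δ, TendstoUniformlyOn (fun l => g (φ l) i)
      (fun s => ∑' k, b (i, k) * (s - z) ^ k) atTop (Metric.closedBall z δ') := by
    intro i δ' hδ'
    by_cases h0 : δ' < 0
    · rw [Metric.closedBall_eq_empty.mpr h0]
      exact tendstoUniformlyOn_empty
    push Not at h0
    obtain ⟨r, hr1, hr2⟩ := exists_between hδ'
    have hr0 : 0 < r := lt_of_le_of_lt h0 hr1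
    have hK : 0 ≤ K := (norm_nonneg _).trans (hb 0 i z (Metric.mem_ball_self hδ))
    have hq0 : 0 ≤ δ' / r := div_nonneg h0 hr0.le
    have hq1 : δ' / r < 1 := (div_lt_one hr0).mpr hr1
    have hsg : Summable (fun k : ℕ => 2 * K * (δ' / r) ^ k) :=
      (summable_geometric_of_lt_one hq0 hq1).mul_left _
    have hterm : ∀ l k, ‖c (φ l) (i, k) - b (i, k)‖ * δ' ^ k ≤ 2 * K * (δ' / r) ^ k := by
      intro l k
      have h1 := hcb (φ l) i k r hr0 hr2
      have h2 := hbb i k r hr0 hr2
      have h3 := norm_sub_le (c (φ l) (i, k)) (b (i, k))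
      calc ‖c (φ l) (i, k) - b (i, k)‖ * δ' ^ k ≤ (2 * (K / r ^ k)) * δ' ^ k := by
            gcongr
            linarith
        _ = 2 * K * (δ' / r) ^ k := by
            rw [div_pow]
            ring
    have hE : Tendsto (fun l => ∑' k, ‖c (φ l) (i, k) - b (i, k)‖ * δ' ^ k) atTop (𝓝 0) := by
      have h := tendsto_tsum_of_dominated_convergence (𝓕 := atTop)
        (f := fun l k => ‖c (φ l) (i, k) - b (i, k)‖ * δ' ^ k) (g := fun _ : ℕ => (0 : ℝ)) hsg
        (fun k => by
          have h1 := ((hlim (i, k)).sub_const (b (i, k))).norm.mul_const (δ' ^ k)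
          simpa using h1)
        (Eventually.of_forall fun l k => by
          rw [Real.norm_of_nonneg (by positivity)]
          exact hterm l k)
      simpa using h
    rw [Metric.tendstoUniformlyOn_iff]
    intro ε hε
    filter_upwards [hE.eventually_lt_const hε] with l hl s hs
    have hsd : ‖s - z‖ ≤ δ' := by
      rwa [Metric.mem_closedBall, dist_eq_norm] at hs
    have hsb : s ∈ Metric.ball z δ := Metric.closedBall_subset_ball hδ' hs
    have hS1 : HasSum (fun k => c (φ l) (i, k) * (s - z) ^ k) (g (φ l) i s) := by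
      have h := Complex.hasSum_taylorSeries_on_ball (hg (φ l) i) hsb
      have e : (fun k => c (φ l) (i, k) * (s - z) ^ k) = fun n : ℕ =>
          (n.factorial : ℂ)⁻¹ • (s - z) ^ n • iteratedDeriv n (g (φ l) i) z := by
        funext k
        rw [hc, smul_eq_mul, smul_eq_mul]
        ring
      rw [e]
      exact h
    have hS2 : Summable (fun k => b (i, k) * (s - z) ^ k) := by
      refine Summable.of_norm_bounded (g := fun k => K * (δ' / r) ^ k)
        ((summable_geometric_of_lt_one hq0 hq1).mul_left _) fun k => ?_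
      rw [norm_mul, norm_pow]
      calc ‖b (i, k)‖ * ‖s - z‖ ^ k ≤ K / r ^ k * δ' ^ k := by
            have := hbb i k r hr0 hr2
            gcongr
        _ = K * (δ' / r) ^ k := by
            rw [div_pow]
            ring
    have hS3 : Summable (fun k => ‖c (φ l) (i, k) - b (i, k)‖ * δ' ^ k) :=
      Summable.of_nonneg_of_le (fun k => by positivity) (hterm l) hsg
    rw [dist_comm, dist_eq_norm, ← hS1.tsum_eq, ← hS1.summable.tsum_sub hS2]
    refine lt_of_le_of_lt ?_ hl
    refine tsum_of_norm_bounded hS3.hasSum fun k => ?_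
    rw [← sub_mul, norm_mul, norm_pow]
    gcongr
  refine ⟨φ, fun i s => ∑' k, b (i, k) * (s - z) ^ k, hφ, fun i => ?_, hunif⟩
  have hloc : TendstoLocallyUniformlyOn (fun l => g (φ l) i)
      (fun s => ∑' k, b (i, k) * (s - z) ^ k) atTop (Metric.ball z δ) := by
    intro u hu x hx
    obtain ⟨r, hr1, hr2⟩ := exists_between (Metric.mem_ball.mp hx)
    refine ⟨Metric.closedBall z r, mem_nhdsWithin_of_mem_nhds
      (Filter.mem_of_superset (Metric.isOpen_ball.mem_nhds (Metric.mem_ball.mpr hr1))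
        Metric.ball_subset_closedBall), hunif i r hr2 u hu⟩
  exact hloc.differentiableOn (Eventually.of_forall fun l => hg (φ l) i) Metric.isOpen_ball

end XV
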