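import Pool.Agent.Lib.MP_228259_lc.V.Y6b
import Pool.Agent.Lib.MP_228259_lc.V.Y7
import Pool.Agent.Lib.MP_228259_lc.V.Y8
import Pool.Agent.Lib.MP_228259_lc.V.Y9
import Pool.Agent.Lib.MP_228259_lc.V.Y10b

/-!
XV-Y11 (esc). The compactness theorem for normalised sequences of curves.

Proof. (1) `poly_limit` for `Δ l` and `rel_limit` for `G l` (composition of subsequences; `NSeq` is
stable under subsequences), then `cluster`: `ρ`, `p`. Shrink `ρ` so that `F` (from `poly_limit`) does not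
meet `{0 < ‖f - 1‖ ≤ ρ}` (`LC` on a smaller ball follows). `U l = ball 1 ρ ∩ {Δ l ≠ 0}`,
`Fam (χ l) (U l) m` (`Crv_fam`), `g l f θ = ∑ i, μ i * Complex.log (X l i (f, θ))`: `Hol` with respect to
`p l`, because `‖X i - 1‖ ≤ 1/2` (slit plane; `Crv_hol`). `annulus_esc`: `hU` from `poly_limit` for the
compact `{ρ₁ ≤ ‖f - 1‖ ≤ ρ}`; `hne`: `U l = ball 1 ρ \ finite` is preconnected (`ball_diff_finite`), so the
number of sheets with `p` is constant (`sym_card`), and `θ₀ l` is one over `f = 1`; `hsmall` from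
`cluster` (`‖log (1 + w)‖ ≤ 2 ‖w‖` for `‖w‖ ≤ 1/2`).
(2) From `ρ₁ ≤ ρ₂ < ρ` and the frequently statement with `η = 1/(k+1)`: a strictly increasing sequence
`l_k`, points `f_k` with `ρ₁ ≤ ‖f_k - 1‖ ≤ ρ₂`, roots `θ_k` with `p` and `|Re g| < 1/(k+1)`; pass to a
subsequence with `f_k → σ`. Choose `δ` with `closedBall σ (3 δ) ⊆ {0 < ‖f - 1‖ < ρ}`; `c` from
`poly_limit` for this compact set. For large `k`: `f_k ∈ ball σ δ`; `cov_branch` over `ball σ (3 δ)` through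
`(f_k, θ_k)` gives `θ k`; `p` holds along it (`LC`, `Br`). `lam k i s = Complex.log (X i (s, θ k s))`,
holomorphic, `‖lam‖ ≤ 1` (`‖X i - 1‖ ≤ 1/2`), `exp lam = X i`. `montel`: a subsequence converges to
`Lam i`, uniformly on `closedBall σ (2 δ)`; `Λ = ∑ μ_i Lam_i`. `Re Λ(σ) = 0` : `Re (∑ μ_i lam k i (f_k))`
tends to `0` and to `Re Λ(σ)` (uniform convergence and `f_k → σ`). Not locally constant: `nonconst` for
`Lam i` on `ball σ δ`: `bev s (exp (Lam i s)) (G' i) = 0` by `rel_limit` (`s` constant,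
`X i (s, θ k s) → exp (Lam i s)`, `Crv.rel`), `∏ exp (Lam i s)^(M i) = s` by `Crv.prod`.
Dropping finitely many terms makes everything true for all `l`.
-/

set_option autoImplicit false

namespace XV

open Filter Topology

private theorem Y11_NSeq {r : ℕ} {M : Fin (r + 1) → ℕ} {D m : ℕ} {Δ : ℕ → Polynomial ℂ}
    {χ : ℕ → ℂ → Polynomial ℂ} {X : ℕ → Fin (r + 1) → ℂ × ℂ → ℂ}
    {R G : ℕ → Fin (r + 1) → Polynomial (Polynomial ℂ)} {θ₀ : ℕ → ℂ}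
    (h : NSeq M D m Δ χ X R G θ₀) (φ : ℕ → ℕ) :
    NSeq M D m (fun l => Δ (φ l)) (fun l => χ (φ l)) (fun l => X (φ l)) (fun l => R (φ l))
      (fun l => G (φ l)) (fun l => θ₀ (φ l)) :=
  ⟨fun l => h.crv (φ l), fun l => h.good (φ l), fun l => h.root (φ l), fun l => h.one (φ l)⟩

private theorem Y11_LC {χ : ℂ → Polynomial ℂ} {U U' : Set ℂ} {p : ℂ → ℂ → Prop}
    (h : LC χ U p) (hU : U' ⊆ U) : LC χ U' p :=
  fun z ρ θ hB => h z ρ θ ⟨hB.sub.trans hU, hB.diff, hB.root⟩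

/-- the norm of the logarithm near `1` -/
private theorem Y11_log {x : ℂ} (hx : ‖x - 1‖ ≤ 1 / 2) :
    ‖Complex.log x‖ ≤ 3 / 2 * ‖x - 1‖ ∧ x ∈ Complex.slitPlane ∧ x ≠ 0 := by
  have h1 : x = 1 + (x - 1) := by ring
  have h2 := Complex.norm_log_one_add_half_le_self hx
  rw [← h1] at h2
  have h3 : x ∈ Complex.slitPlane := by
    rw [h1]
    exact Complex.mem_slitPlane_of_norm_lt_one (by linarith)
  exact ⟨h2, h3, Complex.slitPlane_ne_zero h3⟩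

private theorem Y11_sum {r : ℕ} (μ : Fin r → ℝ) (x y : Fin r → ℂ) {ε : ℝ} (hε : 0 < ε)
    (h : ∀ i, ‖x i - y i‖ ≤ ε / (∑ i, |μ i| + 1)) :
    ‖∑ i, (μ i : ℂ) * x i - ∑ i, (μ i : ℂ) * y i‖ < ε := by
  have hS : 0 ≤ ∑ i, |μ i| := Finset.sum_nonneg fun i _ => abs_nonneg _
  rw [← Finset.sum_sub_distrib]
  calc ‖∑ i, ((μ i : ℂ) * x i - (μ i : ℂ) * y i)‖
      ≤ ∑ i, ‖(μ i : ℂ) * x i - (μ i : ℂ) * y i‖ := norm_sum_le _ _
    _ ≤ ∑ i, |μ i| * (ε / (∑ i, |μ i| + 1)) := by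
        refine Finset.sum_le_sum fun i _ => ?_
        rw [← mul_sub, norm_mul, Complex.norm_real, Real.norm_eq_abs]
        exact mul_le_mul_of_nonneg_left (h i) (abs_nonneg _)
    _ = (∑ i, |μ i|) * (ε / (∑ i, |μ i| + 1)) := by rw [Finset.sum_mul]
    _ < ε := by
        rw [← mul_div_assoc, div_lt_iff₀ (by linarith)]
        nlinarith

/-- the cluster has a sheet over every point -/
private theorem Y11_ne {r : ℕ} {M : Fin (r + 1) → ℕ} {D m : ℕ} {Δ : Polynomial ℂ}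
    {χ : ℂ → Polynomial ℂ} {X : Fin (r + 1) → ℂ × ℂ → ℂ}
    {R G : Fin (r + 1) → Polynomial (Polynomial ℂ)} (hC : Crv M D m Δ χ X R G)
    (hg : Δ.eval 1 ≠ 0) {θ₀ : ℂ} (hθ : (χ 1).eval θ₀ = 0) {p : ℂ → ℂ → Prop} (hp1 : p 1 θ₀)
    {ρ : ℝ} (hρ : 0 < ρ) (hp : LC χ (Metric.ball 1 ρ ∩ {f | Δ.eval f ≠ 0}) p) :
    ∀ f ∈ Metric.ball (1 : ℂ) ρ ∩ {f | Δ.eval f ≠ 0}, ∃ θ : ℂ, (χ f).eval θ = 0 ∧ p f θ := by
  intro f hf
  have hopen : IsOpen (Metric.ball (1 : ℂ) ρ ∩ {f | Δ.eval f ≠ 0}) :=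
    Metric.isOpen_ball.inter (isOpen_ne_fun Δ.continuous continuous_const)
  obtain ⟨hF, hfin⟩ := Crv_fam hC hopen (fun f hf => hf.2)
  have e : Metric.ball (1 : ℂ) ρ ∩ {f | Δ.eval f ≠ 0} = Metric.ball 1 ρ \ {f | Δ.eval f = 0} := by
    ext x
    simp
  have hpre : IsPreconnected (Metric.ball (1 : ℂ) ρ ∩ {f | Δ.eval f ≠ 0}) := by
    rw [e]
    exact ball_diff_finite 1 ρ hfin
  have h1 : (1 : ℂ) ∈ Metric.ball (1 : ℂ) ρ ∩ {f | Δ.eval f ≠ 0} :=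
    ⟨Metric.mem_ball_self hρ, hg⟩
  have hcard := sym_card hF hp subset_rfl hpre 1 h1 f hf
  have hm1 : θ₀ ∈ shts χ p 1 := (mem_shts (hC.monic 1).1 θ₀).2 ⟨hθ, hp1⟩
  have hpos : 0 < (shts χ p f).card := by
    rw [← hcard]
    exact Finset.card_pos.2 ⟨θ₀, hm1⟩
  obtain ⟨θ, hθ'⟩ := Finset.card_pos.1 hpos
  exact ⟨θ, (mem_shts (hC.monic f).1 θ).1 hθ'⟩

/-- the function `g` is holomorphic along the sheets of the cluster -/
private theorem Y11_hol {r : ℕ} {M : Fin (r + 1) → ℕ} {D m : ℕ} {Δ : Polynomial ℂ}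
    {χ : ℂ → Polynomial ℂ} {X : Fin (r + 1) → ℂ × ℂ → ℂ}
    {R G : Fin (r + 1) → Polynomial (Polynomial ℂ)} (hC : Crv M D m Δ χ X R G)
    {U : Set ℂ} (hU : ∀ f ∈ U, Δ.eval f ≠ 0) {p : ℂ → ℂ → Prop}
    (hX : ∀ f θ, p f θ → ∀ i, ‖X i (f, θ) - 1‖ ≤ 1 / 2) {z : ℂ} {ρ : ℝ} {θ : ℂ → ℂ}
    (hB : Br χ U z ρ θ) (hp : ∀ f ∈ Metric.ball z ρ, p f (θ f)) (i : Fin (r + 1)) :
    DifferentiableOn ℂ (fun f => Complex.log (X i (f, θ f))) (Metric.ball z ρ) ∧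
      ∀ f ∈ Metric.ball z ρ, ‖Complex.log (X i (f, θ f))‖ ≤ 1 ∧
        Complex.exp (Complex.log (X i (f, θ f))) = X i (f, θ f) := by
  refine ⟨fun f hf => ?_, fun f hf => ?_⟩
  · exact ((Crv_hol hC hU hB i).1 f hf).clog (Y11_log (hX f (θ f) (hp f hf) i)).2.1
  · have h1 := hX f (θ f) (hp f hf) i
    have h2 := Y11_log h1
    exact ⟨by linarith [h2.1], Complex.exp_log h2.2.2⟩

/-- a point of the cluster near the base point has small `g` -/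
private theorem Y11_small {r : ℕ} (μ : Fin r → ℝ) {η : ℝ} (hη : 0 < η) :
    ∃ ε : ℝ, 0 < ε ∧ ε ≤ 1 / 2 ∧ ∀ x : Fin r → ℂ, (∀ i, ‖x i - 1‖ < ε) →
      ‖∑ i, (μ i : ℂ) * Complex.log (x i)‖ < η := by
  have hS : 0 ≤ ∑ i, |μ i| := Finset.sum_nonneg fun i _ => abs_nonneg _
  refine ⟨min (1 / 2) (2 / 3 * (η / (∑ i, |μ i| + 1))), ?_, min_le_left _ _, ?_⟩
  · have : 0 < η / (∑ i, |μ i| + 1) := div_pos hη (by linarith)
    exact lt_min (by norm_num) (by linarith)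
  · intro x hx
    have h1 := Y11_sum μ (fun i => Complex.log (x i)) (fun _ => 0) hη (fun i => ?_)
    · simpa using h1
    · have h2 := lt_min_iff.1 (hx i)
      have h3 := (Y11_log h2.1.le).1
      rw [sub_zero]
      linarith [h2.2]

private theorem Y11_annulus (a b : ℝ) :
    IsCompact {f : ℂ | a ≤ ‖f - 1‖ ∧ ‖f - 1‖ ≤ b} := by
  refine Metric.isCompact_of_isClosed_isBounded ?_ ?_
  · have h1 : Continuous (fun f : ℂ => ‖f - 1‖) := (continuous_id.sub continuous_const).norm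
    exact (isClosed_le continuous_const h1).inter (isClosed_le h1 continuous_const)
  · refine (Metric.isBounded_closedBall (x := (1 : ℂ)) (r := b)).subset ?_
    intro f hf
    rw [Metric.mem_closedBall, dist_eq_norm]
    exact hf.2

/-- points of an annulus of the cluster, with all the data needed below -/
private theorem Y11_points {r : ℕ} {M : Fin (r + 1) → ℕ} (hM : M 0 = 1) {D m : ℕ}
    (μ : Fin (r + 1) → ℝ) {Δ : ℕ → Polynomial ℂ}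
    {χ : ℕ → ℂ → Polynomial ℂ} {X : ℕ → Fin (r + 1) → ℂ × ℂ → ℂ}
    {R G : ℕ → Fin (r + 1) → Polynomial (Polynomial ℂ)} {θ₀ : ℕ → ℂ}
    (h : NSeq M D m Δ χ X R G θ₀) :
    ∃ (φ : ℕ → ℕ) (ρ : ℝ) (p : ℕ → ℂ → ℂ → Prop) (σ : ℂ) (f t : ℕ → ℂ)
      (G' : Fin (r + 1) → Polynomial (Polynomial ℂ)), StrictMono φ ∧ 0 < ρ ∧ ρ ≤ 1 / 4 ∧
      0 < ‖σ - 1‖ ∧ ‖σ - 1‖ < ρ ∧ Tendsto f atTop (𝓝 σ) ∧
      (∀ l, LC (χ (φ l)) (Metric.ball 1 ρ ∩ {f | (Δ (φ l)).eval f ≠ 0}) (p l)) ∧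
      (∀ l f θ, p l f θ → ∀ i, ‖X (φ l) i (f, θ) - 1‖ ≤ 1 / 2) ∧
      (∀ l, (χ (φ l) (f l)).eval (t l) = 0 ∧ p l (f l) (t l)) ∧
      Tendsto (fun l => (∑ i, (μ i : ℂ) * Complex.log (X (φ l) i (f l, t l))).re) atTop
        (𝓝 0) ∧
      (∀ K : Set ℂ, IsCompact K → (∀ s ∈ K, 0 < ‖s - 1‖ ∧ ‖s - 1‖ < ρ) → ∃ c : ℝ, 0 < c ∧
        ∀ᶠ l in atTop, ∀ s ∈ K, ∀ k, c * ‖(Δ (φ l)).coeff k‖ ≤ ‖(Δ (φ l)).eval s‖) ∧
      (∀ i, G' i ≠ 0) ∧
      (∀ ψ : ℕ → ℕ, StrictMono ψ → ∀ (i : Fin (r + 1)) (s x : ℕ → ℂ) (s' x' : ℂ),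
        Tendsto s atTop (𝓝 s') → Tendsto x atTop (𝓝 x') →
        (∀ l, bev (s l) (x l) (G (φ (ψ l)) i) = 0) → bev s' x' (G' i) = 0) := by
  obtain ⟨φ₁, F, hφ₁, hF, hpoly⟩ := poly_limit D Δ (fun l => ⟨(h.crv l).ne, (h.crv l).deg⟩)
  obtain ⟨φ₂, G', hφ₂, hG', hrel⟩ := rel_limit D (fun l => G (φ₁ l))
    (fun l i => (h.crv (φ₁ l)).gdeg i)
  obtain ⟨φ₃, ρ₀, p, hφ₃, hρ₀, hρ₀4, hLC, hp1, hpX, hpη⟩ :=
    cluster hM (Y11_NSeq h (fun l => φ₁ (φ₂ l)))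
  -- shrink the radius
  obtain ⟨ρ, hρ, hρρ₀, hρF⟩ : ∃ ρ : ℝ, 0 < ρ ∧ ρ ≤ ρ₀ ∧ ∀ f ∈ F, f ≠ 1 → ρ < ‖f - 1‖ := by
    have h1 : IsClosed (F \ {1}) := (hF.subset Set.sdiff_subset).isClosed
    have h2 : (F \ {1})ᶜ ∈ 𝓝 (1 : ℂ) := h1.isOpen_compl.mem_nhds (by simp)
    obtain ⟨ε, hε, hεs⟩ := Metric.mem_nhds_iff.1 h2
    refine ⟨min ρ₀ (ε / 2), lt_min hρ₀ (by linarith), min_le_left _ _, fun f hf hf1 => ?_⟩
    by_contra hcon
    push Not at hcon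
    have h3 : f ∈ Metric.ball (1 : ℂ) ε := by
      rw [Metric.mem_ball, dist_eq_norm]
      have := min_le_right ρ₀ (ε / 2)
      linarith
    exact hεs h3 ⟨hf, hf1⟩
  have hρ4 : ρ ≤ 1 / 4 := hρρ₀.trans hρ₀4
  obtain ⟨φ, hφ⟩ : ∃ φ : ℕ → ℕ, φ = fun l => φ₁ (φ₂ (φ₃ l)) := ⟨_, rfl⟩
  have hφm : StrictMono φ := by
    rw [hφ]
    exact hφ₁.comp (hφ₂.comp hφ₃)
  have h23 : Tendsto (fun l => φ₂ (φ₃ l)) atTop atTop :=
    (hφ₂.comp hφ₃).tendsto_atTop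
  have hLC' : ∀ l, LC (χ (φ l)) (Metric.ball 1 ρ ∩ {f | (Δ (φ l)).eval f ≠ 0}) (p l) := by
    intro l
    have h1 := hLC l
    rw [hφ]
    exact Y11_LC h1 (Set.inter_subset_inter_left _ (Metric.ball_subset_ball hρρ₀))
  have hpX' : ∀ l f θ, p l f θ → ∀ i, ‖X (φ l) i (f, θ) - 1‖ ≤ 1 / 2 := by
    intro l
    rw [hφ]
    exact hpX l
  have hpη' : ∀ η : ℝ, 0 < η → ∃ ρ' : ℝ, 0 < ρ' ∧ ∀ᶠ l in atTop, ∀ f : ℂ, ‖f - 1‖ < ρ' →
        (Δ (φ l)).eval f ≠ 0 → ∀ θ : ℂ, (χ (φ l) f).eval θ = 0 → p l f θ →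
        ∀ i, ‖X (φ l) i (f, θ) - 1‖ < η := by
    rw [hφ]
    exact hpη
  have hK : ∀ K : Set ℂ, IsCompact K → (∀ s ∈ K, 0 < ‖s - 1‖ ∧ ‖s - 1‖ ≤ ρ) → ∃ c : ℝ, 0 < c ∧
      ∀ᶠ l in atTop, ∀ s ∈ K, ∀ k, c * ‖(Δ (φ l)).coeff k‖ ≤ ‖(Δ (φ l)).eval s‖ := by
    intro K hKc hKs
    have hd : Disjoint K F := by
      rw [Set.disjoint_left]
      intro s hs hsF
      have h1 := hKs s hs
      have h2 : s ≠ 1 := by
        rintro rfl
        simp at h1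
      linarith [hρF s hsF h2, h1.2]
    obtain ⟨c, hc, hev⟩ := hpoly K hKc hd
    refine ⟨c, hc, ?_⟩
    rw [hφ]
    exact h23.eventually hev
  -- the cluster on the punctured ball
  obtain ⟨ρ₁, ρ₂, hρ₁, hρ₁₂, hρ₂, hfreq⟩ := annulus_esc (m := m) hρ (fun l => χ (φ l))
    (fun l => Metric.ball 1 ρ ∩ {f | (Δ (φ l)).eval f ≠ 0}) p
    (fun l f θ => ∑ i, (μ i : ℂ) * Complex.log (X (φ l) i (f, θ)))
    (fun l => (Crv_fam (h.crv (φ l)) (Metric.isOpen_ball.inter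
      (isOpen_ne_fun (Δ (φ l)).continuous continuous_const)) (fun f hf => hf.2)).1)
    hLC'
    (by
      intro l z ρ' θ hB hp
      refine DifferentiableOn.fun_sum fun i _ => ?_
      exact (Y11_hol (h.crv (φ l)) (fun f hf => hf.2) (hpX' l) hB hp i).1.const_mul _)
    (by
      intro ρ₁ hρ₁
      have hKc := Y11_annulus ρ₁ ρ
      obtain ⟨c, hc, hev⟩ := hK _ hKc (fun s hs => ⟨by linarith [hs.1], hs.2⟩)
      filter_upwards [hev] with l hl f hf1 hf2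
      refine ⟨?_, ?_⟩
      · rw [Metric.mem_ball, dist_eq_norm]
        exact hf2
      · intro h0
        have h1 := hl f ⟨hf1, hf2.le⟩
        refine (h.crv (φ l)).ne (Polynomial.ext fun k => ?_)
        have h2 := h1 k
        rw [h0, norm_zero] at h2
        have h3 : ‖(Δ (φ l)).coeff k‖ ≤ 0 := by
          by_contra hcon
          push Not at hcon
          nlinarith
        rw [Polynomial.coeff_zero]
        exact norm_le_zero_iff.1 h3)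
    (by
      refine Eventually.of_forall fun l f hf _ => ?_
      refine Y11_ne (h.crv (φ l)) (h.good (φ l)) (h.root (φ l)) ?_ hρ (hLC' l) f hf
      have := hp1 l
      rw [hφ]
      exact this)
    (by
      intro η hη
      obtain ⟨ε, hε, hε2, hεs⟩ := Y11_small μ hη
      obtain ⟨ρ', hρ', hev⟩ := hpη' ε hε
      refine ⟨ρ', hρ', ?_⟩
      filter_upwards [hev] with l hl f hf hf1 θ hθ hpθ
      exact hεs _ (hl f hf1 hf.2 θ hθ hpθ))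
  -- extract a sequence
  obtain ⟨ψ, hψ, hψP⟩ := extraction_forall_of_frequently
    (P := fun n l => ∃ f θ : ℂ, ρ₁ ≤ ‖f - 1‖ ∧ ‖f - 1‖ ≤ ρ₂ ∧ (χ (φ l) f).eval θ = 0 ∧
      p l f θ ∧ |(∑ i, (μ i : ℂ) * Complex.log (X (φ l) i (f, θ))).re| < 1 / ((n : ℝ) + 1))
    (fun n => hfreq (1 / ((n : ℝ) + 1)) (by positivity))
  choose f t hf1 hf2 hft hpt hre using hψP
  have hKc := Y11_annulus ρ₁ ρ₂
  obtain ⟨σ, hσ, ψ₂, hψ₂, hlim⟩ := hKc.tendsto_subseq (x := f) (fun n => ⟨hf1 n, hf2 n⟩)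
  refine ⟨fun l => φ (ψ (ψ₂ l)), ρ, fun l => p (ψ (ψ₂ l)), σ, fun l => f (ψ₂ l),
    fun l => t (ψ₂ l), G', hφm.comp (hψ.comp hψ₂), hρ, hρ4, by linarith [hσ.1],
    by linarith [hσ.2], hlim, fun l => hLC' _, fun l => hpX' _, fun l => ⟨hft _, hpt _⟩, ?_, ?_,
    hG', ?_⟩
  · refine squeeze_zero_norm (a := fun l => 1 / ((ψ₂ l : ℝ) + 1)) (fun l => ?_) ?_
    · rw [Real.norm_eq_abs]
      exact (hre (ψ₂ l)).le
    · exact tendsto_one_div_add_atTop_nhds_zero_nat.comp hψ₂.tendsto_atTop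
  · intro K hKc hKs
    obtain ⟨c, hc, hev⟩ := hK K hKc (fun s hs => ⟨(hKs s hs).1, (hKs s hs).2.le⟩)
    exact ⟨c, hc, (hψ.comp hψ₂).tendsto_atTop.eventually hev⟩
  · intro ψ₃ hψ₃ i s x s' x' hs hx hb
    refine hrel (fun l => φ₃ (ψ (ψ₂ (ψ₃ l)))) (hφ₃.comp (hψ.comp (hψ₂.comp hψ₃))) i s x s' x'
      hs hx (fun l => ?_)
    have := hb l
    rw [hφ] at this
    exact this

/-- branches through the points of the cluster over a fixed ball, with their logarithms -/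
private theorem Y11_branches {r : ℕ} {M : Fin (r + 1) → ℕ} (hM : M 0 = 1) {D m : ℕ}
    (μ : Fin (r + 1) → ℝ) {Δ : ℕ → Polynomial ℂ}
    {χ : ℕ → ℂ → Polynomial ℂ} {X : ℕ → Fin (r + 1) → ℂ × ℂ → ℂ}
    {R G : ℕ → Fin (r + 1) → Polynomial (Polynomial ℂ)} {θ₀ : ℕ → ℂ}
    (h : NSeq M D m Δ χ X R G θ₀) :
    ∃ (φ : ℕ → ℕ) (σ : ℂ) (δ c : ℝ) (f : ℕ → ℂ) (θ : ℕ → ℂ → ℂ)
      (lam : ℕ → Fin (r + 1) → ℂ → ℂ)
      (G' : Fin (r + 1) → Polynomial (Polynomial ℂ)), StrictMono φ ∧ 0 < δ ∧ 0 < c ∧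
      (∀ s ∈ Metric.ball σ (2 * δ), ‖s - 1‖ < 1 / 2) ∧ Tendsto f atTop (𝓝 σ) ∧
      (∀ l, DifferentiableOn ℂ (θ l) (Metric.ball σ (2 * δ))) ∧
      (∀ l, ∀ s ∈ Metric.ball σ (2 * δ),
        (∀ k, c * ‖(Δ (φ l)).coeff k‖ ≤ ‖(Δ (φ l)).eval s‖) ∧
        (χ (φ l) s).eval (θ l s) = 0 ∧
        ∀ i, Complex.exp (lam l i s) = X (φ l) i (s, θ l s)) ∧
      (∀ l i, DifferentiableOn ℂ (lam l i) (Metric.ball σ (2 * δ))) ∧
      (∀ l i, ∀ s ∈ Metric.ball σ (2 * δ), ‖lam l i s‖ ≤ 1) ∧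
      Tendsto (fun l => (∑ i, (μ i : ℂ) * lam l i (f l)).re) atTop (𝓝 0) ∧
      (∀ i, G' i ≠ 0) ∧
      (∀ ψ : ℕ → ℕ, StrictMono ψ → ∀ (i : Fin (r + 1)) (s x : ℕ → ℂ) (s' x' : ℂ),
        Tendsto s atTop (𝓝 s') → Tendsto x atTop (𝓝 x') →
        (∀ l, bev (s l) (x l) (G (φ (ψ l)) i) = 0) → bev s' x' (G' i) = 0) := by
  obtain ⟨φ, ρ, p, σ, f, t, G', hφ, hρ, hρ4, hσ1, hσρ, hf, hLC, hpX, hft, hre, hK, hG', hrel⟩ :=
    Y11_points hM μ h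
  obtain ⟨δ, hδ, hδ1, hδ2⟩ : ∃ δ : ℝ, 0 < δ ∧ 2 * δ < ‖σ - 1‖ ∧ ‖σ - 1‖ + 2 * δ < ρ := by
    refine ⟨min ‖σ - 1‖ (ρ - ‖σ - 1‖) / 4, ?_, ?_, ?_⟩
    · have := lt_min hσ1 (by linarith : 0 < ρ - ‖σ - 1‖)
      linarith
    · have := min_le_left ‖σ - 1‖ (ρ - ‖σ - 1‖)
      have := lt_min hσ1 (by linarith : 0 < ρ - ‖σ - 1‖)
      linarith
    · have := min_le_right ‖σ - 1‖ (ρ - ‖σ - 1‖)
      have := lt_min hσ1 (by linarith : 0 < ρ - ‖σ - 1‖)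
      linarith
  have hball : ∀ s ∈ Metric.closedBall σ (2 * δ), 0 < ‖s - 1‖ ∧ ‖s - 1‖ < ρ := by
    intro s hs
    rw [Metric.mem_closedBall, dist_eq_norm] at hs
    have h1 : ‖σ - 1‖ ≤ ‖s - σ‖ + ‖s - 1‖ := by
      have : σ - 1 = -(s - σ) + (s - 1) := by ring
      calc ‖σ - 1‖ = ‖-(s - σ) + (s - 1)‖ := by rw [← this]
        _ ≤ ‖-(s - σ)‖ + ‖s - 1‖ := norm_add_le _ _
        _ = _ := by rw [norm_neg]
    have h2 : ‖s - 1‖ ≤ ‖s - σ‖ + ‖σ - 1‖ := by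
      have : s - 1 = (s - σ) + (σ - 1) := by ring
      calc ‖s - 1‖ = ‖(s - σ) + (σ - 1)‖ := by rw [← this]
        _ ≤ _ := norm_add_le _ _
    exact ⟨by linarith, by linarith⟩
  obtain ⟨c, hc, hev⟩ := hK _ (isCompact_closedBall σ (2 * δ)) hball
  have hev2 : ∀ᶠ l in atTop, f l ∈ Metric.ball σ (2 * δ) :=
    hf (Metric.ball_mem_nhds σ (by linarith))
  obtain ⟨N, hN⟩ := eventually_atTop.1 (hev.and hev2)
  -- the zeros of `Δ` avoid the ball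
  have hΔ : ∀ l, ∀ s ∈ Metric.ball σ (2 * δ), (Δ (φ (l + N))).eval s ≠ 0 := by
    intro l s hs h0
    have h1 := (hN (l + N) (by omega)).1 s (Metric.ball_subset_closedBall hs)
    refine (h.crv (φ (l + N))).ne (Polynomial.ext fun k => ?_)
    have h2 := h1 k
    rw [h0, norm_zero] at h2
    have h3 : ‖(Δ (φ (l + N))).coeff k‖ ≤ 0 := by
      by_contra hcon
      push Not at hcon
      nlinarith
    rw [Polynomial.coeff_zero]
    exact norm_le_zero_iff.1 h3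
  have hsub : ∀ l, Metric.ball σ (2 * δ) ⊆
      Metric.ball 1 ρ ∩ {f | (Δ (φ (l + N))).eval f ≠ 0} := by
    intro l s hs
    refine ⟨?_, hΔ l s hs⟩
    rw [Metric.mem_ball, dist_eq_norm]
    exact (hball s (Metric.ball_subset_closedBall hs)).2
  have hbr : ∀ l, ∃ θ : ℂ → ℂ, Br (χ (φ (l + N)))
      (Metric.ball 1 ρ ∩ {f | (Δ (φ (l + N))).eval f ≠ 0}) σ (2 * δ) θ ∧
      θ (f (l + N)) = t (l + N) := by
    intro l
    have hC := h.crv (φ (l + N))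
    obtain ⟨θ, h1, h2, h3⟩ := cov_branch (U := Metric.ball σ (2 * δ)) Metric.isOpen_ball
      (convex_ball σ (2 * δ)) (χ (φ (l + N))) m (fun u _ => hC.monic u)
      (fun i => (hC.coeff i).differentiableOn)
      (fun u hu θ hθ => hC.simple u θ (hΔ l u hu) hθ)
      (hN (l + N) (by omega)).2 (hft (l + N)).1
    exact ⟨θ, ⟨hsub l, h1, h3⟩, h2⟩
  choose θ hθ hθt using hbr
  have hpθ : ∀ l, ∀ s ∈ Metric.ball σ (2 * δ), p (l + N) s (θ l s) := by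
    intro l s hs
    refine hLC (l + N) σ (2 * δ) (θ l) (hθ l) (f (l + N)) (hN (l + N) (by omega)).2 s hs ?_
    rw [hθt]
    exact (hft (l + N)).2
  have hhol := fun l i => Y11_hol (h.crv (φ (l + N))) (U := Metric.ball 1 ρ ∩
    {f | (Δ (φ (l + N))).eval f ≠ 0}) (fun f hf => hf.2) (hpX (l + N)) (hθ l) (hpθ l) i
  have hshift : StrictMono (fun l : ℕ => l + N) := fun a b hab => Nat.add_lt_add_right hab N
  refine ⟨fun l => φ (l + N), σ, δ, c, fun l => f (l + N), θ,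
    fun l i s => Complex.log (X (φ (l + N)) i (s, θ l s)), G', hφ.comp hshift, hδ, hc, ?_,
    hf.comp hshift.tendsto_atTop, fun l => (hθ l).diff, ?_, fun l i => (hhol l i).1,
    fun l i s hs => ((hhol l i).2 s hs).1, ?_, hG', ?_⟩
  · intro s hs
    have := (hball s (Metric.ball_subset_closedBall hs)).2
    linarith
  · intro l s hs
    exact ⟨(hN (l + N) (by omega)).1 s (Metric.ball_subset_closedBall hs), (hθ l).root s hs,
      fun i => ((hhol l i).2 s hs).2⟩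
  · have h1 := hre.comp hshift.tendsto_atTop
    refine h1.congr fun l => ?_
    simp only [Function.comp, hθt]
  · intro ψ hψ i s x s' x' hs hx hb
    exact hrel (fun l => ψ l + N) (hshift.comp hψ) i s x s' x' hs hx hb

theorem esc {r : ℕ} {M : Fin (r + 1) → ℕ} (hM : M 0 = 1) (hMpos : ∀ i, 0 < M i) {D m : ℕ}
    (μ : Fin (r + 1) → ℝ) (hμ : QInd μ) {Δ : ℕ → Polynomial ℂ}
    {χ : ℕ → ℂ → Polynomial ℂ} {X : ℕ → Fin (r + 1) → ℂ × ℂ → ℂ}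
    {R G : ℕ → Fin (r + 1) → Polynomial (Polynomial ℂ)} {θ₀ : ℕ → ℂ}
    (h : NSeq M D m Δ χ X R G θ₀) :
    ∃ (φ : ℕ → ℕ) (σ : ℂ) (δ c : ℝ) (θ : ℕ → ℂ → ℂ) (lam : ℕ → Fin (r + 1) → ℂ → ℂ)
      (Λ : ℂ → ℂ), StrictMono φ ∧ 0 < δ ∧ 0 < c ∧
      (∀ s ∈ Metric.ball σ δ, ‖s - 1‖ < 1 / 2) ∧
      (∀ l, DifferentiableOn ℂ (θ l) (Metric.ball σ δ)) ∧
      (∀ l, ∀ s ∈ Metric.ball σ δ, (∀ k, c * ‖(Δ (φ l)).coeff k‖ ≤ ‖(Δ (φ l)).eval s‖) ∧
        (χ (φ l) s).eval (θ l s) = 0 ∧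
        ∀ i, Complex.exp (lam l i s) = X (φ l) i (s, θ l s)) ∧
      (∀ l i, DifferentiableOn ℂ (lam l i) (Metric.ball σ δ)) ∧
      DifferentiableOn ℂ Λ (Metric.ball σ δ) ∧
      TendstoUniformlyOn (fun l s => ∑ i, (μ i : ℂ) * lam l i s) Λ atTop (Metric.ball σ δ) ∧
      (Λ σ).re = 0 ∧ ¬ ∀ᶠ s in 𝓝 σ, Λ s = Λ σ := by
  obtain ⟨φ, σ, δ, c, f, θ, lam, G', hφ, hδ, hc, hs1, hf, hθ, hall, hlam, hlam1, hre, hG',
    hrel⟩ := Y11_branches hM μ h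
  have hsubB : Metric.ball σ δ ⊆ Metric.ball σ (2 * δ) :=
    Metric.ball_subset_ball (by linarith)
  obtain ⟨φ₄, Lam, hφ₄, hLamd, hLam⟩ := montel (ι := Fin (r + 1)) (z := σ) (δ := 2 * δ)
    (K := 1) (by linarith) lam hlam hlam1
  have hunif : TendstoUniformlyOn (fun l s => ∑ i, (μ i : ℂ) * lam (φ₄ l) i s)
      (fun s => ∑ i, (μ i : ℂ) * Lam i s) atTop (Metric.closedBall σ δ) := by
    rw [Metric.tendstoUniformlyOn_iff]
    intro ε hε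
    have hS : 0 ≤ ∑ i, |μ i| := Finset.sum_nonneg fun i _ => abs_nonneg _
    have hε' : 0 < ε / (∑ i, |μ i| + 1) := div_pos hε (by linarith)
    have h1 : ∀ i, ∀ᶠ l in atTop, ∀ s ∈ Metric.closedBall σ δ,
        dist (Lam i s) (lam (φ₄ l) i s) < ε / (∑ i, |μ i| + 1) := fun i =>
      Metric.tendstoUniformlyOn_iff.1 (hLam i δ (by linarith)) _ hε'
    filter_upwards [eventually_all.2 h1] with l hl s hs
    rw [dist_eq_norm]
    refine Y11_sum μ (fun i => Lam i s) (fun i => lam (φ₄ l) i s) hε (fun i => ?_)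
    have := hl i s hs
    rw [dist_eq_norm] at this
    exact this.le
  have hpt : ∀ i, ∀ s ∈ Metric.ball σ δ,
      Tendsto (fun l => Complex.exp (lam (φ₄ l) i s)) atTop (𝓝 (Complex.exp (Lam i s))) := by
    intro i s hs
    exact (Complex.continuous_exp.tendsto _).comp
      ((hLam i δ (by linarith)).tendsto_at (Metric.ball_subset_closedBall hs))
  have hdiff : DifferentiableOn ℂ (fun s => ∑ i, (μ i : ℂ) * Lam i s) (Metric.ball σ δ) := by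
    refine DifferentiableOn.fun_sum fun i _ => ?_
    exact ((hLamd i).mono hsubB).const_mul _
  refine ⟨fun l => φ (φ₄ l), σ, δ, c, fun l => θ (φ₄ l), fun l => lam (φ₄ l),
    fun s => ∑ i, (μ i : ℂ) * Lam i s, hφ.comp hφ₄, hδ, hc, fun s hs => hs1 s (hsubB hs),
    fun l => (hθ (φ₄ l)).mono hsubB, fun l s hs => hall (φ₄ l) s (hsubB hs),
    fun l i => (hlam (φ₄ l) i).mono hsubB, hdiff,
    hunif.mono Metric.ball_subset_closedBall, ?_, ?_⟩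
  · -- the real part at the centre
    have hσ : σ ∈ Metric.ball σ δ := Metric.mem_ball_self hδ
    have hcont : ContinuousWithinAt (fun s => ∑ i, (μ i : ℂ) * Lam i s)
        (Metric.closedBall σ δ) σ :=
      ((hdiff σ hσ).differentiableAt (Metric.isOpen_ball.mem_nhds hσ)).continuousAt.continuousWithinAt
    have hf4 : Tendsto (fun l => f (φ₄ l)) atTop (𝓝 σ) := hf.comp hφ₄.tendsto_atTop
    have hf5 : Tendsto (fun l => f (φ₄ l)) atTop (𝓝[Metric.closedBall σ δ] σ) :=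
      tendsto_nhdsWithin_iff.2 ⟨hf4, hf4 (Metric.closedBall_mem_nhds σ hδ)⟩
    have h1 := hunif.tendstoLocallyUniformlyOn.tendsto_comp hcont
      (Metric.ball_subset_closedBall hσ) hf5
    have h2 := (Complex.continuous_re.tendsto _).comp h1
    have h3 := hre.comp hφ₄.tendsto_atTop
    exact tendsto_nhds_unique h2 h3
  · refine nonconst M hMpos μ hμ G' hG' hδ Lam (fun i => (hLamd i).mono hsubB) ?_ ?_
    · intro i s hs
      refine hrel φ₄ hφ₄ i (fun _ => s) _ s _ tendsto_const_nhds (hpt i s hs) (fun l => ?_)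
      have h1 := hall (φ₄ l) s (hsubB hs)
      rw [h1.2.2 i]
      refine (h.crv (φ (φ₄ l))).rel s (θ (φ₄ l) s) ?_ h1.2.1 i
      intro h0
      refine (h.crv (φ (φ₄ l))).ne (Polynomial.ext fun k => ?_)
      have h2 := h1.1 k
      rw [h0, norm_zero] at h2
      have h3 : ‖(Δ (φ (φ₄ l))).coeff k‖ ≤ 0 := by
        by_contra hcon
        push Not at hcon
        nlinarith
      rw [Polynomial.coeff_zero]
      exact norm_le_zero_iff.1 h3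
    · intro s hs
      have h1 : Tendsto (fun l => ∏ i, Complex.exp (lam (φ₄ l) i s) ^ M i) atTop
          (𝓝 (∏ i, Complex.exp (Lam i s) ^ M i)) :=
        tendsto_finsetProd _ fun i _ => (hpt i s hs).pow _
      refine tendsto_nhds_unique h1 ?_
      refine tendsto_const_nhds.congr fun l => ?_
      have h1 := hall (φ₄ l) s (hsubB hs)
      have h4 : (Δ (φ (φ₄ l))).eval s ≠ 0 := by
        intro h0
        refine (h.crv (φ (φ₄ l))).ne (Polynomial.ext fun k => ?_)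
        have h2 := h1.1 k
        rw [h0, norm_zero] at h2
        have h3 : ‖(Δ (φ (φ₄ l))).coeff k‖ ≤ 0 := by
          by_contra hcon
          push Not at hcon
          nlinarith
        rw [Polynomial.coeff_zero]
        exact norm_le_zero_iff.1 h3
      have h5 := (h.crv (φ (φ₄ l))).prod s (θ (φ₄ l) s) h4 h1.2.1
      unfold fp at h5
      rw [← h5]
      refine Finset.prod_congr rfl fun i _ => ?_
      rw [h5, h1.2.2 i]

end XV
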