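import Pool.Agent.Lib.MP_228259_lc.V.Y3
import Pool.Agent.Lib.MP_228259_lc.V.Y4
import Pool.Agent.Lib.MP_228259_lc.V.N2

/-!
XV-Y12 (punct_slope, inf_slope, sign_vec, crossing).

`punct_slope`: recentre, `G'(S, X) = G(b + S, X)` (apply `Polynomial.taylor b` or
`Polynomial.comp (X + C b)` to the coefficients; nonzero, same degrees), and `slope_rel` with `B`
bounding the nonzero coefficients of `G'` and their inverses, for `f - b` small. `inf_slope`: `slope_rel`
for `G`, `‖f‖` large.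

`sign_vec`: for `s ∈ S`, `s ≠ 0`, `∑ μ_i s_i ≠ 0`; take `a i = round (Q μ_i)` with `Q` so large that
`Q |∑ μ_i s_i| > ∑ |s_i|` for all `s ∈ S`, `s ≠ 0`.

`crossing`: suppose `∑ μ_i log ‖X i (f, θ)‖ ≠ ρ` at all points. `U = {Δ ≠ 0}`, `Bᶜ = U`, `B` finite
(`Crv_fam`), `U` preconnected (`compl_finite_preconnected`). The predicates
`p⁺ = (ρ < ∑ μ_i log ‖X i‖)` and `p⁻ = (∑ < ρ)` are `LC` (continuous along holomorphic roots, `Crv_hol`).
Over any `f ∈ U` there is a root (`0 < m`), so it has `p⁺` or `p⁻`; the numbers of roots with `p⁺` and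
with `p⁻` are constant on `U` (`sym_card`), so for one sign `τ = ±1` the predicate
`p = (τ ρ < τ ∑ μ_i log ‖X i‖)` has a root over every `f ∈ U`. Let `S` = the finite set of all slope
vectors (product of the finite sets of `punct_slope` for `b ∈ B` and of `inf_slope`, for the relations
`G i`, `i : Fin r`), `a` from `sign_vec`. `g f θ = ∏_i (X i (f, θ))^(- τ a_i)` (zpow), `Hol`.
`Φ(f) = ∏_{θ ∈ shts χ p f} g f θ` is holomorphic on `U` (`sym_prod`).
Near `b ∈ B`: at a root with `p` some `s ∈ S` has `|log ‖X i‖ - s_i log ‖f - b‖| ≤ K` for all `i`, so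
`τ ρ < τ (∑ μ_i s_i) log ‖f - b‖ + K'`; for `f` near `b` (`log ‖f - b‖ → -∞`, finitely many `s`) this
forces `τ ∑ μ_i s_i ≤ 0`, hence `τ ∑ a_i s_i ≤ 0` and `log ‖g‖ ≤ - τ (∑ a_i s_i) log ‖f - b‖ + K'' ≤ K''`:
so `Φ` is bounded near `b` (at most `m` factors). Near `∞`: the same with `log ‖f‖ → +∞`:
`τ ∑ μ_i s_i ≥ 0`; and `∏ X i ^ M i = f` gives `|(∑ M_i s_i - 1) log ‖f‖| ≤ K'`, so `∑ M_i s_i = 1`, `s ≠ 0`,
`τ ∑ μ_i s_i > 0`, `τ ∑ a_i s_i ≥ 1` or at least a positive constant, so `‖g‖ → 0`, and as there is at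
least one factor and at most `m`, `Φ → 0`. `liouville_punct`: `Φ = 0` on `U`, but `Φ(f) ≠ 0`
(`X i ≠ 0`), contradiction (`U` is not empty).
-/

set_option autoImplicit false

namespace XV

open Filter Topology

theorem Y12_slope (G : Polynomial (Polynomial ℂ)) (hG : G ≠ 0) :
    ∃ (S : Finset ℚ) (K T : ℝ), ∀ f x : ℂ, f ≠ 0 → x ≠ 0 → bev f x G = 0 →
      T < |Real.log ‖f‖| → ∃ s ∈ S, |Real.log ‖x‖ - s * Real.log ‖f‖| ≤ K := by
  classical
  set D : ℕ := G.natDegree + ∑ j ∈ Finset.range (G.natDegree + 1), (G.coeff j).natDegree with hD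
  obtain ⟨S, K, hK, h⟩ := slope_rel D
  have hdeg : ∀ j, (G.coeff j).natDegree ≤ D := by
    intro j
    by_cases hj : j ≤ G.natDegree
    · have h1 : (G.coeff j).natDegree ≤
          ∑ j ∈ Finset.range (G.natDegree + 1), (G.coeff j).natDegree :=
        Finset.single_le_sum (f := fun j => (G.coeff j).natDegree) (fun _ _ => Nat.zero_le _)
          (Finset.mem_range.2 (Nat.lt_succ_of_le hj))
      omega
    · rw [Polynomial.coeff_eq_zero_of_natDegree_lt (not_le.1 hj), Polynomial.natDegree_zero]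
      exact Nat.zero_le _
  set B : ℝ := 1 + ∑ q ∈ Finset.range (D + 1) ×ˢ Finset.range (D + 1),
    (‖(G.coeff q.1).coeff q.2‖ + ‖(G.coeff q.1).coeff q.2‖⁻¹) with hB
  have hterm : ∀ q ∈ Finset.range (D + 1) ×ˢ Finset.range (D + 1),
      0 ≤ ‖(G.coeff q.1).coeff q.2‖ + ‖(G.coeff q.1).coeff q.2‖⁻¹ := fun q _ => by positivity
  have hB1 : 1 ≤ B := by
    have := Finset.sum_nonneg hterm
    linarith
  have hcoef : ∀ j k, (G.coeff j).coeff k = 0 ∨
      (1 / B ≤ ‖(G.coeff j).coeff k‖ ∧ ‖(G.coeff j).coeff k‖ ≤ B) := by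
    intro j k
    by_cases h0 : (G.coeff j).coeff k = 0
    · exact Or.inl h0
    · right
      have hj : j ≤ D := by
        have h1 : G.coeff j ≠ 0 := by
          intro h2
          apply h0
          rw [h2, Polynomial.coeff_zero]
        have := Polynomial.le_natDegree_of_ne_zero h1
        omega
      have hk : k ≤ D := (Polynomial.le_natDegree_of_ne_zero h0).trans (hdeg j)
      have hmem : (j, k) ∈ Finset.range (D + 1) ×ˢ Finset.range (D + 1) :=
        Finset.mem_product.2 ⟨Finset.mem_range.2 (by show j < D + 1; omega),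
          Finset.mem_range.2 (by show k < D + 1; omega)⟩
      have h1 := Finset.single_le_sum (f := fun q : ℕ × ℕ =>
        ‖(G.coeff q.1).coeff q.2‖ + ‖(G.coeff q.1).coeff q.2‖⁻¹) hterm hmem
      simp only at h1
      have hpos : 0 < ‖(G.coeff j).coeff k‖ := norm_pos_iff.2 h0
      have hinv : 0 < ‖(G.coeff j).coeff k‖⁻¹ := inv_pos.2 hpos
      constructor
      · rw [one_div]
        have h2 : ‖(G.coeff j).coeff k‖⁻¹ ≤ B := by linarith
        have h3 := inv_anti₀ hinv h2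
        rwa [inv_inv] at h3
      · linarith
  refine ⟨S, K * (1 + Real.log B), K * (1 + Real.log B), fun f x hf hx hb hT => ?_⟩
  exact h G hG (by omega) hdeg B hB1 hcoef f x hf hx hb hT

theorem punct_slope (G : Polynomial (Polynomial ℂ)) (hG : G ≠ 0) (b : ℂ) :
    ∃ (S : Finset ℚ) (K : ℝ), ∀ᶠ f in 𝓝[≠] b, ∀ x : ℂ, x ≠ 0 → bev f x G = 0 →
      ∃ s ∈ S, |Real.log ‖x‖ - s * Real.log ‖f - b‖| ≤ K := by
  set G' : Polynomial (Polynomial ℂ) :=
    G.map (Polynomial.taylorAlgHom b : Polynomial ℂ →ₐ[ℂ] Polynomial ℂ).toRingHom with hG'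
  have hG0 : G' ≠ 0 := by
    intro h
    apply hG
    have hinj : Function.Injective
        (Polynomial.taylorAlgHom b : Polynomial ℂ →ₐ[ℂ] Polynomial ℂ).toRingHom :=
      Polynomial.taylor_injective b
    apply Polynomial.map_injective _ hinj
    rw [Polynomial.map_zero]
    exact h
  obtain ⟨S, K, T, h⟩ := Y12_slope G' hG0
  refine ⟨S, K, ?_⟩
  have hlog : Tendsto (fun f : ℂ => Real.log ‖f - b‖) (𝓝[≠] b) atBot := by
    have h2 : Tendsto (fun f : ℂ => ‖f - b‖) (𝓝[≠] b) (𝓝[>] 0) := by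
      rw [tendsto_nhdsWithin_iff]
      constructor
      · have h3 : Tendsto (fun f : ℂ => ‖f - b‖) (𝓝 b) (𝓝 ‖b - b‖) :=
          (continuous_norm.comp (continuous_id.sub continuous_const)).tendsto b
        rw [sub_self, norm_zero] at h3
        exact h3.mono_left nhdsWithin_le_nhds
      · filter_upwards [self_mem_nhdsWithin] with f hf
        exact norm_pos_iff.2 (sub_ne_zero.2 hf)
    exact Real.tendsto_log_nhdsGT_zero.comp h2
  filter_upwards [self_mem_nhdsWithin, hlog.eventually (eventually_lt_atBot (-T)),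
    hlog.eventually (eventually_lt_atBot 0)] with f hf h1 h2 x hx hbev
  apply h (f - b) x (sub_ne_zero.2 hf) hx
  · have h3 : bev (f - b) x G' = bev f x G := by
      unfold bev
      rw [hG', Polynomial.map_map]
      congr 2
      refine RingHom.ext fun q => ?_
      show (Polynomial.taylor b q).eval (f - b) = q.eval f
      rw [Polynomial.taylor_eval, sub_add_cancel]
    rw [h3]
    exact hbev
  · rw [abs_of_neg h2]
    linarith

theorem inf_slope (G : Polynomial (Polynomial ℂ)) (hG : G ≠ 0) :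
    ∃ (S : Finset ℚ) (K : ℝ), ∀ᶠ f in cocompact ℂ, ∀ x : ℂ, x ≠ 0 → bev f x G = 0 →
      ∃ s ∈ S, |Real.log ‖x‖ - s * Real.log ‖f‖| ≤ K := by
  obtain ⟨S, K, T, h⟩ := Y12_slope G hG
  refine ⟨S, K, ?_⟩
  have h0 : Tendsto (fun f : ℂ => ‖f‖) (cocompact ℂ) atTop := tendsto_norm_cocompact_atTop
  have hlog : Tendsto (fun f : ℂ => Real.log ‖f‖) (cocompact ℂ) atTop :=
    Real.tendsto_log_atTop.comp h0
  filter_upwards [hlog.eventually (eventually_gt_atTop T),
    hlog.eventually (eventually_gt_atTop 0), h0.eventually (eventually_gt_atTop 0)] with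
    f h1 h2 h3 x hx hbev
  apply h f x (norm_pos_iff.1 h3) hx hbev
  rw [abs_of_pos h2]
  exact h1

theorem sign_vec {r : ℕ} (μ : Fin r → ℝ) (hμ : QInd μ) (S : Finset (Fin r → ℚ)) :
    ∃ a : Fin r → ℤ, ∀ s ∈ S, (0 < ∑ i, μ i * s i → 0 < ∑ i, (a i : ℚ) * s i) ∧
      (∑ i, μ i * s i < 0 → ∑ i, (a i : ℚ) * s i < 0) ∧
      (∑ i, μ i * s i = 0 → ∑ i, (a i : ℚ) * s i = 0) := by
  classical
  set Q : ℝ := 1 + ∑ s ∈ S, (∑ i, |(s i : ℝ)|) / |∑ i, μ i * s i| with hQ
  have hterm : ∀ s ∈ S, 0 ≤ (∑ i, |(s i : ℝ)|) / |∑ i, μ i * s i| := fun s _ => by positivity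
  have hQ1 : 1 ≤ Q := by
    have := Finset.sum_nonneg hterm
    linarith
  refine ⟨fun i => round (Q * μ i), fun s hs => ?_⟩
  have hcast : ((∑ i, ((round (Q * μ i) : ℤ) : ℚ) * s i : ℚ) : ℝ) =
      ∑ i, ((round (Q * μ i) : ℤ) : ℝ) * (s i : ℝ) := by push_cast; rfl
  have hdiff : |(∑ i, ((round (Q * μ i) : ℤ) : ℝ) * (s i : ℝ)) - Q * ∑ i, μ i * s i| ≤
      (∑ i, |(s i : ℝ)|) / 2 := by
    have h1 : (∑ i, ((round (Q * μ i) : ℤ) : ℝ) * (s i : ℝ)) - Q * ∑ i, μ i * s i =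
        ∑ i, (((round (Q * μ i) : ℤ) : ℝ) - Q * μ i) * (s i : ℝ) := by
      rw [Finset.mul_sum, ← Finset.sum_sub_distrib]
      refine Finset.sum_congr rfl fun i _ => ?_
      ring
    rw [h1, Finset.sum_div]
    refine (Finset.abs_sum_le_sum_abs _ _).trans (Finset.sum_le_sum fun i _ => ?_)
    rw [abs_mul]
    have h2 : |((round (Q * μ i) : ℤ) : ℝ) - Q * μ i| ≤ 1 / 2 := by
      rw [abs_sub_comm]
      exact abs_sub_round (Q * μ i)
    have h3 : 0 ≤ |(s i : ℝ)| := abs_nonneg _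
    nlinarith
  have hbig : ∑ i, μ i * s i ≠ 0 → (∑ i, |(s i : ℝ)|) < Q * |∑ i, μ i * s i| := by
    intro h0
    have hpos : 0 < |∑ i, μ i * s i| := abs_pos.2 h0
    have h1 := Finset.single_le_sum hterm hs
    have h2 : (∑ i, |(s i : ℝ)|) / |∑ i, μ i * s i| < Q := by linarith
    rwa [div_lt_iff₀ hpos] at h2
  have habs : 0 ≤ ∑ i, |(s i : ℝ)| := Finset.sum_nonneg fun i _ => abs_nonneg _
  refine ⟨fun h0 => ?_, fun h0 => ?_, fun h0 => ?_⟩
  · have h1 := hbig h0.ne'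
    rw [abs_of_pos h0] at h1
    have h2 := (abs_le.1 hdiff).1
    have h3 : (0 : ℝ) < ((∑ i, ((round (Q * μ i) : ℤ) : ℚ) * s i : ℚ) : ℝ) := by
      rw [hcast]
      linarith
    exact_mod_cast h3
  · have h1 := hbig h0.ne
    rw [abs_of_neg h0] at h1
    have h2 := (abs_le.1 hdiff).2
    have h3 : ((∑ i, ((round (Q * μ i) : ℤ) : ℚ) * s i : ℚ) : ℝ) < (0 : ℝ) := by
      rw [hcast]
      linarith
    exact_mod_cast h3
  · have h1 := hμ s h0
    subst h1
    simp

end XV
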