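import Pool.Agent.Lib.MP_228259_lc.V.Y12
import Pool.Agent.Lib.MP_228259_lc.V.F10

/-!
XV-Y12b (crossing). On every curve the function `∑ μ_i log ‖X i‖` takes every real value.

Proof: see the header of `Y12` (last part).
-/

set_option autoImplicit false

namespace XV

open Filter Topology

private theorem Y12b_lin {r : ℕ} (μ x s K : Fin r → ℝ) (l : ℝ)
    (h : ∀ i, |x i - s i * l| ≤ K i) :
    |∑ i, μ i * x i - (∑ i, μ i * s i) * l| ≤ ∑ i, |μ i| * K i := by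
  have h1 : ∑ i, μ i * x i - (∑ i, μ i * s i) * l = ∑ i, μ i * (x i - s i * l) := by
    rw [Finset.sum_mul, ← Finset.sum_sub_distrib]
    exact Finset.sum_congr rfl fun i _ => by ring
  rw [h1]
  refine (Finset.abs_sum_le_sum_abs _ _).trans (Finset.sum_le_sum fun i _ => ?_)
  rw [abs_mul]
  exact mul_le_mul_of_nonneg_left (h i) (abs_nonneg _)

private theorem Y12b_ev {α ι : Type*} {l : Filter α} {u : α → ℝ} (hl : Tendsto u l atTop)
    (S : Finset ι) (w : ι → ℝ) (c : ℝ) : ∀ᶠ f in l, ∀ s ∈ S, 0 < w s → c < w s * u f := by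
  rw [Finset.eventually_all]
  intro s _
  by_cases hw : 0 < w s
  · have h1 : Tendsto (fun f => w s * u f) l atTop := hl.const_mul_atTop hw
    filter_upwards [h1.eventually_gt_atTop c] with f hf _
    exact hf
  · exact Eventually.of_forall fun f h => absurd h hw

private theorem Y12b_sgn {r : ℕ} {μ : Fin r → ℝ} {a : Fin r → ℤ} {s : Fin r → ℚ}
    (h : (0 < ∑ i, μ i * s i → 0 < ∑ i, (a i : ℚ) * s i) ∧
      (∑ i, μ i * s i < 0 → ∑ i, (a i : ℚ) * s i < 0) ∧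
      (∑ i, μ i * s i = 0 → ∑ i, (a i : ℚ) * s i = 0)) {τ : ℤ} (hτ : τ = 1 ∨ τ = -1) :
    (0 < (τ : ℝ) * ∑ i, μ i * s i → 0 < (τ : ℝ) * ∑ i, (a i : ℝ) * s i) ∧
      (0 ≤ (τ : ℝ) * ∑ i, μ i * s i → 0 ≤ (τ : ℝ) * ∑ i, (a i : ℝ) * s i) := by
  obtain ⟨h1, h2, h3⟩ := h
  have e : (∑ i, (a i : ℝ) * s i) = ((∑ i, (a i : ℚ) * s i : ℚ) : ℝ) := by push_cast; rfl
  have g1 : 0 < ∑ i, μ i * s i → 0 < ∑ i, (a i : ℝ) * s i := fun h => by
    rw [e]; exact_mod_cast h1 h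
  have g2 : ∑ i, μ i * s i < 0 → ∑ i, (a i : ℝ) * s i < 0 := fun h => by
    rw [e]; exact_mod_cast h2 h
  have g3 : ∑ i, μ i * s i = 0 → ∑ i, (a i : ℝ) * s i = 0 := fun h => by
    rw [e]; exact_mod_cast h3 h
  rcases hτ with rfl | rfl
  · push_cast
    rw [one_mul, one_mul]
    refine ⟨g1, fun h => ?_⟩
    rcases h.lt_or_eq with h4 | h4
    · exact (g1 h4).le
    · exact (g3 h4.symm).ge
  · push_cast
    rw [neg_one_mul, neg_one_mul]
    refine ⟨fun h => ?_, fun h => ?_⟩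
    · have := g2 (by linarith)
      linarith
    · have h5 : ∑ i, μ i * (s i : ℝ) ≤ 0 := by linarith
      rcases h5.lt_or_eq with h4 | h4
      · have := g2 h4
        linarith
      · have := g3 h4
        linarith

/-- at a place (`u → ∞`): bounded below -/
private theorem Y12b_place {r : ℕ} {α : Type*} {l : Filter α} {u : α → ℝ}
    (hl : Tendsto u l atTop) (S : Finset (Fin r → ℚ)) (K : Fin r → ℝ) (μ : Fin r → ℝ)
    (a : Fin r → ℤ)
    (ha : ∀ s ∈ S, (0 < ∑ i, μ i * s i → 0 < ∑ i, (a i : ℚ) * s i) ∧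
      (∑ i, μ i * s i < 0 → ∑ i, (a i : ℚ) * s i < 0) ∧
      (∑ i, μ i * s i = 0 → ∑ i, (a i : ℚ) * s i = 0)) {τ : ℤ} (hτ : τ = 1 ∨ τ = -1) (ρ : ℝ) :
    ∀ᶠ f in l, ∀ x : Fin r → ℝ, (∃ s ∈ S, ∀ i, |x i - s i * u f| ≤ K i) →
      (τ : ℝ) * ρ < τ * ∑ i, μ i * x i →
      -((τ : ℝ) * ∑ i, (a i : ℝ) * x i) ≤ ∑ i, |(a i : ℝ)| * K i := by
  have hτa : |(τ : ℝ)| = 1 := by rcases hτ with rfl | rfl <;> simp
  have e1 := Y12b_ev hl S (fun s => -((τ : ℝ) * ∑ i, μ i * s i))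
    (∑ i, |μ i| * K i - τ * ρ)
  have e2 := hl.eventually_gt_atTop 0
  filter_upwards [e1, e2] with f h1 h2 x hx hρ
  obtain ⟨s, hs, hsx⟩ := hx
  have h3 := Y12b_lin μ x (fun i => (s i : ℝ)) K (u f) hsx
  have h4 := Y12b_lin (fun i => (a i : ℝ)) x (fun i => (s i : ℝ)) K (u f) hsx
  have h5 : 0 ≤ (τ : ℝ) * ∑ i, μ i * s i := by
    by_contra h6
    have h7 := h1 s hs (by linarith)
    have h8 : |(τ : ℝ) * (∑ i, μ i * x i - (∑ i, μ i * s i) * u f)| ≤ ∑ i, |μ i| * K i := by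
      rw [abs_mul, hτa, one_mul]
      exact h3
    have h9 := (abs_le.1 h8).2
    nlinarith
  have h6 := (Y12b_sgn (ha s hs) hτ).2 h5
  have h8 : |(τ : ℝ) * (∑ i, (a i : ℝ) * x i - (∑ i, (a i : ℝ) * s i) * u f)| ≤
      ∑ i, |(a i : ℝ)| * K i := by
    rw [abs_mul, hτa, one_mul]
    exact h4
  have h9 := (abs_le.1 h8).1
  have h10 : 0 ≤ (τ : ℝ) * (∑ i, (a i : ℝ) * s i) * u f := mul_nonneg h6 h2.le
  have h11 : (τ : ℝ) * (∑ i, (a i : ℝ) * x i - (∑ i, (a i : ℝ) * s i) * u f) =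
    (τ : ℝ) * (∑ i, (a i : ℝ) * x i) - (τ : ℝ) * (∑ i, (a i : ℝ) * s i) * u f := by ring
  rw [h11] at h9
  linarith

/-- at infinity -/
private theorem Y12b_inf {r : ℕ} {α : Type*} {l : Filter α} {u : α → ℝ}
    (hl : Tendsto u l atTop) (S : Finset (Fin r → ℚ)) (K : Fin r → ℝ) (μ : Fin r → ℝ)
    (hμ : QInd μ) (a : Fin r → ℤ) (M : Fin r → ℝ)
    (ha : ∀ s ∈ S, (0 < ∑ i, μ i * s i → 0 < ∑ i, (a i : ℚ) * s i) ∧
      (∑ i, μ i * s i < 0 → ∑ i, (a i : ℚ) * s i < 0) ∧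
      (∑ i, μ i * s i = 0 → ∑ i, (a i : ℚ) * s i = 0)) {τ : ℤ} (hτ : τ = 1 ∨ τ = -1) (ρ : ℝ)
    (N : ℝ) :
    ∀ᶠ f in l, ∀ x : Fin r → ℝ, (∃ s ∈ S, ∀ i, |x i - s i * u f| ≤ K i) →
      (∑ i, M i * x i = u f) → (τ : ℝ) * ρ < τ * ∑ i, μ i * x i →
      -((τ : ℝ) * ∑ i, (a i : ℝ) * x i) ≤ N := by
  have hτa : |(τ : ℝ)| = 1 := by rcases hτ with rfl | rfl <;> simp
  have hτ0 : (τ : ℝ) ≠ 0 := by rcases hτ with rfl | rfl <;> simp
  have e1 := Y12b_ev hl S (fun s => -((τ : ℝ) * ∑ i, μ i * s i))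
    (∑ i, |μ i| * K i - τ * ρ)
  have e2 := hl.eventually_gt_atTop 0
  have e3 := hl.eventually_gt_atTop (∑ i, |M i| * K i)
  have e4 := Y12b_ev hl S (fun s => (τ : ℝ) * ∑ i, (a i : ℝ) * s i)
    (∑ i, |(a i : ℝ)| * K i - N)
  filter_upwards [e1, e2, e3, e4] with f h1 h2 h3' h4' x hx hM hρ
  obtain ⟨s, hs, hsx⟩ := hx
  have h3 := Y12b_lin μ x (fun i => (s i : ℝ)) K (u f) hsx
  have h4 := Y12b_lin (fun i => (a i : ℝ)) x (fun i => (s i : ℝ)) K (u f) hsx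
  have h5 : 0 ≤ (τ : ℝ) * ∑ i, μ i * s i := by
    by_contra h6
    have h7 := h1 s hs (by linarith)
    have h8 : |(τ : ℝ) * (∑ i, μ i * x i - (∑ i, μ i * s i) * u f)| ≤ ∑ i, |μ i| * K i := by
      rw [abs_mul, hτa, one_mul]
      exact h3
    have h9 := (abs_le.1 h8).2
    nlinarith
  have h5' : 0 < (τ : ℝ) * ∑ i, μ i * s i := by
    rcases h5.lt_or_eq with h | h
    · exact h
    · exfalso
      have h6 : ∑ i, μ i * (s i : ℝ) = 0 := by
        rcases mul_eq_zero.1 h.symm with h7 | h7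
        · exact absurd h7 hτ0
        · exact h7
      have h7 := hμ s h6
      have h8 := Y12b_lin M x (fun i => (s i : ℝ)) K (u f) hsx
      rw [hM] at h8
      have h9 : ∑ i, M i * ((s i : ℚ) : ℝ) = 0 := by
        rw [h7]
        simp
      rw [h9, zero_mul, sub_zero] at h8
      have h10 := (abs_le.1 h8).2
      linarith
  have h6 := (Y12b_sgn (ha s hs) hτ).1 h5'
  have h7 := h4' s hs h6
  have h8 : |(τ : ℝ) * (∑ i, (a i : ℝ) * x i - (∑ i, (a i : ℝ) * s i) * u f)| ≤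
      ∑ i, |(a i : ℝ)| * K i := by
    rw [abs_mul, hτa, one_mul]
    exact h4
  have h9 := (abs_le.1 h8).1
  have h11 : (τ : ℝ) * (∑ i, (a i : ℝ) * x i - (∑ i, (a i : ℝ) * s i) * u f) =
    (τ : ℝ) * (∑ i, (a i : ℝ) * x i) - (τ : ℝ) * (∑ i, (a i : ℝ) * s i) * u f := by ring
  rw [h11] at h9
  linarith

/-- the product of the coordinates -/
private noncomputable def Y12b_g {r : ℕ} (X : Fin r → ℂ × ℂ → ℂ) (e : Fin r → ℤ) (f θ : ℂ) : ℂ :=
  ∏ i, X i (f, θ) ^ (e i)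

private theorem Y12b_log {r : ℕ} (X : Fin r → ℂ × ℂ → ℂ) (e : Fin r → ℤ) (f θ : ℂ)
    (h : ∀ i, X i (f, θ) ≠ 0) :
    Y12b_g X e f θ ≠ 0 ∧
      ‖Y12b_g X e f θ‖ = Real.exp (∑ i, (e i : ℝ) * Real.log ‖X i (f, θ)‖) := by
  have h0 : Y12b_g X e f θ ≠ 0 := Finset.prod_ne_zero_iff.2 fun i _ => zpow_ne_zero _ (h i)
  refine ⟨h0, ?_⟩
  have h1 : Real.log ‖Y12b_g X e f θ‖ = ∑ i, (e i : ℝ) * Real.log ‖X i (f, θ)‖ := by
    unfold Y12b_g
    rw [norm_prod, Real.log_prod (fun i _ => norm_ne_zero_iff.2 (zpow_ne_zero _ (h i)))]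
    refine Finset.sum_congr rfl fun i _ => ?_
    rw [norm_zpow, Real.log_zpow]
  rw [← h1, Real.exp_log (norm_pos_iff.2 h0)]

theorem crossing {r : ℕ} {M : Fin r → ℕ} {D m : ℕ} {Δ : Polynomial ℂ} {χ : ℂ → Polynomial ℂ}
    {X : Fin r → ℂ × ℂ → ℂ} {R G : Fin r → Polynomial (Polynomial ℂ)}
    (hC : Crv M D m Δ χ X R G) (μ : Fin r → ℝ) (hμ : QInd μ) (ρ : ℝ) :
    ∃ f θ : ℂ, Δ.eval f ≠ 0 ∧ (χ f).eval θ = 0 ∧
      ∑ i, μ i * Real.log ‖X i (f, θ)‖ = ρ := by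
  classical
  by_contra hcon
  push Not at hcon
  set U : Set ℂ := {f | Δ.eval f ≠ 0} with hUdef
  have hUo : IsOpen U := by
    have : Continuous fun f : ℂ => Δ.eval f := Δ.continuous
    exact isOpen_ne_fun this continuous_const
  obtain ⟨hF, hBf⟩ := Crv_fam hC hUo (fun f hf => hf)
  set B : Set ℂ := {f | Δ.eval f = 0} with hBdef
  have hBU : Bᶜ = U := by
    ext f
    simp [hBdef, hUdef]
  have hUc : IsPreconnected U := by
    rw [← hBU]
    exact compl_finite_preconnected hBf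
  have hX0 : ∀ f θ : ℂ, Δ.eval f ≠ 0 → (χ f).eval θ = 0 → ∀ i, X i (f, θ) ≠ 0 :=
    fun f θ h1 h2 => (hC.tow f θ h1 h2).1
  set L : ℂ → ℂ → ℝ := fun f θ => ∑ i, μ i * Real.log ‖X i (f, θ)‖ with hL
  -- the predicate is locally constant
  have hLC : ∀ τ : ℤ, LC χ U (fun f θ => (τ : ℝ) * ρ < τ * L f θ) := by
    intro τ z δ θ hB f hf f' hf' hp
    have hcont : ContinuousOn (fun f => (τ : ℝ) * (L f (θ f) - ρ)) (Metric.ball z δ) := by
      refine continuousOn_const.mul (ContinuousOn.sub ?_ continuousOn_const)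
      refine continuousOn_finsetSum _ fun i _ => continuousOn_const.mul ?_
      obtain ⟨h1, h2⟩ := Crv_hol hC (fun f hf => hf) hB i
      exact h1.continuousOn.norm.log fun f hf => norm_ne_zero_iff.2 (h2 f hf)
    by_contra hneg
    have hτ0 : (τ : ℝ) ≠ 0 := by
      intro h0
      rw [h0, zero_mul, zero_mul] at hp
      exact lt_irrefl _ hp
    have h3 : (τ : ℝ) * (L f' (θ f') - ρ) ≤ 0 := by
      rw [mul_sub]
      have := not_lt.1 hneg
      linarith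
    have h4 : 0 ≤ (τ : ℝ) * (L f (θ f) - ρ) := by
      rw [mul_sub]
      linarith
    obtain ⟨w, hw, hw0⟩ := (convex_ball z δ).isPreconnected.intermediate_value hf' hf hcont
      (Set.mem_Icc.2 ⟨h3, h4⟩)
    have h5 : L w (θ w) = ρ := by
      rcases mul_eq_zero.1 hw0 with h | h
      · exact absurd h hτ0
      · exact sub_eq_zero.1 h
    exact hcon w (θ w) (hB.sub hw) (hB.root w hw) h5
  -- the sign
  have hUne : U.Nonempty := by
    by_contra h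
    rw [Set.not_nonempty_iff_eq_empty] at h
    rw [h, Set.compl_empty_iff] at hBU
    rw [hBU] at hBf
    exact Set.infinite_univ hBf
  obtain ⟨f₀, hf₀⟩ := hUne
  have hroot : ∃ θ₀ : ℂ, (χ f₀).eval θ₀ = 0 := by
    have h1 : (χ f₀).degree ≠ 0 := by
      intro h
      have h2 := Polynomial.natDegree_eq_zero_iff_degree_le_zero.2 h.le
      rw [(hC.monic f₀).2] at h2
      have := hC.pos
      omega
    obtain ⟨θ₀, h2⟩ := IsAlgClosed.exists_root (χ f₀) h1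
    exact ⟨θ₀, h2⟩
  obtain ⟨θ₀, hθ₀⟩ := hroot
  obtain ⟨τ, hτ, hp0⟩ : ∃ τ : ℤ, (τ = 1 ∨ τ = -1) ∧ (τ : ℝ) * ρ < τ * L f₀ θ₀ := by
    rcases lt_or_gt_of_ne (hcon f₀ θ₀ hf₀ hθ₀) with h | h
    · refine ⟨-1, Or.inr rfl, ?_⟩
      push_cast
      have : L f₀ θ₀ < ρ := h
      linarith
    · refine ⟨1, Or.inl rfl, ?_⟩
      push_cast
      have : ρ < L f₀ θ₀ := h
      linarith
  set p : ℂ → ℂ → Prop := fun f θ => (τ : ℝ) * ρ < τ * L f θ with hp
  have hne : ∀ f ∈ U, (shts χ p f).Nonempty := by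
    intro f hf
    rw [← Finset.card_pos, sym_card hF (hLC τ) (Set.Subset.refl U) hUc f hf f₀ hf₀,
      Finset.card_pos]
    exact ⟨θ₀, (mem_shts (hC.monic f₀).1 θ₀).2 ⟨hθ₀, hp0⟩⟩
  -- slopes
  have hpun : ∀ b : ℂ, ∀ i, ∃ (S : Finset ℚ) (K : ℝ), ∀ᶠ f in 𝓝[≠] b, ∀ x : ℂ, x ≠ 0 →
      bev f x (G i) = 0 → ∃ s ∈ S, |Real.log ‖x‖ - s * Real.log ‖f - b‖| ≤ K :=
    fun b i => punct_slope (G i) (hC.gdeg i).1 b
  choose Sb Kb hSb using hpun
  have hinf : ∀ i, ∃ (S : Finset ℚ) (K : ℝ), ∀ᶠ f in cocompact ℂ, ∀ x : ℂ, x ≠ 0 →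
      bev f x (G i) = 0 → ∃ s ∈ S, |Real.log ‖x‖ - s * Real.log ‖f‖| ≤ K :=
    fun i => inf_slope (G i) (hC.gdeg i).1
  choose Si Ki hSi using hinf
  set T : ℂ → Finset (Fin r → ℚ) := fun b => Fintype.piFinset fun i => (Sb b i).image fun q => -q
    with hT
  set T' : Finset (Fin r → ℚ) := Fintype.piFinset Si with hT'
  obtain ⟨a, ha⟩ := sign_vec μ hμ ((hBf.toFinset.biUnion T) ∪ T')
  set e : Fin r → ℤ := fun i => -(τ * a i) with he
  have hesum : ∀ x : Fin r → ℝ, ∑ i, ((e i : ℤ) : ℝ) * x i = -((τ : ℝ) * ∑ i, (a i : ℝ) * x i) := by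
    intro x
    rw [Finset.mul_sum, ← Finset.sum_neg_distrib]
    refine Finset.sum_congr rfl fun i _ => ?_
    rw [he]
    push_cast
    ring
  have hHol : Hol χ U p (Y12b_g X e) := by
    intro z δ θ hB hpf
    unfold Y12b_g
    have h1 : ∀ T : Finset (Fin r), DifferentiableOn ℂ (fun f => ∏ i ∈ T, X i (f, θ f) ^ (e i))
        (Metric.ball z δ) := by
      intro T
      induction T using Finset.induction_on with
      | empty =>
        simp only [Finset.prod_empty]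
        exact differentiableOn_const _
      | insert i T hi ih =>
        simp only [Finset.prod_insert hi]
        obtain ⟨h1, h2⟩ := Crv_hol hC (fun f hf => hf) hB i
        exact (h1.zpow (Or.inl h2)).mul ih
    exact h1 Finset.univ
  have hΦ := sym_prod hF (hLC τ) hHol
  have hmono : ∀ f, Δ.eval f ≠ 0 → ∀ θ ∈ shts χ p f, (χ f).eval θ = 0 ∧ p f θ := fun f _ θ h =>
    (mem_shts (hC.monic f).1 θ).1 h
  have hnorm : ∀ f, Δ.eval f ≠ 0 → ∀ θ ∈ shts χ p f, ‖Y12b_g X e f θ‖ =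
      Real.exp (-((τ : ℝ) * ∑ i, (a i : ℝ) * Real.log ‖X i (f, θ)‖)) := by
    intro f hf θ hθ
    rw [(Y12b_log X e f θ (hX0 f θ hf (hmono f hf θ hθ).1)).2, hesum]
  have hzero := liouville_punct hBf (by rw [hBU]; exact hΦ) (fun b hb => ?_) ?_ f₀
    (fun h => hf₀ h)
  · rw [Finset.prod_eq_zero_iff] at hzero
    obtain ⟨θ, hθ, h0⟩ := hzero
    exact (Y12b_log X e f₀ θ (hX0 f₀ θ hf₀ (hmono f₀ hf₀ θ hθ).1)).1 h0
  · -- punctures
    have hl : Tendsto (fun f : ℂ => -Real.log ‖f - b‖) (𝓝[≠] b) atTop := by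
      refine tendsto_neg_atBot_atTop.comp (Real.tendsto_log_nhdsNE_zero.comp ?_)
      rw [tendsto_nhdsWithin_iff]
      constructor
      · have h1 : Continuous fun f : ℂ => ‖f - b‖ := by fun_prop
        have h2 := h1.tendsto b
        rw [sub_self, norm_zero] at h2
        exact h2.mono_left nhdsWithin_le_nhds
      · filter_upwards [self_mem_nhdsWithin] with f hf
        exact norm_ne_zero_iff.2 (sub_ne_zero.2 hf)
    have hev := Y12b_place hl (T b) (Kb b) μ a (fun s hs => ha s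
      (Finset.mem_union_left _ (Finset.mem_biUnion.2 ⟨b, hBf.mem_toFinset.2 hb, hs⟩))) hτ ρ
    have hev2 : ∀ᶠ f in 𝓝[≠] b, ∀ i, ∀ x : ℂ, x ≠ 0 →
      bev f x (G i) = 0 → ∃ s ∈ Sb b i, |Real.log ‖x‖ - s * Real.log ‖f - b‖| ≤ Kb b i :=
      eventually_all.2 fun i => hSb b i
    have hev3 : ∀ᶠ f in 𝓝[≠] b, Δ.eval f ≠ 0 := by
      have h1 : (B \ {b})ᶜ ∈ 𝓝 b := (hBf.subset Set.sdiff_subset).isClosed.isOpen_compl.mem_nhds
        (by simp)
      filter_upwards [nhdsWithin_le_nhds h1, self_mem_nhdsWithin] with f h2 h3 h4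
      exact h2 ⟨h4, h3⟩
    set K2 : ℝ := ∑ i, |(a i : ℝ)| * |Kb b i| with hK2
    have hK20 : 0 ≤ K2 := Finset.sum_nonneg fun i _ => mul_nonneg (abs_nonneg _) (abs_nonneg _)
    refine ⟨Real.exp K2 ^ m, ?_⟩
    filter_upwards [hev, hev2, hev3] with f h1 h2 h3
    rw [norm_prod]
    have h4 : ∀ θ ∈ shts χ p f, ‖Y12b_g X e f θ‖ ≤ Real.exp K2 := by
      intro θ hθ
      rw [hnorm f h3 θ hθ]
      refine Real.exp_le_exp.2 ?_
      obtain ⟨h5, h6⟩ := hmono f h3 θ hθ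
      have h7 : ∀ i, ∃ s ∈ Sb b i, |Real.log ‖X i (f, θ)‖ - s * Real.log ‖f - b‖| ≤ Kb b i :=
        fun i => h2 i (X i (f, θ)) (hX0 f θ h3 h5 i) (hC.rel f θ h3 h5 i)
      choose s hs1 hs2 using h7
      refine (h1 (fun i => Real.log ‖X i (f, θ)‖) ⟨fun i => - s i, ?_, fun i => ?_⟩ h6).trans ?_
      · rw [hT, Fintype.mem_piFinset]
        exact fun i => Finset.mem_image_of_mem _ (hs1 i)
      · have h8 := hs2 i
        push_cast
        rw [neg_mul_neg]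
        exact h8
      · refine Finset.sum_le_sum fun i _ => mul_le_mul_of_nonneg_left (le_abs_self _) (abs_nonneg _)
    refine (Finset.prod_le_prod (fun θ _ => norm_nonneg _) h4).trans ?_
    rw [Finset.prod_const]
    exact pow_le_pow_right₀ (Real.one_le_exp hK20) (card_shts p (hC.monic f).2)
  · -- infinity
    have hl : Tendsto (fun f : ℂ => Real.log ‖f‖) (cocompact ℂ) atTop :=
      Real.tendsto_log_atTop.comp tendsto_norm_cocompact_atTop
    have hev2 : ∀ᶠ f in cocompact ℂ, ∀ i, ∀ x : ℂ, x ≠ 0 →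
      bev f x (G i) = 0 → ∃ s ∈ Si i, |Real.log ‖x‖ - s * Real.log ‖f‖| ≤ Ki i :=
      eventually_all.2 fun i => hSi i
    have hev3 : ∀ᶠ f in cocompact ℂ, Δ.eval f ≠ 0 := by
      filter_upwards [hBf.isCompact.compl_mem_cocompact] with f h2 h4
      exact h2 h4
    rw [Metric.tendsto_nhds]
    intro η hη
    set η' : ℝ := min (η / 2) 1 with hη'
    have hη0 : 0 < η' := lt_min (by linarith) one_pos
    have hη1 : η' ≤ 1 := min_le_right _ _
    have hη2 : η' < η := lt_of_le_of_lt (min_le_left _ _) (by linarith)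
    have hev := Y12b_inf hl T' Ki μ hμ a (fun i => (M i : ℝ)) (fun s hs => ha s
      (Finset.mem_union_right _ hs)) hτ ρ (Real.log η')
    filter_upwards [hev, hev2, hev3] with f h1 h2 h3
    rw [dist_zero_right, norm_prod]
    have h4 : ∀ θ ∈ shts χ p f, ‖Y12b_g X e f θ‖ ≤ η' := by
      intro θ hθ
      rw [hnorm f h3 θ hθ, ← Real.le_log_iff_exp_le hη0]
      obtain ⟨h5, h6⟩ := hmono f h3 θ hθ
      have h7 : ∀ i, ∃ s ∈ Si i, |Real.log ‖X i (f, θ)‖ - s * Real.log ‖f‖| ≤ Ki i :=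
        fun i => h2 i (X i (f, θ)) (hX0 f θ h3 h5 i) (hC.rel f θ h3 h5 i)
      choose s hs1 hs2 using h7
      refine h1 (fun i => Real.log ‖X i (f, θ)‖) ⟨s, ?_, hs2⟩ ?_ h6
      · rw [hT', Fintype.mem_piFinset]
        exact hs1
      · have h8 := hC.prod f θ h3 h5
        unfold fp at h8
        have h9 : Real.log ‖∏ j, X j (f, θ) ^ M j‖ = ∑ j, (M j : ℝ) * Real.log ‖X j (f, θ)‖ := by
          rw [norm_prod, Real.log_prod (fun i _ => norm_ne_zero_iff.2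
            (pow_ne_zero _ (hX0 f θ h3 h5 i)))]
          refine Finset.sum_congr rfl fun i _ => ?_
          rw [norm_pow, Real.log_pow]
        rw [h8] at h9
        exact h9.symm
    obtain ⟨θ₁, hθ₁⟩ := hne f h3
    refine lt_of_le_of_lt (Finset.prod_le_prod (fun θ _ => norm_nonneg _) h4) ?_
    rw [Finset.prod_const]
    have h5 : 0 < (shts χ p f).card := Finset.card_pos.2 ⟨θ₁, hθ₁⟩
    exact lt_of_le_of_lt (pow_le_of_le_one hη0.le hη1 h5.ne') hη2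

end XV
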