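import Pool.Agent.Lib.MP_228259_lc.V.Defs3

/-!
XV-Y13 (Crv_scale). Rescaling a curve so that the base point is `(1, θ₀)` with coordinates `1`.

Proof. `x₀ i = X i (f₀, θ₀) ≠ 0`, `f₀ = fp M x₀ ≠ 0`. New data: `Δ' = Δ.comp (C f₀ * X)`
(`Δ'.eval f = Δ.eval (f₀ f)`, nonzero, degree `≤`), `χ' f = χ (f₀ f)`, `X' i (f, θ) = X i (f₀ f, θ) / x₀ i`.
`pp M (x / x₀) i = pp M x i / pp M x₀ i`. `R' i`: the coefficient `((R i).coeff j).coeff k` multiplied by
`(pp M x₀ i)^k (x₀ i)^j` (e.g. `(R i).comp (C (C (x₀ i)) * X)` after mapping the coefficients by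
`Polynomial.comp (C s₀ * X)`, or `Polynomial.scaleRoots`-free explicit sums), so that
`bev s x (R' i) = bev (s₀ s) (x₀ x) (R i)`; same degrees, nonzero. `G' i` similarly with
`bev f x (G' i) = bev (f₀ f) (x₀ x) (G i)`.
-/

set_option autoImplicit false

namespace XV

theorem Y13_deg {A : Type*} [Semiring A] (c : A) :
    (Polynomial.C c * Polynomial.X : Polynomial A).natDegree ≤ 1 :=
  (Polynomial.natDegree_C_mul_le _ _).trans Polynomial.natDegree_X_le

/-- rescaling of both variables -/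
theorem Y13_scale (s₀ x₀ : ℂ) (hs : s₀ ≠ 0) (hx : x₀ ≠ 0) (R : Polynomial (Polynomial ℂ)) :
    ∃ R' : Polynomial (Polynomial ℂ),
      (∀ s x, bev s x R' = bev (s₀ * s) (x₀ * x) R) ∧ (R ≠ 0 → R' ≠ 0) ∧
      R'.natDegree ≤ R.natDegree ∧ ∀ k, (R'.coeff k).natDegree ≤ (R.coeff k).natDegree := by
  set ψ : Polynomial ℂ →+* Polynomial ℂ :=
    Polynomial.compRingHom (Polynomial.C s₀ * Polynomial.X) with hψ
  have hcoe : ∀ k, ((R.map ψ).comp (Polynomial.C (Polynomial.C x₀) * Polynomial.X)).coeff k =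
      ((R.coeff k).comp (Polynomial.C s₀ * Polynomial.X)) * (Polynomial.C x₀) ^ k := by
    intro k
    rw [Polynomial.comp_C_mul_X_coeff, Polynomial.coeff_map, hψ, Polynomial.coe_compRingHom_apply]
  refine ⟨(R.map ψ).comp (Polynomial.C (Polynomial.C x₀) * Polynomial.X), ?_, ?_, ?_, ?_⟩
  · intro s x
    unfold bev
    have h1 : (Polynomial.evalRingHom s).comp ψ = Polynomial.evalRingHom (s₀ * s) := by
      ext
      · simp [hψ]
      · simp [hψ]
    rw [Polynomial.map_comp, Polynomial.eval_comp, Polynomial.map_map, h1]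
    simp
  · intro hR h0
    apply hR
    ext k j
    have h2 := hcoe k
    rw [h0, Polynomial.coeff_zero] at h2
    have h3 : ((R.coeff k).comp (Polynomial.C s₀ * Polynomial.X)) = 0 := by
      rcases mul_eq_zero.mp h2.symm with h | h
      · exact h
      · exact absurd h (pow_ne_zero _ (Polynomial.C_ne_zero.mpr hx))
    have h4 := congrArg (fun p => Polynomial.coeff p j) h3
    simp only [Polynomial.comp_C_mul_X_coeff, Polynomial.coeff_zero] at h4
    rcases mul_eq_zero.mp h4 with h | h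
    · simpa using h
    · exact absurd h (pow_ne_zero _ hs)
  · refine (Polynomial.natDegree_comp_le).trans ?_
    have h1 : (Polynomial.C (Polynomial.C x₀) * Polynomial.X).natDegree ≤ 1 :=
      Y13_deg _
    calc (R.map ψ).natDegree * (Polynomial.C (Polynomial.C x₀) * Polynomial.X).natDegree
        ≤ R.natDegree * 1 := Nat.mul_le_mul Polynomial.natDegree_map_le h1
      _ = R.natDegree := mul_one _
  · intro k
    rw [hcoe k, ← Polynomial.C_pow]
    refine (Polynomial.natDegree_mul_C_le _ _).trans ?_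
    refine (Polynomial.natDegree_comp_le).trans ?_
    calc (R.coeff k).natDegree * (Polynomial.C s₀ * Polynomial.X).natDegree
        ≤ (R.coeff k).natDegree * 1 :=
          Nat.mul_le_mul le_rfl (Y13_deg _)
      _ = (R.coeff k).natDegree := mul_one _

theorem Y13_pp {r : ℕ} (M : Fin r → ℕ) (x y : Fin r → ℂ) (i : Fin r) :
    pp M (fun j => x j / y j) i = pp M x i / pp M y i := by
  unfold pp
  rw [← Finset.prod_div_distrib]
  exact Finset.prod_congr rfl fun j _ => div_pow _ _ _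

theorem Y13_fp {r : ℕ} (M : Fin r → ℕ) (x y : Fin r → ℂ) :
    fp M (fun j => x j / y j) = fp M x / fp M y := by
  unfold fp
  rw [← Finset.prod_div_distrib]
  exact Finset.prod_congr rfl fun j _ => div_pow _ _ _

theorem Crv_scale {r : ℕ} {M : Fin r → ℕ} {D m : ℕ} {Δ : Polynomial ℂ}
    {χ : ℂ → Polynomial ℂ} {X : Fin r → ℂ × ℂ → ℂ} {R G : Fin r → Polynomial (Polynomial ℂ)}
    (hC : Crv M D m Δ χ X R G) (f₀ θ₀ : ℂ) (h0 : Δ.eval f₀ ≠ 0) (hθ : (χ f₀).eval θ₀ = 0) :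
    f₀ ≠ 0 ∧ (∀ i, X i (f₀, θ₀) ≠ 0) ∧
    ∃ R' G' : Fin r → Polynomial (Polynomial ℂ),
      Crv M D m (Δ.comp (Polynomial.C f₀ * Polynomial.X)) (fun f => χ (f₀ * f))
        (fun i z => X i (f₀ * z.1, z.2) / X i (f₀, θ₀)) R' G' := by
  have hX0 : ∀ i, X i (f₀, θ₀) ≠ 0 := (hC.tow f₀ θ₀ h0 hθ).1
  have hfp : fp M (fun i => X i (f₀, θ₀)) = f₀ := hC.prod f₀ θ₀ h0 hθ
  have hf0 : f₀ ≠ 0 := by
    rw [← hfp]
    exact Finset.prod_ne_zero_iff.mpr fun i _ => pow_ne_zero _ (hX0 i)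
  have hpp : ∀ i, pp M (fun i => X i (f₀, θ₀)) i ≠ 0 := fun i =>
    Finset.prod_ne_zero_iff.mpr fun j _ => pow_ne_zero _ (hX0 j)
  refine ⟨hf0, hX0, ?_⟩
  choose R' hR1 hR2 hR3 hR4 using fun i =>
    Y13_scale (pp M (fun i => X i (f₀, θ₀)) i) (X i (f₀, θ₀)) (hpp i) (hX0 i) (R i)
  choose G' hG1 hG2 hG3 hG4 using fun i => Y13_scale f₀ (X i (f₀, θ₀)) hf0 (hX0 i) (G i)
  have hev : ∀ f, (Δ.comp (Polynomial.C f₀ * Polynomial.X)).eval f = Δ.eval (f₀ * f) := by
    intro f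
    rw [Polynomial.eval_comp]
    simp
  refine ⟨R', G', ?_⟩
  refine
    { ne := ?_
      deg := ?_
      monic := fun f => hC.monic (f₀ * f)
      pos := hC.pos
      coeff := ?_
      simple := ?_
      diff := ?_
      tow := ?_
      prod := ?_
      tdeg := ?_
      rel := ?_
      gdeg := ?_ }
  · intro h
    apply hC.ne
    ext j
    have h4 := congrArg (fun p => Polynomial.coeff p j) h
    simp only [Polynomial.comp_C_mul_X_coeff, Polynomial.coeff_zero] at h4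
    rcases mul_eq_zero.mp h4 with h | h
    · simpa using h
    · exact absurd h (pow_ne_zero _ hf0)
  · refine (Polynomial.natDegree_comp_le).trans ?_
    calc Δ.natDegree * (Polynomial.C f₀ * Polynomial.X).natDegree
        ≤ Δ.natDegree * 1 := Nat.mul_le_mul le_rfl (Y13_deg _)
      _ = Δ.natDegree := mul_one _
      _ ≤ D := hC.deg
  · intro i
    exact (hC.coeff i).comp (differentiable_id.const_mul f₀)
  · intro f θ h1 h2
    rw [hev] at h1
    exact hC.simple (f₀ * f) θ h1 h2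
  · intro f θ h1 h2 i
    rw [hev] at h1
    have h3 := hC.diff (f₀ * f) θ h1 h2 i
    have h4 : DifferentiableAt ℂ (fun z : ℂ × ℂ => (f₀ * z.1, z.2)) (f, θ) := by fun_prop
    have h5 : DifferentiableAt ℂ (fun z : ℂ × ℂ => X i (f₀ * z.1, z.2)) (f, θ) :=
      DifferentiableAt.comp (f := fun z : ℂ × ℂ => (f₀ * z.1, z.2)) (g := X i) (f, θ) h3 h4
    simpa only [div_eq_mul_inv] using h5.mul_const (X i (f₀, θ₀))⁻¹
  · intro f θ h1 h2
    rw [hev] at h1
    have h3 := hC.tow (f₀ * f) θ h1 h2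
    refine ⟨fun i => div_ne_zero (h3.1 i) (hX0 i), fun i hi => ?_⟩
    rw [hR1]
    show bev (pp M (fun i => X i (f₀, θ₀)) i *
      pp M (fun i => X i (f₀ * f, θ) / X i (f₀, θ₀)) i)
      (X i (f₀, θ₀) * (X i (f₀ * f, θ) / X i (f₀, θ₀))) (R i) = 0
    rw [Y13_pp M (fun i => X i (f₀ * f, θ)) (fun i => X i (f₀, θ₀)) i,
      mul_div_cancel₀ _ (hpp i), mul_div_cancel₀ _ (hX0 i)]
    exact h3.2 i hi
  · intro f θ h1 h2
    rw [hev] at h1
    have h3 := hC.prod (f₀ * f) θ h1 h2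
    show fp M (fun i => X i (f₀ * f, θ) / X i (f₀, θ₀)) = f
    rw [Y13_fp M (fun i => X i (f₀ * f, θ)) (fun i => X i (f₀, θ₀)), h3, hfp]
    field_simp
  · intro i hi
    obtain ⟨h1, h2, h3⟩ := hC.tdeg i hi
    exact ⟨hR2 i h1, lt_of_le_of_lt (hR3 i) h2, fun k => (hR4 i k).trans (h3 k)⟩
  · intro f θ h1 h2 i
    rw [hev] at h1
    have h3 := hC.rel (f₀ * f) θ h1 h2 i
    rw [hG1]
    show bev (f₀ * f) (X i (f₀, θ₀) * (X i (f₀ * f, θ) / X i (f₀, θ₀))) (G i) = 0
    rw [mul_div_cancel₀ _ (hX0 i)]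
    exact h3
  · intro i
    obtain ⟨h1, h2, h3⟩ := hC.gdeg i
    exact ⟨hG2 i h1, (hG3 i).trans h2, fun k => (hG4 i k).trans (h3 k)⟩

end XV
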