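import Pool.Agent.Lib.MP_228259_lc.V.Y1

/-!
XV-Y2 (gap). A gap in the sizes of the solutions of a tower, relative to a given solution `x₀`.

Proof. `tower_count` (with `L`) gives `N₀, K₀`; for the tower `R` and `f₀ = fp M x₀ ≠ 0` (`x₀ i ≠ 0`) the
set `T`. For `τ ∈ T` let `d_τ = sup_i |τ i - log ‖x₀ i‖|` (`Finset.sup'`, `Fin (r+1)` nonempty). Levels
`t_j = (2 K₀ + 3)(j + 1)`, `j = 0, …, N₀` (`N₀ + 1` of them); the intervals `[t_j - K₀, t_j + 1 + K₀]` are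
disjoint, so (pigeonhole) one of them, `K₁ = t_j`, contains no `d_τ`. A solution `x` with
`|log ‖fp M x‖ - log ‖f₀‖| ≤ L` is near some `τ`: if `d_τ < K₁ - K₀` all
`|log ‖x i‖ - log ‖x₀ i‖| ≤ K₁`; if `d_τ > K₁ + 1 + K₀` then for the index `i` where the sup is attained
`|log ‖x i‖ - log ‖x₀ i‖| ≥ K₁ + 1`. `K = t_{N₀}` (at least `1`).

`gap_lc`: for a curve, the predicate `p` = first alternative is constant along holomorphic roots over
balls in `U` : the functions `|log ‖X i (f, θ f)‖ - log ‖x₀ i‖|` are continuous on the ball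
(`Crv_hol`), the ball is preconnected and is the disjoint union of the closed sets of the two
alternatives (or: the continuous function `sup_i |…|` avoids `K₁ + 1/2`, `IsPreconnected` image).
-/

set_option autoImplicit false

namespace XV

theorem gap {r : ℕ} (M : Fin (r + 1) → ℕ) (hM : M 0 = 1) (D : ℕ) (L : ℝ) (hL : 0 ≤ L) :
    ∃ K : ℝ, 1 ≤ K ∧ ∀ R : Fin (r + 1) → Polynomial (Polynomial ℂ), TDeg M D R →
      ∀ x₀ : Fin (r + 1) → ℂ, Tow M R x₀ → ∃ K₁ : ℝ, 1 ≤ K₁ ∧ K₁ ≤ K ∧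
        ∀ x : Fin (r + 1) → ℂ, Tow M R x → |Real.log ‖fp M x‖ - Real.log ‖fp M x₀‖| ≤ L →
          (∀ i, |Real.log ‖x i‖ - Real.log ‖x₀ i‖| ≤ K₁) ∨
          (∃ i, K₁ + 1 ≤ |Real.log ‖x i‖ - Real.log ‖x₀ i‖|) := by
  classical
  obtain ⟨N₀, K₀, hK₀, hT⟩ := tower_count M hM D L
  refine ⟨(2 * K₀ + 3) * (N₀ + 1), ?_, ?_⟩
  · have h0 : (0 : ℝ) ≤ (N₀ : ℝ) := Nat.cast_nonneg _
    nlinarith
  intro R hR x₀ hx₀
  have hf : fp M x₀ ≠ 0 := by
    unfold fp
    exact Finset.prod_ne_zero_iff.mpr (fun j _ => pow_ne_zero _ (hx₀.1 j))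
  obtain ⟨T, hcard, hTx⟩ := hT R hR (fp M x₀) hf
  have hne : (Finset.univ : Finset (Fin (r + 1))).Nonempty := ⟨0, Finset.mem_univ _⟩
  set d : (Fin (r + 1) → ℝ) → ℝ := fun τ =>
    Finset.univ.sup' hne (fun i => |τ i - Real.log ‖x₀ i‖|) with hd
  set t : ℕ → ℝ := fun j => (2 * K₀ + 3) * ((j : ℝ) + 1) with ht
  -- the gap
  have hgap : ∃ j : Fin (N₀ + 1), ∀ τ ∈ T, d τ < t j - K₀ ∨ t j + 1 + K₀ < d τ := by
    by_contra hcon
    push Not at hcon
    choose g hgT hg1 hg2 using hcon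
    have hinj : Function.Injective g := by
      intro a b hab
      by_contra hne'
      have hval : (a : ℕ) ≠ (b : ℕ) := fun h => hne' (Fin.ext h)
      have ha1 := hg1 a
      have ha2 := hg2 a
      have hb1 := hg1 b
      have hb2 := hg2 b
      rw [hab] at ha1 ha2
      simp only [ht] at ha1 ha2 hb1 hb2
      rcases lt_or_gt_of_ne hval with h | h
      · have h' : ((a : ℕ) : ℝ) + 1 ≤ ((b : ℕ) : ℝ) := by exact_mod_cast h
        nlinarith
      · have h' : ((b : ℕ) : ℝ) + 1 ≤ ((a : ℕ) : ℝ) := by exact_mod_cast h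
        nlinarith
    have hc : (Finset.univ : Finset (Fin (N₀ + 1))).card ≤ T.card :=
      Finset.card_le_card_of_injOn g (fun j _ => hgT j) hinj.injOn
    rw [Finset.card_univ, Fintype.card_fin] at hc
    omega
  obtain ⟨j, hj⟩ := hgap
  have hj0 : (0 : ℝ) ≤ ((j : ℕ) : ℝ) := Nat.cast_nonneg _
  have hjN : ((j : ℕ) : ℝ) ≤ (N₀ : ℝ) := by exact_mod_cast (Nat.lt_succ_iff.mp j.isLt)
  refine ⟨t j, ?_, ?_, ?_⟩
  · simp only [ht]
    nlinarith
  · simp only [ht]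
    nlinarith
  intro x hx hxL
  obtain ⟨τ, hτ, hclose⟩ := hTx x hx hxL
  rcases hj τ hτ with h | h
  · left
    intro i
    have h1 : |τ i - Real.log ‖x₀ i‖| ≤ d τ :=
      Finset.le_sup' (fun i => |τ i - Real.log ‖x₀ i‖|) (Finset.mem_univ i)
    have h2 := hclose i
    have h3 : |Real.log ‖x i‖ - Real.log ‖x₀ i‖| ≤
        |Real.log ‖x i‖ - τ i| + |τ i - Real.log ‖x₀ i‖| := abs_sub_le _ _ _
    linarith
  · right
    obtain ⟨i, _, hi⟩ := Finset.exists_mem_eq_sup' hne (fun i => |τ i - Real.log ‖x₀ i‖|)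
    refine ⟨i, ?_⟩
    have h1 : d τ = |τ i - Real.log ‖x₀ i‖| := hi
    have h2 := hclose i
    have h3 : |τ i - Real.log ‖x₀ i‖| ≤
        |τ i - Real.log ‖x i‖| + |Real.log ‖x i‖ - Real.log ‖x₀ i‖| := abs_sub_le _ _ _
    rw [abs_sub_comm (τ i) (Real.log ‖x i‖)] at h3
    linarith

end XV
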