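import Pool.Agent.Lib.MP_228259_lc.V.Y2
import Pool.Agent.Lib.MP_228259_lc.V.F10

/-!
XV-Y2b (gap_lc). For a curve normalised at `(1, θ₀)` there is a level `K₁ ≤ K` (`K` depends only on the
discrete data) such that the predicate `∀ i, |log ‖X i (f, θ)‖| ≤ K₁` is locally constant over
`ball 1 (1/2)`.

Proof. `gap` with `L = log 2` (`≥ 0`), `R` and `x₀ i = X i (1, θ₀) = 1`, so `log ‖x₀ i‖ = 0`,
`fp M x₀ = 1`. For `f` in `ball 1 (1/2)`: `fp M (X · (f, θ)) = f` (`Crv.prod`), `1/2 < ‖f‖ < 3/2`, so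
`|log ‖f‖| ≤ log 2`. Along a holomorphic root over a ball in `U` the continuous functions
`f ↦ |log ‖X i (f, θ f)‖|` (`Crv_hol`) have, at every point, all values `≤ K₁` or one value `≥ K₁ + 1`;
the ball is preconnected and both sets are relatively closed and disjoint.
-/

set_option autoImplicit false

namespace XV

theorem gap_lc {r : ℕ} (M : Fin (r + 1) → ℕ) (hM : M 0 = 1) (D m : ℕ) :
    ∃ K : ℝ, 1 ≤ K ∧ ∀ (Δ : Polynomial ℂ) (χ : ℂ → Polynomial ℂ)
      (X : Fin (r + 1) → ℂ × ℂ → ℂ) (R G : Fin (r + 1) → Polynomial (Polynomial ℂ)) (θ₀ : ℂ),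
      Crv M D m Δ χ X R G → Δ.eval 1 ≠ 0 → (χ 1).eval θ₀ = 0 → (∀ i, X i (1, θ₀) = 1) →
      ∃ K₁ : ℝ, 1 ≤ K₁ ∧ K₁ ≤ K ∧ ∀ U : Set ℂ, U ⊆ Metric.ball 1 (1 / 2) →
        (∀ f ∈ U, Δ.eval f ≠ 0) →
        LC χ U (fun f θ => ∀ i, |Real.log ‖X i (f, θ)‖| ≤ K₁) := by
  obtain ⟨K, hK1, hK⟩ := gap M hM D (Real.log 2) (Real.log_nonneg (by norm_num))
  refine ⟨K, hK1, ?_⟩
  intro Δ χ X R G θ₀ hC hΔ hθ hone
  obtain ⟨K₁, h1, h2, h3⟩ := hK R hC.tdeg (fun i => X i (1, θ₀)) (hC.tow 1 θ₀ hΔ hθ)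
  refine ⟨K₁, h1, h2, ?_⟩
  intro U hU hUg z ρ θ hB f hf f' hf' hp
  -- the dichotomy
  have hdi : ∀ w ∈ Metric.ball z ρ, (∀ i, |Real.log ‖X i (w, θ w)‖| ≤ K₁) ∨
      (∃ i, K₁ + 1 ≤ |Real.log ‖X i (w, θ w)‖|) := by
    intro w hw
    have hwU := hB.sub hw
    have hgw := hUg w hwU
    have hrw := hB.root w hw
    have hbw := hU hwU
    rw [Metric.mem_ball, dist_eq_norm] at hbw
    have hn1 : ‖w‖ < 3 / 2 := by
      have e1 : ‖w‖ ≤ ‖w - 1‖ + ‖(1 : ℂ)‖ := by
        have := norm_add_le (w - 1) 1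
        rwa [sub_add_cancel] at this
      rw [norm_one] at e1
      linarith
    have hn2 : 1 / 2 < ‖w‖ := by
      have e1 : ‖(1 : ℂ)‖ ≤ ‖w - 1‖ + ‖w‖ := by
        have := norm_sub_le w (w - 1)
        rw [sub_sub_cancel] at this
        linarith
      rw [norm_one] at e1
      linarith
    have hlog : |Real.log ‖w‖| ≤ Real.log 2 := by
      rw [abs_le]
      constructor
      · rw [← Real.log_inv]
        exact Real.log_le_log (by norm_num) (by norm_num; linarith)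
      · exact Real.log_le_log (by linarith) (by linarith)
    have h4 := h3 (fun i => X i (w, θ w)) (hC.tow w (θ w) hgw hrw) (by
      rw [hC.prod w (θ w) hgw hrw, hC.prod 1 θ₀ hΔ hθ, norm_one, Real.log_one, sub_zero]
      exact hlog)
    simpa only [hone, norm_one, Real.log_one, sub_zero] using h4
  -- continuity of the supremum
  have hne : (Finset.univ : Finset (Fin (r + 1))).Nonempty := Finset.univ_nonempty
  have hcont : ContinuousOn (fun w => Finset.univ.sup' hne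
      (fun i : Fin (r + 1) => |Real.log ‖X i (w, θ w)‖|)) (Metric.ball z ρ) := by
    apply ContinuousOn.finset_sup'_apply
    intro i _
    obtain ⟨e1, e2⟩ := Crv_hol hC hUg hB i
    have e3 : ContinuousOn (fun w => ‖X i (w, θ w)‖) (Metric.ball z ρ) := e1.continuousOn.norm
    exact (e3.log (fun w hw => (norm_ne_zero_iff.2 (e2 w hw)))).abs
  by_contra hcon
  have hf'2 : ∃ i, K₁ + 1 ≤ |Real.log ‖X i (f', θ f')‖| := by
    rcases hdi f' hf' with h | h
    · exact absurd h hcon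
    · exact h
  obtain ⟨i', hi'⟩ := hf'2
  have ha : (Finset.univ.sup' hne (fun i : Fin (r + 1) => |Real.log ‖X i (f, θ f)‖|)) ≤ K₁ :=
    Finset.sup'_le hne _ (fun i _ => hp i)
  have hb : K₁ + 1 ≤
      (Finset.univ.sup' hne (fun i : Fin (r + 1) => |Real.log ‖X i (f', θ f')‖|)) :=
    hi'.trans (Finset.le_sup' (fun i : Fin (r + 1) => |Real.log ‖X i (f', θ f')‖|)
      (Finset.mem_univ i'))
  obtain ⟨w, hw, hwv⟩ := (convex_ball z ρ).isPreconnected.intermediate_value hf hf' hcont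
    (show K₁ + 1 / 2 ∈ Set.Icc _ _ from ⟨by linarith, by linarith⟩)
  simp only at hwv
  rcases hdi w hw with h | ⟨i, hi⟩
  · have e1 : (Finset.univ.sup' hne (fun i : Fin (r + 1) => |Real.log ‖X i (w, θ w)‖|)) ≤ K₁ :=
      Finset.sup'_le hne _ (fun i _ => h i)
    rw [hwv] at e1
    linarith
  · have e1 : |Real.log ‖X i (w, θ w)‖| ≤
        (Finset.univ.sup' hne (fun i : Fin (r + 1) => |Real.log ‖X i (w, θ w)‖|)) :=
      Finset.le_sup' (fun i : Fin (r + 1) => |Real.log ‖X i (w, θ w)‖|) (Finset.mem_univ i)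
    rw [hwv] at e1
    linarith

end XV
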