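import Pool.Agent.Lib.MP_228259_lc.V.Defs3
import Pool.Agent.Lib.MP_228259_lc.V.F1
import Pool.Agent.Lib.MP_228259_lc.V.F10

/-!
XV-Y3 (local_roots, sym_sum, sym_prod, sym_card). Symmetric functions of the roots with a locally
constant property.

`local_roots`: at `f₁ ∈ U` the polynomial `χ f₁` has `m` different roots (`ℂ` algebraically closed,
simple roots: `Polynomial.nodup_roots`, separable). Take a ball about `f₁` inside `U` and for each root a
holomorphic root over the ball (`cov_branch`); two of them never meet (`branch_unique`), so they give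
`m` different roots of `χ f`, i.e. all of them. The index set is the finite set of the roots at `f₁`.

`sym_sum`, `sym_prod`: on that ball the predicate `p f (θ_j f)` does not depend on `f` (`LC`), so the sum
over `shts χ p f` is `∑_{j, p f₁ j} g f (θ_j f)`, differentiable (`Hol`).
`sym_card`: `f ↦ (shts χ p f).card` is locally constant on `U`, hence constant on preconnected subsets
(`IsPreconnected.constant_of_…` or `IsLocallyConstant` on the subtype).
-/

set_option autoImplicit false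

namespace XV

open Filter Topology

private theorem Y3_card {χ : ℂ → Polynomial ℂ} {U : Set ℂ} {m : ℕ} (hF : Fam χ U m) {f : ℂ}
    (hf : f ∈ U) : (χ f).roots.toFinset.card = m := by
  have h0 : χ f ≠ 0 := (hF.monic f hf).1.ne_zero
  have hn : (χ f).roots.Nodup := by
    rw [Multiset.nodup_iff_count_le_one]
    intro a
    rw [Polynomial.count_roots]
    by_contra h
    have h1 : 1 < (χ f).rootMultiplicity a := by omega
    obtain ⟨h2, h3⟩ := (Polynomial.one_lt_rootMultiplicity_iff_isRoot h0).1 h1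
    exact hF.simple f hf a h2 h3
  rw [Multiset.toFinset_card_of_nodup hn, IsAlgClosed.card_roots_eq_natDegree]
  exact (hF.monic f hf).2

private theorem Y3_mem {χ : ℂ → Polynomial ℂ} {U : Set ℂ} {m : ℕ} (hF : Fam χ U m) {f : ℂ}
    (hf : f ∈ U) (a : ℂ) : a ∈ (χ f).roots.toFinset ↔ (χ f).eval a = 0 := by
  have h0 : χ f ≠ 0 := (hF.monic f hf).1.ne_zero
  rw [Multiset.mem_toFinset, Polynomial.mem_roots h0]
  rfl

theorem local_roots {χ : ℂ → Polynomial ℂ} {U : Set ℂ} {m : ℕ} (hF : Fam χ U m) {f₁ : ℂ}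
    (hf₁ : f₁ ∈ U) :
    ∃ (ρ : ℝ) (θ : ℂ → ℂ → ℂ), 0 < ρ ∧
      (∀ j ∈ (χ f₁).roots.toFinset, Br χ U f₁ ρ (θ j) ∧ θ j f₁ = j) ∧
      (∀ f ∈ Metric.ball f₁ ρ, Set.InjOn (fun j => θ j f) ((χ f₁).roots.toFinset : Set ℂ) ∧
        (χ f).roots.toFinset = (χ f₁).roots.toFinset.image (fun j => θ j f)) := by
  classical
  obtain ⟨ρ, hρ, hb⟩ := Metric.isOpen_iff.1 hF.isOpen f₁ hf₁
  have hex : ∀ j : ℂ, (χ f₁).eval j = 0 → ∃ θ : ℂ → ℂ, DifferentiableOn ℂ θ (Metric.ball f₁ ρ) ∧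
      θ f₁ = j ∧ ∀ u ∈ Metric.ball f₁ ρ, (χ u).eval (θ u) = 0 := fun j hj =>
    cov_branch Metric.isOpen_ball (convex_ball f₁ ρ) χ m (fun u hu => hF.monic u (hb hu))
      (fun i => (hF.coeff i).mono hb) (fun u hu => hF.simple u (hb hu))
      (Metric.mem_ball_self hρ) hj
  choose! θ hθ using hex
  refine ⟨ρ, θ, hρ, ?_, ?_⟩
  · intro j hj
    rw [Y3_mem hF hf₁] at hj
    obtain ⟨h1, h2, h3⟩ := hθ j hj
    exact ⟨⟨hb, h1, h3⟩, h2⟩
  · intro f hf
    have hinj : Set.InjOn (fun j => θ j f) ((χ f₁).roots.toFinset : Set ℂ) := by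
      intro j hj k hk hjk
      rw [Finset.mem_coe, Y3_mem hF hf₁] at hj hk
      obtain ⟨h1, h2, h3⟩ := hθ j hj
      obtain ⟨g1, g2, g3⟩ := hθ k hk
      have h4 := branch_unique (convex_ball f₁ ρ).isPreconnected χ m
        (fun u hu => (hF.monic u (hb hu)).2.le) (fun i => ((hF.coeff i).mono hb).continuousOn)
        (fun u hu => hF.simple u (hb hu)) (θ j) (θ k) h1.continuousOn g1.continuousOn h3 g3 hf hjk
        f₁ (Metric.mem_ball_self hρ)
      rw [h2, g2] at h4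
      exact h4
    refine ⟨hinj, ?_⟩
    symm
    refine Finset.eq_of_subset_of_card_le ?_ ?_
    · intro a ha
      rw [Finset.mem_image] at ha
      obtain ⟨j, hj, rfl⟩ := ha
      rw [Y3_mem hF hf₁] at hj
      rw [Y3_mem hF (hb hf)]
      exact (hθ j hj).2.2 f hf
    · rw [Finset.card_image_of_injOn hinj, Y3_card hF hf₁, Y3_card hF (hb hf)]

private theorem Y3_loc {χ : ℂ → Polynomial ℂ} {U : Set ℂ} {m : ℕ} (hF : Fam χ U m)
    {p : ℂ → ℂ → Prop} (hp : LC χ U p) {f₁ : ℂ} (hf₁ : f₁ ∈ U) :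
    ∃ (ρ : ℝ) (θ : ℂ → ℂ → ℂ) (T : Finset ℂ), 0 < ρ ∧
      (∀ j ∈ T, Br χ U f₁ ρ (θ j) ∧ ∀ f ∈ Metric.ball f₁ ρ, p f (θ j f)) ∧
      (∀ f ∈ Metric.ball f₁ ρ, Set.InjOn (fun j => θ j f) (T : Set ℂ) ∧
        shts χ p f = T.image (fun j => θ j f)) := by
  classical
  obtain ⟨ρ, θ, hρ, h1, h2⟩ := local_roots hF hf₁
  refine ⟨ρ, θ, (χ f₁).roots.toFinset.filter (p f₁), hρ, ?_, ?_⟩
  · intro j hj
    rw [Finset.mem_filter] at hj
    obtain ⟨hB, hj1⟩ := h1 j hj.1
    refine ⟨hB, fun f hf => ?_⟩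
    refine hp f₁ ρ (θ j) hB f₁ (Metric.mem_ball_self hρ) f hf ?_
    rw [hj1]
    exact hj.2
  · intro f hf
    obtain ⟨hinj, him⟩ := h2 f hf
    refine ⟨fun j hj k hk => hinj (Finset.mem_filter.1 hj).1 (Finset.mem_filter.1 hk).1, ?_⟩
    ext a
    simp only [shts, Finset.mem_filter, Finset.mem_image, him]
    constructor
    · rintro ⟨⟨j, hj, rfl⟩, hpa⟩
      obtain ⟨hB, hj1⟩ := h1 j hj
      have h3 := hp f₁ ρ (θ j) hB f hf f₁ (Metric.mem_ball_self hρ) hpa
      rw [hj1] at h3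
      exact ⟨j, ⟨hj, h3⟩, rfl⟩
    · rintro ⟨j, ⟨hj, hpj⟩, rfl⟩
      obtain ⟨hB, hj1⟩ := h1 j hj
      refine ⟨⟨j, hj, rfl⟩, ?_⟩
      refine hp f₁ ρ (θ j) hB f₁ (Metric.mem_ball_self hρ) f hf ?_
      rw [hj1]
      exact hpj

theorem sym_sum {χ : ℂ → Polynomial ℂ} {U : Set ℂ} {m : ℕ} (hF : Fam χ U m)
    {p : ℂ → ℂ → Prop} (hp : LC χ U p) {g : ℂ → ℂ → ℂ} (hg : Hol χ U p g) :
    DifferentiableOn ℂ (fun f => ∑ θ ∈ shts χ p f, g f θ) U := by
  classical
  intro f₁ hf₁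
  obtain ⟨ρ, θ, T, hρ, h1, h2⟩ := Y3_loc hF hp hf₁
  have h3 : DifferentiableOn ℂ (fun f => ∑ j ∈ T, g f (θ j f)) (Metric.ball f₁ ρ) := by
    have : (fun f => ∑ j ∈ T, g f (θ j f)) = ∑ j ∈ T, (fun f => g f (θ j f)) := by
      ext f
      rw [Finset.sum_apply]
    rw [this]
    exact DifferentiableOn.sum fun j hj => hg f₁ ρ (θ j) (h1 j hj).1 (h1 j hj).2
  have h4 : DifferentiableOn ℂ (fun f => ∑ θ ∈ shts χ p f, g f θ) (Metric.ball f₁ ρ) := by
    refine h3.congr fun f hf => ?_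
    obtain ⟨hinj, him⟩ := h2 f hf
    rw [him, Finset.sum_image hinj]
  exact (h4.differentiableAt (Metric.isOpen_ball.mem_nhds
    (Metric.mem_ball_self hρ))).differentiableWithinAt

theorem sym_prod {χ : ℂ → Polynomial ℂ} {U : Set ℂ} {m : ℕ} (hF : Fam χ U m)
    {p : ℂ → ℂ → Prop} (hp : LC χ U p) {g : ℂ → ℂ → ℂ} (hg : Hol χ U p g) :
    DifferentiableOn ℂ (fun f => ∏ θ ∈ shts χ p f, g f θ) U := by
  classical
  intro f₁ hf₁
  obtain ⟨ρ, θ, T, hρ, h1, h2⟩ := Y3_loc hF hp hf₁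
  have hpr : ∀ T' : Finset ℂ, T' ⊆ T →
      DifferentiableOn ℂ (fun f => ∏ j ∈ T', g f (θ j f)) (Metric.ball f₁ ρ) := by
    intro T'
    induction T' using Finset.induction_on with
    | empty =>
      intro _
      simp only [Finset.prod_empty]
      exact differentiableOn_const _
    | insert a T' ha ih =>
      intro hT
      simp only [Finset.prod_insert ha]
      have haT : a ∈ T := hT (Finset.mem_insert_self a T')
      exact (hg f₁ ρ (θ a) (h1 a haT).1 (h1 a haT).2).mul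
        (ih ((Finset.subset_insert a T').trans hT))
  have h3 := hpr T (Finset.Subset.refl T)
  have h4 : DifferentiableOn ℂ (fun f => ∏ θ ∈ shts χ p f, g f θ) (Metric.ball f₁ ρ) := by
    refine h3.congr fun f hf => ?_
    obtain ⟨hinj, him⟩ := h2 f hf
    rw [him, Finset.prod_image hinj]
  exact (h4.differentiableAt (Metric.isOpen_ball.mem_nhds
    (Metric.mem_ball_self hρ))).differentiableWithinAt

theorem sym_card {χ : ℂ → Polynomial ℂ} {U : Set ℂ} {m : ℕ} (hF : Fam χ U m)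
    {p : ℂ → ℂ → Prop} (hp : LC χ U p) {V : Set ℂ} (hV : V ⊆ U) (hVc : IsPreconnected V) :
    ∀ f ∈ V, ∀ f' ∈ V, (shts χ p f).card = (shts χ p f').card := by
  classical
  intro f hf f' hf'
  refine hVc.constant (f := fun f => (shts χ p f).card) ?_ hf hf'
  intro f₁ hf₁
  obtain ⟨ρ, θ, T, hρ, h1, h2⟩ := Y3_loc hF hp (hV hf₁)
  have h3 : ∀ f ∈ Metric.ball f₁ ρ, (shts χ p f).card = T.card := by
    intro f hf
    obtain ⟨hinj, him⟩ := h2 f hf
    rw [him, Finset.card_image_of_injOn hinj]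
  have h4 : (fun f => (shts χ p f).card) =ᶠ[𝓝 f₁] fun _ => T.card :=
    Filter.eventually_of_mem (Metric.ball_mem_nhds f₁ hρ) h3
  exact (continuousAt_const.congr h4.symm).continuousWithinAt

end XV
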