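import Pool.Agent.Lib.MP_228259_lc.V.Y3
import Pool.Agent.Lib.MP_228259_lc.V.Y4

/-!
XV-Y5 (closeness). The values of a coordinate on the bounded sheets near `f = 1` are close to values
at `f = 1`.

Proof. `U = ball 1 (1/2) ∩ {Δ ≠ 0}` (open), `p f θ = ∀ i, |log ‖X i (f, θ)‖| ≤ K₁`. Fix `f, θ, i` and
`x₀ = X i (f, θ)`, `‖x₀‖ ≤ e^K`. `Φ(f') = ∏_{θ' ∈ shts χ p f'} (x₀ - X i (f', θ'))` is holomorphic on `U`
(`sym_prod`, `Crv_hol`), bounded by `(2 e^K)^m` (`mem_shts`, `card_shts`; `2 e^K ≥ 1`), and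
`U = ball 1 (1/2) \ B`, `B` finite (`Crv_fam`): `bdd_lip` (`r = 1/2`), `Φ(f) = 0` (the factor `θ`):
`‖Φ(1)‖ ≤ 8 (2 e^K)^m ‖f - 1‖`. The set `shts χ p 1` is not empty (`sym_card`, `ball_diff_finite`, and
`θ ∈ shts χ p f`). Let `θ'` in it minimise `t = ‖x₀ - X i (1, θ')‖ ≤ 2 e^K`; `k = card ≤ m`:
`t^k ≤ ‖Φ(1)‖`, `t^m = t^k t^(m-k) ≤ 8 (2 e^K)^m (2 e^K)^m ‖f - 1‖`.
-/

set_option autoImplicit false

namespace XV

theorem closeness {r : ℕ} (M : Fin r → ℕ) (D m : ℕ) (K : ℝ) (hK : 1 ≤ K) :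
    ∃ C : ℝ, 0 < C ∧ ∀ (Δ : Polynomial ℂ) (χ : ℂ → Polynomial ℂ)
      (X : Fin r → ℂ × ℂ → ℂ) (R G : Fin r → Polynomial (Polynomial ℂ)) (K₁ : ℝ), K₁ ≤ K →
      Crv M D m Δ χ X R G → Δ.eval 1 ≠ 0 →
      LC χ (Metric.ball 1 (1 / 2) ∩ {f | Δ.eval f ≠ 0})
        (fun f θ => ∀ i, |Real.log ‖X i (f, θ)‖| ≤ K₁) →
      ∀ f θ : ℂ, ‖f - 1‖ < 1 / 4 → Δ.eval f ≠ 0 → (χ f).eval θ = 0 →
        (∀ i, |Real.log ‖X i (f, θ)‖| ≤ K₁) →
        ∀ i, ∃ θ' : ℂ, (χ 1).eval θ' = 0 ∧ ‖X i (f, θ) - X i (1, θ')‖ ^ m ≤ C * ‖f - 1‖ := by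
  classical
  set E : ℝ := 2 * Real.exp K with hE
  have hE1 : 1 ≤ E := by
    have h1 : 1 ≤ Real.exp K := Real.one_le_exp (by linarith)
    linarith
  have hE0 : 0 < E := by linarith
  refine ⟨8 * E ^ m * E ^ m, by positivity, ?_⟩
  intro Δ χ X R G K₁ hK₁ hC hΔ1 hLC f θ hf hΔf hθ hp i
  set p : ℂ → ℂ → Prop := fun f θ => ∀ i, |Real.log ‖X i (f, θ)‖| ≤ K₁ with hpdef
  set B : Set ℂ := {f : ℂ | Δ.eval f = 0} with hB
  set U : Set ℂ := Metric.ball 1 (1 / 2) ∩ {f | Δ.eval f ≠ 0} with hU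
  have hUeq : U = Metric.ball 1 (1 / 2) \ B := by
    ext w
    simp [hU, hB]
  have hBfin : B.Finite := (Crv_fam hC isOpen_empty (fun f hf => absurd hf (by simp))).2
  have hUo : IsOpen U := by
    rw [hUeq]
    exact Metric.isOpen_ball.sdiff hBfin.isClosed
  have hUg : ∀ f ∈ U, Δ.eval f ≠ 0 := fun f hf => hf.2
  have hF : Fam χ U m := (Crv_fam hC hUo hUg).1
  have hbound : ∀ f' θ' : ℂ, Δ.eval f' ≠ 0 → (χ f').eval θ' = 0 → p f' θ' →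
      ‖X i (f', θ')‖ ≤ Real.exp K := by
    intro f' θ' h1 h2 h3
    have h4 : X i (f', θ') ≠ 0 := (hC.tow f' θ' h1 h2).1 i
    have h5 : Real.log ‖X i (f', θ')‖ ≤ K := (le_abs_self _).trans ((h3 i).trans hK₁)
    calc ‖X i (f', θ')‖ = Real.exp (Real.log ‖X i (f', θ')‖) :=
          (Real.exp_log (norm_pos_iff.2 h4)).symm
      _ ≤ Real.exp K := Real.exp_le_exp.2 h5
  set x₀ : ℂ := X i (f, θ) with hx₀
  have hx₀b : ‖x₀‖ ≤ Real.exp K := hbound f θ hΔf hθ hp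
  have hHol : Hol χ U p (fun f θ => x₀ - X i (f, θ)) := by
    intro z ρ θ₁ hBr _
    exact (Crv_hol hC hUg hBr i).1.const_sub x₀
  have hdiff := sym_prod hF hLC hHol
  have hfac : ∀ f' : ℂ, Δ.eval f' ≠ 0 → ∀ θ' ∈ shts χ p f', ‖x₀ - X i (f', θ')‖ ≤ E := by
    intro f' h1 θ' h2
    rw [mem_shts (hC.monic f').1] at h2
    have h3 := hbound f' θ' h1 h2.1 h2.2
    calc ‖x₀ - X i (f', θ')‖ ≤ ‖x₀‖ + ‖X i (f', θ')‖ := norm_sub_le _ _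
      _ ≤ E := by rw [hE]; linarith
  have hΦb : ∀ f' ∈ Metric.ball (1 : ℂ) (1 / 2) \ B,
      ‖∏ θ' ∈ shts χ p f', (x₀ - X i (f', θ'))‖ ≤ E ^ m := by
    intro f' hf'
    rw [norm_prod]
    calc ∏ θ' ∈ shts χ p f', ‖x₀ - X i (f', θ')‖ ≤ ∏ _θ' ∈ shts χ p f', E :=
          Finset.prod_le_prod (fun _ _ => norm_nonneg _) (hfac f' hf'.2)
      _ = E ^ (shts χ p f').card := by rw [Finset.prod_const]
      _ ≤ E ^ m := pow_le_pow_right₀ hE1 (card_shts p (hC.monic f').2)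
  have hlip := bdd_lip (Φ := fun f' => ∏ θ' ∈ shts χ p f', (x₀ - X i (f', θ')))
    (z := 1) (r := 1 / 2) (K := E ^ m) (by norm_num) hBfin (by rw [← hUeq]; exact hdiff) hΦb
    f ⟨by rw [Metric.mem_ball, dist_eq_norm]; linarith, hΔf⟩
    1 ⟨by rw [Metric.mem_ball, dist_self]; norm_num, hΔ1⟩
  have hfU : f ∈ U := ⟨by rw [Metric.mem_ball, dist_eq_norm]; linarith, hΔf⟩
  have h1U : (1 : ℂ) ∈ U := ⟨by rw [Metric.mem_ball, dist_self]; norm_num, hΔ1⟩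
  have hθm : θ ∈ shts χ p f := by
    rw [mem_shts (hC.monic f).1]
    exact ⟨hθ, hp⟩
  have hzero : ∏ θ' ∈ shts χ p f, (x₀ - X i (f, θ')) = 0 :=
    Finset.prod_eq_zero hθm (by rw [hx₀, sub_self])
  have hΦ1 : ‖∏ θ' ∈ shts χ p 1, (x₀ - X i (1, θ'))‖ ≤ 8 * E ^ m * ‖f - 1‖ := by
    have h2 : ‖∏ θ' ∈ shts χ p 1, (x₀ - X i (1, θ'))‖
        ≤ 4 * E ^ m / (1 / 2) * ‖f - 1‖ := by
      have h3 := hlip
      simp only [hzero, zero_sub, norm_neg] at h3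
      exact h3
    calc _ ≤ 4 * E ^ m / (1 / 2) * ‖f - 1‖ := h2
      _ = 8 * E ^ m * ‖f - 1‖ := by ring
  have hcard : (shts χ p f).card = (shts χ p 1).card :=
    sym_card hF hLC (V := U) subset_rfl (by rw [hUeq]; exact ball_diff_finite 1 (1 / 2) hBfin)
      f hfU 1 h1U
  have hne : (shts χ p 1).Nonempty := by
    rw [← Finset.card_pos, ← hcard, Finset.card_pos]
    exact ⟨θ, hθm⟩
  obtain ⟨θ', hθ', hmin⟩ := Finset.exists_min_image (shts χ p 1)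
    (fun θ' => ‖x₀ - X i (1, θ')‖) hne
  have hθ'2 := hθ'
  rw [mem_shts (hC.monic 1).1] at hθ'2
  refine ⟨θ', hθ'2.1, ?_⟩
  set t : ℝ := ‖x₀ - X i (1, θ')‖ with ht
  have ht0 : 0 ≤ t := norm_nonneg _
  have htE : t ≤ E := hfac 1 hΔ1 θ' hθ'
  have hk : (shts χ p 1).card ≤ m := card_shts p (hC.monic 1).2
  have htk : t ^ (shts χ p 1).card ≤ 8 * E ^ m * ‖f - 1‖ := by
    refine le_trans ?_ hΦ1
    rw [norm_prod, ← Finset.prod_const]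
    exact Finset.prod_le_prod (fun _ _ => ht0) hmin
  calc t ^ m = t ^ (shts χ p 1).card * t ^ (m - (shts χ p 1).card) := by
        rw [← pow_add, Nat.add_sub_cancel' hk]
    _ ≤ (8 * E ^ m * ‖f - 1‖) * E ^ m := by
        refine mul_le_mul htk ?_ (by positivity) (by positivity)
        calc t ^ (m - (shts χ p 1).card) ≤ E ^ (m - (shts χ p 1).card) :=
              pow_le_pow_left₀ ht0 htE _
          _ ≤ E ^ m := pow_le_pow_right₀ hE1 (Nat.sub_le _ _)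
    _ = 8 * E ^ m * E ^ m * ‖f - 1‖ := by ring

end XV
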