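import Mathlib

/-!
XV-Y6 (sep_subseq). After passing to a subsequence, finite sets of bounded size separate in points
which converge to `1` and points which stay away from `1`.

Proof. Enumerate each `A l i` by `Fin m` (with repetitions; if it is empty there is nothing to do, use a
default value, e.g. the function `Fin m → ℂ` whose range contains `A l i`, other values equal to `1` or
to `3`): `a : ℕ → (ι × Fin m → ℂ)`, `t l k = min ‖a l k - 1‖ 1 ∈ [0, 1]`. The cube
`ι × Fin m → [0,1]` is compact: `φ` with `t (φ l) → t∞` (`IsCompact.tendsto_subseq`). `ε = 1/16` times the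
minimum of `1` and the positive values of `t∞`. If `t∞ k = 0` then eventually `t (φ l) k < min ε' 1`, so
`‖a - 1‖ < ε'`; if `t∞ k > 0` then eventually `t (φ l) k > t∞ k / 2 ≥ 8 ε`, so `‖a - 1‖ > 4 ε`. Finitely
many `k`: `Filter.eventually_all`.
-/

set_option autoImplicit false

namespace XV

open Filter Topology

theorem Y6_enum (m : ℕ) (A : Finset ℂ) (hA : A.card ≤ m) :
    ∃ a : Fin m → ℂ, ∀ z ∈ A, ∃ k, a k = z := by
  classical
  refine ⟨fun k => if h : (k : ℕ) < A.card then ((A.equivFin.symm ⟨k, h⟩ : A) : ℂ) else 1,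
    fun z hz => ?_⟩
  have hk : ((A.equivFin ⟨z, hz⟩ : Fin A.card) : ℕ) < A.card := (A.equivFin ⟨z, hz⟩).2
  refine ⟨⟨(A.equivFin ⟨z, hz⟩ : Fin A.card), lt_of_lt_of_le hk hA⟩, ?_⟩
  simp only
  rw [dif_pos hk]
  simp

theorem sep_subseq {ι : Type*} [Fintype ι] (m : ℕ) (A : ℕ → ι → Finset ℂ)
    (hA : ∀ l i, (A l i).card ≤ m) :
    ∃ (φ : ℕ → ℕ) (ε : ℝ), StrictMono φ ∧ 0 < ε ∧ ε ≤ 1 / 16 ∧ ∀ ε' : ℝ, 0 < ε' →
      ∀ᶠ l in atTop, ∀ i, ∀ a ∈ A (φ l) i, ‖a - 1‖ < ε' ∨ 4 * ε < ‖a - 1‖ := by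
  classical
  choose a ha using fun l i => Y6_enum m (A l i) (hA l i)
  have hcomp : IsCompact (Set.pi Set.univ (fun _ : ι × Fin m => Set.Icc (0 : ℝ) 1)) :=
    isCompact_univ_pi (fun _ => isCompact_Icc)
  obtain ⟨t, -, φ, hφ, ht⟩ := hcomp.tendsto_subseq
    (x := fun l k => min ‖a l k.1 k.2 - 1‖ 1) (fun l k _ =>
      ⟨le_min (norm_nonneg _) zero_le_one, min_le_right _ _⟩)
  have htk : ∀ k : ι × Fin m,
      Tendsto (fun l => min ‖a (φ l) k.1 k.2 - 1‖ 1) atTop (𝓝 (t k)) := by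
    intro k
    exact (tendsto_pi_nhds.mp ht) k
  have ht0 : ∀ k, 0 ≤ t k := fun k =>
    ge_of_tendsto' (htk k) (fun l => le_min (norm_nonneg _) zero_le_one)
  have hg : ∀ k : ι × Fin m, 0 < (if t k = 0 then (1 : ℝ) else t k) := by
    intro k
    split_ifs with h
    · exact one_pos
    · exact lt_of_le_of_ne (ht0 k) (Ne.symm h)
  have hev : ∀ᶠ δ : ℝ in 𝓝[>] 0, (0 < δ ∧ δ ≤ 1) ∧
      ∀ k : ι × Fin m, 0 < δ ∧ δ ≤ (if t k = 0 then (1 : ℝ) else t k) := by
    refine Filter.Eventually.and (Ioc_mem_nhdsGT one_pos) ?_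
    exact Filter.eventually_all.mpr fun k => Ioc_mem_nhdsGT (hg k)
  obtain ⟨δ, ⟨hδ0, hδ1⟩, hδ⟩ := hev.exists
  refine ⟨φ, δ / 16, hφ, by positivity, by linarith, fun ε' hε' => ?_⟩
  have key : ∀ k : ι × Fin m, ∀ᶠ l in atTop,
      ‖a (φ l) k.1 k.2 - 1‖ < ε' ∨ 4 * (δ / 16) < ‖a (φ l) k.1 k.2 - 1‖ := by
    intro k
    by_cases h : t k = 0
    · have h1 : ∀ᶠ l in atTop, min ‖a (φ l) k.1 k.2 - 1‖ 1 < min ε' 1 := by
        refine (htk k).eventually_lt_const ?_
        rw [h]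
        exact lt_min hε' one_pos
      filter_upwards [h1] with l hl
      left
      have h2 := lt_of_lt_of_le hl (min_le_right _ _)
      have h3 : ‖a (φ l) k.1 k.2 - 1‖ < 1 := by
        by_contra hc
        rw [min_eq_right (not_lt.mp hc)] at h2
        exact lt_irrefl _ h2
      rw [min_eq_left h3.le] at hl
      exact lt_of_lt_of_le hl (min_le_left _ _)
    · have h1 : ∀ᶠ l in atTop, t k / 2 < min ‖a (φ l) k.1 k.2 - 1‖ 1 := by
        refine (htk k).eventually_const_lt ?_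
        have := lt_of_le_of_ne (ht0 k) (Ne.symm h)
        linarith
      filter_upwards [h1] with l hl
      right
      have h2 := (hδ k).2
      rw [if_neg h] at h2
      have h3 := lt_of_lt_of_le hl (min_le_left _ _)
      linarith
  filter_upwards [Filter.eventually_all.mpr key] with l hl i z hz
  obtain ⟨k, hk⟩ := ha (φ l) i z hz
  have := hl (i, k)
  rw [← hk]
  exact this

end XV
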