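import Pool.Agent.Lib.MP_228259_lc.V.Y2b
import Pool.Agent.Lib.MP_228259_lc.V.Y5
import Pool.Agent.Lib.MP_228259_lc.V.Y6
import Pool.Agent.Lib.MP_228259_lc.V.F8

/-!
XV-Y6b (cluster). For a normalised sequence of curves, after passing to a subsequence, the sheets with
`X i` near `1` for all `i` form a cluster over a fixed ball about `f = 1`, whose coordinates tend to
`1` as `f → 1`.

Proof. `gap_lc` gives `K` and, for every `l`, `K₁ l ≤ K`; `closeness` gives `C`. Apply `sep_subseq` to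
`A l i = (χ l 1).roots.toFinset.image (fun θ => X l i (1, θ))` (card `≤ m`): `φ`, `ε ≤ 1/16`. Let
`ρ ≤ 1/4` with `C ρ < ε^m` (`m > 0`). Drop finitely many terms of the subsequence so that for all `l`
all `a ∈ A` satisfy `‖a - 1‖ < ε` or `> 4 ε`. For `f ∈ ball 1 ρ`, `Δ f ≠ 0`, and a root `θ` with
`|log ‖X i‖| ≤ K₁` for all `i`: `closeness` gives `a ∈ A` with `‖X i (f, θ) - a‖ < ε`, so
`‖X i (f, θ) - 1‖ < 2 ε` or `> 3 ε`. Put
`p f θ = (∀ i, |log ‖X i (f, θ)‖| ≤ K₁) ∧ ∀ i, ‖X i (f, θ) - 1‖ < 2 ε`. `LC`: along a holomorphic root over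
a ball in `U` the first part is constant (`gap_lc`, restricted to smaller `U`), and then
`‖X i (f, θ f) - 1‖` is continuous (`Crv_hol`) and avoids `[2 ε, 3 ε]`: `trap`.
`p 1 θ₀`: `X i (1, θ₀) = 1`. Last property: given `η`, eventually all `a ∈ A` have `‖a - 1‖ < η / 2` or
`> 4 ε`; `ρ'` with `C ρ' < (min (η/2) ε)^m`, `ρ' ≤ ρ`; then `‖X i (f, θ) - a‖ < min (η/2) ε`,
`‖X i (f, θ) - 1‖ < 2 ε`, so `‖a - 1‖ < 3 ε`, so `‖a - 1‖ < η / 2` and `‖X i (f, θ) - 1‖ < η`.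
-/

set_option autoImplicit false

namespace XV

open Filter Topology

/-- a bounded sheet over a point near `1` is either close to `1` or away from `1` -/
private theorem Y6b_gap {r : ℕ} {m : ℕ} {Δ : Polynomial ℂ} {χ : ℂ → Polynomial ℂ}
    {X : Fin (r + 1) → ℂ × ℂ → ℂ} {C K₁ ρ ε : ℝ} (hρ : ρ ≤ 1 / 4)
    (hCρ : ∀ t : ℝ, t < ρ → C * t < ε ^ m) (hε : 0 < ε)
    (hclose : ∀ f θ : ℂ, ‖f - 1‖ < 1 / 4 → Δ.eval f ≠ 0 → (χ f).eval θ = 0 →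
        (∀ i, |Real.log ‖X i (f, θ)‖| ≤ K₁) →
        ∀ i, ∃ θ' : ℂ, (χ 1).eval θ' = 0 ∧ ‖X i (f, θ) - X i (1, θ')‖ ^ m ≤ C * ‖f - 1‖)
    (f θ : ℂ) (hf : ‖f - 1‖ < ρ) (hΔ : Δ.eval f ≠ 0)
    (hr : (χ f).eval θ = 0) (hK : ∀ i, |Real.log ‖X i (f, θ)‖| ≤ K₁) (i : Fin (r + 1)) :
    ∃ θ' : ℂ, (χ 1).eval θ' = 0 ∧ ‖X i (f, θ) - X i (1, θ')‖ < ε := by
  obtain ⟨θ', h1, h2⟩ := hclose f θ (lt_of_lt_of_le hf hρ) hΔ hr hK i
  refine ⟨θ', h1, ?_⟩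
  exact lt_of_pow_lt_pow_left₀ m hε.le (lt_of_le_of_lt h2 (hCρ _ hf))

theorem cluster {r : ℕ} {M : Fin (r + 1) → ℕ} (hM : M 0 = 1) {D m : ℕ} {Δ : ℕ → Polynomial ℂ}
    {χ : ℕ → ℂ → Polynomial ℂ} {X : ℕ → Fin (r + 1) → ℂ × ℂ → ℂ}
    {R G : ℕ → Fin (r + 1) → Polynomial (Polynomial ℂ)} {θ₀ : ℕ → ℂ}
    (h : NSeq M D m Δ χ X R G θ₀) :
    ∃ (φ : ℕ → ℕ) (ρ : ℝ) (p : ℕ → ℂ → ℂ → Prop), StrictMono φ ∧ 0 < ρ ∧ ρ ≤ 1 / 4 ∧
      (∀ l, LC (χ (φ l)) (Metric.ball 1 ρ ∩ {f | (Δ (φ l)).eval f ≠ 0}) (p l)) ∧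
      (∀ l, p l 1 (θ₀ (φ l))) ∧
      (∀ l f θ, p l f θ → ∀ i, ‖X (φ l) i (f, θ) - 1‖ ≤ 1 / 2) ∧
      (∀ η : ℝ, 0 < η → ∃ ρ' : ℝ, 0 < ρ' ∧ ∀ᶠ l in atTop, ∀ f : ℂ, ‖f - 1‖ < ρ' →
        (Δ (φ l)).eval f ≠ 0 → ∀ θ : ℂ, (χ (φ l) f).eval θ = 0 → p l f θ →
        ∀ i, ‖X (φ l) i (f, θ) - 1‖ < η) := by
  classical
  obtain ⟨K, hK1, hK⟩ := gap_lc M hM D m
  choose K₁ hK₁ hK₁K hK₁LC using fun l => hK (Δ l) (χ l) (X l) (R l) (G l) (θ₀ l) (h.crv l)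
    (h.good l) (h.root l) (h.one l)
  obtain ⟨C, hC0, hC⟩ := closeness M D m K hK1
  have hm : 0 < m := (h.crv 0).pos
  have hclose : ∀ l, ∀ f θ : ℂ, ‖f - 1‖ < 1 / 4 → (Δ l).eval f ≠ 0 → (χ l f).eval θ = 0 →
      (∀ i, |Real.log ‖X l i (f, θ)‖| ≤ K₁ l) →
      ∀ i, ∃ θ' : ℂ, (χ l 1).eval θ' = 0 ∧ ‖X l i (f, θ) - X l i (1, θ')‖ ^ m ≤ C * ‖f - 1‖ := by
    intro l
    refine hC (Δ l) (χ l) (X l) (R l) (G l) (K₁ l) (hK₁K l) (h.crv l) (h.good l) ?_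
    exact hK₁LC l _ Set.inter_subset_left (fun f hf => hf.2)
  have hA : ∀ (l : ℕ) (i : Fin (r + 1)),
      ((χ l 1).roots.toFinset.image (fun θ => X l i (1, θ))).card ≤ m := by
    intro l i
    refine Finset.card_image_le.trans ((Multiset.toFinset_card_le _).trans ?_)
    refine (Polynomial.card_roots' _).trans (le_of_eq ((h.crv l).monic 1).2)
  have hmem : ∀ (l : ℕ) (i : Fin (r + 1)) (θ' : ℂ), (χ l 1).eval θ' = 0 →
      X l i (1, θ') ∈ (χ l 1).roots.toFinset.image (fun θ => X l i (1, θ)) := by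
    intro l i θ' hθ'
    refine Finset.mem_image_of_mem (fun θ => X l i (1, θ)) ?_
    rw [Multiset.mem_toFinset, Polynomial.mem_roots ((h.crv l).monic 1).1.ne_zero]
    exact hθ'
  obtain ⟨φ, ε, hφ, hε0, hε1, hε⟩ := sep_subseq m
    (fun l i => (χ l 1).roots.toFinset.image (fun θ => X l i (1, θ))) hA
  obtain ⟨L, hL⟩ := Filter.eventually_atTop.1 (hε ε hε0)
  have hρex : ∀ η : ℝ, 0 < η → ∃ ρ : ℝ, 0 < ρ ∧ ρ ≤ 1 / 4 ∧ ∀ t : ℝ, t < ρ → C * t < η ^ m := by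
    intro η hη
    have hηm : 0 < η ^ m := pow_pos hη m
    refine ⟨min (1 / 4) (η ^ m / C), lt_min (by norm_num) (div_pos hηm hC0), min_le_left _ _, ?_⟩
    intro t ht
    have h1 : t < η ^ m / C := lt_of_lt_of_le ht (min_le_right _ _)
    rw [lt_div_iff₀ hC0] at h1
    linarith [mul_comm t C]
  obtain ⟨ρ, hρ0, hρ4, hρC⟩ := hρex ε hε0
  have hφ' : StrictMono (fun l => φ (l + L)) := fun a b hab => hφ (by omega)
  -- the gap
  have hgap : ∀ l, ∀ f θ : ℂ, ‖f - 1‖ < ρ → (Δ (φ (l + L))).eval f ≠ 0 →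
      (χ (φ (l + L)) f).eval θ = 0 →
      (∀ i, |Real.log ‖X (φ (l + L)) i (f, θ)‖| ≤ K₁ (φ (l + L))) →
      ∀ i, ‖X (φ (l + L)) i (f, θ) - 1‖ < 2 * ε ∨ 3 * ε < ‖X (φ (l + L)) i (f, θ) - 1‖ := by
    intro l f θ hf hΔ hr hKb i
    obtain ⟨θ', h1, h2⟩ := Y6b_gap hρ4 hρC hε0 (hclose (φ (l + L))) f θ hf hΔ hr hKb i
    have h3 := hL (l + L) (by omega) i _ (hmem (φ (l + L)) i θ' h1)
    rcases h3 with h3 | h3
    · left
      have h4 := norm_add_le (X (φ (l + L)) i (f, θ) - X (φ (l + L)) i (1, θ'))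
        (X (φ (l + L)) i (1, θ') - 1)
      rw [sub_add_sub_cancel] at h4
      linarith
    · right
      have h4 := norm_sub_le (X (φ (l + L)) i (f, θ) - 1)
        (X (φ (l + L)) i (f, θ) - X (φ (l + L)) i (1, θ'))
      rw [sub_sub_sub_cancel_left] at h4
      linarith
  refine ⟨fun l => φ (l + L), ρ, fun l f θ =>
    (∀ i, |Real.log ‖X (φ (l + L)) i (f, θ)‖| ≤ K₁ (φ (l + L))) ∧
      ∀ i, ‖X (φ (l + L)) i (f, θ) - 1‖ < 2 * ε, hφ', hρ0, hρ4, ?_, ?_, ?_, ?_⟩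
  · intro l z ρ' θ hB f hf f' hf' hp
    have hUg : ∀ w ∈ Metric.ball (1 : ℂ) ρ ∩ {f | (Δ (φ (l + L))).eval f ≠ 0},
        (Δ (φ (l + L))).eval w ≠ 0 := fun w hw => hw.2
    have hUb : Metric.ball (1 : ℂ) ρ ∩ {f | (Δ (φ (l + L))).eval f ≠ 0} ⊆
        Metric.ball 1 (1 / 2) := by
      intro w hw
      exact Metric.ball_subset_ball (by linarith) hw.1
    have hfirst : ∀ w ∈ Metric.ball z ρ',
        ∀ i, |Real.log ‖X (φ (l + L)) i (w, θ w)‖| ≤ K₁ (φ (l + L)) := fun w hw =>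
      hK₁LC (φ (l + L)) _ hUb hUg z ρ' θ hB f hf w hw hp.1
    refine ⟨hfirst f' hf', fun i => ?_⟩
    have hd := Crv_hol (h.crv (φ (l + L))) hUg hB i
    have hcont : ContinuousOn (fun w => ‖X (φ (l + L)) i (w, θ w) - 1‖) (Metric.ball z ρ') :=
      (hd.1.continuousOn.sub continuousOn_const).norm
    refine trap (convex_ball z ρ').isPreconnected _ hcont hf (hp.2 i) (fun w hw => ?_) f' hf'
    have hwU := hB.sub hw
    have hw1 : ‖w - 1‖ < ρ := by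
      rw [← dist_eq_norm]
      exact hwU.1
    rcases hgap l w (θ w) hw1 hwU.2 (hB.root w hw) (hfirst w hw) i with h5 | h5
    · exact h5.ne
    · intro h6
      linarith
  · intro l
    refine ⟨fun i => ?_, fun i => ?_⟩
    · rw [h.one, norm_one, Real.log_one, abs_zero]
      linarith [hK₁ (φ (l + L))]
    · rw [h.one, sub_self, norm_zero]
      linarith
  · intro l f θ hp i
    have := hp.2 i
    linarith
  · intro η hη
    have hη' : 0 < min (η / 2) ε := lt_min (by linarith) hε0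
    obtain ⟨ρ', hρ'0, hρ'4, hρ'C⟩ := hρex (min (η / 2) ε) hη'
    refine ⟨ρ', hρ'0, ?_⟩
    have hev : ∀ᶠ l in atTop, ∀ i, ∀ a ∈
        (χ (φ l) 1).roots.toFinset.image (fun θ => X (φ l) i (1, θ)),
        ‖a - 1‖ < η / 2 ∨ 4 * ε < ‖a - 1‖ := hε (η / 2) (by linarith)
    have hev' := (tendsto_add_atTop_nat L).eventually hev
    refine hev'.mono (fun l hl f hf hΔ θ hr hp i => ?_)
    obtain ⟨θ', h1, h2⟩ := Y6b_gap hρ'4 hρ'C hη' (hclose (φ (l + L))) f θ hf hΔ hr hp.1 i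
    have h2a : ‖X (φ (l + L)) i (f, θ) - X (φ (l + L)) i (1, θ')‖ < η / 2 :=
      lt_of_lt_of_le h2 (min_le_left _ _)
    have h2b : ‖X (φ (l + L)) i (f, θ) - X (φ (l + L)) i (1, θ')‖ < ε :=
      lt_of_lt_of_le h2 (min_le_right _ _)
    have h4 := norm_add_le (X (φ (l + L)) i (f, θ) - X (φ (l + L)) i (1, θ'))
      (X (φ (l + L)) i (1, θ') - 1)
    rw [sub_add_sub_cancel] at h4
    have h5 := norm_sub_le (X (φ (l + L)) i (f, θ) - 1)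
      (X (φ (l + L)) i (f, θ) - X (φ (l + L)) i (1, θ'))
    rw [sub_sub_sub_cancel_left] at h5
    have h6 := hp.2 i
    rcases hl i _ (hmem (φ (l + L)) i θ' h1) with h3 | h3
    · linarith
    · exfalso
      linarith

end XV
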