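import Pool.Agent.Lib.MP_228259_lc.V.Defs3

/-!
XV-Z1 (rat_basis, tower_exists).

`rat_basis`. The `ℚ`-span of the `ν_j` in `ℝ` is finite dimensional and nonzero (`∑ ν_j q_j = 1`); let
`e_0, …, e_r` be a basis, `ν_j = ∑_i c_{ij} e_i`, `c_{ij}` rational, `c_{ij} = b_{ij} / m` with a common
denominator `m > 0`; `μ_i = e_i / m`. `∑_i μ_i (∑_j b_{ij} q_j) = 1`, so some `∑_j b_{ij} q_j ≠ 0`;
exchange this index with `0` (`Equiv.swap`).

`tower_exists`. Choose `M 0 = 1` and `M i` recursively: `bp M b i` depends only on `M j`, `j < i`.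
Keep `(bp M b i) · q ≠ 0` for `i ≥ 1`: `M i` can be any number `> deg (bp M b i) (b i)` with
`(bp M b i + M i b i) · q ≠ 0` (if `b i · q = 0` all, otherwise all but one). E.g. induction on `r`
with `Fin.snoc`, or strong recursion.
-/

set_option autoImplicit false

namespace XV

private theorem Z1_bp {n r : ℕ} (M : Fin r → ℕ) (b : Fin r → Fin n → ℤ) (i : Fin r) :
    bp M b i = ∑ j, if j < i then (M j : ℤ) • b j else 0 := by
  unfold bp
  rw [Finset.sum_filter]

theorem tower_exists {n r : ℕ} (b : Fin (r + 1) → Fin n → ℤ) (q : Fin n → ℚ)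
    (h0 : ∑ j, (b 0 j : ℚ) * q j ≠ 0) (deg : (Fin n → ℤ) → (Fin n → ℤ) → ℕ) :
    ∃ M : Fin (r + 1) → ℕ, M 0 = 1 ∧ (∀ i : Fin (r + 1), 0 < i.val →
      deg (bp M b i) (b i) < M i) ∧ ∑ j, (bf M b j : ℚ) * q j ≠ 0 := by
  induction r with
  | zero =>
    refine ⟨fun _ => 1, rfl, ?_, ?_⟩
    · intro i hi
      have : i.val = 0 := by omega
      omega
    · have h1 : bf (fun _ : Fin (0 + 1) => 1) b = b 0 := by
        unfold bf
        rw [Fin.sum_univ_one]
        simp
      rw [h1]
      exact h0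
  | succ r ih =>
    obtain ⟨M', hM0, hMd, hMq⟩ := ih (fun i => b i.castSucc) (by simpa using h0)
    set s : Fin n → ℤ := bf M' (fun i => b i.castSucc) with hs
    set t : Fin n → ℤ := b (Fin.last (r + 1)) with ht
    -- choice of the last exponent
    obtain ⟨m, hm1, hm2⟩ : ∃ m : ℕ, deg s t < m ∧
        ∑ j, (s j : ℚ) * q j + m * ∑ j, (t j : ℚ) * q j ≠ 0 := by
      by_contra hcon
      push Not at hcon
      have h1 := hcon (deg s t + 1) (by omega)
      have h2 := hcon (deg s t + 2) (by omega)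
      push_cast at h1 h2
      have h3 : ∑ j, (t j : ℚ) * q j = 0 := by linarith
      rw [h3, mul_zero, add_zero] at h1
      exact hMq h1
    refine ⟨Fin.snoc M' m, ?_, ?_, ?_⟩
    · have h1 : (0 : Fin (r + 1 + 1)) = Fin.castSucc 0 := rfl
      rw [h1, Fin.snoc_castSucc]
      exact hM0
    · intro i
      induction i using Fin.lastCases with
      | last =>
        intro _
        have h1 : bp (Fin.snoc M' m : Fin (r + 1 + 1) → ℕ) b (Fin.last (r + 1)) = s := by
          rw [Z1_bp, Fin.sum_univ_castSucc, hs]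
          unfold bf
          simp [Fin.castSucc_lt_last]
        rw [h1, Fin.snoc_last]
        exact hm1
      | cast i =>
        intro hi
        have h1 : bp (Fin.snoc M' m : Fin (r + 1 + 1) → ℕ) b i.castSucc =
            bp M' (fun i => b i.castSucc) i := by
          rw [Z1_bp, Z1_bp, Fin.sum_univ_castSucc]
          have h2 : ¬ (Fin.last (r + 1) < i.castSucc) := by
            rw [not_lt]
            exact Fin.le_last _
          rw [if_neg h2, add_zero]
          refine Finset.sum_congr rfl fun j _ => ?_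
          simp only [Fin.castSucc_lt_castSucc_iff, Fin.snoc_castSucc]
        rw [h1, Fin.snoc_castSucc]
        exact hMd i hi
    · have h1 : bf (Fin.snoc M' m : Fin (r + 1 + 1) → ℕ) b = s + (m : ℤ) • t := by
        rw [hs, ht]
        unfold bf
        rw [Fin.sum_univ_castSucc]
        simp
      rw [h1]
      have h2 : ∑ j, ((s + (m : ℤ) • t) j : ℚ) * q j =
          ∑ j, (s j : ℚ) * q j + m * ∑ j, (t j : ℚ) * q j := by
        rw [Finset.mul_sum, ← Finset.sum_add_distrib]
        refine Finset.sum_congr rfl fun j _ => ?_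
        simp only [Pi.add_apply, Pi.smul_apply, smul_eq_mul]
        push_cast
        ring
      rw [h2]
      exact hm2

theorem rat_basis {n : ℕ} (ν : Fin n → ℝ) (q : Fin n → ℚ) (hq : ∑ j, ν j * q j = 1) :
    ∃ (r : ℕ) (b : Fin (r + 1) → Fin n → ℤ) (μ : Fin (r + 1) → ℝ), QInd μ ∧
      (∀ j, ν j = ∑ i, μ i * b i j) ∧ ∑ j, (b 0 j : ℚ) * q j ≠ 0 := by
  classical
  let S : Submodule ℚ ℝ := Submodule.span ℚ (Set.range ν)
  have : Module.Finite ℚ S := Module.Finite.span_of_finite ℚ (Set.finite_range ν)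
  let e := Module.finBasis ℚ S
  have hνS : ∀ j, ν j ∈ S := fun j => Submodule.subset_span ⟨j, rfl⟩
  have hd : Module.finrank ℚ S ≠ 0 := by
    intro h0
    have h1 : S = ⊥ := Submodule.finrank_eq_zero.1 h0
    have h2 : ∀ j, ν j = 0 := by
      intro j
      have h3 := hνS j
      rw [h1, Submodule.mem_bot] at h3
      exact h3
    simp [h2] at hq
  obtain ⟨r, hr⟩ := Nat.exists_eq_succ_of_ne_zero hd
  let e' : Module.Basis (Fin (r + 1)) ℚ S := e.reindex (finCongr hr)
  let c : Fin (r + 1) → Fin n → ℚ := fun i j => e'.repr ⟨ν j, hνS j⟩ i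
  have hc : ∀ j, ν j = ∑ i, (c i j : ℝ) * (e' i : ℝ) := by
    intro j
    have h1 := e'.sum_repr ⟨ν j, hνS j⟩
    have h2 := congrArg (Subtype.val) h1
    simp only [Submodule.coe_sum, Submodule.coe_smul] at h2
    rw [← h2]
    refine Finset.sum_congr rfl fun i _ => ?_
    rw [Rat.smul_def]
  -- common denominator
  let N : ℕ := ∏ i, ∏ j, (c i j).den
  have hN : 0 < N := Finset.prod_pos fun i _ => Finset.prod_pos fun j _ => (c i j).den_pos
  have hint : ∀ i j, ∃ m : ℤ, (m : ℚ) = (N : ℚ) * c i j := by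
    intro i j
    have h1 : (c i j).den ∣ N :=
      (Finset.dvd_prod_of_mem (fun j => (c i j).den) (Finset.mem_univ j)).trans
        (Finset.dvd_prod_of_mem (fun i => ∏ j, (c i j).den) (Finset.mem_univ i))
    obtain ⟨k, hk⟩ := h1
    refine ⟨k * (c i j).num, ?_⟩
    rw [hk]
    push_cast
    have h2 : ((c i j).den : ℚ) * c i j = (c i j).num := by
      rw [mul_comm]
      exact_mod_cast Rat.mul_den_eq_num (c i j)
    calc (k : ℚ) * (c i j).num = k * (((c i j).den : ℚ) * c i j) := by rw [h2]
      _ = ((c i j).den : ℚ) * k * c i j := by ring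
  choose b hb using hint
  let μ : Fin (r + 1) → ℝ := fun i => (e' i : ℝ) / N
  have hNR : (N : ℝ) ≠ 0 := by exact_mod_cast hN.ne'
  have hμ : QInd μ := by
    intro s hs
    have h1 : ∑ i, (s i) • (e' i : ℝ) = 0 := by
      have h2 : ∑ i, μ i * (s i : ℝ) = (∑ i, (s i) • (e' i : ℝ)) / N := by
        rw [Finset.sum_div]
        refine Finset.sum_congr rfl fun i _ => ?_
        rw [Rat.smul_def]
        ring
      rw [h2, div_eq_zero_iff] at hs
      exact hs.resolve_right hNR
    have h3 : LinearIndependent ℚ (fun i => (e' i : ℝ)) := by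
      have := e'.linearIndependent.map' S.subtype (Submodule.ker_subtype S)
      exact this
    rw [Fintype.linearIndependent_iff] at h3
    funext i
    exact h3 s h1 i
  have hν : ∀ j, ν j = ∑ i, μ i * b i j := by
    intro j
    rw [hc j]
    refine Finset.sum_congr rfl fun i _ => ?_
    have h1 : (b i j : ℝ) = (N : ℝ) * c i j := by
      have := hb i j
      exact_mod_cast congrArg (fun x : ℚ => (x : ℝ)) this
    rw [h1]
    simp only [μ]
    field_simp
  -- some index with nonzero pairing
  obtain ⟨i₀, hi₀⟩ : ∃ i, ∑ j, (b i j : ℚ) * q j ≠ 0 := by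
    by_contra hcon
    push Not at hcon
    have h1 : ∑ j, ν j * (q j : ℝ) = ∑ i, μ i * ((∑ j, (b i j : ℚ) * q j : ℚ) : ℝ) := by
      simp only [hν, Finset.sum_mul]
      rw [Finset.sum_comm]
      refine Finset.sum_congr rfl fun i _ => ?_
      push_cast
      rw [Finset.mul_sum]
      refine Finset.sum_congr rfl fun j _ => ?_
      ring
    rw [hq] at h1
    simp only [hcon] at h1
    simp at h1
  let π := Equiv.swap (0 : Fin (r + 1)) i₀
  refine ⟨r, fun i => b (π i), fun i => μ (π i), ?_, ?_, ?_⟩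
  · intro s hs
    have h1 : ∑ i, μ i * (s (π.symm i) : ℝ) = 0 := by
      rw [← hs]
      rw [← Equiv.sum_comp π]
      refine Finset.sum_congr rfl fun i _ => ?_
      rw [Equiv.symm_apply_apply]
    have h2 := hμ (fun i => s (π.symm i)) h1
    funext i
    have h3 := congrFun h2 (π i)
    simpa using h3
  · intro j
    rw [hν j, ← Equiv.sum_comp π]
  · have h1 : π 0 = i₀ := Equiv.swap_apply_left _ _
    show ∑ j, (b (π 0) j : ℚ) * q j ≠ 0
    rw [h1]
    exact hi₀

end XV
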