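import Pool.Agent.Lib.MP_228259_lc.V.Defs3
import Pool.Agent.Lib.MP_228259_lc.V.F7
import Pool.Agent.Lib.MP_228259_lc.V.N2

/-!
XV-Z3 (crv_at, log_f_bound). The curve over a point of the hypersurface.

`bev_spec`: `bev s t (spec x R) = (e2 x s R).eval t`.

`crv_at`. `𝒢` = for each of the finitely many relations `Rf (bp M b i) (b i)` (`0 < i`),
`Rf (bf M b) (b i)` one coefficient not divisible by `P` (`IsRel`), and one coefficient of `Δ` not
divisible by `P` (`RPres.ne`). `D` = maximum of the degrees in `F` and `T` of all these polynomials and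
of `Δ`. Fields of `Crv` at `x`: `ne`, `deg` clear; `monic`, `pos`, `coeff`: `e2_monic`, `RPres.pos`,
`diff_coeff` (constant `x`); `simple`: `RPres.simple`, as
`(Δ.map (eval x)).eval f = h1 x f Δ` (`Polynomial.eval_map`); `y = yv Δ A x f θ` satisfies `(x, y) ∈ V`
(`RPres.mem`), `y j ≠ 0` (`VData.nz`), so `mon (b i) y ≠ 0`, `pp M (fun i => mon (b i) y) i =
mon (bp M b i) y`, `fp M (fun i => mon (b i) y) = mon (bf M b) y = f` (`RPres.mono`), and the relations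
`IsRel` give `tow` and `rel`; `diff`: `yv` is a quotient of polynomials in `(f, θ)` with nonzero
denominator, nonzero, so integer powers are differentiable. `tdeg`, `gdeg`: degrees of `spec x R` are at
most those of `R`; `spec x R ≠ 0` by the coefficient in `𝒢`.

`log_f_bound`. `𝒢'` = all nonzero coefficients of the `Rf (bf M b) (b i)` not divisible by `P`
(finitely many). At `x` in the hypersurface with `‖x‖ ≤ N^C`, `‖G(x)‖ N^C ≥ 1` for these, the nonzero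
coefficients of `spec x (Rf (bf M b) (b i))` are between `N^{-C''}` and `N^{C''}` (`eval_bound`; those
divisible by `P` vanish at `x`). `slope_rel` with `B = N^{C''}`: if `|log ‖f‖| > K (1 + C'' log N)` then
`|log ‖X i‖ - s_i log ‖f‖| ≤ K (1 + C'' log N)`, `s_i ∈ S` finite. `∏ X i^(M i) = f` gives
`|∑ M_i s_i - 1| |log ‖f‖| ≤ K' log N`, and `|∑ μ_i s_i| |log ‖f‖| ≤ C + K' log N`. If
`|log ‖f‖| > C' log N` with `C'` large, then `∑ M_i s_i = 1`, so `s ≠ 0`, `|∑ μ_i s_i| ≥ γ > 0` (minimum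
over the finite set of nonzero `s`), contradiction.
-/

set_option autoImplicit false

namespace XV

open MvPolynomial Filter Topology

/-- the coefficients of the relations and of `Δ` -/
def Coef {n : ℕ} (Rf : (Fin n → ℤ) → (Fin n → ℤ) → R2 n) (Δ : R1 n) :
    Set (MvPolynomial (Fin n) ℂ) :=
  {G | (∃ b c j k, G = ((Rf b c).coeff j).coeff k) ∨ ∃ k, G = Δ.coeff k}

theorem bev_spec {n : ℕ} (x : Fin n → ℂ) (R : R2 n) (s t : ℂ) :
    bev s t (spec x R) = (e2 x s R).eval t := by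
  unfold bev spec e2
  rw [Polynomial.map_map]
  have h : (Polynomial.evalRingHom s).comp (Polynomial.mapRingHom (MvPolynomial.eval x)) =
      h1 x s := by
    refine RingHom.ext fun p => ?_
    unfold h1
    rw [RingHom.comp_apply, Polynomial.coe_mapRingHom, Polynomial.coe_evalRingHom,
      Polynomial.eval_map, Polynomial.coe_eval₂RingHom]
  rw [h]

private theorem Z3_coeff {n : ℕ} (x : Fin n → ℂ) (R : R2 n) (j k : ℕ) :
    ((spec x R).coeff j).coeff k = eval x ((R.coeff j).coeff k) := by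
  unfold spec
  rw [Polynomial.coeff_map, Polynomial.coe_mapRingHom, Polynomial.coeff_map]

private theorem Z3_deg {n : ℕ} (x : Fin n → ℂ) (R : R2 n) :
    (spec x R).natDegree ≤ R.natDegree := Polynomial.natDegree_map_le

private theorem Z3_deg2 {n : ℕ} (x : Fin n → ℂ) (R : R2 n) (k : ℕ) :
    ((spec x R).coeff k).natDegree ≤ (R.coeff k).natDegree := by
  unfold spec
  rw [Polynomial.coeff_map, Polynomial.coe_mapRingHom]
  exact Polynomial.natDegree_map_le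

private theorem Z3_ne {n : ℕ} (x : Fin n → ℂ) (R : R2 n) (j k : ℕ)
    (h : eval x ((R.coeff j).coeff k) ≠ 0) : spec x R ≠ 0 := by
  intro h0
  apply h
  rw [← Z3_coeff, h0, Polynomial.coeff_zero, Polynomial.coeff_zero]

private theorem Z3_dg {n : ℕ} (R : R2 n) : ∃ D : ℕ, R.natDegree ≤ D ∧
    ∀ k, (R.coeff k).natDegree ≤ D := by
  refine ⟨R.natDegree + ∑ k ∈ Finset.range (R.natDegree + 1), (R.coeff k).natDegree,
    Nat.le_add_right _ _, fun k => ?_⟩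
  by_cases hk : k < R.natDegree + 1
  · exact (Finset.single_le_sum (f := fun k => (R.coeff k).natDegree)
      (fun _ _ => Nat.zero_le _) (Finset.mem_range.2 hk)).trans (Nat.le_add_left _ _)
  · rw [Polynomial.coeff_eq_zero_of_natDegree_lt (by omega), Polynomial.natDegree_zero]
    exact Nat.zero_le _

private theorem Z3_dgs {n : ℕ} {ι : Type*} [Fintype ι] (R : ι → R2 n) : ∃ D : ℕ,
    ∀ i, (R i).natDegree ≤ D ∧ ∀ k, ((R i).coeff k).natDegree ≤ D := by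
  choose D hD using fun i => Z3_dg (R i)
  refine ⟨∑ i, D i, fun i => ?_⟩
  have h : D i ≤ ∑ i, D i :=
    Finset.single_le_sum (f := D) (fun _ _ => Nat.zero_le _) (Finset.mem_univ i)
  exact ⟨(hD i).1.trans h, fun k => ((hD i).2 k).trans h⟩

private theorem Z3_mon_add {n : ℕ} (a c : Fin n → ℤ) (y : Fin n → ℂ) (hy : ∀ j, y j ≠ 0) :
    mon (a + c) y = mon a y * mon c y := by
  unfold mon
  rw [← Finset.prod_mul_distrib]
  exact Finset.prod_congr rfl fun j _ => zpow_add₀ (hy j) _ _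

private theorem Z3_mon_smul {n : ℕ} (m : ℕ) (a : Fin n → ℤ) (y : Fin n → ℂ) :
    mon ((m : ℤ) • a) y = mon a y ^ m := by
  unfold mon
  rw [← Finset.prod_pow]
  refine Finset.prod_congr rfl fun j _ => ?_
  rw [Pi.smul_apply, smul_eq_mul, mul_comm, zpow_mul, zpow_natCast]

private theorem Z3_mon_zero {n : ℕ} (y : Fin n → ℂ) : mon (0 : Fin n → ℤ) y = 1 := by
  unfold mon
  simp

private theorem Z3_mon_sum {n : ℕ} {ι : Type*} (s : Finset ι) (M : ι → ℕ) (b : ι → Fin n → ℤ)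
    (y : Fin n → ℂ) (hy : ∀ j, y j ≠ 0) :
    mon (∑ i ∈ s, (M i : ℤ) • b i) y = ∏ i ∈ s, mon (b i) y ^ M i := by
  classical
  induction s using Finset.induction_on with
  | empty => rw [Finset.sum_empty, Finset.prod_empty, Z3_mon_zero]
  | insert a s ha ih =>
    rw [Finset.sum_insert ha, Finset.prod_insert ha, Z3_mon_add _ _ _ hy, Z3_mon_smul, ih]

private theorem Z3_mon_ne {n : ℕ} (a : Fin n → ℤ) (y : Fin n → ℂ) (hy : ∀ j, y j ≠ 0) :
    mon a y ≠ 0 := Finset.prod_ne_zero_iff.2 fun j _ => zpow_ne_zero _ (hy j)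

private theorem Z3_delta {n : ℕ} (x : Fin n → ℂ) (f : ℂ) (Δ : R1 n) :
    (Δ.map (eval x)).eval f = h1 x f Δ := by
  rw [Polynomial.eval_map]
  rfl

private theorem Z3_prod {E ι : Type*} [NormedAddCommGroup E] [NormedSpace ℂ E] (s : Finset ι)
    (g : ι → E → ℂ) (z : E) (h : ∀ i ∈ s, DifferentiableAt ℂ (g i) z) :
    DifferentiableAt ℂ (fun u => ∏ i ∈ s, g i u) z := by
  classical
  induction s using Finset.induction_on with
  | empty => simp
  | insert a s ha ih =>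
    simp only [Finset.prod_insert ha]
    exact (h a (Finset.mem_insert_self a s)).mul
      (ih fun i hi => h i (Finset.mem_insert_of_mem hi))

theorem crv_at {n r : ℕ} {V : Set ((Fin n → ℂ) × (Fin n → ℂ))} {P : MvPolynomial (Fin n) ℂ}
    (hV : VData V P) {M : Fin (r + 1) → ℕ} {b : Fin (r + 1) → Fin n → ℤ}
    {Rf : (Fin n → ℤ) → (Fin n → ℤ) → R2 n} (hRf : ∀ b c, IsRel V P b c (Rf b c))
    (hdeg : ∀ i : Fin (r + 1), 0 < i.val → (Rf (bp M b i) (b i)).natDegree < M i)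
    {Δ : R1 n} {χ : R2 n} {A A' : Fin n → R2 n} (hp : RPres V P (bf M b) Δ χ A A') :
    ∃ (D : ℕ) (𝒢 : Finset (MvPolynomial (Fin n) ℂ)), (∀ G ∈ 𝒢, ¬ P ∣ G ∧ G ∈ Coef Rf Δ) ∧
      ∀ x : Fin n → ℂ, eval x P = 0 → (∀ G ∈ 𝒢, eval x G ≠ 0) →
        Crv M D χ.natDegree (Δ.map (eval x)) (fun f => e2 x f χ)
          (fun i z => mon (b i) (yv Δ A x z.1 z.2))
          (fun i => spec x (Rf (bp M b i) (b i))) (fun i => spec x (Rf (bf M b) (b i))) := by
  classical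
  obtain ⟨kΔ, hkΔ⟩ := hp.ne
  choose kT jT hT using fun i : Fin (r + 1) => (hRf (bp M b i) (b i)).1
  choose kG jG hG using fun i : Fin (r + 1) => (hRf (bf M b) (b i)).1
  obtain ⟨D1, hD1⟩ := Z3_dgs (fun i : Fin (r + 1) => Rf (bp M b i) (b i))
  obtain ⟨D2, hD2⟩ := Z3_dgs (fun i : Fin (r + 1) => Rf (bf M b) (b i))
  refine ⟨Δ.natDegree + D1 + D2, {Δ.coeff kΔ} ∪
    (Finset.univ.image (fun i => ((Rf (bp M b i) (b i)).coeff (jT i)).coeff (kT i))) ∪
    (Finset.univ.image (fun i => ((Rf (bf M b) (b i)).coeff (jG i)).coeff (kG i))), ?_, ?_⟩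
  · intro G hGm
    rw [Finset.mem_union, Finset.mem_union, Finset.mem_singleton, Finset.mem_image,
      Finset.mem_image] at hGm
    rcases hGm with (rfl | ⟨i, -, rfl⟩) | ⟨i, -, rfl⟩
    · exact ⟨hkΔ, Or.inr ⟨_, rfl⟩⟩
    · exact ⟨hT i, Or.inl ⟨_, _, _, _, rfl⟩⟩
    · exact ⟨hG i, Or.inl ⟨_, _, _, _, rfl⟩⟩
  intro x hx hG0
  have eΔ : eval x (Δ.coeff kΔ) ≠ 0 := hG0 _ (by
    rw [Finset.mem_union, Finset.mem_union, Finset.mem_singleton]
    exact Or.inl (Or.inl rfl))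
  have eT : ∀ i, eval x (((Rf (bp M b i) (b i)).coeff (jT i)).coeff (kT i)) ≠ 0 := fun i =>
    hG0 _ (by
      rw [Finset.mem_union, Finset.mem_union]
      exact Or.inl (Or.inr (Finset.mem_image_of_mem _ (Finset.mem_univ i))))
  have eG : ∀ i, eval x (((Rf (bf M b) (b i)).coeff (jG i)).coeff (kG i)) ≠ 0 := fun i =>
    hG0 _ (by
      rw [Finset.mem_union]
      exact Or.inr (Finset.mem_image_of_mem _ (Finset.mem_univ i)))
  have hmem : ∀ f θ : ℂ, (Δ.map (eval x)).eval f ≠ 0 → (e2 x f χ).eval θ = 0 →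
      (x, yv Δ A x f θ) ∈ V := fun f θ hΔ hθ => hp.mem x f θ hx (by rwa [← Z3_delta]) hθ
  have hnz : ∀ f θ : ℂ, (Δ.map (eval x)).eval f ≠ 0 → (e2 x f χ).eval θ = 0 →
      ∀ j, yv Δ A x f θ j ≠ 0 := fun f θ hΔ hθ j => hV.nz _ (hmem f θ hΔ hθ) j
  have hmono : ∀ f θ : ℂ, (Δ.map (eval x)).eval f ≠ 0 → (e2 x f χ).eval θ = 0 →
      mon (bf M b) (yv Δ A x f θ) = f := fun f θ hΔ hθ =>
    hp.mono x f θ hx (by rwa [← Z3_delta]) hθ
  refine
    { ne := ?_
      deg := ?_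
      monic := fun f => e2_monic χ hp.monic x f
      pos := hp.pos
      coeff := ?_
      simple := ?_
      diff := ?_
      tow := ?_
      prod := ?_
      tdeg := ?_
      rel := ?_
      gdeg := ?_ }
  · intro h0
    apply eΔ
    rw [← Polynomial.coeff_map, h0, Polynomial.coeff_zero]
  · refine Polynomial.natDegree_map_le.trans ?_
    omega
  · intro i
    rw [← differentiableOn_univ]
    exact diff_coeff χ (fun _ => x) (fun f => f) (fun _ => differentiableOn_const _)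
      differentiableOn_id i
  · intro f θ hΔ hθ
    exact hp.simple x f θ hx (by rwa [← Z3_delta]) hθ
  · intro f θ hΔ hθ i
    have hy : ∀ j, DifferentiableAt ℂ (fun z : ℂ × ℂ => yv Δ A x z.1 z.2 j) (f, θ) := by
      intro j
      have g1 : DifferentiableOn ℂ (fun z : ℂ × ℂ => (e2 x z.1 (A j)).eval z.2) Set.univ :=
        diff_e2 (A j) (fun _ => x) (fun z : ℂ × ℂ => z.1) (fun z : ℂ × ℂ => z.2)
          (fun _ => differentiableOn_const _) differentiableOn_fst differentiableOn_snd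
      have g2 : DifferentiableOn ℂ (fun z : ℂ × ℂ => h1 x z.1 Δ) Set.univ :=
        diff_h1 Δ (fun _ => x) (fun z : ℂ × ℂ => z.1)
          (fun _ => differentiableOn_const _) differentiableOn_fst
      have h3 : DifferentiableAt ℂ (fun z : ℂ × ℂ => (e2 x z.1 (A j)).eval z.2) (f, θ) :=
        (differentiableOn_univ.1 g1) _
      have h4 : DifferentiableAt ℂ (fun z : ℂ × ℂ => h1 x z.1 Δ) (f, θ) :=
        (differentiableOn_univ.1 g2) _
      have h5 : h1 x f Δ ≠ 0 := by rwa [← Z3_delta]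
      have h6 : DifferentiableAt ℂ (fun z : ℂ × ℂ =>
          (e2 x z.1 (A j)).eval z.2 * (h1 x z.1 Δ)⁻¹) (f, θ) := h3.mul (h4.inv h5)
      simp only [← div_eq_mul_inv] at h6
      exact h6
    have hz : ∀ j ∈ (Finset.univ : Finset (Fin n)),
        DifferentiableAt ℂ (fun z : ℂ × ℂ => yv Δ A x z.1 z.2 j ^ b i j) (f, θ) := fun j _ =>
      (hy j).zpow (Or.inl (hnz f θ hΔ hθ j))
    exact Z3_prod _ _ _ hz
  · intro f θ hΔ hθ
    refine ⟨fun i => Z3_mon_ne _ _ (hnz f θ hΔ hθ), fun i _ => ?_⟩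
    have h1 : pp M (fun i => mon (b i) (yv Δ A x f θ)) i = mon (bp M b i) (yv Δ A x f θ) := by
      unfold pp bp
      rw [Z3_mon_sum _ _ _ _ (hnz f θ hΔ hθ)]
    rw [h1, bev_spec]
    exact (hRf (bp M b i) (b i)).2 _ (hmem f θ hΔ hθ)
  · intro f θ hΔ hθ
    have h1 : fp M (fun i => mon (b i) (yv Δ A x f θ)) = mon (bf M b) (yv Δ A x f θ) := by
      unfold fp bf
      rw [Z3_mon_sum _ _ _ _ (hnz f θ hΔ hθ)]
    rw [h1]
    exact hmono f θ hΔ hθ
  · intro i hi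
    refine ⟨Z3_ne x _ _ _ (eT i), lt_of_le_of_lt (Z3_deg x _) (hdeg i hi), fun k => ?_⟩
    have := (hD1 i).2 k
    exact (Z3_deg2 x _ k).trans (by omega)
  · intro f θ hΔ hθ i
    rw [bev_spec]
    have h1 := (hRf (bf M b) (b i)).2 _ (hmem f θ hΔ hθ)
    simp only at h1
    rw [hmono f θ hΔ hθ] at h1
    exact h1
  · intro i
    refine ⟨Z3_ne x _ _ _ (eG i), (Z3_deg x _).trans ?_, fun k => (Z3_deg2 x _ k).trans ?_⟩
    · have := (hD2 i).1
      omega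
    · have := (hD2 i).2 k
      omega

private theorem Z3_min {ι : Type*} (s : Finset ι) (w : ι → ℝ) (hw : ∀ i ∈ s, 0 < w i) :
    ∃ γ : ℝ, 0 < γ ∧ ∀ i ∈ s, γ ≤ w i := by
  by_cases hs : s.Nonempty
  · obtain ⟨i, hi, hmin⟩ := s.exists_min_image w hs
    exact ⟨w i, hw i hi, hmin⟩
  · exact ⟨1, one_pos, fun i hi => absurd ⟨i, hi⟩ hs⟩

private theorem Z3_upper {n : ℕ} (𝒢 : Finset (MvPolynomial (Fin n) ℂ)) : ∃ C1 : ℕ,
    ∀ C N : ℕ, 2 ≤ N → ∀ x : Fin n → ℂ, ‖x‖ ≤ (N : ℝ) ^ C → ∀ G ∈ 𝒢,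
      ‖eval x G‖ ≤ (N : ℝ) ^ ((C + 2) * C1) := by
  classical
  choose c hc using fun G : MvPolynomial (Fin n) ℂ => eval_bound G
  refine ⟨∑ G ∈ 𝒢, c G, fun C N hN x hx G hG => ?_⟩
  obtain ⟨C1, hC1⟩ : ∃ C1, C1 = ∑ G ∈ 𝒢, c G := ⟨_, rfl⟩
  rw [← hC1]
  have h1 : c G ≤ C1 := by
    rw [hC1]
    exact Finset.single_le_sum (f := c) (fun _ _ => Nat.zero_le _) hG
  have hN' : (2 : ℝ) ≤ N := by exact_mod_cast hN
  have hN1 : (1 : ℝ) ≤ N := by linarith
  have hNC : (1 : ℝ) ≤ (N : ℝ) ^ C := one_le_pow₀ hN1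
  have h2 : 1 + ‖x‖ ≤ (N : ℝ) ^ (C + 1) := by
    rw [pow_succ]
    nlinarith
  have h3 : (c G : ℝ) ≤ (N : ℝ) ^ C1 := by
    calc (c G : ℝ) ≤ C1 := by exact_mod_cast h1
      _ ≤ (2 : ℝ) ^ C1 := by exact_mod_cast Nat.lt_two_pow_self.le
      _ ≤ (N : ℝ) ^ C1 := pow_le_pow_left₀ (by norm_num) hN' _
  have h4 : (1 + ‖x‖) ^ c G ≤ ((N : ℝ) ^ (C + 1)) ^ C1 := by
    calc (1 + ‖x‖) ^ c G ≤ ((N : ℝ) ^ (C + 1)) ^ c G :=
          pow_le_pow_left₀ (by positivity) h2 _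
      _ ≤ ((N : ℝ) ^ (C + 1)) ^ C1 := pow_le_pow_right₀ (one_le_pow₀ hN1) h1
  calc ‖eval x G‖ ≤ c G * (1 + ‖x‖) ^ c G := hc G x
    _ ≤ (N : ℝ) ^ C1 * ((N : ℝ) ^ (C + 1)) ^ C1 := by
        refine mul_le_mul h3 h4 (by positivity) (by positivity)
    _ = (N : ℝ) ^ ((C + 2) * C1) := by
        rw [← pow_mul, ← pow_add]
        congr 1
        ring

theorem log_f_bound {n r : ℕ} {V : Set ((Fin n → ℂ) × (Fin n → ℂ))}
    {P : MvPolynomial (Fin n) ℂ} (hV : VData V P) {M : Fin (r + 1) → ℕ}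
    {b : Fin (r + 1) → Fin n → ℤ} {Rf : (Fin n → ℤ) → (Fin n → ℤ) → R2 n}
    (hRf : ∀ b c, IsRel V P b c (Rf b c)) {Δ : R1 n} {χ : R2 n} {A A' : Fin n → R2 n}
    (hp : RPres V P (bf M b) Δ χ A A') (μ : Fin (r + 1) → ℝ) (hμ : QInd μ) :
    ∃ 𝒢 : Finset (MvPolynomial (Fin n) ℂ), (∀ G ∈ 𝒢, ¬ P ∣ G ∧ G ∈ Coef Rf Δ) ∧
      ∀ C : ℕ, ∃ C' : ℕ, ∀ᶠ N : ℕ in atTop, ∀ x : Fin n → ℂ, eval x P = 0 →
        ‖x‖ ≤ (N : ℝ) ^ C → (∀ G ∈ 𝒢, 1 ≤ ‖eval x G‖ * (N : ℝ) ^ C) → ∀ f θ : ℂ,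
        h1 x f Δ ≠ 0 → (e2 x f χ).eval θ = 0 →
        |∑ i, μ i * Real.log ‖mon (b i) (yv Δ A x f θ)‖| ≤ C →
        |Real.log ‖f‖| ≤ C' * Real.log N := by
  classical
  obtain ⟨D, hD⟩ := Z3_dgs (fun i : Fin (r + 1) => Rf (bf M b) (b i))
  obtain ⟨S, K, hK, hslope⟩ := slope_rel D
  obtain ⟨𝒢, h𝒢⟩ : ∃ 𝒢 : Finset (MvPolynomial (Fin n) ℂ), 𝒢 =
      (((Finset.univ : Finset (Fin (r + 1))) ×ˢ (Finset.range (D + 1) ×ˢ
        Finset.range (D + 1))).image (fun q => ((Rf (bf M b) (b q.1)).coeff q.2.1).coeff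
          q.2.2)).filter (fun G => ¬ P ∣ G) := ⟨_, rfl⟩
  have hin : ∀ i j k, ¬ P ∣ ((Rf (bf M b) (b i)).coeff j).coeff k →
      ((Rf (bf M b) (b i)).coeff j).coeff k ∈ 𝒢 := by
    intro i j k hnd
    have hne : ((Rf (bf M b) (b i)).coeff j).coeff k ≠ 0 := fun h0 => hnd (by
      rw [h0]
      exact dvd_zero _)
    have hj : (Rf (bf M b) (b i)).coeff j ≠ 0 := fun h0 => hne (by
      rw [h0, Polynomial.coeff_zero])
    have h1 := Polynomial.le_natDegree_of_ne_zero hj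
    have h2 := Polynomial.le_natDegree_of_ne_zero hne
    have h3 := (hD i).1
    have h4 := (hD i).2 j
    rw [h𝒢, Finset.mem_filter]
    refine ⟨Finset.mem_image.2 ⟨(i, j, k), ?_, rfl⟩, hnd⟩
    rw [Finset.mem_product, Finset.mem_product, Finset.mem_range, Finset.mem_range]
    exact ⟨Finset.mem_univ _, by show j < D + 1; omega, by show k < D + 1; omega⟩
  refine ⟨𝒢, ?_, ?_⟩
  · intro G hG
    rw [h𝒢, Finset.mem_filter, Finset.mem_image] at hG
    obtain ⟨⟨q, -, rfl⟩, hnd⟩ := hG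
    exact ⟨hnd, Or.inl ⟨_, _, _, _, rfl⟩⟩
  intro C
  obtain ⟨C1, hC1⟩ := Z3_upper 𝒢
  obtain ⟨C2, hC2⟩ : ∃ C2 : ℕ, C2 = (C + 2) * C1 + C := ⟨_, rfl⟩
  -- the finite set of slopes
  obtain ⟨γ, hγ, hγw⟩ := Z3_min (Fintype.piFinset (fun _ : Fin (r + 1) => S))
    (fun s => |∑ i, (M i : ℝ) * ((s i : ℚ) : ℝ) - 1| + |∑ i, μ i * ((s i : ℚ) : ℝ)|) (by
      intro s _
      by_contra hcon
      have h1 := abs_nonneg (∑ i, (M i : ℝ) * ((s i : ℚ) : ℝ) - 1)
      have h2 := abs_nonneg (∑ i, μ i * ((s i : ℚ) : ℝ))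
      have h3 : |∑ i, (M i : ℝ) * ((s i : ℚ) : ℝ) - 1| = 0 := by linarith
      have h4 : |∑ i, μ i * ((s i : ℚ) : ℝ)| = 0 := by linarith
      have h5 := hμ s (abs_eq_zero.1 h4)
      rw [h5] at h3
      norm_num at h3)
  obtain ⟨W, hW⟩ : ∃ W : ℝ, W = (∑ i, (M i : ℝ)) + ∑ i, |μ i| := ⟨_, rfl⟩
  have hW0 : 0 ≤ W := by
    rw [hW]
    exact add_nonneg (Finset.sum_nonneg fun i _ => Nat.cast_nonneg _)
      (Finset.sum_nonneg fun i _ => abs_nonneg _)
  obtain ⟨Λ, hΛ⟩ : ∃ Λ : ℝ, Λ = K * (1 + C2) := ⟨_, rfl⟩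
  have hΛ0 : 0 ≤ Λ := by
    rw [hΛ]
    positivity
  obtain ⟨C', hC'⟩ := exists_nat_ge (Λ + (W * Λ + C) / γ)
  refine ⟨C', ?_⟩
  filter_upwards [eventually_ge_atTop 3] with N hN x hx hxN hGN f θ hΔ hθ hμC
  have hN2 : 2 ≤ N := by omega
  have hN' : (3 : ℝ) ≤ N := by exact_mod_cast hN
  have hN1 : (1 : ℝ) ≤ N := by linarith
  have hlog : 1 ≤ Real.log N := by
    rw [Real.le_log_iff_exp_le (by linarith)]
    have := Real.exp_one_lt_d9
    linarith
  have hmem : (x, yv Δ A x f θ) ∈ V := hp.mem x f θ hx hΔ hθ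
  have hnz : ∀ j, yv Δ A x f θ j ≠ 0 := fun j => hV.nz _ hmem j
  have hmono : mon (bf M b) (yv Δ A x f θ) = f := hp.mono x f θ hx hΔ hθ
  have hf : f ≠ 0 := by
    rw [← hmono]
    exact Z3_mon_ne _ _ hnz
  obtain ⟨B, hB⟩ : ∃ B : ℝ, B = (N : ℝ) ^ C2 := ⟨_, rfl⟩
  have hB1 : 1 ≤ B := by
    rw [hB]
    exact one_le_pow₀ hN1
  have hlogB : Real.log B = C2 * Real.log N := by rw [hB, Real.log_pow]
  have hKB : K * (1 + Real.log B) ≤ Λ * Real.log N := by
    rw [hlogB, hΛ, mul_assoc]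
    refine mul_le_mul_of_nonneg_left ?_ hK.le
    nlinarith
  have hfin : Λ + (W * Λ + C) / γ ≤ C' := hC'
  have hq0 : 0 ≤ (W * Λ + C) / γ := by positivity
  by_cases hbig : |Real.log ‖f‖| ≤ K * (1 + Real.log B)
  · calc |Real.log ‖f‖| ≤ Λ * Real.log N := hbig.trans hKB
      _ ≤ C' * Real.log N := mul_le_mul_of_nonneg_right (by linarith) (by linarith)
  push Not at hbig
  have hex : ∀ i, ∃ s ∈ S, |Real.log ‖mon (b i) (yv Δ A x f θ)‖ - s * Real.log ‖f‖| ≤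
      K * (1 + Real.log B) := by
    intro i
    obtain ⟨k, j, hjk⟩ := (hRf (bf M b) (b i)).1
    refine hslope (spec x (Rf (bf M b) (b i))) (Z3_ne x _ j k ?_) ((Z3_deg x _).trans (hD i).1)
      (fun j => (Z3_deg2 x _ j).trans ((hD i).2 j)) B hB1 (fun j k => ?_) f _ hf
      (Z3_mon_ne _ _ hnz) ?_ hbig
    · intro h0
      have := hGN _ (hin i j k hjk)
      rw [h0, norm_zero, zero_mul] at this
      linarith
    · rw [Z3_coeff]
      by_cases hd : P ∣ ((Rf (bf M b) (b i)).coeff j).coeff k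
      · left
        obtain ⟨q, hq⟩ := hd
        rw [hq, map_mul, hx, zero_mul]
      · right
        have hm := hin i j k hd
        have h1 := hGN _ hm
        have h2 := hC1 C N hN2 x hxN _ hm
        have hNC : (0 : ℝ) < (N : ℝ) ^ C := by positivity
        have hle1 : (N : ℝ) ^ C ≤ B := by
          rw [hB]
          exact pow_le_pow_right₀ hN1 (by rw [hC2]; exact Nat.le_add_left _ _)
        have hle2 : (N : ℝ) ^ ((C + 2) * C1) ≤ B := by
          rw [hB]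
          exact pow_le_pow_right₀ hN1 (by rw [hC2]; exact Nat.le_add_right _ _)
        refine ⟨?_, h2.trans hle2⟩
        rw [div_le_iff₀ (by linarith)]
        exact h1.trans (mul_le_mul_of_nonneg_left hle1 (norm_nonneg _))
    · rw [bev_spec]
      have h1 := (hRf (bf M b) (b i)).2 _ hmem
      simp only at h1
      rw [hmono] at h1
      exact h1
  choose s hsS hs using hex
  have hmem2 : s ∈ Fintype.piFinset (fun _ : Fin (r + 1) => S) :=
    Fintype.mem_piFinset.2 hsS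
  have hw := hγw s hmem2
  obtain ⟨E, hE⟩ : ∃ E : Fin (r + 1) → ℝ, E = fun i =>
    Real.log ‖mon (b i) (yv Δ A x f θ)‖ - ((s i : ℚ) : ℝ) * Real.log ‖f‖ := ⟨_, rfl⟩
  have hEb : ∀ i, |E i| ≤ Λ * Real.log N := fun i => by
    rw [hE]
    exact (hs i).trans hKB
  have hlogi : ∀ i, Real.log ‖mon (b i) (yv Δ A x f θ)‖ =
      ((s i : ℚ) : ℝ) * Real.log ‖f‖ + E i := fun i => by
    rw [hE]
    ring
  have hsum1 : Real.log ‖f‖ = ∑ i, (M i : ℝ) * Real.log ‖mon (b i) (yv Δ A x f θ)‖ := by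
    have h1 : f = ∏ i, mon (b i) (yv Δ A x f θ) ^ M i := by
      rw [← Z3_mon_sum Finset.univ M b _ hnz]
      exact hmono.symm
    conv_lhs => rw [h1]
    rw [norm_prod, Real.log_prod (fun i _ => by
      rw [norm_ne_zero_iff]
      exact pow_ne_zero _ (Z3_mon_ne _ _ hnz))]
    refine Finset.sum_congr rfl fun i _ => ?_
    rw [norm_pow, Real.log_pow]
  have hA1 : (∑ i, (M i : ℝ) * ((s i : ℚ) : ℝ) - 1) * Real.log ‖f‖ =
      -∑ i, (M i : ℝ) * E i := by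
    have h1 : ∑ i, (M i : ℝ) * Real.log ‖mon (b i) (yv Δ A x f θ)‖ =
        (∑ i, (M i : ℝ) * ((s i : ℚ) : ℝ)) * Real.log ‖f‖ + ∑ i, (M i : ℝ) * E i := by
      rw [Finset.sum_mul, ← Finset.sum_add_distrib]
      refine Finset.sum_congr rfl fun i _ => ?_
      rw [hlogi i]
      ring
    rw [h1] at hsum1
    linarith
  have hA2 : (∑ i, μ i * ((s i : ℚ) : ℝ)) * Real.log ‖f‖ =
      (∑ i, μ i * Real.log ‖mon (b i) (yv Δ A x f θ)‖) - ∑ i, μ i * E i := by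
    rw [Finset.sum_mul, ← Finset.sum_sub_distrib]
    refine Finset.sum_congr rfl fun i _ => ?_
    rw [hlogi i]
    ring
  have hb1 : |∑ i, (M i : ℝ) * E i| ≤ (∑ i, (M i : ℝ)) * (Λ * Real.log N) := by
    rw [Finset.sum_mul]
    refine (Finset.abs_sum_le_sum_abs _ _).trans (Finset.sum_le_sum fun i _ => ?_)
    rw [abs_mul, Nat.abs_cast]
    exact mul_le_mul_of_nonneg_left (hEb i) (Nat.cast_nonneg _)
  have hb2 : |∑ i, μ i * E i| ≤ (∑ i, |μ i|) * (Λ * Real.log N) := by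
    rw [Finset.sum_mul]
    refine (Finset.abs_sum_le_sum_abs _ _).trans (Finset.sum_le_sum fun i _ => ?_)
    rw [abs_mul]
    exact mul_le_mul_of_nonneg_left (hEb i) (abs_nonneg _)
  have hc1 : |∑ i, (M i : ℝ) * ((s i : ℚ) : ℝ) - 1| * |Real.log ‖f‖| ≤
      (∑ i, (M i : ℝ)) * (Λ * Real.log N) := by
    rw [← abs_mul, hA1, abs_neg]
    exact hb1
  have hc2 : |∑ i, μ i * ((s i : ℚ) : ℝ)| * |Real.log ‖f‖| ≤
      C + (∑ i, |μ i|) * (Λ * Real.log N) := by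
    rw [← abs_mul, hA2]
    exact (abs_sub _ _).trans (add_le_add hμC hb2)
  have hF := abs_nonneg (Real.log ‖f‖)
  have hγF : γ * |Real.log ‖f‖| ≤ (W * Λ + C) * Real.log N := by
    have h1 := mul_le_mul_of_nonneg_right hw hF
    rw [add_mul] at h1
    have h2 : (C : ℝ) ≤ C * Real.log N := le_mul_of_one_le_right (Nat.cast_nonneg _) hlog
    rw [hW]
    nlinarith
  have hend : |Real.log ‖f‖| ≤ (W * Λ + C) / γ * Real.log N := by
    rw [div_mul_eq_mul_div, le_div_iff₀ hγ]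
    linarith
  refine hend.trans (mul_le_mul_of_nonneg_right ?_ (by linarith))
  linarith

end XV
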