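import Pool.Agent.Lib.MP_228259_lc.V.Defs3
import Pool.Agent.Lib.MP_228259_lc.V.F7
import Pool.Agent.Lib.MP_228259_lc.V.F8
import Pool.Agent.Lib.MP_228259_lc.P1
import Pool.Agent.Lib.MP_228259_lc.P2b
import Pool.Agent.Lib.MP_228259_lc.P2c

/-!
XV-Z5 (bounded_sheet). Near the ray through a real zero `κ = κ₀ + ω₀ q` of `H`, under the tameness
condition, there is a sheet at bounded distance from the tangent plane.

Notation: `A = rc κ₀ + ω₀ qc q`, `α = eval A (dirD q H) ≠ 0`, `∂_j H(A) = ν_j α`, `c = ctr κ₀ N`,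
`x = c + ξ + (2 π i N ω₀ - ν·ξ + δ) q = 2 π i N A + η`, `η = ξ + (δ - ν·ξ) q`. Note `∇H(A) · η = α δ`,
because `∑ ν_j q_j = 1` (from `hν`).

`Z5_taylor`: second order Taylor bound. `Z5_ne`: if `T` is large, `w` is small and `s = T H(A + w)` is
bounded and not small, then `P(T (A + w)) ≠ 0`. `Z5_root`: a bounded root at the centre (`XW.lemmaL`,
`XW.hurwitz`). `bounded_sheet`: with `T = 2 π i N`, `w = η / T` we have `‖s - α δ‖ ≤ C₂` with `C₂`
independent of `‖δ‖ = K₀`; then `trap`.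
-/

set_option autoImplicit false

namespace XV

open MvPolynomial Filter Topology

theorem Z5_taylor {n : ℕ} (H : MvPolynomial (Fin n) ℂ) (A : Fin n → ℂ) :
    ∃ C : ℝ, 0 ≤ C ∧ ∀ w : Fin n → ℂ, ‖w‖ ≤ 1 →
      ‖eval (A + w) H - eval A H - ∑ j, w j * eval A (pderiv j H)‖ ≤ C * ‖w‖ ^ 2 := by
  classical
  induction H using MvPolynomial.induction_on with
  | C a => exact ⟨0, le_rfl, fun w _ => by simp⟩
  | add p q hp hq =>
    obtain ⟨C, hC, h1⟩ := hp
    obtain ⟨D, hD, h2⟩ := hq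
    refine ⟨C + D, add_nonneg hC hD, fun w hw => ?_⟩
    have e : eval (A + w) (p + q) - eval A (p + q) - ∑ j, w j * eval A (pderiv j (p + q)) =
        (eval (A + w) p - eval A p - ∑ j, w j * eval A (pderiv j p)) +
        (eval (A + w) q - eval A q - ∑ j, w j * eval A (pderiv j q)) := by
      simp only [map_add, mul_add, Finset.sum_add_distrib]
      ring
    rw [e]
    calc ‖(eval (A + w) p - eval A p - ∑ j, w j * eval A (pderiv j p)) +
        (eval (A + w) q - eval A q - ∑ j, w j * eval A (pderiv j q))‖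
        ≤ ‖eval (A + w) p - eval A p - ∑ j, w j * eval A (pderiv j p)‖ +
          ‖eval (A + w) q - eval A q - ∑ j, w j * eval A (pderiv j q)‖ := norm_add_le _ _
      _ ≤ C * ‖w‖ ^ 2 + D * ‖w‖ ^ 2 := add_le_add (h1 w hw) (h2 w hw)
      _ = (C + D) * ‖w‖ ^ 2 := by ring
  | mul_X p i hp =>
    obtain ⟨C, hC, h1⟩ := hp
    refine ⟨C * (‖A‖ + 1) + ∑ j, ‖eval A (pderiv j p)‖, by positivity, fun w hw => ?_⟩
    have h5 : ∑ j, w j * eval A (pderiv j (p * X i)) =
        (∑ j, w j * eval A (pderiv j p)) * A i + eval A p * w i := by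
      have h6 : ∀ j, w j * eval A (pderiv j (p * X i)) =
          w j * eval A (pderiv j p) * A i + (if j = i then eval A p * w i else 0) := by
        intro j
        rw [pderiv_mul, pderiv_X]
        by_cases hj : j = i
        · subst hj
          simp
          ring
        · simp [hj, Ne.symm hj]
          ring
      rw [Finset.sum_congr rfl (fun j _ => h6 j), Finset.sum_add_distrib, ← Finset.sum_mul]
      simp
    have hw2 := h1 w hw
    set R : ℂ := eval (A + w) p - eval A p - ∑ j, w j * eval A (pderiv j p) with hR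
    set S : ℂ := ∑ j, w j * eval A (pderiv j p) with hS
    have e : eval (A + w) (p * X i) - eval A (p * X i) - (S * A i + eval A p * w i) =
        R * (A i + w i) + S * w i := by
      rw [map_mul, map_mul, eval_X, eval_X, hR, Pi.add_apply]
      ring
    rw [h5, e]
    have hAi : ‖A i + w i‖ ≤ ‖A‖ + 1 :=
      (norm_add_le _ _).trans (add_le_add (norm_le_pi_norm A i) ((norm_le_pi_norm w i).trans hw))
    have hSb : ‖S‖ ≤ (∑ j, ‖eval A (pderiv j p)‖) * ‖w‖ := by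
      rw [hS, Finset.sum_mul]
      refine norm_sum_le_of_le _ fun j _ => ?_
      rw [norm_mul, mul_comm]
      exact mul_le_mul_of_nonneg_left (norm_le_pi_norm w j) (norm_nonneg _)
    calc ‖R * (A i + w i) + S * w i‖ ≤ ‖R‖ * ‖A i + w i‖ + ‖S‖ * ‖w i‖ := by
          refine (norm_add_le _ _).trans ?_
          rw [norm_mul, norm_mul]
      _ ≤ C * ‖w‖ ^ 2 * (‖A‖ + 1) + (∑ j, ‖eval A (pderiv j p)‖) * ‖w‖ * ‖w‖ := by
          refine add_le_add ?_ ?_
          · exact mul_le_mul hw2 hAi (norm_nonneg _) (by positivity)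
          · exact mul_le_mul hSb (norm_le_pi_norm w i) (norm_nonneg _) (by positivity)
      _ = (C * (‖A‖ + 1) + ∑ j, ‖eval A (pderiv j p)‖) * ‖w‖ ^ 2 := by ring

/-- the expansion of `P` at `T (A + w)` in powers of `s = T H(A + w)` -/
theorem Z5_expand {n : ℕ} {P H : MvPolynomial (Fin n) ℂ} {d h : ℕ} {E : ℕ → ℕ}
    {B : ℕ → MvPolynomial (Fin n) ℂ} (hdec : XW.Dec P H d h E B) (T : ℂ) (y : Fin n → ℂ) :
    eval (T • y) P = ∑ i ∈ Finset.range (d + 1),
      T ^ (i - E i) * (T * eval y H) ^ (E i) * eval y (B i) := by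
  have hP := congrArg (eval (T • y)) hdec.sum
  rw [hP, map_sum]
  refine Finset.sum_congr rfl fun i hi => ?_
  rw [Finset.mem_range] at hi
  rw [map_mul, map_pow]
  by_cases hB : B i = 0
  · simp [hB]
  obtain ⟨hle, hhom⟩ := hdec.deg i (by omega) hB
  rw [XW.P2b_eval_smul hdec.hom, XW.P2b_eval_smul hhom]
  obtain ⟨h', rfl⟩ : ∃ h', h = h' + 1 := ⟨h - 1, by have := hdec.hpos; omega⟩
  have h2 : i - E i = h' * E i + (i - E i * (h' + 1)) := by
    have h3 : E i * (h' + 1) = h' * E i + E i := by ring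
    omega
  obtain ⟨r, hr⟩ : ∃ r, r = i - E i * (h' + 1) := ⟨_, rfl⟩
  rw [h2, ← hr]
  ring

/-- if `s = T H(A + w)` is bounded, not small, `T` is large and `w` small, then `P(T (A + w)) ≠ 0` -/
theorem Z5_ne {n : ℕ} {P H : MvPolynomial (Fin n) ℂ} {d h : ℕ} {E : ℕ → ℕ}
    {B : ℕ → MvPolynomial (Fin n) ℂ} (hdec : XW.Dec P H d h E B) (A : Fin n → ℂ)
    (hB : eval A (B d) ≠ 0) (htame : ∀ i ≤ d, B i ≠ 0 → i + E d ≤ d + E i) :
    ∃ S₀ ρ : ℝ, 0 < S₀ ∧ 0 < ρ ∧ ∀ S₁ : ℝ, ∃ T₀ : ℝ, ∀ (T : ℂ) (w : Fin n → ℂ),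
      T₀ ≤ ‖T‖ → ‖w‖ < ρ → S₀ ≤ ‖T * eval (A + w) H‖ → ‖T * eval (A + w) H‖ ≤ S₁ →
      eval (T • (A + w)) P ≠ 0 := by
  classical
  -- upper bound for the `B i`
  have hbd : ∀ i, ∃ C : ℝ, 0 ≤ C ∧ ∀ w : Fin n → ℂ, ‖w‖ ≤ 1 → ‖eval (A + w) (B i)‖ ≤ C := by
    intro i
    obtain ⟨C, hC⟩ := eval_bound (B i)
    refine ⟨C * (2 + ‖A‖) ^ C, by positivity, fun w hw => (hC _).trans ?_⟩
    refine mul_le_mul_of_nonneg_left (pow_le_pow_left₀ (by positivity) ?_ C) (by positivity)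
    have := norm_add_le A w
    linarith
  choose Cb hCb0 hCb using hbd
  set b : ℝ := ∑ i ∈ Finset.range (d + 1), Cb i with hb
  have hb0 : 0 ≤ b := Finset.sum_nonneg fun i _ => hCb0 i
  have hbi : ∀ i ≤ d, ∀ w : Fin n → ℂ, ‖w‖ ≤ 1 → ‖eval (A + w) (B i)‖ ≤ b := by
    intro i hi w hw
    refine (hCb i w hw).trans ?_
    exact Finset.single_le_sum (f := Cb) (fun i _ => hCb0 i) (Finset.mem_range.2 (by omega))
  -- lower bound for `B d`
  set b₁ : ℝ := ‖eval A (B d)‖ / 2 with hb1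
  have hb1p : 0 < b₁ := by
    have := norm_pos_iff.2 hB
    positivity
  have hcont : ContinuousAt (fun w : Fin n → ℂ => ‖eval (A + w) (B d)‖) 0 := by
    have h1 : Continuous fun w : Fin n → ℂ => eval (A + w) (B d) :=
      (MvPolynomial.continuous_eval (B d)).comp (continuous_const.add continuous_id)
    exact h1.norm.continuousAt
  have hev : ∀ᶠ w : Fin n → ℂ in 𝓝 0, b₁ < ‖eval (A + w) (B d)‖ := by
    refine hcont.eventually (lt_mem_nhds ?_)
    simp only [add_zero]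
    rw [hb1]
    have := norm_pos_iff.2 hB
    linarith
  rw [Metric.eventually_nhds_iff] at hev
  obtain ⟨ρ, hρ, hev⟩ := hev
  refine ⟨d * b / b₁ + 1, min ρ 1, by positivity, lt_min hρ one_pos, fun S₁ => ?_⟩
  refine ⟨max 1 ((max S₁ 1) ^ d), fun T w hT hw hs0 hs1 hP => ?_⟩
  have hw1 : ‖w‖ ≤ 1 := hw.le.trans (min_le_right _ _)
  have hwρ : b₁ < ‖eval (A + w) (B d)‖ := by
    refine hev ?_
    rw [dist_zero_right]
    exact hw.trans_le (min_le_left _ _)
  have hT1 : 1 ≤ ‖T‖ := (le_max_left _ _).trans hT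
  have hT2 : (max S₁ 1) ^ d ≤ ‖T‖ := (le_max_right _ _).trans hT
  rw [Z5_expand hdec] at hP
  set s : ℂ := T * eval (A + w) H with hs
  have hdb : 0 ≤ d * b / b₁ := by positivity
  have hs1' : 1 ≤ ‖s‖ := by linarith
  obtain ⟨e, he⟩ : ∃ e, E d = e + 1 := ⟨E d - 1, by have := hdec.epos; omega⟩
  have hEle : ∀ i ≤ d, B i ≠ 0 → E i ≤ i := by
    intro i hi hBi
    have h1 := (hdec.deg i hi hBi).1
    have h2 := hdec.hpos
    nlinarith
  have hEd := hEle d le_rfl hdec.top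
  -- the terms `i < d`
  have hterm : ∀ i ∈ Finset.range d, ‖T ^ (i - E i) * s ^ (E i) * eval (A + w) (B i)‖ ≤
      ‖T‖ ^ (d - E d) * ‖s‖ ^ e * b := by
    intro i hi
    rw [Finset.mem_range] at hi
    by_cases hBi : B i = 0
    · rw [hBi, map_zero, mul_zero, norm_zero]
      positivity
    have h1 := htame i hi.le hBi
    have h2 := hEle i hi.le hBi
    rw [norm_mul, norm_mul, norm_pow, norm_pow]
    refine mul_le_mul ?_ (hbi i hi.le w hw1) (norm_nonneg _) (by positivity)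
    rcases (show i - E i = d - E d ∨ i - E i + 1 ≤ d - E d by omega) with h3 | h3
    · rw [h3]
      refine mul_le_mul_of_nonneg_left (pow_le_pow_right₀ hs1' ?_) (by positivity)
      omega
    · have h4 : ‖s‖ ^ (E i) ≤ ‖T‖ := by
        calc ‖s‖ ^ (E i) ≤ (max S₁ 1) ^ (E i) :=
              pow_le_pow_left₀ (norm_nonneg _) (hs1.trans (le_max_left _ _)) _
          _ ≤ (max S₁ 1) ^ d := pow_le_pow_right₀ (le_max_right _ _) (by omega)
          _ ≤ ‖T‖ := hT2
      calc ‖T‖ ^ (i - E i) * ‖s‖ ^ (E i) ≤ ‖T‖ ^ (i - E i) * ‖T‖ :=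
            mul_le_mul_of_nonneg_left h4 (by positivity)
        _ = ‖T‖ ^ (i - E i + 1) := (pow_succ _ _).symm
        _ ≤ ‖T‖ ^ (d - E d) := pow_le_pow_right₀ hT1 h3
        _ = ‖T‖ ^ (d - E d) * 1 := (mul_one _).symm
        _ ≤ ‖T‖ ^ (d - E d) * ‖s‖ ^ e :=
            mul_le_mul_of_nonneg_left (one_le_pow₀ hs1') (by positivity)
  rw [Finset.sum_range_succ] at hP
  have h5 : ‖T ^ (d - E d) * s ^ (E d) * eval (A + w) (B d)‖ ≤
      d * (‖T‖ ^ (d - E d) * ‖s‖ ^ e * b) := by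
    have h6 : T ^ (d - E d) * s ^ (E d) * eval (A + w) (B d) =
        -∑ i ∈ Finset.range d, T ^ (i - E i) * s ^ (E i) * eval (A + w) (B i) := by
      linear_combination hP
    rw [h6, norm_neg]
    refine (norm_sum_le _ _).trans ((Finset.sum_le_card_nsmul _ _ _ hterm).trans ?_)
    rw [Finset.card_range, nsmul_eq_mul]
  rw [norm_mul, norm_mul, norm_pow, norm_pow, he, pow_succ] at h5
  have hpos : 0 < ‖T‖ ^ (d - (e + 1)) * ‖s‖ ^ e := by
    have h7 : 0 < ‖T‖ := by linarith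
    have h8 : 0 < ‖s‖ := by linarith
    positivity
  have h9 : ‖T‖ ^ (d - (e + 1)) * ‖s‖ ^ e * (‖s‖ * ‖eval (A + w) (B d)‖) ≤
      ‖T‖ ^ (d - (e + 1)) * ‖s‖ ^ e * (d * b) := by
    calc ‖T‖ ^ (d - (e + 1)) * ‖s‖ ^ e * (‖s‖ * ‖eval (A + w) (B d)‖)
        = ‖T‖ ^ (d - (e + 1)) * (‖s‖ ^ e * ‖s‖) * ‖eval (A + w) (B d)‖ := by ring
      _ ≤ d * (‖T‖ ^ (d - (e + 1)) * ‖s‖ ^ e * b) := h5
      _ = ‖T‖ ^ (d - (e + 1)) * ‖s‖ ^ e * (d * b) := by ring
  have h10 := le_of_mul_le_mul_left h9 hpos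
  have h11 : d * b < ‖s‖ * ‖eval (A + w) (B d)‖ := by
    have h12 : d * b = d * b / b₁ * b₁ := by field_simp
    have h13 : d * b / b₁ * b₁ < ‖s‖ * b₁ := mul_lt_mul_of_pos_right (by linarith) hb1p
    have h14 : ‖s‖ * b₁ ≤ ‖s‖ * ‖eval (A + w) (B d)‖ :=
      mul_le_mul_of_nonneg_left hwρ.le (norm_nonneg _)
    linarith
  linarith

theorem Z5_diff {n : ℕ} (P : MvPolynomial (Fin n) ℂ) :
    Differentiable ℂ fun x : Fin n → ℂ => eval x P := by
  induction P using MvPolynomial.induction_on with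
  | C a => simp
  | add p q hp hq =>
    simp only [map_add]
    exact hp.add hq
  | mul_X p i hp =>
    simp only [map_mul, eval_X]
    exact hp.mul (differentiable_apply i)

/-- a bounded root at the centre -/
theorem Z5_root {n : ℕ} {P H : MvPolynomial (Fin n) ℂ} {d h : ℕ} {E : ℕ → ℕ}
    {B : ℕ → MvPolynomial (Fin n) ℂ} (hdec : XW.Dec P H d h E B) (A v : Fin n → ℂ)
    (hA : eval A H = 0) (hD : eval A (XW.dirD v H) ≠ 0)
    (hB : eval A (B d) ≠ 0) (htame : ∀ i ≤ d, B i ≠ 0 → i + E d ≤ d + E i) :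
    ∃ z₀ : ℂ, ∀ᶠ N : ℕ in atTop, ∃ z ∈ Metric.ball z₀ 1,
      eval ((2 * Real.pi * Complex.I * N) • A + z • v) P = 0 := by
  classical
  set α : ℂ := eval A (XW.dirD v H) with hα
  have hαs : ∀ z : ℂ, ∑ j, (z • v) j * eval A (pderiv j H) = z * α := by
    intro z
    rw [hα]
    unfold XW.dirD
    rw [map_sum, Finset.mul_sum]
    refine Finset.sum_congr rfl fun j _ => ?_
    rw [map_mul, eval_C, Pi.smul_apply, smul_eq_mul]
    ring
  set τ : ℕ → ℂ := fun k => if k + E d = d + E k then 1 else 0 with hτ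
  set g : Polynomial ℂ := ∑ k ∈ Finset.range (d + 1),
    Polynomial.C (τ k * α ^ (E k) * eval A (B k)) * Polynomial.X ^ (E k) with hg
  have hgeval : ∀ z : ℂ, g.eval z = ∑ k ∈ Finset.range (d + 1),
      τ k * (z * α) ^ (E k) * eval A (B k) := by
    intro z
    rw [hg, Polynomial.eval_finsetSum]
    refine Finset.sum_congr rfl fun k _ => ?_
    rw [Polynomial.eval_mul, Polynomial.eval_C, Polynomial.eval_pow, Polynomial.eval_X, mul_pow]
    ring
  have hcoeff : g.coeff (E d) = α ^ (E d) * eval A (B d) := by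
    rw [hg, Polynomial.finsetSum_coeff]
    simp only [Polynomial.coeff_C_mul, Polynomial.coeff_X_pow]
    rw [Finset.sum_eq_single d]
    · simp [hτ]
    · intro k hk hkd
      rw [Finset.mem_range] at hk
      rcases eq_or_ne (E d) (E k) with h1 | h1
      · have h2 : τ k = 0 := by
          rw [hτ]
          simp only
          rw [if_neg]
          omega
        rw [h2]
        simp
      · rw [if_neg h1, mul_zero]
    · intro hd
      exact absurd (Finset.mem_range.2 (Nat.lt_succ_self d)) hd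
  have hc0 : g.coeff (E d) ≠ 0 := by
    rw [hcoeff]
    exact mul_ne_zero (pow_ne_zero _ hD) hB
  have hg0 : g ≠ 0 := by
    intro h0
    rw [h0] at hc0
    simp at hc0
  have hdeg : g.degree ≠ 0 := by
    intro h0
    have h1 := Polynomial.le_degree_of_ne_zero hc0
    rw [h0] at h1
    have h2 : E d ≤ 0 := by exact_mod_cast h1
    have := hdec.epos
    omega
  obtain ⟨z₀, hz₀⟩ := IsAlgClosed.exists_root g hdeg
  refine ⟨z₀, ?_⟩
  -- the sequence
  set T : ℕ → ℂ := fun N => 2 * Real.pi * Complex.I * N with hT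
  have hTn : ∀ N : ℕ, ‖T N‖ = 2 * Real.pi * N := by
    intro N
    rw [hT]
    simp only [norm_mul, Complex.norm_I, Complex.norm_natCast, mul_one, RCLike.norm_ofNat,
      Complex.norm_real, Real.norm_eq_abs, abs_of_pos Real.pi_pos]
  have hTtend : Tendsto (fun N : ℕ => ‖T N‖) atTop atTop := by
    simp only [hTn]
    exact (tendsto_natCast_atTop_atTop (R := ℝ)).const_mul_atTop (by positivity)
  have hT0 : ∀ᶠ N : ℕ in atTop, T N ≠ 0 := by
    filter_upwards [hTtend.eventually_gt_atTop 0] with N hN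
    exact norm_pos_iff.1 hN
  have hTinv : Tendsto (fun N : ℕ => (T N)⁻¹) atTop (𝓝[≠] 0) := by
    rw [tendsto_nhdsWithin_iff]
    constructor
    · rw [tendsto_zero_iff_norm_tendsto_zero]
      simp only [norm_inv]
      exact hTtend.inv_tendsto_atTop
    · filter_upwards [hT0] with N hN
      exact inv_ne_zero hN
  have hhur := XW.hurwitz (l := atTop) (F := fun (N : ℕ) (z : ℂ) =>
      eval (T N • (A + (T N)⁻¹ • (z • v))) P / ((T N) ^ d * ((T N)⁻¹) ^ (E d)))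
    (G := fun z => g.eval z) (z₀ := z₀) (r := 1) one_pos ?_ ?_ ?_ hz₀ ?_
  · filter_upwards [hhur, hT0] with N hN hTN
    obtain ⟨z, hz, hFz⟩ := hN
    refine ⟨z, hz, ?_⟩
    have h1 : (T N) ^ d * ((T N)⁻¹) ^ (E d) ≠ 0 :=
      mul_ne_zero (pow_ne_zero _ hTN) (pow_ne_zero _ (inv_ne_zero hTN))
    have h2 := (div_eq_zero_iff.1 hFz).resolve_right h1
    have h3 : T N • (A + (T N)⁻¹ • (z • v)) = T N • A + z • v := by
      rw [smul_add, smul_smul, mul_inv_cancel₀ hTN, one_smul]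
    rw [h3] at h2
    exact h2
  · refine Eventually.of_forall fun N => DifferentiableOn.div_const ?_ _
    have h1 : Differentiable ℂ fun z : ℂ => T N • (A + (T N)⁻¹ • (z • v)) := by fun_prop
    exact ((Z5_diff P).comp h1).differentiableOn
  · exact g.differentiable.differentiableOn
  · intro z _
    have h1 := XW.lemmaL (l := atTop ×ˢ 𝓝 z) hdec A hA (z • v) (fun i : ℕ × ℂ => T i.1)
      (fun i => (T i.1)⁻¹) (fun i => i.2 • v) τ ?_ ?_ ?_ ?_
    · have h2 : g.eval z = ∑ k ∈ Finset.range (d + 1),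
          τ k * (∑ j, (z • v) j * eval A (pderiv j H)) ^ (E k) * eval A (B k) := by
        rw [hgeval, hαs]
      rw [h2]
      exact h1
    · exact hT0.prod_inl _
    · exact hTinv.comp tendsto_fst
    · have h3 : Tendsto (fun i : ℕ × ℂ => i.2) (atTop ×ˢ 𝓝 z) (𝓝 z) := tendsto_snd
      exact h3.smul tendsto_const_nhds
    · intro k hk hBk
      have h4 := htame k hk hBk
      have h5 : ∀ᶠ i : ℕ × ℂ in atTop ×ˢ 𝓝 z, (T i.1) ^ ((k : ℤ) - d) *
          ((T i.1)⁻¹) ^ ((E k : ℤ) - E d) = ((T i.1)⁻¹) ^ (d + E k - (k + E d)) := by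
        filter_upwards [hT0.prod_inl (𝓝 z)] with i hi
        have e1 : (T i.1) ^ ((k : ℤ) - d) = ((T i.1)⁻¹) ^ ((d : ℤ) - k) := by
          rw [inv_zpow', neg_sub]
        rw [e1, ← zpow_add₀ (inv_ne_zero hi), ← zpow_natCast]
        congr 1
        omega
      refine Tendsto.congr' (EventuallyEq.symm h5) ?_
      have h6 : Tendsto (fun i : ℕ × ℂ => (T i.1)⁻¹) (atTop ×ˢ 𝓝 z) (𝓝 0) :=
        (hTinv.mono_right nhdsWithin_le_nhds).comp tendsto_fst
      by_cases h7 : k + E d = d + E k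
      · have h8 : τ k = 1 := by
          rw [hτ]
          simp only
          rw [if_pos h7]
        have h9 : d + E k - (k + E d) = 0 := by omega
        rw [h8, h9]
        simp only [pow_zero]
        exact tendsto_const_nhds
      · have h8 : τ k = 0 := by
          rw [hτ]
          simp only
          rw [if_neg h7]
        have h9 : d + E k - (k + E d) ≠ 0 := by omega
        rw [h8]
        have h10 := h6.pow (d + E k - (k + E d))
        rw [zero_pow h9] at h10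
        exact h10
  · intro hloc
    have h1 : {z : ℂ | g.IsRoot z} ∈ 𝓝 z₀ := hloc
    have h2 : Set.Infinite {z : ℂ | g.IsRoot z} := infinite_of_mem_nhds z₀ h1
    exact hg0 (Polynomial.eq_zero_of_infinite_isRoot g h2)

theorem bounded_sheet {n : ℕ} {P H : MvPolynomial (Fin n) ℂ} {q : Fin n → ℚ}
    {κ₀ : Fin n → ℝ} (hsh : Sheets P (XW.qc q) κ₀) {d h : ℕ} {E : ℕ → ℕ}
    {B : ℕ → MvPolynomial (Fin n) ℂ} (hdec : XW.Dec P H d h E B) (ω₀ : ℝ)
    (hH0 : eval (XW.rc κ₀ + (ω₀ : ℂ) • XW.qc q) H = 0)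
    (hD : eval (XW.rc κ₀ + (ω₀ : ℂ) • XW.qc q) (XW.dirD (XW.qc q) H) ≠ 0)
    (hB : ∀ i ≤ d, B i ≠ 0 → eval (XW.rc κ₀ + (ω₀ : ℂ) • XW.qc q) (B i) ≠ 0)
    (htame : ∀ i ≤ d, B i ≠ 0 → i + E d ≤ d + E i) (ν : Fin n → ℝ)
    (hν : ∀ j, eval (XW.rc κ₀ + (ω₀ : ℂ) • XW.qc q) (pderiv j H) =
      (ν j : ℂ) * eval (XW.rc κ₀ + (ω₀ : ℂ) • XW.qc q) (XW.dirD (XW.qc q) H)) :
    ∃ K₀ : ℝ, 0 < K₀ ∧ ∀ᶠ N : ℕ in atTop, ∃ ω : (Fin n → ℂ) → ℂ,
      DifferentiableOn ℂ ω (Metric.ball (ctr κ₀ N) (Real.sqrt N)) ∧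
      ∀ u ∈ Metric.ball (ctr κ₀ N) (Real.sqrt N), eval (u + ω u • XW.qc q) P = 0 ∧
        ‖ω u - (2 * Real.pi * Complex.I * N * ω₀ -
          ∑ j, (ν j : ℂ) * (u j - ctr κ₀ N j))‖ ≤ K₀ := by
  classical
  set v : Fin n → ℂ := XW.qc q with hv
  set A : Fin n → ℂ := XW.rc κ₀ + (ω₀ : ℂ) • v with hAd
  set α : ℂ := eval A (XW.dirD v H) with hα
  have hαp : 0 < ‖α‖ := norm_pos_iff.2 hD
  have hνv : ∑ j, (ν j : ℂ) * v j = 1 := by
    have h1 : α = α * ∑ j, (ν j : ℂ) * v j := by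
      conv_lhs => rw [hα]
      unfold XW.dirD
      rw [map_sum, Finset.mul_sum]
      refine Finset.sum_congr rfl fun j _ => ?_
      rw [map_mul, eval_C, hν j]
      ring
    have h2 : α * (∑ j, (ν j : ℂ) * v j) = α * 1 := by rw [← h1, mul_one]
    exact mul_left_cancel₀ hD h2
  obtain ⟨C, hC0, hC⟩ := Z5_taylor H A
  obtain ⟨S₀, ρ, hS₀, hρ, hne⟩ := Z5_ne hdec A (hB d le_rfl hdec.top) htame
  obtain ⟨z₀, hz₀⟩ := Z5_root hdec A v hH0 hD (hB d le_rfl hdec.top) htame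
  set V : ℝ := ∑ j, |ν j| with hV
  have hV0 : 0 ≤ V := Finset.sum_nonneg fun j _ => abs_nonneg _
  set Ce : ℝ := 1 + (1 + V) * ‖v‖ with hCe
  have hCe0 : 0 < Ce := by positivity
  set C₂ : ℝ := C * Ce ^ 2 with hC₂
  have hC₂0 : 0 ≤ C₂ := by positivity
  set K₀ : ℝ := max (‖z₀‖ + 1) ((S₀ + C₂) / ‖α‖) with hK₀
  have hK₀p : 0 < K₀ := lt_of_lt_of_le (by positivity) (le_max_left _ _)
  have hK₀α : S₀ + C₂ ≤ ‖α‖ * K₀ := by
    have h1 : (S₀ + C₂) / ‖α‖ ≤ K₀ := le_max_right _ _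
    rw [div_le_iff₀ hαp] at h1
    linarith
  obtain ⟨T₀, hT₀⟩ := hne (‖α‖ * K₀ + C₂)
  refine ⟨K₀, hK₀p, ?_⟩
  have hbig : ∀ R : ℝ, ∀ᶠ N : ℕ in atTop, R ≤ N := fun R =>
    (tendsto_natCast_atTop_atTop (R := ℝ)).eventually_ge_atTop R
  filter_upwards [hsh, hz₀, hbig (max 1 (K₀ ^ 2)), hbig T₀, hbig ((Ce + 1) ^ 2),
    hbig ((Ce / ρ + 1) ^ 2)] with N hshN hzN hN1 hN2 hN3 hN4
  obtain ⟨z, hz, hPz⟩ := hzN
  have hN0 : (1 : ℝ) ≤ N := (le_max_left _ _).trans hN1
  have hNK : K₀ ^ 2 ≤ N := (le_max_right _ _).trans hN1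
  have hNp : (0 : ℝ) < N := by linarith
  have hsq : 0 < Real.sqrt N := Real.sqrt_pos.2 hNp
  have hsqsq : Real.sqrt N * Real.sqrt N = N := Real.mul_self_sqrt hNp.le
  have hKs : K₀ ≤ Real.sqrt N := Real.le_sqrt_of_sq_le hNK
  have hCs : Ce + 1 ≤ Real.sqrt N := Real.le_sqrt_of_sq_le hN3
  have hCρ : Ce / ρ + 1 ≤ Real.sqrt N := Real.le_sqrt_of_sq_le hN4
  set T : ℂ := 2 * Real.pi * Complex.I * N with hT
  have hTn : ‖T‖ = 2 * Real.pi * N := by
    rw [hT]
    simp only [norm_mul, Complex.norm_I, Complex.norm_natCast, mul_one, RCLike.norm_ofNat,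
      Complex.norm_real, Real.norm_eq_abs, abs_of_pos Real.pi_pos]
  have hTN : (N : ℝ) ≤ ‖T‖ := by
    rw [hTn]
    have := Real.pi_gt_three
    nlinarith
  have hTp : 0 < ‖T‖ := lt_of_lt_of_le hNp hTN
  have hTne : T ≠ 0 := norm_pos_iff.1 hTp
  set c : Fin n → ℂ := ctr κ₀ N with hc
  have hcT : c = T • XW.rc κ₀ := by
    rw [hc, hT]
    funext j
    unfold ctr XW.rc
    rw [Pi.smul_apply, smul_eq_mul]
  -- the sheet
  have hcroot : eval (c + (T * ω₀ + z) • v) P = 0 := by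
    have h1 : c + (T * ω₀ + z) • v = T • A + z • v := by
      rw [hcT, hAd, smul_add, smul_smul, add_smul, add_assoc]
    rw [h1]
    exact hPz
  obtain ⟨ω, hωd, hωc, hωr⟩ := hshN c (Metric.mem_ball_self hsq) (T * ω₀ + z) hcroot
  refine ⟨ω, hωd, fun u hu => ⟨hωr u hu, ?_⟩⟩
  -- the trap
  have hne2 : ∀ u ∈ Metric.ball c (Real.sqrt N),
      ‖ω u - (T * ω₀ - ∑ j, (ν j : ℂ) * (u j - c j))‖ ≠ K₀ := by
    intro u hu hK
    rw [Metric.mem_ball, dist_eq_norm] at hu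
    set ξ : Fin n → ℂ := u - c with hξ
    set δ : ℂ := ω u - (T * ω₀ - ∑ j, (ν j : ℂ) * (u j - c j)) with hδ
    set σ : ℂ := ∑ j, (ν j : ℂ) * ξ j with hσ
    have hσe : σ = ∑ j, (ν j : ℂ) * (u j - c j) := by
      rw [hσ]
      refine Finset.sum_congr rfl fun j _ => ?_
      rw [hξ, Pi.sub_apply]
    have hσn : ‖σ‖ ≤ V * Real.sqrt N := by
      rw [hσ, hV, Finset.sum_mul]
      refine norm_sum_le_of_le _ fun j _ => ?_
      rw [norm_mul, Complex.norm_real, Real.norm_eq_abs]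
      exact mul_le_mul_of_nonneg_left ((norm_le_pi_norm ξ j).trans hu.le) (abs_nonneg _)
    set η : Fin n → ℂ := ξ + (δ - σ) • v with hη
    have hx : u + ω u • v = T • A + η := by
      have h1 : ω u = T * ω₀ - σ + δ := by
        rw [hδ, ← hσe]
        ring
      rw [hη, h1, hAd, smul_add, smul_smul, ← hcT, hξ]
      funext j
      simp only [Pi.add_apply, Pi.smul_apply, Pi.sub_apply, smul_eq_mul]
      ring
    have hηn : ‖η‖ ≤ Ce * Real.sqrt N := by
      rw [hη]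
      refine (norm_add_le _ _).trans ?_
      rw [norm_smul]
      have h1 : ‖δ - σ‖ ≤ (1 + V) * Real.sqrt N := by
        refine (norm_sub_le _ _).trans ?_
        rw [hK]
        linarith
      have h2 : ‖δ - σ‖ * ‖v‖ ≤ (1 + V) * Real.sqrt N * ‖v‖ :=
        mul_le_mul_of_nonneg_right h1 (norm_nonneg _)
      rw [hCe]
      linarith [hu.le]
    have hηT : T • A + η = T • (A + T⁻¹ • η) := by
      rw [smul_add T A (T⁻¹ • η), smul_smul T T⁻¹ η, mul_inv_cancel₀ hTne, one_smul]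
    set w : Fin n → ℂ := T⁻¹ • η with hw
    have hwn : ‖w‖ ≤ Ce / Real.sqrt N := by
      rw [hw, norm_smul, norm_inv, ← div_eq_inv_mul, div_le_div_iff₀ hTp hsq]
      calc ‖η‖ * Real.sqrt N ≤ Ce * Real.sqrt N * Real.sqrt N :=
            mul_le_mul_of_nonneg_right hηn hsq.le
        _ = Ce * N := by rw [mul_assoc, hsqsq]
        _ ≤ Ce * ‖T‖ := mul_le_mul_of_nonneg_left hTN hCe0.le
    have hw1 : ‖w‖ ≤ 1 := by
      refine hwn.trans ?_
      rw [div_le_one hsq]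
      linarith
    have hwρ : ‖w‖ < ρ := by
      refine lt_of_le_of_lt hwn ?_
      rw [div_lt_iff₀ hsq]
      have h1 : Ce / ρ < Real.sqrt N := by linarith
      rw [div_lt_iff₀ hρ] at h1
      linarith
    have hTw : ‖T‖ * ‖w‖ ^ 2 ≤ Ce ^ 2 := by
      have h1 : ‖T‖ * ‖w‖ = ‖η‖ := by
        rw [hw, norm_smul, norm_inv, ← mul_assoc, mul_inv_cancel₀ hTp.ne', one_mul]
      calc ‖T‖ * ‖w‖ ^ 2 = ‖η‖ * ‖w‖ := by rw [← h1]; ring
        _ ≤ Ce * Real.sqrt N * (Ce / Real.sqrt N) :=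
            mul_le_mul hηn hwn (norm_nonneg _) (by positivity)
        _ = Ce ^ 2 := by field_simp
    have hlin : T * ∑ j, w j * eval A (pderiv j H) = α * δ := by
      have h1 : ∀ j, T * (w j * eval A (pderiv j H)) = α * ((ν j : ℂ) * η j) := by
        intro j
        rw [hν j, hw, Pi.smul_apply, smul_eq_mul]
        field_simp
      rw [Finset.mul_sum, Finset.sum_congr rfl (fun j _ => h1 j), ← Finset.mul_sum]
      congr 1
      have h2 : ∀ j, (ν j : ℂ) * η j = (ν j : ℂ) * ξ j + (δ - σ) * ((ν j : ℂ) * v j) := by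
        intro j
        rw [hη, Pi.add_apply, Pi.smul_apply, smul_eq_mul]
        ring
      rw [Finset.sum_congr rfl (fun j _ => h2 j), Finset.sum_add_distrib, ← Finset.mul_sum, hνv,
        ← hσ]
      ring
    have hs : ‖T * eval (A + w) H - α * δ‖ ≤ C₂ := by
      have h1 := hC w hw1
      rw [hH0, sub_zero] at h1
      have h2 : T * eval (A + w) H - α * δ =
          T * (eval (A + w) H - ∑ j, w j * eval A (pderiv j H)) := by
        linear_combination hlin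
      rw [h2, norm_mul]
      calc ‖T‖ * ‖eval (A + w) H - ∑ j, w j * eval A (pderiv j H)‖
          ≤ ‖T‖ * (C * ‖w‖ ^ 2) := mul_le_mul_of_nonneg_left h1 hTp.le
        _ = C * (‖T‖ * ‖w‖ ^ 2) := by ring
        _ ≤ C₂ := mul_le_mul_of_nonneg_left hTw hC0
    have hαδ : ‖α * δ‖ = ‖α‖ * K₀ := by rw [norm_mul, hK]
    have hlow : S₀ ≤ ‖T * eval (A + w) H‖ := by
      have h1 := norm_sub_norm_le (α * δ) (T * eval (A + w) H)
      rw [norm_sub_rev] at h1
      linarith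
    have hup : ‖T * eval (A + w) H‖ ≤ ‖α‖ * K₀ + C₂ := by
      have h1 := norm_sub_norm_le (T * eval (A + w) H) (α * δ)
      linarith
    have hfin := hT₀ T w (hN2.trans hTN) hwρ hlow hup
    rw [← hηT, ← hx] at hfin
    refine hfin (hωr u ?_)
    rw [Metric.mem_ball, dist_eq_norm]
    exact hu
  have hcont : ContinuousOn (fun u : Fin n → ℂ =>
      ‖ω u - (T * ω₀ - ∑ j, (ν j : ℂ) * (u j - c j))‖) (Metric.ball c (Real.sqrt N)) := by
    refine ContinuousOn.norm (hωd.continuousOn.sub ?_)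
    fun_prop
  have hcen : ‖ω c - (T * ω₀ - ∑ j, (ν j : ℂ) * (c j - c j))‖ < K₀ := by
    rw [hωc]
    have h1 : T * ω₀ + z - (T * ω₀ - ∑ j, (ν j : ℂ) * (c j - c j)) = z := by
      simp
    rw [h1]
    refine lt_of_lt_of_le ?_ (le_max_left _ _)
    rw [Metric.mem_ball, dist_eq_norm] at hz
    have h2 := norm_sub_norm_le z z₀
    linarith
  exact (trap (convex_ball c (Real.sqrt N)).isPreconnected _ hcont (Metric.mem_ball_self hsq)
    hcen hne2 u hu).le

end XV
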