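import Pool.Agent.Lib.MP_228259_lc.V.Z6
import Pool.Agent.Lib.MP_228259_lc.V.F1
import Pool.Agent.Lib.MP_228259_lc.V.F10

/-!
XV-Z7 (irr_local). The logarithms of the branch over a sheet times a disc in the parameter.

Proof. Let `c = ctr κ N`, `x u = u + ω u • v`, `R = √√N`. (1) `delta_low` and the coefficient `k₀` with
`P ∤ Δ.coeff k₀` (`hp.ne`): `‖h1 (x u) (F s) Δ‖ ≥ (c₁/2) ‖Δ_{k₀}(x c)‖ ‖F‖^{k₀} ≥ N^{-C₂}` for
`u ∈ ball c R`, `s ∈ ball σ δ` (`Gen`, `|log ‖F‖| ≤ C₁ log N`, i.e. `N^{-C₁} ≤ ‖F‖ ≤ N^{C₁}`).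
(2) On `W = ball c R ×ˢ ball σ δ ⊆ (Fin n → ℂ) × ℂ` (open, convex) the family
`e2 (x u) (F s) χ` is monic (`e2_monic`) with holomorphic coefficients (`diff_coeff`) and simple roots
(`hp.simple`): `cov_branch` gives `ϑ(u, s)` with `ϑ(c, σ) = Θ σ`. By `branch_unique` on `ball σ δ`
(`s ↦ ϑ(c, s)` and `Θ`): `ϑ(c, s) = Θ s`.
(3) `y j = yv Δ A (x u) (F s) (ϑ(u,s)) j` is holomorphic on `W` and nowhere zero (`hp.inv`), in `V`
(`hp.mem`); `‖y j‖`, `‖y j‖⁻¹ = ‖A'_j / Δ‖` are at most `N^{C₃}` (`Bdd`, `root_bound`, `e2_bound`, (1)), so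
`|log ‖y j‖| ≤ C₃ log N`. `exists_log` on `W`: `ℓ j`; subtract an integer multiple of `2 π i` so that
`|Im ℓ_j(c, σ)| ≤ π`. `L u s j = ℓ_j(u, s)`. Last statement:
`exp (∑_j b_j L c s j) = ∏ (exp (L c s j))^(b_j) = mon b (y)`.
-/

set_option autoImplicit false

namespace XV

open MvPolynomial Filter Topology

private theorem Z7_ctr {n : ℕ} (κ : Fin n → ℝ) :
    ∀ᶠ N : ℕ in atTop, ∀ u ∈ Metric.ball (ctr κ N) (Real.sqrt N), 1 + ‖u‖ ≤ (N : ℝ) ^ 2 := by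
  obtain ⟨M, hM⟩ := exists_nat_ge (2 * Real.pi * ‖κ‖ + 2)
  filter_upwards [eventually_ge_atTop (M + 1)] with N hN u hu
  have hN1 : (1 : ℝ) ≤ N := by
    have : 1 ≤ N := by omega
    exact_mod_cast this
  have hNM : (M : ℝ) ≤ N := by
    have : M ≤ N := by omega
    exact_mod_cast this
  have h1 : ‖ctr κ N‖ ≤ 2 * Real.pi * ‖κ‖ * N := by
    rw [pi_norm_le_iff_of_nonneg (by positivity)]
    intro j
    unfold ctr
    rw [norm_mul, norm_mul, norm_mul, norm_mul, Complex.norm_I, Complex.norm_natCast,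
      Complex.norm_real, Complex.norm_real, Complex.norm_ofNat]
    have h2 : ‖κ j‖ ≤ ‖κ‖ := norm_le_pi_norm κ j
    have h3 : ‖Real.pi‖ = Real.pi := Real.norm_of_nonneg Real.pi_pos.le
    rw [h3]
    have hpi := Real.pi_pos
    calc 2 * Real.pi * 1 * (N : ℝ) * ‖κ j‖ = (2 * Real.pi * N) * ‖κ j‖ := by ring
      _ ≤ (2 * Real.pi * N) * ‖κ‖ := by gcongr
      _ = 2 * Real.pi * ‖κ‖ * N := by ring
  have h4 : ‖u‖ ≤ ‖ctr κ N‖ + Real.sqrt N := by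
    have h5 : ‖u - ctr κ N‖ < Real.sqrt N := by
      rw [← dist_eq_norm]
      exact hu
    calc ‖u‖ = ‖(u - ctr κ N) + ctr κ N‖ := by rw [sub_add_cancel]
      _ ≤ ‖u - ctr κ N‖ + ‖ctr κ N‖ := norm_add_le _ _
      _ ≤ ‖ctr κ N‖ + Real.sqrt N := by linarith
  have h6 : Real.sqrt N ≤ N := by
    rw [Real.sqrt_le_left (by linarith)]
    nlinarith
  have h7 : (2 * Real.pi * ‖κ‖ + 2) * N ≤ (N : ℝ) * N := by
    have : 2 * Real.pi * ‖κ‖ + 2 ≤ N := le_trans hM hNM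
    gcongr
  nlinarith

/-- the value of a polynomial family at a holomorphic point is holomorphic -/
private theorem Z7_diff {n : ℕ} {E : Type*} [NormedAddCommGroup E] [NormedSpace ℂ E] {U : Set E}
    (G : R2 n) (x : E → Fin n → ℂ) (f θ : E → ℂ)
    (hx : ∀ j, DifferentiableOn ℂ (fun u => x u j) U) (hf : DifferentiableOn ℂ f U)
    (hθ : DifferentiableOn ℂ θ U) :
    DifferentiableOn ℂ (fun u => (e2 (x u) (f u) G).eval (θ u)) U := by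
  have h1 : (fun u => (e2 (x u) (f u) G).eval (θ u)) =
      fun u => ∑ i ∈ Finset.range (G.natDegree + 1), (e2 (x u) (f u) G).coeff i * θ u ^ i := by
    funext u
    refine Polynomial.eval_eq_sum_range' ?_ _
    exact Nat.lt_succ_of_le Polynomial.natDegree_map_le
  rw [h1]
  refine DifferentiableOn.fun_sum fun i _ => ?_
  exact (diff_coeff G x f hx hf i).mul (hθ.pow i)

private theorem Z7_h1 {n : ℕ} {E : Type*} [NormedAddCommGroup E] [NormedSpace ℂ E] {U : Set E}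
    (G : R1 n) (x : E → Fin n → ℂ) (f : E → ℂ)
    (hx : ∀ j, DifferentiableOn ℂ (fun u => x u j) U) (hf : DifferentiableOn ℂ f U) :
    DifferentiableOn ℂ (fun u => h1 (x u) (f u) G) U := by
  have h2 := diff_coeff (Polynomial.C G) x f hx hf 0
  have e : (fun u => (e2 (x u) (f u) (Polynomial.C G)).coeff 0) = fun u => h1 (x u) (f u) G := by
    funext u
    unfold e2
    rw [Polynomial.map_C, Polynomial.coeff_C_zero]
  rw [e] at h2
  exact h2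

/-- the numerical part: bounds for the coordinates -/
private theorem Z7_num {N a b Cr CA : ℕ} {X f t : ℝ} (hN : 2 ≤ N) (hNr : Cr ≤ N)
    (hX : 0 ≤ X) (hf : 0 ≤ f) (ht0 : 0 ≤ t)
    (h1 : 1 + X + f ≤ (N : ℝ) ^ a) (ht : t ≤ Cr * (1 + X + f) ^ Cr)
    (hb : b = a + a * Cr + 2) (C : ℕ) (hC : C ≤ CA) (hNA : CA ≤ N) :
    C * (1 + X + f + t) ^ C ≤ (N : ℝ) ^ (b * CA + 1) := by
  have hN1 : (1 : ℝ) ≤ N := by exact_mod_cast (by omega : 1 ≤ N)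
  have hN2 : (2 : ℝ) ≤ N := by exact_mod_cast hN
  have h2 : t ≤ (N : ℝ) ^ (a * Cr + 1) := by
    refine ht.trans ?_
    calc (Cr : ℝ) * (1 + X + f) ^ Cr ≤ N * ((N : ℝ) ^ a) ^ Cr := by
          have : (Cr : ℝ) ≤ N := by exact_mod_cast hNr
          gcongr
      _ = (N : ℝ) ^ (a * Cr + 1) := by rw [← pow_mul]; ring
  have h3 : 1 + X + f + t ≤ (N : ℝ) ^ b := by
    have e1 : (N : ℝ) ^ a ≤ (N : ℝ) ^ (a + a * Cr + 1) := pow_le_pow_right₀ hN1 (by omega)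
    have e2 : (N : ℝ) ^ (a * Cr + 1) ≤ (N : ℝ) ^ (a + a * Cr + 1) :=
      pow_le_pow_right₀ hN1 (by omega)
    have e3 : (N : ℝ) ^ b = N * (N : ℝ) ^ (a + a * Cr + 1) := by rw [hb]; ring
    have e4 : 2 * (N : ℝ) ^ (a + a * Cr + 1) ≤ N * (N : ℝ) ^ (a + a * Cr + 1) := by gcongr
    linarith
  have h4 : (1 : ℝ) ≤ (N : ℝ) ^ b := one_le_pow₀ hN1
  have h5 : (0 : ℝ) ≤ 1 + X + f + t := by linarith
  calc (C : ℝ) * (1 + X + f + t) ^ C ≤ N * ((N : ℝ) ^ b) ^ C := by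
        have : (C : ℝ) ≤ N := by exact_mod_cast hC.trans hNA
        gcongr
    _ ≤ N * ((N : ℝ) ^ b) ^ CA := by gcongr
    _ = (N : ℝ) ^ (b * CA + 1) := by rw [← pow_mul]; ring

theorem irr_local {n : ℕ} {V : Set ((Fin n → ℂ) × (Fin n → ℂ))} {P : MvPolynomial (Fin n) ℂ}
    {a : Fin n → ℤ} {Δ : R1 n} {χ : R2 n} {A A' : Fin n → R2 n} (hp : RPres V P a Δ χ A A')
    {v : Fin n → ℂ} {κ : Fin n → ℝ} (hb : Bdd P v κ)
    (hΔ : ∀ k, ¬ P ∣ Δ.coeff k → Gen P v κ (Δ.coeff k)) (c₁ : ℝ) (hc₁ : 0 < c₁) (C₁ : ℕ)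
    {σ : ℂ} {δ : ℝ} (hδ : 0 < δ) (hσ : ∀ s ∈ Metric.ball σ δ, ‖s - 1‖ < 1 / 2) :
    ∃ C : ℝ, 0 < C ∧ ∀ᶠ N : ℕ in atTop, ∀ (ω : (Fin n → ℂ) → ℂ) (F : ℂ) (Θ : ℂ → ℂ),
      DifferentiableOn ℂ ω (Metric.ball (ctr κ N) (Real.sqrt N)) →
      (∀ u ∈ Metric.ball (ctr κ N) (Real.sqrt N), eval (u + ω u • v) P = 0) →
      F ≠ 0 → |Real.log ‖F‖| ≤ C₁ * Real.log N →
      DifferentiableOn ℂ Θ (Metric.ball σ δ) →
      (∀ s ∈ Metric.ball σ δ,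
        (e2 (ctr κ N + ω (ctr κ N) • v) (F * s) χ).eval (Θ s) = 0 ∧
        ∀ k, c₁ * ‖eval (ctr κ N + ω (ctr κ N) • v) (Δ.coeff k) * F ^ k‖ ≤
          ‖h1 (ctr κ N + ω (ctr κ N) • v) (F * s) Δ‖) →
      ∃ L : (Fin n → ℂ) → ℂ → Fin n → ℂ,
        (∀ j, DifferentiableOn ℂ (fun w : (Fin n → ℂ) × ℂ => L w.1 w.2 j)
          (Metric.ball (ctr κ N) (Real.sqrt (Real.sqrt N)) ×ˢ Metric.ball σ δ)) ∧
        (∀ u ∈ Metric.ball (ctr κ N) (Real.sqrt (Real.sqrt N)), ∀ s ∈ Metric.ball σ δ,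
          (∀ j, |(L u s j).re| ≤ C * Real.log N) ∧
          (u + ω u • v, fun j => Complex.exp (L u s j)) ∈ V) ∧
        (∀ j, |(L (ctr κ N) σ j).im| ≤ Real.pi) ∧
        (∀ s ∈ Metric.ball σ δ, ∀ b : Fin n → ℤ,
          Complex.exp (∑ j, (b j : ℂ) * L (ctr κ N) s j) =
            mon b (yv Δ A (ctr κ N + ω (ctr κ N) • v) (F * s) (Θ s))) := by
  classical
  obtain ⟨Cb, hCb⟩ := hb
  obtain ⟨k₀, hk₀⟩ := hp.ne
  obtain ⟨C₂, hC₂⟩ := hΔ k₀ hk₀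
  have hlow := delta_low ⟨Cb, hCb⟩ Δ hΔ c₁ hc₁
  obtain ⟨Cr, hCr⟩ := root_bound χ hp.monic
  choose CA₁ hCA₁ using fun j => e2_bound (A j)
  choose CA₂ hCA₂ using fun j => e2_bound (A' j)
  obtain ⟨CA, hCA⟩ : ∃ CA : ℕ, CA = ∑ j, (CA₁ j + CA₂ j) := ⟨_, rfl⟩
  have hCAj : ∀ j, CA₁ j + CA₂ j ≤ CA := fun j => by
    rw [hCA]
    exact Finset.single_le_sum (f := fun j => CA₁ j + CA₂ j) (fun _ _ => Nat.zero_le _)
      (Finset.mem_univ j)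
  obtain ⟨M, hM⟩ := exists_nat_ge (1 + ‖v‖)
  obtain ⟨M₂, hM₂⟩ := exists_nat_ge (2 / c₁)
  obtain ⟨a₀, ha₀⟩ : ∃ a₀ : ℕ, a₀ = Cb + C₁ + 3 := ⟨_, rfl⟩
  obtain ⟨b₀, hb₀⟩ : ∃ b₀ : ℕ, b₀ = a₀ + a₀ * Cr + 2 := ⟨_, rfl⟩
  obtain ⟨K, hK⟩ : ∃ K : ℕ, K = (b₀ * CA + 1) + (C₂ + C₁ * k₀ + 1) := ⟨_, rfl⟩
  refine ⟨K + 1, by positivity, ?_⟩
  filter_upwards [hCb, hC₂, hlow, Z7_ctr κ,
    eventually_ge_atTop (M + M₂ + Cr + CA + 4)] with N g1 g2 g3 g4 g5 ω F Θ hω hroot hF hFN hΘ hs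
  have hN2 : 2 ≤ N := by omega
  have hN1 : (1 : ℝ) < N := by exact_mod_cast (by omega : 1 < N)
  have hN1' : (1 : ℝ) ≤ N := hN1.le
  have hN4 : (4 : ℝ) ≤ N := by exact_mod_cast (by omega : 4 ≤ N)
  have hNM : 1 + ‖v‖ ≤ N := hM.trans (by exact_mod_cast (by omega : M ≤ N))
  have hNM₂ : 2 / c₁ ≤ N := hM₂.trans (by exact_mod_cast (by omega : M₂ ≤ N))
  have hl : 0 < Real.log N := Real.log_pos hN1
  have hN0 : (0 : ℝ) < N := by linarith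
  have hFn : 0 < ‖F‖ := norm_pos_iff.2 hF
  have hFu : ‖F‖ ≤ (N : ℝ) ^ C₁ := by
    rw [← Real.log_le_log_iff hFn (by positivity), Real.log_pow]
    exact (abs_le.1 hFN).2
  have hFl : 1 ≤ ‖F‖ * (N : ℝ) ^ C₁ := by
    rw [← Real.log_le_log_iff one_pos (by positivity), Real.log_mul hFn.ne' (by positivity),
      Real.log_pow, Real.log_one]
    linarith [(abs_le.1 hFN).1]
  -- radii
  have hs1 : (1 : ℝ) ≤ Real.sqrt N := by
    rw [show (1 : ℝ) = Real.sqrt 1 by rw [Real.sqrt_one]]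
    exact Real.sqrt_le_sqrt (by exact_mod_cast (by omega : 1 ≤ N))
  have hs2 : 0 < Real.sqrt (Real.sqrt N) := Real.sqrt_pos.2 (by linarith)
  have hs3 : Real.sqrt (Real.sqrt N) ≤ Real.sqrt N := by
    rw [Real.sqrt_le_left (by linarith)]
    nlinarith
  obtain ⟨c, hc⟩ : ∃ c, c = ctr κ N := ⟨_, rfl⟩
  rw [← hc] at g1 g2 g3 g4 hω hroot hs ⊢
  have hsub : Metric.ball c (Real.sqrt (Real.sqrt N)) ⊆ Metric.ball c (Real.sqrt N) :=
    Metric.ball_subset_ball hs3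
  have hcc : c ∈ Metric.ball c (Real.sqrt (Real.sqrt N)) := Metric.mem_ball_self hs2
  have hσσ : σ ∈ Metric.ball σ δ := Metric.mem_ball_self hδ
  have hsn : ∀ s ∈ Metric.ball σ δ, ‖s‖ ≤ 2 := by
    intro s hs'
    have h1 := hσ s hs'
    calc ‖s‖ = ‖(s - 1) + 1‖ := by rw [sub_add_cancel]
      _ ≤ ‖s - 1‖ + ‖(1 : ℂ)‖ := norm_add_le _ _
      _ ≤ 2 := by rw [norm_one]; linarith
  -- the lower bound of `Δ`
  have hDl : ∀ u ∈ Metric.ball c (Real.sqrt (Real.sqrt N)), ∀ s ∈ Metric.ball σ δ,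
      1 ≤ ‖h1 (u + ω u • v) (F * s) Δ‖ * (N : ℝ) ^ (C₂ + C₁ * k₀ + 1) := by
    intro u hu s hs'
    have h1 := g3 ω hω hroot F s (hsn s hs') (hs s hs').2 u hu k₀
    have h2 := g2 c (hsub hcc) (ω c) (hroot c (hsub hcc))
    have h3 : 1 ≤ ‖F‖ ^ k₀ * (N : ℝ) ^ (C₁ * k₀) := by
      have : ‖F‖ ^ k₀ * (N : ℝ) ^ (C₁ * k₀) = (‖F‖ * (N : ℝ) ^ C₁) ^ k₀ := by
        rw [mul_pow, ← pow_mul]
      rw [this]
      exact one_le_pow₀ hFl
    have h4 : 1 ≤ c₁ / 2 * N := by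
      have : 2 / c₁ * (c₁ / 2) = 1 := by field_simp
      calc (1 : ℝ) = 2 / c₁ * (c₁ / 2) := this.symm
        _ ≤ N * (c₁ / 2) := by gcongr
        _ = _ := by ring
    rw [norm_mul, norm_pow] at h1
    have h5 : 1 ≤ (c₁ / 2 * N) * ((‖eval (c + ω c • v) (Δ.coeff k₀)‖ * (N : ℝ) ^ C₂) *
        (‖F‖ ^ k₀ * (N : ℝ) ^ (C₁ * k₀))) :=
      one_le_mul_of_one_le_of_one_le h4 (one_le_mul_of_one_le_of_one_le h2 h3)
    refine h5.trans ?_
    calc (c₁ / 2 * N) * ((‖eval (c + ω c • v) (Δ.coeff k₀)‖ * (N : ℝ) ^ C₂) *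
        (‖F‖ ^ k₀ * (N : ℝ) ^ (C₁ * k₀)))
        = (c₁ / 2 * (‖eval (c + ω c • v) (Δ.coeff k₀)‖ * ‖F‖ ^ k₀)) *
          (N : ℝ) ^ (C₂ + C₁ * k₀ + 1) := by ring
      _ ≤ _ := mul_le_mul_of_nonneg_right h1 (by positivity)
  have hDne : ∀ u ∈ Metric.ball c (Real.sqrt (Real.sqrt N)), ∀ s ∈ Metric.ball σ δ,
      h1 (u + ω u • v) (F * s) Δ ≠ 0 := by
    intro u hu s hs' h0
    have := hDl u hu s hs'
    rw [h0, norm_zero, zero_mul] at this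
    linarith
  -- the branch over `W`
  obtain ⟨W, hW⟩ : ∃ W : Set ((Fin n → ℂ) × ℂ),
    W = Metric.ball c (Real.sqrt (Real.sqrt N)) ×ˢ Metric.ball σ δ := ⟨_, rfl⟩
  have hWo : IsOpen W := by
    rw [hW]
    exact Metric.isOpen_ball.prod Metric.isOpen_ball
  have hWc : Convex ℝ W := by
    rw [hW]
    exact (convex_ball _ _).prod (convex_ball _ _)
  have hWm : ∀ w ∈ W, w.1 ∈ Metric.ball c (Real.sqrt (Real.sqrt N)) ∧ w.2 ∈ Metric.ball σ δ := by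
    intro w hw
    rw [hW] at hw
    exact hw
  obtain ⟨x, hx⟩ : ∃ x : (Fin n → ℂ) × ℂ → Fin n → ℂ, x = fun w => w.1 + ω w.1 • v := ⟨_, rfl⟩
  obtain ⟨f, hf⟩ : ∃ f : (Fin n → ℂ) × ℂ → ℂ, f = fun w => F * w.2 := ⟨_, rfl⟩
  have hxd : ∀ j, DifferentiableOn ℂ (fun w => x w j) W := by
    intro j
    rw [hx]
    have e1 : (fun w : (Fin n → ℂ) × ℂ => (w.1 + ω w.1 • v) j) =
        fun w => w.1 j + ω w.1 * v j := by
      funext w
      simp [Pi.add_apply, Pi.smul_apply, smul_eq_mul]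
    rw [e1]
    refine DifferentiableOn.add ?_ (DifferentiableOn.mul_const ?_ _)
    · exact ((differentiable_apply (𝕜 := ℂ) j).comp
        (differentiable_fst (𝕜 := ℂ) (E := Fin n → ℂ) (F := ℂ))).differentiableOn
    · exact hω.comp differentiableOn_fst fun w hw => hsub (hWm w hw).1
  have hfd : DifferentiableOn ℂ f W := by
    rw [hf]
    exact (differentiable_snd.const_mul F).differentiableOn
  have hxP : ∀ w ∈ W, eval (x w) P = 0 := by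
    intro w hw
    rw [hx]
    exact hroot _ (hsub (hWm w hw).1)
  have hDW : ∀ w ∈ W, h1 (x w) (f w) Δ ≠ 0 := by
    intro w hw
    rw [hx, hf]
    exact hDne _ (hWm w hw).1 _ (hWm w hw).2
  have hcW : ((c, σ) : (Fin n → ℂ) × ℂ) ∈ W := by
    rw [hW]
    exact ⟨hcc, hσσ⟩
  obtain ⟨th, hth, hth0, hthr⟩ := cov_branch hWo hWc (fun w => e2 (x w) (f w) χ) χ.natDegree
    (fun w _ => e2_monic χ hp.monic _ _) (fun i => diff_coeff χ x f hxd hfd i)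
    (fun w hw θ hθ => hp.simple _ _ θ (hxP w hw) (hDW w hw) hθ) hcW (θ₀ := Θ σ) (by
      rw [hx, hf]
      exact (hs σ hσσ).1)
  -- the branch on the disc
  have hcs : ∀ s ∈ Metric.ball σ δ, th (c, s) = Θ s := by
    have hms : Set.MapsTo (fun s : ℂ => ((c, s) : (Fin n → ℂ) × ℂ)) (Metric.ball σ δ) W := by
      intro s hs'
      rw [hW]
      exact ⟨hcc, hs'⟩
    have hcd : DifferentiableOn ℂ (fun s : ℂ => ((c, s) : (Fin n → ℂ) × ℂ)) (Metric.ball σ δ) :=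
      ((differentiable_const c).prodMk differentiable_id).differentiableOn
    refine branch_unique (convex_ball σ δ).isPreconnected
      (fun s => e2 (x (c, s)) (f (c, s)) χ) χ.natDegree
      (fun s _ => (e2_monic χ hp.monic _ _).2.le) ?_ ?_ (fun s => th (c, s)) Θ ?_
      hΘ.continuousOn ?_ ?_ hσσ hth0
    · intro i
      exact ((diff_coeff χ x f hxd hfd i).comp hcd hms).continuousOn
    · intro s hs' θ hθ
      exact hp.simple _ _ θ (hxP _ (hms hs')) (hDW _ (hms hs')) hθ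
    · exact (hth.comp hcd hms).continuousOn
    · intro s hs'
      exact hthr _ (hms hs')
    · intro s hs'
      rw [hx, hf]
      exact (hs s hs').1
  -- the coordinates
  obtain ⟨y, hy⟩ : ∃ y : (Fin n → ℂ) × ℂ → Fin n → ℂ,
    y = fun w => yv Δ A (x w) (f w) (th w) := ⟨_, rfl⟩
  have hyd : ∀ j, DifferentiableOn ℂ (fun w => y w j) W := by
    intro j
    rw [hy]
    have e : (fun w => yv Δ A (x w) (f w) (th w) j) =
        fun w => (e2 (x w) (f w) (A j)).eval (th w) * (h1 (x w) (f w) Δ)⁻¹ := by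
      funext w
      unfold yv
      rw [div_eq_mul_inv]
    rw [e]
    exact (Z7_diff (A j) x f th hxd hfd hth).mul ((Z7_h1 Δ x f hxd hfd).fun_inv hDW)
  have hyinv : ∀ w ∈ W, ∀ j, y w j * ((e2 (x w) (f w) (A' j)).eval (th w) /
      h1 (x w) (f w) Δ) = 1 := by
    intro w hw j
    rw [hy]
    exact hp.inv _ _ _ (hxP w hw) (hDW w hw) (hthr w hw) j
  have hyne : ∀ j, ∀ w ∈ W, y w j ≠ 0 := by
    intro j w hw h0
    have := hyinv w hw j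
    rw [h0, zero_mul] at this
    exact zero_ne_one this
  have hbase : ∀ w ∈ W, 1 + ‖x w‖ + ‖f w‖ ≤ (N : ℝ) ^ a₀ := by
    intro w hw
    obtain ⟨hw1, hw2⟩ := hWm w hw
    have b1 := g1 w.1 (hsub hw1) (ω w.1) (hroot w.1 (hsub hw1))
    have b2 := g4 w.1 (hsub hw1)
    have b3 : ‖x w‖ ≤ ‖w.1‖ + (N : ℝ) ^ Cb * ‖v‖ := by
      rw [hx]
      refine (norm_add_le _ _).trans ?_
      rw [norm_smul]
      gcongr
    have b4 : ‖f w‖ ≤ (N : ℝ) ^ C₁ * 2 := by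
      rw [hf]
      simp only [norm_mul]
      exact mul_le_mul hFu (hsn _ hw2) (norm_nonneg _) (by positivity)
    have b5 : (N : ℝ) ^ Cb * ‖v‖ ≤ (N : ℝ) ^ (Cb + 1) := by
      rw [pow_succ]
      have : ‖v‖ ≤ N := by linarith
      gcongr
    have e0 : (N : ℝ) ^ a₀ = N * (N : ℝ) ^ (Cb + C₁ + 2) := by rw [ha₀]; ring
    have e1 : (N : ℝ) ^ 2 ≤ (N : ℝ) ^ (Cb + C₁ + 2) := pow_le_pow_right₀ hN1' (by omega)
    have e2 : (N : ℝ) ^ (Cb + 1) ≤ (N : ℝ) ^ (Cb + C₁ + 2) := pow_le_pow_right₀ hN1' (by omega)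
    have e3 : (N : ℝ) ^ C₁ ≤ (N : ℝ) ^ (Cb + C₁ + 2) := pow_le_pow_right₀ hN1' (by omega)
    have e4 : 4 * (N : ℝ) ^ (Cb + C₁ + 2) ≤ N * (N : ℝ) ^ (Cb + C₁ + 2) := by gcongr
    rw [e0]
    linarith
  have hgen : ∀ (G : R2 n) (C : ℕ), (∀ (x : Fin n → ℂ) (f θ : ℂ),
      ‖(e2 x f G).eval θ‖ ≤ C * (1 + ‖x‖ + ‖f‖ + ‖θ‖) ^ C) → C ≤ CA → ∀ w ∈ W,
      ‖(e2 (x w) (f w) G).eval (th w) / h1 (x w) (f w) Δ‖ ≤ (N : ℝ) ^ K := by
    intro G C hG hC w hw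
    have k1 := hG (x w) (f w) (th w)
    have k2 := Z7_num (X := ‖x w‖) (f := ‖f w‖) (t := ‖th w‖) hN2 (by omega : Cr ≤ N)
      (norm_nonneg _) (norm_nonneg _) (norm_nonneg _) (hbase w hw) (hCr _ _ _ (hthr w hw)) hb₀ C hC
      (by omega : CA ≤ N)
    have k3 : 1 ≤ ‖h1 (x w) (f w) Δ‖ * (N : ℝ) ^ (C₂ + C₁ * k₀ + 1) := by
      rw [hx, hf]
      exact hDl _ (hWm w hw).1 _ (hWm w hw).2
    have k4 : 0 < ‖h1 (x w) (f w) Δ‖ := norm_pos_iff.2 (hDW w hw)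
    rw [norm_div, div_le_iff₀ k4]
    calc ‖(e2 (x w) (f w) G).eval (th w)‖ ≤ (N : ℝ) ^ (b₀ * CA + 1) * 1 := by
          rw [mul_one]
          exact k1.trans k2
      _ ≤ (N : ℝ) ^ (b₀ * CA + 1) * (‖h1 (x w) (f w) Δ‖ * (N : ℝ) ^ (C₂ + C₁ * k₀ + 1)) := by
          gcongr
      _ = (N : ℝ) ^ K * ‖h1 (x w) (f w) Δ‖ := by
          rw [hK, pow_add _ (b₀ * CA + 1)]
          ring
  have hylog : ∀ w ∈ W, ∀ j, |Real.log ‖y w j‖| ≤ K * Real.log N := by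
    intro w hw j
    have k0 : 0 < ‖y w j‖ := norm_pos_iff.2 (hyne j w hw)
    have k1 : ‖y w j‖ ≤ (N : ℝ) ^ K := by
      rw [hy]
      exact hgen (A j) (CA₁ j) (hCA₁ j) (by have := hCAj j; omega) w hw
    have k2 := hgen (A' j) (CA₂ j) (hCA₂ j) (by have := hCAj j; omega) w hw
    have k3 : ‖y w j‖⁻¹ ≤ (N : ℝ) ^ K := by
      have : (y w j)⁻¹ = (e2 (x w) (f w) (A' j)).eval (th w) / h1 (x w) (f w) Δ :=
        inv_eq_of_mul_eq_one_right (hyinv w hw j)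
      rw [← norm_inv, this]
      exact k2
    rw [abs_le]
    constructor
    · have k4 : Real.log ‖y w j‖⁻¹ ≤ Real.log ((N : ℝ) ^ K) :=
        Real.log_le_log (inv_pos.2 k0) k3
      rw [Real.log_inv, Real.log_pow] at k4
      linarith
    · have k4 : Real.log ‖y w j‖ ≤ Real.log ((N : ℝ) ^ K) := Real.log_le_log k0 k1
      rw [Real.log_pow] at k4
      exact k4
  -- logarithms
  choose ℓ hℓd hℓe using fun j => exists_log hWo hWc (fun w => y w j) (hyd j) (hyne j)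
  obtain ⟨μ, hμ⟩ : ∃ μ : Fin n → ℤ, μ = fun j => round ((ℓ j (c, σ)).im / (2 * Real.pi)) :=
    ⟨_, rfl⟩
  obtain ⟨L, hL⟩ : ∃ L : (Fin n → ℂ) × ℂ → Fin n → ℂ,
    L = fun w j => ℓ j w - (μ j : ℂ) * (2 * Real.pi * Complex.I) := ⟨_, rfl⟩
  have hLe : ∀ w ∈ W, ∀ j, Complex.exp (L w j) = y w j := by
    intro w hw j
    rw [hL]
    simp only
    rw [Complex.exp_sub, Complex.exp_int_mul_two_pi_mul_I, div_one]
    exact hℓe j w hw
  have hLre : ∀ w ∈ W, ∀ j, |(L w j).re| ≤ (K + 1) * Real.log N := by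
    intro w hw j
    have k1 : (L w j).re = Real.log ‖y w j‖ := by
      rw [← hLe w hw, Complex.norm_exp, Real.log_exp]
    rw [k1]
    have := hylog w hw j
    linarith
  refine ⟨fun u s j => L (u, s) j, ?_, ?_, ?_, ?_⟩
  · intro j
    rw [← hW, hL]
    exact (hℓd j).sub_const _
  · intro u hu s hs'
    have hw : ((u, s) : (Fin n → ℂ) × ℂ) ∈ W := by
      rw [hW]
      exact ⟨hu, hs'⟩
    refine ⟨fun j => hLre _ hw j, ?_⟩
    have k1 : (fun j => Complex.exp (L (u, s) j)) = y (u, s) := by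
      funext j
      exact hLe _ hw j
    rw [k1, hy]
    have k2 := hp.mem _ _ _ (hxP _ hw) (hDW _ hw) (hthr _ hw)
    rw [hx] at k2 ⊢
    exact k2
  · intro j
    have k1 : (L (c, σ) j).im = (ℓ j (c, σ)).im - (μ j : ℝ) * (2 * Real.pi) := by
      rw [hL]
      simp [Complex.sub_im, Complex.mul_im, Complex.mul_re]
    have k2 : |(ℓ j (c, σ)).im / (2 * Real.pi) - μ j| ≤ 1 / 2 := by
      rw [hμ]
      exact abs_sub_round _
    have hpi := Real.pi_pos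
    have k3 : (L (c, σ) j).im = ((ℓ j (c, σ)).im / (2 * Real.pi) - μ j) * (2 * Real.pi) := by
      rw [k1]
      field_simp
    change |(L (c, σ) j).im| ≤ Real.pi
    rw [k3, abs_mul, abs_of_pos (by positivity : (0 : ℝ) < 2 * Real.pi)]
    nlinarith
  · intro s hs' b
    have hw : ((c, s) : (Fin n → ℂ) × ℂ) ∈ W := by
      rw [hW]
      exact ⟨hcc, hs'⟩
    rw [Complex.exp_sum]
    unfold mon
    refine Finset.prod_congr rfl fun j _ => ?_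
    rw [Complex.exp_int_mul, hLe _ hw, hy]
    simp only
    rw [hcs s hs', hx, hf]

end XV
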