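import Pool.Agent.Lib.MP_228259_lc.V.Defs3
import Pool.Agent.Lib.MP_228259_lc.V.F3
import Pool.Agent.Lib.MP_228259_lc.V.F4
import Pool.Agent.Lib.MP_228259_lc.P1
import Pool.Agent.Lib.MP_228259_lc.P12a

/-!
XV-Z8 (dense_q, irr_final). The limit argument of the irrational case.

`dense_q`: `ν·q = 1` with `q` rational, `ν` not rational. Let `m > 0` be a common denominator,
`p = m q` integral, `ν' = ν / m`, `ν'·p = 1`, `ν'` not rational: `XW.dense_nu`; multiply by `m`.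

`irr_final`. Notation: `N = Nl l`, `c = ctr κ₀ N`, `R = √√N`, `κ_j = κ₀ j + ω₀ q_j`.
(1) `z l` is bounded: `Re z l = Re (ω c - 2 π i N ω₀)` is bounded by `K₀` (`hωb` at `u = c`);
`Im z l = Im (∑ ν_j L c σ j) - Im Λ'(σ)`, bounded by `hLim` and `hΛ'`. Pass to a subsequence such that
`z l → z`, `δ_l(c) := ω c - 2 π i N ω₀ → δ∞`, and the fractional parts of `N κ_j` tend to `T_j`.
`Re z = Re δ∞`.
(2) Let `k'` be an integer vector (fixed, chosen below), `k_j = ⌊N κ_j⌋ + k'_j`,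
`b_j = 2 π i k_j - 2 π i N ω₀ q_j`, so `b_j - c_j = 2 π i (k'_j - frac(N κ_j))` is bounded. On
`S = ball σ (δ / 4)`: `‖L c s - L c σ‖ ≤ 4 C log N` (`bc_lip` in `s`), so `‖L c s + b - c‖ ≤ C' log N`
(`|Re| ≤ C log N`, `|Im L c σ| ≤ π`). `sol_param` (`M = C log N + 1`, `R ≥ 64 (M + 1)`, `≤ R/16`): a
holomorphic `u(s)`, `u(s) ∈ ball c (R/4)`, `‖u(s) - c‖ ≤ 2 C' log N`, `u(s) = L (u s) s + b`.
(3) `G_l(s) = ω (u s) - 2 π i N ω₀`, holomorphic on `S`. Write `δ_l(u) = ω u - 2 π i N ω₀ + ν·(u - c)`,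
bounded by `K₀` on the ball of radius `√N`: `‖δ_l(u s) - δ_l(c)‖ ≤ 16 K₀ / √N ‖u s - c‖ → 0`
(`bc_lip`). `‖L (u s) s - L c s‖ ≤ 16 C log N / R ‖u s - c‖ → 0` (`bc_lip` in `u`). So
`G_l(s) = δ_l(u s) - ν·(L (u s) s) - 2 π i ν·(k' - frac(N κ)) → δ∞ - Λ(s) - z - 2 π i (ν·k' - ν·T)`
uniformly on `S` (`hz`, `hΛ'`).
(4) `δ∞ - z + 2 π i ν·T = i w₀`, `w₀` real, `Λ(σ) = i w₁`. As `Λ` is holomorphic and not locally
constant at `σ` it is open at `σ` (`AnalyticAt.eventually_constant_or_nhds_le_map_nhds`): its values on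
`ball σ (δ/8)` contain a ball of radius `ε` about `i w₁`; by `dense_q` choose `k'` with
`|w₀ - w₁ - 2 π ν·k'| < ε`: some `s₁ ∈ ball σ (δ/8)` has `Λ(s₁) = i (w₀ - 2 π ν·k')`, a zero of the limit
function, which is not locally zero (`Λ` is not constant on the preconnected ball: identity theorem).
`XW.hurwitz`: for large `l` a zero `s ∈ ball σ (δ/4)` of `G_l`. Then `ω u = 2 π i N ω₀` for
`u = u(s)`, so `u + ω u q = L u s + b + 2 π i N ω₀ q = L u s + 2 π i k`.
-/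

set_option autoImplicit false

namespace XV

open MvPolynomial Filter Topology

theorem dense_q {n : ℕ} (ν : Fin n → ℝ) (q : Fin n → ℚ) (hνq : ∑ j, ν j * q j = 1)
    (hirr : ¬ ∃ q' : Fin n → ℚ, ∀ j, ν j = q' j) (w ε : ℝ) (hε : 0 < ε) :
    ∃ k : Fin n → ℤ, |∑ j, ν j * k j - w| < ε := by
  classical
  set m : ℕ := ∏ j, (q j).den with hm
  have hm0 : (0 : ℝ) < m := by
    have : 0 < m := Finset.prod_pos fun j _ => (q j).den_pos
    exact_mod_cast this
  have hp : ∀ j, ∃ p : ℤ, (m : ℚ) * q j = p := by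
    intro j
    obtain ⟨t, ht⟩ : (q j).den ∣ m := Finset.dvd_prod_of_mem _ (Finset.mem_univ j)
    refine ⟨t * (q j).num, ?_⟩
    rw [ht]
    push_cast
    have h1 := Rat.mul_den_eq_num (q j)
    calc ((q j).den : ℚ) * t * q j = t * (q j * (q j).den) := by ring
      _ = t * (q j).num := by rw [h1]
  choose p hp using hp
  have hp' : ∀ j, (p j : ℝ) = m * q j := by
    intro j
    have h1 := hp j
    exact_mod_cast h1.symm
  obtain ⟨k, hk⟩ := XW.dense_nu (fun j => ν j / m) p (by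
      rw [← hνq]
      refine Finset.sum_congr rfl fun j _ => ?_
      rw [hp' j]
      field_simp) (by
      intro q'
      by_contra h
      push Not at h
      apply hirr
      refine ⟨fun j => m * q' j, fun j => ?_⟩
      have h1 := h j
      push_cast
      rw [← h1]
      field_simp) (w / m) (ε / m) (by positivity)
  refine ⟨k, ?_⟩
  have h1 : ∑ j, ν j * k j - w = m * (∑ j, ν j / m * k j - w / m) := by
    rw [mul_sub, Finset.mul_sum]
    congr 1
    · refine Finset.sum_congr rfl fun j _ => ?_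
      field_simp
    · field_simp
  rw [h1, abs_mul, abs_of_pos hm0]
  calc (m : ℝ) * |∑ j, ν j / m * k j - w / m| < m * (ε / m) := by gcongr
    _ = ε := by field_simp

theorem Z8_asym (a b c d : ℝ) :
    Tendsto (fun x : ℝ => (a * Real.log x + b) * (c * Real.log x + d) / x) atTop (𝓝 0) := by
  have h2 : Tendsto (fun x : ℝ => Real.log x ^ 2 / x) atTop (𝓝 0) :=
    (Real.isLittleO_pow_log_id_atTop (n := 2)).tendsto_div_nhds_zero
  have h1 : Tendsto (fun x : ℝ => Real.log x / x) atTop (𝓝 0) :=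
    Real.isLittleO_log_id_atTop.tendsto_div_nhds_zero
  have h0 : Tendsto (fun x : ℝ => 1 / x) atTop (𝓝 0) := by
    simpa using tendsto_inv_atTop_zero
  have h3 := ((h2.const_mul (a * c)).add (h1.const_mul (a * d + b * c))).add (h0.const_mul (b * d))
  simp only [mul_zero, add_zero] at h3
  refine h3.congr fun x => ?_
  ring

/-- the construction for one `N` -/
theorem Z8_step {n : ℕ} (ν : Fin n → ℝ) (q : Fin n → ℚ) (κ₀ : Fin n → ℝ) (ω₀ : ℝ) {σ : ℂ}
    {δ : ℝ} (hδ : 0 < δ) (K₀ C : ℝ) (hK₀ : 0 < K₀) (N : ℕ) (ω : (Fin n → ℂ) → ℂ)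
    (L : (Fin n → ℂ) → ℂ → Fin n → ℂ) (Λ' : ℂ → ℂ) (z : ℂ)
    (hω : DifferentiableOn ℂ ω (Metric.ball (ctr κ₀ N) (Real.sqrt N)))
    (hωb : ∀ u ∈ Metric.ball (ctr κ₀ N) (Real.sqrt N),
      ‖ω u - (2 * Real.pi * Complex.I * N * ω₀ -
        ∑ j, (ν j : ℂ) * (u j - ctr κ₀ N j))‖ ≤ K₀)
    (hL : ∀ j, DifferentiableOn ℂ (fun w : (Fin n → ℂ) × ℂ => L w.1 w.2 j)
      (Metric.ball (ctr κ₀ N) (Real.sqrt (Real.sqrt N)) ×ˢ Metric.ball σ δ))
    (hLb : ∀ u ∈ Metric.ball (ctr κ₀ N) (Real.sqrt (Real.sqrt N)),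
      ∀ s ∈ Metric.ball σ δ, ∀ j, |(L u s j).re| ≤ C * Real.log N)
    (hLim : ∀ j, |(L (ctr κ₀ N) σ j).im| ≤ Real.pi)
    (hz : ∀ s ∈ Metric.ball σ δ, ∑ j, (ν j : ℂ) * L (ctr κ₀ N) s j = Λ' s + z)
    (k' : Fin n → ℤ) (M E : ℝ) (hM : 0 < M) (hCM : C * Real.log N ≤ M)
    (hE : 5 * M + Real.pi + 2 * Real.pi * (∑ j, |(k' j : ℝ)| + 1) ≤ E)
    (h1 : 64 * (M + 1) ≤ Real.sqrt (Real.sqrt N)) (h2 : E ≤ Real.sqrt (Real.sqrt N) / 16) :
    ∃ u : ℂ → Fin n → ℂ, DifferentiableOn ℂ (fun s => ω (u s)) (Metric.ball σ (δ / 4)) ∧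
      ∀ s ∈ Metric.ball σ (δ / 4), u s ∈ Metric.ball (ctr κ₀ N) (Real.sqrt (Real.sqrt N)) ∧
        (∀ j, u s j = L (u s) s j + (2 * Real.pi * Complex.I *
          ((⌊(N : ℝ) * (κ₀ j + ω₀ * q j)⌋ + k' j : ℤ) : ℂ) -
            2 * Real.pi * Complex.I * N * ω₀ * q j)) ∧
        ‖ω (u s) - 2 * Real.pi * Complex.I * N * ω₀ -
          ((ω (ctr κ₀ N) - 2 * Real.pi * Complex.I * N * ω₀ - z + 2 * Real.pi * Complex.I *
            ((∑ j, ν j * Int.fract ((N : ℝ) * (κ₀ j + ω₀ * q j)) : ℝ) : ℂ)) - Λ' s -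
            2 * Real.pi * Complex.I * ((∑ j, ν j * k' j : ℝ) : ℂ))‖ ≤
          32 * K₀ * E / Real.sqrt (Real.sqrt N) +
            (∑ j, |ν j|) * (32 * M * E / Real.sqrt (Real.sqrt N)) := by
  classical
  set c : Fin n → ℂ := ctr κ₀ N with hc
  set x : ℝ := Real.sqrt (Real.sqrt N) with hx
  have hpi := Real.pi_pos
  have hx64 : 64 ≤ x := by linarith
  have hxx : x * x = Real.sqrt N := by
    rw [hx]; exact Real.mul_self_sqrt (Real.sqrt_nonneg _)
  have hxs : x ≤ Real.sqrt N := by nlinarith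
  have hE0 : 0 ≤ E := by
    refine le_trans ?_ hE
    have : 0 ≤ ∑ j, |(k' j : ℝ)| := Finset.sum_nonneg fun j _ => abs_nonneg _
    positivity
  have hcx : c ∈ Metric.ball c x := Metric.mem_ball_self (by linarith)
  set b : Fin n → ℂ := fun j => 2 * Real.pi * Complex.I *
          ((⌊(N : ℝ) * (κ₀ j + ω₀ * q j)⌋ + k' j : ℤ) : ℂ) -
            2 * Real.pi * Complex.I * N * ω₀ * q j with hb
  have hbc : ∀ j, b j - c j = 2 * Real.pi * Complex.I *
      (((k' j : ℝ) - Int.fract ((N : ℝ) * (κ₀ j + ω₀ * q j)) : ℝ) : ℂ) := by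
    intro j
    have h3 : (N : ℂ) * (κ₀ j + ω₀ * q j) = (((N : ℝ) * (κ₀ j + ω₀ * q j) : ℝ) : ℂ) := by
      push_cast; ring
    rw [hb, hc, Int.fract]
    simp only [ctr]
    push_cast
    ring
  have hbcn : ∀ j, ‖b j - c j‖ ≤ 2 * Real.pi * (∑ j, |(k' j : ℝ)| + 1) := by
    intro j
    rw [hbc j, norm_mul, norm_mul, norm_mul, Complex.norm_I, Complex.norm_real,
      Complex.norm_real, Complex.norm_ofNat, mul_one, Real.norm_eq_abs, Real.norm_eq_abs,
      abs_of_pos hpi]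
    have h3 : |(k' j : ℝ) - Int.fract ((N : ℝ) * (κ₀ j + ω₀ * q j))| ≤ |(k' j : ℝ)| + 1 := by
      refine (abs_sub _ _).trans ?_
      rw [abs_of_nonneg (Int.fract_nonneg ((N : ℝ) * (κ₀ j + ω₀ * q j)))]
      have := (Int.fract_lt_one ((N : ℝ) * (κ₀ j + ω₀ * q j))).le
      linarith
    have h4 : |(k' j : ℝ)| ≤ ∑ j, |(k' j : ℝ)| :=
      Finset.single_le_sum (f := fun j => |(k' j : ℝ)|) (fun i _ => abs_nonneg _)
        (Finset.mem_univ j)
    gcongr
    linarith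
  have hS : Metric.ball σ (δ / 4) ⊆ Metric.ball σ δ := Metric.ball_subset_ball (by linarith)
  have hLc : ∀ j, DifferentiableOn ℂ (fun s => L c s j) (Metric.ball σ δ) := by
    intro j
    have h3 : DifferentiableOn ℂ (fun s : ℂ => ((c, s) : (Fin n → ℂ) × ℂ)) (Metric.ball σ δ) := by
      fun_prop
    exact (hL j).comp h3 fun s hs => ⟨hcx, hs⟩
  have hcb' : ∀ s ∈ Metric.ball σ (δ / 4), ∀ j, ‖L c s j + b j - c j‖ ≤ E := by
    intro s hs j
    have h3 : ‖L c s j - L c σ j‖ ≤ 4 * M := by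
      refine (bc_lip hδ hM (fun s => L c s j) (hLc j)
        (fun t ht => (hLb c hcx t ht j).trans hCM) hs (Metric.mem_ball_self (by linarith))).trans ?_
      rw [mem_ball_iff_norm] at hs
      calc 16 * M / δ * ‖s - σ‖ ≤ 16 * M / δ * (δ / 4) := by gcongr
        _ = 4 * M := by field_simp; ring
    have h4 : ‖L c σ j‖ ≤ M + Real.pi := by
      refine (Complex.norm_le_abs_re_add_abs_im _).trans ?_
      have h5 := (hLb c hcx σ (Metric.mem_ball_self hδ) j).trans hCM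
      have h6 := hLim j
      linarith
    have h5 : L c s j + b j - c j = (L c s j - L c σ j) + L c σ j + (b j - c j) := by ring
    rw [h5]
    have h6 := norm_add₃_le (a := L c s j - L c σ j) (b := L c σ j) (c := b j - c j)
    have h7 := hbcn j
    linarith
  have hcb : ∀ s ∈ Metric.ball σ (δ / 4), ‖(fun j => L c s j + b j) - c‖ ≤ E := by
    intro s hs
    rw [pi_norm_le_iff_of_nonneg hE0]
    intro j
    simpa using hcb' s hs j
  obtain ⟨u, hud, hu⟩ := sol_param (n := n) (c := c) (b := b) (R := x) hM h1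
    (S := Metric.ball σ (δ / 4)) Metric.isOpen_ball L
    (fun j => (hL j).mono (Set.prod_mono_right hS))
    (fun u hu s hs j => (hLb u hu s (hS hs) j).trans hCM)
    (fun s hs => (hcb s hs).trans h2)
  have hx0 : 0 < x := by linarith
  have hball4 : Metric.ball c (x / 4) ⊆ Metric.ball c x := Metric.ball_subset_ball (by linarith)
  have hball4' : Metric.ball c (x / 4) ⊆ Metric.ball c (Real.sqrt N / 4) :=
    Metric.ball_subset_ball (by linarith)
  have hballs : Metric.ball c (x / 4) ⊆ Metric.ball c (Real.sqrt N) :=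
    Metric.ball_subset_ball (by linarith)
  refine ⟨u, ?_, ?_⟩
  · have h3 : DifferentiableOn ℂ u (Metric.ball σ (δ / 4)) := differentiableOn_pi.2 hud
    exact hω.comp h3 fun s hs => hballs (hu s hs).1
  · intro s hs
    obtain ⟨hu1, hu2, hu3⟩ := hu s hs
    refine ⟨hball4 hu1, hu3, ?_⟩
    -- the function δ_l
    have hun : ‖u s - c‖ ≤ 2 * E := by
      have := hcb s hs
      linarith
    set g : (Fin n → ℂ) → ℂ := fun u => ω u - (2 * Real.pi * Complex.I * N * ω₀ -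
        ∑ j, (ν j : ℂ) * (u j - c j)) with hg
    have hgd : DifferentiableOn ℂ g (Metric.ball c (Real.sqrt N)) := by
      refine hω.sub ?_
      fun_prop
    have hg1 : ‖g (u s) - g c‖ ≤ 32 * K₀ * E / x := by
      refine (bc_lip (by linarith) hK₀ g hgd
        (fun t ht => (Complex.abs_re_le_norm _).trans (hωb t ht)) (hball4' hu1)
        (Metric.mem_ball_self (by linarith))).trans ?_
      calc 16 * K₀ / Real.sqrt N * ‖u s - c‖ ≤ 16 * K₀ / x * (2 * E) := by gcongr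
        _ = 32 * K₀ * E / x := by ring
    have hLd : ∀ j, DifferentiableOn ℂ (fun u => L u s j) (Metric.ball c x) := by
      intro j
      have h3 : DifferentiableOn ℂ (fun u : Fin n → ℂ => ((u, s) : (Fin n → ℂ) × ℂ))
        (Metric.ball c x) := by fun_prop
      exact (hL j).comp h3 fun u hu => ⟨hu, hS hs⟩
    have hL1 : ∀ j, ‖L (u s) s j - L c s j‖ ≤ 32 * M * E / x := by
      intro j
      refine (bc_lip hx0 hM (fun u => L u s j) (hLd j)
        (fun t ht => (hLb t ht s (hS hs) j).trans hCM) hu1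
        (Metric.mem_ball_self (by linarith))).trans ?_
      calc 16 * M / x * ‖u s - c‖ ≤ 16 * M / x * (2 * E) := by gcongr
        _ = 32 * M * E / x := by ring
    have hid : ω (u s) - 2 * Real.pi * Complex.I * N * ω₀ -
          ((ω c - 2 * Real.pi * Complex.I * N * ω₀ - z + 2 * Real.pi * Complex.I *
            ((∑ j, ν j * Int.fract ((N : ℝ) * (κ₀ j + ω₀ * q j)) : ℝ) : ℂ)) - Λ' s -
            2 * Real.pi * Complex.I * ((∑ j, ν j * k' j : ℝ) : ℂ)) =
        (g (u s) - g c) - ∑ j, (ν j : ℂ) * (L (u s) s j - L c s j) := by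
      have h3 : g (u s) - g c = ω (u s) - ω c + ∑ j, (ν j : ℂ) * (u s j - c j) := by
        simp only [hg, sub_self, mul_zero, Finset.sum_const_zero, sub_zero]
        ring
      have h4 : ∑ j, (ν j : ℂ) * (u s j - c j) = ∑ j, (ν j : ℂ) * L (u s) s j +
          2 * Real.pi * Complex.I * ((∑ j, ν j * k' j : ℝ) : ℂ) - 2 * Real.pi * Complex.I *
            ((∑ j, ν j * Int.fract ((N : ℝ) * (κ₀ j + ω₀ * q j)) : ℝ) : ℂ) := by
        push_cast
        rw [Finset.mul_sum, Finset.mul_sum, ← Finset.sum_add_distrib, ← Finset.sum_sub_distrib]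
        refine Finset.sum_congr rfl fun j _ => ?_
        have h5 : u s j - c j = L (u s) s j + (b j - c j) := by rw [hu3 j]; ring
        rw [h5, hbc j]
        push_cast
        ring
      have h5 : ∑ j, (ν j : ℂ) * (L (u s) s j - L c s j) =
          ∑ j, (ν j : ℂ) * L (u s) s j - (Λ' s + z) := by
        rw [← hz s (hS hs), ← Finset.sum_sub_distrib]
        refine Finset.sum_congr rfl fun j _ => ?_
        ring
      rw [h3, h4, h5]
      ring
    rw [hid]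
    refine (norm_sub_le _ _).trans (add_le_add hg1 ?_)
    refine (norm_sum_le _ _).trans ?_
    rw [Finset.sum_mul]
    refine Finset.sum_le_sum fun j _ => ?_
    rw [norm_mul, Complex.norm_real, Real.norm_eq_abs]
    exact mul_le_mul_of_nonneg_left (hL1 j) (abs_nonneg _)

theorem irr_final {n : ℕ} (ν : Fin n → ℝ) (q : Fin n → ℚ) (hνq : ∑ j, ν j * q j = 1)
    (hirr : ¬ ∃ q' : Fin n → ℚ, ∀ j, ν j = q' j) (κ₀ : Fin n → ℝ) (ω₀ : ℝ) {σ : ℂ} {δ : ℝ}
    (hδ : 0 < δ) (Λ : ℂ → ℂ) (hΛ : DifferentiableOn ℂ Λ (Metric.ball σ δ))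
    (hre : (Λ σ).re = 0) (hnc : ¬ ∀ᶠ s in 𝓝 σ, Λ s = Λ σ) (K₀ C : ℝ) (hK₀ : 0 < K₀)
    (hC : 0 < C) (Nl : ℕ → ℕ) (hNl : Tendsto Nl atTop atTop)
    (ω : ℕ → (Fin n → ℂ) → ℂ) (L : ℕ → (Fin n → ℂ) → ℂ → Fin n → ℂ) (Λ' : ℕ → ℂ → ℂ)
    (z : ℕ → ℂ)
    (hω : ∀ l, DifferentiableOn ℂ (ω l) (Metric.ball (ctr κ₀ (Nl l)) (Real.sqrt (Nl l))))
    (hωb : ∀ l, ∀ u ∈ Metric.ball (ctr κ₀ (Nl l)) (Real.sqrt (Nl l)),
      ‖ω l u - (2 * Real.pi * Complex.I * (Nl l) * ω₀ -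
        ∑ j, (ν j : ℂ) * (u j - ctr κ₀ (Nl l) j))‖ ≤ K₀)
    (hL : ∀ l j, DifferentiableOn ℂ (fun w : (Fin n → ℂ) × ℂ => L l w.1 w.2 j)
      (Metric.ball (ctr κ₀ (Nl l)) (Real.sqrt (Real.sqrt (Nl l))) ×ˢ Metric.ball σ δ))
    (hLb : ∀ l, ∀ u ∈ Metric.ball (ctr κ₀ (Nl l)) (Real.sqrt (Real.sqrt (Nl l))),
      ∀ s ∈ Metric.ball σ δ, ∀ j, |(L l u s j).re| ≤ C * Real.log (Nl l))
    (hLim : ∀ l j, |(L l (ctr κ₀ (Nl l)) σ j).im| ≤ Real.pi)
    (hΛ' : TendstoUniformlyOn Λ' Λ atTop (Metric.ball σ δ))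
    (hz : ∀ l, ∀ s ∈ Metric.ball σ δ,
      ∑ j, (ν j : ℂ) * L l (ctr κ₀ (Nl l)) s j = Λ' l s + z l)
    (hzre : ∀ l, (z l).re =
      (ω l (ctr κ₀ (Nl l)) - 2 * Real.pi * Complex.I * (Nl l) * ω₀).re) :
    ∃ (l : ℕ) (k : Fin n → ℤ) (u : Fin n → ℂ) (s : ℂ),
      u ∈ Metric.ball (ctr κ₀ (Nl l)) (Real.sqrt (Real.sqrt (Nl l))) ∧ s ∈ Metric.ball σ δ ∧
      ∀ j, u j + ω l u * q j = L l u s j + 2 * Real.pi * Complex.I * k j := by
  classical
  have hpi := Real.pi_pos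
  -- the real numbers `w l`
  set D : ℕ → ℂ := fun l => ω l (ctr κ₀ (Nl l)) - 2 * Real.pi * Complex.I * (Nl l) * ω₀ - z l +
    2 * Real.pi * Complex.I *
      ((∑ j, ν j * Int.fract (((Nl l : ℕ) : ℝ) * (κ₀ j + ω₀ * q j)) : ℝ) : ℂ) with hD
  have hDre : ∀ l, (D l).re = 0 := by
    intro l
    have h1 : (2 * Real.pi * Complex.I *
      ((∑ j, ν j * Int.fract (((Nl l : ℕ) : ℝ) * (κ₀ j + ω₀ * q j)) : ℝ) : ℂ)).re = 0 := by
      simp [Complex.mul_re]
    have h2 := hzre l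
    simp only [hD]
    rw [Complex.add_re, h1, Complex.sub_re, h2]
    ring
  have hDeq : ∀ l, D l = Complex.I * ((D l).im : ℂ) := by
    intro l
    apply Complex.ext
    · rw [hDre l]; simp
    · simp
  have hpos : ∀ᶠ l in atTop, 1 ≤ Nl l := hNl.eventually_ge_atTop 1
  set B : ℝ := K₀ + ((∑ j, |ν j|) * Real.pi + ‖Λ σ‖ + 1) + 2 * Real.pi * (∑ j, |ν j|) with hB
  have hDim : ∀ᶠ l in atTop, (D l).im ∈ Set.Icc (-B) B := by
    have h1 : ∀ᶠ l in atTop, ‖Λ' l σ‖ ≤ ‖Λ σ‖ + 1 := by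
      have h2 : Tendsto (fun l => Λ' l σ) atTop (𝓝 (Λ σ)) :=
        hΛ'.tendsto_at (Metric.mem_ball_self hδ)
      exact (h2.norm.eventually (gt_mem_nhds (by linarith : ‖Λ σ‖ < ‖Λ σ‖ + 1))).mono
        fun l hl => hl.le
    filter_upwards [h1, hpos] with l hl1 hl2
    have hs : 0 < Real.sqrt (Nl l) := Real.sqrt_pos.2 (by exact_mod_cast hl2)
    have h3 : ‖ω l (ctr κ₀ (Nl l)) - 2 * Real.pi * Complex.I * (Nl l) * ω₀‖ ≤ K₀ := by
      have h4 := hωb l (ctr κ₀ (Nl l)) (Metric.mem_ball_self hs)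
      simpa using h4
    have h5 : |(z l).im| ≤ (∑ j, |ν j|) * Real.pi + (‖Λ σ‖ + 1) := by
      have h6 : z l = ∑ j, (ν j : ℂ) * L l (ctr κ₀ (Nl l)) σ j - Λ' l σ := by
        rw [hz l σ (Metric.mem_ball_self hδ)]; ring
      rw [h6, Complex.sub_im, Complex.im_sum]
      refine (abs_sub _ _).trans (add_le_add ?_ ((Complex.abs_im_le_norm _).trans hl1))
      refine (Finset.abs_sum_le_sum_abs _ _).trans ?_
      rw [Finset.sum_mul]
      refine Finset.sum_le_sum fun j _ => ?_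
      rw [Complex.im_ofReal_mul, abs_mul]
      exact mul_le_mul_of_nonneg_left (hLim l j) (abs_nonneg _)
    have h7 : |∑ j, ν j * Int.fract (((Nl l : ℕ) : ℝ) * (κ₀ j + ω₀ * q j))| ≤ ∑ j, |ν j| := by
      refine (Finset.abs_sum_le_sum_abs _ _).trans ?_
      refine Finset.sum_le_sum fun j _ => ?_
      rw [abs_mul, abs_of_nonneg (Int.fract_nonneg (((Nl l : ℕ) : ℝ) * (κ₀ j + ω₀ * q j)))]
      exact mul_le_of_le_one_right (abs_nonneg _) (Int.fract_lt_one _).le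
    have h8 : (D l).im = (ω l (ctr κ₀ (Nl l)) - 2 * Real.pi * Complex.I * (Nl l) * ω₀).im -
        (z l).im + 2 * Real.pi *
          (∑ j, ν j * Int.fract (((Nl l : ℕ) : ℝ) * (κ₀ j + ω₀ * q j))) := by
      simp only [hD]
      rw [Complex.add_im, Complex.sub_im]
      congr 1
      rw [mul_comm (2 * (Real.pi : ℂ)) Complex.I, mul_assoc, Complex.I_mul_im]
      norm_cast
    rw [Set.mem_Icc, ← abs_le, h8]
    refine (abs_add_le _ _).trans ?_
    rw [hB]
    refine add_le_add ((abs_sub _ _).trans ?_) ?_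
    · have h9 := (Complex.abs_im_le_norm _).trans h3
      linarith
    · rw [abs_mul, abs_of_pos (by positivity : 0 < 2 * Real.pi)]
      gcongr
  obtain ⟨w, -, φ, hφ, hφl⟩ := isCompact_Icc.tendsto_subseq' hDim.frequently
  -- the value `Λ σ`
  set w₁ : ℝ := (Λ σ).im with hw₁
  have hΛσ : Λ σ = Complex.I * w₁ := by
    apply Complex.ext
    · rw [hre]; simp
    · simp [hw₁]
  have hσm : Metric.ball σ δ ∈ 𝓝 σ := Metric.ball_mem_nhds _ hδ
  have hΛa : AnalyticOnNhd ℂ Λ (Metric.ball σ δ) := hΛ.analyticOnNhd Metric.isOpen_ball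
  have hΛσa : AnalyticAt ℂ Λ σ := hΛa σ (Metric.mem_ball_self hδ)
  have hopen : 𝓝 (Λ σ) ≤ Filter.map Λ (𝓝 σ) :=
    hΛσa.eventually_constant_or_nhds_le_map_nhds.resolve_left hnc
  have himg : Λ '' Metric.ball σ (δ / 8) ∈ 𝓝 (Λ σ) :=
    hopen (Filter.image_mem_map (Metric.ball_mem_nhds _ (by linarith)))
  obtain ⟨ε, hε, hεs⟩ := Metric.mem_nhds_iff.1 himg
  obtain ⟨k', hk'⟩ := dense_q ν q hνq hirr ((w - w₁) / (2 * Real.pi)) (ε / (2 * Real.pi))
    (by positivity)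
  set T : ℂ := Complex.I * w - 2 * Real.pi * Complex.I * ((∑ j, ν j * k' j : ℝ) : ℂ) with hT
  have hTm : T ∈ Metric.ball (Λ σ) ε := by
    rw [mem_ball_iff_norm]
    have h1 : T - Λ σ = Complex.I * ((2 * Real.pi *
        ((w - w₁) / (2 * Real.pi) - ∑ j, ν j * k' j) : ℝ) : ℂ) := by
      have h2 : 2 * Real.pi * ((w - w₁) / (2 * Real.pi) - ∑ j, ν j * k' j) =
          w - w₁ - 2 * Real.pi * ∑ j, ν j * k' j := by
        field_simp
      rw [h2, hT, hΛσ]
      push_cast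
      ring
    rw [h1, norm_mul, Complex.norm_I, one_mul, Complex.norm_real, Real.norm_eq_abs, abs_mul,
      abs_of_pos (by positivity : 0 < 2 * Real.pi), abs_sub_comm]
    calc 2 * Real.pi * |∑ j, ν j * k' j - (w - w₁) / (2 * Real.pi)| <
        2 * Real.pi * (ε / (2 * Real.pi)) := by gcongr
      _ = ε := by field_simp
  obtain ⟨s₁, hs₁, hs₁T⟩ := hεs hTm
  -- the constants
  set M : ℕ → ℝ := fun l => C * Real.log (Nl l) + 1 with hM
  set E : ℕ → ℝ := fun l => 5 * M l + Real.pi + 2 * Real.pi * (∑ j, |(k' j : ℝ)| + 1) with hE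
  set x : ℕ → ℝ := fun l => Real.sqrt (Real.sqrt (Nl l)) with hx
  have hxt : Tendsto x atTop atTop :=
    Real.tendsto_sqrt_atTop.comp (Real.tendsto_sqrt_atTop.comp
      (tendsto_natCast_atTop_atTop.comp hNl))
  have hlogx : ∀ l, Real.log (Nl l) = 4 * Real.log (x l) := by
    intro l
    simp only [hx]
    rw [Real.log_sqrt (Real.sqrt_nonneg _), Real.log_sqrt (Nat.cast_nonneg _)]
    ring
  have hMx : ∀ l, M l = (4 * C) * Real.log (x l) + 1 := by
    intro l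
    simp only [hM]
    rw [hlogx l]; ring
  have hEx : ∀ l, E l = (20 * C) * Real.log (x l) +
      (5 + Real.pi + 2 * Real.pi * (∑ j, |(k' j : ℝ)| + 1)) := by
    intro l
    simp only [hE]
    rw [hMx l]; ring
  have hE1 : Tendsto (fun l => E l / x l) atTop (𝓝 0) := by
    have h1 := (Z8_asym (20 * C) (5 + Real.pi + 2 * Real.pi * (∑ j, |(k' j : ℝ)| + 1)) 0 1).comp hxt
    refine h1.congr fun l => ?_
    simp only [Function.comp_apply]
    rw [hEx l]
    ring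
  have hM1 : Tendsto (fun l => M l / x l) atTop (𝓝 0) := by
    have h1 := (Z8_asym (4 * C) 1 0 1).comp hxt
    refine h1.congr fun l => ?_
    simp only [Function.comp_apply]
    rw [hMx l]
    ring
  have hME : Tendsto (fun l => M l * E l / x l) atTop (𝓝 0) := by
    have h1 := (Z8_asym (4 * C) 1 (20 * C)
      (5 + Real.pi + 2 * Real.pi * (∑ j, |(k' j : ℝ)| + 1))).comp hxt
    refine h1.congr fun l => ?_
    simp only [Function.comp_apply]
    rw [hEx l, hMx l]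
  have hM0 : ∀ l, 0 < M l := by
    intro l
    have : 0 ≤ Real.log (Nl l) := Real.log_natCast_nonneg _
    simp only [hM]
    positivity
  set η : ℕ → ℝ := fun l => 32 * K₀ * E l / x l + (∑ j, |ν j|) * (32 * M l * E l / x l) with hη
  have hη0 : Tendsto η atTop (𝓝 0) := by
    have h1 := (hE1.const_mul (32 * K₀)).add (hME.const_mul ((∑ j, |ν j|) * 32))
    simp only [mul_zero, add_zero] at h1
    refine h1.congr fun l => ?_
    simp only [hη]
    ring
  have hbig : ∀ᶠ l in atTop, 64 * (M l + 1) ≤ x l ∧ E l ≤ x l / 16 := by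
    have h1 : ∀ᶠ l in atTop, M l / x l < 1 / 128 := hM1.eventually (gt_mem_nhds (by norm_num))
    have h2 : ∀ᶠ l in atTop, E l / x l < 1 / 16 := hE1.eventually (gt_mem_nhds (by norm_num))
    filter_upwards [h1, h2, hxt.eventually_ge_atTop 128] with l hl1 hl2 hl3
    have hx0 : 0 < x l := by linarith
    rw [div_lt_iff₀ hx0] at hl1 hl2
    constructor <;> linarith
  have hstep : ∀ l, ∃ u : ℂ → Fin n → ℂ, (64 * (M l + 1) ≤ x l ∧ E l ≤ x l / 16) →
      DifferentiableOn ℂ (fun s => ω l (u s)) (Metric.ball σ (δ / 4)) ∧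
      ∀ s ∈ Metric.ball σ (δ / 4), u s ∈ Metric.ball (ctr κ₀ (Nl l)) (x l) ∧
        (∀ j, u s j = L l (u s) s j + (2 * Real.pi * Complex.I *
          ((⌊((Nl l : ℕ) : ℝ) * (κ₀ j + ω₀ * q j)⌋ + k' j : ℤ) : ℂ) -
            2 * Real.pi * Complex.I * (Nl l) * ω₀ * q j)) ∧
        ‖ω l (u s) - 2 * Real.pi * Complex.I * (Nl l) * ω₀ -
          (D l - Λ' l s - 2 * Real.pi * Complex.I * ((∑ j, ν j * k' j : ℝ) : ℂ))‖ ≤ η l := by
    intro l
    by_cases hb : 64 * (M l + 1) ≤ x l ∧ E l ≤ x l / 16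
    · obtain ⟨u, hu1, hu2⟩ := Z8_step ν q κ₀ ω₀ hδ K₀ C hK₀ (Nl l) (ω l) (L l) (Λ' l) (z l)
        (hω l) (hωb l) (hL l) (hLb l) (hLim l) (hz l) k' (M l) (E l) (hM0 l)
        (by simp only [hM]; linarith) le_rfl hb.1 hb.2
      exact ⟨u, fun _ => ⟨hu1, hu2⟩⟩
    · exact ⟨fun _ _ => 0, fun h => absurd h hb⟩
  choose u hu using hstep
  -- Hurwitz
  set F : ℕ → ℂ → ℂ := fun i s => ω (φ i) (u (φ i) s) -
    2 * Real.pi * Complex.I * (Nl (φ i)) * ω₀ with hF
  set G : ℂ → ℂ := fun s => T - Λ s with hG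
  have hφt : Tendsto φ atTop atTop := hφ.tendsto_atTop
  have hsub8 : Metric.ball s₁ (δ / 8) ⊆ Metric.ball σ (δ / 4) := by
    intro s hs
    rw [Metric.mem_ball] at hs hs₁ ⊢
    have := dist_triangle s s₁ σ
    linarith
  have hsub4 : Metric.ball σ (δ / 4) ⊆ Metric.ball σ δ := Metric.ball_subset_ball (by linarith)
  have hGd : DifferentiableOn ℂ G (Metric.ball σ δ) := by
    simp only [hG]
    exact (differentiableOn_const _).sub hΛ
  have hGs : G s₁ = 0 := by simp only [hG]; rw [hs₁T, sub_self]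
  have hlimU : ∀ ε' > 0, ∀ᶠ i in atTop, ∀ s ∈ Metric.ball σ (δ / 4), ‖F i s - G s‖ < ε' := by
    intro ε' hε'
    have h1 : ∀ᶠ i in atTop, ‖Complex.I * (((D (φ i)).im : ℝ) : ℂ) - Complex.I * w‖ < ε' / 3 := by
      have h2 : Tendsto (fun i => Complex.I * (((D (φ i)).im : ℝ) : ℂ)) atTop
          (𝓝 (Complex.I * w)) :=
        ((Complex.continuous_ofReal.tendsto w).comp hφl).const_mul Complex.I
      have h3 := (Metric.tendsto_nhds.1 h2) (ε' / 3) (by positivity)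
      simpa only [dist_eq_norm] using h3
    have h2 : ∀ᶠ i in atTop, η (φ i) < ε' / 3 :=
      hφt.eventually (hη0.eventually (gt_mem_nhds (by positivity)))
    have h3 : ∀ᶠ i in atTop, ∀ s ∈ Metric.ball σ δ, dist (Λ s) (Λ' (φ i) s) < ε' / 3 :=
      hφt.eventually ((Metric.tendstoUniformlyOn_iff.1 hΛ') (ε' / 3) (by positivity))
    filter_upwards [h1, h2, h3, hφt.eventually hbig] with i hi1 hi2 hi3 hi4 s hs
    have h5 := ((hu (φ i) hi4).2 s hs).2.2
    have h6 := hi3 s (hsub4 hs)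
    rw [dist_eq_norm] at h6
    have h7 : F i s - G s = (ω (φ i) (u (φ i) s) - 2 * Real.pi * Complex.I * (Nl (φ i)) * ω₀ -
          (D (φ i) - Λ' (φ i) s - 2 * Real.pi * Complex.I * ((∑ j, ν j * k' j : ℝ) : ℂ))) +
        (Complex.I * (((D (φ i)).im : ℝ) : ℂ) - Complex.I * w) + (Λ s - Λ' (φ i) s) := by
      rw [← hDeq (φ i)]
      simp only [hF, hG, hT]
      ring
    rw [h7]
    have h8 := norm_add₃_le (a := ω (φ i) (u (φ i) s) -
      2 * Real.pi * Complex.I * (Nl (φ i)) * ω₀ -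
          (D (φ i) - Λ' (φ i) s - 2 * Real.pi * Complex.I * ((∑ j, ν j * k' j : ℝ) : ℂ)))
      (b := Complex.I * (((D (φ i)).im : ℝ) : ℂ) - Complex.I * w) (c := Λ s - Λ' (φ i) s)
    linarith
  have hzero := XW.hurwitz (l := atTop) (F := F) (G := G) (z₀ := s₁) (r := δ / 8) (by linarith)
    (by
      filter_upwards [hφt.eventually hbig] with i hi
      simp only [hF]
      exact ((hu (φ i) hi).1.mono hsub8).sub_const _)
    (hGd.mono (hsub8.trans hsub4))
    (by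
      intro s hs
      have hs4 := hsub8 hs
      have hGc : ContinuousAt G s :=
        hGd.continuousOn.continuousAt (Metric.isOpen_ball.mem_nhds (hsub4 hs4))
      rw [Metric.tendsto_nhds]
      intro ε' hε'
      have h1 := hlimU (ε' / 2) (by positivity)
      have h2 : ∀ᶠ t in 𝓝 s, t ∈ Metric.ball σ (δ / 4) ∧ dist (G t) (G s) < ε' / 2 := by
        have h3 : ∀ᶠ t in 𝓝 s, t ∈ Metric.ball σ (δ / 4) := Metric.isOpen_ball.mem_nhds hs4
        exact h3.and ((Metric.tendsto_nhds.1 hGc) (ε' / 2) (by positivity))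
      filter_upwards [h1.prod_mk h2] with p hp
      have h3 := hp.1 p.2 hp.2.1
      calc dist (F p.1 p.2) (G s) ≤ dist (F p.1 p.2) (G p.2) + dist (G p.2) (G s) :=
            dist_triangle _ _ _
        _ < ε' / 2 + ε' / 2 := by
            rw [dist_eq_norm (F p.1 p.2)]
            exact add_lt_add h3 hp.2.2
        _ = ε' := by ring)
    hGs
    (by
      intro hcon
      apply hnc
      have h1 : Λ =ᶠ[𝓝 s₁] fun _ => T := by
        filter_upwards [hcon] with s hs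
        simp only [hG] at hs
        exact (sub_eq_zero.1 hs).symm
      have h2 : Set.EqOn Λ (fun _ => T) (Metric.ball σ δ) :=
        hΛa.eqOn_of_preconnected_of_eventuallyEq analyticOnNhd_const
          (convex_ball σ δ).isPreconnected
          (Metric.ball_subset_ball (by linarith : δ / 8 ≤ δ) hs₁) h1
      filter_upwards [hσm] with s hs
      rw [h2 hs, h2 (Metric.mem_ball_self hδ)])
  obtain ⟨i, ⟨s, hs, hFs⟩, hi⟩ := (hzero.and (hφt.eventually hbig)).exists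
  have hs4 := hsub8 hs
  obtain ⟨hu1, hu2, -⟩ := (hu (φ i) hi).2 s hs4
  refine ⟨φ i, fun j => ⌊((Nl (φ i) : ℕ) : ℝ) * (κ₀ j + ω₀ * q j)⌋ + k' j, u (φ i) s, s, hu1,
    hsub4 hs4, fun j => ?_⟩
  have h1 : ω (φ i) (u (φ i) s) = 2 * Real.pi * Complex.I * (Nl (φ i)) * ω₀ := by
    simp only [hF] at hFs
    exact sub_eq_zero.1 hFs
  have h2 := hu2 j
  rw [h1]
  calc u (φ i) s j + 2 * Real.pi * Complex.I * (Nl (φ i)) * ω₀ * q j
      = (L (φ i) (u (φ i) s) s j + (2 * Real.pi * Complex.I *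
          ((⌊((Nl (φ i) : ℕ) : ℝ) * (κ₀ j + ω₀ * q j)⌋ + k' j : ℤ) : ℂ) -
            2 * Real.pi * Complex.I * (Nl (φ i)) * ω₀ * q j)) +
          2 * Real.pi * Complex.I * (Nl (φ i)) * ω₀ * q j := by rw [← h2]
    _ = _ := by ring

end XV
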