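import Pool.Agent.Lib.MP_228259_lc.V.Y11
import Pool.Agent.Lib.MP_228259_lc.V.Y12b
import Pool.Agent.Lib.MP_228259_lc.V.Y13
import Pool.Agent.Lib.MP_228259_lc.V.Z1
import Pool.Agent.Lib.MP_228259_lc.V.Z3
import Pool.Agent.Lib.MP_228259_lc.V.Z5
import Pool.Agent.Lib.MP_228259_lc.V.Z7
import Pool.Agent.Lib.MP_228259_lc.V.Z8

/-!
XV-Z9 (irrational_case). Assembly of the irrational case.

Proof. `∑ ν_j q_j = 1`: `dirD q H = ∑ q_j ∂_j H`, evaluate, `hν`, divide by `eval A (dirD q H) ≠ 0`.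
`rat_basis` : `r, b, μ`. `tower_exists b q` with `deg b' c' = (Rf b' c').natDegree` : `M`; `a = bf M b`,
`¬ Alg V P a` (`hslope`), `hp : RPres V P a Δ χ A A'` from `hpf`. `0 < M i` (`M 0 = 1`, else `deg < M i`).
`crv_at`: `D, 𝒢₁`; `log_f_bound`: `𝒢₂`. `bounded_sheet`: `K₀`, and for large `N` the sheet `ω_N`;
`c_N = ctr κ₀ N`, `x_N = c_N + ω_N(c_N) q`, `P(x_N) = 0`, `‖x_N‖ ≤ N^C` (`Bdd`), `‖G(x_N)‖ N^C ≥ 1` for
`G ∈ 𝒢₁ ∪ 𝒢₂` (`hgen`, finitely many, one `C`), in particular `G(x_N) ≠ 0`. Let `N ≥ N₀` from now on,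
`N = N₀ + l`, `l : ℕ`; choose all data for every `l`. `Crv` at `x_N` (`crv_at`). `crossing` at the
level `ρ_N = Re (ω_N(c_N) - 2 π i N ω₀)` (`|ρ_N| ≤ K₀`): `F_l, θ_l` with `∑ μ_i log ‖x⁰_i‖ = ρ_N`,
`x⁰_i = mon (b i) (yv Δ A x_N F_l θ_l)`. `log_f_bound`: `|log ‖F_l‖| ≤ C₁ log N`. `Crv_scale`: the scaled
curves form an `NSeq` (`M D m` fixed). `esc`: `φ, σ, δ, c₁, θ, lam, Λ`. The conditions of `irr_local`:
`χ`: `(χ' s) = e2 x_N (F s) χ`; the coefficients of `(Δ.map (eval x)).comp (C F * X)` are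
`eval x (Δ.coeff k) * F^k` (`Polynomial.comp_C_mul_X_coeff`), its value at `s` is `h1 x (F s) Δ`.
`irr_local` (with `c₁`, `C₁`): `C`, and for large `N` the functions `L`. Replace `φ` by `φ (· + l₀)` so that
this holds for all `l`; `Nl l = N₀ + φ l`.
`∑_j b_{ij} L c s j - lam l i s` has exponential `x⁰_i` on the ball (`esc`: `exp (lam) = X i =
mon (b i) (…) / x⁰_i`; `irr_local`, last statement with `b i`), and it is continuous on the preconnected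
ball, so it is a constant `g_i` (the difference with its value at `σ` is a continuous function with
values in `2 π i ℤ`; or its derivative vanishes), `Re g_i = log ‖x⁰_i‖`. `z l = ∑ μ_i g_i`:
`∑_j ν_j L c s j = ∑_i μ_i ∑_j b_{ij} L c s j = ∑ μ_i lam l i s + z l`, `Re (z l) = ρ_N`.
`irr_final` (with `Λ' l s = ∑ μ_i lam l i s`): `l, k, u, s` with `u + ω u q = L u s + 2 π i k`. The point
`z = u + ω u q` has `exp z = exp (L u s)` and `(z, exp (L u s)) ∈ V` by `irr_local`.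
-/

set_option autoImplicit false

namespace XV

open MvPolynomial Filter Topology

/-- a differentiable function on a ball with constant exponential is constant -/
private theorem Z9_const {σ : ℂ} {δ : ℝ} (f : ℂ → ℂ)
    (hf : DifferentiableOn ℂ f (Metric.ball σ δ)) (w : ℂ)
    (he : ∀ s ∈ Metric.ball σ δ, Complex.exp (f s) = w) :
    ∀ s ∈ Metric.ball σ δ, ∀ t ∈ Metric.ball σ δ, f s = f t := by
  intro s hs t ht
  refine Metric.isOpen_ball.is_const_of_deriv_eq_zero (convex_ball σ δ).isPreconnected hf ?_ hs ht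
  intro x hx
  have h1 : HasDerivAt f (deriv f x) x :=
    (hf.differentiableAt (Metric.isOpen_ball.mem_nhds hx)).hasDerivAt
  have h2 : HasDerivAt (fun y => Complex.exp (f y)) (Complex.exp (f x) * deriv f x) x := h1.cexp
  have h3 : HasDerivAt (fun y => Complex.exp (f y)) 0 x := by
    refine (hasDerivAt_const x w).congr_of_eventuallyEq ?_
    filter_upwards [Metric.isOpen_ball.mem_nhds hx] with y hy
    exact he y hy
  have h4 := h2.unique h3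
  rcases mul_eq_zero.1 h4 with h5 | h5
  · exact absurd h5 (Complex.exp_ne_zero _)
  · exact h5

private theorem Z9_gen {n : ℕ} {P : MvPolynomial (Fin n) ℂ} {v : Fin n → ℂ} {κ : Fin n → ℝ}
    (𝒢 : Finset (MvPolynomial (Fin n) ℂ)) (h : ∀ G ∈ 𝒢, Gen P v κ G) :
    ∃ C : ℕ, ∀ᶠ N : ℕ in atTop, ∀ u ∈ Metric.ball (ctr κ N) (Real.sqrt N), ∀ ω : ℂ,
      eval (u + ω • v) P = 0 → ∀ G ∈ 𝒢, 1 ≤ ‖eval (u + ω • v) G‖ * (N : ℝ) ^ C := by
  classical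
  have h' : ∀ G ∈ 𝒢, ∃ C : ℕ, ∀ᶠ N : ℕ in atTop, ∀ u ∈ Metric.ball (ctr κ N) (Real.sqrt N),
      ∀ ω : ℂ, eval (u + ω • v) P = 0 → 1 ≤ ‖eval (u + ω • v) G‖ * (N : ℝ) ^ C := h
  choose! C hC using h'
  refine ⟨𝒢.sup C, ?_⟩
  have hall : ∀ᶠ N : ℕ in atTop, ∀ G ∈ 𝒢, ∀ u ∈ Metric.ball (ctr κ N) (Real.sqrt N),
      ∀ ω : ℂ, eval (u + ω • v) P = 0 → 1 ≤ ‖eval (u + ω • v) G‖ * (N : ℝ) ^ (C G) :=
    (Filter.eventually_all_finset 𝒢).2 (fun G hG => hC G hG)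
  filter_upwards [hall, eventually_ge_atTop 1] with N hN h1 u hu ω hω G hG
  have h2 := hN G hG u hu ω hω
  have h3 : (1 : ℝ) ≤ (N : ℝ) := by exact_mod_cast h1
  have h4 : (N : ℝ) ^ (C G) ≤ (N : ℝ) ^ (𝒢.sup C) :=
    pow_le_pow_right₀ h3 (Finset.le_sup hG)
  exact h2.trans (mul_le_mul_of_nonneg_left h4 (norm_nonneg _))

private theorem Z9_ctr {n : ℕ} (κ : Fin n → ℝ) (N : ℕ) :
    ‖ctr κ N‖ ≤ 2 * Real.pi * N * ‖κ‖ := by
  have hpi := Real.pi_pos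
  rw [pi_norm_le_iff_of_nonneg (by positivity)]
  intro j
  unfold ctr
  rw [norm_mul, norm_mul, norm_mul, norm_mul, Complex.norm_I, Complex.norm_real,
    Complex.norm_real, Complex.norm_natCast, Complex.norm_two, Real.norm_eq_abs,
    abs_of_pos hpi, mul_one]
  exact mul_le_mul_of_nonneg_left (norm_le_pi_norm κ j) (by positivity)

private theorem Z9_norm {n : ℕ} {P : MvPolynomial (Fin n) ℂ} {v : Fin n → ℂ} {κ : Fin n → ℝ}
    (hb : Bdd P v κ) :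
    ∃ C : ℕ, ∀ᶠ N : ℕ in atTop, ∀ ω : ℂ, eval (ctr κ N + ω • v) P = 0 →
      ‖ctr κ N + ω • v‖ ≤ (N : ℝ) ^ C := by
  obtain ⟨C, hC⟩ := hb
  have hpi := Real.pi_pos
  refine ⟨C + 2, ?_⟩
  filter_upwards [hC, eventually_ge_atTop 1,
    eventually_ge_atTop ⌈2 * Real.pi * ‖κ‖ + ‖v‖⌉₊] with N hN h1 h2 ω hω
  have h3 : (1 : ℝ) ≤ (N : ℝ) := by exact_mod_cast h1
  have h4 : 2 * Real.pi * ‖κ‖ + ‖v‖ ≤ (N : ℝ) := Nat.ceil_le.1 h2
  have hc : ctr κ N ∈ Metric.ball (ctr κ N) (Real.sqrt N) :=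
    Metric.mem_ball_self (Real.sqrt_pos.2 (by linarith))
  have h5 := hN _ hc ω hω
  have h6 : (1 : ℝ) ≤ (N : ℝ) ^ C := one_le_pow₀ h3
  have h7 : (N : ℝ) ≤ (N : ℝ) ^ (C + 1) := by
    rw [pow_succ]
    nlinarith
  have h8 : (N : ℝ) ^ C ≤ (N : ℝ) ^ (C + 1) := by
    rw [pow_succ]
    nlinarith
  calc ‖ctr κ N + ω • v‖ ≤ ‖ctr κ N‖ + ‖ω • v‖ := norm_add_le _ _
    _ ≤ 2 * Real.pi * N * ‖κ‖ + ‖ω‖ * ‖v‖ := add_le_add (Z9_ctr κ N) (norm_smul_le _ _)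
    _ ≤ (N : ℝ) ^ (C + 1) * (2 * Real.pi * ‖κ‖) + (N : ℝ) ^ (C + 1) * ‖v‖ := by
        have e1 : 2 * Real.pi * N * ‖κ‖ = N * (2 * Real.pi * ‖κ‖) := by ring
        rw [e1]
        exact add_le_add (mul_le_mul_of_nonneg_right h7 (by positivity))
          (mul_le_mul_of_nonneg_right (h5.trans h8) (norm_nonneg _))
    _ = (N : ℝ) ^ (C + 1) * (2 * Real.pi * ‖κ‖ + ‖v‖) := by ring
    _ ≤ (N : ℝ) ^ (C + 1) * N := mul_le_mul_of_nonneg_left h4 (by positivity)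
    _ = (N : ℝ) ^ (C + 2) := by ring

private theorem Z9_h1 {n : ℕ} (x : Fin n → ℂ) (f : ℂ) (Δ : R1 n) :
    (Δ.map (eval x)).eval f = h1 x f Δ := by
  rw [Polynomial.eval_map]
  rfl

/-- the data for all large `N` -/
private theorem Z9_stage {n r : ℕ} {V : Set ((Fin n → ℂ) × (Fin n → ℂ))}
    {P : MvPolynomial (Fin n) ℂ} (hV : VData V P) {q : Fin n → ℚ}
    (Rf : (Fin n → ℤ) → (Fin n → ℤ) → R2 n) (hRf : ∀ b c, IsRel V P b c (Rf b c))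
    {M : Fin (r + 1) → ℕ} {b : Fin (r + 1) → Fin n → ℤ}
    (hdeg : ∀ i : Fin (r + 1), 0 < i.val → (Rf (bp M b i) (b i)).natDegree < M i)
    {Δ : R1 n} {χ : R2 n} {A A' : Fin n → R2 n} (hp : RPres V P (bf M b) Δ χ A A')
    {κ₀ : Fin n → ℝ} (hb : Bdd P (XW.qc q) κ₀)
    (hgen : ∀ G ∈ Coef Rf Δ, ¬ P ∣ G → Gen P (XW.qc q) κ₀ G)
    (μ : Fin (r + 1) → ℝ) (hμ : QInd μ) (ω₀ : ℝ) (ν : Fin n → ℝ) (K₀ : ℝ)
    (hs : ∀ᶠ N : ℕ in atTop, ∃ ω : (Fin n → ℂ) → ℂ,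
      DifferentiableOn ℂ ω (Metric.ball (ctr κ₀ N) (Real.sqrt N)) ∧
      ∀ u ∈ Metric.ball (ctr κ₀ N) (Real.sqrt N), eval (u + ω u • XW.qc q) P = 0 ∧
        ‖ω u - (2 * Real.pi * Complex.I * N * ω₀ -
          ∑ j, (ν j : ℂ) * (u j - ctr κ₀ N j))‖ ≤ K₀) :
    ∃ (D C₁ : ℕ), ∀ᶠ N : ℕ in atTop, ∃ (ω : (Fin n → ℂ) → ℂ) (F θ : ℂ),
      DifferentiableOn ℂ ω (Metric.ball (ctr κ₀ N) (Real.sqrt N)) ∧
      (∀ u ∈ Metric.ball (ctr κ₀ N) (Real.sqrt N), eval (u + ω u • XW.qc q) P = 0 ∧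
        ‖ω u - (2 * Real.pi * Complex.I * N * ω₀ -
          ∑ j, (ν j : ℂ) * (u j - ctr κ₀ N j))‖ ≤ K₀) ∧
      Crv M D χ.natDegree (Δ.map (eval (ctr κ₀ N + ω (ctr κ₀ N) • XW.qc q)))
        (fun f => e2 (ctr κ₀ N + ω (ctr κ₀ N) • XW.qc q) f χ)
        (fun i z => mon (b i) (yv Δ A (ctr κ₀ N + ω (ctr κ₀ N) • XW.qc q) z.1 z.2))
        (fun i => spec (ctr κ₀ N + ω (ctr κ₀ N) • XW.qc q) (Rf (bp M b i) (b i)))
        (fun i => spec (ctr κ₀ N + ω (ctr κ₀ N) • XW.qc q) (Rf (bf M b) (b i))) ∧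
      (Δ.map (eval (ctr κ₀ N + ω (ctr κ₀ N) • XW.qc q))).eval F ≠ 0 ∧
      (e2 (ctr κ₀ N + ω (ctr κ₀ N) • XW.qc q) F χ).eval θ = 0 ∧
      ∑ i, μ i * Real.log ‖mon (b i) (yv Δ A (ctr κ₀ N + ω (ctr κ₀ N) • XW.qc q) F θ)‖ =
        (ω (ctr κ₀ N) - 2 * Real.pi * Complex.I * N * ω₀).re ∧
      |Real.log ‖F‖| ≤ C₁ * Real.log N := by
  classical
  obtain ⟨D, 𝒢₁, h𝒢₁, hcrv⟩ := crv_at hV hRf hdeg hp
  obtain ⟨𝒢₂, h𝒢₂, hlog⟩ := log_f_bound hV hRf hp μ hμ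
  obtain ⟨Ca, hCa⟩ := Z9_norm hb
  obtain ⟨Cb, hCb⟩ := Z9_gen (P := P) (v := XW.qc q) (κ := κ₀) (𝒢₁ ∪ 𝒢₂) (by
    intro G hG
    rcases Finset.mem_union.1 hG with h | h
    · exact hgen G (h𝒢₁ G h).2 (h𝒢₁ G h).1
    · exact hgen G (h𝒢₂ G h).2 (h𝒢₂ G h).1)
  obtain ⟨C₁, hC₁⟩ := hlog (Ca + Cb + ⌈K₀⌉₊)
  refine ⟨D, C₁, ?_⟩
  filter_upwards [hs, hCa, hCb, hC₁, eventually_ge_atTop 1] with N h1 h2 h3 h4 h5
  obtain ⟨ω, hω, hωb⟩ := h1
  have hN1 : (1 : ℝ) ≤ (N : ℝ) := by exact_mod_cast h5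
  have hc : ctr κ₀ N ∈ Metric.ball (ctr κ₀ N) (Real.sqrt N) :=
    Metric.mem_ball_self (Real.sqrt_pos.2 (by linarith))
  obtain ⟨hP0, hK⟩ := hωb _ hc
  have hx1 := h2 _ hP0
  have hx2 := h3 _ hc _ hP0
  have hpa : (N : ℝ) ^ Ca ≤ (N : ℝ) ^ (Ca + Cb + ⌈K₀⌉₊) :=
    pow_le_pow_right₀ hN1 (by omega)
  have hpb : (N : ℝ) ^ Cb ≤ (N : ℝ) ^ (Ca + Cb + ⌈K₀⌉₊) :=
    pow_le_pow_right₀ hN1 (by omega)
  have hC := hcrv _ hP0 (by
    intro G hG h0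
    have := hx2 G (Finset.mem_union_left _ hG)
    rw [h0, norm_zero, zero_mul] at this
    linarith)
  obtain ⟨F, θ, hF, hθ, hsum⟩ := crossing hC μ hμ
    (ω (ctr κ₀ N) - 2 * Real.pi * Complex.I * N * ω₀).re
  refine ⟨ω, F, θ, hω, hωb, hC, hF, hθ, hsum, ?_⟩
  refine h4 _ hP0 (hx1.trans hpa) ?_ F θ ?_ hθ ?_
  · intro G hG
    exact (hx2 G (Finset.mem_union_right _ hG)).trans
      (mul_le_mul_of_nonneg_left hpb (norm_nonneg _))
  · rw [← Z9_h1]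
    exact hF
  · have e : ∑ i, μ i * Real.log ‖mon (b i)
        (yv Δ A (ctr κ₀ N + ω (ctr κ₀ N) • XW.qc q) F θ)‖ =
        (ω (ctr κ₀ N) - 2 * Real.pi * Complex.I * N * ω₀).re := hsum
    rw [e]
    refine (Complex.abs_re_le_norm _).trans ?_
    have e2 : ω (ctr κ₀ N) - 2 * Real.pi * Complex.I * N * ω₀ = ω (ctr κ₀ N) -
        (2 * Real.pi * Complex.I * N * ω₀ -
          ∑ j, (ν j : ℂ) * (ctr κ₀ N j - ctr κ₀ N j)) := by simp
    rw [e2]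
    refine hK.trans ((Nat.le_ceil K₀).trans ?_)
    push_cast
    have : (0 : ℝ) ≤ Ca := Nat.cast_nonneg _
    have : (0 : ℝ) ≤ Cb := Nat.cast_nonneg _
    linarith

theorem irrational_case {n : ℕ} {V : Set ((Fin n → ℂ) × (Fin n → ℂ))}
    {P H : MvPolynomial (Fin n) ℂ} (hV : VData V P) {q : Fin n → ℚ}
    (hslope : ∀ b : Fin n → ℤ, ∑ j, (b j : ℚ) * q j ≠ 0 → ¬ Alg V P b)
    (Rf : (Fin n → ℤ) → (Fin n → ℤ) → R2 n) (hRf : ∀ b c, IsRel V P b c (Rf b c))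
    (Δf : (Fin n → ℤ) → R1 n) (χf : (Fin n → ℤ) → R2 n) (Af A'f : (Fin n → ℤ) → Fin n → R2 n)
    (hpf : ∀ a, ¬ Alg V P a → RPres V P a (Δf a) (χf a) (Af a) (A'f a))
    {κ₀ : Fin n → ℝ} (hb : Bdd P (XW.qc q) κ₀) (hsh : Sheets P (XW.qc q) κ₀)
    (hgen : ∀ a, ∀ G ∈ Coef Rf (Δf a), ¬ P ∣ G → Gen P (XW.qc q) κ₀ G) {d h : ℕ} {E : ℕ → ℕ}
    {B : ℕ → MvPolynomial (Fin n) ℂ} (hdec : XW.Dec P H d h E B) (ω₀ : ℝ)
    (hH0 : eval (XW.rc κ₀ + (ω₀ : ℂ) • XW.qc q) H = 0)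
    (hD : eval (XW.rc κ₀ + (ω₀ : ℂ) • XW.qc q) (XW.dirD (XW.qc q) H) ≠ 0)
    (hB : ∀ i ≤ d, B i ≠ 0 → eval (XW.rc κ₀ + (ω₀ : ℂ) • XW.qc q) (B i) ≠ 0)
    (htame : ∀ i ≤ d, B i ≠ 0 → i + E d ≤ d + E i) (ν : Fin n → ℝ)
    (hν : ∀ j, eval (XW.rc κ₀ + (ω₀ : ℂ) • XW.qc q) (pderiv j H) =
      (ν j : ℂ) * eval (XW.rc κ₀ + (ω₀ : ℂ) • XW.qc q) (XW.dirD (XW.qc q) H))
    (hirr : ¬ ∃ q' : Fin n → ℚ, ∀ j, ν j = q' j) :
    ∃ z : Fin n → ℂ, (z, fun j => Complex.exp (z j)) ∈ V := by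
  classical
  -- `∑ ν_j q_j = 1`
  have hνq : ∑ j, ν j * q j = 1 := by
    have e1 : eval (XW.rc κ₀ + (ω₀ : ℂ) • XW.qc q) (XW.dirD (XW.qc q) H) =
        ∑ j, (q j : ℂ) * eval (XW.rc κ₀ + (ω₀ : ℂ) • XW.qc q) (pderiv j H) := by
      unfold XW.dirD
      rw [map_sum]
      refine Finset.sum_congr rfl fun j _ => ?_
      rw [map_mul, eval_C]
      rfl
    have e2 : eval (XW.rc κ₀ + (ω₀ : ℂ) • XW.qc q) (XW.dirD (XW.qc q) H) =
        (∑ j, (ν j : ℂ) * (q j : ℂ)) *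
          eval (XW.rc κ₀ + (ω₀ : ℂ) • XW.qc q) (XW.dirD (XW.qc q) H) := by
      conv_lhs => rw [e1]
      rw [Finset.sum_mul]
      refine Finset.sum_congr rfl fun j _ => ?_
      rw [hν j]
      ring
    have e3 : (∑ j, (ν j : ℂ) * (q j : ℂ)) = 1 := by
      refine mul_right_cancel₀ hD ?_
      rw [one_mul]
      exact e2.symm
    have e4 : ((∑ j, ν j * q j : ℝ) : ℂ) = ((1 : ℝ) : ℂ) := by
      push_cast
      exact e3
    exact_mod_cast e4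
  obtain ⟨r, b, μ, hμ, hνb, hb0⟩ := rat_basis ν q hνq
  obtain ⟨M, hM0, hMdeg, hMq⟩ := tower_exists b q hb0 (fun b' c' => (Rf b' c').natDegree)
  have hMpos : ∀ i, 0 < M i := by
    intro i
    rcases Nat.eq_zero_or_pos i.val with h0 | h0
    · have : i = 0 := Fin.ext h0
      rw [this, hM0]
      exact one_pos
    · exact lt_of_le_of_lt (Nat.zero_le _) (hMdeg i h0)
  have hp := hpf _ (hslope _ hMq)
  obtain ⟨K₀, hK₀, hsheet⟩ := bounded_sheet hsh hdec ω₀ hH0 hD hB htame ν hν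
  set Δ := Δf (bf M b) with hΔdef
  set χ := χf (bf M b) with hχdef
  set A := Af (bf M b) with hAdef
  obtain ⟨D, C₁, hst⟩ := Z9_stage hV Rf hRf hMdeg hp hb (hgen (bf M b)) μ hμ ω₀ ν K₀ hsheet
  obtain ⟨N₀, hN₀⟩ := Filter.eventually_atTop.1 (hst.and (eventually_ge_atTop 1))
  have hN₀1 : 1 ≤ N₀ := (hN₀ N₀ le_rfl).2
  choose ω F θ₀ hω hωb hcrv hF hθ₀ hsum hlogF using
    fun l : ℕ => (hN₀ (N₀ + l) (Nat.le_add_right _ _)).1
  set x : ℕ → Fin n → ℂ := fun l =>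
    ctr κ₀ (N₀ + l) + ω l (ctr κ₀ (N₀ + l)) • XW.qc q with hxdef
  have hscale := fun l => Crv_scale (hcrv l) (F l) (θ₀ l) (hF l) (hθ₀ l)
  choose hF0 hX0 R' G' hcrv' using hscale
  have hseq : NSeq M D χ.natDegree
      (fun l => (Δ.map (eval (x l))).comp (Polynomial.C (F l) * Polynomial.X))
      (fun l f => e2 (x l) (F l * f) χ)
      (fun l i z => mon (b i) (yv Δ A (x l) (F l * z.1) z.2) /
        mon (b i) (yv Δ A (x l) (F l) (θ₀ l))) R' G' θ₀ := by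
    refine ⟨fun l => hcrv' l, fun l => ?_, fun l => ?_, fun l i => ?_⟩
    · rw [Polynomial.eval_comp, Polynomial.eval_mul, Polynomial.eval_C, Polynomial.eval_X, mul_one]
      exact hF l
    · rw [mul_one]
      exact hθ₀ l
    · change mon (b i) (yv Δ A (x l) (F l * 1) (θ₀ l)) / mon (b i) (yv Δ A (x l) (F l) (θ₀ l)) = 1
      rw [mul_one]
      exact div_self (hX0 l i)
  obtain ⟨φ, σ, δ, c₁, θ, lam, Λ, hφ, hδ, hc₁, hσ, hθd, hes, hlamd, hΛd, hunif, hΛre, hΛnc⟩ :=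
    esc hM0 hMpos μ hμ hseq
  obtain ⟨C, hC, hloc⟩ := irr_local hp hb
    (fun k hk => hgen (bf M b) _ (Or.inr ⟨k, rfl⟩) hk) c₁ hc₁ C₁ hδ hσ
  have hφt : Tendsto (fun l => N₀ + φ l) atTop atTop :=
    tendsto_atTop_mono (fun l => Nat.le_add_left _ _) hφ.tendsto_atTop
  obtain ⟨l₀, hl₀⟩ := Filter.eventually_atTop.1 (hφt.eventually hloc)
  -- shift
  set ψ : ℕ → ℕ := fun l => φ (l + l₀) with hψdef
  have hL0 := fun l : ℕ => hl₀ (l + l₀) (Nat.le_add_left _ _) (ω (ψ l)) (F (ψ l)) (θ (l + l₀))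
    (hω (ψ l)) (fun u hu => (hωb (ψ l) u hu).1) (hF0 (ψ l)) (hlogF (ψ l)) (hθd (l + l₀)) (by
      intro s hs
      obtain ⟨e1, e2', e3⟩ := hes (l + l₀) s hs
      refine ⟨e2', fun k => ?_⟩
      have e4 := e1 k
      rw [Polynomial.comp_C_mul_X_coeff, Polynomial.coeff_map, Polynomial.eval_comp,
        Polynomial.eval_mul, Polynomial.eval_C, Polynomial.eval_X, Z9_h1] at e4
      exact e4)
  choose L hLd hLV hLim hLexp using hL0
  -- the constants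
  have hcs : ∀ l : ℕ, ∀ i, ∃ g : ℂ, g.re = Real.log ‖mon (b i) (yv Δ A (x (ψ l)) (F (ψ l))
      (θ₀ (ψ l)))‖ ∧ ∀ s ∈ Metric.ball σ δ,
      ∑ j, (b i j : ℂ) * L l (ctr κ₀ (N₀ + ψ l)) s j = lam (l + l₀) i s + g := by
    intro l i
    have hσm : σ ∈ Metric.ball σ δ := Metric.mem_ball_self hδ
    have hpos : 0 < Real.sqrt (Real.sqrt ((N₀ + ψ l : ℕ) : ℝ)) := by
      refine Real.sqrt_pos.2 (Real.sqrt_pos.2 ?_)
      exact_mod_cast (by omega : 0 < N₀ + ψ l)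
    have hd1 : DifferentiableOn ℂ (fun s => ∑ j, (b i j : ℂ) * L l (ctr κ₀ (N₀ + ψ l)) s j -
        lam (l + l₀) i s) (Metric.ball σ δ) := by
      refine DifferentiableOn.sub ?_ (hlamd (l + l₀) i)
      refine DifferentiableOn.fun_sum fun j _ => ?_
      refine DifferentiableOn.const_mul ?_ _
      have h1 : DifferentiableOn ℂ (fun s : ℂ => ((ctr κ₀ (N₀ + ψ l) : Fin n → ℂ), s))
          (Metric.ball σ δ) := by
        fun_prop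
      exact (hLd l j).comp h1 (fun s hs => ⟨Metric.mem_ball_self hpos, hs⟩)
    have he1 : ∀ s ∈ Metric.ball σ δ, Complex.exp (∑ j, (b i j : ℂ) *
        L l (ctr κ₀ (N₀ + ψ l)) s j - lam (l + l₀) i s) =
        mon (b i) (yv Δ A (x (ψ l)) (F (ψ l)) (θ₀ (ψ l))) := by
      intro s hs
      obtain ⟨-, -, e3⟩ := hes (l + l₀) s hs
      have e4 := e3 i
      have e5 := hLexp l s hs (b i)
      have e6 : mon (b i) (yv Δ A (x (ψ l)) (F (ψ l)) (θ₀ (ψ l))) ≠ 0 := hX0 (ψ l) i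
      have e7 : Complex.exp (∑ j, (b i j : ℂ) * L l (ctr κ₀ (N₀ + ψ l)) s j) =
          Complex.exp (lam (l + l₀) i s) *
            mon (b i) (yv Δ A (x (ψ l)) (F (ψ l)) (θ₀ (ψ l))) := by
        rw [e4, div_mul_cancel₀ _ e6]
        exact e5
      rw [Complex.exp_sub, e7, mul_div_cancel_left₀ _ (Complex.exp_ne_zero _)]
    refine ⟨∑ j, (b i j : ℂ) * L l (ctr κ₀ (N₀ + ψ l)) σ j - lam (l + l₀) i σ, ?_, ?_⟩
    · rw [← he1 σ hσm, Complex.norm_exp, Real.log_exp]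
    · intro s hs
      have := Z9_const _ hd1 _ he1 s hs σ hσm
      linear_combination this
  choose g hgre hg using hcs
  -- conclusion
  obtain ⟨l, k, u, s, hu, hs, huk⟩ := irr_final ν q hνq hirr κ₀ ω₀ hδ Λ hΛd hΛre hΛnc K₀ C hK₀ hC
    (fun l => N₀ + ψ l) (hφt.comp (tendsto_add_atTop_nat l₀)) (fun l => ω (ψ l)) L
    (fun l s => ∑ i, (μ i : ℂ) * lam (l + l₀) i s) (fun l => ∑ i, (μ i : ℂ) * g l i)
    (fun l => hω (ψ l)) (fun l u hu => (hωb (ψ l) u hu).2) (fun l j => hLd l j)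
    (fun l u hu s hs j => (hLV l u hu s hs).1 j) (fun l j => hLim l j)
    (fun u hu => (tendsto_add_atTop_nat l₀).eventually (hunif u hu))
    (by
      intro l s hs
      have e1 : ∑ j, (ν j : ℂ) * L l (ctr κ₀ (N₀ + ψ l)) s j =
          ∑ i, (μ i : ℂ) * ∑ j, (b i j : ℂ) * L l (ctr κ₀ (N₀ + ψ l)) s j := by
        simp_rw [Finset.mul_sum]
        rw [Finset.sum_comm]
        refine Finset.sum_congr rfl fun j _ => ?_
        rw [hνb j]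
        push_cast
        rw [Finset.sum_mul]
        refine Finset.sum_congr rfl fun i _ => ?_
        ring
      rw [e1, ← Finset.sum_add_distrib]
      refine Finset.sum_congr rfl fun i _ => ?_
      rw [hg l i s hs]
      ring)
    (by
      intro l
      rw [← hsum (ψ l), Complex.re_sum]
      refine Finset.sum_congr rfl fun i _ => ?_
      rw [Complex.re_ofReal_mul, hgre l i])
  refine ⟨u + ω (ψ l) u • XW.qc q, ?_⟩
  have hmem := (hLV l u hu s hs).2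
  have hexp : (fun j => Complex.exp ((u + ω (ψ l) u • XW.qc q) j)) =
      fun j => Complex.exp (L l u s j) := by
    funext j
    have e1 : (u + ω (ψ l) u • XW.qc q) j = L l u s j + (k j : ℂ) * (2 * Real.pi * Complex.I) := by
      have := huk j
      change u j + ω (ψ l) u * (q j : ℂ) = _
      rw [this]
      ring
    rw [e1, Complex.exp_add, Complex.exp_int_mul_two_pi_mul_I, mul_one]
  rw [hexp]
  exact hmem

end XV
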