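import Pool.Agent.Lib.MP_228259_lc.V.S1
import Pool.Agent.Lib.MP_228259_lc.V.N5
import Pool.Agent.Lib.MP_228259_lc.V.N6
import Pool.Agent.Lib.MP_228259_lc.V.P2
import Pool.Agent.Lib.MP_228259_lc.V.P3
import Pool.Agent.Lib.MP_228259_lc.V.R1
import Pool.Agent.Lib.MP_228259_lc.V.R2
import Pool.Agent.Lib.MP_228259_lc.V.C3
import Pool.Agent.Lib.MP_228259_lc.V.Z9
import Pool.Agent.Lib.MP_228259_lc.P3a
import Pool.Agent.Lib.MP_228259_lc.P3b
import Pool.Agent.Lib.MP_228259_lc.P13a
import Pool.Agent.Lib.MP_228259_lc.P13b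
import Pool.Agent.Lib.MP_228259_lc.P19
import Pool.Agent.Lib.MP_228259_lc.P20
import Pool.Agent.Lib.MP_228259_lc.P21

/-!
XV-Z0 (nondeg_main). The nondegenerate theorem.

Proof (compare `XW.poly_part`, file P22). Suppose there is no exponential point (`hno`).
`hV.pres a ha`: `hp : RPres V P a Δ χ A A'`. `good_slope hV hp`: `q, S, 𝒢`, `a · q = 1`,
`hs : SlopeData …`. `dirD q H ≠ 0` (else `a · q = 0` by `haH`). `exists_dec` (P3a; `hV.deg`, `hirr`, `hH`):
`hdec : Dec P H d h E B`, `d = totalDegree P`.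
`dirD q P ≠ 0`: otherwise its component of degree `d - 1`, `dirD q (P_d)`, vanishes, `P_d = H^e B_d`,
`e = E d > 0`: `0 = e H^(e-1) dirD q H B_d + H^e dirD q B_d`, so `H ∣ dirD q H * B_d`, but `H` is prime,
`¬ H ∣ dirD q H` (`not_dvd_dirD`), `¬ H ∣ B_d` (`ndvd`, `top`).
`P_d` is not invariant in the direction `q` either, in particular by `exists_ne_near` (P21) or `hne`
below.
Countable family of nonzero polynomials `R`: from `good_dir P q 𝒢` one; `bdd_exists`, `sheets_exist`
(contained in `GoodDir`); for every `G ∈ ⋃_a Coef Rf (Δf a)` with `¬ P ∣ G` the one of `gen_exists`, where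
`Rf b c` is chosen from `hV.rel b c` and `Δf a, χf a, Af a, A'f a` from `hV.pres a` if `¬ Alg V P a`
(arbitrary otherwise). The index set is countable: `G` ranges over the countable set of the
`((Rf b c).coeff j).coeff k` and `(Δf a).coeff k`; e.g. index type
`Option (((Fin n → ℤ) × (Fin n → ℤ) × ℕ × ℕ) ⊕ ((Fin n → ℤ) × ℕ))`, with `R = 1` when `P ∣ G`. One more
member `R₂` of the family: a nonzero polynomial such that `eval (rc κ) R₂ ≠ 0` implies
`∃ ω', P_d(κ + ω' q) ≠ 0` : take `R₂ = P_d` itself (`ω' = 0`; `P_d ≠ 0`, `P3b_top_ne`).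
`hreal`: if all `R_s(κ) ≠ 0` and `H(κ + ω q) = 0` then `P_d(κ + ω q) = 0` (`H ∣ P_d`), so `ω.im = 0` by
`nonreal` (`GoodDir`).
`G₀ = ∏_{i ≤ d, B i ≠ 0} B i`, `¬ H ∣ G₀`. `dichotomy2` with this family:
* Rational alternative: `∂_j H = q'_j dirD q H` for all `j`, `q'` rational. Let `m > 0` be a common
  denominator of `q`, `p = m q` integral, `dirD p H = m dirD q H ≠ 0`; `linear_of_pderiv` (P13a) with
  `p` and `q'_j / m`: `H = C lam * lin (q'/m)`, and `∑ (q'_j/m) p_j = 1`, so `q'' := q'/m ≠ 0`, and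
  `∑ q''_j q_j = 1/m ≠ 0`. `primitive_vec q''`: `c = q₀ q''` integral, `c · v = 1`. `H = C lam' * lin c`.
  `¬ Alg V P c` by `not_alg` (`∑ c_j q_j = q₀ / m ≠ 0`). `dec_rescale` (P19): `Dec P (lin c) d 1 E B'`,
  `B' i = C (lam' ^ E i) * B i` (nonzero iff `B i ≠ 0`). Tameness: choose a good `κ` and a root `ω` for
  `tame2` (as in the other alternative: `XW.gp_root` and the family, or take them from a second use of
  the polynomials `XW.gp` for `G₀` and `dirD q H`; here `H` is linear so `dirD q H` is a nonzero constant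
  and a root `ω` of `H(κ + ω q)` exists for all `κ`; it suffices that `B i (κ + ω q) ≠ 0`, generic by
  `XW.gp` for `G₀`; `ω` is real by `hreal`). `rational_case` gives a point.
* Irrational alternative: `κ, ω` with all conditions. `tame2` gives the tameness. `nu_real2`: the set of
  good `κ'` for `hreal` near `κ`: the conditions used in `hreal` are finitely many polynomials
  (`good_dir` and `R₂`), nonzero in a neighbourhood of `κ`. So `ν_j = Re (∂_j H / dirD q H)` satisfies
  `hν`, and it is not rational by the last statement of the alternative. `irrational_case` (`hslope` from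
  `not_alg`).
Both contradict `hno`.
-/

set_option autoImplicit false

namespace XV

open MvPolynomial Filter Topology

theorem Z0_component {n : ℕ} (P : MvPolynomial (Fin n) ℂ) (v : Fin n → ℂ)
    (hd : 0 < P.totalDegree) :
    homogeneousComponent (P.totalDegree - 1) (XW.dirD v P) =
      XW.dirD v (homogeneousComponent P.totalDegree P) := by
  classical
  have hadd : ∀ (s : Finset ℕ) (F : ℕ → MvPolynomial (Fin n) ℂ),
      XW.dirD v (∑ i ∈ s, F i) = ∑ i ∈ s, XW.dirD v (F i) := by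
    intro s F
    simp only [XW.dirD, map_sum, Finset.mul_sum]
    exact Finset.sum_comm
  have hhom : ∀ i : ℕ, (XW.dirD v (homogeneousComponent i P)).IsHomogeneous (i - 1) :=
    fun i => XW.p10_hom_dirD (homogeneousComponent_isHomogeneous i P) v
  have h0 : XW.dirD v (homogeneousComponent 0 P) = 0 := by
    rw [homogeneousComponent_zero]
    simp [XW.dirD]
  have key : XW.dirD v P = ∑ i ∈ Finset.range (P.totalDegree + 1),
      XW.dirD v (homogeneousComponent i P) := by
    rw [← hadd, sum_homogeneousComponent]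
  rw [key, map_sum]
  rw [Finset.sum_eq_single P.totalDegree]
  · rw [homogeneousComponent_of_mem (hhom P.totalDegree), if_pos rfl]
  · intro i hi hne
    rcases Nat.eq_zero_or_pos i with rfl | hpos
    · rw [h0, map_zero]
    · rw [homogeneousComponent_of_mem (hhom i), if_neg]
      omega
  · intro hnot
    exact absurd (Finset.mem_range.mpr (Nat.lt_succ_self _)) hnot

theorem Z0_dirD_ne {n : ℕ} {P H : MvPolynomial (Fin n) ℂ} {d h : ℕ} {E : ℕ → ℕ}
    {B : ℕ → MvPolynomial (Fin n) ℂ} (hdec : XW.Dec P H d h E B) (hd : 0 < P.totalDegree)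
    (v : Fin n → ℂ) (hv : XW.dirD v H ≠ 0) : XW.dirD v P ≠ 0 := by
  intro h0
  have h1 : XW.dirD v (homogeneousComponent P.totalDegree P) = 0 := by
    rw [← Z0_component P v hd, h0, map_zero]
  have h2 : (XW.P4b_psi v (homogeneousComponent P.totalDegree P)).derivative = 0 := by
    rw [S1_deriv, h1, map_zero]
  have h3 := Polynomial.derivative_eq_zero.mp h2
  have hcomp := hdec.comp d le_rfl
  rw [hdec.degree, hcomp, map_mul, map_pow] at h3
  have hHpos := XW.P4b_natDegree_pos v H hv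
  have hH0 : XW.P4b_psi v H ≠ 0 := by
    intro h; rw [h] at hHpos; simp at hHpos
  have hB0 : XW.P4b_psi v (B d) ≠ 0 := by
    intro h
    have := (XW.P4b_psi_coeff v (B d)).1
    rw [h, Polynomial.coeff_zero] at this
    exact hdec.top this.symm
  rw [Polynomial.natDegree_mul (pow_ne_zero _ hH0) hB0, Polynomial.natDegree_pow] at h3
  have := hdec.epos
  have h4 : 0 < E d * (XW.P4b_psi v H).natDegree := Nat.mul_pos this hHpos
  omega

theorem nondeg_main {n : ℕ} {V : Set ((Fin n → ℂ) × (Fin n → ℂ))} {P : MvPolynomial (Fin n) ℂ}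
    (hV : VData V P) (H : MvPolynomial (Fin n) ℂ) (hirr : Irreducible H)
    (hH : H ∣ homogeneousComponent P.totalDegree P) (a : Fin n → ℤ)
    (haH : ∀ q : Fin n → ℚ, XW.dirD (XW.qc q) H = 0 → ∑ j, (a j : ℚ) * q j = 0)
    (ha : ¬ Alg V P a) :
    ∃ z : Fin n → ℂ, (z, fun j => Complex.exp (z j)) ∈ V := by
  classical
  by_contra hno
  obtain ⟨Δ, χ, A, A', hp⟩ := hV.pres a ha
  obtain ⟨q, S, 𝒢, haq, hs⟩ := good_slope hV hp
  have hqH : XW.dirD (XW.qc q) H ≠ 0 := by
    intro h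
    have := haH q h
    rw [haq] at this
    norm_num at this
  obtain ⟨h, E, B, hdec⟩ := XW.exists_dec P H hV.deg hirr hH
  have hqP : XW.dirD (XW.qc q) P ≠ 0 := Z0_dirD_ne hdec hV.deg _ hqH
  obtain ⟨Rd, hRd0, hRd⟩ := good_dir P hV.irr (XW.qc q) hqP 𝒢
  set Pd := homogeneousComponent P.totalDegree P with hPd
  have hPd0 : Pd ≠ 0 := XW.P3b_top_ne P hV.deg
  set d := P.totalDegree with hd'
  have hHprime : Prime H := hirr.prime
  -- real roots
  have hreal2 : ∀ κ : Fin n → ℝ, eval (XW.rc κ) Rd ≠ 0 → eval (XW.rc κ) Pd ≠ 0 → ∀ ω : ℂ,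
      eval (XW.rc κ + ω • XW.qc q) H = 0 → ω.im = 0 := by
    intro κ h1 h2 ω h3
    refine nonreal hp hs (hRd κ h1) hno ω ?_ ⟨0, ?_⟩
    · rw [← hd', hdec.comp d le_rfl, map_mul, map_pow, h3, zero_pow hdec.epos.ne', zero_mul]
    · rw [zero_smul, add_zero]
      exact h2
  -- the product of all nonzero `B i`
  set S₀ : Finset ℕ := (Finset.range (d + 1)).filter (fun i => B i ≠ 0) with hS
  set G : MvPolynomial (Fin n) ℂ := ∏ i ∈ S₀, B i with hG
  have hGdvd : ¬ H ∣ G := by
    rw [hG, Prime.dvd_finsetProd_iff hHprime]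
    rintro ⟨i, hi, hdi⟩
    simp only [hS, Finset.mem_filter, Finset.mem_range] at hi
    rcases hdec.ndvd i (by omega) with h0 | h0
    · exact hi.2 h0
    · exact h0 hdi
  have hBG : ∀ x : Fin n → ℂ, eval x G ≠ 0 → ∀ i ≤ d, B i ≠ 0 → eval x (B i) ≠ 0 := by
    intro x hx i hi hBi h0
    apply hx
    rw [hG, map_prod]
    apply Finset.prod_eq_zero (i := i) _ h0
    simp only [hS, Finset.mem_filter, Finset.mem_range]
    exact ⟨by omega, hBi⟩
  -- tameness
  have htame : ∀ i ≤ d, B i ≠ 0 → i + E d ≤ d + E i := by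
    have hnd : ¬ H ∣ G * XW.dirD (XW.qc q) H := by
      intro hdv
      rcases hHprime.dvd_or_dvd hdv with h1 | h1
      · exact hGdvd h1
      · exact XW.not_dvd_dirD hdec.hom hdec.hpos _ hqH h1
    obtain ⟨R1, hR1, hR1'⟩ := XW.gp H hirr (XW.qc q) hqH _ hnd
    obtain ⟨R2, hR2, hR2'⟩ := XW.gp_root H (XW.qc q) hqH
    obtain ⟨κ, hκ⟩ := XW.baire_poly (S := Unit) (fun _ => Rd * Pd * (R1 * R2))
      (fun _ => mul_ne_zero (mul_ne_zero hRd0 hPd0) (mul_ne_zero hR1 hR2))
    have hκ' := hκ ()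
    rw [map_mul, map_mul, map_mul] at hκ'
    have hκd := left_ne_zero_of_mul hκ'
    have hκr := right_ne_zero_of_mul hκ'
    obtain ⟨ω, hω⟩ := hR2' _ (right_ne_zero_of_mul hκr)
    have h3 := hR1' _ ω (left_ne_zero_of_mul hκr) hω
    rw [map_mul] at h3
    have hG3 := left_ne_zero_of_mul h3
    have hD3 := right_ne_zero_of_mul h3
    have him := hreal2 κ (left_ne_zero_of_mul hκd) (right_ne_zero_of_mul hκd) ω hω
    have hωre : ((ω.re : ℝ) : ℂ) = ω := by
      apply Complex.ext <;> simp [him]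
    refine tame2 hp hs (hRd κ (left_ne_zero_of_mul hκd)) hno hdec ω.re ?_ ?_ ?_
    · rw [hωre]; exact hω
    · rw [hωre]; exact hD3
    · intro i hi hBi
      rw [hωre]; exact hBG _ hG3 i hi hBi
  -- the countable family
  choose Rf hRf using hV.rel
  have hpres : ∀ b : Fin n → ℤ, ∃ (Δ : R1 n) (χ : R2 n) (A A' : Fin n → R2 n),
      ¬ Alg V P b → RPres V P b Δ χ A A' := by
    intro b
    by_cases hb : Alg V P b
    · exact ⟨0, 0, 0, 0, fun h => absurd hb h⟩
    · obtain ⟨Δ, χ, A, A', h⟩ := hV.pres b hb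
      exact ⟨Δ, χ, A, A', fun _ => h⟩
  choose Δf χf Af A'f hpf using hpres
  have hgen : ∀ G : MvPolynomial (Fin n) ℂ, ∃ R : MvPolynomial (Fin n) ℂ, R ≠ 0 ∧
      ∀ κ : Fin n → ℝ, eval (XW.rc κ) R ≠ 0 → ¬ P ∣ G → Gen P (XW.qc q) κ G := by
    intro G
    by_cases hG : P ∣ G
    · exact ⟨1, one_ne_zero, fun _ _ h => absurd hG h⟩
    · obtain ⟨R, hR, hR'⟩ := gen_exists P hV.irr (XW.qc q) hqP G hG
      exact ⟨R, hR, fun κ hκ _ => hR' κ hκ⟩
  choose Rg hRg0 hRg using hgen
  let GI : ((Fin n → ℤ) × (Fin n → ℤ) × ℕ × ℕ) ⊕ ((Fin n → ℤ) × ℕ) → MvPolynomial (Fin n) ℂ :=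
    Sum.elim (fun t => ((Rf t.1 t.2.1).coeff t.2.2.1).coeff t.2.2.2) (fun t => (Δf t.1).coeff t.2)
  let R : Bool ⊕ (((Fin n → ℤ) × (Fin n → ℤ) × ℕ × ℕ) ⊕ ((Fin n → ℤ) × ℕ)) →
      MvPolynomial (Fin n) ℂ :=
    Sum.elim (fun t => if t then Rd else Pd) (fun t => Rg (GI t))
  have hR0 : ∀ s, R s ≠ 0 := by
    rintro (t | t)
    · cases t
      · simpa [R] using hPd0
      · simpa [R] using hRd0
    · exact hRg0 _
  have hrealR : ∀ κ : Fin n → ℝ, (∀ s, eval (XW.rc κ) (R s) ≠ 0) → ∀ ω : ℂ,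
      eval (XW.rc κ + ω • XW.qc q) H = 0 → ω.im = 0 := by
    intro κ hκ ω hω
    refine hreal2 κ ?_ ?_ ω hω
    · simpa [R] using hκ (Sum.inl true)
    · simpa [R] using hκ (Sum.inl false)
  rcases dichotomy2 R hR0 hirr hdec.hom hdec.hpos hGdvd q hqH hrealR with
    ⟨q', hq'⟩ | ⟨κ, ω, hκ, h0, h1, h2, h3⟩
  · -- rational alternative
    obtain ⟨m, hm, p, hmp⟩ : ∃ m : ℕ, 0 < m ∧ ∃ p : Fin n → ℤ, ∀ j, (p j : ℚ) = m * q j := by
      refine ⟨∏ j, (q j).den, Finset.prod_pos (fun j _ => (q j).den_pos), ?_⟩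
      have : ∀ j, ∃ t : ℤ, (t : ℚ) = ((∏ j, (q j).den : ℕ) : ℚ) * q j := by
        intro j
        obtain ⟨e, he⟩ : (q j).den ∣ ∏ j, (q j).den := Finset.dvd_prod_of_mem _ (Finset.mem_univ j)
        refine ⟨e * (q j).num, ?_⟩
        rw [he]
        push_cast
        have hq := Rat.num_div_den (q j)
        have hden : ((q j).den : ℚ) ≠ 0 := by exact_mod_cast (q j).den_pos.ne'
        have : ((q j).num : ℚ) = (q j).den * q j := by
          rw [eq_comm, mul_comm]
          exact Rat.mul_den_eq_num (q j)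
        rw [this]
        ring
      choose t ht using this
      exact ⟨t, ht⟩
    have hmQ : (m : ℚ) ≠ 0 := by exact_mod_cast hm.ne'
    have hmC : (m : ℂ) ≠ 0 := by exact_mod_cast hm.ne'
    have hzc : XW.zc p = fun j => (m : ℂ) * XW.qc q j := by
      funext j
      have := congrArg (fun t : ℚ => (t : ℂ)) (hmp j)
      simpa [XW.zc, XW.qc] using this
    have hdirp : XW.dirD (XW.zc p) H = C (m : ℂ) * XW.dirD (XW.qc q) H := by
      rw [hzc]
      simp only [XW.dirD, Finset.mul_sum]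
      refine Finset.sum_congr rfl fun j _ => ?_
      rw [C_mul]
      ring
    have hdirp0 : XW.dirD (XW.zc p) H ≠ 0 := by
      rw [hdirp]
      exact mul_ne_zero (by simpa using hmC) hqH
    have hpd : ∀ j, pderiv j H = C (((q' j / m : ℚ)) : ℂ) * XW.dirD (XW.zc p) H := by
      intro j
      rw [hdirp, hq' j, ← mul_assoc, ← C_mul]
      congr 2
      push_cast
      field_simp
    obtain ⟨hsum, lam, hlam, hHl⟩ := XW.linear_of_pderiv hirr hdec.hom hdec.hpos p hdirp0
      (fun j => q' j / m) hpd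
    have hq''0 : (fun j => q' j / (m : ℚ)) ≠ 0 := by
      intro h0
      have : ∀ j, q' j / (m : ℚ) = 0 := fun j => congrFun h0 j
      simp [this] at hsum
    obtain ⟨c, q₀, k, hq₀, hc, hck⟩ := XW.primitive_vec _ hq''0
    have hlin : XW.lin (fun j => (c j : ℚ)) = C (q₀ : ℂ) * XW.lin (fun j => q' j / (m : ℚ)) := by
      simp only [XW.lin, Finset.mul_sum]
      refine Finset.sum_congr rfl fun j _ => ?_
      rw [← mul_assoc, ← C_mul]
      congr 2
      have := congrArg (fun t : ℚ => (t : ℂ)) (hc j)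
      simpa using this
    have hq₀C : (q₀ : ℂ) ≠ 0 := by exact_mod_cast hq₀
    have hHl' : H = C (lam / (q₀ : ℂ)) * XW.lin (fun j => (c j : ℚ)) := by
      rw [hlin, ← mul_assoc, ← C_mul, div_mul_cancel₀ _ hq₀C]
      exact hHl
    have hdec' := XW.dec_rescale hdec (fun j => (c j : ℚ)) (lam / (q₀ : ℂ))
      (div_ne_zero hlam hq₀C) hHl'
    have hcq : ∑ j, (c j : ℚ) * q j ≠ 0 := by
      have h4 : ∑ j, (c j : ℚ) * q j = q₀ / m := by
        have h5 : ∀ j, (c j : ℚ) * q j = (q₀ / m) * (q' j / m * p j) := by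
          intro j
          rw [hc j, hmp j]
          field_simp
        rw [Finset.sum_congr rfl (fun j _ => h5 j), ← Finset.mul_sum, hsum, mul_one]
      rw [h4]
      exact div_ne_zero hq₀ hmQ
    have hcalg := not_alg hV hp hs c hcq
    exact hno (rational_case hV c k hck hcalg hdec'
      (fun i hi hne => htame i hi (right_ne_zero_of_mul hne)))
  · -- irrational alternative
    have hRdκ : eval (XW.rc κ) Rd ≠ 0 := by simpa [R] using hκ (Sum.inl true)
    have hPdκ : eval (XW.rc κ) Pd ≠ 0 := by simpa [R] using hκ (Sum.inl false)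
    have hgd := hRd κ hRdκ
    have hcont : ∀ F : MvPolynomial (Fin n) ℂ,
        Continuous (fun κ' : Fin n → ℝ => eval (XW.rc κ') F) := by
      intro F
      refine (MvPolynomial.continuous_eval F).comp ?_
      refine continuous_pi fun j => ?_
      exact Complex.continuous_ofReal.comp (continuous_apply j)
    have hnear : ∀ᶠ κ' : Fin n → ℝ in 𝓝 κ, ∀ ω : ℂ,
        eval (XW.rc κ' + ω • XW.qc q) H = 0 → ω.im = 0 := by
      filter_upwards [(hcont Rd).continuousAt.eventually_ne hRdκ,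
        (hcont Pd).continuousAt.eventually_ne hPdκ] with κ' h4 h5
      exact hreal2 κ' h4 h5
    have hnu := nu_real2 H q κ hnear ω h0 h1
    have hν : ∀ j, eval (XW.rc κ + (ω : ℂ) • XW.qc q) (pderiv j H) =
        (((eval (XW.rc κ + (ω : ℂ) • XW.qc q) (pderiv j H) /
          eval (XW.rc κ + (ω : ℂ) • XW.qc q) (XW.dirD (XW.qc q) H)).re : ℝ) : ℂ) *
          eval (XW.rc κ + (ω : ℂ) • XW.qc q) (XW.dirD (XW.qc q) H) := by
      intro j
      have h4 : (((eval (XW.rc κ + (ω : ℂ) • XW.qc q) (pderiv j H) /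
          eval (XW.rc κ + (ω : ℂ) • XW.qc q) (XW.dirD (XW.qc q) H)).re : ℝ) : ℂ) =
          eval (XW.rc κ + (ω : ℂ) • XW.qc q) (pderiv j H) /
          eval (XW.rc κ + (ω : ℂ) • XW.qc q) (XW.dirD (XW.qc q) H) := by
        apply Complex.ext
        · simp
        · simpa using (hnu j).symm
      rw [h4, div_mul_cancel₀ _ h1]
    refine hno (irrational_case hV (fun b hb => not_alg hV hp hs b hb) Rf hRf Δf χf Af A'f hpf
      hgd.bdd.1 hgd.sheets.1 ?_ hdec ω h0 h1 (hBG _ h2) htame _ hν ?_)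
    · rintro b F (⟨b', c', j, k, rfl⟩ | ⟨k, rfl⟩) hF
      · exact hRg _ κ (hκ (Sum.inr (Sum.inl (b', c', j, k)))) hF
      · exact hRg _ κ (hκ (Sum.inr (Sum.inr (b, k)))) hF
    · rintro ⟨q', hq'⟩
      obtain ⟨j, hj⟩ := h3 q'
      apply hj
      rw [hν j, hq' j]
      simp

end XV
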