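import Pool.Agent.Lib.MP_228259_lc.V.Defs3
import Pool.Agent.Lib.MP_228259_lc.V.F2
import Pool.Agent.Lib.MP_228259_lc.V.F3
import Pool.Agent.Lib.MP_228259_lc.V.F7

/-!
XV-Z6 (slow, delta_low). Slow variation of polynomials along a sheet, and the lower bound of `Δ`.

`slow`: on the ball of radius `√N` the function `g(u) = eval (u + ω u • v) G` is holomorphic with
`N^{-C} ≤ ‖g‖ ≤ N^C'` (`Gen`; `Bdd`, `eval_bound`, `‖u‖ ≤ N^2`), `exists_log`: `g = exp L`,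
`|Re L| ≤ C'' log N`; `bc_lip`: `‖L u - L c‖ ≤ 16 C'' log N / √N * ‖u - c‖ ≤ 16 C'' log N √√N / √N → 0`
for `‖u - c‖ < √√N ≤ √N / 4`; `‖g(u)/g(c) - 1‖ = ‖exp (L u - L c) - 1‖ ≤ 2 ‖L u - L c‖ ≤ ε`.

`delta_low`: `h1 x (F s) Δ = ∑_k Δ_k(x) F^k s^k`. For `P ∣ Δ.coeff k` both values vanish; for the others
`slow`: `‖Δ_k(x_u) - Δ_k(x_c)‖ ≤ ε ‖Δ_k(x_c)‖`. So with `‖s‖ ≤ 2`, `m = max_k ‖Δ_k(x_c) F^k‖`,
`‖h1 x_u (F s) Δ - h1 x_c (F s) Δ‖ ≤ ε (deg + 1) 2^deg m ≤ (c₁ / 2) m` for `ε` small, and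
`‖h1 x_c (F s) Δ‖ ≥ c₁ m` (the maximum over the finitely many nonzero coefficients).
-/

set_option autoImplicit false

namespace XV

open MvPolynomial Filter Topology

private theorem Z6_ctr {n : ℕ} (κ : Fin n → ℝ) :
    ∀ᶠ N : ℕ in atTop, ∀ u ∈ Metric.ball (ctr κ N) (Real.sqrt N), 1 + ‖u‖ ≤ (N : ℝ) ^ 2 := by
  obtain ⟨M, hM⟩ := exists_nat_ge (2 * Real.pi * ‖κ‖ + 2)
  filter_upwards [eventually_ge_atTop (M + 1)] with N hN u hu
  have hN1 : (1 : ℝ) ≤ N := by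
    have : 1 ≤ N := by omega
    exact_mod_cast this
  have hNM : (M : ℝ) ≤ N := by
    have : M ≤ N := by omega
    exact_mod_cast this
  have h1 : ‖ctr κ N‖ ≤ 2 * Real.pi * ‖κ‖ * N := by
    rw [pi_norm_le_iff_of_nonneg (by positivity)]
    intro j
    unfold ctr
    rw [norm_mul, norm_mul, norm_mul, norm_mul, Complex.norm_I, Complex.norm_natCast,
      Complex.norm_real, Complex.norm_real, Complex.norm_ofNat]
    have h2 : ‖κ j‖ ≤ ‖κ‖ := norm_le_pi_norm κ j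
    have h3 : ‖Real.pi‖ = Real.pi := Real.norm_of_nonneg Real.pi_pos.le
    rw [h3]
    have hpi := Real.pi_pos
    calc 2 * Real.pi * 1 * (N : ℝ) * ‖κ j‖ = (2 * Real.pi * N) * ‖κ j‖ := by ring
      _ ≤ (2 * Real.pi * N) * ‖κ‖ := by gcongr
      _ = 2 * Real.pi * ‖κ‖ * N := by ring
  have h4 : ‖u‖ ≤ ‖ctr κ N‖ + Real.sqrt N := by
    have h5 : ‖u - ctr κ N‖ < Real.sqrt N := by
      rw [← dist_eq_norm]
      exact hu
    calc ‖u‖ = ‖(u - ctr κ N) + ctr κ N‖ := by rw [sub_add_cancel]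
      _ ≤ ‖u - ctr κ N‖ + ‖ctr κ N‖ := norm_add_le _ _
      _ ≤ ‖ctr κ N‖ + Real.sqrt N := by linarith
  have h6 : Real.sqrt N ≤ N := by
    rw [Real.sqrt_le_left (by linarith)]
    nlinarith
  have h7 : (2 * Real.pi * ‖κ‖ + 2) * N ≤ (N : ℝ) * N := by
    have : 2 * Real.pi * ‖κ‖ + 2 ≤ N := le_trans hM hNM
    gcongr
  nlinarith

private theorem Z6_log (c : ℝ) (hc : 0 < c) :
    ∀ᶠ N : ℕ in atTop, Real.log N ≤ c * Real.sqrt (Real.sqrt N) := by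
  have h1 := (isLittleO_log_rpow_atTop (r := 1 / 4) (by norm_num)).bound hc
  filter_upwards [tendsto_natCast_atTop_atTop.eventually h1] with N hN
  have hN0 : (0 : ℝ) ≤ N := Nat.cast_nonneg N
  rw [Real.norm_of_nonneg (Real.log_natCast_nonneg N),
    Real.norm_of_nonneg (Real.rpow_nonneg hN0 _)] at hN
  have h2 : Real.sqrt (Real.sqrt N) = (N : ℝ) ^ (1 / 4 : ℝ) := by
    rw [Real.sqrt_eq_rpow, Real.sqrt_eq_rpow, ← Real.rpow_mul hN0]
    norm_num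
  rw [h2]
  exact hN

private theorem Z6_sq {N : ℕ} (hN : 256 ≤ N) :
    Real.sqrt (Real.sqrt N) ≤ Real.sqrt N / 4 ∧ 4 ≤ Real.sqrt (Real.sqrt N) := by
  have h0 : (0 : ℝ) ≤ Real.sqrt N := Real.sqrt_nonneg _
  have hNR : (256 : ℝ) ≤ N := by exact_mod_cast hN
  have h1 : (16 : ℝ) ≤ Real.sqrt N := by
    rw [show (16 : ℝ) = Real.sqrt (16 ^ 2) by rw [Real.sqrt_sq (by norm_num)]]
    exact Real.sqrt_le_sqrt (by norm_num; exact hN)
  have h2 : (4 : ℝ) ≤ Real.sqrt (Real.sqrt N) := by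
    rw [show (4 : ℝ) = Real.sqrt (4 ^ 2) by rw [Real.sqrt_sq (by norm_num)]]
    exact Real.sqrt_le_sqrt (by norm_num; exact h1)
  have h3 : Real.sqrt (Real.sqrt N) * Real.sqrt (Real.sqrt N) = Real.sqrt N :=
    Real.mul_self_sqrt h0
  refine ⟨?_, h2⟩
  nlinarith

theorem slow {n : ℕ} {P : MvPolynomial (Fin n) ℂ} {v : Fin n → ℂ} {κ : Fin n → ℝ}
    (hb : Bdd P v κ) (G : MvPolynomial (Fin n) ℂ) (hG : Gen P v κ G) (ε : ℝ) (hε : 0 < ε) :
    ∀ᶠ N : ℕ in atTop, ∀ ω : (Fin n → ℂ) → ℂ,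
      DifferentiableOn ℂ ω (Metric.ball (ctr κ N) (Real.sqrt N)) →
      (∀ u ∈ Metric.ball (ctr κ N) (Real.sqrt N), eval (u + ω u • v) P = 0) →
      ∀ u ∈ Metric.ball (ctr κ N) (Real.sqrt (Real.sqrt N)),
        ‖eval (u + ω u • v) G - eval (ctr κ N + ω (ctr κ N) • v) G‖ ≤
          ε * ‖eval (ctr κ N + ω (ctr κ N) • v) G‖ := by
  obtain ⟨C₁, hC₁⟩ := hb
  obtain ⟨C₂, hC₂⟩ := hG
  obtain ⟨C₃, hC₃⟩ := eval_bound G
  obtain ⟨M, hM⟩ := exists_nat_ge (1 + ‖v‖)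
  obtain ⟨K, hK⟩ : ∃ K : ℕ, K = (C₁ + 3) * C₃ + 1 + C₂ := ⟨_, rfl⟩
  obtain ⟨e, he, he1, he2⟩ : ∃ e : ℝ, 0 < e ∧ e ≤ 1 ∧ 2 * e ≤ ε :=
    ⟨min 1 (ε / 2), lt_min one_pos (by linarith), min_le_left _ _, by
      have := min_le_right 1 (ε / 2)
      linarith⟩
  have hKp : (0 : ℝ) < 16 * (K + 1) := by positivity
  filter_upwards [hC₁, hC₂, Z6_ctr κ, eventually_ge_atTop (M + C₃ + 256),
    Z6_log (e / (16 * (K + 1))) (div_pos he hKp)] with N h1 h2 h3 h4 h5 ω hω hroot u hu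
  have hN256 : 256 ≤ N := by omega
  have hN1 : (1 : ℝ) < N := by
    have : 1 < N := by omega
    exact_mod_cast this
  have hNM : 1 + ‖v‖ ≤ N := hM.trans (by exact_mod_cast (by omega : M ≤ N))
  have hNC : (C₃ : ℝ) ≤ N := by exact_mod_cast (by omega : C₃ ≤ N)
  have hl : 0 < Real.log N := Real.log_pos hN1
  obtain ⟨hs1, hs2⟩ := Z6_sq hN256
  have hR : 0 < Real.sqrt N := Real.sqrt_pos.2 (by linarith)
  -- bounds for `g`
  have hup : ∀ w ∈ Metric.ball (ctr κ N) (Real.sqrt N),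
      ‖eval (w + ω w • v) G‖ ≤ (N : ℝ) ^ ((C₁ + 3) * C₃ + 1) := by
    intro w hw
    have b1 := h1 w hw (ω w) (hroot w hw)
    have b2 := h3 w hw
    have b3 : 1 + ‖w + ω w • v‖ ≤ (N : ℝ) ^ (C₁ + 3) := by
      have b4 : ‖w + ω w • v‖ ≤ ‖w‖ + (N : ℝ) ^ C₁ * ‖v‖ := by
        refine (norm_add_le _ _).trans ?_
        rw [norm_smul]
        gcongr
      have b5 : (1 : ℝ) ≤ (N : ℝ) ^ C₁ := one_le_pow₀ hN1.le
      have b6 : (1 : ℝ) ≤ (N : ℝ) ^ 2 := one_le_pow₀ hN1.le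
      have b7 : (N : ℝ) ^ 2 ≤ (N : ℝ) ^ 2 * (N : ℝ) ^ C₁ := le_mul_of_one_le_right (by positivity) b5
      have b8 : (N : ℝ) ^ C₁ * ‖v‖ ≤ (N : ℝ) ^ 2 * (N : ℝ) ^ C₁ * ‖v‖ := by
        have : (N : ℝ) ^ C₁ ≤ (N : ℝ) ^ 2 * (N : ℝ) ^ C₁ :=
          le_mul_of_one_le_left (by positivity) b6
        gcongr
      have b9 : (N : ℝ) ^ 2 * (N : ℝ) ^ C₁ * (1 + ‖v‖) ≤ (N : ℝ) ^ 2 * (N : ℝ) ^ C₁ * N := by
        gcongr
      have b10 : (N : ℝ) ^ (C₁ + 3) = (N : ℝ) ^ 2 * (N : ℝ) ^ C₁ * N := by ring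
      rw [b10]
      linarith
    refine (hC₃ _).trans ?_
    calc (C₃ : ℝ) * (1 + ‖w + ω w • v‖) ^ C₃ ≤ N * ((N : ℝ) ^ (C₁ + 3)) ^ C₃ := by gcongr
      _ = (N : ℝ) ^ ((C₁ + 3) * C₃ + 1) := by rw [← pow_mul]; ring
  have hlow : ∀ w ∈ Metric.ball (ctr κ N) (Real.sqrt N),
      1 ≤ ‖eval (w + ω w • v) G‖ * (N : ℝ) ^ C₂ := fun w hw => h2 w hw (ω w) (hroot w hw)
  have hne : ∀ w ∈ Metric.ball (ctr κ N) (Real.sqrt N), eval (w + ω w • v) G ≠ 0 := by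
    intro w hw h0
    have := hlow w hw
    rw [h0, norm_zero, zero_mul] at this
    linarith
  have hg : DifferentiableOn ℂ (fun w => eval (w + ω w • v) G)
      (Metric.ball (ctr κ N) (Real.sqrt N)) := by
    refine diff_eval G (fun w => w + ω w • v) fun j => ?_
    have e1 : (fun w : Fin n → ℂ => (w + ω w • v) j) = fun w => w j + ω w * v j := by
      funext w
      simp [Pi.add_apply, Pi.smul_apply, smul_eq_mul]
    rw [e1]
    refine DifferentiableOn.add ?_ (hω.mul_const _)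
    exact (differentiable_apply j).differentiableOn
  obtain ⟨L, hL, hexp⟩ := exists_log Metric.isOpen_ball (convex_ball _ _) _ hg hne
  have hre : ∀ w ∈ Metric.ball (ctr κ N) (Real.sqrt N), |(L w).re| ≤ (K + 1) * Real.log N := by
    intro w hw
    have c1 : (L w).re = Real.log ‖eval (w + ω w • v) G‖ := by
      rw [← hexp w hw, Complex.norm_exp, Real.log_exp]
    have c2 : 0 < ‖eval (w + ω w • v) G‖ := norm_pos_iff.2 (hne w hw)
    have c3 : Real.log ‖eval (w + ω w • v) G‖ ≤ ((C₁ + 3) * C₃ + 1 : ℕ) * Real.log N := by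
      rw [← Real.log_pow]
      exact Real.log_le_log c2 (hup w hw)
    have c4 : 0 ≤ Real.log ‖eval (w + ω w • v) G‖ + C₂ * Real.log N := by
      rw [← Real.log_pow, ← Real.log_mul c2.ne' (by positivity)]
      exact Real.log_nonneg (hlow w hw)
    have c5 : (((C₁ + 3) * C₃ + 1 : ℕ) : ℝ) ≤ K := by
      rw [hK]
      exact_mod_cast Nat.le_add_right _ _
    have c6 : (C₂ : ℝ) ≤ K := by
      rw [hK]
      exact_mod_cast Nat.le_add_left _ _
    have c7 := mul_le_mul_of_nonneg_right c5 hl.le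
    have c8 := mul_le_mul_of_nonneg_right c6 hl.le
    rw [c1, abs_le]
    constructor <;> linarith
  have hcc : ctr κ N ∈ Metric.ball (ctr κ N) (Real.sqrt N / 4) :=
    Metric.mem_ball_self (by linarith)
  have hcu : u ∈ Metric.ball (ctr κ N) (Real.sqrt N / 4) := Metric.ball_subset_ball hs1 hu
  have hlip := bc_lip hR (mul_pos (by positivity : (0 : ℝ) < (K : ℝ) + 1) hl) L hL hre hcu hcc
  have hsm : ‖L u - L (ctr κ N)‖ ≤ e := by
    refine hlip.trans ?_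
    have d1 : ‖u - ctr κ N‖ ≤ Real.sqrt (Real.sqrt N) := by
      rw [← dist_eq_norm]
      exact (Metric.mem_ball.1 hu).le
    have d2 : Real.sqrt (Real.sqrt N) * Real.sqrt (Real.sqrt N) = Real.sqrt N :=
      Real.mul_self_sqrt hR.le
    have d3 : 16 * (((K : ℝ) + 1) * Real.log N) ≤ e * Real.sqrt (Real.sqrt N) := by
      have d4 : Real.log N * (16 * ((K : ℝ) + 1)) ≤ e * Real.sqrt (Real.sqrt N) := by
        have d5 := mul_le_mul_of_nonneg_right h5 hKp.le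
        have d6 : e / (16 * ((K : ℝ) + 1)) * Real.sqrt (Real.sqrt N) * (16 * ((K : ℝ) + 1)) =
            e * Real.sqrt (Real.sqrt N) := by
          field_simp
        linarith
      linarith
    calc 16 * (((K : ℝ) + 1) * Real.log N) / Real.sqrt N * ‖u - ctr κ N‖
        ≤ 16 * (((K : ℝ) + 1) * Real.log N) / Real.sqrt N * Real.sqrt (Real.sqrt N) := by
          gcongr
      _ ≤ e * Real.sqrt (Real.sqrt N) / Real.sqrt N * Real.sqrt (Real.sqrt N) := by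
          gcongr
      _ = e * (Real.sqrt (Real.sqrt N) * Real.sqrt (Real.sqrt N)) / Real.sqrt N := by ring
      _ = e := by rw [d2]; field_simp
  have hcm : ctr κ N ∈ Metric.ball (ctr κ N) (Real.sqrt N) := Metric.mem_ball_self hR
  have hum : u ∈ Metric.ball (ctr κ N) (Real.sqrt N) :=
    Metric.ball_subset_ball (by linarith) hcu
  have hx := Complex.norm_exp_sub_one_le (hsm.trans he1)
  have hfac : eval (u + ω u • v) G - eval (ctr κ N + ω (ctr κ N) • v) G =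
      eval (ctr κ N + ω (ctr κ N) • v) G * (Complex.exp (L u - L (ctr κ N)) - 1) := by
    rw [← hexp u hum, ← hexp _ hcm, mul_sub, mul_one, ← Complex.exp_add]
    congr 2
    ring
  rw [hfac, norm_mul, mul_comm ε]
  refine mul_le_mul_of_nonneg_left ?_ (norm_nonneg _)
  linarith

theorem delta_low {n : ℕ} {P : MvPolynomial (Fin n) ℂ} {v : Fin n → ℂ} {κ : Fin n → ℝ}
    (hb : Bdd P v κ) (Δ : R1 n) (hΔ : ∀ k, ¬ P ∣ Δ.coeff k → Gen P v κ (Δ.coeff k)) (c₁ : ℝ)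
    (hc₁ : 0 < c₁) :
    ∀ᶠ N : ℕ in atTop, ∀ ω : (Fin n → ℂ) → ℂ,
      DifferentiableOn ℂ ω (Metric.ball (ctr κ N) (Real.sqrt N)) →
      (∀ u ∈ Metric.ball (ctr κ N) (Real.sqrt N), eval (u + ω u • v) P = 0) →
      ∀ F s : ℂ, ‖s‖ ≤ 2 →
        (∀ k, c₁ * ‖eval (ctr κ N + ω (ctr κ N) • v) (Δ.coeff k) * F ^ k‖ ≤
          ‖h1 (ctr κ N + ω (ctr κ N) • v) (F * s) Δ‖) →
        ∀ u ∈ Metric.ball (ctr κ N) (Real.sqrt (Real.sqrt N)), ∀ k,
          c₁ / 2 * ‖eval (ctr κ N + ω (ctr κ N) • v) (Δ.coeff k) * F ^ k‖ ≤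
            ‖h1 (u + ω u • v) (F * s) Δ‖ := by
  classical
  obtain ⟨d, hd⟩ : ∃ d : ℕ, d = Δ.natDegree := ⟨_, rfl⟩
  obtain ⟨e, he⟩ : ∃ e : ℝ, e = c₁ / (2 ^ (d + 1) * (d + 1)) := ⟨_, rfl⟩
  have he0 : 0 < e := by
    rw [he]
    positivity
  have key : ∀ k ∈ Finset.range (d + 1), ∀ᶠ N : ℕ in atTop, ∀ ω : (Fin n → ℂ) → ℂ,
      DifferentiableOn ℂ ω (Metric.ball (ctr κ N) (Real.sqrt N)) →
      (∀ u ∈ Metric.ball (ctr κ N) (Real.sqrt N), eval (u + ω u • v) P = 0) →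
      ∀ u ∈ Metric.ball (ctr κ N) (Real.sqrt (Real.sqrt N)),
        ‖eval (u + ω u • v) (Δ.coeff k) - eval (ctr κ N + ω (ctr κ N) • v) (Δ.coeff k)‖ ≤
          e * ‖eval (ctr κ N + ω (ctr κ N) • v) (Δ.coeff k)‖ := by
    intro k _
    by_cases hP : P ∣ Δ.coeff k
    · filter_upwards [eventually_ge_atTop 256] with N hN ω _ hroot u hu
      obtain ⟨hs1, hs2⟩ := Z6_sq hN
      have hR : 0 < Real.sqrt N := by linarith
      obtain ⟨Q, hQ⟩ := hP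
      have z1 : ∀ w ∈ Metric.ball (ctr κ N) (Real.sqrt N),
          eval (w + ω w • v) (Δ.coeff k) = 0 := by
        intro w hw
        rw [hQ, map_mul, hroot w hw, zero_mul]
      rw [z1 u (Metric.ball_subset_ball (by linarith) hu), z1 _ (Metric.mem_ball_self hR)]
      simp
    · exact slow hb (Δ.coeff k) (hΔ k hP) e he0
  filter_upwards [(Filter.eventually_all_finset (Finset.range (d + 1))).2 key]
    with N hN ω hω hroot F s hs hk u hu k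
  obtain ⟨H, hH⟩ : ∃ H : ℝ, H = ‖h1 (ctr κ N + ω (ctr κ N) • v) (F * s) Δ‖ := ⟨_, rfl⟩
  rw [← hH] at hk
  have hdiff : ‖h1 (u + ω u • v) (F * s) Δ - h1 (ctr κ N + ω (ctr κ N) • v) (F * s) Δ‖ ≤
      H / 2 := by
    rw [F7_h1_eq, F7_h1_eq, ← Finset.sum_sub_distrib, ← hd]
    refine (norm_sum_le _ _).trans ?_
    have hterm : ∀ i ∈ Finset.range (d + 1),
        ‖eval (u + ω u • v) (Δ.coeff i) * (F * s) ^ i -
          eval (ctr κ N + ω (ctr κ N) • v) (Δ.coeff i) * (F * s) ^ i‖ ≤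
          H / (2 * (d + 1)) := by
      intro i hi
      have t1 := hN i hi ω hω hroot u hu
      rw [← sub_mul, norm_mul]
      have t2 : ‖(F * s) ^ i‖ ≤ ‖F ^ i‖ * 2 ^ d := by
        rw [mul_pow, norm_mul]
        refine mul_le_mul_of_nonneg_left ?_ (norm_nonneg _)
        rw [norm_pow]
        have t3 : ‖s‖ ^ i ≤ 2 ^ i := pow_le_pow_left₀ (norm_nonneg _) hs i
        have t4 : (2 : ℝ) ^ i ≤ 2 ^ d :=
          pow_le_pow_right₀ (by norm_num) (Nat.lt_succ_iff.1 (Finset.mem_range.1 hi))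
        exact t3.trans t4
      have t5 := hk i
      calc ‖eval (u + ω u • v) (Δ.coeff i) -
            eval (ctr κ N + ω (ctr κ N) • v) (Δ.coeff i)‖ * ‖(F * s) ^ i‖
          ≤ (e * ‖eval (ctr κ N + ω (ctr κ N) • v) (Δ.coeff i)‖) * (‖F ^ i‖ * 2 ^ d) :=
            mul_le_mul t1 t2 (norm_nonneg _) (by positivity)
        _ = (e * 2 ^ d / c₁) * (c₁ * ‖eval (ctr κ N + ω (ctr κ N) • v) (Δ.coeff i) *
              F ^ i‖) := by
            rw [norm_mul]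
            field_simp
        _ ≤ (e * 2 ^ d / c₁) * H := mul_le_mul_of_nonneg_left t5 (by positivity)
        _ = H / (2 * (d + 1)) := by
            rw [he, pow_succ]
            field_simp
    refine (Finset.sum_le_sum hterm).trans (le_of_eq ?_)
    rw [Finset.sum_const, Finset.card_range, nsmul_eq_mul]
    push_cast
    field_simp
  have hfin : H ≤ ‖h1 (u + ω u • v) (F * s) Δ‖ + H / 2 := by
    calc H = ‖h1 (ctr κ N + ω (ctr κ N) • v) (F * s) Δ‖ := hH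
      _ = ‖h1 (u + ω u • v) (F * s) Δ - (h1 (u + ω u • v) (F * s) Δ -
            h1 (ctr κ N + ω (ctr κ N) • v) (F * s) Δ)‖ := by rw [sub_sub_cancel]
      _ ≤ ‖h1 (u + ω u • v) (F * s) Δ‖ + ‖h1 (u + ω u • v) (F * s) Δ -
            h1 (ctr κ N + ω (ctr κ N) • v) (F * s) Δ‖ := norm_sub_le _ _
      _ ≤ _ := by linarith
  have := hk k
  linarith

end XV
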